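import Pool.Agent.Box4.Num
set_option linter.all false
set_option autoImplicit false

namespace Pool.Agent.Box4.BB

open Pool.Agent.Box3

def ps : List PB := [
  ⟨⟨⟨c14x, c15x, c14x, c22x⟩, ⟨.ofNat 0, .negSucc 0, c22x⟩, ⟨.negSucc 0, .ofNat 0, c20x⟩, ⟨.ofNat 0, .ofNat 0, c14x⟩⟩, [0, 1, 787]⟩,
  ⟨⟨⟨c15x, c16x, c17x, c22x⟩, ⟨.ofNat 0, .negSucc 0, c22x⟩, ⟨.negSucc 0, .ofNat 0, c20x⟩, ⟨.ofNat 0, .ofNat 0, c14x⟩⟩, [0, 1, 2, 3, 4]⟩,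
  ⟨⟨⟨c18x, c20x, c21x, c22x⟩, ⟨.ofNat 0, .negSucc 0, c22x⟩, ⟨.negSucc 0, .ofNat 0, c20x⟩, ⟨.ofNat 0, .ofNat 0, c14x⟩⟩, [4, 5, 6, 7, 8]⟩,
  ⟨⟨⟨c7x, c8x, c9x, c4x⟩, ⟨.ofNat 1, .ofNat 0, c651x⟩, ⟨.ofNat 0, .negSucc 0, c22x⟩, ⟨.ofNat 0, .ofNat 0, c14x⟩⟩, [9, 10, 11, 12]⟩,
  ⟨⟨⟨c12x, c1x, c3x, c22x⟩, ⟨.ofNat 1, .ofNat 0, c651x⟩, ⟨.ofNat 0, .negSucc 0, c22x⟩, ⟨.ofNat 0, .ofNat 0, c14x⟩⟩, [12, 13, 14, 20, 21]⟩,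
  ⟨⟨⟨c8x, c12x, c9x, c22x⟩, ⟨.ofNat 1, .ofNat 0, c651x⟩, ⟨.ofNat 0, .negSucc 0, c22x⟩, ⟨.ofNat 0, .ofNat 0, c14x⟩⟩, [8, 9, 10, 12, 13]⟩,
  ⟨⟨⟨c2x, c5x, c6x, c4x⟩, ⟨.ofNat 1, .ofNat 0, c651x⟩, ⟨.ofNat 0, .negSucc 0, c22x⟩, ⟨.ofNat 0, .ofNat 0, c14x⟩⟩, [14, 15, 16, 17, 18, 20]⟩,
  ⟨⟨⟨c1x, c2x, c3x, c4x⟩, ⟨.ofNat 1, .ofNat 0, c651x⟩, ⟨.ofNat 0, .negSucc 0, c22x⟩, ⟨.ofNat 0, .ofNat 0, c14x⟩⟩, [14, 15, 20, 21]⟩,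
  ⟨⟨⟨c5x, c10x, c11x, c4x⟩, ⟨.ofNat 1, .ofNat 0, c651x⟩, ⟨.ofNat 0, .negSucc 0, c22x⟩, ⟨.ofNat 0, .ofNat 0, c14x⟩⟩, [17, 18, 19, 20]⟩,
  ⟨⟨⟨c23x, c24x, c25x, c17x⟩, ⟨.ofNat 0, .ofNat 1, c652x⟩, ⟨.ofNat 0, .ofNat 0, c14x⟩, ⟨.negSucc 0, .ofNat 0, c34x⟩⟩, [27, 28, 29, 30]⟩,
  ⟨⟨⟨c24x, c34x, c25x, c22x⟩, ⟨.ofNat 0, .ofNat 1, c652x⟩, ⟨.ofNat 0, .ofNat 0, c14x⟩, ⟨.negSucc 0, .ofNat 0, c34x⟩⟩, [25, 26, 27, 28, 30]⟩,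
  ⟨⟨⟨c34x, c36x, c25x, c22x⟩, ⟨.ofNat 0, .ofNat 1, c652x⟩, ⟨.ofNat 1, .ofNat 0, c653x⟩, ⟨.ofNat 0, .ofNat 0, c14x⟩⟩, [25, 26, 30, 31, 32]⟩,
  ⟨⟨⟨c36x, c38x, c21x, c22x⟩, ⟨.ofNat 0, .ofNat 1, c652x⟩, ⟨.ofNat 1, .ofNat 0, c653x⟩, ⟨.ofNat 0, .ofNat 0, c14x⟩⟩, [31, 32, 33]⟩,
  ⟨⟨⟨c38x, c39x, c14x, c22x⟩, ⟨.ofNat 0, .ofNat 1, c652x⟩, ⟨.ofNat 1, .ofNat 0, c653x⟩, ⟨.ofNat 0, .ofNat 0, c14x⟩⟩, [32, 33, 34]⟩,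
  ⟨⟨⟨c39x, c41x, c14x, c22x⟩, ⟨.ofNat 0, .ofNat 1, c652x⟩, ⟨.ofNat 1, .ofNat 0, c653x⟩, ⟨.ofNat 0, .ofNat 0, c14x⟩⟩, [34, 35]⟩,
  ⟨⟨⟨c41x, c42x, c17x, c22x⟩, ⟨.ofNat 0, .ofNat 1, c652x⟩, ⟨.ofNat 1, .ofNat 0, c653x⟩, ⟨.ofNat 0, .ofNat 0, c14x⟩⟩, [34, 35, 36, 37, 38]⟩,
  ⟨⟨⟨c44x, c45x, c21x, c22x⟩, ⟨.ofNat 0, .ofNat 1, c652x⟩, ⟨.ofNat 1, .ofNat 0, c653x⟩, ⟨.ofNat 0, .ofNat 0, c14x⟩⟩, [38, 39, 40, 41, 42]⟩,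
  ⟨⟨⟨c26x, c27x, c9x, c4x⟩, ⟨.negSucc 0, .ofNat 0, c35x⟩, ⟨.ofNat 0, .ofNat 1, c654x⟩, ⟨.ofNat 0, .ofNat 0, c14x⟩⟩, [43, 44, 45, 46]⟩,
  ⟨⟨⟨c46x, c28x, c3x, c22x⟩, ⟨.negSucc 0, .ofNat 0, c35x⟩, ⟨.ofNat 0, .ofNat 1, c654x⟩, ⟨.ofNat 0, .ofNat 0, c14x⟩⟩, [46, 47, 48, 54, 55]⟩,
  ⟨⟨⟨c27x, c46x, c9x, c22x⟩, ⟨.negSucc 0, .ofNat 0, c35x⟩, ⟨.ofNat 0, .ofNat 1, c654x⟩, ⟨.ofNat 0, .ofNat 0, c14x⟩⟩, [42, 43, 44, 46, 47]⟩,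
  ⟨⟨⟨c29x, c30x, c6x, c4x⟩, ⟨.negSucc 0, .ofNat 0, c35x⟩, ⟨.ofNat 0, .ofNat 1, c654x⟩, ⟨.ofNat 0, .ofNat 0, c14x⟩⟩, [48, 49, 50, 51, 52, 54]⟩,
  ⟨⟨⟨c28x, c29x, c3x, c4x⟩, ⟨.negSucc 0, .ofNat 0, c35x⟩, ⟨.ofNat 0, .ofNat 1, c654x⟩, ⟨.ofNat 0, .ofNat 0, c14x⟩⟩, [48, 49, 54, 55]⟩,
  ⟨⟨⟨c30x, c31x, c11x, c4x⟩, ⟨.negSucc 0, .ofNat 0, c35x⟩, ⟨.ofNat 0, .ofNat 1, c654x⟩, ⟨.ofNat 0, .ofNat 0, c14x⟩⟩, [51, 52, 53, 54]⟩,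
  ⟨⟨⟨c32x, c33x, c25x, c17x⟩, ⟨.ofNat 0, .negSucc 0, c22x⟩, ⟨.ofNat 0, .ofNat 0, c655x⟩, ⟨.negSucc 0, .ofNat 0, c35x⟩⟩, [61, 62, 63, 64]⟩,
  ⟨⟨⟨c33x, c35x, c25x, c22x⟩, ⟨.ofNat 0, .negSucc 0, c22x⟩, ⟨.ofNat 0, .ofNat 0, c655x⟩, ⟨.negSucc 0, .ofNat 0, c35x⟩⟩, [59, 60, 61, 62, 64]⟩,
  ⟨⟨⟨c35x, c47x, c25x, c22x⟩, ⟨.ofNat 0, .negSucc 0, c22x⟩, ⟨.negSucc 0, .ofNat 0, c56x⟩, ⟨.ofNat 0, .ofNat 0, c14x⟩⟩, [59, 60, 64, 65, 66]⟩,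
  ⟨⟨⟨c48x, c49x, c14x, c22x⟩, ⟨.ofNat 0, .negSucc 0, c22x⟩, ⟨.negSucc 0, .ofNat 0, c56x⟩, ⟨.ofNat 0, .ofNat 0, c14x⟩⟩, [66, 67, 68, 69]⟩,
  ⟨⟨⟨c16x, c18x, c19x, c22x⟩, ⟨.ofNat 0, .negSucc 0, c22x⟩, ⟨.negSucc 0, .ofNat 0, c20x⟩, ⟨.ofNat 0, .ofNat 0, c14x⟩⟩, [3, 4, 5]⟩,
  ⟨⟨⟨c14x, c15x, c22x, c13x⟩, ⟨.ofNat 0, .ofNat 0, c14x⟩, ⟨.negSucc 0, .ofNat 0, c20x⟩, ⟨.ofNat 0, .ofNat 1, c656x⟩⟩, [786, 787]⟩,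
  ⟨⟨⟨c15x, c16x, c22x, c13x⟩, ⟨.ofNat 0, .ofNat 0, c14x⟩, ⟨.negSucc 0, .ofNat 0, c20x⟩, ⟨.ofNat 0, .ofNat 1, c656x⟩⟩, [786]⟩,
  ⟨⟨⟨c16x, c18x, c22x, c13x⟩, ⟨.ofNat 0, .ofNat 0, c14x⟩, ⟨.negSucc 0, .ofNat 0, c20x⟩, ⟨.ofNat 0, .ofNat 1, c656x⟩⟩, [786]⟩,
  ⟨⟨⟨c18x, c20x, c22x, c13x⟩, ⟨.ofNat 0, .ofNat 0, c14x⟩, ⟨.negSucc 0, .ofNat 0, c20x⟩, ⟨.ofNat 0, .ofNat 1, c656x⟩⟩, [7, 8, 786]⟩,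
  ⟨⟨⟨c20x, c8x, c22x, c13x⟩, ⟨.ofNat 1, .ofNat 0, c651x⟩, ⟨.ofNat 0, .ofNat 0, c14x⟩, ⟨.ofNat 0, .ofNat 1, c656x⟩⟩, [7, 8, 9, 786]⟩,
  ⟨⟨⟨c8x, c12x, c22x, c13x⟩, ⟨.ofNat 1, .ofNat 0, c651x⟩, ⟨.ofNat 0, .ofNat 0, c14x⟩, ⟨.ofNat 0, .ofNat 1, c656x⟩⟩, [8, 9, 786]⟩,
  ⟨⟨⟨c12x, c1x, c22x, c13x⟩, ⟨.ofNat 1, .ofNat 0, c651x⟩, ⟨.ofNat 0, .ofNat 0, c14x⟩, ⟨.ofNat 0, .ofNat 1, c656x⟩⟩, [21, 22, 786]⟩,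
  ⟨⟨⟨c34x, c36x, c22x, c13x⟩, ⟨.ofNat 0, .ofNat 0, c657x⟩, ⟨.ofNat 1, .ofNat 0, c653x⟩, ⟨.ofNat 0, .ofNat 1, c656x⟩⟩, [24, 25, 26, 786]⟩,
  ⟨⟨⟨c42x, c44x, c19x, c22x⟩, ⟨.ofNat 0, .ofNat 1, c652x⟩, ⟨.ofNat 1, .ofNat 0, c653x⟩, ⟨.ofNat 0, .ofNat 0, c14x⟩⟩, [37, 38, 39]⟩,
  ⟨⟨⟨c47x, c48x, c21x, c22x⟩, ⟨.ofNat 0, .negSucc 0, c22x⟩, ⟨.negSucc 0, .ofNat 0, c56x⟩, ⟨.ofNat 0, .ofNat 0, c14x⟩⟩, [65, 66, 67]⟩,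
  ⟨⟨⟨c36x, c38x, c22x, c13x⟩, ⟨.ofNat 0, .ofNat 0, c657x⟩, ⟨.ofNat 1, .ofNat 0, c653x⟩, ⟨.ofNat 0, .ofNat 1, c656x⟩⟩, [786]⟩,
  ⟨⟨⟨c38x, c39x, c22x, c13x⟩, ⟨.ofNat 0, .ofNat 0, c657x⟩, ⟨.ofNat 1, .ofNat 0, c653x⟩, ⟨.ofNat 0, .ofNat 1, c656x⟩⟩, [785, 786]⟩,
  ⟨⟨⟨c2x, c34x, c37x, c13x⟩, ⟨.ofNat 1, .ofNat 0, c651x⟩, ⟨.ofNat 0, .ofNat 0, c14x⟩, ⟨.ofNat 0, .ofNat 1, c656x⟩⟩, [22, 23, 24, 25, 786]⟩,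
  ⟨⟨⟨c1x, c2x, c40x, c13x⟩, ⟨.ofNat 1, .ofNat 0, c651x⟩, ⟨.ofNat 0, .ofNat 0, c14x⟩, ⟨.ofNat 0, .ofNat 1, c656x⟩⟩, [21, 22, 23, 786]⟩,
  ⟨⟨⟨c39x, c41x, c22x, c43x⟩, ⟨.ofNat 0, .ofNat 0, c657x⟩, ⟨.ofNat 1, .ofNat 0, c653x⟩, ⟨.ofNat 0, .ofNat 1, c656x⟩⟩, [784, 785, 786]⟩,
  ⟨⟨⟨c41x, c42x, c22x, c43x⟩, ⟨.ofNat 0, .ofNat 0, c657x⟩, ⟨.ofNat 1, .ofNat 0, c653x⟩, ⟨.ofNat 0, .ofNat 1, c656x⟩⟩, [784]⟩,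
  ⟨⟨⟨c42x, c44x, c22x, c43x⟩, ⟨.ofNat 0, .ofNat 0, c657x⟩, ⟨.ofNat 1, .ofNat 0, c653x⟩, ⟨.ofNat 0, .ofNat 1, c656x⟩⟩, [784]⟩,
  ⟨⟨⟨c44x, c45x, c22x, c43x⟩, ⟨.ofNat 0, .ofNat 0, c657x⟩, ⟨.ofNat 1, .ofNat 0, c653x⟩, ⟨.ofNat 0, .ofNat 1, c656x⟩⟩, [41, 42, 784]⟩,
  ⟨⟨⟨c45x, c27x, c22x, c43x⟩, ⟨.negSucc 0, .ofNat 0, c35x⟩, ⟨.ofNat 0, .ofNat 0, c655x⟩, ⟨.ofNat 0, .ofNat 1, c656x⟩⟩, [41, 42, 43, 784]⟩,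
  ⟨⟨⟨c27x, c46x, c22x, c43x⟩, ⟨.negSucc 0, .ofNat 0, c35x⟩, ⟨.ofNat 0, .ofNat 0, c655x⟩, ⟨.ofNat 0, .ofNat 1, c656x⟩⟩, [42, 43, 784]⟩,
  ⟨⟨⟨c46x, c28x, c22x, c43x⟩, ⟨.negSucc 0, .ofNat 0, c35x⟩, ⟨.ofNat 0, .ofNat 0, c655x⟩, ⟨.ofNat 0, .ofNat 1, c656x⟩⟩, [55, 56, 784]⟩,
  ⟨⟨⟨c28x, c29x, c40x, c43x⟩, ⟨.negSucc 0, .ofNat 0, c35x⟩, ⟨.ofNat 0, .ofNat 0, c655x⟩, ⟨.ofNat 0, .ofNat 1, c656x⟩⟩, [55, 56, 57, 784]⟩,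
  ⟨⟨⟨c29x, c35x, c37x, c43x⟩, ⟨.negSucc 0, .ofNat 0, c35x⟩, ⟨.ofNat 0, .ofNat 0, c655x⟩, ⟨.ofNat 0, .ofNat 1, c656x⟩⟩, [56, 57, 58, 59, 784]⟩,
  ⟨⟨⟨c35x, c47x, c22x, c43x⟩, ⟨.ofNat 0, .ofNat 0, c14x⟩, ⟨.negSucc 0, .ofNat 0, c56x⟩, ⟨.ofNat 0, .ofNat 1, c656x⟩⟩, [58, 59, 60, 784]⟩,
  ⟨⟨⟨c47x, c48x, c22x, c43x⟩, ⟨.ofNat 0, .ofNat 0, c14x⟩, ⟨.negSucc 0, .ofNat 0, c56x⟩, ⟨.ofNat 0, .ofNat 1, c656x⟩⟩, [784]⟩,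
  ⟨⟨⟨c48x, c49x, c22x, c43x⟩, ⟨.ofNat 0, .ofNat 0, c14x⟩, ⟨.negSucc 0, .ofNat 0, c56x⟩, ⟨.ofNat 0, .ofNat 1, c656x⟩⟩, [69, 70, 783, 784]⟩,
  ⟨⟨⟨c49x, c61x, c13x, c62x⟩, ⟨.ofNat 0, .ofNat 0, c14x⟩, ⟨.negSucc 0, .ofNat 0, c56x⟩, ⟨.ofNat 0, .ofNat 1, c656x⟩⟩, [69, 70, 781, 782, 783, 784]⟩,
  ⟨⟨⟨c61x, c53x, c13x, c63x⟩, ⟨.ofNat 0, .ofNat 0, c14x⟩, ⟨.negSucc 0, .ofNat 0, c56x⟩, ⟨.ofNat 0, .ofNat 1, c656x⟩⟩, [70, 778, 779, 780, 781, 782]⟩,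
  ⟨⟨⟨c53x, c54x, c13x, c55x⟩, ⟨.ofNat 0, .ofNat 0, c14x⟩, ⟨.negSucc 0, .ofNat 0, c56x⟩, ⟨.ofNat 0, .ofNat 1, c656x⟩⟩, [70, 777, 778, 779]⟩,
  ⟨⟨⟨c54x, c56x, c13x, c64x⟩, ⟨.ofNat 0, .ofNat 0, c14x⟩, ⟨.negSucc 0, .ofNat 0, c56x⟩, ⟨.ofNat 0, .ofNat 1, c656x⟩⟩, [70, 774, 775, 776, 777, 778]⟩,
  ⟨⟨⟨c56x, c57x, c13x, c58x⟩, ⟨.ofNat 1, .ofNat 0, c658x⟩, ⟨.ofNat 0, .ofNat 0, c14x⟩, ⟨.ofNat 0, .ofNat 1, c656x⟩⟩, [70, 773, 774, 775]⟩,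
  ⟨⟨⟨c57x, c65x, c13x, c66x⟩, ⟨.ofNat 1, .ofNat 0, c658x⟩, ⟨.ofNat 0, .ofNat 0, c14x⟩, ⟨.ofNat 0, .ofNat 1, c656x⟩⟩, [70, 769, 770, 772, 773, 774]⟩,
  ⟨⟨⟨c65x, c50x, c13x, c70x⟩, ⟨.ofNat 1, .ofNat 0, c658x⟩, ⟨.ofNat 0, .ofNat 0, c14x⟩, ⟨.ofNat 0, .ofNat 1, c656x⟩⟩, [70, 760, 761, 762, 768, 769, 770]⟩,
  ⟨⟨⟨c50x, c51x, c13x, c52x⟩, ⟨.ofNat 1, .ofNat 0, c658x⟩, ⟨.ofNat 0, .ofNat 0, c14x⟩, ⟨.ofNat 0, .ofNat 1, c656x⟩⟩, [70, 759, 760, 761]⟩,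
  ⟨⟨⟨c51x, c59x, c13x, c60x⟩, ⟨.ofNat 1, .ofNat 0, c658x⟩, ⟨.ofNat 0, .ofNat 0, c14x⟩, ⟨.ofNat 0, .ofNat 1, c656x⟩⟩, [70, 757, 758, 759, 760]⟩,
  ⟨⟨⟨c67x, c68x, c13x, c64x⟩, ⟨.ofNat 0, .ofNat 0, c657x⟩, ⟨.ofNat 1, .ofNat 0, c659x⟩, ⟨.ofNat 0, .ofNat 1, c656x⟩⟩, [70, 749, 750, 751]⟩,
  ⟨⟨⟨c68x, c69x, c13x, c62x⟩, ⟨.ofNat 0, .ofNat 0, c657x⟩, ⟨.ofNat 1, .ofNat 0, c659x⟩, ⟨.ofNat 0, .ofNat 1, c656x⟩⟩, [70, 71, 72, 747, 748, 749, 750]⟩,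
  ⟨⟨⟨c59x, c67x, c13x, c71x⟩, ⟨.ofNat 0, .ofNat 0, c657x⟩, ⟨.ofNat 1, .ofNat 0, c659x⟩, ⟨.ofNat 0, .ofNat 1, c656x⟩⟩, [70, 750, 751, 752, 756, 757, 758]⟩,
  ⟨⟨⟨c85x, c86x, c60x, c58x⟩, ⟨.ofNat 1, .ofNat 0, c660x⟩, ⟨.ofNat 0, .ofNat 0, c14x⟩, ⟨.ofNat 0, .ofNat 1, c656x⟩⟩, [98, 99, 100, 101]⟩,
  ⟨⟨⟨c72x, c57x, c73x, c66x⟩, ⟨.ofNat 1, .ofNat 0, c658x⟩, ⟨.ofNat 0, .ofNat 0, c14x⟩, ⟨.ofNat 0, .ofNat 1, c656x⟩⟩, [770, 771, 772, 773]⟩,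
  ⟨⟨⟨c50x, c51x, c73x, c70x⟩, ⟨.ofNat 1, .ofNat 0, c658x⟩, ⟨.ofNat 0, .ofNat 0, c14x⟩, ⟨.ofNat 0, .ofNat 1, c656x⟩⟩, [761, 762, 767, 768]⟩,
  ⟨⟨⟨c51x, c74x, c73x, c88x⟩, ⟨.ofNat 1, .ofNat 0, c658x⟩, ⟨.ofNat 0, .ofNat 0, c14x⟩, ⟨.ofNat 0, .ofNat 1, c656x⟩⟩, [762, 764, 765, 766, 767, 768]⟩,
  ⟨⟨⟨c74x, c75x, c73x, c76x⟩, ⟨.ofNat 1, .ofNat 0, c658x⟩, ⟨.ofNat 0, .ofNat 0, c14x⟩, ⟨.ofNat 0, .ofNat 1, c656x⟩⟩, [762, 763, 764, 765]⟩,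
  ⟨⟨⟨c89x, c77x, c63x, c71x⟩, ⟨.ofNat 1, .ofNat 0, c658x⟩, ⟨.ofNat 0, .ofNat 0, c14x⟩, ⟨.ofNat 0, .ofNat 1, c656x⟩⟩, [752, 753, 754, 755]⟩,
  ⟨⟨⟨c77x, c59x, c58x, c71x⟩, ⟨.ofNat 1, .ofNat 0, c658x⟩, ⟨.ofNat 0, .ofNat 0, c14x⟩, ⟨.ofNat 0, .ofNat 1, c656x⟩⟩, [752, 754, 755, 756, 757]⟩,
  ⟨⟨⟨c69x, c661x, c43x, c79x⟩, ⟨.ofNat 0, .ofNat 0, c657x⟩, ⟨.ofNat 1, .ofNat 0, c659x⟩, ⟨.ofNat 0, .ofNat 1, c656x⟩⟩, [71, 72, 746, 747, 748]⟩,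
  ⟨⟨⟨c80x, c81x, c58x, c73x⟩, ⟨.ofNat 1, .ofNat 0, c660x⟩, ⟨.ofNat 0, .ofNat 0, c14x⟩, ⟨.ofNat 0, .ofNat 1, c656x⟩⟩, [82, 83, 84, 85]⟩,
  ⟨⟨⟨c82x, c83x, c52x, c73x⟩, ⟨.ofNat 1, .ofNat 0, c660x⟩, ⟨.ofNat 0, .ofNat 0, c14x⟩, ⟨.ofNat 0, .ofNat 1, c656x⟩⟩, [94, 95, 96, 97, 98]⟩,
  ⟨⟨⟨c83x, c84x, c60x, c73x⟩, ⟨.ofNat 1, .ofNat 0, c660x⟩, ⟨.ofNat 0, .ofNat 0, c14x⟩, ⟨.ofNat 0, .ofNat 1, c656x⟩⟩, [93, 94, 97, 98]⟩,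
  ⟨⟨⟨c661x, c662x, c43x, c79x⟩, ⟨.negSucc 0, .ofNat 0, c662x⟩, ⟨.ofNat 0, .ofNat 0, c655x⟩, ⟨.ofNat 0, .ofNat 1, c656x⟩⟩, [72, 746]⟩,
  ⟨⟨⟨c87x, c85x, c60x, c63x⟩, ⟨.ofNat 1, .ofNat 0, c660x⟩, ⟨.ofNat 0, .ofNat 0, c14x⟩, ⟨.ofNat 0, .ofNat 1, c656x⟩⟩, [98, 100, 101, 102, 103]⟩,
  ⟨⟨⟨c662x, c78x, c43x, c79x⟩, ⟨.ofNat 0, .ofNat 0, c14x⟩, ⟨.negSucc 0, .ofNat 0, c94x⟩, ⟨.ofNat 0, .ofNat 1, c656x⟩⟩, [72, 73, 74, 745, 746]⟩,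
  ⟨⟨⟨c84x, c87x, c60x, c91x⟩, ⟨.ofNat 1, .ofNat 0, c660x⟩, ⟨.ofNat 0, .ofNat 0, c14x⟩, ⟨.ofNat 0, .ofNat 1, c656x⟩⟩, [92, 93, 94, 98, 102, 103, 104, 744]⟩,
  ⟨⟨⟨c78x, c90x, c62x, c91x⟩, ⟨.ofNat 0, .ofNat 0, c14x⟩, ⟨.negSucc 0, .ofNat 0, c94x⟩, ⟨.ofNat 0, .ofNat 1, c656x⟩⟩, [73, 74, 75, 76, 744, 745, 746]⟩,
  ⟨⟨⟨c90x, c92x, c63x, c91x⟩, ⟨.ofNat 0, .ofNat 0, c14x⟩, ⟨.negSucc 0, .ofNat 0, c94x⟩, ⟨.ofNat 0, .ofNat 1, c656x⟩⟩, [75, 76, 77, 744]⟩,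
  ⟨⟨⟨c92x, c93x, c55x, c91x⟩, ⟨.ofNat 0, .ofNat 0, c14x⟩, ⟨.negSucc 0, .ofNat 0, c94x⟩, ⟨.ofNat 0, .ofNat 1, c656x⟩⟩, [76, 77, 78, 79, 80, 744]⟩,
  ⟨⟨⟨c93x, c94x, c64x, c91x⟩, ⟨.ofNat 0, .ofNat 0, c14x⟩, ⟨.negSucc 0, .ofNat 0, c94x⟩, ⟨.ofNat 0, .ofNat 1, c656x⟩⟩, [79, 80, 81, 744]⟩,
  ⟨⟨⟨c94x, c80x, c58x, c91x⟩, ⟨.ofNat 1, .ofNat 0, c660x⟩, ⟨.ofNat 0, .ofNat 0, c14x⟩, ⟨.ofNat 0, .ofNat 1, c656x⟩⟩, [80, 81, 82, 84, 85, 86, 744]⟩,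
  ⟨⟨⟨c80x, c99x, c66x, c91x⟩, ⟨.ofNat 1, .ofNat 0, c660x⟩, ⟨.ofNat 0, .ofNat 0, c14x⟩, ⟨.ofNat 0, .ofNat 1, c656x⟩⟩, [85, 86, 87, 88, 744]⟩,
  ⟨⟨⟨c99x, c83x, c70x, c91x⟩, ⟨.ofNat 1, .ofNat 0, c660x⟩, ⟨.ofNat 0, .ofNat 0, c14x⟩, ⟨.ofNat 0, .ofNat 1, c656x⟩⟩, [87, 88, 89, 90, 744]⟩,
  ⟨⟨⟨c95x, c84x, c76x, c91x⟩, ⟨.ofNat 1, .ofNat 0, c660x⟩, ⟨.ofNat 0, .ofNat 0, c14x⟩, ⟨.ofNat 0, .ofNat 1, c656x⟩⟩, [90, 91, 92, 93, 744]⟩,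
  ⟨⟨⟨c83x, c95x, c88x, c91x⟩, ⟨.ofNat 1, .ofNat 0, c660x⟩, ⟨.ofNat 0, .ofNat 0, c14x⟩, ⟨.ofNat 0, .ofNat 1, c656x⟩⟩, [89, 90, 91, 744]⟩,
  ⟨⟨⟨c87x, c86x, c71x, c91x⟩, ⟨.ofNat 1, .ofNat 0, c660x⟩, ⟨.ofNat 0, .ofNat 0, c14x⟩, ⟨.ofNat 0, .ofNat 1, c656x⟩⟩, [103, 104, 744]⟩,
  ⟨⟨⟨c86x, c96x, c71x, c91x⟩, ⟨.ofNat 0, .ofNat 0, c657x⟩, ⟨.ofNat 1, .ofNat 0, c663x⟩, ⟨.ofNat 0, .ofNat 1, c656x⟩⟩, [104, 105, 744]⟩,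
  ⟨⟨⟨c96x, c97x, c64x, c91x⟩, ⟨.ofNat 0, .ofNat 0, c657x⟩, ⟨.ofNat 1, .ofNat 0, c663x⟩, ⟨.ofNat 0, .ofNat 1, c656x⟩⟩, [104, 105, 106, 107, 108, 744]⟩,
  ⟨⟨⟨c97x, c98x, c62x, c91x⟩, ⟨.ofNat 0, .ofNat 0, c657x⟩, ⟨.ofNat 1, .ofNat 0, c663x⟩, ⟨.ofNat 0, .ofNat 1, c656x⟩⟩, [107, 108, 109, 110, 743, 744]⟩,
  ⟨⟨⟨c98x, c103x, c79x, c104x⟩, ⟨.ofNat 0, .ofNat 0, c657x⟩, ⟨.ofNat 1, .ofNat 0, c663x⟩, ⟨.ofNat 0, .ofNat 1, c656x⟩⟩, [109, 110, 740, 741, 742, 743, 744]⟩,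
  ⟨⟨⟨c103x, c105x, c79x, c106x⟩, ⟨.ofNat 0, .ofNat 0, c657x⟩, ⟨.ofNat 1, .ofNat 0, c663x⟩, ⟨.ofNat 0, .ofNat 1, c656x⟩⟩, [110, 739, 740, 741]⟩,
  ⟨⟨⟨c105x, c116x, c79x, c117x⟩, ⟨.ofNat 0, .ofNat 0, c657x⟩, ⟨.ofNat 1, .ofNat 0, c663x⟩, ⟨.ofNat 0, .ofNat 1, c656x⟩⟩, [110, 736, 737, 738, 739, 740]⟩,
  ⟨⟨⟨c116x, c118x, c79x, c119x⟩, ⟨.ofNat 0, .ofNat 0, c657x⟩, ⟨.ofNat 1, .ofNat 0, c663x⟩, ⟨.ofNat 0, .ofNat 1, c656x⟩⟩, [110, 735, 736, 737]⟩,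
  ⟨⟨⟨c118x, c107x, c79x, c120x⟩, ⟨.negSucc 0, .ofNat 0, c139x⟩, ⟨.ofNat 0, .ofNat 0, c655x⟩, ⟨.ofNat 0, .ofNat 1, c656x⟩⟩, [110, 730, 731, 732, 734, 735, 736]⟩,
  ⟨⟨⟨c107x, c108x, c79x, c109x⟩, ⟨.negSucc 0, .ofNat 0, c139x⟩, ⟨.ofNat 0, .ofNat 0, c655x⟩, ⟨.ofNat 0, .ofNat 1, c656x⟩⟩, [110, 728, 729, 730, 731]⟩,
  ⟨⟨⟨c108x, c100x, c79x, c110x⟩, ⟨.negSucc 0, .ofNat 0, c139x⟩, ⟨.ofNat 0, .ofNat 0, c655x⟩, ⟨.ofNat 0, .ofNat 1, c656x⟩⟩, [110, 726, 727, 728, 729]⟩,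
  ⟨⟨⟨c100x, c101x, c79x, c102x⟩, ⟨.negSucc 0, .ofNat 0, c139x⟩, ⟨.ofNat 0, .ofNat 0, c655x⟩, ⟨.ofNat 0, .ofNat 1, c656x⟩⟩, [110, 725, 726, 727]⟩,
  ⟨⟨⟨c101x, c111x, c79x, c112x⟩, ⟨.negSucc 0, .ofNat 0, c139x⟩, ⟨.ofNat 0, .ofNat 0, c655x⟩, ⟨.ofNat 0, .ofNat 1, c656x⟩⟩, [110, 723, 724, 725, 726]⟩,
  ⟨⟨⟨c111x, c113x, c79x, c121x⟩, ⟨.negSucc 0, .ofNat 0, c139x⟩, ⟨.ofNat 0, .ofNat 0, c655x⟩, ⟨.ofNat 0, .ofNat 1, c656x⟩⟩, [110, 712, 713, 714, 718, 722, 723, 724]⟩,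
  ⟨⟨⟨c113x, c139x, c79x, c115x⟩, ⟨.negSucc 0, .ofNat 0, c139x⟩, ⟨.ofNat 0, .ofNat 0, c655x⟩, ⟨.ofNat 0, .ofNat 1, c656x⟩⟩, [110, 712, 713]⟩,
  ⟨⟨⟨c139x, c114x, c79x, c115x⟩, ⟨.ofNat 0, .ofNat 0, c14x⟩, ⟨.negSucc 0, .ofNat 0, c664x⟩, ⟨.ofNat 0, .ofNat 1, c656x⟩⟩, [110, 711, 712]⟩,
  ⟨⟨⟨c114x, c122x, c79x, c119x⟩, ⟨.ofNat 0, .ofNat 0, c14x⟩, ⟨.negSucc 0, .ofNat 0, c664x⟩, ⟨.ofNat 0, .ofNat 1, c656x⟩⟩, [110, 708, 709, 710, 711, 712]⟩,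
  ⟨⟨⟨c122x, c123x, c79x, c104x⟩, ⟨.ofNat 0, .ofNat 0, c14x⟩, ⟨.negSucc 0, .ofNat 0, c664x⟩, ⟨.ofNat 0, .ofNat 1, c656x⟩⟩, [110, 111, 112, 707, 708, 709]⟩,
  ⟨⟨⟨c107x, c135x, c128x, c120x⟩, ⟨.negSucc 0, .ofNat 0, c139x⟩, ⟨.ofNat 0, .ofNat 0, c655x⟩, ⟨.ofNat 0, .ofNat 1, c656x⟩⟩, [731, 732, 733, 734]⟩,
  ⟨⟨⟨c136x, c100x, c128x, c137x⟩, ⟨.negSucc 0, .ofNat 0, c139x⟩, ⟨.ofNat 0, .ofNat 0, c655x⟩, ⟨.ofNat 0, .ofNat 1, c656x⟩⟩, [718, 719, 720, 721, 722]⟩,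
  ⟨⟨⟨c100x, c111x, c128x, c121x⟩, ⟨.negSucc 0, .ofNat 0, c139x⟩, ⟨.ofNat 0, .ofNat 0, c655x⟩, ⟨.ofNat 0, .ofNat 1, c656x⟩⟩, [718, 719, 722, 723]⟩,
  ⟨⟨⟨c113x, c138x, c106x, c121x⟩, ⟨.negSucc 0, .ofNat 0, c139x⟩, ⟨.ofNat 0, .ofNat 0, c655x⟩, ⟨.ofNat 0, .ofNat 1, c656x⟩⟩, [713, 714, 715, 716, 718]⟩,
  ⟨⟨⟨c123x, c664x, c91x, c125x⟩, ⟨.ofNat 0, .ofNat 0, c14x⟩, ⟨.negSucc 0, .ofNat 0, c664x⟩, ⟨.ofNat 0, .ofNat 1, c656x⟩⟩, [111, 112, 706, 707, 708]⟩,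
  ⟨⟨⟨c664x, c665x, c91x, c125x⟩, ⟨.ofNat 1, .ofNat 0, c666x⟩, ⟨.ofNat 0, .ofNat 0, c14x⟩, ⟨.ofNat 0, .ofNat 1, c656x⟩⟩, [112, 706]⟩,
  ⟨⟨⟨c665x, c124x, c91x, c125x⟩, ⟨.ofNat 0, .ofNat 0, c657x⟩, ⟨.ofNat 1, .ofNat 0, c667x⟩, ⟨.ofNat 0, .ofNat 1, c656x⟩⟩, [112, 113, 114, 705, 706]⟩,
  ⟨⟨⟨c126x, c127x, c109x, c128x⟩, ⟨.negSucc 0, .ofNat 0, c140x⟩, ⟨.ofNat 0, .ofNat 0, c655x⟩, ⟨.ofNat 0, .ofNat 1, c656x⟩⟩, [123, 124, 125, 126]⟩,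
  ⟨⟨⟨c129x, c130x, c110x, c128x⟩, ⟨.negSucc 0, .ofNat 0, c140x⟩, ⟨.ofNat 0, .ofNat 0, c655x⟩, ⟨.ofNat 0, .ofNat 1, c656x⟩⟩, [128, 129, 134, 135]⟩,
  ⟨⟨⟨c130x, c131x, c102x, c128x⟩, ⟨.negSucc 0, .ofNat 0, c140x⟩, ⟨.ofNat 0, .ofNat 0, c655x⟩, ⟨.ofNat 0, .ofNat 1, c656x⟩⟩, [128, 129, 130, 131, 132, 134]⟩,
  ⟨⟨⟨c131x, c132x, c112x, c128x⟩, ⟨.negSucc 0, .ofNat 0, c140x⟩, ⟨.ofNat 0, .ofNat 0, c655x⟩, ⟨.ofNat 0, .ofNat 1, c656x⟩⟩, [131, 132, 133, 134]⟩,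
  ⟨⟨⟨c133x, c134x, c115x, c106x⟩, ⟨.negSucc 0, .ofNat 0, c140x⟩, ⟨.ofNat 0, .ofNat 0, c655x⟩, ⟨.ofNat 0, .ofNat 1, c656x⟩⟩, [141, 142, 143, 144]⟩,
  ⟨⟨⟨c134x, c140x, c115x, c120x⟩, ⟨.negSucc 0, .ofNat 0, c140x⟩, ⟨.ofNat 0, .ofNat 0, c655x⟩, ⟨.ofNat 0, .ofNat 1, c656x⟩⟩, [139, 140, 141, 142, 144]⟩,
  ⟨⟨⟨c138x, c139x, c120x, c121x⟩, ⟨.negSucc 0, .ofNat 0, c139x⟩, ⟨.ofNat 0, .ofNat 0, c655x⟩, ⟨.ofNat 0, .ofNat 1, c656x⟩⟩, [715, 716, 717, 718]⟩,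
  ⟨⟨⟨c124x, c144x, c104x, c142x⟩, ⟨.ofNat 0, .ofNat 0, c657x⟩, ⟨.ofNat 1, .ofNat 0, c667x⟩, ⟨.ofNat 0, .ofNat 1, c656x⟩⟩, [113, 114, 115, 704, 705, 706]⟩,
  ⟨⟨⟨c144x, c145x, c106x, c142x⟩, ⟨.ofNat 0, .ofNat 0, c657x⟩, ⟨.ofNat 1, .ofNat 0, c667x⟩, ⟨.ofNat 0, .ofNat 1, c656x⟩⟩, [114, 115, 116, 117, 118, 704]⟩,
  ⟨⟨⟨c141x, c129x, c110x, c142x⟩, ⟨.negSucc 0, .ofNat 0, c140x⟩, ⟨.ofNat 0, .ofNat 0, c655x⟩, ⟨.ofNat 0, .ofNat 1, c656x⟩⟩, [126, 127, 128, 134, 135, 136, 704]⟩,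
  ⟨⟨⟨c127x, c141x, c109x, c142x⟩, ⟨.negSucc 0, .ofNat 0, c140x⟩, ⟨.ofNat 0, .ofNat 0, c655x⟩, ⟨.ofNat 0, .ofNat 1, c656x⟩⟩, [122, 123, 124, 126, 127, 704]⟩,
  ⟨⟨⟨c140x, c143x, c115x, c142x⟩, ⟨.ofNat 0, .ofNat 0, c14x⟩, ⟨.negSucc 0, .ofNat 0, c668x⟩, ⟨.ofNat 0, .ofNat 1, c656x⟩⟩, [138, 139, 140, 144, 145, 146, 704]⟩,
  ⟨⟨⟨c148x, c149x, c104x, c142x⟩, ⟨.ofNat 0, .ofNat 0, c14x⟩, ⟨.negSucc 0, .ofNat 0, c668x⟩, ⟨.ofNat 0, .ofNat 1, c656x⟩⟩, [146, 147, 148, 149, 150, 703, 704]⟩,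
  ⟨⟨⟨c145x, c146x, c117x, c142x⟩, ⟨.ofNat 0, .ofNat 0, c657x⟩, ⟨.ofNat 1, .ofNat 0, c667x⟩, ⟨.ofNat 0, .ofNat 1, c656x⟩⟩, [117, 118, 119, 704]⟩,
  ⟨⟨⟨c146x, c147x, c119x, c142x⟩, ⟨.ofNat 0, .ofNat 0, c657x⟩, ⟨.ofNat 1, .ofNat 0, c667x⟩, ⟨.ofNat 0, .ofNat 1, c656x⟩⟩, [118, 119, 120, 121, 122, 704]⟩,
  ⟨⟨⟨c143x, c148x, c119x, c142x⟩, ⟨.ofNat 0, .ofNat 0, c14x⟩, ⟨.negSucc 0, .ofNat 0, c668x⟩, ⟨.ofNat 0, .ofNat 1, c656x⟩⟩, [145, 146, 147, 704]⟩,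
  ⟨⟨⟨c147x, c127x, c120x, c142x⟩, ⟨.negSucc 0, .ofNat 0, c140x⟩, ⟨.ofNat 0, .ofNat 0, c655x⟩, ⟨.ofNat 0, .ofNat 1, c656x⟩⟩, [121, 122, 123, 704]⟩,
  ⟨⟨⟨c130x, c140x, c121x, c142x⟩, ⟨.negSucc 0, .ofNat 0, c140x⟩, ⟨.ofNat 0, .ofNat 0, c655x⟩, ⟨.ofNat 0, .ofNat 1, c656x⟩⟩, [136, 137, 138, 139, 704]⟩,
  ⟨⟨⟨c129x, c130x, c137x, c142x⟩, ⟨.negSucc 0, .ofNat 0, c140x⟩, ⟨.ofNat 0, .ofNat 0, c655x⟩, ⟨.ofNat 0, .ofNat 1, c656x⟩⟩, [135, 136, 137, 704]⟩,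
  ⟨⟨⟨c150x, c151x, c142x, c152x⟩, ⟨.negSucc 0, .ofNat 0, c153x⟩, ⟨.ofNat 0, .ofNat 0, c655x⟩, ⟨.ofNat 0, .ofNat 1, c656x⟩⟩, [152, 165, 166, 167]⟩,
  ⟨⟨⟨c129x, c130x, c152x, c162x⟩, ⟨.negSucc 0, .ofNat 0, c140x⟩, ⟨.ofNat 0, .ofNat 0, c655x⟩, ⟨.ofNat 0, .ofNat 1, c656x⟩⟩, [688, 689, 690, 691, 692]⟩,
  ⟨⟨⟨c130x, c132x, c154x, c162x⟩, ⟨.negSucc 0, .ofNat 0, c140x⟩, ⟨.ofNat 0, .ofNat 0, c655x⟩, ⟨.ofNat 0, .ofNat 1, c656x⟩⟩, [687, 688, 691, 692]⟩,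
  ⟨⟨⟨c134x, c140x, c154x, c161x⟩, ⟨.negSucc 0, .ofNat 0, c140x⟩, ⟨.ofNat 0, .ofNat 0, c655x⟩, ⟨.ofNat 0, .ofNat 1, c656x⟩⟩, [692, 693, 694, 695]⟩,
  ⟨⟨⟨c163x, c164x, c142x, c165x⟩, ⟨.ofNat 0, .ofNat 0, c657x⟩, ⟨.ofNat 1, .ofNat 0, c669x⟩, ⟨.ofNat 0, .ofNat 1, c656x⟩⟩, [151, 152, 187, 188, 189]⟩,
  ⟨⟨⟨c164x, c155x, c142x, c167x⟩, ⟨.ofNat 0, .ofNat 0, c657x⟩, ⟨.ofNat 1, .ofNat 0, c669x⟩, ⟨.ofNat 0, .ofNat 1, c656x⟩⟩, [152, 184, 185, 186, 187, 188]⟩,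
  ⟨⟨⟨c155x, c156x, c142x, c157x⟩, ⟨.ofNat 0, .ofNat 0, c657x⟩, ⟨.ofNat 1, .ofNat 0, c669x⟩, ⟨.ofNat 0, .ofNat 1, c656x⟩⟩, [152, 183, 184, 185]⟩,
  ⟨⟨⟨c126x, c127x, c161x, c162x⟩, ⟨.negSucc 0, .ofNat 0, c140x⟩, ⟨.ofNat 0, .ofNat 0, c655x⟩, ⟨.ofNat 0, .ofNat 1, c656x⟩⟩, [676, 677, 678, 679]⟩,
  ⟨⟨⟨c147x, c126x, c161x, c166x⟩, ⟨.negSucc 0, .ofNat 0, c140x⟩, ⟨.ofNat 0, .ofNat 0, c655x⟩, ⟨.ofNat 0, .ofNat 1, c656x⟩⟩, [666, 674, 675, 676, 678, 679, 680]⟩,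
  ⟨⟨⟨c132x, c133x, c154x, c166x⟩, ⟨.negSucc 0, .ofNat 0, c140x⟩, ⟨.ofNat 0, .ofNat 0, c655x⟩, ⟨.ofNat 0, .ofNat 1, c656x⟩⟩, [666, 686, 687, 688, 692, 696, 697, 698]⟩,
  ⟨⟨⟨c133x, c134x, c154x, c167x⟩, ⟨.negSucc 0, .ofNat 0, c140x⟩, ⟨.ofNat 0, .ofNat 0, c655x⟩, ⟨.ofNat 0, .ofNat 1, c656x⟩⟩, [692, 694, 695, 696, 697]⟩,
  ⟨⟨⟨c149x, c668x, c125x, c168x⟩, ⟨.ofNat 0, .ofNat 0, c14x⟩, ⟨.negSucc 0, .ofNat 0, c668x⟩, ⟨.ofNat 0, .ofNat 1, c656x⟩⟩, [149, 150, 664, 665, 666, 702, 703, 704]⟩,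
  ⟨⟨⟨c668x, c670x, c125x, c168x⟩, ⟨.ofNat 1, .ofNat 0, c671x⟩, ⟨.ofNat 0, .ofNat 0, c14x⟩, ⟨.ofNat 0, .ofNat 1, c656x⟩⟩, [150, 664]⟩,
  ⟨⟨⟨c670x, c163x, c125x, c168x⟩, ⟨.ofNat 0, .ofNat 0, c657x⟩, ⟨.ofNat 1, .ofNat 0, c669x⟩, ⟨.ofNat 0, .ofNat 1, c656x⟩⟩, [150, 151, 152, 188, 189, 190, 663, 664]⟩,
  ⟨⟨⟨c156x, c158x, c142x, c159x⟩, ⟨.ofNat 0, .ofNat 0, c657x⟩, ⟨.ofNat 1, .ofNat 0, c669x⟩, ⟨.ofNat 0, .ofNat 1, c656x⟩⟩, [152, 180, 181, 182, 183, 184]⟩,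
  ⟨⟨⟨c158x, c160x, c142x, c161x⟩, ⟨.negSucc 0, .ofNat 0, c153x⟩, ⟨.ofNat 0, .ofNat 0, c655x⟩, ⟨.ofNat 0, .ofNat 1, c656x⟩⟩, [152, 179, 180, 181]⟩,
  ⟨⟨⟨c160x, c169x, c142x, c170x⟩, ⟨.negSucc 0, .ofNat 0, c153x⟩, ⟨.ofNat 0, .ofNat 0, c655x⟩, ⟨.ofNat 0, .ofNat 1, c656x⟩⟩, [152, 175, 176, 178, 179, 180]⟩,
  ⟨⟨⟨c151x, c153x, c142x, c154x⟩, ⟨.negSucc 0, .ofNat 0, c153x⟩, ⟨.ofNat 0, .ofNat 0, c655x⟩, ⟨.ofNat 0, .ofNat 1, c656x⟩⟩, [152, 163, 164, 165, 166]⟩,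
  ⟨⟨⟨c153x, c172x, c142x, c173x⟩, ⟨.ofNat 0, .ofNat 0, c14x⟩, ⟨.negSucc 0, .ofNat 0, c672x⟩, ⟨.ofNat 0, .ofNat 1, c656x⟩⟩, [152, 156, 157, 158, 162, 163, 164]⟩,
  ⟨⟨⟨c172x, c174x, c142x, c159x⟩, ⟨.ofNat 0, .ofNat 0, c14x⟩, ⟨.negSucc 0, .ofNat 0, c672x⟩, ⟨.ofNat 0, .ofNat 1, c656x⟩⟩, [152, 155, 156, 157]⟩,
  ⟨⟨⟨c174x, c175x, c142x, c165x⟩, ⟨.ofNat 0, .ofNat 0, c14x⟩, ⟨.negSucc 0, .ofNat 0, c672x⟩, ⟨.ofNat 0, .ofNat 1, c656x⟩⟩, [152, 153, 154, 155, 156]⟩,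
  ⟨⟨⟨c169x, c150x, c142x, c171x⟩, ⟨.negSucc 0, .ofNat 0, c153x⟩, ⟨.ofNat 0, .ofNat 0, c655x⟩, ⟨.ofNat 0, .ofNat 1, c656x⟩⟩, [152, 166, 167, 168, 174, 175, 176]⟩,
  ⟨⟨⟨c177x, c179x, c162x, c180x⟩, ⟨.negSucc 0, .ofNat 0, c153x⟩, ⟨.ofNat 0, .ofNat 0, c655x⟩, ⟨.ofNat 0, .ofNat 1, c656x⟩⟩, [168, 169, 170, 171]⟩,
  ⟨⟨⟨c181x, c153x, c161x, c173x⟩, ⟨.negSucc 0, .ofNat 0, c153x⟩, ⟨.ofNat 0, .ofNat 0, c655x⟩, ⟨.ofNat 0, .ofNat 1, c656x⟩⟩, [158, 160, 161, 162, 163]⟩,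
  ⟨⟨⟨c176x, c160x, c162x, c170x⟩, ⟨.negSucc 0, .ofNat 0, c153x⟩, ⟨.ofNat 0, .ofNat 0, c655x⟩, ⟨.ofNat 0, .ofNat 1, c656x⟩⟩, [176, 177, 178, 179]⟩,
  ⟨⟨⟨c150x, c151x, c162x, c171x⟩, ⟨.negSucc 0, .ofNat 0, c153x⟩, ⟨.ofNat 0, .ofNat 0, c655x⟩, ⟨.ofNat 0, .ofNat 1, c656x⟩⟩, [167, 168, 173, 174]⟩,
  ⟨⟨⟨c151x, c177x, c162x, c178x⟩, ⟨.negSucc 0, .ofNat 0, c153x⟩, ⟨.ofNat 0, .ofNat 0, c655x⟩, ⟨.ofNat 0, .ofNat 1, c656x⟩⟩, [168, 170, 171, 172, 173, 174]⟩,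
  ⟨⟨⟨c182x, c181x, c167x, c173x⟩, ⟨.negSucc 0, .ofNat 0, c153x⟩, ⟨.ofNat 0, .ofNat 0, c655x⟩, ⟨.ofNat 0, .ofNat 1, c656x⟩⟩, [158, 159, 160, 161]⟩,
  ⟨⟨⟨c124x, c144x, c165x, c166x⟩, ⟨.ofNat 0, .ofNat 0, c657x⟩, ⟨.ofNat 1, .ofNat 0, c667x⟩, ⟨.ofNat 0, .ofNat 1, c656x⟩⟩, [666, 667, 668, 669, 670]⟩,
  ⟨⟨⟨c144x, c145x, c167x, c166x⟩, ⟨.ofNat 0, .ofNat 0, c657x⟩, ⟨.ofNat 1, .ofNat 0, c667x⟩, ⟨.ofNat 0, .ofNat 1, c656x⟩⟩, [666, 669, 670, 671]⟩,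
  ⟨⟨⟨c145x, c146x, c157x, c166x⟩, ⟨.ofNat 0, .ofNat 0, c657x⟩, ⟨.ofNat 1, .ofNat 0, c667x⟩, ⟨.ofNat 0, .ofNat 1, c656x⟩⟩, [666, 670, 671, 672, 673, 674]⟩,
  ⟨⟨⟨c146x, c147x, c159x, c166x⟩, ⟨.ofNat 0, .ofNat 0, c657x⟩, ⟨.ofNat 1, .ofNat 0, c667x⟩, ⟨.ofNat 0, .ofNat 1, c656x⟩⟩, [666, 673, 674, 675]⟩,
  ⟨⟨⟨c143x, c148x, c159x, c166x⟩, ⟨.ofNat 0, .ofNat 0, c14x⟩, ⟨.negSucc 0, .ofNat 0, c668x⟩, ⟨.ofNat 0, .ofNat 1, c656x⟩⟩, [666, 698, 699, 700, 701, 702]⟩,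
  ⟨⟨⟨c148x, c149x, c165x, c166x⟩, ⟨.ofNat 0, .ofNat 0, c14x⟩, ⟨.negSucc 0, .ofNat 0, c668x⟩, ⟨.ofNat 0, .ofNat 1, c656x⟩⟩, [665, 666, 701, 702, 703]⟩,
  ⟨⟨⟨c126x, c141x, c170x, c166x⟩, ⟨.negSucc 0, .ofNat 0, c140x⟩, ⟨.ofNat 0, .ofNat 0, c655x⟩, ⟨.ofNat 0, .ofNat 1, c656x⟩⟩, [666, 679, 680, 681, 682]⟩,
  ⟨⟨⟨c131x, c132x, c180x, c166x⟩, ⟨.negSucc 0, .ofNat 0, c140x⟩, ⟨.ofNat 0, .ofNat 0, c655x⟩, ⟨.ofNat 0, .ofNat 1, c656x⟩⟩, [666, 684, 685, 686, 687]⟩,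
  ⟨⟨⟨c133x, c140x, c173x, c166x⟩, ⟨.negSucc 0, .ofNat 0, c140x⟩, ⟨.ofNat 0, .ofNat 0, c655x⟩, ⟨.ofNat 0, .ofNat 1, c656x⟩⟩, [666, 697, 698]⟩,
  ⟨⟨⟨c141x, c130x, c171x, c166x⟩, ⟨.negSucc 0, .ofNat 0, c140x⟩, ⟨.ofNat 0, .ofNat 0, c655x⟩, ⟨.ofNat 0, .ofNat 1, c656x⟩⟩, [666, 681, 682, 683, 684]⟩,
  ⟨⟨⟨c140x, c143x, c173x, c166x⟩, ⟨.ofNat 0, .ofNat 0, c14x⟩, ⟨.negSucc 0, .ofNat 0, c668x⟩, ⟨.ofNat 0, .ofNat 1, c656x⟩⟩, [666, 698, 699]⟩,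
  ⟨⟨⟨c130x, c131x, c178x, c166x⟩, ⟨.negSucc 0, .ofNat 0, c140x⟩, ⟨.ofNat 0, .ofNat 0, c655x⟩, ⟨.ofNat 0, .ofNat 1, c656x⟩⟩, [666, 683, 684, 685]⟩,
  ⟨⟨⟨c176x, c160x, c166x, c185x⟩, ⟨.negSucc 0, .ofNat 0, c153x⟩, ⟨.ofNat 0, .ofNat 0, c655x⟩, ⟨.ofNat 0, .ofNat 1, c656x⟩⟩, [190, 649, 650, 651]⟩,
  ⟨⟨⟨c163x, c164x, c166x, c186x⟩, ⟨.ofNat 0, .ofNat 0, c657x⟩, ⟨.ofNat 1, .ofNat 0, c669x⟩, ⟨.ofNat 0, .ofNat 1, c656x⟩⟩, [189, 190, 660, 661, 662, 663, 664]⟩,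
  ⟨⟨⟨c164x, c155x, c166x, c187x⟩, ⟨.ofNat 0, .ofNat 0, c657x⟩, ⟨.ofNat 1, .ofNat 0, c669x⟩, ⟨.ofNat 0, .ofNat 1, c656x⟩⟩, [190, 659, 660, 661]⟩,
  ⟨⟨⟨c155x, c183x, c166x, c188x⟩, ⟨.ofNat 0, .ofNat 0, c657x⟩, ⟨.ofNat 1, .ofNat 0, c669x⟩, ⟨.ofNat 0, .ofNat 1, c656x⟩⟩, [190, 652, 653, 654, 658, 659, 660]⟩,
  ⟨⟨⟨c183x, c158x, c166x, c184x⟩, ⟨.ofNat 0, .ofNat 0, c657x⟩, ⟨.ofNat 1, .ofNat 0, c669x⟩, ⟨.ofNat 0, .ofNat 1, c656x⟩⟩, [190, 652, 653]⟩,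
  ⟨⟨⟨c158x, c176x, c166x, c184x⟩, ⟨.negSucc 0, .ofNat 0, c153x⟩, ⟨.ofNat 0, .ofNat 0, c655x⟩, ⟨.ofNat 0, .ofNat 1, c656x⟩⟩, [190, 650, 651, 652]⟩,
  ⟨⟨⟨c190x, c150x, c166x, c191x⟩, ⟨.negSucc 0, .ofNat 0, c153x⟩, ⟨.ofNat 0, .ofNat 0, c655x⟩, ⟨.ofNat 0, .ofNat 1, c656x⟩⟩, [190, 636, 637, 638, 640, 641]⟩,
  ⟨⟨⟨c160x, c190x, c166x, c192x⟩, ⟨.negSucc 0, .ofNat 0, c153x⟩, ⟨.ofNat 0, .ofNat 0, c655x⟩, ⟨.ofNat 0, .ofNat 1, c656x⟩⟩, [190, 640, 641, 642, 648, 649, 650]⟩,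
  ⟨⟨⟨c150x, c179x, c166x, c189x⟩, ⟨.negSucc 0, .ofNat 0, c153x⟩, ⟨.ofNat 0, .ofNat 0, c655x⟩, ⟨.ofNat 0, .ofNat 1, c656x⟩⟩, [190, 635, 636, 637]⟩,
  ⟨⟨⟨c182x, c153x, c166x, c193x⟩, ⟨.negSucc 0, .ofNat 0, c153x⟩, ⟨.ofNat 0, .ofNat 0, c655x⟩, ⟨.ofNat 0, .ofNat 1, c656x⟩⟩, [190, 632, 633]⟩,
  ⟨⟨⟨c153x, c172x, c166x, c193x⟩, ⟨.ofNat 0, .ofNat 0, c14x⟩, ⟨.negSucc 0, .ofNat 0, c672x⟩, ⟨.ofNat 0, .ofNat 1, c656x⟩⟩, [190, 631, 632]⟩,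
  ⟨⟨⟨c179x, c182x, c166x, c187x⟩, ⟨.negSucc 0, .ofNat 0, c153x⟩, ⟨.ofNat 0, .ofNat 0, c655x⟩, ⟨.ofNat 0, .ofNat 1, c656x⟩⟩, [190, 632, 633, 634, 635, 636]⟩,
  ⟨⟨⟨c174x, c175x, c166x, c186x⟩, ⟨.ofNat 0, .ofNat 0, c14x⟩, ⟨.negSucc 0, .ofNat 0, c672x⟩, ⟨.ofNat 0, .ofNat 1, c656x⟩⟩, [190, 191, 192, 627, 628, 629]⟩,
  ⟨⟨⟨c172x, c174x, c166x, c194x⟩, ⟨.ofNat 0, .ofNat 0, c14x⟩, ⟨.negSucc 0, .ofNat 0, c672x⟩, ⟨.ofNat 0, .ofNat 1, c656x⟩⟩, [190, 628, 629, 630, 631, 632]⟩,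
  ⟨⟨⟨c195x, c196x, c184x, c189x⟩, ⟨.ofNat 0, .ofNat 0, c657x⟩, ⟨.ofNat 1, .ofNat 0, c673x⟩, ⟨.ofNat 0, .ofNat 1, c656x⟩⟩, [201, 202, 203, 204]⟩,
  ⟨⟨⟨c183x, c200x, c189x, c188x⟩, ⟨.ofNat 0, .ofNat 0, c657x⟩, ⟨.ofNat 1, .ofNat 0, c669x⟩, ⟨.ofNat 0, .ofNat 1, c656x⟩⟩, [653, 654, 655, 656, 658]⟩,
  ⟨⟨⟨c200x, c156x, c194x, c188x⟩, ⟨.ofNat 0, .ofNat 0, c657x⟩, ⟨.ofNat 1, .ofNat 0, c669x⟩, ⟨.ofNat 0, .ofNat 1, c656x⟩⟩, [655, 656, 657, 658]⟩,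
  ⟨⟨⟨c158x, c201x, c199x, c202x⟩, ⟨.negSucc 0, .ofNat 0, c153x⟩, ⟨.ofNat 0, .ofNat 0, c655x⟩, ⟨.ofNat 0, .ofNat 1, c656x⟩⟩, [645, 646, 647, 648]⟩,
  ⟨⟨⟨c201x, c176x, c199x, c206x⟩, ⟨.negSucc 0, .ofNat 0, c153x⟩, ⟨.ofNat 0, .ofNat 0, c655x⟩, ⟨.ofNat 0, .ofNat 1, c656x⟩⟩, [642, 643, 644, 645, 646, 648]⟩,
  ⟨⟨⟨c176x, c160x, c199x, c192x⟩, ⟨.negSucc 0, .ofNat 0, c153x⟩, ⟨.ofNat 0, .ofNat 0, c655x⟩, ⟨.ofNat 0, .ofNat 1, c656x⟩⟩, [642, 643, 648, 649]⟩,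
  ⟨⟨⟨c150x, c151x, c199x, c191x⟩, ⟨.negSucc 0, .ofNat 0, c153x⟩, ⟨.ofNat 0, .ofNat 0, c655x⟩, ⟨.ofNat 0, .ofNat 1, c656x⟩⟩, [637, 638, 639, 640]⟩,
  ⟨⟨⟨c175x, c672x, c168x, c204x⟩, ⟨.ofNat 0, .ofNat 0, c14x⟩, ⟨.negSucc 0, .ofNat 0, c672x⟩, ⟨.ofNat 0, .ofNat 1, c656x⟩⟩, [191, 192, 626, 627, 628]⟩,
  ⟨⟨⟨c210x, c197x, c184x, c199x⟩, ⟨.negSucc 0, .ofNat 0, c674x⟩, ⟨.ofNat 0, .ofNat 0, c655x⟩, ⟨.ofNat 0, .ofNat 1, c656x⟩⟩, [204, 205, 208, 209]⟩,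
  ⟨⟨⟨c197x, c198x, c185x, c199x⟩, ⟨.negSucc 0, .ofNat 0, c674x⟩, ⟨.ofNat 0, .ofNat 0, c655x⟩, ⟨.ofNat 0, .ofNat 1, c656x⟩⟩, [204, 205, 206, 207, 208]⟩,
  ⟨⟨⟨c211x, c212x, c189x, c199x⟩, ⟨.negSucc 0, .ofNat 0, c674x⟩, ⟨.ofNat 0, .ofNat 0, c655x⟩, ⟨.ofNat 0, .ofNat 1, c656x⟩⟩, [217, 218, 219, 220]⟩,
  ⟨⟨⟨c672x, c675x, c168x, c204x⟩, ⟨.ofNat 1, .ofNat 0, c676x⟩, ⟨.ofNat 0, .ofNat 0, c14x⟩, ⟨.ofNat 0, .ofNat 1, c656x⟩⟩, [192, 626]⟩,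
  ⟨⟨⟨c196x, c205x, c184x, c194x⟩, ⟨.ofNat 0, .ofNat 0, c657x⟩, ⟨.ofNat 1, .ofNat 0, c673x⟩, ⟨.ofNat 0, .ofNat 1, c656x⟩⟩, [199, 200, 201, 202, 204]⟩,
  ⟨⟨⟨c675x, c203x, c168x, c204x⟩, ⟨.ofNat 0, .ofNat 0, c657x⟩, ⟨.ofNat 1, .ofNat 0, c673x⟩, ⟨.ofNat 0, .ofNat 1, c656x⟩⟩, [192, 193, 194, 625, 626]⟩,
  ⟨⟨⟨c205x, c210x, c184x, c208x⟩, ⟨.ofNat 0, .ofNat 0, c657x⟩, ⟨.ofNat 1, .ofNat 0, c673x⟩, ⟨.ofNat 0, .ofNat 1, c656x⟩⟩, [198, 199, 200, 204, 208, 209, 210, 624]⟩,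
  ⟨⟨⟨c203x, c207x, c186x, c208x⟩, ⟨.ofNat 0, .ofNat 0, c657x⟩, ⟨.ofNat 1, .ofNat 0, c673x⟩, ⟨.ofNat 0, .ofNat 1, c656x⟩⟩, [193, 194, 195, 624, 625, 626]⟩,
  ⟨⟨⟨c207x, c209x, c187x, c208x⟩, ⟨.ofNat 0, .ofNat 0, c657x⟩, ⟨.ofNat 1, .ofNat 0, c673x⟩, ⟨.ofNat 0, .ofNat 1, c656x⟩⟩, [194, 195, 196, 197, 198, 624]⟩,
  ⟨⟨⟨c212x, c213x, c189x, c208x⟩, ⟨.negSucc 0, .ofNat 0, c674x⟩, ⟨.ofNat 0, .ofNat 0, c655x⟩, ⟨.ofNat 0, .ofNat 1, c656x⟩⟩, [216, 217, 218, 220, 221, 222, 624]⟩,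
  ⟨⟨⟨c213x, c214x, c187x, c208x⟩, ⟨.negSucc 0, .ofNat 0, c674x⟩, ⟨.ofNat 0, .ofNat 0, c655x⟩, ⟨.ofNat 0, .ofNat 1, c656x⟩⟩, [221, 222, 223, 624]⟩,
  ⟨⟨⟨c214x, c674x, c193x, c208x⟩, ⟨.negSucc 0, .ofNat 0, c674x⟩, ⟨.ofNat 0, .ofNat 0, c655x⟩, ⟨.ofNat 0, .ofNat 1, c656x⟩⟩, [222, 223, 224, 624]⟩,
  ⟨⟨⟨c674x, c215x, c193x, c208x⟩, ⟨.ofNat 0, .ofNat 0, c14x⟩, ⟨.negSucc 0, .ofNat 0, c223x⟩, ⟨.ofNat 0, .ofNat 1, c656x⟩⟩, [224, 225, 226, 624]⟩,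
  ⟨⟨⟨c218x, c219x, c186x, c208x⟩, ⟨.ofNat 0, .ofNat 0, c14x⟩, ⟨.negSucc 0, .ofNat 0, c223x⟩, ⟨.ofNat 0, .ofNat 1, c656x⟩⟩, [226, 227, 228, 229, 230, 623, 624]⟩,
  ⟨⟨⟨c210x, c216x, c202x, c208x⟩, ⟨.negSucc 0, .ofNat 0, c674x⟩, ⟨.ofNat 0, .ofNat 0, c655x⟩, ⟨.ofNat 0, .ofNat 1, c656x⟩⟩, [209, 210, 211, 212, 624]⟩,
  ⟨⟨⟨c217x, c212x, c191x, c208x⟩, ⟨.negSucc 0, .ofNat 0, c674x⟩, ⟨.ofNat 0, .ofNat 0, c655x⟩, ⟨.ofNat 0, .ofNat 1, c656x⟩⟩, [214, 215, 216, 217, 624]⟩,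
  ⟨⟨⟨c215x, c218x, c194x, c208x⟩, ⟨.ofNat 0, .ofNat 0, c14x⟩, ⟨.negSucc 0, .ofNat 0, c223x⟩, ⟨.ofNat 0, .ofNat 1, c656x⟩⟩, [225, 226, 227, 624]⟩,
  ⟨⟨⟨c209x, c205x, c188x, c208x⟩, ⟨.ofNat 0, .ofNat 0, c657x⟩, ⟨.ofNat 1, .ofNat 0, c673x⟩, ⟨.ofNat 0, .ofNat 1, c656x⟩⟩, [197, 198, 199, 624]⟩,
  ⟨⟨⟨c197x, c217x, c192x, c208x⟩, ⟨.negSucc 0, .ofNat 0, c674x⟩, ⟨.ofNat 0, .ofNat 0, c655x⟩, ⟨.ofNat 0, .ofNat 1, c656x⟩⟩, [212, 213, 214, 215, 624]⟩,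
  ⟨⟨⟨c216x, c197x, c206x, c208x⟩, ⟨.negSucc 0, .ofNat 0, c674x⟩, ⟨.ofNat 0, .ofNat 0, c655x⟩, ⟨.ofNat 0, .ofNat 1, c656x⟩⟩, [211, 212, 213, 624]⟩,
  ⟨⟨⟨c224x, c226x, c204x, c227x⟩, ⟨.ofNat 1, .ofNat 0, c677x⟩, ⟨.ofNat 0, .ofNat 0, c14x⟩, ⟨.ofNat 0, .ofNat 1, c656x⟩⟩, [230, 603, 604, 605]⟩,
  ⟨⟨⟨c219x, c232x, c204x, c233x⟩, ⟨.ofNat 0, .ofNat 0, c14x⟩, ⟨.negSucc 0, .ofNat 0, c223x⟩, ⟨.ofNat 0, .ofNat 1, c656x⟩⟩, [229, 230, 621, 622, 623, 624]⟩,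
  ⟨⟨⟨c232x, c220x, c204x, c234x⟩, ⟨.ofNat 0, .ofNat 0, c14x⟩, ⟨.negSucc 0, .ofNat 0, c223x⟩, ⟨.ofNat 0, .ofNat 1, c656x⟩⟩, [230, 618, 619, 620, 621, 622]⟩,
  ⟨⟨⟨c220x, c221x, c204x, c222x⟩, ⟨.ofNat 0, .ofNat 0, c14x⟩, ⟨.negSucc 0, .ofNat 0, c223x⟩, ⟨.ofNat 0, .ofNat 1, c656x⟩⟩, [230, 617, 618, 619]⟩,
  ⟨⟨⟨c223x, c224x, c204x, c225x⟩, ⟨.ofNat 1, .ofNat 0, c677x⟩, ⟨.ofNat 0, .ofNat 0, c14x⟩, ⟨.ofNat 0, .ofNat 1, c656x⟩⟩, [230, 604, 605, 606, 607]⟩,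
  ⟨⟨⟨c226x, c228x, c204x, c229x⟩, ⟨.ofNat 1, .ofNat 0, c677x⟩, ⟨.ofNat 0, .ofNat 0, c14x⟩, ⟨.ofNat 0, .ofNat 1, c656x⟩⟩, [230, 601, 602, 603, 604]⟩,
  ⟨⟨⟨c228x, c230x, c204x, c231x⟩, ⟨.ofNat 1, .ofNat 0, c677x⟩, ⟨.ofNat 0, .ofNat 0, c14x⟩, ⟨.ofNat 0, .ofNat 1, c656x⟩⟩, [230, 599, 600, 601, 602]⟩,
  ⟨⟨⟨c230x, c241x, c204x, c240x⟩, ⟨.ofNat 1, .ofNat 0, c677x⟩, ⟨.ofNat 0, .ofNat 0, c14x⟩, ⟨.ofNat 0, .ofNat 1, c656x⟩⟩, [230, 594, 595, 596, 598, 599, 600]⟩,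
  ⟨⟨⟨c221x, c223x, c204x, c235x⟩, ⟨.ofNat 0, .ofNat 0, c14x⟩, ⟨.negSucc 0, .ofNat 0, c223x⟩, ⟨.ofNat 0, .ofNat 1, c656x⟩⟩, [230, 606, 607, 608, 612, 616, 617, 618]⟩,
  ⟨⟨⟨c236x, c221x, c237x, c235x⟩, ⟨.ofNat 0, .ofNat 0, c14x⟩, ⟨.negSucc 0, .ofNat 0, c223x⟩, ⟨.ofNat 0, .ofNat 1, c656x⟩⟩, [612, 614, 615, 616, 617]⟩,
  ⟨⟨⟨c258x, c236x, c240x, c235x⟩, ⟨.ofNat 0, .ofNat 0, c14x⟩, ⟨.negSucc 0, .ofNat 0, c223x⟩, ⟨.ofNat 0, .ofNat 1, c656x⟩⟩, [612, 613, 614, 615]⟩,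
  ⟨⟨⟨c223x, c226x, c238x, c235x⟩, ⟨.ofNat 1, .ofNat 0, c677x⟩, ⟨.ofNat 0, .ofNat 0, c14x⟩, ⟨.ofNat 0, .ofNat 1, c656x⟩⟩, [607, 608, 611, 612]⟩,
  ⟨⟨⟨c226x, c259x, c238x, c260x⟩, ⟨.ofNat 1, .ofNat 0, c677x⟩, ⟨.ofNat 0, .ofNat 0, c14x⟩, ⟨.ofNat 0, .ofNat 1, c656x⟩⟩, [608, 609, 610, 611, 612]⟩,
  ⟨⟨⟨c239x, c230x, c238x, c240x⟩, ⟨.ofNat 1, .ofNat 0, c677x⟩, ⟨.ofNat 0, .ofNat 0, c14x⟩, ⟨.ofNat 0, .ofNat 1, c656x⟩⟩, [596, 597, 598, 599]⟩,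
  ⟨⟨⟨c241x, c242x, c204x, c234x⟩, ⟨.ofNat 1, .ofNat 0, c677x⟩, ⟨.ofNat 0, .ofNat 0, c14x⟩, ⟨.ofNat 0, .ofNat 1, c656x⟩⟩, [230, 593, 594, 595]⟩,
  ⟨⟨⟨c243x, c244x, c204x, c237x⟩, ⟨.ofNat 0, .ofNat 0, c657x⟩, ⟨.ofNat 1, .ofNat 0, c678x⟩, ⟨.ofNat 0, .ofNat 1, c656x⟩⟩, [230, 589, 590, 591]⟩,
  ⟨⟨⟨c244x, c245x, c204x, c233x⟩, ⟨.ofNat 0, .ofNat 0, c657x⟩, ⟨.ofNat 1, .ofNat 0, c678x⟩, ⟨.ofNat 0, .ofNat 1, c656x⟩⟩, [230, 231, 232, 587, 588, 589, 590]⟩,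
  ⟨⟨⟨c242x, c679x, c204x, c246x⟩, ⟨.ofNat 1, .ofNat 0, c677x⟩, ⟨.ofNat 0, .ofNat 0, c14x⟩, ⟨.ofNat 0, .ofNat 1, c656x⟩⟩, [230, 592, 593, 594]⟩,
  ⟨⟨⟨c679x, c243x, c204x, c246x⟩, ⟨.ofNat 0, .ofNat 0, c657x⟩, ⟨.ofNat 1, .ofNat 0, c678x⟩, ⟨.ofNat 0, .ofNat 1, c656x⟩⟩, [230, 590, 591, 592]⟩,
  ⟨⟨⟨c247x, c248x, c227x, c238x⟩, ⟨.ofNat 1, .ofNat 0, c680x⟩, ⟨.ofNat 0, .ofNat 0, c14x⟩, ⟨.ofNat 0, .ofNat 1, c656x⟩⟩, [248, 250, 251, 252, 253, 254]⟩,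
  ⟨⟨⟨c248x, c255x, c229x, c238x⟩, ⟨.ofNat 1, .ofNat 0, c680x⟩, ⟨.ofNat 0, .ofNat 0, c14x⟩, ⟨.ofNat 0, .ofNat 1, c656x⟩⟩, [247, 248, 253, 254]⟩,
  ⟨⟨⟨c245x, c681x, c208x, c250x⟩, ⟨.ofNat 0, .ofNat 0, c657x⟩, ⟨.ofNat 1, .ofNat 0, c678x⟩, ⟨.ofNat 0, .ofNat 1, c656x⟩⟩, [231, 232, 586, 587, 588]⟩,
  ⟨⟨⟨c681x, c682x, c208x, c250x⟩, ⟨.negSucc 0, .ofNat 0, c682x⟩, ⟨.ofNat 0, .ofNat 0, c655x⟩, ⟨.ofNat 0, .ofNat 1, c656x⟩⟩, [232, 586]⟩,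
  ⟨⟨⟨c682x, c249x, c208x, c250x⟩, ⟨.ofNat 0, .ofNat 0, c14x⟩, ⟨.negSucc 0, .ofNat 0, c254x⟩, ⟨.ofNat 0, .ofNat 1, c656x⟩⟩, [232, 233, 234, 585, 586]⟩,
  ⟨⟨⟨c251x, c252x, c222x, c237x⟩, ⟨.ofNat 0, .ofNat 0, c14x⟩, ⟨.negSucc 0, .ofNat 0, c254x⟩, ⟨.ofNat 0, .ofNat 1, c656x⟩⟩, [238, 239, 240, 241]⟩,
  ⟨⟨⟨c253x, c251x, c222x, c240x⟩, ⟨.ofNat 0, .ofNat 0, c14x⟩, ⟨.negSucc 0, .ofNat 0, c254x⟩, ⟨.ofNat 0, .ofNat 1, c656x⟩⟩, [238, 240, 241, 242, 243]⟩,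
  ⟨⟨⟨c254x, c247x, c225x, c238x⟩, ⟨.ofNat 1, .ofNat 0, c680x⟩, ⟨.ofNat 0, .ofNat 0, c14x⟩, ⟨.ofNat 0, .ofNat 1, c656x⟩⟩, [248, 249, 250, 251]⟩,
  ⟨⟨⟨c256x, c257x, c231x, c238x⟩, ⟨.ofNat 1, .ofNat 0, c680x⟩, ⟨.ofNat 0, .ofNat 0, c14x⟩, ⟨.ofNat 0, .ofNat 1, c656x⟩⟩, [256, 257, 258, 259]⟩,
  ⟨⟨⟨c249x, c261x, c233x, c262x⟩, ⟨.ofNat 0, .ofNat 0, c14x⟩, ⟨.negSucc 0, .ofNat 0, c254x⟩, ⟨.ofNat 0, .ofNat 1, c656x⟩⟩, [233, 234, 235, 236, 584, 585, 586]⟩,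
  ⟨⟨⟨c261x, c263x, c234x, c262x⟩, ⟨.ofNat 0, .ofNat 0, c14x⟩, ⟨.negSucc 0, .ofNat 0, c254x⟩, ⟨.ofNat 0, .ofNat 1, c656x⟩⟩, [235, 236, 237, 584]⟩,
  ⟨⟨⟨c263x, c253x, c222x, c262x⟩, ⟨.ofNat 0, .ofNat 0, c14x⟩, ⟨.negSucc 0, .ofNat 0, c254x⟩, ⟨.ofNat 0, .ofNat 1, c656x⟩⟩, [236, 237, 238, 242, 243, 244, 584]⟩,
  ⟨⟨⟨c253x, c254x, c235x, c262x⟩, ⟨.ofNat 0, .ofNat 0, c14x⟩, ⟨.negSucc 0, .ofNat 0, c254x⟩, ⟨.ofNat 0, .ofNat 1, c656x⟩⟩, [243, 244, 584]⟩,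
  ⟨⟨⟨c255x, c264x, c229x, c262x⟩, ⟨.ofNat 1, .ofNat 0, c680x⟩, ⟨.ofNat 0, .ofNat 0, c14x⟩, ⟨.ofNat 0, .ofNat 1, c656x⟩⟩, [246, 247, 248, 254, 255, 256, 584]⟩,
  ⟨⟨⟨c254x, c248x, c235x, c262x⟩, ⟨.ofNat 1, .ofNat 0, c680x⟩, ⟨.ofNat 0, .ofNat 0, c14x⟩, ⟨.ofNat 0, .ofNat 1, c656x⟩⟩, [244, 245, 246, 584]⟩,
  ⟨⟨⟨c264x, c256x, c231x, c262x⟩, ⟨.ofNat 1, .ofNat 0, c680x⟩, ⟨.ofNat 0, .ofNat 0, c14x⟩, ⟨.ofNat 0, .ofNat 1, c656x⟩⟩, [255, 256, 258, 259, 260, 584]⟩,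
  ⟨⟨⟨c256x, c265x, c240x, c262x⟩, ⟨.ofNat 1, .ofNat 0, c680x⟩, ⟨.ofNat 0, .ofNat 0, c14x⟩, ⟨.ofNat 0, .ofNat 1, c656x⟩⟩, [259, 260, 261, 584]⟩,
  ⟨⟨⟨c265x, c266x, c234x, c262x⟩, ⟨.ofNat 1, .ofNat 0, c680x⟩, ⟨.ofNat 0, .ofNat 0, c14x⟩, ⟨.ofNat 0, .ofNat 1, c656x⟩⟩, [260, 261, 262, 263, 264, 584]⟩,
  ⟨⟨⟨c266x, c683x, c246x, c262x⟩, ⟨.ofNat 1, .ofNat 0, c680x⟩, ⟨.ofNat 0, .ofNat 0, c14x⟩, ⟨.ofNat 0, .ofNat 1, c656x⟩⟩, [263, 264, 584]⟩,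
  ⟨⟨⟨c683x, c267x, c246x, c262x⟩, ⟨.ofNat 0, .ofNat 0, c657x⟩, ⟨.ofNat 1, .ofNat 0, c684x⟩, ⟨.ofNat 0, .ofNat 1, c656x⟩⟩, [264, 265, 584]⟩,
  ⟨⟨⟨c267x, c268x, c237x, c262x⟩, ⟨.ofNat 0, .ofNat 0, c657x⟩, ⟨.ofNat 1, .ofNat 0, c684x⟩, ⟨.ofNat 0, .ofNat 1, c656x⟩⟩, [264, 265, 266, 267, 268, 584]⟩,
  ⟨⟨⟨c268x, c269x, c233x, c262x⟩, ⟨.ofNat 0, .ofNat 0, c657x⟩, ⟨.ofNat 1, .ofNat 0, c684x⟩, ⟨.ofNat 0, .ofNat 1, c656x⟩⟩, [267, 268, 269, 270, 583, 584]⟩,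
  ⟨⟨⟨c248x, c255x, c260x, c262x⟩, ⟨.ofNat 1, .ofNat 0, c680x⟩, ⟨.ofNat 0, .ofNat 0, c14x⟩, ⟨.ofNat 0, .ofNat 1, c656x⟩⟩, [245, 246, 247, 584]⟩,
  ⟨⟨⟨c270x, c293x, c250x, c272x⟩, ⟨.ofNat 0, .ofNat 0, c657x⟩, ⟨.ofNat 1, .ofNat 0, c684x⟩, ⟨.ofNat 0, .ofNat 1, c656x⟩⟩, [270, 572, 573]⟩,
  ⟨⟨⟨c271x, c273x, c250x, c274x⟩, ⟨.negSucc 0, .ofNat 0, c685x⟩, ⟨.ofNat 0, .ofNat 0, c655x⟩, ⟨.ofNat 0, .ofNat 1, c656x⟩⟩, [270, 569, 570, 571]⟩,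
  ⟨⟨⟨c293x, c271x, c250x, c272x⟩, ⟨.negSucc 0, .ofNat 0, c685x⟩, ⟨.ofNat 0, .ofNat 0, c655x⟩, ⟨.ofNat 0, .ofNat 1, c656x⟩⟩, [270, 570, 571, 572]⟩,
  ⟨⟨⟨c275x, c276x, c250x, c277x⟩, ⟨.negSucc 0, .ofNat 0, c685x⟩, ⟨.ofNat 0, .ofNat 0, c655x⟩, ⟨.ofNat 0, .ofNat 1, c656x⟩⟩, [270, 555, 556, 557]⟩,
  ⟨⟨⟨c282x, c685x, c250x, c284x⟩, ⟨.negSucc 0, .ofNat 0, c685x⟩, ⟨.ofNat 0, .ofNat 0, c655x⟩, ⟨.ofNat 0, .ofNat 1, c656x⟩⟩, [270, 552, 553]⟩,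
  ⟨⟨⟨c685x, c283x, c250x, c284x⟩, ⟨.ofNat 0, .ofNat 0, c14x⟩, ⟨.negSucc 0, .ofNat 0, c686x⟩, ⟨.ofNat 0, .ofNat 1, c656x⟩⟩, [270, 551, 552]⟩,
  ⟨⟨⟨c269x, c278x, c250x, c279x⟩, ⟨.ofNat 0, .ofNat 0, c657x⟩, ⟨.ofNat 1, .ofNat 0, c684x⟩, ⟨.ofNat 0, .ofNat 1, c656x⟩⟩, [269, 270, 580, 581, 582, 583, 584]⟩,
  ⟨⟨⟨c278x, c280x, c250x, c281x⟩, ⟨.ofNat 0, .ofNat 0, c657x⟩, ⟨.ofNat 1, .ofNat 0, c684x⟩, ⟨.ofNat 0, .ofNat 1, c656x⟩⟩, [270, 579, 580, 581]⟩,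
  ⟨⟨⟨c280x, c270x, c250x, c288x⟩, ⟨.ofNat 0, .ofNat 0, c657x⟩, ⟨.ofNat 1, .ofNat 0, c684x⟩, ⟨.ofNat 0, .ofNat 1, c656x⟩⟩, [270, 572, 573, 574, 578, 579, 580]⟩,
  ⟨⟨⟨c289x, c275x, c250x, c290x⟩, ⟨.negSucc 0, .ofNat 0, c685x⟩, ⟨.ofNat 0, .ofNat 0, c655x⟩, ⟨.ofNat 0, .ofNat 1, c656x⟩⟩, [270, 556, 557, 558, 560, 561]⟩,
  ⟨⟨⟨c276x, c282x, c250x, c281x⟩, ⟨.negSucc 0, .ofNat 0, c685x⟩, ⟨.ofNat 0, .ofNat 0, c655x⟩, ⟨.ofNat 0, .ofNat 1, c656x⟩⟩, [270, 552, 553, 554, 555, 556]⟩,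
  ⟨⟨⟨c283x, c285x, c250x, c286x⟩, ⟨.ofNat 0, .ofNat 0, c14x⟩, ⟨.negSucc 0, .ofNat 0, c686x⟩, ⟨.ofNat 0, .ofNat 1, c656x⟩⟩, [270, 548, 549, 550, 551, 552]⟩,
  ⟨⟨⟨c285x, c287x, c250x, c279x⟩, ⟨.ofNat 0, .ofNat 0, c14x⟩, ⟨.negSucc 0, .ofNat 0, c686x⟩, ⟨.ofNat 0, .ofNat 1, c656x⟩⟩, [270, 271, 272, 547, 548, 549]⟩,
  ⟨⟨⟨c273x, c289x, c250x, c291x⟩, ⟨.negSucc 0, .ofNat 0, c685x⟩, ⟨.ofNat 0, .ofNat 0, c655x⟩, ⟨.ofNat 0, .ofNat 1, c656x⟩⟩, [270, 560, 561, 562, 568, 569, 570]⟩,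
  ⟨⟨⟨c270x, c292x, c277x, c288x⟩, ⟨.ofNat 0, .ofNat 0, c657x⟩, ⟨.ofNat 1, .ofNat 0, c684x⟩, ⟨.ofNat 0, .ofNat 1, c656x⟩⟩, [573, 574, 575, 576, 578]⟩,
  ⟨⟨⟨c287x, c686x, c262x, c298x⟩, ⟨.ofNat 0, .ofNat 0, c14x⟩, ⟨.negSucc 0, .ofNat 0, c686x⟩, ⟨.ofNat 0, .ofNat 1, c656x⟩⟩, [271, 272, 546, 547, 548]⟩,
  ⟨⟨⟨c292x, c307x, c286x, c288x⟩, ⟨.ofNat 0, .ofNat 0, c657x⟩, ⟨.ofNat 1, .ofNat 0, c684x⟩, ⟨.ofNat 0, .ofNat 1, c656x⟩⟩, [575, 576, 577, 578]⟩,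
  ⟨⟨⟨c293x, c294x, c295x, c296x⟩, ⟨.negSucc 0, .ofNat 0, c685x⟩, ⟨.ofNat 0, .ofNat 0, c655x⟩, ⟨.ofNat 0, .ofNat 1, c656x⟩⟩, [565, 566, 567, 568]⟩,
  ⟨⟨⟨c275x, c308x, c295x, c290x⟩, ⟨.negSucc 0, .ofNat 0, c685x⟩, ⟨.ofNat 0, .ofNat 0, c655x⟩, ⟨.ofNat 0, .ofNat 1, c656x⟩⟩, [557, 558, 559, 560]⟩,
  ⟨⟨⟨c686x, c687x, c262x, c298x⟩, ⟨.ofNat 1, .ofNat 0, c688x⟩, ⟨.ofNat 0, .ofNat 0, c14x⟩, ⟨.ofNat 0, .ofNat 1, c656x⟩⟩, [272, 546]⟩,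
  ⟨⟨⟨c687x, c297x, c262x, c298x⟩, ⟨.ofNat 0, .ofNat 0, c657x⟩, ⟨.ofNat 1, .ofNat 0, c689x⟩, ⟨.ofNat 0, .ofNat 1, c656x⟩⟩, [272, 273, 274, 545, 546]⟩,
  ⟨⟨⟨c299x, c300x, c272x, c277x⟩, ⟨.ofNat 0, .ofNat 0, c657x⟩, ⟨.ofNat 1, .ofNat 0, c689x⟩, ⟨.ofNat 0, .ofNat 1, c656x⟩⟩, [281, 282, 283, 284]⟩,
  ⟨⟨⟨c300x, c301x, c272x, c286x⟩, ⟨.ofNat 0, .ofNat 0, c657x⟩, ⟨.ofNat 1, .ofNat 0, c689x⟩, ⟨.ofNat 0, .ofNat 1, c656x⟩⟩, [279, 280, 281, 282, 284]⟩,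
  ⟨⟨⟨c302x, c303x, c272x, c295x⟩, ⟨.negSucc 0, .ofNat 0, c690x⟩, ⟨.ofNat 0, .ofNat 0, c655x⟩, ⟨.ofNat 0, .ofNat 1, c656x⟩⟩, [284, 285, 288, 289]⟩,
  ⟨⟨⟨c303x, c304x, c274x, c295x⟩, ⟨.negSucc 0, .ofNat 0, c690x⟩, ⟨.ofNat 0, .ofNat 0, c655x⟩, ⟨.ofNat 0, .ofNat 1, c656x⟩⟩, [284, 285, 286, 287, 288]⟩,
  ⟨⟨⟨c305x, c306x, c277x, c295x⟩, ⟨.negSucc 0, .ofNat 0, c690x⟩, ⟨.ofNat 0, .ofNat 0, c655x⟩, ⟨.ofNat 0, .ofNat 1, c656x⟩⟩, [297, 298, 299, 300]⟩,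
  ⟨⟨⟨c271x, c273x, c295x, c291x⟩, ⟨.negSucc 0, .ofNat 0, c685x⟩, ⟨.ofNat 0, .ofNat 0, c655x⟩, ⟨.ofNat 0, .ofNat 1, c656x⟩⟩, [562, 563, 568, 569]⟩,
  ⟨⟨⟨c294x, c271x, c295x, c309x⟩, ⟨.negSucc 0, .ofNat 0, c685x⟩, ⟨.ofNat 0, .ofNat 0, c655x⟩, ⟨.ofNat 0, .ofNat 1, c656x⟩⟩, [562, 563, 564, 565, 566, 568]⟩,
  ⟨⟨⟨c301x, c302x, c272x, c311x⟩, ⟨.ofNat 0, .ofNat 0, c657x⟩, ⟨.ofNat 1, .ofNat 0, c689x⟩, ⟨.ofNat 0, .ofNat 1, c656x⟩⟩, [278, 279, 280, 284, 288, 289, 290, 544]⟩,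
  ⟨⟨⟨c297x, c310x, c279x, c311x⟩, ⟨.ofNat 0, .ofNat 0, c657x⟩, ⟨.ofNat 1, .ofNat 0, c689x⟩, ⟨.ofNat 0, .ofNat 1, c656x⟩⟩, [273, 274, 275, 544, 545, 546]⟩,
  ⟨⟨⟨c310x, c312x, c281x, c311x⟩, ⟨.ofNat 0, .ofNat 0, c657x⟩, ⟨.ofNat 1, .ofNat 0, c689x⟩, ⟨.ofNat 0, .ofNat 1, c656x⟩⟩, [274, 275, 276, 277, 278, 544]⟩,
  ⟨⟨⟨c312x, c301x, c288x, c311x⟩, ⟨.ofNat 0, .ofNat 0, c657x⟩, ⟨.ofNat 1, .ofNat 0, c689x⟩, ⟨.ofNat 0, .ofNat 1, c656x⟩⟩, [277, 278, 279, 544]⟩,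
  ⟨⟨⟨c302x, c318x, c296x, c311x⟩, ⟨.negSucc 0, .ofNat 0, c690x⟩, ⟨.ofNat 0, .ofNat 0, c655x⟩, ⟨.ofNat 0, .ofNat 1, c656x⟩⟩, [289, 290, 291, 292, 544]⟩,
  ⟨⟨⟨c319x, c306x, c290x, c311x⟩, ⟨.negSucc 0, .ofNat 0, c690x⟩, ⟨.ofNat 0, .ofNat 0, c655x⟩, ⟨.ofNat 0, .ofNat 1, c656x⟩⟩, [294, 295, 296, 297, 544]⟩,
  ⟨⟨⟨c306x, c313x, c277x, c311x⟩, ⟨.negSucc 0, .ofNat 0, c690x⟩, ⟨.ofNat 0, .ofNat 0, c655x⟩, ⟨.ofNat 0, .ofNat 1, c656x⟩⟩, [296, 297, 298, 300, 301, 302, 544]⟩,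
  ⟨⟨⟨c313x, c314x, c281x, c311x⟩, ⟨.negSucc 0, .ofNat 0, c690x⟩, ⟨.ofNat 0, .ofNat 0, c655x⟩, ⟨.ofNat 0, .ofNat 1, c656x⟩⟩, [301, 302, 303, 544]⟩,
  ⟨⟨⟨c314x, c690x, c284x, c311x⟩, ⟨.negSucc 0, .ofNat 0, c690x⟩, ⟨.ofNat 0, .ofNat 0, c655x⟩, ⟨.ofNat 0, .ofNat 1, c656x⟩⟩, [302, 303, 304, 544]⟩,
  ⟨⟨⟨c690x, c315x, c284x, c311x⟩, ⟨.ofNat 0, .ofNat 0, c14x⟩, ⟨.negSucc 0, .ofNat 0, c323x⟩, ⟨.ofNat 0, .ofNat 1, c656x⟩⟩, [304, 305, 306, 544]⟩,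
  ⟨⟨⟨c315x, c316x, c286x, c311x⟩, ⟨.ofNat 0, .ofNat 0, c14x⟩, ⟨.negSucc 0, .ofNat 0, c323x⟩, ⟨.ofNat 0, .ofNat 1, c656x⟩⟩, [305, 306, 307, 544]⟩,
  ⟨⟨⟨c316x, c317x, c279x, c311x⟩, ⟨.ofNat 0, .ofNat 0, c14x⟩, ⟨.negSucc 0, .ofNat 0, c323x⟩, ⟨.ofNat 0, .ofNat 1, c656x⟩⟩, [306, 307, 308, 309, 310, 543, 544]⟩,
  ⟨⟨⟨c303x, c319x, c291x, c311x⟩, ⟨.negSucc 0, .ofNat 0, c690x⟩, ⟨.ofNat 0, .ofNat 0, c655x⟩, ⟨.ofNat 0, .ofNat 1, c656x⟩⟩, [292, 293, 294, 295, 544]⟩,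
  ⟨⟨⟨c318x, c303x, c309x, c311x⟩, ⟨.negSucc 0, .ofNat 0, c690x⟩, ⟨.ofNat 0, .ofNat 0, c655x⟩, ⟨.ofNat 0, .ofNat 1, c656x⟩⟩, [291, 292, 293, 544]⟩,
  ⟨⟨⟨c327x, c328x, c298x, c329x⟩, ⟨.ofNat 1, .ofNat 0, c691x⟩, ⟨.ofNat 0, .ofNat 0, c14x⟩, ⟨.ofNat 0, .ofNat 1, c656x⟩⟩, [310, 519, 520, 521]⟩,
  ⟨⟨⟨c320x, c321x, c298x, c322x⟩, ⟨.ofNat 0, .ofNat 0, c14x⟩, ⟨.negSucc 0, .ofNat 0, c323x⟩, ⟨.ofNat 0, .ofNat 1, c656x⟩⟩, [310, 537, 538, 539]⟩,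
  ⟨⟨⟨c323x, c325x, c298x, c326x⟩, ⟨.ofNat 1, .ofNat 0, c691x⟩, ⟨.ofNat 0, .ofNat 0, c14x⟩, ⟨.ofNat 0, .ofNat 1, c656x⟩⟩, [310, 533, 534, 535]⟩,
  ⟨⟨⟨c328x, c330x, c298x, c331x⟩, ⟨.ofNat 1, .ofNat 0, c691x⟩, ⟨.ofNat 0, .ofNat 0, c14x⟩, ⟨.ofNat 0, .ofNat 1, c656x⟩⟩, [310, 517, 518, 519, 520]⟩,
  ⟨⟨⟨c317x, c334x, c298x, c335x⟩, ⟨.ofNat 0, .ofNat 0, c14x⟩, ⟨.negSucc 0, .ofNat 0, c323x⟩, ⟨.ofNat 0, .ofNat 1, c656x⟩⟩, [309, 310, 541, 542, 543, 544]⟩,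
  ⟨⟨⟨c334x, c320x, c298x, c336x⟩, ⟨.ofNat 0, .ofNat 0, c14x⟩, ⟨.negSucc 0, .ofNat 0, c323x⟩, ⟨.ofNat 0, .ofNat 1, c656x⟩⟩, [310, 538, 539, 540, 541, 542]⟩,
  ⟨⟨⟨c321x, c323x, c298x, c324x⟩, ⟨.ofNat 0, .ofNat 0, c14x⟩, ⟨.negSucc 0, .ofNat 0, c323x⟩, ⟨.ofNat 0, .ofNat 1, c656x⟩⟩, [310, 534, 535, 536, 537, 538]⟩,
  ⟨⟨⟨c325x, c337x, c298x, c338x⟩, ⟨.ofNat 1, .ofNat 0, c691x⟩, ⟨.ofNat 0, .ofNat 0, c14x⟩, ⟨.ofNat 0, .ofNat 1, c656x⟩⟩, [310, 529, 530, 532, 533, 534]⟩,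
  ⟨⟨⟨c330x, c332x, c298x, c339x⟩, ⟨.ofNat 0, .ofNat 0, c657x⟩, ⟨.ofNat 1, .ofNat 0, c692x⟩, ⟨.ofNat 0, .ofNat 1, c656x⟩⟩, [310, 510, 511, 512, 516, 517, 518]⟩,
  ⟨⟨⟨c332x, c333x, c298x, c324x⟩, ⟨.ofNat 0, .ofNat 0, c657x⟩, ⟨.ofNat 1, .ofNat 0, c692x⟩, ⟨.ofNat 0, .ofNat 1, c656x⟩⟩, [310, 509, 510, 511]⟩,
  ⟨⟨⟨c333x, c342x, c298x, c335x⟩, ⟨.ofNat 0, .ofNat 0, c657x⟩, ⟨.ofNat 1, .ofNat 0, c692x⟩, ⟨.ofNat 0, .ofNat 1, c656x⟩⟩, [310, 311, 312, 507, 508, 509, 510]⟩,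
  ⟨⟨⟨c337x, c327x, c298x, c340x⟩, ⟨.ofNat 1, .ofNat 0, c691x⟩, ⟨.ofNat 0, .ofNat 0, c14x⟩, ⟨.ofNat 0, .ofNat 1, c656x⟩⟩, [310, 520, 521, 522, 528, 529, 530]⟩,
  ⟨⟨⟨c341x, c330x, c326x, c339x⟩, ⟨.ofNat 1, .ofNat 0, c691x⟩, ⟨.ofNat 0, .ofNat 0, c14x⟩, ⟨.ofNat 0, .ofNat 1, c656x⟩⟩, [512, 514, 515, 516, 517]⟩,
  ⟨⟨⟨c342x, c693x, c311x, c359x⟩, ⟨.ofNat 0, .ofNat 0, c657x⟩, ⟨.ofNat 1, .ofNat 0, c692x⟩, ⟨.ofNat 0, .ofNat 1, c656x⟩⟩, [311, 312, 506, 507, 508]⟩,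
  ⟨⟨⟨c352x, c325x, c345x, c338x⟩, ⟨.ofNat 1, .ofNat 0, c691x⟩, ⟨.ofNat 0, .ofNat 0, c14x⟩, ⟨.ofNat 0, .ofNat 1, c656x⟩⟩, [530, 531, 532, 533]⟩,
  ⟨⟨⟨c327x, c328x, c345x, c340x⟩, ⟨.ofNat 1, .ofNat 0, c691x⟩, ⟨.ofNat 0, .ofNat 0, c14x⟩, ⟨.ofNat 0, .ofNat 1, c656x⟩⟩, [521, 522, 527, 528]⟩,
  ⟨⟨⟨c353x, c355x, c345x, c356x⟩, ⟨.ofNat 1, .ofNat 0, c691x⟩, ⟨.ofNat 0, .ofNat 0, c14x⟩, ⟨.ofNat 0, .ofNat 1, c656x⟩⟩, [522, 523, 524, 525]⟩,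
  ⟨⟨⟨c357x, c341x, c336x, c339x⟩, ⟨.ofNat 1, .ofNat 0, c691x⟩, ⟨.ofNat 0, .ofNat 0, c14x⟩, ⟨.ofNat 0, .ofNat 1, c656x⟩⟩, [512, 513, 514, 515]⟩,
  ⟨⟨⟨c693x, c694x, c311x, c359x⟩, ⟨.negSucc 0, .ofNat 0, c694x⟩, ⟨.ofNat 0, .ofNat 0, c655x⟩, ⟨.ofNat 0, .ofNat 1, c656x⟩⟩, [312, 506]⟩,
  ⟨⟨⟨c694x, c358x, c311x, c359x⟩, ⟨.ofNat 0, .ofNat 0, c14x⟩, ⟨.negSucc 0, .ofNat 0, c360x⟩, ⟨.ofNat 0, .ofNat 1, c656x⟩⟩, [312, 313, 314, 505, 506]⟩,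
  ⟨⟨⟨c348x, c349x, c326x, c345x⟩, ⟨.ofNat 1, .ofNat 0, c695x⟩, ⟨.ofNat 0, .ofNat 0, c14x⟩, ⟨.ofNat 0, .ofNat 1, c656x⟩⟩, [322, 323, 324, 325]⟩,
  ⟨⟨⟨c343x, c344x, c329x, c345x⟩, ⟨.ofNat 1, .ofNat 0, c695x⟩, ⟨.ofNat 0, .ofNat 0, c14x⟩, ⟨.ofNat 0, .ofNat 1, c656x⟩⟩, [334, 335, 336, 337, 338]⟩,
  ⟨⟨⟨c344x, c350x, c331x, c345x⟩, ⟨.ofNat 1, .ofNat 0, c695x⟩, ⟨.ofNat 0, .ofNat 0, c14x⟩, ⟨.ofNat 0, .ofNat 1, c656x⟩⟩, [333, 334, 337, 338]⟩,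
  ⟨⟨⟨c346x, c347x, c331x, c326x⟩, ⟨.ofNat 1, .ofNat 0, c695x⟩, ⟨.ofNat 0, .ofNat 0, c14x⟩, ⟨.ofNat 0, .ofNat 1, c656x⟩⟩, [338, 339, 340, 341]⟩,
  ⟨⟨⟨c351x, c346x, c331x, c336x⟩, ⟨.ofNat 1, .ofNat 0, c695x⟩, ⟨.ofNat 0, .ofNat 0, c14x⟩, ⟨.ofNat 0, .ofNat 1, c656x⟩⟩, [338, 340, 341, 342, 343]⟩,
  ⟨⟨⟨c328x, c353x, c345x, c354x⟩, ⟨.ofNat 1, .ofNat 0, c691x⟩, ⟨.ofNat 0, .ofNat 0, c14x⟩, ⟨.ofNat 0, .ofNat 1, c656x⟩⟩, [522, 524, 525, 526, 527, 528]⟩,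
  ⟨⟨⟨c362x, c363x, c322x, c361x⟩, ⟨.ofNat 0, .ofNat 0, c14x⟩, ⟨.negSucc 0, .ofNat 0, c360x⟩, ⟨.ofNat 0, .ofNat 1, c656x⟩⟩, [316, 317, 318, 319, 320, 504]⟩,
  ⟨⟨⟨c360x, c348x, c326x, c361x⟩, ⟨.ofNat 1, .ofNat 0, c695x⟩, ⟨.ofNat 0, .ofNat 0, c14x⟩, ⟨.ofNat 0, .ofNat 1, c656x⟩⟩, [320, 321, 322, 324, 325, 326, 504]⟩,
  ⟨⟨⟨c358x, c366x, c335x, c361x⟩, ⟨.ofNat 0, .ofNat 0, c14x⟩, ⟨.negSucc 0, .ofNat 0, c360x⟩, ⟨.ofNat 0, .ofNat 1, c656x⟩⟩, [313, 314, 315, 316, 504, 505, 506]⟩,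
  ⟨⟨⟨c366x, c362x, c336x, c361x⟩, ⟨.ofNat 0, .ofNat 0, c14x⟩, ⟨.negSucc 0, .ofNat 0, c360x⟩, ⟨.ofNat 0, .ofNat 1, c656x⟩⟩, [315, 316, 317, 504]⟩,
  ⟨⟨⟨c363x, c360x, c324x, c361x⟩, ⟨.ofNat 0, .ofNat 0, c14x⟩, ⟨.negSucc 0, .ofNat 0, c360x⟩, ⟨.ofNat 0, .ofNat 1, c656x⟩⟩, [319, 320, 321, 504]⟩,
  ⟨⟨⟨c348x, c367x, c338x, c361x⟩, ⟨.ofNat 1, .ofNat 0, c695x⟩, ⟨.ofNat 0, .ofNat 0, c14x⟩, ⟨.ofNat 0, .ofNat 1, c656x⟩⟩, [325, 326, 327, 328, 504]⟩,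
  ⟨⟨⟨c350x, c351x, c331x, c361x⟩, ⟨.ofNat 1, .ofNat 0, c695x⟩, ⟨.ofNat 0, .ofNat 0, c14x⟩, ⟨.ofNat 0, .ofNat 1, c656x⟩⟩, [332, 333, 334, 338, 342, 343, 344, 504]⟩,
  ⟨⟨⟨c368x, c350x, c356x, c361x⟩, ⟨.ofNat 1, .ofNat 0, c695x⟩, ⟨.ofNat 0, .ofNat 0, c14x⟩, ⟨.ofNat 0, .ofNat 1, c656x⟩⟩, [330, 331, 332, 333, 504]⟩,
  ⟨⟨⟨c351x, c347x, c339x, c361x⟩, ⟨.ofNat 1, .ofNat 0, c695x⟩, ⟨.ofNat 0, .ofNat 0, c14x⟩, ⟨.ofNat 0, .ofNat 1, c656x⟩⟩, [343, 344, 504]⟩,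
  ⟨⟨⟨c347x, c364x, c339x, c361x⟩, ⟨.ofNat 0, .ofNat 0, c657x⟩, ⟨.ofNat 1, .ofNat 0, c696x⟩, ⟨.ofNat 0, .ofNat 1, c656x⟩⟩, [344, 345, 504]⟩,
  ⟨⟨⟨c364x, c365x, c324x, c361x⟩, ⟨.ofNat 0, .ofNat 0, c657x⟩, ⟨.ofNat 1, .ofNat 0, c696x⟩, ⟨.ofNat 0, .ofNat 1, c656x⟩⟩, [344, 345, 346, 347, 348, 504]⟩,
  ⟨⟨⟨c365x, c369x, c335x, c361x⟩, ⟨.ofNat 0, .ofNat 0, c657x⟩, ⟨.ofNat 1, .ofNat 0, c696x⟩, ⟨.ofNat 0, .ofNat 1, c656x⟩⟩, [347, 348, 349, 350, 503, 504]⟩,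
  ⟨⟨⟨c367x, c344x, c340x, c361x⟩, ⟨.ofNat 1, .ofNat 0, c695x⟩, ⟨.ofNat 0, .ofNat 0, c14x⟩, ⟨.ofNat 0, .ofNat 1, c656x⟩⟩, [327, 328, 329, 330, 504]⟩,
  ⟨⟨⟨c344x, c368x, c354x, c361x⟩, ⟨.ofNat 1, .ofNat 0, c695x⟩, ⟨.ofNat 0, .ofNat 0, c14x⟩, ⟨.ofNat 0, .ofNat 1, c656x⟩⟩, [329, 330, 331, 504]⟩,
  ⟨⟨⟨c370x, c371x, c359x, c372x⟩, ⟨.negSucc 0, .ofNat 0, c402x⟩, ⟨.ofNat 0, .ofNat 0, c655x⟩, ⟨.ofNat 0, .ofNat 1, c656x⟩⟩, [350, 485, 486, 487]⟩,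
  ⟨⟨⟨c373x, c374x, c359x, c375x⟩, ⟨.negSucc 0, .ofNat 0, c402x⟩, ⟨.ofNat 0, .ofNat 0, c655x⟩, ⟨.ofNat 0, .ofNat 1, c656x⟩⟩, [350, 488, 489, 490, 491]⟩,
  ⟨⟨⟨c374x, c370x, c359x, c376x⟩, ⟨.negSucc 0, .ofNat 0, c402x⟩, ⟨.ofNat 0, .ofNat 0, c655x⟩, ⟨.ofNat 0, .ofNat 1, c656x⟩⟩, [350, 486, 487, 488, 489]⟩,
  ⟨⟨⟨c377x, c402x, c359x, c379x⟩, ⟨.negSucc 0, .ofNat 0, c402x⟩, ⟨.ofNat 0, .ofNat 0, c655x⟩, ⟨.ofNat 0, .ofNat 1, c656x⟩⟩, [350, 472, 473]⟩,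
  ⟨⟨⟨c402x, c378x, c359x, c379x⟩, ⟨.ofNat 0, .ofNat 0, c14x⟩, ⟨.negSucc 0, .ofNat 0, c697x⟩, ⟨.ofNat 0, .ofNat 1, c656x⟩⟩, [350, 471, 472]⟩,
  ⟨⟨⟨c369x, c380x, c359x, c381x⟩, ⟨.ofNat 0, .ofNat 0, c657x⟩, ⟨.ofNat 1, .ofNat 0, c696x⟩, ⟨.ofNat 0, .ofNat 1, c656x⟩⟩, [349, 350, 500, 501, 502, 503, 504]⟩,
  ⟨⟨⟨c380x, c382x, c359x, c383x⟩, ⟨.ofNat 0, .ofNat 0, c657x⟩, ⟨.ofNat 1, .ofNat 0, c696x⟩, ⟨.ofNat 0, .ofNat 1, c656x⟩⟩, [350, 499, 500, 501]⟩,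
  ⟨⟨⟨c382x, c384x, c359x, c385x⟩, ⟨.ofNat 0, .ofNat 0, c657x⟩, ⟨.ofNat 1, .ofNat 0, c696x⟩, ⟨.ofNat 0, .ofNat 1, c656x⟩⟩, [350, 496, 497, 498, 499, 500]⟩,
  ⟨⟨⟨c384x, c386x, c359x, c387x⟩, ⟨.ofNat 0, .ofNat 0, c657x⟩, ⟨.ofNat 1, .ofNat 0, c696x⟩, ⟨.ofNat 0, .ofNat 1, c656x⟩⟩, [350, 495, 496, 497]⟩,
  ⟨⟨⟨c371x, c389x, c359x, c390x⟩, ⟨.negSucc 0, .ofNat 0, c402x⟩, ⟨.ofNat 0, .ofNat 0, c655x⟩, ⟨.ofNat 0, .ofNat 1, c656x⟩⟩, [350, 483, 484, 485, 486]⟩,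
  ⟨⟨⟨c378x, c391x, c359x, c387x⟩, ⟨.ofNat 0, .ofNat 0, c14x⟩, ⟨.negSucc 0, .ofNat 0, c697x⟩, ⟨.ofNat 0, .ofNat 1, c656x⟩⟩, [350, 468, 469, 470, 471, 472]⟩,
  ⟨⟨⟨c391x, c392x, c359x, c381x⟩, ⟨.ofNat 0, .ofNat 0, c14x⟩, ⟨.negSucc 0, .ofNat 0, c697x⟩, ⟨.ofNat 0, .ofNat 1, c656x⟩⟩, [350, 351, 352, 467, 468, 469]⟩,
  ⟨⟨⟨c386x, c373x, c359x, c388x⟩, ⟨.negSucc 0, .ofNat 0, c402x⟩, ⟨.ofNat 0, .ofNat 0, c655x⟩, ⟨.ofNat 0, .ofNat 1, c656x⟩⟩, [350, 490, 491, 492, 494, 495, 496]⟩,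
  ⟨⟨⟨c389x, c377x, c359x, c393x⟩, ⟨.negSucc 0, .ofNat 0, c402x⟩, ⟨.ofNat 0, .ofNat 0, c655x⟩, ⟨.ofNat 0, .ofNat 1, c656x⟩⟩, [350, 472, 473, 474, 478, 482, 483, 484]⟩,
  ⟨⟨⟨c392x, c697x, c361x, c404x⟩, ⟨.ofNat 0, .ofNat 0, c14x⟩, ⟨.negSucc 0, .ofNat 0, c697x⟩, ⟨.ofNat 0, .ofNat 1, c656x⟩⟩, [351, 352, 466, 467, 468]⟩,
  ⟨⟨⟨c373x, c398x, c396x, c388x⟩, ⟨.negSucc 0, .ofNat 0, c402x⟩, ⟨.ofNat 0, .ofNat 0, c655x⟩, ⟨.ofNat 0, .ofNat 1, c656x⟩⟩, [491, 492, 493, 494]⟩,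
  ⟨⟨⟨c377x, c401x, c383x, c393x⟩, ⟨.negSucc 0, .ofNat 0, c402x⟩, ⟨.ofNat 0, .ofNat 0, c655x⟩, ⟨.ofNat 0, .ofNat 1, c656x⟩⟩, [473, 474, 475, 476, 478]⟩,
  ⟨⟨⟨c697x, c698x, c361x, c404x⟩, ⟨.ofNat 1, .ofNat 0, c699x⟩, ⟨.ofNat 0, .ofNat 0, c14x⟩, ⟨.ofNat 0, .ofNat 1, c656x⟩⟩, [352, 466]⟩,
  ⟨⟨⟨c698x, c403x, c361x, c404x⟩, ⟨.ofNat 0, .ofNat 0, c657x⟩, ⟨.ofNat 1, .ofNat 0, c700x⟩, ⟨.ofNat 0, .ofNat 1, c656x⟩⟩, [352, 353, 354, 465, 466]⟩,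
  ⟨⟨⟨c405x, c406x, c375x, c396x⟩, ⟨.negSucc 0, .ofNat 0, c410x⟩, ⟨.ofNat 0, .ofNat 0, c655x⟩, ⟨.ofNat 0, .ofNat 1, c656x⟩⟩, [363, 364, 365, 366]⟩,
  ⟨⟨⟨c394x, c395x, c376x, c396x⟩, ⟨.negSucc 0, .ofNat 0, c410x⟩, ⟨.ofNat 0, .ofNat 0, c655x⟩, ⟨.ofNat 0, .ofNat 1, c656x⟩⟩, [368, 369, 374, 375]⟩,
  ⟨⟨⟨c395x, c397x, c372x, c396x⟩, ⟨.negSucc 0, .ofNat 0, c410x⟩, ⟨.ofNat 0, .ofNat 0, c655x⟩, ⟨.ofNat 0, .ofNat 1, c656x⟩⟩, [368, 369, 370, 371, 372, 374]⟩,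
  ⟨⟨⟨c397x, c407x, c390x, c396x⟩, ⟨.negSucc 0, .ofNat 0, c410x⟩, ⟨.ofNat 0, .ofNat 0, c655x⟩, ⟨.ofNat 0, .ofNat 1, c656x⟩⟩, [371, 372, 373, 374]⟩,
  ⟨⟨⟨c408x, c409x, c379x, c383x⟩, ⟨.negSucc 0, .ofNat 0, c410x⟩, ⟨.ofNat 0, .ofNat 0, c655x⟩, ⟨.ofNat 0, .ofNat 1, c656x⟩⟩, [381, 382, 383, 384]⟩,
  ⟨⟨⟨c409x, c410x, c379x, c388x⟩, ⟨.negSucc 0, .ofNat 0, c410x⟩, ⟨.ofNat 0, .ofNat 0, c655x⟩, ⟨.ofNat 0, .ofNat 1, c656x⟩⟩, [379, 380, 381, 382, 384]⟩,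
  ⟨⟨⟨c399x, c370x, c396x, c400x⟩, ⟨.negSucc 0, .ofNat 0, c402x⟩, ⟨.ofNat 0, .ofNat 0, c655x⟩, ⟨.ofNat 0, .ofNat 1, c656x⟩⟩, [478, 479, 480, 481, 482]⟩,
  ⟨⟨⟨c370x, c389x, c396x, c393x⟩, ⟨.negSucc 0, .ofNat 0, c402x⟩, ⟨.ofNat 0, .ofNat 0, c655x⟩, ⟨.ofNat 0, .ofNat 1, c656x⟩⟩, [478, 479, 482, 483]⟩,
  ⟨⟨⟨c401x, c402x, c388x, c393x⟩, ⟨.negSucc 0, .ofNat 0, c402x⟩, ⟨.ofNat 0, .ofNat 0, c655x⟩, ⟨.ofNat 0, .ofNat 1, c656x⟩⟩, [475, 476, 477, 478]⟩,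
  ⟨⟨⟨c403x, c414x, c381x, c412x⟩, ⟨.ofNat 0, .ofNat 0, c657x⟩, ⟨.ofNat 1, .ofNat 0, c700x⟩, ⟨.ofNat 0, .ofNat 1, c656x⟩⟩, [353, 354, 355, 464, 465, 466]⟩,
  ⟨⟨⟨c414x, c415x, c383x, c412x⟩, ⟨.ofNat 0, .ofNat 0, c657x⟩, ⟨.ofNat 1, .ofNat 0, c700x⟩, ⟨.ofNat 0, .ofNat 1, c656x⟩⟩, [354, 355, 356, 357, 358, 464]⟩,
  ⟨⟨⟨c415x, c416x, c385x, c412x⟩, ⟨.ofNat 0, .ofNat 0, c657x⟩, ⟨.ofNat 1, .ofNat 0, c700x⟩, ⟨.ofNat 0, .ofNat 1, c656x⟩⟩, [357, 358, 359, 464]⟩,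
  ⟨⟨⟨c416x, c417x, c387x, c412x⟩, ⟨.ofNat 0, .ofNat 0, c657x⟩, ⟨.ofNat 1, .ofNat 0, c700x⟩, ⟨.ofNat 0, .ofNat 1, c656x⟩⟩, [358, 359, 360, 361, 362, 464]⟩,
  ⟨⟨⟨c411x, c394x, c376x, c412x⟩, ⟨.negSucc 0, .ofNat 0, c410x⟩, ⟨.ofNat 0, .ofNat 0, c655x⟩, ⟨.ofNat 0, .ofNat 1, c656x⟩⟩, [366, 367, 368, 374, 375, 376, 464]⟩,
  ⟨⟨⟨c406x, c411x, c375x, c412x⟩, ⟨.negSucc 0, .ofNat 0, c410x⟩, ⟨.ofNat 0, .ofNat 0, c655x⟩, ⟨.ofNat 0, .ofNat 1, c656x⟩⟩, [362, 363, 364, 366, 367, 464]⟩,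
  ⟨⟨⟨c417x, c406x, c388x, c412x⟩, ⟨.negSucc 0, .ofNat 0, c410x⟩, ⟨.ofNat 0, .ofNat 0, c655x⟩, ⟨.ofNat 0, .ofNat 1, c656x⟩⟩, [361, 362, 363, 464]⟩,
  ⟨⟨⟨c410x, c413x, c379x, c412x⟩, ⟨.ofNat 0, .ofNat 0, c14x⟩, ⟨.negSucc 0, .ofNat 0, c429x⟩, ⟨.ofNat 0, .ofNat 1, c656x⟩⟩, [378, 379, 380, 384, 385, 386, 464]⟩,
  ⟨⟨⟨c395x, c410x, c393x, c412x⟩, ⟨.negSucc 0, .ofNat 0, c410x⟩, ⟨.ofNat 0, .ofNat 0, c655x⟩, ⟨.ofNat 0, .ofNat 1, c656x⟩⟩, [376, 377, 378, 379, 464]⟩,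
  ⟨⟨⟨c413x, c418x, c387x, c412x⟩, ⟨.ofNat 0, .ofNat 0, c14x⟩, ⟨.negSucc 0, .ofNat 0, c429x⟩, ⟨.ofNat 0, .ofNat 1, c656x⟩⟩, [385, 386, 387, 464]⟩,
  ⟨⟨⟨c418x, c419x, c381x, c412x⟩, ⟨.ofNat 0, .ofNat 0, c14x⟩, ⟨.negSucc 0, .ofNat 0, c429x⟩, ⟨.ofNat 0, .ofNat 1, c656x⟩⟩, [386, 387, 388, 389, 390, 463, 464]⟩,
  ⟨⟨⟨c394x, c395x, c400x, c412x⟩, ⟨.negSucc 0, .ofNat 0, c410x⟩, ⟨.ofNat 0, .ofNat 0, c655x⟩, ⟨.ofNat 0, .ofNat 1, c656x⟩⟩, [375, 376, 377, 464]⟩,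
  ⟨⟨⟨c420x, c421x, c404x, c422x⟩, ⟨.ofNat 1, .ofNat 0, c701x⟩, ⟨.ofNat 0, .ofNat 0, c14x⟩, ⟨.ofNat 0, .ofNat 1, c656x⟩⟩, [390, 439, 440, 441]⟩,
  ⟨⟨⟨c421x, c435x, c404x, c436x⟩, ⟨.ofNat 1, .ofNat 0, c701x⟩, ⟨.ofNat 0, .ofNat 0, c14x⟩, ⟨.ofNat 0, .ofNat 1, c656x⟩⟩, [390, 437, 438, 439, 440]⟩,
  ⟨⟨⟨c419x, c423x, c404x, c432x⟩, ⟨.ofNat 0, .ofNat 0, c14x⟩, ⟨.negSucc 0, .ofNat 0, c429x⟩, ⟨.ofNat 0, .ofNat 1, c656x⟩⟩, [389, 390, 463, 464]⟩,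
  ⟨⟨⟨c423x, c425x, c404x, c432x⟩, ⟨.ofNat 0, .ofNat 0, c14x⟩, ⟨.negSucc 0, .ofNat 0, c429x⟩, ⟨.ofNat 0, .ofNat 1, c656x⟩⟩, [390]⟩,
  ⟨⟨⟨c425x, c427x, c404x, c432x⟩, ⟨.ofNat 0, .ofNat 0, c14x⟩, ⟨.negSucc 0, .ofNat 0, c429x⟩, ⟨.ofNat 0, .ofNat 1, c656x⟩⟩, [390]⟩,
  ⟨⟨⟨c427x, c429x, c404x, c432x⟩, ⟨.ofNat 0, .ofNat 0, c14x⟩, ⟨.negSucc 0, .ofNat 0, c429x⟩, ⟨.ofNat 0, .ofNat 1, c656x⟩⟩, [390, 454, 455]⟩,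
  ⟨⟨⟨c429x, c431x, c404x, c432x⟩, ⟨.ofNat 1, .ofNat 0, c701x⟩, ⟨.ofNat 0, .ofNat 0, c14x⟩, ⟨.ofNat 0, .ofNat 1, c656x⟩⟩, [390, 453, 454, 455]⟩,
  ⟨⟨⟨c431x, c433x, c404x, c432x⟩, ⟨.ofNat 1, .ofNat 0, c701x⟩, ⟨.ofNat 0, .ofNat 0, c14x⟩, ⟨.ofNat 0, .ofNat 1, c656x⟩⟩, [390, 453, 454]⟩,
  ⟨⟨⟨c433x, c420x, c404x, c432x⟩, ⟨.ofNat 1, .ofNat 0, c701x⟩, ⟨.ofNat 0, .ofNat 0, c14x⟩, ⟨.ofNat 0, .ofNat 1, c656x⟩⟩, [390, 440, 441]⟩,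
  ⟨⟨⟨c435x, c437x, c404x, c432x⟩, ⟨.ofNat 0, .ofNat 0, c657x⟩, ⟨.ofNat 1, .ofNat 0, c702x⟩, ⟨.ofNat 0, .ofNat 1, c656x⟩⟩, [390, 436, 437, 438]⟩,
  ⟨⟨⟨c437x, c438x, c404x, c432x⟩, ⟨.ofNat 0, .ofNat 0, c657x⟩, ⟨.ofNat 1, .ofNat 0, c702x⟩, ⟨.ofNat 0, .ofNat 1, c656x⟩⟩, [390]⟩,
  ⟨⟨⟨c438x, c439x, c404x, c432x⟩, ⟨.ofNat 0, .ofNat 0, c657x⟩, ⟨.ofNat 1, .ofNat 0, c702x⟩, ⟨.ofNat 0, .ofNat 1, c656x⟩⟩, [390, 391, 392]⟩,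
  ⟨⟨⟨c439x, c444x, c412x, c432x⟩, ⟨.ofNat 0, .ofNat 0, c657x⟩, ⟨.ofNat 1, .ofNat 0, c702x⟩, ⟨.ofNat 0, .ofNat 1, c656x⟩⟩, [391, 392]⟩,
  ⟨⟨⟨c444x, c445x, c412x, c432x⟩, ⟨.ofNat 0, .ofNat 0, c657x⟩, ⟨.ofNat 1, .ofNat 0, c702x⟩, ⟨.ofNat 0, .ofNat 1, c656x⟩⟩, [392]⟩,
  ⟨⟨⟨c425x, c427x, c432x, c428x⟩, ⟨.ofNat 0, .ofNat 1, c703x⟩, ⟨.negSucc 0, .ofNat 0, c429x⟩, ⟨.ofNat 0, .ofNat 0, c704x⟩⟩, [457, 458, 459]⟩,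
  ⟨⟨⟨c445x, c446x, c412x, c432x⟩, ⟨.ofNat 0, .ofNat 0, c657x⟩, ⟨.ofNat 1, .ofNat 0, c702x⟩, ⟨.ofNat 0, .ofNat 1, c656x⟩⟩, [392]⟩,
  ⟨⟨⟨c446x, c447x, c412x, c432x⟩, ⟨.ofNat 0, .ofNat 0, c657x⟩, ⟨.ofNat 1, .ofNat 0, c702x⟩, ⟨.ofNat 0, .ofNat 1, c656x⟩⟩, [392, 420, 421]⟩,
  ⟨⟨⟨c447x, c448x, c412x, c432x⟩, ⟨.negSucc 0, .ofNat 0, c458x⟩, ⟨.ofNat 0, .ofNat 0, c655x⟩, ⟨.ofNat 0, .ofNat 1, c656x⟩⟩, [392, 419, 420, 421]⟩,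
  ⟨⟨⟨c445x, c446x, c432x, c428x⟩, ⟨.ofNat 0, .negSucc 0, c705x⟩, ⟨.ofNat 1, .ofNat 0, c702x⟩, ⟨.ofNat 0, .ofNat 0, c704x⟩⟩, [423, 424, 425]⟩,
  ⟨⟨⟨c448x, c457x, c412x, c432x⟩, ⟨.negSucc 0, .ofNat 0, c458x⟩, ⟨.ofNat 0, .ofNat 0, c655x⟩, ⟨.ofNat 0, .ofNat 1, c656x⟩⟩, [392, 419, 420]⟩,
  ⟨⟨⟨c457x, c442x, c412x, c432x⟩, ⟨.negSucc 0, .ofNat 0, c458x⟩, ⟨.ofNat 0, .ofNat 0, c655x⟩, ⟨.ofNat 0, .ofNat 1, c656x⟩⟩, [392, 406, 407]⟩,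
  ⟨⟨⟨c442x, c443x, c412x, c422x⟩, ⟨.negSucc 0, .ofNat 0, c458x⟩, ⟨.ofNat 0, .ofNat 0, c655x⟩, ⟨.ofNat 0, .ofNat 1, c656x⟩⟩, [392, 405, 406, 407]⟩,
  ⟨⟨⟨c443x, c458x, c412x, c436x⟩, ⟨.negSucc 0, .ofNat 0, c458x⟩, ⟨.ofNat 0, .ofNat 0, c655x⟩, ⟨.ofNat 0, .ofNat 1, c656x⟩⟩, [392, 403, 404, 405, 406]⟩,
  ⟨⟨⟨c458x, c459x, c412x, c432x⟩, ⟨.ofNat 0, .ofNat 0, c14x⟩, ⟨.negSucc 0, .ofNat 0, c706x⟩, ⟨.ofNat 0, .ofNat 1, c656x⟩⟩, [392, 402, 403, 404]⟩,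
  ⟨⟨⟨c459x, c460x, c412x, c432x⟩, ⟨.ofNat 0, .ofNat 0, c14x⟩, ⟨.negSucc 0, .ofNat 0, c706x⟩, ⟨.ofNat 0, .ofNat 1, c656x⟩⟩, [392]⟩,
  ⟨⟨⟨c460x, c461x, c412x, c432x⟩, ⟨.ofNat 0, .ofNat 0, c14x⟩, ⟨.negSucc 0, .ofNat 0, c706x⟩, ⟨.ofNat 0, .ofNat 1, c656x⟩⟩, [392, 393]⟩,
  ⟨⟨⟨c419x, c423x, c432x, c424x⟩, ⟨.ofNat 0, .ofNat 1, c703x⟩, ⟨.negSucc 0, .ofNat 0, c429x⟩, ⟨.ofNat 0, .ofNat 0, c704x⟩⟩, [461, 462, 463]⟩,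
  ⟨⟨⟨c423x, c425x, c432x, c426x⟩, ⟨.ofNat 0, .ofNat 1, c703x⟩, ⟨.negSucc 0, .ofNat 0, c429x⟩, ⟨.ofNat 0, .ofNat 0, c704x⟩⟩, [458, 459, 460, 461, 462]⟩,
  ⟨⟨⟨c427x, c429x, c432x, c430x⟩, ⟨.ofNat 0, .ofNat 1, c703x⟩, ⟨.negSucc 0, .ofNat 0, c429x⟩, ⟨.ofNat 0, .ofNat 0, c704x⟩⟩, [454, 455, 456, 457, 458]⟩,
  ⟨⟨⟨c449x, c431x, c450x, c434x⟩, ⟨.ofNat 1, .ofNat 0, c701x⟩, ⟨.ofNat 0, .ofNat 1, c703x⟩, ⟨.ofNat 0, .ofNat 0, c704x⟩⟩, [450, 451, 452, 453]⟩,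
  ⟨⟨⟨c431x, c433x, c432x, c434x⟩, ⟨.ofNat 1, .ofNat 0, c701x⟩, ⟨.ofNat 0, .ofNat 1, c703x⟩, ⟨.ofNat 0, .ofNat 0, c704x⟩⟩, [449, 450, 452, 453, 454]⟩,
  ⟨⟨⟨c433x, c420x, c432x, c440x⟩, ⟨.ofNat 1, .ofNat 0, c701x⟩, ⟨.ofNat 0, .ofNat 1, c703x⟩, ⟨.ofNat 0, .ofNat 0, c704x⟩⟩, [441, 442, 448, 449, 450]⟩,
  ⟨⟨⟨c420x, c421x, c450x, c440x⟩, ⟨.ofNat 1, .ofNat 0, c701x⟩, ⟨.ofNat 0, .ofNat 1, c703x⟩, ⟨.ofNat 0, .ofNat 0, c704x⟩⟩, [441, 442, 447, 448]⟩,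
  ⟨⟨⟨c421x, c451x, c450x, c452x⟩, ⟨.ofNat 1, .ofNat 0, c701x⟩, ⟨.ofNat 0, .ofNat 1, c703x⟩, ⟨.ofNat 0, .ofNat 0, c704x⟩⟩, [442, 444, 445, 446, 447, 448]⟩,
  ⟨⟨⟨c451x, c453x, c450x, c454x⟩, ⟨.ofNat 1, .ofNat 0, c701x⟩, ⟨.ofNat 0, .ofNat 1, c703x⟩, ⟨.ofNat 0, .ofNat 0, c704x⟩⟩, [442, 443, 444, 445]⟩,
  ⟨⟨⟨c456x, c455x, c426x, c441x⟩, ⟨.ofNat 0, .negSucc 0, c705x⟩, ⟨.ofNat 0, .ofNat 0, c14x⟩, ⟨.ofNat 1, .ofNat 0, c707x⟩⟩, [432, 433, 434, 435]⟩,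
  ⟨⟨⟨c455x, c435x, c432x, c441x⟩, ⟨.ofNat 0, .negSucc 0, c705x⟩, ⟨.ofNat 0, .ofNat 0, c14x⟩, ⟨.ofNat 1, .ofNat 0, c707x⟩⟩, [432, 434, 435, 436, 437]⟩,
  ⟨⟨⟨c435x, c437x, c432x, c441x⟩, ⟨.ofNat 0, .negSucc 0, c705x⟩, ⟨.ofNat 1, .ofNat 0, c702x⟩, ⟨.ofNat 0, .ofNat 0, c704x⟩⟩, [430, 431, 432, 436, 437]⟩,
  ⟨⟨⟨c437x, c438x, c432x, c430x⟩, ⟨.ofNat 0, .negSucc 0, c705x⟩, ⟨.ofNat 1, .ofNat 0, c702x⟩, ⟨.ofNat 0, .ofNat 0, c704x⟩⟩, [429, 430, 431]⟩,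
  ⟨⟨⟨c438x, c439x, c432x, c424x⟩, ⟨.ofNat 0, .negSucc 0, c705x⟩, ⟨.ofNat 1, .ofNat 0, c702x⟩, ⟨.ofNat 0, .ofNat 0, c704x⟩⟩, [428, 429, 430]⟩,
  ⟨⟨⟨c439x, c444x, c432x, c424x⟩, ⟨.ofNat 0, .negSucc 0, c705x⟩, ⟨.ofNat 1, .ofNat 0, c702x⟩, ⟨.ofNat 0, .ofNat 0, c704x⟩⟩, [427, 428]⟩,
  ⟨⟨⟨c444x, c445x, c432x, c426x⟩, ⟨.ofNat 0, .negSucc 0, c705x⟩, ⟨.ofNat 1, .ofNat 0, c702x⟩, ⟨.ofNat 0, .ofNat 0, c704x⟩⟩, [424, 425, 426, 427, 428]⟩,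
  ⟨⟨⟨c446x, c447x, c432x, c430x⟩, ⟨.ofNat 0, .negSucc 0, c705x⟩, ⟨.ofNat 1, .ofNat 0, c702x⟩, ⟨.ofNat 0, .ofNat 0, c704x⟩⟩, [420, 421, 422, 423, 424]⟩,
  ⟨⟨⟨c462x, c448x, c450x, c434x⟩, ⟨.negSucc 0, .ofNat 0, c458x⟩, ⟨.ofNat 0, .negSucc 0, c708x⟩, ⟨.ofNat 0, .ofNat 0, c704x⟩⟩, [416, 417, 418, 419]⟩,
  ⟨⟨⟨c448x, c457x, c432x, c434x⟩, ⟨.negSucc 0, .ofNat 0, c458x⟩, ⟨.ofNat 0, .negSucc 0, c708x⟩, ⟨.ofNat 0, .ofNat 0, c704x⟩⟩, [415, 416, 418, 419, 420]⟩,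
  ⟨⟨⟨c457x, c442x, c432x, c440x⟩, ⟨.negSucc 0, .ofNat 0, c458x⟩, ⟨.ofNat 0, .negSucc 0, c708x⟩, ⟨.ofNat 0, .ofNat 0, c704x⟩⟩, [407, 408, 414, 415, 416]⟩,
  ⟨⟨⟨c442x, c443x, c450x, c440x⟩, ⟨.negSucc 0, .ofNat 0, c458x⟩, ⟨.ofNat 0, .negSucc 0, c708x⟩, ⟨.ofNat 0, .ofNat 0, c704x⟩⟩, [407, 408, 413, 414]⟩,
  ⟨⟨⟨c443x, c463x, c450x, c452x⟩, ⟨.negSucc 0, .ofNat 0, c458x⟩, ⟨.ofNat 0, .negSucc 0, c708x⟩, ⟨.ofNat 0, .ofNat 0, c704x⟩⟩, [408, 410, 411, 412, 413, 414]⟩,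
  ⟨⟨⟨c463x, c464x, c450x, c454x⟩, ⟨.negSucc 0, .ofNat 0, c458x⟩, ⟨.ofNat 0, .negSucc 0, c708x⟩, ⟨.ofNat 0, .ofNat 0, c704x⟩⟩, [408, 409, 410, 411]⟩,
  ⟨⟨⟨c466x, c465x, c426x, c441x⟩, ⟨.ofNat 0, .ofNat 1, c703x⟩, ⟨.ofNat 0, .ofNat 0, c655x⟩, ⟨.ofNat 1, .ofNat 0, c709x⟩⟩, [398, 399, 400, 401]⟩,
  ⟨⟨⟨c465x, c458x, c432x, c441x⟩, ⟨.ofNat 0, .ofNat 1, c703x⟩, ⟨.ofNat 0, .ofNat 0, c655x⟩, ⟨.ofNat 1, .ofNat 0, c709x⟩⟩, [398, 400, 401, 402, 403]⟩,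
  ⟨⟨⟨c458x, c459x, c432x, c441x⟩, ⟨.ofNat 0, .ofNat 1, c703x⟩, ⟨.negSucc 0, .ofNat 0, c706x⟩, ⟨.ofNat 0, .ofNat 0, c704x⟩⟩, [396, 397, 398, 402, 403]⟩,
  ⟨⟨⟨c459x, c460x, c432x, c430x⟩, ⟨.ofNat 0, .ofNat 1, c703x⟩, ⟨.negSucc 0, .ofNat 0, c706x⟩, ⟨.ofNat 0, .ofNat 0, c704x⟩⟩, [395, 396, 397]⟩,
  ⟨⟨⟨c460x, c461x, c432x, c424x⟩, ⟨.ofNat 0, .ofNat 1, c703x⟩, ⟨.negSucc 0, .ofNat 0, c706x⟩, ⟨.ofNat 0, .ofNat 0, c704x⟩⟩, [393, 394, 395, 396]⟩]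

def own : List ℕ := [5, 6, 8, 2, 4, 9, 1, 0, 3, 11, 17, 19, 21, 22, 25, 24, 27, 12, 28, 29, 14, 13, 15, 16, 18, 31, 33, 7, 5, 6, 7, 8, 10, 9, 4, 19, 26, 32, 21, 22, 20, 23, 25, 24, 26, 27, 30, 29, 28, 35, 34, 31, 32, 33, 40, 41, 37, 42, 38, 43, 46, 36, 39, 44, 45, 47, 55, 48, 57, 58, 49, 59, 50, 51, 52, 53, 54, 51, 56, 51, 66, 60, 61, 62, 63, 64, 69, 71, 65, 72, 70, 70, 67, 68, 74, 75, 80, 81, 82, 76, 77, 73, 78, 83, 79, 79, 84, 85, 92, 93, 94, 95, 86, 86, 86, 87, 88, 89, 90, 91, 97, 96, 100, 101, 98, 102, 99, 108, 103, 104, 107, 105, 106, 109, 110, 116, 117, 118, 119, 126, 112, 115, 122, 125, 123, 124, 124, 124, 113, 114, 127, 111, 129, 130, 131, 128, 135, 136, 132, 133, 134, 137, 138, 139, 120, 121,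 141, 142, 143, 140, 145, 144, 145, 146, 148, 149, 150, 151, 147, 147, 153, 154, 152, 156, 156, 155, 157, 158, 159, 161, 166, 162, 167, 168, 163, 164, 172, 160, 173, 164, 165, 164, 174, 169, 170, 175, 176, 177, 177, 183, 178, 181, 182, 171, 180, 179, 186, 189, 190, 184, 185, 187, 188, 199, 191, 192, 207, 193, 208, 194, 195, 196, 197, 198, 198, 200, 205, 201, 201, 201, 202, 203, 204, 206, 209, 210, 211, 218, 212, 218, 213, 220, 214, 215, 215, 216, 217, 219, 221, 222, 221, 223, 227, 227, 224, 225, 230, 231, 226, 228, 229, 232, 233, 235, 241, 234, 243, 235, 235, 236, 237, 238, 239, 240, 242, 244, 247, 245, 246, 253, 254, 257, 248, 249, 250, 250, 251, 252, 256, 255, 261, 258, 260, 262, 264, 265, 259, 266,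 267, 263, 270, 268, 269, 281, 276, 277, 279, 280, 281, 281, 273, 271, 274, 272, 275, 278, 284, 282, 287, 288, 285, 289, 283, 290, 291, 291, 286, 292, 293, 294, 295, 296, 297, 298, 298, 299, 300, 301, 302, 304, 305, 306, 303, 307, 315, 310, 313, 315, 315, 316, 308, 309, 317, 318, 319, 311, 312, 314, 322, 323, 327, 324, 320, 325, 328, 321, 330, 329, 326, 331, 332, 339, 333, 334, 335, 336, 337, 338, 342, 343, 340, 341, 345, 346, 335, 347, 348, 349, 347, 356, 357, 344, 358, 359, 360, 361, 333, 334, 336, 350, 338, 342, 351, 352, 353, 355, 354, 343, 340, 341, 345, 346, 348, 362, 356, 357, 363, 364, 365, 367, 366, 359, 360, 361]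

def ct : List Tr := [
  .leaf 7,
  .leaf 6,
  .leaf 3,
  .leaf 8,
  .sy c22x (.leaf 4) (.leaf 34),
  .sy c22x (.leaf 0) (.leaf 28),
  .sy c22x (.leaf 1) (.leaf 29),
  .sy c22x (.leaf 27) (.leaf 30),
  .sy c22x (.leaf 2) (.leaf 31),
  .sy c22x (.leaf 5) (.leaf 33),
  .leaf 32,
  .leaf 9,
  .leaf 17,
  .leaf 21,
  .leaf 20,
  .leaf 22,
  .leaf 23,
  .leaf 10,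
  .leaf 24,
  .sy c22x (.leaf 11) (.leaf 35),
  .leaf 40,
  .sy c22x (.leaf 12) (.leaf 38),
  .sy c22x (.leaf 13) (.leaf 39),
  .leaf 41,
  .sy c22x (.leaf 15) (.leaf 43),
  .sy c22x (.leaf 14) (.leaf 42),
  .sy c22x (.leaf 36) (.leaf 44),
  .sy c22x (.leaf 16) (.leaf 45),
  .sy c22x (.leaf 18) (.leaf 48),
  .sy c22x (.leaf 19) (.leaf 47),
  .leaf 46,
  .sy c22x (.leaf 25) (.leaf 51),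
  .sy c22x (.leaf 37) (.leaf 52),
  .sy c22x (.leaf 26) (.leaf 53),
  .leaf 50,
  .leaf 49,
  .leaf 61,
  .leaf 56,
  .leaf 58,
  .leaf 62,
  .leaf 54,
  .leaf 55,
  .leaf 57,
  .leaf 59,
  .leaf 63,
  .leaf 64,
  .leaf 60,
  .leaf 65,
  .leaf 67,
  .leaf 70,
  .leaf 72,
  .sx c661x (.leaf 73) (.sx c662x (.leaf 77) (.leaf 79)),
  .leaf 74,
  .leaf 75,
  .leaf 76,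
  .leaf 66,
  .leaf 78,
  .leaf 68,
  .leaf 69,
  .leaf 71,
  .leaf 81,
  .leaf 82,
  .leaf 83,
  .leaf 84,
  .leaf 85,
  .leaf 88,
  .leaf 80,
  .leaf 92,
  .leaf 93,
  .leaf 86,
  .sx c86x (.leaf 90) (.leaf 91),
  .leaf 87,
  .leaf 89,
  .leaf 101,
  .leaf 94,
  .leaf 95,
  .leaf 99,
  .leaf 100,
  .leaf 102,
  .sx c139x (.leaf 104) (.leaf 105),
  .leaf 96,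
  .leaf 97,
  .leaf 98,
  .leaf 103,
  .leaf 106,
  .leaf 107,
  .sx c664x (.leaf 112) (.sx c665x (.leaf 113) (.leaf 114)),
  .leaf 115,
  .leaf 116,
  .leaf 117,
  .leaf 118,
  .leaf 119,
  .leaf 108,
  .leaf 109,
  .leaf 110,
  .leaf 111,
  .leaf 121,
  .leaf 120,
  .leaf 124,
  .leaf 126,
  .leaf 122,
  .leaf 123,
  .leaf 125,
  .leaf 128,
  .leaf 129,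
  .leaf 131,
  .leaf 132,
  .leaf 130,
  .leaf 127,
  .leaf 133,
  .leaf 134,
  .leaf 151,
  .leaf 140,
  .leaf 148,
  .leaf 149,
  .leaf 141,
  .leaf 135,
  .leaf 136,
  .leaf 137,
  .leaf 138,
  .leaf 164,
  .leaf 165,
  .leaf 142,
  .leaf 144,
  .sx c668x (.leaf 145) (.sx c670x (.leaf 146) (.leaf 147)),
  .leaf 143,
  .leaf 139,
  .leaf 150,
  .leaf 155,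
  .leaf 152,
  .leaf 153,
  .leaf 154,
  .leaf 158,
  .leaf 159,
  .leaf 160,
  .leaf 156,
  .leaf 157,
  .leaf 161,
  .leaf 162,
  .leaf 163,
  .leaf 169,
  .leaf 166,
  .leaf 167,
  .leaf 168,
  .leaf 171,
  .sx c140x (.leaf 170) (.leaf 172),
  .leaf 173,
  .sx c158x (.leaf 178) (.leaf 179),
  .leaf 174,
  .leaf 175,
  .leaf 176,
  .leaf 177,
  .leaf 182,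
  .leaf 180,
  .leaf 181,
  .leaf 185,
  .sx c153x (.leaf 183) (.leaf 184),
  .leaf 186,
  .leaf 187,
  .leaf 188,
  .leaf 197,
  .leaf 189,
  .leaf 191,
  .leaf 194,
  .sx c672x (.leaf 195) (.sx c675x (.leaf 199) (.leaf 201)),
  .leaf 200,
  .leaf 190,
  .leaf 192,
  .leaf 193,
  .leaf 203,
  .leaf 204,
  .leaf 213,
  .leaf 196,
  .leaf 198,
  .leaf 202,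
  .leaf 205,
  .leaf 206,
  .sx c674x (.leaf 207) (.leaf 208),
  .leaf 210,
  .leaf 215,
  .leaf 214,
  .leaf 211,
  .leaf 212,
  .leaf 209,
  .leaf 219,
  .leaf 220,
  .leaf 216,
  .leaf 221,
  .leaf 222,
  .leaf 217,
  .leaf 218,
  .leaf 224,
  .leaf 225,
  .leaf 227,
  .leaf 229,
  .leaf 230,
  .leaf 231,
  .leaf 232,
  .sx c679x (.leaf 233) (.leaf 234),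
  .leaf 223,
  .leaf 235,
  .sx c681x (.leaf 237) (.sx c682x (.leaf 238) (.leaf 239)),
  .leaf 240,
  .leaf 241,
  .leaf 242,
  .leaf 236,
  .leaf 243,
  .leaf 226,
  .leaf 228,
  .leaf 244,
  .leaf 245,
  .leaf 246,
  .leaf 248,
  .leaf 250,
  .leaf 252,
  .sx c683x (.leaf 253) (.leaf 254),
  .leaf 255,
  .leaf 256,
  .sx c254x (.leaf 247) (.leaf 249),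
  .leaf 257,
  .leaf 251,
  .sx c293x (.leaf 258) (.leaf 260),
  .leaf 259,
  .leaf 261,
  .leaf 264,
  .leaf 265,
  .leaf 268,
  .sx c685x (.leaf 262) (.leaf 263),
  .leaf 269,
  .leaf 270,
  .leaf 266,
  .leaf 267,
  .leaf 271,
  .leaf 272,
  .leaf 275,
  .sx c686x (.leaf 273) (.sx c687x (.leaf 277) (.leaf 278)),
  .leaf 279,
  .leaf 280,
  .leaf 281,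
  .leaf 282,
  .leaf 283,
  .leaf 274,
  .leaf 284,
  .leaf 276,
  .leaf 285,
  .leaf 287,
  .leaf 288,
  .leaf 286,
  .leaf 292,
  .leaf 293,
  .sx c690x (.leaf 294) (.leaf 295),
  .leaf 296,
  .leaf 297,
  .leaf 289,
  .leaf 290,
  .leaf 299,
  .leaf 298,
  .leaf 291,
  .leaf 301,
  .leaf 306,
  .leaf 302,
  .leaf 300,
  .leaf 303,
  .leaf 309,
  .leaf 304,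
  .leaf 305,
  .leaf 307,
  .leaf 308,
  .leaf 311,
  .leaf 312,
  .leaf 310,
  .leaf 321,
  .leaf 323,
  .leaf 320,
  .leaf 322,
  .leaf 324,
  .leaf 314,
  .leaf 315,
  .leaf 325,
  .leaf 316,
  .leaf 317,
  .sx c693x (.leaf 313) (.sx c694x (.leaf 318) (.leaf 319)),
  .leaf 327,
  .leaf 332,
  .leaf 326,
  .leaf 330,
  .leaf 336,
  .leaf 328,
  .leaf 329,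
  .leaf 331,
  .leaf 333,
  .sx c347x (.leaf 334) (.leaf 335),
  .leaf 337,
  .leaf 338,
  .leaf 339,
  .leaf 340,
  .leaf 341,
  .leaf 342,
  .sx c402x (.leaf 343) (.leaf 344),
  .leaf 345,
  .leaf 346,
  .leaf 347,
  .leaf 348,
  .leaf 352,
  .leaf 349,
  .leaf 350,
  .leaf 351,
  .leaf 353,
  .leaf 360,
  .leaf 361,
  .leaf 355,
  .leaf 365,
  .leaf 366,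
  .leaf 356,
  .leaf 367,
  .sx c697x (.leaf 354) (.sx c698x (.leaf 357) (.leaf 358)),
  .leaf 359,
  .leaf 362,
  .leaf 363,
  .leaf 364,
  .leaf 372,
  .leaf 375,
  .leaf 368,
  .leaf 369,
  .leaf 371,
  .leaf 373,
  .leaf 378,
  .leaf 370,
  .leaf 374,
  .leaf 377,
  .leaf 376,
  .leaf 379,
  .leaf 380,
  .sy c432x (.leaf 382) (.leaf 406),
  .sy c432x (.leaf 383) (.leaf 407),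
  .sy c432x (.leaf 384) (.leaf 394),
  .sy c432x (.leaf 385) (.leaf 408),
  .leaf 386,
  .sy c432x (.leaf 387) (.leaf 410),
  .leaf 381,
  .sy c432x (.leaf 390) (.leaf 418),
  .sy c432x (.leaf 391) (.leaf 419),
  .sy c432x (.leaf 388) (.leaf 411),
  .sy c432x (.leaf 389) (.leaf 417),
  .leaf 401,
  .sy c432x (.leaf 392) (.leaf 420),
  .sy c432x (.leaf 393) (.leaf 421),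
  .sy c432x (.leaf 395) (.leaf 398),
  .sy c432x (.leaf 396) (.leaf 422),
  .leaf 397,
  .leaf 409,
  .leaf 412,
  .leaf 413,
  .leaf 414,
  .leaf 416,
  .leaf 415,
  .sy c432x (.leaf 399) (.leaf 424),
  .sy c432x (.leaf 400) (.leaf 425),
  .leaf 402,
  .sy c432x (.leaf 403) (.leaf 431),
  .sy c432x (.leaf 404) (.leaf 432),
  .sy c432x (.leaf 405) (.leaf 433),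
  .leaf 423,
  .leaf 426,
  .leaf 427,
  .leaf 428,
  .leaf 430,
  .leaf 429]

def t0x : Tr :=
  .sx c20x (.sy c710x (.sy c711x (.sx c527x (.sx c529x (.leaf 31) (.leaf 30)) (.sx c712x (.leaf 29) (.leaf 28))) (.sy c713x (.sx c527x (.sx c529x (.sy c60x (.leaf 57) (.leaf 84)) (.sy c714x (.leaf 56) (.leaf 83))) (.sx c712x (.sy c715x (.leaf 55) (.leaf 82)) (.sy c58x (.leaf 54) (.leaf 81)))) (.sy c716x (.leaf 112) (.sy c717x (.leaf 145) (.leaf 195))))) (.sy c718x (.sx c527x (.sy c719x (.sx c529x (.sy c234x (.leaf 224) (.leaf 247)) (.sy c554x (.leaf 219) (.sx c528x (.sy c234x (.sx c19x (.sy c558x (.leaf 240) (.leaf 225)) (.sy c233x (.leaf 241) (.leaf 226))) (.leaf 247)) (.leaf 246)))) (.leaf 273)) (.sy c719x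 (.sx c712x (.sy c624x (.leaf 218) (.leaf 245)) (.sy c720x (.leaf 217) (.leaf 244))) (.leaf 273))) (.sy c721x (.sx c527x (.sx c529x (.sy c331x (.leaf 306) (.leaf 330)) (.sy c722x (.leaf 301) (.leaf 326))) (.sx c712x (.sy c723x (.leaf 305) (.leaf 329)) (.sy c326x (.leaf 304) (.leaf 328)))) (.sy c724x (.leaf 354) (.sx c527x (.sx c529x (.leaf 385) (.leaf 384)) (.sx c712x (.leaf 383) (.leaf 382))))))) (.sy c725x (.sy c726x (.sy c727x (.sy c728x (.sx c729x (.sx c730x (.leaf 53) (.leaf 52)) (.leaf 51)) (.leaf 79)) (.sx c729x (.sx c730x (.sy c731x (.leaf 107) (.leaf 127)) (.sy c633x (.leaf 106) (.leaf 130))) (.sy c589x (.leaf 105) (.leaf 126)))) (.sy c732x (.sx c729x (.sx c730x (.sy c161x (.leaf 154) (.leaf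 167)) (.sy c154x (.leaf 153) (.leaf 166))) (.sy c595x (.leaf 152) (.leaf 172))) (.sx c729x (.sx c730x (.sy c189x (.leaf 186) (.leaf 209)) (.sy c733x (.leaf 187) (.leaf 212))) (.sy c734x (.leaf 184) (.leaf 208))))) (.sy c735x (.sy c736x (.leaf 239) (.sy c737x (.sx c729x (.sx c730x (.sy c277x (.leaf 270) (.leaf 297)) (.sy c738x (.leaf 269) (.leaf 296))) (.sy c739x (.leaf 263) (.leaf 295))) (.leaf 319))) (.sx c729x (.sx c730x (.sy c740x (.leaf 351) (.sy c741x (.leaf 378) (.leaf 405))) (.sy c648x (.leaf 350) (.sy c741x (.leaf 377) (.leaf 404)))) (.sy c613x (.leaf 344) (.sy c741x (.leaf 375) (.leaf 403))))))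

def t1x : Tr :=
  .sx c530x (.sy c710x (.sx c742x (.sy c711x (.sx c529x (.leaf 35) (.sx c743x (.leaf 38) (.leaf 39))) (.sy c713x (.sx c529x (.sy c540x (.leaf 65) (.leaf 91)) (.sx c743x (.sy c60x (.leaf 63) (.leaf 92)) (.sy c58x (.leaf 64) (.leaf 93)))) (.sy c716x (.leaf 114) (.sy c717x (.leaf 147) (.leaf 201))))) (.sy c726x (.sy c727x (.sy c728x (.leaf 42) (.leaf 73)) (.sy c731x (.leaf 94) (.leaf 122))) (.sy c732x (.sy c161x (.leaf 138) (.leaf 162)) (.sy c189x (.leaf 175) (.leaf 203))))) (.sx c742x (.sy c718x (.sy c719x (.sx c529x (.sy c561x (.leaf 234) (.leaf 254)) (.sx c743x (.sy c558x (.leaf 231) (.leaf 255)) (.sy c720x (.leaf 232) (.leaf 256)))) (.leaf 278)) (.sy c721x (.sx c529x (.sy c573x (.leaf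 308) (.leaf 335)) (.sx c743x (.sy c331x (.leaf 309) (.leaf 336)) (.sy c326x (.leaf 310) (.leaf 337)))) (.sy c724x (.leaf 358) (.sx c529x (.leaf 389) (.sx c743x (.leaf 390) (.leaf 391)))))) (.sy c737x (.sy c736x (.sy c725x (.leaf 203) (.leaf 237)) (.sy c277x (.leaf 264) (.leaf 287))) (.sy c740x (.sy c735x (.leaf 313) (.leaf 345)) (.sy c741x (.leaf 368) (.leaf 392)))))) (.sy c725x (.sy c726x (.sy c727x (.sy c728x (.sx c534x (.leaf 43) (.sx c729x (.leaf 44) (.leaf 45))) (.leaf 73)) (.sx c534x (.sy c584x (.leaf 95) (.leaf 123)) (.sx c729x (.sy c548x (.leaf 96) (.leaf 128)) (.sy c633x (.leaf 97) (.leaf 129))))) (.sy c732x (.sx c534x (.sy c744x (.leaf 139) (.leaf 163)) (.sx c729x (.sy c745x (.leaf 140) (.leaf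 164)) (.sy c154x (.leaf 148) (.leaf 165)))) (.sx c534x (.sy c184x (.leaf 176) (.leaf 204)) (.sx c746x (.sy c551x (.leaf 177) (.leaf 213)) (.sy c747x (.leaf 178) (.sx c729x (.sy c551x (.sx c748x (.sy c749x (.leaf 188) (.leaf 189)) (.sy c733x (.leaf 200) (.leaf 190))) (.leaf 213)) (.leaf 202))))))) (.sy c737x (.sy c736x (.leaf 237) (.sx c534x (.sy c272x (.leaf 265) (.leaf 288)) (.sx c746x (.sy c565x (.leaf 266) (.leaf 289)) (.sy c750x (.leaf 258) (.sx c729x (.sy c565x (.sx c748x (.sy c751x (.leaf 279) (.leaf 272)) (.sy c738x (.leaf 280) (.leaf 274))) (.leaf 289)) (.leaf 286)))))) (.sy c741x (.sy c735x (.leaf 313) (.sx c534x (.sy c609x (.leaf 346) (.leaf 369)) (.sx c729x (.sy c578x (.leaf 347) (.leaf 370))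 (.sy c648x (.leaf 348) (.leaf 371))))) (.sx c534x (.leaf 393) (.sx c729x (.leaf 395) (.leaf 396))))))

def t2x : Tr :=
  .sy c710x (.sy c711x (.sx c752x (.sx c528x (.leaf 32) (.sx c37x (.leaf 33) (.leaf 34))) (.sy c21x (.leaf 10) (.sx c753x (.sy c649x (.leaf 9) (.leaf 41)) (.leaf 40)))) (.sx c753x (.sy c713x (.sx c37x (.sx c528x (.sy c754x (.leaf 58) (.sx c649x (.leaf 85) (.sy c536x (.leaf 74) (.sy c539x (.leaf 67) (.leaf 86))))) (.sy c539x (.leaf 59) (.leaf 86))) (.sy c76x (.sx c752x (.leaf 60) (.sy c755x (.leaf 61) (.sy c536x (.leaf 75) (.leaf 68)))) (.leaf 87))) (.sy c716x (.leaf 113) (.sy c717x (.leaf 146) (.leaf 199)))) (.sy c713x (.sx c756x (.sy c536x (.sy c757x (.leaf 62) (.leaf 76)) (.sx c652x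 (.sy c623x (.leaf 69) (.leaf 89)) (.sy c537x (.leaf 70) (.leaf 88)))) (.sy c757x (.leaf 62) (.sx c758x (.leaf 80) (.sy c540x (.sx c759x (.sy c715x (.leaf 78) (.leaf 71)) (.sy c754x (.leaf 66) (.leaf 72))) (.leaf 90))))) (.sy c716x (.leaf 113) (.sy c717x (.leaf 146) (.leaf 199)))))) (.sy c718x (.sx c760x (.sx c649x (.sy c555x (.sx c21x (.sy c229x (.leaf 220) (.leaf 242)) (.sy c761x (.leaf 216) (.leaf 235))) (.sy c234x (.leaf 227) (.sy c719x (.leaf 249) (.leaf 277)))) (.sy c762x (.leaf 221) (.sy c719x (.sx c528x (.sy c555x (.leaf 236) (.sy c763x (.leaf 228) (.leaf 257))) (.leaf 248)) (.leaf 277)))) (.sx c756x (.sy c719x (.sx c753x (.sy c764x (.leaf 222) (.sx c752x (.leaf 250) (.sy c555x (.leaf 243) (.sy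 c233x (.leaf 229) (.leaf 251))))) (.sy c233x (.leaf 223) (.leaf 251))) (.leaf 277)) (.sy c719x (.sx c758x (.sy c624x (.leaf 230) (.leaf 252)) (.sy c561x (.leaf 233) (.leaf 253))) (.leaf 277)))) (.sx c753x (.sy c721x (.sx c37x (.sx c528x (.sy c765x (.leaf 302) (.sx c649x (.leaf 327) (.sy c567x (.leaf 320) (.sy c570x (.leaf 314) (.leaf 331))))) (.sy c570x (.leaf 307) (.leaf 331))) (.sy c356x (.sx c752x (.leaf 311) (.sy c766x (.leaf 300) (.sy c567x (.leaf 321) (.leaf 315)))) (.leaf 338))) (.sy c724x (.leaf 357) (.sx c752x (.sx c528x (.leaf 386) (.sx c37x (.leaf 387) (.leaf 388))) (.sy c767x (.leaf 380) (.sy c768x (.leaf 415) (.leaf 416)))))) (.sy c721x (.sx c756x (.sy c567x (.sy c769x (.leaf 303) (.leaf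 322)) (.sx c652x (.sy c631x (.leaf 325) (.leaf 339)) (.sy c568x (.leaf 316) (.leaf 333)))) (.sy c769x (.leaf 303) (.sx c758x (.leaf 332) (.sy c573x (.sx c759x (.sy c723x (.leaf 324) (.leaf 317)) (.sy c765x (.leaf 323) (.leaf 312))) (.leaf 334))))) (.sy c724x (.leaf 357) (.sy c768x (.leaf 381) (.leaf 416))))))

def t3x : Tr :=
  .sy c732x (.sy c726x (.sx c37x (.sy c727x (.sy c21x (.leaf 24) (.sy c728x (.leaf 50) (.leaf 77))) (.sx c528x (.sy c119x (.sx c649x (.sy c589x (.leaf 104) (.sx c21x (.sy c104x (.leaf 120) (.leaf 121)) (.sy c584x (.leaf 119) (.leaf 111)))) (.leaf 103)) (.leaf 132)) (.sy c588x (.sx c22x (.sy c110x (.leaf 102) (.leaf 118)) (.sy c770x (.leaf 101) (.leaf 117))) (.sy c119x (.leaf 110)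 (.leaf 132))))) (.sy c727x (.sy c728x (.sx c533x (.sy c21x (.leaf 24) (.sy c649x (.leaf 23) (.leaf 49))) (.sx c756x (.sx c753x (.leaf 48) (.leaf 47)) (.leaf 46))) (.leaf 77)) (.sx c753x (.sy c771x (.leaf 100) (.sx c533x (.sy c588x (.leaf 116) (.sy c772x (.leaf 109) (.leaf 133))) (.leaf 124))) (.sx c758x (.sy c773x (.leaf 99) (.sx c756x (.leaf 125) (.sy c588x (.leaf 115) (.sy c104x (.leaf 108) (.leaf 131))))) (.sy c104x (.leaf 98) (.leaf 131)))))) (.sx c37x (.sx c528x (.sy c774x (.leaf 151) (.sx c649x (.sy c595x (.sx c21x (.sy c775x (.leaf 137) (.leaf 157)) (.sy c744x (.leaf 144) (.leaf 161))) (.leaf 170)) (.leaf 143))) (.sy c594x (.sy c774x (.leaf 151) (.leaf 136)) (.sx c22x (.sy c596x (.leaf 156) (.leaf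 169)) (.sy c592x (.leaf 160) (.leaf 173))))) (.sx c753x (.sy c180x (.sx c533x (.sy c776x (.leaf 134) (.sy c594x (.leaf 135) (.leaf 159))) (.leaf 155)) (.leaf 171)) (.sx c756x (.sy c550x (.leaf 150) (.leaf 168)) (.sy c775x (.leaf 149) (.sx c758x (.sy c594x (.leaf 141) (.sy c550x (.leaf 158) (.leaf 168))) (.leaf 142))))))) (.sy c737x (.sy c725x (.sx c777x (.sx c528x (.sx c649x (.sy c734x (.leaf 183) (.leaf 207)) (.sy c184x (.leaf 185) (.leaf 206))) (.sx c533x (.sy c749x (.leaf 182) (.sx c37x (.leaf 205) (.sy c602x (.leaf 198) (.sy c601x (.leaf 194) (.leaf 211))))) (.sy c601x (.leaf 180) (.leaf 211)))) (.sx c758x (.sy c202x (.sx c756x (.leaf 181) (.sy c778x (.leaf 174) (.sy c602x (.leaf 197) (.leaf 193))))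 (.leaf 214)) (.sy c602x (.sy c747x (.leaf 179) (.leaf 196)) (.sx c759x (.sy c634x (.leaf 192) (.leaf 215)) (.sy c603x (.leaf 191) (.leaf 210)))))) (.sx c777x (.sx c528x (.sy c736x (.leaf 238) (.sx c649x (.sy c739x (.leaf 262) (.leaf 294)) (.sy c272x (.leaf 268) (.leaf 293)))) (.sy c736x (.leaf 238) (.sx c533x (.sy c751x (.leaf 261) (.sx c37x (.leaf 292) (.sy c606x (.leaf 283) (.sy c605x (.leaf 276) (.leaf 291))))) (.sy c605x (.leaf 267) (.leaf 291))))) (.sx c758x (.sy c736x (.leaf 238) (.sy c296x (.sx c756x (.leaf 271) (.sy c779x (.leaf 259) (.sy c606x (.leaf 282) (.leaf 284)))) (.leaf 298))) (.sy c606x (.sy c736x (.leaf 238) (.sy c750x (.leaf 260) (.leaf 281))) (.sx c759x (.sy c641x (.leaf 285) (.leaf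 299)) (.sy c607x (.leaf 275) (.leaf 290))))))) (.sx c37x (.sy c387x (.sx c649x (.sy c613x (.sy c735x (.leaf 318) (.leaf 343)) (.sx c21x (.sy c381x (.leaf 364) (.leaf 367)) (.sy c609x (.leaf 363) (.leaf 356)))) (.sy c735x (.leaf 318) (.sx c528x (.leaf 353) (.sy c612x (.sx c22x (.sy c376x (.leaf 349) (.leaf 362)) (.sy c780x (.leaf 340) (.leaf 361))) (.leaf 366))))) (.sy c741x (.leaf 376) (.sy c768x (.leaf 402) (.leaf 430)))) (.sy c741x (.sx c753x (.sy c781x (.sy c735x (.leaf 318) (.leaf 342)) (.sx c533x (.sy c612x (.leaf 360) (.sy c782x (.leaf 365) (.leaf 379))) (.leaf 372))) (.sy c735x (.leaf 318) (.sx c758x (.sy c783x (.leaf 341) (.sx c756x (.leaf 373) (.sy c612x (.leaf 359) (.sy c381x (.leaf 355) (.leaf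 374))))) (.sy c381x (.leaf 352) (.leaf 374))))) (.sx c533x (.sy c767x (.leaf 401) (.sy c768x (.leaf 429) (.leaf 430))) (.sx c756x (.sx c753x (.leaf 400) (.leaf 399)) (.leaf 397))))))

def t4x : Tr :=
  .sx c37x (.sy c712x (.sy c527x (.sx c528x (.sy c529x (.leaf 2) (.sx c649x (.leaf 27) (.leaf 3))) (.leaf 5)) (.leaf 1)) (.sy c729x (.sx c22x (.sy c730x (.sy c20x (.leaf 0) (.leaf 26)) (.sx c528x (.leaf 37) (.leaf 22))) (.leaf 20)) (.leaf 25))) (.sx c753x (.sy c784x (.sx c752x (.leaf 4) (.sy c529x (.leaf 11) (.leaf 7))) (.sx c533x (.sy c729x (.leaf 21) (.leaf 25)) (.leaf 18))) (.sy c530x (.sy c529x (.leaf 11) (.sx c652x (.leaf 6) (.sy c743x (.sx c756x (.leaf 8) (.leaf 12)) (.sy c742x (.leaf 13) (.leaf 14)))))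 (.sy c534x (.leaf 15) (.sx c756x (.leaf 19) (.sy c729x (.sx c758x (.leaf 17) (.leaf 36)) (.leaf 16))))))

def t5x : Tr :=
  .sx c37x (.sy c712x (.sy c527x (.sx c528x (.sy c529x (.leaf 408) (.sx c649x (.leaf 394) (.leaf 409))) (.leaf 410)) (.leaf 407)) (.sy c729x (.sx c22x (.sy c730x (.sy c20x (.leaf 406) (.leaf 433)) (.sx c528x (.leaf 432) (.leaf 428))) (.leaf 427)) (.leaf 431))) (.sx c753x (.sy c784x (.sx c752x (.leaf 411) (.sy c529x (.leaf 417) (.leaf 412))) (.sx c533x (.sy c729x (.leaf 426) (.leaf 431)) (.leaf 425))) (.sy c530x (.sy c529x (.leaf 417) (.sx c652x (.leaf 413) (.sy c743x (.sx c756x (.leaf 414) (.leaf 418)) (.sy c742x (.leaf 419) (.leaf 420))))) (.sy c534x (.leaf 421) (.sx c756x (.leaf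 424) (.sy c729x (.sx c758x (.leaf 423) (.leaf 398)) (.leaf 422))))))

def bx : BoxData := ⟨c657x, c655x, c704x, own, ps, ct, t0x, t1x, t2x, t3x, t4x, t5x⟩

end Pool.Agent.Box4.BB
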