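import Pool.Agent.Box4.Num
set_option linter.all false
set_option autoImplicit false

namespace Pool.Agent.Box4.BC

open Pool.Agent.Box3

def ps : List PB := [
  ⟨⟨⟨c7x, c8x, c9x, c4x⟩, ⟨.ofNat 0, .ofNat 0, c14x⟩, ⟨.ofNat 0, .negSucc 0, c4x⟩, ⟨.negSucc 0, .ofNat 0, c8x⟩⟩, [9, 10, 11, 12]⟩,
  ⟨⟨⟨c12x, c1x, c3x, c4x⟩, ⟨.ofNat 1, .ofNat 0, c467x⟩, ⟨.ofNat 0, .negSucc 0, c4x⟩, ⟨.ofNat 0, .ofNat 0, c14x⟩⟩, [12, 13, 14, 20, 21]⟩,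
  ⟨⟨⟨c8x, c12x, c9x, c4x⟩, ⟨.ofNat 1, .ofNat 0, c467x⟩, ⟨.ofNat 0, .negSucc 0, c4x⟩, ⟨.ofNat 0, .ofNat 0, c14x⟩⟩, [9, 10, 12, 13]⟩,
  ⟨⟨⟨c1x, c2x, c3x, c4x⟩, ⟨.ofNat 0, .ofNat 0, c468x⟩, ⟨.ofNat 0, .negSucc 0, c4x⟩, ⟨.ofNat 1, .ofNat 0, c469x⟩⟩, [14, 15, 20, 21]⟩,
  ⟨⟨⟨c2x, c5x, c6x, c4x⟩, ⟨.ofNat 0, .ofNat 0, c468x⟩, ⟨.ofNat 0, .negSucc 0, c4x⟩, ⟨.ofNat 1, .ofNat 0, c469x⟩⟩, [14, 15, 16, 17, 18, 20]⟩,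
  ⟨⟨⟨c5x, c10x, c11x, c4x⟩, ⟨.ofNat 0, .ofNat 0, c468x⟩, ⟨.ofNat 0, .negSucc 0, c4x⟩, ⟨.ofNat 1, .ofNat 0, c469x⟩⟩, [17, 18, 19, 20]⟩,
  ⟨⟨⟨c23x, c24x, c25x, c470x⟩, ⟨.ofNat 0, .ofNat 0, c14x⟩, ⟨.ofNat 1, .ofNat 0, c469x⟩, ⟨.ofNat 0, .negSucc 0, c470x⟩⟩, [29, 30]⟩,
  ⟨⟨⟨c24x, c34x, c25x, c470x⟩, ⟨.ofNat 0, .ofNat 0, c14x⟩, ⟨.ofNat 1, .ofNat 0, c469x⟩, ⟨.ofNat 0, .negSucc 0, c470x⟩⟩, [30]⟩,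
  ⟨⟨⟨c34x, c36x, c25x, c470x⟩, ⟨.ofNat 0, .ofNat 0, c14x⟩, ⟨.ofNat 1, .ofNat 0, c469x⟩, ⟨.ofNat 0, .negSucc 0, c470x⟩⟩, [30, 31]⟩,
  ⟨⟨⟨c23x, c24x, c470x, c17x⟩, ⟨.ofNat 0, .ofNat 1, c4x⟩, ⟨.ofNat 1, .ofNat 0, c469x⟩, ⟨.ofNat 0, .ofNat 0, c14x⟩⟩, [27, 28, 29]⟩,
  ⟨⟨⟨c24x, c34x, c470x, c4x⟩, ⟨.ofNat 0, .ofNat 1, c4x⟩, ⟨.ofNat 1, .ofNat 0, c469x⟩, ⟨.ofNat 0, .ofNat 0, c14x⟩⟩, [27, 28]⟩,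
  ⟨⟨⟨c34x, c36x, c470x, c4x⟩, ⟨.ofNat 0, .ofNat 1, c4x⟩, ⟨.ofNat 1, .ofNat 0, c469x⟩, ⟨.ofNat 0, .ofNat 0, c14x⟩⟩, [31, 32]⟩,
  ⟨⟨⟨c26x, c27x, c9x, c470x⟩, ⟨.ofNat 0, .ofNat 0, c14x⟩, ⟨.ofNat 1, .ofNat 0, c469x⟩, ⟨.ofNat 0, .negSucc 0, c470x⟩⟩, [45, 46]⟩,
  ⟨⟨⟨c26x, c27x, c470x, c4x⟩, ⟨.ofNat 0, .ofNat 1, c4x⟩, ⟨.ofNat 1, .ofNat 0, c469x⟩, ⟨.ofNat 0, .ofNat 0, c14x⟩⟩, [43, 44, 45]⟩,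
  ⟨⟨⟨c27x, c46x, c9x, c470x⟩, ⟨.ofNat 0, .ofNat 0, c14x⟩, ⟨.ofNat 1, .ofNat 0, c469x⟩, ⟨.ofNat 0, .negSucc 0, c470x⟩⟩, [46, 47]⟩,
  ⟨⟨⟨c46x, c28x, c3x, c470x⟩, ⟨.ofNat 0, .ofNat 0, c14x⟩, ⟨.ofNat 1, .ofNat 0, c469x⟩, ⟨.ofNat 0, .negSucc 0, c470x⟩⟩, [46, 47, 48]⟩,
  ⟨⟨⟨c27x, c46x, c470x, c4x⟩, ⟨.ofNat 0, .ofNat 1, c4x⟩, ⟨.ofNat 1, .ofNat 0, c469x⟩, ⟨.ofNat 0, .ofNat 0, c14x⟩⟩, [43, 44]⟩,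
  ⟨⟨⟨c46x, c28x, c470x, c4x⟩, ⟨.ofNat 0, .ofNat 1, c4x⟩, ⟨.ofNat 1, .ofNat 0, c469x⟩, ⟨.ofNat 0, .ofNat 0, c14x⟩⟩, [54, 55]⟩,
  ⟨⟨⟨c28x, c29x, c3x, c470x⟩, ⟨.ofNat 0, .ofNat 0, c14x⟩, ⟨.ofNat 1, .ofNat 0, c469x⟩, ⟨.ofNat 0, .negSucc 0, c470x⟩⟩, [48, 49]⟩,
  ⟨⟨⟨c29x, c30x, c6x, c470x⟩, ⟨.ofNat 0, .ofNat 0, c14x⟩, ⟨.ofNat 1, .ofNat 0, c469x⟩, ⟨.ofNat 0, .negSucc 0, c470x⟩⟩, [48, 49, 50, 51, 52]⟩,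
  ⟨⟨⟨c28x, c29x, c470x, c4x⟩, ⟨.ofNat 0, .ofNat 1, c4x⟩, ⟨.ofNat 1, .ofNat 0, c469x⟩, ⟨.ofNat 0, .ofNat 0, c14x⟩⟩, [54, 55]⟩,
  ⟨⟨⟨c29x, c30x, c470x, c4x⟩, ⟨.ofNat 0, .ofNat 1, c4x⟩, ⟨.ofNat 1, .ofNat 0, c469x⟩, ⟨.ofNat 0, .ofNat 0, c14x⟩⟩, [54]⟩,
  ⟨⟨⟨c30x, c31x, c11x, c470x⟩, ⟨.ofNat 0, .ofNat 0, c14x⟩, ⟨.ofNat 1, .ofNat 0, c469x⟩, ⟨.ofNat 0, .negSucc 0, c470x⟩⟩, [51, 52, 53]⟩,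
  ⟨⟨⟨c30x, c31x, c470x, c4x⟩, ⟨.ofNat 0, .ofNat 1, c4x⟩, ⟨.ofNat 1, .ofNat 0, c469x⟩, ⟨.ofNat 0, .ofNat 0, c14x⟩⟩, [53, 54]⟩,
  ⟨⟨⟨c32x, c33x, c25x, c470x⟩, ⟨.ofNat 0, .ofNat 0, c14x⟩, ⟨.ofNat 1, .ofNat 0, c469x⟩, ⟨.ofNat 0, .negSucc 0, c470x⟩⟩, [63, 64]⟩,
  ⟨⟨⟨c32x, c33x, c470x, c17x⟩, ⟨.ofNat 0, .ofNat 1, c4x⟩, ⟨.ofNat 1, .ofNat 0, c469x⟩, ⟨.ofNat 0, .ofNat 0, c14x⟩⟩, [61, 62, 63]⟩,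
  ⟨⟨⟨c33x, c35x, c25x, c470x⟩, ⟨.ofNat 0, .ofNat 0, c14x⟩, ⟨.ofNat 1, .ofNat 0, c469x⟩, ⟨.ofNat 0, .negSucc 0, c470x⟩⟩, [64]⟩,
  ⟨⟨⟨c35x, c47x, c25x, c470x⟩, ⟨.ofNat 0, .ofNat 0, c14x⟩, ⟨.ofNat 1, .ofNat 0, c469x⟩, ⟨.ofNat 0, .negSucc 0, c470x⟩⟩, [64, 65]⟩,
  ⟨⟨⟨c33x, c35x, c470x, c4x⟩, ⟨.ofNat 0, .ofNat 1, c4x⟩, ⟨.ofNat 1, .ofNat 0, c469x⟩, ⟨.ofNat 0, .ofNat 0, c14x⟩⟩, [61, 62]⟩,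
  ⟨⟨⟨c35x, c47x, c470x, c4x⟩, ⟨.ofNat 0, .ofNat 1, c4x⟩, ⟨.ofNat 1, .ofNat 0, c469x⟩, ⟨.ofNat 0, .ofNat 0, c14x⟩⟩, [65, 66]⟩,
  ⟨⟨⟨c14x, c15x, c14x, c4x⟩, ⟨.ofNat 0, .negSucc 0, c4x⟩, ⟨.negSucc 0, .ofNat 0, c8x⟩, ⟨.ofNat 0, .ofNat 0, c14x⟩⟩, [0, 1, 787]⟩,
  ⟨⟨⟨c15x, c16x, c17x, c4x⟩, ⟨.ofNat 0, .negSucc 0, c4x⟩, ⟨.negSucc 0, .ofNat 0, c8x⟩, ⟨.ofNat 0, .ofNat 0, c14x⟩⟩, [0, 1, 2, 3]⟩,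
  ⟨⟨⟨c18x, c20x, c21x, c4x⟩, ⟨.ofNat 0, .negSucc 0, c4x⟩, ⟨.negSucc 0, .ofNat 0, c8x⟩, ⟨.ofNat 0, .ofNat 0, c14x⟩⟩, [5, 6, 7]⟩,
  ⟨⟨⟨c24x, c34x, c4x, c22x⟩, ⟨.ofNat 0, .ofNat 0, c468x⟩, ⟨.ofNat 1, .ofNat 0, c469x⟩, ⟨.ofNat 0, .ofNat 1, c470x⟩⟩, [25, 26, 27]⟩,
  ⟨⟨⟨c14x, c15x, c4x, c13x⟩, ⟨.ofNat 0, .ofNat 0, c14x⟩, ⟨.negSucc 0, .ofNat 0, c8x⟩, ⟨.ofNat 0, .ofNat 1, c470x⟩⟩, [786, 787]⟩,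
  ⟨⟨⟨c15x, c16x, c4x, c13x⟩, ⟨.ofNat 0, .ofNat 0, c14x⟩, ⟨.negSucc 0, .ofNat 0, c8x⟩, ⟨.ofNat 0, .ofNat 1, c470x⟩⟩, [3, 4, 786]⟩,
  ⟨⟨⟨c18x, c20x, c4x, c13x⟩, ⟨.ofNat 0, .ofNat 0, c14x⟩, ⟨.negSucc 0, .ofNat 0, c8x⟩, ⟨.ofNat 0, .ofNat 1, c470x⟩⟩, [4, 5, 7, 8, 786]⟩,
  ⟨⟨⟨c36x, c38x, c21x, c4x⟩, ⟨.ofNat 0, .ofNat 1, c4x⟩, ⟨.ofNat 1, .ofNat 0, c469x⟩, ⟨.ofNat 0, .ofNat 0, c14x⟩⟩, [31, 32, 33]⟩,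
  ⟨⟨⟨c38x, c39x, c14x, c4x⟩, ⟨.ofNat 0, .ofNat 1, c4x⟩, ⟨.ofNat 1, .ofNat 0, c469x⟩, ⟨.ofNat 0, .ofNat 0, c14x⟩⟩, [32, 33, 34]⟩,
  ⟨⟨⟨c39x, c41x, c14x, c4x⟩, ⟨.ofNat 0, .ofNat 1, c4x⟩, ⟨.ofNat 1, .ofNat 0, c469x⟩, ⟨.ofNat 0, .ofNat 0, c14x⟩⟩, [34, 35]⟩,
  ⟨⟨⟨c41x, c42x, c17x, c4x⟩, ⟨.ofNat 0, .ofNat 1, c4x⟩, ⟨.ofNat 1, .ofNat 0, c469x⟩, ⟨.ofNat 0, .ofNat 0, c14x⟩⟩, [34, 35, 36, 37]⟩,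
  ⟨⟨⟨c44x, c45x, c21x, c4x⟩, ⟨.ofNat 0, .ofNat 1, c4x⟩, ⟨.ofNat 1, .ofNat 0, c469x⟩, ⟨.ofNat 0, .ofNat 0, c14x⟩⟩, [39, 40, 41]⟩,
  ⟨⟨⟨c33x, c35x, c4x, c22x⟩, ⟨.ofNat 0, .ofNat 0, c468x⟩, ⟨.ofNat 1, .ofNat 0, c469x⟩, ⟨.ofNat 0, .ofNat 1, c470x⟩⟩, [59, 60, 61]⟩,
  ⟨⟨⟨c47x, c48x, c21x, c4x⟩, ⟨.ofNat 0, .ofNat 1, c4x⟩, ⟨.ofNat 1, .ofNat 0, c469x⟩, ⟨.ofNat 0, .ofNat 0, c14x⟩⟩, [65, 66, 67]⟩,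
  ⟨⟨⟨c48x, c49x, c14x, c4x⟩, ⟨.ofNat 0, .ofNat 1, c4x⟩, ⟨.ofNat 1, .ofNat 0, c469x⟩, ⟨.ofNat 0, .ofNat 0, c14x⟩⟩, [66, 67, 68, 69]⟩,
  ⟨⟨⟨c16x, c18x, c19x, c13x⟩, ⟨.ofNat 0, .ofNat 0, c14x⟩, ⟨.negSucc 0, .ofNat 0, c8x⟩, ⟨.ofNat 0, .ofNat 1, c470x⟩⟩, [3, 4, 5, 786]⟩,
  ⟨⟨⟨c20x, c8x, c22x, c13x⟩, ⟨.ofNat 0, .ofNat 0, c14x⟩, ⟨.negSucc 0, .ofNat 0, c8x⟩, ⟨.ofNat 0, .ofNat 1, c470x⟩⟩, [7, 8, 9, 786]⟩,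
  ⟨⟨⟨c8x, c12x, c4x, c13x⟩, ⟨.ofNat 1, .ofNat 0, c467x⟩, ⟨.ofNat 0, .ofNat 0, c14x⟩, ⟨.ofNat 0, .ofNat 1, c470x⟩⟩, [8, 9, 10, 786]⟩,
  ⟨⟨⟨c12x, c1x, c4x, c13x⟩, ⟨.ofNat 1, .ofNat 0, c467x⟩, ⟨.ofNat 0, .ofNat 0, c14x⟩, ⟨.ofNat 0, .ofNat 1, c470x⟩⟩, [20, 21, 22, 786]⟩,
  ⟨⟨⟨c1x, c2x, c40x, c13x⟩, ⟨.ofNat 0, .ofNat 0, c468x⟩, ⟨.ofNat 1, .ofNat 0, c469x⟩, ⟨.ofNat 0, .ofNat 1, c470x⟩⟩, [21, 22, 23, 786]⟩,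
  ⟨⟨⟨c2x, c34x, c37x, c13x⟩, ⟨.ofNat 0, .ofNat 0, c468x⟩, ⟨.ofNat 1, .ofNat 0, c469x⟩, ⟨.ofNat 0, .ofNat 1, c470x⟩⟩, [22, 23, 24, 25, 786]⟩,
  ⟨⟨⟨c34x, c36x, c4x, c13x⟩, ⟨.ofNat 0, .ofNat 0, c468x⟩, ⟨.ofNat 1, .ofNat 0, c469x⟩, ⟨.ofNat 0, .ofNat 1, c470x⟩⟩, [24, 25, 26, 786]⟩,
  ⟨⟨⟨c36x, c38x, c4x, c13x⟩, ⟨.ofNat 0, .ofNat 0, c468x⟩, ⟨.ofNat 1, .ofNat 0, c469x⟩, ⟨.ofNat 0, .ofNat 1, c470x⟩⟩, [786]⟩,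
  ⟨⟨⟨c38x, c39x, c4x, c13x⟩, ⟨.ofNat 0, .ofNat 0, c468x⟩, ⟨.ofNat 1, .ofNat 0, c469x⟩, ⟨.ofNat 0, .ofNat 1, c470x⟩⟩, [785, 786]⟩,
  ⟨⟨⟨c39x, c41x, c4x, c43x⟩, ⟨.ofNat 0, .ofNat 0, c468x⟩, ⟨.ofNat 1, .ofNat 0, c469x⟩, ⟨.ofNat 0, .ofNat 1, c470x⟩⟩, [784, 785, 786]⟩,
  ⟨⟨⟨c41x, c42x, c4x, c43x⟩, ⟨.ofNat 0, .ofNat 0, c468x⟩, ⟨.ofNat 1, .ofNat 0, c469x⟩, ⟨.ofNat 0, .ofNat 1, c470x⟩⟩, [37, 38, 784]⟩,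
  ⟨⟨⟨c44x, c45x, c4x, c43x⟩, ⟨.ofNat 0, .ofNat 0, c468x⟩, ⟨.ofNat 1, .ofNat 0, c469x⟩, ⟨.ofNat 0, .ofNat 1, c470x⟩⟩, [38, 39, 41, 42, 784]⟩,
  ⟨⟨⟨c27x, c46x, c4x, c43x⟩, ⟨.ofNat 0, .ofNat 0, c468x⟩, ⟨.ofNat 1, .ofNat 0, c469x⟩, ⟨.ofNat 0, .ofNat 1, c470x⟩⟩, [42, 43, 44, 784]⟩,
  ⟨⟨⟨c46x, c28x, c4x, c43x⟩, ⟨.ofNat 0, .ofNat 0, c468x⟩, ⟨.ofNat 1, .ofNat 0, c469x⟩, ⟨.ofNat 0, .ofNat 1, c470x⟩⟩, [54, 55, 56, 784]⟩,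
  ⟨⟨⟨c35x, c47x, c4x, c43x⟩, ⟨.ofNat 0, .ofNat 0, c468x⟩, ⟨.ofNat 1, .ofNat 0, c469x⟩, ⟨.ofNat 0, .ofNat 1, c470x⟩⟩, [58, 59, 60, 784]⟩,
  ⟨⟨⟨c47x, c48x, c4x, c43x⟩, ⟨.ofNat 0, .ofNat 0, c468x⟩, ⟨.ofNat 1, .ofNat 0, c469x⟩, ⟨.ofNat 0, .ofNat 1, c470x⟩⟩, [784]⟩,
  ⟨⟨⟨c42x, c44x, c19x, c43x⟩, ⟨.ofNat 0, .ofNat 0, c468x⟩, ⟨.ofNat 1, .ofNat 0, c469x⟩, ⟨.ofNat 0, .ofNat 1, c470x⟩⟩, [37, 38, 39, 784]⟩,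
  ⟨⟨⟨c45x, c27x, c22x, c43x⟩, ⟨.ofNat 0, .ofNat 0, c468x⟩, ⟨.ofNat 1, .ofNat 0, c469x⟩, ⟨.ofNat 0, .ofNat 1, c470x⟩⟩, [41, 42, 43, 784]⟩,
  ⟨⟨⟨c48x, c49x, c4x, c43x⟩, ⟨.ofNat 0, .ofNat 0, c468x⟩, ⟨.ofNat 1, .ofNat 0, c469x⟩, ⟨.ofNat 0, .ofNat 1, c470x⟩⟩, [69, 70, 783, 784]⟩,
  ⟨⟨⟨c28x, c29x, c40x, c43x⟩, ⟨.ofNat 0, .ofNat 0, c468x⟩, ⟨.ofNat 1, .ofNat 0, c469x⟩, ⟨.ofNat 0, .ofNat 1, c470x⟩⟩, [55, 56, 57, 784]⟩,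
  ⟨⟨⟨c29x, c35x, c37x, c43x⟩, ⟨.ofNat 0, .ofNat 0, c468x⟩, ⟨.ofNat 1, .ofNat 0, c469x⟩, ⟨.ofNat 0, .ofNat 1, c470x⟩⟩, [56, 57, 58, 59, 784]⟩,
  ⟨⟨⟨c50x, c51x, c13x, c52x⟩, ⟨.ofNat 0, .ofNat 0, c468x⟩, ⟨.ofNat 1, .ofNat 0, c469x⟩, ⟨.ofNat 0, .ofNat 1, c470x⟩⟩, [70, 759, 760, 761]⟩,
  ⟨⟨⟨c51x, c59x, c13x, c60x⟩, ⟨.ofNat 0, .ofNat 0, c468x⟩, ⟨.ofNat 1, .ofNat 0, c469x⟩, ⟨.ofNat 0, .ofNat 1, c470x⟩⟩, [70, 757, 758, 759, 760]⟩,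
  ⟨⟨⟨c49x, c61x, c13x, c62x⟩, ⟨.ofNat 0, .ofNat 0, c468x⟩, ⟨.ofNat 1, .ofNat 0, c469x⟩, ⟨.ofNat 0, .ofNat 1, c470x⟩⟩, [69, 70, 781, 782, 783, 784]⟩,
  ⟨⟨⟨c61x, c53x, c13x, c63x⟩, ⟨.ofNat 0, .ofNat 0, c468x⟩, ⟨.ofNat 1, .ofNat 0, c469x⟩, ⟨.ofNat 0, .ofNat 1, c470x⟩⟩, [70, 778, 779, 780, 781, 782]⟩,
  ⟨⟨⟨c53x, c54x, c13x, c55x⟩, ⟨.ofNat 0, .ofNat 0, c468x⟩, ⟨.ofNat 1, .ofNat 0, c469x⟩, ⟨.ofNat 0, .ofNat 1, c470x⟩⟩, [70, 777, 778, 779]⟩,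
  ⟨⟨⟨c54x, c56x, c13x, c64x⟩, ⟨.ofNat 0, .ofNat 0, c468x⟩, ⟨.ofNat 1, .ofNat 0, c469x⟩, ⟨.ofNat 0, .ofNat 1, c470x⟩⟩, [70, 774, 775, 776, 777, 778]⟩,
  ⟨⟨⟨c56x, c57x, c13x, c58x⟩, ⟨.ofNat 0, .ofNat 0, c468x⟩, ⟨.ofNat 1, .ofNat 0, c469x⟩, ⟨.ofNat 0, .ofNat 1, c470x⟩⟩, [70, 773, 774, 775]⟩,
  ⟨⟨⟨c57x, c65x, c13x, c66x⟩, ⟨.ofNat 0, .ofNat 0, c468x⟩, ⟨.ofNat 1, .ofNat 0, c469x⟩, ⟨.ofNat 0, .ofNat 1, c470x⟩⟩, [70, 769, 770, 772, 773, 774]⟩,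
  ⟨⟨⟨c67x, c68x, c13x, c64x⟩, ⟨.ofNat 0, .ofNat 0, c468x⟩, ⟨.ofNat 1, .ofNat 0, c469x⟩, ⟨.ofNat 0, .ofNat 1, c470x⟩⟩, [70, 749, 750, 751]⟩,
  ⟨⟨⟨c68x, c69x, c13x, c62x⟩, ⟨.ofNat 0, .ofNat 0, c468x⟩, ⟨.ofNat 1, .ofNat 0, c469x⟩, ⟨.ofNat 0, .ofNat 1, c470x⟩⟩, [70, 71, 72, 747, 748, 749, 750]⟩,
  ⟨⟨⟨c59x, c67x, c13x, c71x⟩, ⟨.ofNat 0, .ofNat 0, c468x⟩, ⟨.ofNat 1, .ofNat 0, c469x⟩, ⟨.ofNat 0, .ofNat 1, c470x⟩⟩, [70, 750, 751, 752, 756, 757, 758]⟩,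
  ⟨⟨⟨c65x, c50x, c13x, c70x⟩, ⟨.ofNat 0, .ofNat 0, c468x⟩, ⟨.ofNat 1, .ofNat 0, c469x⟩, ⟨.ofNat 0, .ofNat 1, c470x⟩⟩, [70, 760, 761, 762, 768, 769, 770]⟩,
  ⟨⟨⟨c77x, c59x, c58x, c71x⟩, ⟨.ofNat 0, .ofNat 0, c468x⟩, ⟨.ofNat 1, .ofNat 0, c469x⟩, ⟨.ofNat 0, .ofNat 1, c470x⟩⟩, [752, 754, 755, 756, 757]⟩,
  ⟨⟨⟨c72x, c57x, c73x, c66x⟩, ⟨.ofNat 0, .ofNat 0, c468x⟩, ⟨.ofNat 1, .ofNat 0, c469x⟩, ⟨.ofNat 0, .ofNat 1, c470x⟩⟩, [770, 771, 772, 773]⟩,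
  ⟨⟨⟨c50x, c51x, c73x, c70x⟩, ⟨.ofNat 0, .ofNat 0, c468x⟩, ⟨.ofNat 1, .ofNat 0, c469x⟩, ⟨.ofNat 0, .ofNat 1, c470x⟩⟩, [761, 762, 767, 768]⟩,
  ⟨⟨⟨c74x, c75x, c73x, c76x⟩, ⟨.ofNat 0, .ofNat 0, c468x⟩, ⟨.ofNat 1, .ofNat 0, c469x⟩, ⟨.ofNat 0, .ofNat 1, c470x⟩⟩, [762, 763, 764, 765]⟩,
  ⟨⟨⟨c89x, c77x, c63x, c71x⟩, ⟨.ofNat 0, .ofNat 0, c468x⟩, ⟨.ofNat 1, .ofNat 0, c469x⟩, ⟨.ofNat 0, .ofNat 1, c470x⟩⟩, [752, 753, 754, 755]⟩,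
  ⟨⟨⟨c69x, c476x, c43x, c79x⟩, ⟨.ofNat 0, .ofNat 0, c468x⟩, ⟨.ofNat 1, .ofNat 0, c469x⟩, ⟨.ofNat 0, .ofNat 1, c470x⟩⟩, [71, 72, 746, 747, 748]⟩,
  ⟨⟨⟨c476x, c477x, c43x, c79x⟩, ⟨.negSucc 0, .ofNat 0, c477x⟩, ⟨.ofNat 0, .ofNat 0, c785x⟩, ⟨.ofNat 0, .ofNat 1, c470x⟩⟩, [72, 746]⟩,
  ⟨⟨⟨c477x, c78x, c43x, c79x⟩, ⟨.ofNat 0, .ofNat 0, c14x⟩, ⟨.negSucc 0, .ofNat 0, c480x⟩, ⟨.ofNat 0, .ofNat 1, c470x⟩⟩, [72, 73, 74, 745, 746]⟩,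
  ⟨⟨⟨c80x, c81x, c58x, c73x⟩, ⟨.ofNat 0, .ofNat 0, c14x⟩, ⟨.negSucc 0, .ofNat 0, c480x⟩, ⟨.ofNat 0, .ofNat 1, c470x⟩⟩, [82, 83, 84, 85]⟩,
  ⟨⟨⟨c82x, c83x, c52x, c73x⟩, ⟨.ofNat 0, .ofNat 0, c14x⟩, ⟨.negSucc 0, .ofNat 0, c480x⟩, ⟨.ofNat 0, .ofNat 1, c470x⟩⟩, [94, 95, 96, 97, 98]⟩,
  ⟨⟨⟨c83x, c84x, c60x, c73x⟩, ⟨.ofNat 0, .ofNat 0, c14x⟩, ⟨.negSucc 0, .ofNat 0, c480x⟩, ⟨.ofNat 0, .ofNat 1, c470x⟩⟩, [93, 94, 97, 98]⟩,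
  ⟨⟨⟨c85x, c86x, c60x, c58x⟩, ⟨.ofNat 0, .ofNat 0, c14x⟩, ⟨.negSucc 0, .ofNat 0, c480x⟩, ⟨.ofNat 0, .ofNat 1, c470x⟩⟩, [98, 99, 100, 101]⟩,
  ⟨⟨⟨c87x, c85x, c60x, c63x⟩, ⟨.ofNat 0, .ofNat 0, c14x⟩, ⟨.negSucc 0, .ofNat 0, c480x⟩, ⟨.ofNat 0, .ofNat 1, c470x⟩⟩, [98, 100, 101, 102, 103]⟩,
  ⟨⟨⟨c51x, c74x, c73x, c88x⟩, ⟨.ofNat 0, .ofNat 0, c468x⟩, ⟨.ofNat 1, .ofNat 0, c469x⟩, ⟨.ofNat 0, .ofNat 1, c470x⟩⟩, [762, 764, 765, 766, 767, 768]⟩,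
  ⟨⟨⟨c78x, c90x, c62x, c91x⟩, ⟨.ofNat 0, .ofNat 0, c14x⟩, ⟨.negSucc 0, .ofNat 0, c480x⟩, ⟨.ofNat 0, .ofNat 1, c470x⟩⟩, [73, 74, 75, 76, 744, 745, 746]⟩,
  ⟨⟨⟨c92x, c93x, c55x, c91x⟩, ⟨.ofNat 0, .ofNat 0, c14x⟩, ⟨.negSucc 0, .ofNat 0, c480x⟩, ⟨.ofNat 0, .ofNat 1, c470x⟩⟩, [76, 77, 78, 79, 80, 744]⟩,
  ⟨⟨⟨c93x, c94x, c64x, c91x⟩, ⟨.ofNat 0, .ofNat 0, c14x⟩, ⟨.negSucc 0, .ofNat 0, c480x⟩, ⟨.ofNat 0, .ofNat 1, c470x⟩⟩, [79, 80, 81, 744]⟩,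
  ⟨⟨⟨c94x, c80x, c58x, c91x⟩, ⟨.ofNat 0, .ofNat 0, c14x⟩, ⟨.negSucc 0, .ofNat 0, c480x⟩, ⟨.ofNat 0, .ofNat 1, c470x⟩⟩, [80, 81, 82, 84, 85, 86, 744]⟩,
  ⟨⟨⟨c84x, c87x, c60x, c91x⟩, ⟨.ofNat 0, .ofNat 0, c14x⟩, ⟨.negSucc 0, .ofNat 0, c480x⟩, ⟨.ofNat 0, .ofNat 1, c470x⟩⟩, [92, 93, 94, 98, 102, 103, 104, 744]⟩,
  ⟨⟨⟨c96x, c97x, c64x, c91x⟩, ⟨.ofNat 0, .ofNat 0, c14x⟩, ⟨.negSucc 0, .ofNat 0, c480x⟩, ⟨.ofNat 0, .ofNat 1, c470x⟩⟩, [104, 105, 106, 107, 108, 744]⟩,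
  ⟨⟨⟨c90x, c92x, c63x, c91x⟩, ⟨.ofNat 0, .ofNat 0, c14x⟩, ⟨.negSucc 0, .ofNat 0, c480x⟩, ⟨.ofNat 0, .ofNat 1, c470x⟩⟩, [75, 76, 77, 744]⟩,
  ⟨⟨⟨c80x, c99x, c66x, c91x⟩, ⟨.ofNat 0, .ofNat 0, c14x⟩, ⟨.negSucc 0, .ofNat 0, c480x⟩, ⟨.ofNat 0, .ofNat 1, c470x⟩⟩, [85, 86, 87, 88, 744]⟩,
  ⟨⟨⟨c95x, c84x, c76x, c91x⟩, ⟨.ofNat 0, .ofNat 0, c14x⟩, ⟨.negSucc 0, .ofNat 0, c480x⟩, ⟨.ofNat 0, .ofNat 1, c470x⟩⟩, [90, 91, 92, 93, 744]⟩,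
  ⟨⟨⟨c97x, c98x, c62x, c91x⟩, ⟨.ofNat 0, .ofNat 0, c14x⟩, ⟨.negSucc 0, .ofNat 0, c480x⟩, ⟨.ofNat 0, .ofNat 1, c470x⟩⟩, [107, 108, 109, 110, 743, 744]⟩,
  ⟨⟨⟨c99x, c83x, c70x, c91x⟩, ⟨.ofNat 0, .ofNat 0, c14x⟩, ⟨.negSucc 0, .ofNat 0, c480x⟩, ⟨.ofNat 0, .ofNat 1, c470x⟩⟩, [87, 88, 89, 90, 744]⟩,
  ⟨⟨⟨c87x, c96x, c71x, c91x⟩, ⟨.ofNat 0, .ofNat 0, c14x⟩, ⟨.negSucc 0, .ofNat 0, c480x⟩, ⟨.ofNat 0, .ofNat 1, c470x⟩⟩, [103, 104, 105, 744]⟩,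
  ⟨⟨⟨c83x, c95x, c88x, c91x⟩, ⟨.ofNat 0, .ofNat 0, c14x⟩, ⟨.negSucc 0, .ofNat 0, c480x⟩, ⟨.ofNat 0, .ofNat 1, c470x⟩⟩, [89, 90, 91, 744]⟩,
  ⟨⟨⟨c100x, c101x, c79x, c102x⟩, ⟨.ofNat 0, .ofNat 0, c14x⟩, ⟨.negSucc 0, .ofNat 0, c480x⟩, ⟨.ofNat 0, .ofNat 1, c470x⟩⟩, [110, 725, 726, 727]⟩,
  ⟨⟨⟨c98x, c103x, c79x, c104x⟩, ⟨.ofNat 0, .ofNat 0, c14x⟩, ⟨.negSucc 0, .ofNat 0, c480x⟩, ⟨.ofNat 0, .ofNat 1, c470x⟩⟩, [109, 110, 740, 741, 742, 743, 744]⟩,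
  ⟨⟨⟨c103x, c105x, c79x, c106x⟩, ⟨.ofNat 0, .ofNat 0, c14x⟩, ⟨.negSucc 0, .ofNat 0, c480x⟩, ⟨.ofNat 0, .ofNat 1, c470x⟩⟩, [110, 739, 740, 741]⟩,
  ⟨⟨⟨c105x, c116x, c79x, c117x⟩, ⟨.ofNat 0, .ofNat 0, c14x⟩, ⟨.negSucc 0, .ofNat 0, c480x⟩, ⟨.ofNat 0, .ofNat 1, c470x⟩⟩, [110, 736, 737, 738, 739, 740]⟩,
  ⟨⟨⟨c116x, c118x, c79x, c119x⟩, ⟨.ofNat 0, .ofNat 0, c14x⟩, ⟨.negSucc 0, .ofNat 0, c480x⟩, ⟨.ofNat 0, .ofNat 1, c470x⟩⟩, [110, 735, 736, 737]⟩,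
  ⟨⟨⟨c107x, c108x, c79x, c109x⟩, ⟨.ofNat 0, .ofNat 0, c14x⟩, ⟨.negSucc 0, .ofNat 0, c480x⟩, ⟨.ofNat 0, .ofNat 1, c470x⟩⟩, [110, 728, 729, 730, 731]⟩,
  ⟨⟨⟨c118x, c107x, c79x, c120x⟩, ⟨.ofNat 0, .ofNat 0, c14x⟩, ⟨.negSucc 0, .ofNat 0, c480x⟩, ⟨.ofNat 0, .ofNat 1, c470x⟩⟩, [110, 730, 731, 732, 734, 735, 736]⟩,
  ⟨⟨⟨c108x, c100x, c79x, c110x⟩, ⟨.ofNat 0, .ofNat 0, c14x⟩, ⟨.negSucc 0, .ofNat 0, c480x⟩, ⟨.ofNat 0, .ofNat 1, c470x⟩⟩, [110, 726, 727, 728, 729]⟩,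
  ⟨⟨⟨c101x, c111x, c79x, c112x⟩, ⟨.ofNat 0, .ofNat 0, c14x⟩, ⟨.negSucc 0, .ofNat 0, c480x⟩, ⟨.ofNat 0, .ofNat 1, c470x⟩⟩, [110, 723, 724, 725, 726]⟩,
  ⟨⟨⟨c113x, c114x, c79x, c115x⟩, ⟨.ofNat 0, .ofNat 0, c14x⟩, ⟨.negSucc 0, .ofNat 0, c480x⟩, ⟨.ofNat 0, .ofNat 1, c470x⟩⟩, [110, 711, 712, 713]⟩,
  ⟨⟨⟨c111x, c113x, c79x, c121x⟩, ⟨.ofNat 0, .ofNat 0, c14x⟩, ⟨.negSucc 0, .ofNat 0, c480x⟩, ⟨.ofNat 0, .ofNat 1, c470x⟩⟩, [110, 712, 713, 714, 718, 722, 723, 724]⟩,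
  ⟨⟨⟨c114x, c122x, c79x, c119x⟩, ⟨.ofNat 0, .ofNat 0, c14x⟩, ⟨.negSucc 0, .ofNat 0, c480x⟩, ⟨.ofNat 0, .ofNat 1, c470x⟩⟩, [110, 708, 709, 710, 711, 712]⟩,
  ⟨⟨⟨c122x, c123x, c79x, c104x⟩, ⟨.ofNat 0, .ofNat 0, c14x⟩, ⟨.negSucc 0, .ofNat 0, c480x⟩, ⟨.ofNat 0, .ofNat 1, c470x⟩⟩, [110, 111, 112, 707, 708, 709]⟩,
  ⟨⟨⟨c126x, c127x, c109x, c128x⟩, ⟨.ofNat 0, .ofNat 0, c468x⟩, ⟨.ofNat 1, .ofNat 0, c483x⟩, ⟨.ofNat 0, .ofNat 1, c470x⟩⟩, [123, 124, 125, 126]⟩,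
  ⟨⟨⟨c129x, c130x, c110x, c128x⟩, ⟨.ofNat 0, .ofNat 0, c468x⟩, ⟨.ofNat 1, .ofNat 0, c483x⟩, ⟨.ofNat 0, .ofNat 1, c470x⟩⟩, [128, 129, 134, 135]⟩,
  ⟨⟨⟨c130x, c131x, c102x, c128x⟩, ⟨.ofNat 0, .ofNat 0, c468x⟩, ⟨.ofNat 1, .ofNat 0, c483x⟩, ⟨.ofNat 0, .ofNat 1, c470x⟩⟩, [128, 129, 130, 131, 132, 134]⟩,
  ⟨⟨⟨c133x, c134x, c115x, c106x⟩, ⟨.ofNat 0, .ofNat 0, c468x⟩, ⟨.ofNat 1, .ofNat 0, c483x⟩, ⟨.ofNat 0, .ofNat 1, c470x⟩⟩, [141, 142, 143, 144]⟩,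
  ⟨⟨⟨c107x, c135x, c128x, c120x⟩, ⟨.ofNat 0, .ofNat 0, c14x⟩, ⟨.negSucc 0, .ofNat 0, c480x⟩, ⟨.ofNat 0, .ofNat 1, c470x⟩⟩, [731, 732, 733, 734]⟩,
  ⟨⟨⟨c136x, c100x, c128x, c137x⟩, ⟨.ofNat 0, .ofNat 0, c14x⟩, ⟨.negSucc 0, .ofNat 0, c480x⟩, ⟨.ofNat 0, .ofNat 1, c470x⟩⟩, [718, 719, 720, 721, 722]⟩,
  ⟨⟨⟨c100x, c111x, c128x, c121x⟩, ⟨.ofNat 0, .ofNat 0, c14x⟩, ⟨.negSucc 0, .ofNat 0, c480x⟩, ⟨.ofNat 0, .ofNat 1, c470x⟩⟩, [718, 719, 722, 723]⟩,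
  ⟨⟨⟨c113x, c138x, c106x, c121x⟩, ⟨.ofNat 0, .ofNat 0, c14x⟩, ⟨.negSucc 0, .ofNat 0, c480x⟩, ⟨.ofNat 0, .ofNat 1, c470x⟩⟩, [713, 714, 715, 716, 718]⟩,
  ⟨⟨⟨c138x, c139x, c120x, c121x⟩, ⟨.ofNat 0, .ofNat 0, c14x⟩, ⟨.negSucc 0, .ofNat 0, c480x⟩, ⟨.ofNat 0, .ofNat 1, c470x⟩⟩, [715, 716, 717, 718]⟩,
  ⟨⟨⟨c123x, c480x, c91x, c125x⟩, ⟨.ofNat 0, .ofNat 0, c14x⟩, ⟨.negSucc 0, .ofNat 0, c480x⟩, ⟨.ofNat 0, .ofNat 1, c470x⟩⟩, [111, 112, 706, 707, 708]⟩,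
  ⟨⟨⟨c480x, c481x, c91x, c125x⟩, ⟨.ofNat 1, .ofNat 0, c482x⟩, ⟨.ofNat 0, .ofNat 0, c14x⟩, ⟨.ofNat 0, .ofNat 1, c470x⟩⟩, [112, 706]⟩,
  ⟨⟨⟨c481x, c124x, c91x, c125x⟩, ⟨.ofNat 0, .ofNat 0, c468x⟩, ⟨.ofNat 1, .ofNat 0, c483x⟩, ⟨.ofNat 0, .ofNat 1, c470x⟩⟩, [112, 113, 114, 705, 706]⟩,
  ⟨⟨⟨c131x, c132x, c112x, c128x⟩, ⟨.ofNat 0, .ofNat 0, c468x⟩, ⟨.ofNat 1, .ofNat 0, c483x⟩, ⟨.ofNat 0, .ofNat 1, c470x⟩⟩, [131, 132, 133, 134]⟩,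
  ⟨⟨⟨c134x, c140x, c115x, c120x⟩, ⟨.ofNat 0, .ofNat 0, c468x⟩, ⟨.ofNat 1, .ofNat 0, c483x⟩, ⟨.ofNat 0, .ofNat 1, c470x⟩⟩, [139, 140, 141, 142, 144]⟩,
  ⟨⟨⟨c141x, c129x, c110x, c142x⟩, ⟨.ofNat 0, .ofNat 0, c468x⟩, ⟨.ofNat 1, .ofNat 0, c483x⟩, ⟨.ofNat 0, .ofNat 1, c470x⟩⟩, [126, 127, 128, 134, 135, 136, 704]⟩,
  ⟨⟨⟨c124x, c144x, c104x, c142x⟩, ⟨.ofNat 0, .ofNat 0, c468x⟩, ⟨.ofNat 1, .ofNat 0, c483x⟩, ⟨.ofNat 0, .ofNat 1, c470x⟩⟩, [113, 114, 115, 704, 705, 706]⟩,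
  ⟨⟨⟨c144x, c145x, c106x, c142x⟩, ⟨.ofNat 0, .ofNat 0, c468x⟩, ⟨.ofNat 1, .ofNat 0, c483x⟩, ⟨.ofNat 0, .ofNat 1, c470x⟩⟩, [114, 115, 116, 117, 118, 704]⟩,
  ⟨⟨⟨c127x, c141x, c109x, c142x⟩, ⟨.ofNat 0, .ofNat 0, c468x⟩, ⟨.ofNat 1, .ofNat 0, c483x⟩, ⟨.ofNat 0, .ofNat 1, c470x⟩⟩, [122, 123, 124, 126, 127, 704]⟩,
  ⟨⟨⟨c140x, c143x, c115x, c142x⟩, ⟨.ofNat 0, .ofNat 0, c468x⟩, ⟨.ofNat 1, .ofNat 0, c483x⟩, ⟨.ofNat 0, .ofNat 1, c470x⟩⟩, [138, 139, 140, 144, 145, 146, 704]⟩,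
  ⟨⟨⟨c145x, c146x, c117x, c142x⟩, ⟨.ofNat 0, .ofNat 0, c468x⟩, ⟨.ofNat 1, .ofNat 0, c483x⟩, ⟨.ofNat 0, .ofNat 1, c470x⟩⟩, [117, 118, 119, 704]⟩,
  ⟨⟨⟨c146x, c147x, c119x, c142x⟩, ⟨.ofNat 0, .ofNat 0, c468x⟩, ⟨.ofNat 1, .ofNat 0, c483x⟩, ⟨.ofNat 0, .ofNat 1, c470x⟩⟩, [118, 119, 120, 121, 122, 704]⟩,
  ⟨⟨⟨c147x, c127x, c120x, c142x⟩, ⟨.ofNat 0, .ofNat 0, c468x⟩, ⟨.ofNat 1, .ofNat 0, c483x⟩, ⟨.ofNat 0, .ofNat 1, c470x⟩⟩, [121, 122, 123, 704]⟩,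
  ⟨⟨⟨c129x, c130x, c137x, c142x⟩, ⟨.ofNat 0, .ofNat 0, c468x⟩, ⟨.ofNat 1, .ofNat 0, c483x⟩, ⟨.ofNat 0, .ofNat 1, c470x⟩⟩, [135, 136, 137, 704]⟩,
  ⟨⟨⟨c130x, c140x, c121x, c142x⟩, ⟨.ofNat 0, .ofNat 0, c468x⟩, ⟨.ofNat 1, .ofNat 0, c483x⟩, ⟨.ofNat 0, .ofNat 1, c470x⟩⟩, [136, 137, 138, 139, 704]⟩,
  ⟨⟨⟨c143x, c148x, c119x, c142x⟩, ⟨.ofNat 0, .ofNat 0, c468x⟩, ⟨.ofNat 1, .ofNat 0, c483x⟩, ⟨.ofNat 0, .ofNat 1, c470x⟩⟩, [145, 146, 147, 704]⟩,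
  ⟨⟨⟨c148x, c149x, c104x, c142x⟩, ⟨.ofNat 0, .ofNat 0, c468x⟩, ⟨.ofNat 1, .ofNat 0, c483x⟩, ⟨.ofNat 0, .ofNat 1, c470x⟩⟩, [146, 147, 148, 149, 150, 703, 704]⟩,
  ⟨⟨⟨c149x, c163x, c125x, c162x⟩, ⟨.ofNat 0, .ofNat 0, c468x⟩, ⟨.ofNat 1, .ofNat 0, c483x⟩, ⟨.ofNat 0, .ofNat 1, c470x⟩⟩, [149, 150, 151, 152, 703, 704]⟩,
  ⟨⟨⟨c155x, c156x, c142x, c157x⟩, ⟨.ofNat 0, .ofNat 0, c468x⟩, ⟨.ofNat 1, .ofNat 0, c483x⟩, ⟨.ofNat 0, .ofNat 1, c470x⟩⟩, [152, 183, 184, 185]⟩,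
  ⟨⟨⟨c163x, c164x, c142x, c162x⟩, ⟨.ofNat 0, .ofNat 0, c468x⟩, ⟨.ofNat 1, .ofNat 0, c483x⟩, ⟨.ofNat 0, .ofNat 1, c470x⟩⟩, [151, 152]⟩,
  ⟨⟨⟨c164x, c155x, c142x, c162x⟩, ⟨.ofNat 0, .ofNat 0, c468x⟩, ⟨.ofNat 1, .ofNat 0, c483x⟩, ⟨.ofNat 0, .ofNat 1, c470x⟩⟩, [152, 184, 185]⟩,
  ⟨⟨⟨c156x, c158x, c142x, c162x⟩, ⟨.ofNat 0, .ofNat 0, c468x⟩, ⟨.ofNat 1, .ofNat 0, c483x⟩, ⟨.ofNat 0, .ofNat 1, c470x⟩⟩, [152, 180, 181, 183, 184]⟩,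
  ⟨⟨⟨c158x, c160x, c142x, c161x⟩, ⟨.ofNat 0, .ofNat 0, c468x⟩, ⟨.ofNat 1, .ofNat 0, c483x⟩, ⟨.ofNat 0, .ofNat 1, c470x⟩⟩, [152, 179, 180, 181]⟩,
  ⟨⟨⟨c150x, c151x, c142x, c152x⟩, ⟨.ofNat 0, .ofNat 0, c14x⟩, ⟨.negSucc 0, .ofNat 0, c259x⟩, ⟨.ofNat 0, .ofNat 1, c470x⟩⟩, [152, 165, 166, 167]⟩,
  ⟨⟨⟨c151x, c153x, c142x, c154x⟩, ⟨.ofNat 0, .ofNat 0, c14x⟩, ⟨.negSucc 0, .ofNat 0, c259x⟩, ⟨.ofNat 0, .ofNat 1, c470x⟩⟩, [152, 163, 164, 165, 166]⟩,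
  ⟨⟨⟨c124x, c144x, c165x, c786x⟩, ⟨.ofNat 0, .negSucc 0, c786x⟩, ⟨.ofNat 1, .ofNat 0, c483x⟩, ⟨.ofNat 0, .ofNat 0, c596x⟩⟩, [667, 668, 669, 670]⟩,
  ⟨⟨⟨c144x, c145x, c167x, c786x⟩, ⟨.ofNat 0, .negSucc 0, c786x⟩, ⟨.ofNat 1, .ofNat 0, c483x⟩, ⟨.ofNat 0, .ofNat 0, c596x⟩⟩, [669, 670, 671]⟩,
  ⟨⟨⟨c145x, c146x, c157x, c162x⟩, ⟨.ofNat 0, .ofNat 0, c468x⟩, ⟨.ofNat 1, .ofNat 0, c483x⟩, ⟨.ofNat 0, .ofNat 1, c470x⟩⟩, [671, 672, 673]⟩,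
  ⟨⟨⟨c145x, c146x, c162x, c786x⟩, ⟨.ofNat 0, .negSucc 0, c786x⟩, ⟨.ofNat 1, .ofNat 0, c483x⟩, ⟨.ofNat 0, .ofNat 0, c596x⟩⟩, [670, 671, 673, 674]⟩,
  ⟨⟨⟨c146x, c147x, c159x, c786x⟩, ⟨.ofNat 0, .negSucc 0, c786x⟩, ⟨.ofNat 1, .ofNat 0, c483x⟩, ⟨.ofNat 0, .ofNat 0, c596x⟩⟩, [673, 674, 675]⟩,
  ⟨⟨⟨c147x, c126x, c161x, c162x⟩, ⟨.ofNat 0, .ofNat 0, c468x⟩, ⟨.ofNat 1, .ofNat 0, c483x⟩, ⟨.ofNat 0, .ofNat 1, c470x⟩⟩, [675, 676, 678, 679]⟩,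
  ⟨⟨⟨c147x, c126x, c162x, c786x⟩, ⟨.ofNat 0, .negSucc 0, c786x⟩, ⟨.ofNat 1, .ofNat 0, c483x⟩, ⟨.ofNat 0, .ofNat 0, c596x⟩⟩, [674, 675, 678, 679]⟩,
  ⟨⟨⟨c126x, c127x, c161x, c162x⟩, ⟨.ofNat 0, .ofNat 0, c468x⟩, ⟨.ofNat 1, .ofNat 0, c483x⟩, ⟨.ofNat 0, .ofNat 1, c470x⟩⟩, [676, 677, 678, 679]⟩,
  ⟨⟨⟨c129x, c130x, c152x, c162x⟩, ⟨.ofNat 0, .ofNat 0, c468x⟩, ⟨.ofNat 1, .ofNat 0, c483x⟩, ⟨.ofNat 0, .ofNat 1, c470x⟩⟩, [688, 689, 690, 691, 692]⟩,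
  ⟨⟨⟨c130x, c132x, c154x, c162x⟩, ⟨.ofNat 0, .ofNat 0, c468x⟩, ⟨.ofNat 1, .ofNat 0, c483x⟩, ⟨.ofNat 0, .ofNat 1, c470x⟩⟩, [687, 688, 691, 692]⟩,
  ⟨⟨⟨c132x, c133x, c154x, c162x⟩, ⟨.ofNat 0, .ofNat 0, c468x⟩, ⟨.ofNat 1, .ofNat 0, c483x⟩, ⟨.ofNat 0, .ofNat 1, c470x⟩⟩, [687, 688, 692]⟩,
  ⟨⟨⟨c134x, c140x, c154x, c161x⟩, ⟨.ofNat 0, .ofNat 0, c468x⟩, ⟨.ofNat 1, .ofNat 0, c483x⟩, ⟨.ofNat 0, .ofNat 1, c470x⟩⟩, [692, 693, 694, 695]⟩,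
  ⟨⟨⟨c133x, c134x, c154x, c162x⟩, ⟨.ofNat 0, .ofNat 0, c468x⟩, ⟨.ofNat 1, .ofNat 0, c483x⟩, ⟨.ofNat 0, .ofNat 1, c470x⟩⟩, [692, 694, 695]⟩,
  ⟨⟨⟨c132x, c133x, c162x, c786x⟩, ⟨.ofNat 0, .negSucc 0, c786x⟩, ⟨.ofNat 1, .ofNat 0, c483x⟩, ⟨.ofNat 0, .ofNat 0, c596x⟩⟩, [687, 688, 696, 697]⟩,
  ⟨⟨⟨c133x, c134x, c162x, c167x⟩, ⟨.ofNat 0, .negSucc 0, c786x⟩, ⟨.ofNat 1, .ofNat 0, c483x⟩, ⟨.ofNat 0, .ofNat 0, c596x⟩⟩, [695, 696, 697]⟩,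
  ⟨⟨⟨c143x, c148x, c159x, c786x⟩, ⟨.ofNat 0, .negSucc 0, c786x⟩, ⟨.ofNat 1, .ofNat 0, c483x⟩, ⟨.ofNat 0, .ofNat 0, c596x⟩⟩, [699, 700, 701, 702]⟩,
  ⟨⟨⟨c148x, c149x, c165x, c786x⟩, ⟨.ofNat 0, .negSucc 0, c786x⟩, ⟨.ofNat 1, .ofNat 0, c483x⟩, ⟨.ofNat 0, .ofNat 0, c596x⟩⟩, [701, 702, 703]⟩,
  ⟨⟨⟨c149x, c163x, c162x, c786x⟩, ⟨.ofNat 0, .negSucc 0, c786x⟩, ⟨.ofNat 1, .ofNat 0, c483x⟩, ⟨.ofNat 0, .ofNat 0, c596x⟩⟩, [188, 189, 702, 703]⟩,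
  ⟨⟨⟨c163x, c164x, c162x, c165x⟩, ⟨.ofNat 0, .negSucc 0, c786x⟩, ⟨.ofNat 1, .ofNat 0, c483x⟩, ⟨.ofNat 0, .ofNat 0, c596x⟩⟩, [187, 188, 189]⟩,
  ⟨⟨⟨c160x, c169x, c142x, c162x⟩, ⟨.negSucc 0, .ofNat 0, c150x⟩, ⟨.ofNat 0, .ofNat 0, c785x⟩, ⟨.ofNat 0, .ofNat 1, c470x⟩⟩, [152, 178, 179, 180]⟩,
  ⟨⟨⟨c169x, c150x, c142x, c162x⟩, ⟨.negSucc 0, .ofNat 0, c150x⟩, ⟨.ofNat 0, .ofNat 0, c785x⟩, ⟨.ofNat 0, .ofNat 1, c470x⟩⟩, [152, 166, 167, 168]⟩,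
  ⟨⟨⟨c164x, c155x, c162x, c167x⟩, ⟨.ofNat 0, .negSucc 0, c786x⟩, ⟨.ofNat 1, .ofNat 0, c483x⟩, ⟨.ofNat 0, .ofNat 0, c596x⟩⟩, [185, 186, 187, 188]⟩,
  ⟨⟨⟨c156x, c158x, c162x, c159x⟩, ⟨.ofNat 0, .negSucc 0, c786x⟩, ⟨.ofNat 1, .ofNat 0, c483x⟩, ⟨.ofNat 0, .ofNat 0, c596x⟩⟩, [181, 182, 183]⟩,
  ⟨⟨⟨c153x, c172x, c142x, c162x⟩, ⟨.ofNat 0, .ofNat 0, c14x⟩, ⟨.negSucc 0, .ofNat 0, c259x⟩, ⟨.ofNat 0, .ofNat 1, c470x⟩⟩, [152, 162, 163, 164]⟩,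
  ⟨⟨⟨c172x, c174x, c142x, c162x⟩, ⟨.ofNat 0, .ofNat 0, c14x⟩, ⟨.negSucc 0, .ofNat 0, c259x⟩, ⟨.ofNat 0, .ofNat 1, c470x⟩⟩, [152]⟩,
  ⟨⟨⟨c174x, c175x, c142x, c162x⟩, ⟨.ofNat 0, .ofNat 0, c14x⟩, ⟨.negSucc 0, .ofNat 0, c259x⟩, ⟨.ofNat 0, .ofNat 1, c470x⟩⟩, [152, 153]⟩,
  ⟨⟨⟨c181x, c153x, c161x, c162x⟩, ⟨.ofNat 0, .ofNat 0, c14x⟩, ⟨.negSucc 0, .ofNat 0, c259x⟩, ⟨.ofNat 0, .ofNat 1, c470x⟩⟩, [161, 162, 163]⟩,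
  ⟨⟨⟨c181x, c153x, c162x, c786x⟩, ⟨.ofNat 0, .ofNat 1, c787x⟩, ⟨.negSucc 0, .ofNat 0, c259x⟩, ⟨.ofNat 0, .ofNat 0, c596x⟩⟩, [160, 161]⟩,
  ⟨⟨⟨c153x, c172x, c162x, c786x⟩, ⟨.ofNat 0, .ofNat 1, c787x⟩, ⟨.negSucc 0, .ofNat 0, c259x⟩, ⟨.ofNat 0, .ofNat 0, c596x⟩⟩, [156, 157]⟩,
  ⟨⟨⟨c172x, c174x, c162x, c159x⟩, ⟨.ofNat 0, .ofNat 1, c787x⟩, ⟨.negSucc 0, .ofNat 0, c259x⟩, ⟨.ofNat 0, .ofNat 0, c596x⟩⟩, [155, 156, 157]⟩,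
  ⟨⟨⟨c174x, c175x, c162x, c165x⟩, ⟨.ofNat 0, .ofNat 1, c787x⟩, ⟨.negSucc 0, .ofNat 0, c259x⟩, ⟨.ofNat 0, .ofNat 0, c596x⟩⟩, [153, 154, 155, 156]⟩,
  ⟨⟨⟨c124x, c144x, c786x, c166x⟩, ⟨.ofNat 0, .ofNat 0, c14x⟩, ⟨.ofNat 1, .ofNat 0, c483x⟩, ⟨.ofNat 0, .negSucc 0, c295x⟩⟩, [666, 667]⟩,
  ⟨⟨⟨c144x, c145x, c786x, c166x⟩, ⟨.ofNat 0, .ofNat 0, c14x⟩, ⟨.ofNat 1, .ofNat 0, c483x⟩, ⟨.ofNat 0, .negSucc 0, c295x⟩⟩, [666]⟩,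
  ⟨⟨⟨c145x, c146x, c786x, c166x⟩, ⟨.ofNat 0, .ofNat 0, c14x⟩, ⟨.ofNat 1, .ofNat 0, c483x⟩, ⟨.ofNat 0, .negSucc 0, c295x⟩⟩, [666]⟩,
  ⟨⟨⟨c146x, c147x, c786x, c166x⟩, ⟨.ofNat 0, .ofNat 0, c14x⟩, ⟨.ofNat 1, .ofNat 0, c483x⟩, ⟨.ofNat 0, .negSucc 0, c295x⟩⟩, [666]⟩,
  ⟨⟨⟨c147x, c126x, c786x, c166x⟩, ⟨.ofNat 0, .ofNat 0, c14x⟩, ⟨.ofNat 1, .ofNat 0, c483x⟩, ⟨.ofNat 0, .negSucc 0, c295x⟩⟩, [666, 679, 680]⟩,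
  ⟨⟨⟨c176x, c160x, c162x, c170x⟩, ⟨.ofNat 0, .ofNat 0, c468x⟩, ⟨.ofNat 0, .negSucc 0, c788x⟩, ⟨.ofNat 1, .ofNat 0, c789x⟩⟩, [176, 177, 178, 179]⟩,
  ⟨⟨⟨c160x, c169x, c162x, c170x⟩, ⟨.negSucc 0, .ofNat 0, c150x⟩, ⟨.ofNat 0, .negSucc 0, c788x⟩, ⟨.ofNat 0, .ofNat 0, c596x⟩⟩, [175, 176, 178, 179]⟩,
  ⟨⟨⟨c169x, c150x, c162x, c171x⟩, ⟨.negSucc 0, .ofNat 0, c150x⟩, ⟨.ofNat 0, .negSucc 0, c788x⟩, ⟨.ofNat 0, .ofNat 0, c596x⟩⟩, [167, 168, 174, 175, 176]⟩,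
  ⟨⟨⟨c150x, c151x, c162x, c171x⟩, ⟨.ofNat 0, .ofNat 0, c14x⟩, ⟨.ofNat 0, .negSucc 0, c788x⟩, ⟨.negSucc 0, .ofNat 0, c790x⟩⟩, [167, 168, 173, 174]⟩,
  ⟨⟨⟨c177x, c179x, c162x, c180x⟩, ⟨.ofNat 0, .ofNat 0, c14x⟩, ⟨.ofNat 0, .negSucc 0, c788x⟩, ⟨.negSucc 0, .ofNat 0, c790x⟩⟩, [168, 169, 170, 171]⟩,
  ⟨⟨⟨c151x, c177x, c162x, c178x⟩, ⟨.ofNat 0, .ofNat 0, c14x⟩, ⟨.ofNat 0, .negSucc 0, c788x⟩, ⟨.negSucc 0, .ofNat 0, c790x⟩⟩, [168, 170, 171, 172, 173, 174]⟩,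
  ⟨⟨⟨c182x, c181x, c167x, c786x⟩, ⟨.ofNat 0, .ofNat 1, c787x⟩, ⟨.negSucc 0, .ofNat 0, c259x⟩, ⟨.ofNat 0, .ofNat 0, c596x⟩⟩, [159, 160, 161]⟩,
  ⟨⟨⟨c182x, c181x, c786x, c173x⟩, ⟨.ofNat 0, .ofNat 0, c468x⟩, ⟨.negSucc 0, .ofNat 0, c259x⟩, ⟨.ofNat 0, .negSucc 0, c295x⟩⟩, [158, 159]⟩,
  ⟨⟨⟨c181x, c153x, c786x, c173x⟩, ⟨.ofNat 0, .ofNat 0, c468x⟩, ⟨.negSucc 0, .ofNat 0, c259x⟩, ⟨.ofNat 0, .negSucc 0, c295x⟩⟩, [158]⟩,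
  ⟨⟨⟨c153x, c172x, c786x, c173x⟩, ⟨.ofNat 0, .ofNat 0, c468x⟩, ⟨.negSucc 0, .ofNat 0, c259x⟩, ⟨.ofNat 0, .negSucc 0, c295x⟩⟩, [157, 158]⟩,
  ⟨⟨⟨c126x, c141x, c170x, c166x⟩, ⟨.ofNat 0, .ofNat 0, c14x⟩, ⟨.ofNat 1, .ofNat 0, c483x⟩, ⟨.ofNat 0, .negSucc 0, c295x⟩⟩, [666, 679, 680, 681, 682]⟩,
  ⟨⟨⟨c141x, c130x, c171x, c166x⟩, ⟨.ofNat 0, .ofNat 0, c14x⟩, ⟨.ofNat 1, .ofNat 0, c483x⟩, ⟨.ofNat 0, .negSucc 0, c295x⟩⟩, [666, 681, 682, 683, 684]⟩,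
  ⟨⟨⟨c131x, c132x, c180x, c166x⟩, ⟨.ofNat 0, .ofNat 0, c14x⟩, ⟨.ofNat 1, .ofNat 0, c483x⟩, ⟨.ofNat 0, .negSucc 0, c295x⟩⟩, [666, 684, 685, 686, 687]⟩,
  ⟨⟨⟨c132x, c133x, c786x, c166x⟩, ⟨.ofNat 0, .ofNat 0, c14x⟩, ⟨.ofNat 1, .ofNat 0, c483x⟩, ⟨.ofNat 0, .negSucc 0, c295x⟩⟩, [666, 686, 687, 697, 698]⟩,
  ⟨⟨⟨c133x, c143x, c173x, c166x⟩, ⟨.ofNat 0, .ofNat 0, c14x⟩, ⟨.ofNat 1, .ofNat 0, c483x⟩, ⟨.ofNat 0, .negSucc 0, c295x⟩⟩, [666, 697, 698, 699]⟩,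
  ⟨⟨⟨c143x, c148x, c786x, c166x⟩, ⟨.ofNat 0, .ofNat 0, c14x⟩, ⟨.ofNat 1, .ofNat 0, c483x⟩, ⟨.ofNat 0, .negSucc 0, c295x⟩⟩, [666, 698, 699]⟩,
  ⟨⟨⟨c148x, c149x, c786x, c166x⟩, ⟨.ofNat 0, .ofNat 0, c14x⟩, ⟨.ofNat 1, .ofNat 0, c483x⟩, ⟨.ofNat 0, .negSucc 0, c295x⟩⟩, [665, 666]⟩,
  ⟨⟨⟨c130x, c131x, c178x, c166x⟩, ⟨.ofNat 0, .ofNat 0, c14x⟩, ⟨.ofNat 1, .ofNat 0, c483x⟩, ⟨.ofNat 0, .negSucc 0, c295x⟩⟩, [666, 683, 684, 685]⟩,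
  ⟨⟨⟨c149x, c163x, c786x, c168x⟩, ⟨.ofNat 0, .ofNat 0, c14x⟩, ⟨.ofNat 1, .ofNat 0, c483x⟩, ⟨.ofNat 0, .negSucc 0, c295x⟩⟩, [189, 190, 663, 664, 665, 666]⟩,
  ⟨⟨⟨c183x, c176x, c166x, c184x⟩, ⟨.ofNat 0, .ofNat 0, c14x⟩, ⟨.ofNat 1, .ofNat 0, c483x⟩, ⟨.ofNat 0, .negSucc 0, c295x⟩⟩, [190, 650, 651, 652, 653]⟩,
  ⟨⟨⟨c176x, c160x, c166x, c185x⟩, ⟨.ofNat 0, .ofNat 0, c14x⟩, ⟨.ofNat 1, .ofNat 0, c483x⟩, ⟨.ofNat 0, .negSucc 0, c295x⟩⟩, [190, 649, 650, 651]⟩,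
  ⟨⟨⟨c164x, c155x, c166x, c187x⟩, ⟨.ofNat 0, .ofNat 0, c14x⟩, ⟨.ofNat 1, .ofNat 0, c483x⟩, ⟨.ofNat 0, .negSucc 0, c295x⟩⟩, [190, 659, 660, 661]⟩,
  ⟨⟨⟨c150x, c179x, c166x, c189x⟩, ⟨.ofNat 0, .ofNat 0, c468x⟩, ⟨.negSucc 0, .ofNat 0, c259x⟩, ⟨.ofNat 0, .negSucc 0, c295x⟩⟩, [190, 635, 636, 637]⟩,
  ⟨⟨⟨c179x, c182x, c166x, c187x⟩, ⟨.ofNat 0, .ofNat 0, c468x⟩, ⟨.negSucc 0, .ofNat 0, c259x⟩, ⟨.ofNat 0, .negSucc 0, c295x⟩⟩, [190, 632, 633, 634, 635, 636]⟩,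
  ⟨⟨⟨c182x, c172x, c166x, c193x⟩, ⟨.ofNat 0, .ofNat 0, c468x⟩, ⟨.negSucc 0, .ofNat 0, c259x⟩, ⟨.ofNat 0, .negSucc 0, c295x⟩⟩, [190, 631, 632, 633]⟩,
  ⟨⟨⟨c163x, c164x, c166x, c186x⟩, ⟨.ofNat 0, .ofNat 0, c14x⟩, ⟨.ofNat 1, .ofNat 0, c483x⟩, ⟨.ofNat 0, .negSucc 0, c295x⟩⟩, [189, 190, 660, 661, 662, 663, 664]⟩,
  ⟨⟨⟨c155x, c183x, c166x, c188x⟩, ⟨.ofNat 0, .ofNat 0, c14x⟩, ⟨.ofNat 1, .ofNat 0, c483x⟩, ⟨.ofNat 0, .negSucc 0, c295x⟩⟩, [190, 652, 653, 654, 658, 659, 660]⟩,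
  ⟨⟨⟨c190x, c150x, c166x, c191x⟩, ⟨.ofNat 1, .ofNat 0, c791x⟩, ⟨.ofNat 0, .ofNat 0, c785x⟩, ⟨.ofNat 0, .negSucc 0, c295x⟩⟩, [190, 636, 637, 638, 640, 641]⟩,
  ⟨⟨⟨c160x, c190x, c166x, c192x⟩, ⟨.ofNat 1, .ofNat 0, c791x⟩, ⟨.ofNat 0, .ofNat 0, c785x⟩, ⟨.ofNat 0, .negSucc 0, c295x⟩⟩, [190, 640, 641, 642, 648, 649, 650]⟩,
  ⟨⟨⟨c183x, c200x, c189x, c188x⟩, ⟨.ofNat 0, .ofNat 0, c14x⟩, ⟨.ofNat 1, .ofNat 0, c483x⟩, ⟨.ofNat 0, .negSucc 0, c295x⟩⟩, [653, 654, 655, 656, 658]⟩,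
  ⟨⟨⟨c158x, c201x, c199x, c202x⟩, ⟨.ofNat 0, .ofNat 0, c14x⟩, ⟨.ofNat 1, .ofNat 0, c483x⟩, ⟨.ofNat 0, .negSucc 0, c295x⟩⟩, [645, 646, 647, 648]⟩,
  ⟨⟨⟨c150x, c151x, c199x, c191x⟩, ⟨.ofNat 0, .ofNat 0, c468x⟩, ⟨.negSucc 0, .ofNat 0, c259x⟩, ⟨.ofNat 0, .negSucc 0, c295x⟩⟩, [637, 638, 639, 640]⟩,
  ⟨⟨⟨c172x, c174x, c166x, c194x⟩, ⟨.ofNat 0, .ofNat 0, c468x⟩, ⟨.negSucc 0, .ofNat 0, c259x⟩, ⟨.ofNat 0, .negSucc 0, c295x⟩⟩, [190, 628, 629, 630, 631, 632]⟩,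
  ⟨⟨⟨c174x, c175x, c166x, c186x⟩, ⟨.ofNat 0, .ofNat 0, c468x⟩, ⟨.negSucc 0, .ofNat 0, c259x⟩, ⟨.ofNat 0, .negSucc 0, c295x⟩⟩, [190, 191, 192, 627, 628, 629]⟩,
  ⟨⟨⟨c195x, c196x, c184x, c189x⟩, ⟨.ofNat 0, .ofNat 0, c468x⟩, ⟨.negSucc 0, .ofNat 0, c259x⟩, ⟨.ofNat 0, .negSucc 0, c295x⟩⟩, [201, 202, 203, 204]⟩,
  ⟨⟨⟨c197x, c198x, c185x, c199x⟩, ⟨.ofNat 0, .ofNat 0, c468x⟩, ⟨.negSucc 0, .ofNat 0, c259x⟩, ⟨.ofNat 0, .negSucc 0, c295x⟩⟩, [204, 205, 206, 207, 208]⟩,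
  ⟨⟨⟨c175x, c203x, c168x, c204x⟩, ⟨.ofNat 0, .ofNat 0, c468x⟩, ⟨.negSucc 0, .ofNat 0, c259x⟩, ⟨.ofNat 0, .negSucc 0, c295x⟩⟩, [191, 192, 193, 194, 625, 626, 627, 628]⟩,
  ⟨⟨⟨c196x, c205x, c184x, c194x⟩, ⟨.ofNat 0, .ofNat 0, c468x⟩, ⟨.negSucc 0, .ofNat 0, c259x⟩, ⟨.ofNat 0, .negSucc 0, c295x⟩⟩, [199, 200, 201, 202, 204]⟩,
  ⟨⟨⟨c210x, c197x, c184x, c199x⟩, ⟨.ofNat 0, .ofNat 0, c468x⟩, ⟨.negSucc 0, .ofNat 0, c259x⟩, ⟨.ofNat 0, .negSucc 0, c295x⟩⟩, [204, 205, 208, 209]⟩,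
  ⟨⟨⟨c211x, c212x, c189x, c199x⟩, ⟨.ofNat 0, .ofNat 0, c468x⟩, ⟨.negSucc 0, .ofNat 0, c259x⟩, ⟨.ofNat 0, .negSucc 0, c295x⟩⟩, [217, 218, 219, 220]⟩,
  ⟨⟨⟨c200x, c156x, c194x, c188x⟩, ⟨.ofNat 0, .ofNat 0, c14x⟩, ⟨.ofNat 1, .ofNat 0, c483x⟩, ⟨.ofNat 0, .negSucc 0, c295x⟩⟩, [655, 656, 657, 658]⟩,
  ⟨⟨⟨c176x, c160x, c199x, c192x⟩, ⟨.ofNat 0, .ofNat 0, c14x⟩, ⟨.ofNat 1, .ofNat 0, c483x⟩, ⟨.ofNat 0, .negSucc 0, c295x⟩⟩, [642, 643, 648, 649]⟩,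
  ⟨⟨⟨c201x, c176x, c199x, c206x⟩, ⟨.ofNat 0, .ofNat 0, c14x⟩, ⟨.ofNat 1, .ofNat 0, c483x⟩, ⟨.ofNat 0, .negSucc 0, c295x⟩⟩, [642, 643, 644, 645, 646, 648]⟩,
  ⟨⟨⟨c205x, c210x, c184x, c208x⟩, ⟨.ofNat 0, .ofNat 0, c468x⟩, ⟨.negSucc 0, .ofNat 0, c259x⟩, ⟨.ofNat 0, .negSucc 0, c295x⟩⟩, [198, 199, 200, 204, 208, 209, 210, 624]⟩,
  ⟨⟨⟨c203x, c207x, c186x, c208x⟩, ⟨.ofNat 0, .ofNat 0, c468x⟩, ⟨.negSucc 0, .ofNat 0, c259x⟩, ⟨.ofNat 0, .negSucc 0, c295x⟩⟩, [193, 194, 195, 624, 625, 626]⟩,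
  ⟨⟨⟨c207x, c209x, c187x, c208x⟩, ⟨.ofNat 0, .ofNat 0, c468x⟩, ⟨.negSucc 0, .ofNat 0, c259x⟩, ⟨.ofNat 0, .negSucc 0, c295x⟩⟩, [194, 195, 196, 197, 198, 624]⟩,
  ⟨⟨⟨c209x, c205x, c188x, c208x⟩, ⟨.ofNat 0, .ofNat 0, c468x⟩, ⟨.negSucc 0, .ofNat 0, c259x⟩, ⟨.ofNat 0, .negSucc 0, c295x⟩⟩, [197, 198, 199, 624]⟩,
  ⟨⟨⟨c210x, c216x, c202x, c208x⟩, ⟨.ofNat 0, .ofNat 0, c468x⟩, ⟨.negSucc 0, .ofNat 0, c259x⟩, ⟨.ofNat 0, .negSucc 0, c295x⟩⟩, [209, 210, 211, 212, 624]⟩,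
  ⟨⟨⟨c216x, c197x, c206x, c208x⟩, ⟨.ofNat 0, .ofNat 0, c468x⟩, ⟨.negSucc 0, .ofNat 0, c259x⟩, ⟨.ofNat 0, .negSucc 0, c295x⟩⟩, [211, 212, 213, 624]⟩,
  ⟨⟨⟨c197x, c217x, c192x, c208x⟩, ⟨.ofNat 0, .ofNat 0, c468x⟩, ⟨.negSucc 0, .ofNat 0, c259x⟩, ⟨.ofNat 0, .negSucc 0, c295x⟩⟩, [212, 213, 214, 215, 624]⟩,
  ⟨⟨⟨c212x, c213x, c189x, c208x⟩, ⟨.ofNat 0, .ofNat 0, c468x⟩, ⟨.negSucc 0, .ofNat 0, c259x⟩, ⟨.ofNat 0, .negSucc 0, c295x⟩⟩, [216, 217, 218, 220, 221, 222, 624]⟩,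
  ⟨⟨⟨c217x, c212x, c191x, c208x⟩, ⟨.ofNat 0, .ofNat 0, c468x⟩, ⟨.negSucc 0, .ofNat 0, c259x⟩, ⟨.ofNat 0, .negSucc 0, c295x⟩⟩, [214, 215, 216, 217, 624]⟩,
  ⟨⟨⟨c213x, c214x, c187x, c208x⟩, ⟨.ofNat 0, .ofNat 0, c468x⟩, ⟨.negSucc 0, .ofNat 0, c259x⟩, ⟨.ofNat 0, .negSucc 0, c295x⟩⟩, [221, 222, 223, 624]⟩,
  ⟨⟨⟨c214x, c215x, c193x, c208x⟩, ⟨.ofNat 0, .ofNat 0, c468x⟩, ⟨.negSucc 0, .ofNat 0, c259x⟩, ⟨.ofNat 0, .negSucc 0, c295x⟩⟩, [222, 223, 224, 225, 226, 624]⟩,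
  ⟨⟨⟨c215x, c218x, c194x, c208x⟩, ⟨.ofNat 0, .ofNat 0, c468x⟩, ⟨.negSucc 0, .ofNat 0, c259x⟩, ⟨.ofNat 0, .negSucc 0, c295x⟩⟩, [225, 226, 227, 624]⟩,
  ⟨⟨⟨c218x, c219x, c186x, c208x⟩, ⟨.ofNat 0, .ofNat 0, c468x⟩, ⟨.negSucc 0, .ofNat 0, c259x⟩, ⟨.ofNat 0, .negSucc 0, c295x⟩⟩, [226, 227, 228, 229, 230, 623, 624]⟩,
  ⟨⟨⟨c219x, c232x, c204x, c233x⟩, ⟨.ofNat 0, .ofNat 0, c468x⟩, ⟨.negSucc 0, .ofNat 0, c259x⟩, ⟨.ofNat 0, .negSucc 0, c295x⟩⟩, [229, 230, 621, 622, 623, 624]⟩,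
  ⟨⟨⟨c232x, c220x, c204x, c234x⟩, ⟨.ofNat 0, .ofNat 0, c468x⟩, ⟨.negSucc 0, .ofNat 0, c259x⟩, ⟨.ofNat 0, .negSucc 0, c295x⟩⟩, [230, 618, 619, 620, 621, 622]⟩,
  ⟨⟨⟨c220x, c221x, c204x, c222x⟩, ⟨.ofNat 0, .ofNat 0, c468x⟩, ⟨.negSucc 0, .ofNat 0, c259x⟩, ⟨.ofNat 0, .negSucc 0, c295x⟩⟩, [230, 617, 618, 619]⟩,
  ⟨⟨⟨c224x, c226x, c204x, c227x⟩, ⟨.ofNat 0, .ofNat 0, c468x⟩, ⟨.negSucc 0, .ofNat 0, c259x⟩, ⟨.ofNat 0, .negSucc 0, c295x⟩⟩, [230, 603, 604, 605]⟩,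
  ⟨⟨⟨c226x, c259x, c204x, c229x⟩, ⟨.ofNat 0, .ofNat 0, c468x⟩, ⟨.negSucc 0, .ofNat 0, c259x⟩, ⟨.ofNat 0, .negSucc 0, c295x⟩⟩, [230, 602, 603, 604]⟩,
  ⟨⟨⟨c223x, c224x, c204x, c225x⟩, ⟨.ofNat 0, .ofNat 0, c468x⟩, ⟨.negSucc 0, .ofNat 0, c259x⟩, ⟨.ofNat 0, .negSucc 0, c295x⟩⟩, [230, 604, 605, 606, 607]⟩,
  ⟨⟨⟨c221x, c223x, c204x, c235x⟩, ⟨.ofNat 0, .ofNat 0, c468x⟩, ⟨.negSucc 0, .ofNat 0, c259x⟩, ⟨.ofNat 0, .negSucc 0, c295x⟩⟩, [230, 606, 607, 608, 612, 616, 617, 618]⟩,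
  ⟨⟨⟨c259x, c228x, c204x, c229x⟩, ⟨.negSucc 0, .ofNat 0, c239x⟩, ⟨.ofNat 0, .ofNat 0, c14x⟩, ⟨.ofNat 0, .negSucc 0, c295x⟩⟩, [230, 601, 602]⟩,
  ⟨⟨⟨c228x, c239x, c204x, c231x⟩, ⟨.negSucc 0, .ofNat 0, c239x⟩, ⟨.ofNat 0, .ofNat 0, c14x⟩, ⟨.ofNat 0, .negSucc 0, c295x⟩⟩, [230, 600, 601, 602]⟩,
  ⟨⟨⟨c239x, c230x, c204x, c231x⟩, ⟨.ofNat 0, .ofNat 0, c14x⟩, ⟨.ofNat 1, .ofNat 0, c493x⟩, ⟨.ofNat 0, .negSucc 0, c295x⟩⟩, [230, 599, 600]⟩,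
  ⟨⟨⟨c230x, c241x, c204x, c240x⟩, ⟨.ofNat 0, .ofNat 0, c14x⟩, ⟨.ofNat 1, .ofNat 0, c493x⟩, ⟨.ofNat 0, .negSucc 0, c295x⟩⟩, [230, 594, 595, 596, 598, 599, 600]⟩,
  ⟨⟨⟨c241x, c242x, c204x, c234x⟩, ⟨.ofNat 0, .ofNat 0, c14x⟩, ⟨.ofNat 1, .ofNat 0, c493x⟩, ⟨.ofNat 0, .negSucc 0, c295x⟩⟩, [230, 593, 594, 595]⟩,
  ⟨⟨⟨c242x, c243x, c204x, c246x⟩, ⟨.ofNat 0, .ofNat 0, c14x⟩, ⟨.ofNat 1, .ofNat 0, c493x⟩, ⟨.ofNat 0, .negSucc 0, c295x⟩⟩, [230, 590, 591, 592, 593, 594]⟩,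
  ⟨⟨⟨c243x, c244x, c204x, c237x⟩, ⟨.ofNat 0, .ofNat 0, c14x⟩, ⟨.ofNat 1, .ofNat 0, c493x⟩, ⟨.ofNat 0, .negSucc 0, c295x⟩⟩, [230, 589, 590, 591]⟩,
  ⟨⟨⟨c244x, c245x, c204x, c233x⟩, ⟨.ofNat 0, .ofNat 0, c14x⟩, ⟨.ofNat 1, .ofNat 0, c493x⟩, ⟨.ofNat 0, .negSucc 0, c295x⟩⟩, [230, 231, 232, 587, 588, 589, 590]⟩,
  ⟨⟨⟨c236x, c221x, c237x, c235x⟩, ⟨.ofNat 0, .ofNat 0, c468x⟩, ⟨.negSucc 0, .ofNat 0, c259x⟩, ⟨.ofNat 0, .negSucc 0, c295x⟩⟩, [612, 614, 615, 616, 617]⟩,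
  ⟨⟨⟨c239x, c230x, c238x, c240x⟩, ⟨.ofNat 0, .ofNat 0, c14x⟩, ⟨.ofNat 1, .ofNat 0, c493x⟩, ⟨.ofNat 0, .negSucc 0, c295x⟩⟩, [596, 597, 598, 599]⟩,
  ⟨⟨⟨c245x, c249x, c208x, c250x⟩, ⟨.ofNat 0, .ofNat 0, c14x⟩, ⟨.ofNat 1, .ofNat 0, c493x⟩, ⟨.ofNat 0, .negSucc 0, c295x⟩⟩, [231, 232, 233, 234, 585, 586, 587, 588]⟩,
  ⟨⟨⟨c223x, c226x, c238x, c235x⟩, ⟨.ofNat 0, .ofNat 0, c468x⟩, ⟨.negSucc 0, .ofNat 0, c259x⟩, ⟨.ofNat 0, .negSucc 0, c295x⟩⟩, [607, 608, 611, 612]⟩,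
  ⟨⟨⟨c226x, c259x, c238x, c260x⟩, ⟨.ofNat 0, .ofNat 0, c468x⟩, ⟨.negSucc 0, .ofNat 0, c259x⟩, ⟨.ofNat 0, .negSucc 0, c295x⟩⟩, [608, 609, 610, 611, 612]⟩,
  ⟨⟨⟨c258x, c236x, c240x, c235x⟩, ⟨.ofNat 0, .ofNat 0, c468x⟩, ⟨.negSucc 0, .ofNat 0, c259x⟩, ⟨.ofNat 0, .negSucc 0, c295x⟩⟩, [612, 613, 614, 615]⟩,
  ⟨⟨⟨c263x, c253x, c222x, c262x⟩, ⟨.ofNat 0, .ofNat 0, c14x⟩, ⟨.ofNat 1, .ofNat 0, c493x⟩, ⟨.ofNat 0, .negSucc 0, c295x⟩⟩, [236, 237, 238, 242, 243, 244, 584]⟩,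
  ⟨⟨⟨c251x, c252x, c222x, c237x⟩, ⟨.ofNat 0, .ofNat 0, c14x⟩, ⟨.ofNat 1, .ofNat 0, c493x⟩, ⟨.ofNat 0, .negSucc 0, c295x⟩⟩, [238, 239, 240, 241]⟩,
  ⟨⟨⟨c247x, c248x, c227x, c238x⟩, ⟨.ofNat 0, .ofNat 0, c14x⟩, ⟨.ofNat 1, .ofNat 0, c493x⟩, ⟨.ofNat 0, .negSucc 0, c295x⟩⟩, [248, 250, 251, 252, 253, 254]⟩,
  ⟨⟨⟨c248x, c255x, c229x, c238x⟩, ⟨.ofNat 0, .ofNat 0, c14x⟩, ⟨.ofNat 1, .ofNat 0, c493x⟩, ⟨.ofNat 0, .negSucc 0, c295x⟩⟩, [247, 248, 253, 254]⟩,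
  ⟨⟨⟨c256x, c257x, c231x, c238x⟩, ⟨.ofNat 0, .ofNat 0, c14x⟩, ⟨.ofNat 1, .ofNat 0, c493x⟩, ⟨.ofNat 0, .negSucc 0, c295x⟩⟩, [256, 257, 258, 259]⟩,
  ⟨⟨⟨c253x, c251x, c222x, c240x⟩, ⟨.ofNat 0, .ofNat 0, c14x⟩, ⟨.ofNat 1, .ofNat 0, c493x⟩, ⟨.ofNat 0, .negSucc 0, c295x⟩⟩, [238, 240, 241, 242, 243]⟩,
  ⟨⟨⟨c254x, c247x, c225x, c238x⟩, ⟨.ofNat 0, .ofNat 0, c14x⟩, ⟨.ofNat 1, .ofNat 0, c493x⟩, ⟨.ofNat 0, .negSucc 0, c295x⟩⟩, [248, 249, 250, 251]⟩,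
  ⟨⟨⟨c255x, c264x, c229x, c262x⟩, ⟨.ofNat 0, .ofNat 0, c14x⟩, ⟨.ofNat 1, .ofNat 0, c493x⟩, ⟨.ofNat 0, .negSucc 0, c295x⟩⟩, [246, 247, 248, 254, 255, 256, 584]⟩,
  ⟨⟨⟨c264x, c256x, c231x, c262x⟩, ⟨.ofNat 0, .ofNat 0, c14x⟩, ⟨.ofNat 1, .ofNat 0, c493x⟩, ⟨.ofNat 0, .negSucc 0, c295x⟩⟩, [255, 256, 258, 259, 260, 584]⟩,
  ⟨⟨⟨c249x, c261x, c233x, c262x⟩, ⟨.ofNat 0, .ofNat 0, c14x⟩, ⟨.ofNat 1, .ofNat 0, c493x⟩, ⟨.ofNat 0, .negSucc 0, c295x⟩⟩, [233, 234, 235, 236, 584, 585, 586]⟩,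
  ⟨⟨⟨c261x, c263x, c234x, c262x⟩, ⟨.ofNat 0, .ofNat 0, c14x⟩, ⟨.ofNat 1, .ofNat 0, c493x⟩, ⟨.ofNat 0, .negSucc 0, c295x⟩⟩, [235, 236, 237, 584]⟩,
  ⟨⟨⟨c256x, c265x, c240x, c262x⟩, ⟨.ofNat 0, .ofNat 0, c14x⟩, ⟨.ofNat 1, .ofNat 0, c493x⟩, ⟨.ofNat 0, .negSucc 0, c295x⟩⟩, [259, 260, 261, 584]⟩,
  ⟨⟨⟨c265x, c266x, c234x, c262x⟩, ⟨.ofNat 0, .ofNat 0, c14x⟩, ⟨.ofNat 1, .ofNat 0, c493x⟩, ⟨.ofNat 0, .negSucc 0, c295x⟩⟩, [260, 261, 262, 263, 264, 584]⟩,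
  ⟨⟨⟨c266x, c267x, c246x, c262x⟩, ⟨.ofNat 0, .ofNat 0, c14x⟩, ⟨.ofNat 1, .ofNat 0, c493x⟩, ⟨.ofNat 0, .negSucc 0, c295x⟩⟩, [263, 264, 265, 584]⟩,
  ⟨⟨⟨c267x, c268x, c237x, c262x⟩, ⟨.ofNat 0, .ofNat 0, c14x⟩, ⟨.ofNat 1, .ofNat 0, c493x⟩, ⟨.ofNat 0, .negSucc 0, c295x⟩⟩, [264, 265, 266, 267, 268, 584]⟩,
  ⟨⟨⟨c268x, c269x, c233x, c262x⟩, ⟨.ofNat 0, .ofNat 0, c14x⟩, ⟨.ofNat 1, .ofNat 0, c493x⟩, ⟨.ofNat 0, .negSucc 0, c295x⟩⟩, [267, 268, 269, 270, 583, 584]⟩,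
  ⟨⟨⟨c253x, c248x, c235x, c262x⟩, ⟨.ofNat 0, .ofNat 0, c14x⟩, ⟨.ofNat 1, .ofNat 0, c493x⟩, ⟨.ofNat 0, .negSucc 0, c295x⟩⟩, [243, 244, 245, 246, 584]⟩,
  ⟨⟨⟨c248x, c255x, c260x, c262x⟩, ⟨.ofNat 0, .ofNat 0, c14x⟩, ⟨.ofNat 1, .ofNat 0, c493x⟩, ⟨.ofNat 0, .negSucc 0, c295x⟩⟩, [245, 246, 247, 584]⟩,
  ⟨⟨⟨c270x, c271x, c250x, c272x⟩, ⟨.ofNat 0, .ofNat 0, c14x⟩, ⟨.ofNat 1, .ofNat 0, c493x⟩, ⟨.ofNat 0, .negSucc 0, c295x⟩⟩, [270, 570, 571, 572, 573]⟩,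
  ⟨⟨⟨c271x, c273x, c250x, c274x⟩, ⟨.ofNat 0, .ofNat 0, c14x⟩, ⟨.ofNat 1, .ofNat 0, c493x⟩, ⟨.ofNat 0, .negSucc 0, c295x⟩⟩, [270, 569, 570, 571]⟩,
  ⟨⟨⟨c269x, c278x, c250x, c295x⟩, ⟨.ofNat 0, .ofNat 0, c14x⟩, ⟨.ofNat 1, .ofNat 0, c493x⟩, ⟨.ofNat 0, .negSucc 0, c295x⟩⟩, [269, 270, 583, 584]⟩,
  ⟨⟨⟨c278x, c280x, c250x, c295x⟩, ⟨.ofNat 0, .ofNat 0, c14x⟩, ⟨.ofNat 1, .ofNat 0, c493x⟩, ⟨.ofNat 0, .negSucc 0, c295x⟩⟩, [270]⟩,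
  ⟨⟨⟨c275x, c276x, c250x, c277x⟩, ⟨.ofNat 0, .ofNat 0, c468x⟩, ⟨.negSucc 0, .ofNat 0, c325x⟩, ⟨.ofNat 0, .negSucc 0, c295x⟩⟩, [270, 555, 556, 557]⟩,
  ⟨⟨⟨c282x, c283x, c250x, c284x⟩, ⟨.ofNat 0, .ofNat 0, c468x⟩, ⟨.negSucc 0, .ofNat 0, c325x⟩, ⟨.ofNat 0, .negSucc 0, c295x⟩⟩, [270, 551, 552, 553]⟩,
  ⟨⟨⟨c280x, c270x, c250x, c295x⟩, ⟨.ofNat 0, .ofNat 0, c14x⟩, ⟨.ofNat 1, .ofNat 0, c493x⟩, ⟨.ofNat 0, .negSucc 0, c295x⟩⟩, [270, 572, 573, 574]⟩,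
  ⟨⟨⟨c273x, c289x, c250x, c295x⟩, ⟨.ofNat 1, .ofNat 0, c792x⟩, ⟨.ofNat 0, .ofNat 0, c785x⟩, ⟨.ofNat 0, .negSucc 0, c295x⟩⟩, [270, 568, 569, 570]⟩,
  ⟨⟨⟨c289x, c275x, c250x, c295x⟩, ⟨.ofNat 1, .ofNat 0, c792x⟩, ⟨.ofNat 0, .ofNat 0, c785x⟩, ⟨.ofNat 0, .negSucc 0, c295x⟩⟩, [270, 556, 557, 558]⟩,
  ⟨⟨⟨c276x, c282x, c250x, c295x⟩, ⟨.ofNat 0, .ofNat 0, c468x⟩, ⟨.negSucc 0, .ofNat 0, c325x⟩, ⟨.ofNat 0, .negSucc 0, c295x⟩⟩, [270, 552, 553, 555, 556]⟩,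
  ⟨⟨⟨c283x, c285x, c250x, c295x⟩, ⟨.ofNat 0, .ofNat 0, c468x⟩, ⟨.negSucc 0, .ofNat 0, c325x⟩, ⟨.ofNat 0, .negSucc 0, c295x⟩⟩, [270, 551, 552]⟩,
  ⟨⟨⟨c285x, c287x, c250x, c295x⟩, ⟨.ofNat 0, .ofNat 0, c468x⟩, ⟨.negSucc 0, .ofNat 0, c325x⟩, ⟨.ofNat 0, .negSucc 0, c295x⟩⟩, [270, 271, 272]⟩,
  ⟨⟨⟨c270x, c292x, c277x, c295x⟩, ⟨.ofNat 0, .ofNat 0, c14x⟩, ⟨.ofNat 1, .ofNat 0, c493x⟩, ⟨.ofNat 0, .negSucc 0, c295x⟩⟩, [573, 574, 575]⟩,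
  ⟨⟨⟨c287x, c297x, c262x, c295x⟩, ⟨.ofNat 0, .ofNat 0, c468x⟩, ⟨.negSucc 0, .ofNat 0, c325x⟩, ⟨.ofNat 0, .negSucc 0, c295x⟩⟩, [271, 272, 273]⟩,
  ⟨⟨⟨c299x, c300x, c272x, c277x⟩, ⟨.ofNat 0, .ofNat 0, c468x⟩, ⟨.negSucc 0, .ofNat 0, c325x⟩, ⟨.ofNat 0, .negSucc 0, c295x⟩⟩, [281, 282, 283, 284]⟩,
  ⟨⟨⟨c300x, c301x, c272x, c295x⟩, ⟨.ofNat 0, .ofNat 0, c468x⟩, ⟨.negSucc 0, .ofNat 0, c325x⟩, ⟨.ofNat 0, .negSucc 0, c295x⟩⟩, [281, 282, 284]⟩,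
  ⟨⟨⟨c301x, c302x, c272x, c295x⟩, ⟨.ofNat 0, .ofNat 0, c468x⟩, ⟨.negSucc 0, .ofNat 0, c325x⟩, ⟨.ofNat 0, .negSucc 0, c295x⟩⟩, [284, 288, 289]⟩,
  ⟨⟨⟨c302x, c303x, c272x, c295x⟩, ⟨.ofNat 0, .ofNat 0, c468x⟩, ⟨.negSucc 0, .ofNat 0, c325x⟩, ⟨.ofNat 0, .negSucc 0, c295x⟩⟩, [284, 285, 288, 289]⟩,
  ⟨⟨⟨c303x, c304x, c274x, c295x⟩, ⟨.ofNat 0, .ofNat 0, c468x⟩, ⟨.negSucc 0, .ofNat 0, c325x⟩, ⟨.ofNat 0, .negSucc 0, c295x⟩⟩, [284, 285, 286, 287, 288]⟩,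
  ⟨⟨⟨c305x, c306x, c277x, c295x⟩, ⟨.ofNat 0, .ofNat 0, c468x⟩, ⟨.negSucc 0, .ofNat 0, c325x⟩, ⟨.ofNat 0, .negSucc 0, c295x⟩⟩, [297, 298, 299, 300]⟩,
  ⟨⟨⟨c306x, c313x, c277x, c295x⟩, ⟨.ofNat 0, .ofNat 0, c468x⟩, ⟨.negSucc 0, .ofNat 0, c325x⟩, ⟨.ofNat 0, .negSucc 0, c295x⟩⟩, [297, 298, 300, 301]⟩,
  ⟨⟨⟨c314x, c315x, c284x, c295x⟩, ⟨.ofNat 0, .ofNat 0, c468x⟩, ⟨.negSucc 0, .ofNat 0, c325x⟩, ⟨.ofNat 0, .negSucc 0, c295x⟩⟩, [303, 304, 305]⟩,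
  ⟨⟨⟨c269x, c278x, c295x, c279x⟩, ⟨.ofNat 0, .ofNat 1, c793x⟩, ⟨.ofNat 1, .ofNat 0, c493x⟩, ⟨.ofNat 0, .ofNat 0, c14x⟩⟩, [580, 581, 582, 583]⟩,
  ⟨⟨⟨c278x, c280x, c295x, c281x⟩, ⟨.ofNat 0, .ofNat 1, c793x⟩, ⟨.ofNat 1, .ofNat 0, c493x⟩, ⟨.ofNat 0, .ofNat 0, c14x⟩⟩, [579, 580, 581]⟩,
  ⟨⟨⟨c280x, c270x, c295x, c794x⟩, ⟨.ofNat 0, .ofNat 1, c793x⟩, ⟨.ofNat 1, .ofNat 0, c493x⟩, ⟨.ofNat 0, .ofNat 0, c14x⟩⟩, [579, 580]⟩,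
  ⟨⟨⟨c270x, c292x, c295x, c794x⟩, ⟨.ofNat 0, .ofNat 1, c793x⟩, ⟨.ofNat 1, .ofNat 0, c493x⟩, ⟨.ofNat 0, .ofNat 0, c14x⟩⟩, [575, 576]⟩,
  ⟨⟨⟨c292x, c307x, c286x, c794x⟩, ⟨.ofNat 0, .ofNat 1, c793x⟩, ⟨.ofNat 1, .ofNat 0, c493x⟩, ⟨.ofNat 0, .ofNat 0, c14x⟩⟩, [575, 576, 577]⟩,
  ⟨⟨⟨c280x, c270x, c794x, c288x⟩, ⟨.ofNat 0, .ofNat 0, c468x⟩, ⟨.ofNat 1, .ofNat 0, c493x⟩, ⟨.ofNat 0, .ofNat 1, c795x⟩⟩, [578, 579]⟩,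
  ⟨⟨⟨c270x, c292x, c794x, c288x⟩, ⟨.ofNat 0, .ofNat 0, c468x⟩, ⟨.ofNat 1, .ofNat 0, c493x⟩, ⟨.ofNat 0, .ofNat 1, c795x⟩⟩, [578]⟩,
  ⟨⟨⟨c292x, c307x, c794x, c288x⟩, ⟨.ofNat 0, .ofNat 0, c468x⟩, ⟨.ofNat 1, .ofNat 0, c493x⟩, ⟨.ofNat 0, .ofNat 1, c795x⟩⟩, [577, 578]⟩,
  ⟨⟨⟨c293x, c294x, c295x, c296x⟩, ⟨.ofNat 0, .ofNat 0, c14x⟩, ⟨.ofNat 0, .negSucc 0, c796x⟩, ⟨.negSucc 0, .ofNat 0, c273x⟩⟩, [565, 566, 567, 568]⟩,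
  ⟨⟨⟨c294x, c271x, c295x, c309x⟩, ⟨.ofNat 0, .ofNat 0, c14x⟩, ⟨.ofNat 0, .negSucc 0, c796x⟩, ⟨.negSucc 0, .ofNat 0, c273x⟩⟩, [562, 563, 564, 565, 566, 568]⟩,
  ⟨⟨⟨c271x, c273x, c295x, c291x⟩, ⟨.ofNat 0, .ofNat 0, c14x⟩, ⟨.ofNat 0, .negSucc 0, c796x⟩, ⟨.negSucc 0, .ofNat 0, c273x⟩⟩, [562, 563, 568, 569]⟩,
  ⟨⟨⟨c289x, c275x, c295x, c290x⟩, ⟨.ofNat 1, .ofNat 0, c792x⟩, ⟨.ofNat 0, .negSucc 0, c796x⟩, ⟨.ofNat 0, .ofNat 0, c14x⟩⟩, [557, 558, 560, 561]⟩,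
  ⟨⟨⟨c273x, c289x, c295x, c291x⟩, ⟨.ofNat 1, .ofNat 0, c792x⟩, ⟨.ofNat 0, .negSucc 0, c796x⟩, ⟨.ofNat 0, .ofNat 0, c14x⟩⟩, [560, 561, 562, 568, 569]⟩,
  ⟨⟨⟨c275x, c308x, c295x, c290x⟩, ⟨.ofNat 0, .ofNat 0, c468x⟩, ⟨.ofNat 0, .negSucc 0, c796x⟩, ⟨.ofNat 1, .ofNat 0, c797x⟩⟩, [557, 558, 559, 560]⟩,
  ⟨⟨⟨c276x, c282x, c295x, c281x⟩, ⟨.ofNat 0, .negSucc 0, c794x⟩, ⟨.negSucc 0, .ofNat 0, c325x⟩, ⟨.ofNat 0, .ofNat 0, c14x⟩⟩, [553, 554, 555]⟩,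
  ⟨⟨⟨c283x, c285x, c295x, c286x⟩, ⟨.ofNat 0, .negSucc 0, c794x⟩, ⟨.negSucc 0, .ofNat 0, c325x⟩, ⟨.ofNat 0, .ofNat 0, c14x⟩⟩, [548, 549, 550, 551]⟩,
  ⟨⟨⟨c285x, c287x, c295x, c279x⟩, ⟨.ofNat 0, .negSucc 0, c794x⟩, ⟨.negSucc 0, .ofNat 0, c325x⟩, ⟨.ofNat 0, .ofNat 0, c14x⟩⟩, [547, 548, 549]⟩,
  ⟨⟨⟨c287x, c297x, c295x, c794x⟩, ⟨.ofNat 0, .negSucc 0, c794x⟩, ⟨.negSucc 0, .ofNat 0, c325x⟩, ⟨.ofNat 0, .ofNat 0, c14x⟩⟩, [273, 274, 547, 548]⟩,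
  ⟨⟨⟨c300x, c301x, c295x, c286x⟩, ⟨.ofNat 0, .negSucc 0, c794x⟩, ⟨.negSucc 0, .ofNat 0, c325x⟩, ⟨.ofNat 0, .ofNat 0, c14x⟩⟩, [279, 280, 281]⟩,
  ⟨⟨⟨c301x, c302x, c295x, c794x⟩, ⟨.ofNat 0, .negSucc 0, c794x⟩, ⟨.negSucc 0, .ofNat 0, c325x⟩, ⟨.ofNat 0, .ofNat 0, c14x⟩⟩, [279, 280, 288, 289]⟩,
  ⟨⟨⟨c306x, c313x, c295x, c794x⟩, ⟨.ofNat 0, .negSucc 0, c794x⟩, ⟨.negSucc 0, .ofNat 0, c325x⟩, ⟨.ofNat 0, .ofNat 0, c14x⟩⟩, [297, 298, 301, 302]⟩,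
  ⟨⟨⟨c314x, c315x, c295x, c794x⟩, ⟨.ofNat 0, .negSucc 0, c794x⟩, ⟨.negSucc 0, .ofNat 0, c325x⟩, ⟨.ofNat 0, .ofNat 0, c14x⟩⟩, [302, 303, 305, 306]⟩,
  ⟨⟨⟨c297x, c310x, c279x, c794x⟩, ⟨.ofNat 0, .negSucc 0, c794x⟩, ⟨.negSucc 0, .ofNat 0, c325x⟩, ⟨.ofNat 0, .ofNat 0, c14x⟩⟩, [273, 274, 275]⟩,
  ⟨⟨⟨c310x, c312x, c281x, c794x⟩, ⟨.ofNat 0, .negSucc 0, c794x⟩, ⟨.negSucc 0, .ofNat 0, c325x⟩, ⟨.ofNat 0, .ofNat 0, c14x⟩⟩, [274, 275, 276, 277]⟩,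
  ⟨⟨⟨c313x, c314x, c281x, c794x⟩, ⟨.ofNat 0, .negSucc 0, c794x⟩, ⟨.negSucc 0, .ofNat 0, c325x⟩, ⟨.ofNat 0, .ofNat 0, c14x⟩⟩, [301, 302, 303]⟩,
  ⟨⟨⟨c316x, c317x, c279x, c794x⟩, ⟨.ofNat 0, .negSucc 0, c794x⟩, ⟨.negSucc 0, .ofNat 0, c325x⟩, ⟨.ofNat 0, .ofNat 0, c14x⟩⟩, [306, 307, 308, 309]⟩,
  ⟨⟨⟨c287x, c297x, c794x, c298x⟩, ⟨.ofNat 0, .ofNat 0, c14x⟩, ⟨.negSucc 0, .ofNat 0, c325x⟩, ⟨.ofNat 0, .ofNat 1, c795x⟩⟩, [545, 546, 547]⟩,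
  ⟨⟨⟨c315x, c316x, c286x, c794x⟩, ⟨.ofNat 0, .negSucc 0, c794x⟩, ⟨.negSucc 0, .ofNat 0, c325x⟩, ⟨.ofNat 0, .ofNat 0, c14x⟩⟩, [305, 306, 307]⟩,
  ⟨⟨⟨c297x, c310x, c794x, c311x⟩, ⟨.ofNat 0, .ofNat 0, c14x⟩, ⟨.negSucc 0, .ofNat 0, c325x⟩, ⟨.ofNat 0, .ofNat 1, c795x⟩⟩, [544, 545, 546]⟩,
  ⟨⟨⟨c310x, c312x, c794x, c311x⟩, ⟨.ofNat 0, .ofNat 0, c14x⟩, ⟨.negSucc 0, .ofNat 0, c325x⟩, ⟨.ofNat 0, .ofNat 1, c795x⟩⟩, [277, 278, 544]⟩,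
  ⟨⟨⟨c301x, c302x, c794x, c311x⟩, ⟨.ofNat 0, .ofNat 0, c14x⟩, ⟨.negSucc 0, .ofNat 0, c325x⟩, ⟨.ofNat 0, .ofNat 1, c795x⟩⟩, [278, 279, 289, 290, 544]⟩,
  ⟨⟨⟨c302x, c318x, c296x, c311x⟩, ⟨.ofNat 0, .ofNat 0, c14x⟩, ⟨.negSucc 0, .ofNat 0, c325x⟩, ⟨.ofNat 0, .ofNat 1, c795x⟩⟩, [289, 290, 291, 292, 544]⟩,
  ⟨⟨⟨c306x, c313x, c794x, c311x⟩, ⟨.ofNat 0, .ofNat 0, c14x⟩, ⟨.negSucc 0, .ofNat 0, c325x⟩, ⟨.ofNat 0, .ofNat 1, c795x⟩⟩, [296, 297, 544]⟩,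
  ⟨⟨⟨c313x, c314x, c794x, c311x⟩, ⟨.ofNat 0, .ofNat 0, c14x⟩, ⟨.negSucc 0, .ofNat 0, c325x⟩, ⟨.ofNat 0, .ofNat 1, c795x⟩⟩, [544]⟩,
  ⟨⟨⟨c314x, c315x, c794x, c311x⟩, ⟨.ofNat 0, .ofNat 0, c14x⟩, ⟨.negSucc 0, .ofNat 0, c325x⟩, ⟨.ofNat 0, .ofNat 1, c795x⟩⟩, [544]⟩,
  ⟨⟨⟨c315x, c316x, c794x, c311x⟩, ⟨.ofNat 0, .ofNat 0, c14x⟩, ⟨.negSucc 0, .ofNat 0, c325x⟩, ⟨.ofNat 0, .ofNat 1, c795x⟩⟩, [544]⟩,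
  ⟨⟨⟨c316x, c317x, c794x, c311x⟩, ⟨.ofNat 0, .ofNat 0, c14x⟩, ⟨.negSucc 0, .ofNat 0, c325x⟩, ⟨.ofNat 0, .ofNat 1, c795x⟩⟩, [309, 310, 543, 544]⟩,
  ⟨⟨⟨c312x, c301x, c288x, c311x⟩, ⟨.ofNat 0, .ofNat 0, c14x⟩, ⟨.negSucc 0, .ofNat 0, c325x⟩, ⟨.ofNat 0, .ofNat 1, c795x⟩⟩, [277, 278, 279, 544]⟩,
  ⟨⟨⟨c318x, c303x, c309x, c311x⟩, ⟨.ofNat 0, .ofNat 0, c14x⟩, ⟨.negSucc 0, .ofNat 0, c325x⟩, ⟨.ofNat 0, .ofNat 1, c795x⟩⟩, [291, 292, 293, 544]⟩,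
  ⟨⟨⟨c303x, c319x, c291x, c311x⟩, ⟨.ofNat 0, .ofNat 0, c14x⟩, ⟨.negSucc 0, .ofNat 0, c325x⟩, ⟨.ofNat 0, .ofNat 1, c795x⟩⟩, [292, 293, 294, 295, 544]⟩,
  ⟨⟨⟨c319x, c306x, c290x, c311x⟩, ⟨.ofNat 0, .ofNat 0, c14x⟩, ⟨.negSucc 0, .ofNat 0, c325x⟩, ⟨.ofNat 0, .ofNat 1, c795x⟩⟩, [294, 295, 296, 297, 544]⟩,
  ⟨⟨⟨c320x, c321x, c298x, c322x⟩, ⟨.ofNat 0, .ofNat 0, c14x⟩, ⟨.negSucc 0, .ofNat 0, c325x⟩, ⟨.ofNat 0, .ofNat 1, c795x⟩⟩, [310, 537, 538, 539]⟩,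
  ⟨⟨⟨c323x, c325x, c298x, c326x⟩, ⟨.ofNat 0, .ofNat 0, c14x⟩, ⟨.negSucc 0, .ofNat 0, c325x⟩, ⟨.ofNat 0, .ofNat 1, c795x⟩⟩, [310, 533, 534, 535]⟩,
  ⟨⟨⟨c327x, c328x, c298x, c329x⟩, ⟨.ofNat 0, .ofNat 0, c468x⟩, ⟨.ofNat 1, .ofNat 0, c502x⟩, ⟨.ofNat 0, .ofNat 1, c795x⟩⟩, [310, 519, 520, 521]⟩,
  ⟨⟨⟨c328x, c330x, c298x, c331x⟩, ⟨.ofNat 0, .ofNat 0, c468x⟩, ⟨.ofNat 1, .ofNat 0, c502x⟩, ⟨.ofNat 0, .ofNat 1, c795x⟩⟩, [310, 517, 518, 519, 520]⟩,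
  ⟨⟨⟨c317x, c334x, c298x, c335x⟩, ⟨.ofNat 0, .ofNat 0, c14x⟩, ⟨.negSucc 0, .ofNat 0, c325x⟩, ⟨.ofNat 0, .ofNat 1, c795x⟩⟩, [309, 310, 541, 542, 543, 544]⟩,
  ⟨⟨⟨c334x, c320x, c298x, c336x⟩, ⟨.ofNat 0, .ofNat 0, c14x⟩, ⟨.negSucc 0, .ofNat 0, c325x⟩, ⟨.ofNat 0, .ofNat 1, c795x⟩⟩, [310, 538, 539, 540, 541, 542]⟩,
  ⟨⟨⟨c321x, c323x, c298x, c324x⟩, ⟨.ofNat 0, .ofNat 0, c14x⟩, ⟨.negSucc 0, .ofNat 0, c325x⟩, ⟨.ofNat 0, .ofNat 1, c795x⟩⟩, [310, 534, 535, 536, 537, 538]⟩,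
  ⟨⟨⟨c325x, c337x, c298x, c338x⟩, ⟨.ofNat 1, .ofNat 0, c503x⟩, ⟨.ofNat 0, .ofNat 0, c14x⟩, ⟨.ofNat 0, .ofNat 1, c795x⟩⟩, [310, 529, 530, 532, 533, 534]⟩,
  ⟨⟨⟨c337x, c327x, c298x, c340x⟩, ⟨.ofNat 1, .ofNat 0, c503x⟩, ⟨.ofNat 0, .ofNat 0, c14x⟩, ⟨.ofNat 0, .ofNat 1, c795x⟩⟩, [310, 520, 521, 522, 528, 529, 530]⟩,
  ⟨⟨⟨c330x, c332x, c298x, c339x⟩, ⟨.ofNat 0, .ofNat 0, c468x⟩, ⟨.ofNat 1, .ofNat 0, c502x⟩, ⟨.ofNat 0, .ofNat 1, c795x⟩⟩, [310, 510, 511, 512, 516, 517, 518]⟩,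
  ⟨⟨⟨c353x, c355x, c345x, c356x⟩, ⟨.ofNat 0, .ofNat 0, c468x⟩, ⟨.ofNat 1, .ofNat 0, c502x⟩, ⟨.ofNat 0, .ofNat 1, c795x⟩⟩, [522, 523, 524, 525]⟩,
  ⟨⟨⟨c341x, c330x, c326x, c339x⟩, ⟨.ofNat 0, .ofNat 0, c468x⟩, ⟨.ofNat 1, .ofNat 0, c502x⟩, ⟨.ofNat 0, .ofNat 1, c795x⟩⟩, [512, 514, 515, 516, 517]⟩,
  ⟨⟨⟨c332x, c333x, c298x, c324x⟩, ⟨.ofNat 0, .ofNat 0, c468x⟩, ⟨.ofNat 1, .ofNat 0, c502x⟩, ⟨.ofNat 0, .ofNat 1, c795x⟩⟩, [310, 509, 510, 511]⟩,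
  ⟨⟨⟨c333x, c342x, c298x, c335x⟩, ⟨.ofNat 0, .ofNat 0, c468x⟩, ⟨.ofNat 1, .ofNat 0, c502x⟩, ⟨.ofNat 0, .ofNat 1, c795x⟩⟩, [310, 311, 312, 507, 508, 509, 510]⟩,
  ⟨⟨⟨c343x, c344x, c329x, c345x⟩, ⟨.ofNat 0, .ofNat 0, c468x⟩, ⟨.ofNat 1, .ofNat 0, c502x⟩, ⟨.ofNat 0, .ofNat 1, c795x⟩⟩, [334, 335, 336, 337, 338]⟩,
  ⟨⟨⟨c346x, c347x, c331x, c326x⟩, ⟨.ofNat 0, .ofNat 0, c468x⟩, ⟨.ofNat 1, .ofNat 0, c502x⟩, ⟨.ofNat 0, .ofNat 1, c795x⟩⟩, [338, 339, 340, 341]⟩,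
  ⟨⟨⟨c342x, c358x, c311x, c359x⟩, ⟨.ofNat 0, .ofNat 0, c468x⟩, ⟨.ofNat 1, .ofNat 0, c502x⟩, ⟨.ofNat 0, .ofNat 1, c795x⟩⟩, [311, 312, 313, 314, 505, 506, 507, 508]⟩,
  ⟨⟨⟨c348x, c349x, c326x, c345x⟩, ⟨.ofNat 0, .ofNat 0, c468x⟩, ⟨.ofNat 1, .ofNat 0, c502x⟩, ⟨.ofNat 0, .ofNat 1, c795x⟩⟩, [322, 323, 324, 325]⟩,
  ⟨⟨⟨c344x, c350x, c331x, c345x⟩, ⟨.ofNat 0, .ofNat 0, c468x⟩, ⟨.ofNat 1, .ofNat 0, c502x⟩, ⟨.ofNat 0, .ofNat 1, c795x⟩⟩, [333, 334, 337, 338]⟩,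
  ⟨⟨⟨c351x, c346x, c331x, c336x⟩, ⟨.ofNat 0, .ofNat 0, c468x⟩, ⟨.ofNat 1, .ofNat 0, c502x⟩, ⟨.ofNat 0, .ofNat 1, c795x⟩⟩, [338, 340, 341, 342, 343]⟩,
  ⟨⟨⟨c352x, c325x, c345x, c338x⟩, ⟨.ofNat 0, .ofNat 0, c14x⟩, ⟨.negSucc 0, .ofNat 0, c325x⟩, ⟨.ofNat 0, .ofNat 1, c795x⟩⟩, [530, 531, 532, 533]⟩,
  ⟨⟨⟨c327x, c328x, c345x, c340x⟩, ⟨.ofNat 0, .ofNat 0, c468x⟩, ⟨.ofNat 1, .ofNat 0, c502x⟩, ⟨.ofNat 0, .ofNat 1, c795x⟩⟩, [521, 522, 527, 528]⟩,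
  ⟨⟨⟨c357x, c341x, c336x, c339x⟩, ⟨.ofNat 0, .ofNat 0, c468x⟩, ⟨.ofNat 1, .ofNat 0, c502x⟩, ⟨.ofNat 0, .ofNat 1, c795x⟩⟩, [512, 513, 514, 515]⟩,
  ⟨⟨⟨c328x, c353x, c345x, c354x⟩, ⟨.ofNat 0, .ofNat 0, c468x⟩, ⟨.ofNat 1, .ofNat 0, c502x⟩, ⟨.ofNat 0, .ofNat 1, c795x⟩⟩, [522, 524, 525, 526, 527, 528]⟩,
  ⟨⟨⟨c362x, c363x, c322x, c361x⟩, ⟨.ofNat 0, .ofNat 0, c468x⟩, ⟨.ofNat 1, .ofNat 0, c502x⟩, ⟨.ofNat 0, .ofNat 1, c795x⟩⟩, [316, 317, 318, 319, 320, 504]⟩,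
  ⟨⟨⟨c358x, c366x, c335x, c361x⟩, ⟨.ofNat 0, .ofNat 0, c468x⟩, ⟨.ofNat 1, .ofNat 0, c502x⟩, ⟨.ofNat 0, .ofNat 1, c795x⟩⟩, [313, 314, 315, 316, 504, 505, 506]⟩,
  ⟨⟨⟨c366x, c362x, c336x, c361x⟩, ⟨.ofNat 0, .ofNat 0, c468x⟩, ⟨.ofNat 1, .ofNat 0, c502x⟩, ⟨.ofNat 0, .ofNat 1, c795x⟩⟩, [315, 316, 317, 504]⟩,
  ⟨⟨⟨c363x, c360x, c324x, c361x⟩, ⟨.ofNat 0, .ofNat 0, c468x⟩, ⟨.ofNat 1, .ofNat 0, c502x⟩, ⟨.ofNat 0, .ofNat 1, c795x⟩⟩, [319, 320, 321, 504]⟩,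
  ⟨⟨⟨c360x, c348x, c326x, c361x⟩, ⟨.ofNat 0, .ofNat 0, c468x⟩, ⟨.ofNat 1, .ofNat 0, c502x⟩, ⟨.ofNat 0, .ofNat 1, c795x⟩⟩, [320, 321, 322, 324, 325, 326, 504]⟩,
  ⟨⟨⟨c348x, c367x, c338x, c361x⟩, ⟨.ofNat 0, .ofNat 0, c468x⟩, ⟨.ofNat 1, .ofNat 0, c502x⟩, ⟨.ofNat 0, .ofNat 1, c795x⟩⟩, [325, 326, 327, 328, 504]⟩,
  ⟨⟨⟨c368x, c350x, c356x, c361x⟩, ⟨.ofNat 0, .ofNat 0, c468x⟩, ⟨.ofNat 1, .ofNat 0, c502x⟩, ⟨.ofNat 0, .ofNat 1, c795x⟩⟩, [330, 331, 332, 333, 504]⟩,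
  ⟨⟨⟨c350x, c351x, c331x, c361x⟩, ⟨.ofNat 0, .ofNat 0, c468x⟩, ⟨.ofNat 1, .ofNat 0, c502x⟩, ⟨.ofNat 0, .ofNat 1, c795x⟩⟩, [332, 333, 334, 338, 342, 343, 344, 504]⟩,
  ⟨⟨⟨c351x, c364x, c339x, c361x⟩, ⟨.ofNat 0, .ofNat 0, c468x⟩, ⟨.ofNat 1, .ofNat 0, c502x⟩, ⟨.ofNat 0, .ofNat 1, c795x⟩⟩, [343, 344, 345, 504]⟩,
  ⟨⟨⟨c364x, c365x, c324x, c361x⟩, ⟨.ofNat 0, .ofNat 0, c468x⟩, ⟨.ofNat 1, .ofNat 0, c502x⟩, ⟨.ofNat 0, .ofNat 1, c795x⟩⟩, [344, 345, 346, 347, 348, 504]⟩,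
  ⟨⟨⟨c365x, c369x, c335x, c361x⟩, ⟨.ofNat 0, .ofNat 0, c468x⟩, ⟨.ofNat 1, .ofNat 0, c502x⟩, ⟨.ofNat 0, .ofNat 1, c795x⟩⟩, [347, 348, 349, 350, 503, 504]⟩,
  ⟨⟨⟨c367x, c344x, c340x, c361x⟩, ⟨.ofNat 0, .ofNat 0, c468x⟩, ⟨.ofNat 1, .ofNat 0, c502x⟩, ⟨.ofNat 0, .ofNat 1, c795x⟩⟩, [327, 328, 329, 330, 504]⟩,
  ⟨⟨⟨c344x, c368x, c354x, c361x⟩, ⟨.ofNat 0, .ofNat 0, c468x⟩, ⟨.ofNat 1, .ofNat 0, c502x⟩, ⟨.ofNat 0, .ofNat 1, c795x⟩⟩, [329, 330, 331, 504]⟩,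
  ⟨⟨⟨c370x, c371x, c359x, c372x⟩, ⟨.ofNat 0, .ofNat 0, c14x⟩, ⟨.negSucc 0, .ofNat 0, c431x⟩, ⟨.ofNat 0, .ofNat 1, c795x⟩⟩, [350, 485, 486, 487]⟩,
  ⟨⟨⟨c373x, c398x, c359x, c375x⟩, ⟨.ofNat 0, .ofNat 0, c468x⟩, ⟨.ofNat 1, .ofNat 0, c502x⟩, ⟨.ofNat 0, .ofNat 1, c795x⟩⟩, [350, 490, 491]⟩,
  ⟨⟨⟨c374x, c399x, c359x, c376x⟩, ⟨.negSucc 0, .ofNat 0, c399x⟩, ⟨.ofNat 0, .ofNat 0, c785x⟩, ⟨.ofNat 0, .ofNat 1, c795x⟩⟩, [350, 488, 489]⟩,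
  ⟨⟨⟨c399x, c370x, c359x, c376x⟩, ⟨.ofNat 0, .ofNat 0, c14x⟩, ⟨.negSucc 0, .ofNat 0, c431x⟩, ⟨.ofNat 0, .ofNat 1, c795x⟩⟩, [350, 486, 487, 488]⟩,
  ⟨⟨⟨c377x, c378x, c359x, c379x⟩, ⟨.ofNat 0, .ofNat 0, c14x⟩, ⟨.negSucc 0, .ofNat 0, c431x⟩, ⟨.ofNat 0, .ofNat 1, c795x⟩⟩, [350, 471, 472, 473]⟩,
  ⟨⟨⟨c369x, c380x, c359x, c381x⟩, ⟨.ofNat 0, .ofNat 0, c468x⟩, ⟨.ofNat 1, .ofNat 0, c502x⟩, ⟨.ofNat 0, .ofNat 1, c795x⟩⟩, [349, 350, 500, 501, 502, 503, 504]⟩,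
  ⟨⟨⟨c380x, c382x, c359x, c383x⟩, ⟨.ofNat 0, .ofNat 0, c468x⟩, ⟨.ofNat 1, .ofNat 0, c502x⟩, ⟨.ofNat 0, .ofNat 1, c795x⟩⟩, [350, 499, 500, 501]⟩,
  ⟨⟨⟨c382x, c384x, c359x, c385x⟩, ⟨.ofNat 0, .ofNat 0, c468x⟩, ⟨.ofNat 1, .ofNat 0, c502x⟩, ⟨.ofNat 0, .ofNat 1, c795x⟩⟩, [350, 496, 497, 498, 499, 500]⟩,
  ⟨⟨⟨c384x, c386x, c359x, c387x⟩, ⟨.ofNat 0, .ofNat 0, c468x⟩, ⟨.ofNat 1, .ofNat 0, c502x⟩, ⟨.ofNat 0, .ofNat 1, c795x⟩⟩, [350, 495, 496, 497]⟩,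
  ⟨⟨⟨c398x, c374x, c359x, c375x⟩, ⟨.negSucc 0, .ofNat 0, c399x⟩, ⟨.ofNat 0, .ofNat 0, c785x⟩, ⟨.ofNat 0, .ofNat 1, c795x⟩⟩, [350, 488, 489, 490]⟩,
  ⟨⟨⟨c371x, c389x, c359x, c390x⟩, ⟨.ofNat 0, .ofNat 0, c14x⟩, ⟨.negSucc 0, .ofNat 0, c431x⟩, ⟨.ofNat 0, .ofNat 1, c795x⟩⟩, [350, 483, 484, 485, 486]⟩,
  ⟨⟨⟨c378x, c391x, c359x, c387x⟩, ⟨.ofNat 0, .ofNat 0, c14x⟩, ⟨.negSucc 0, .ofNat 0, c431x⟩, ⟨.ofNat 0, .ofNat 1, c795x⟩⟩, [350, 468, 469, 470, 471, 472]⟩,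
  ⟨⟨⟨c391x, c392x, c359x, c381x⟩, ⟨.ofNat 0, .ofNat 0, c14x⟩, ⟨.negSucc 0, .ofNat 0, c431x⟩, ⟨.ofNat 0, .ofNat 1, c795x⟩⟩, [350, 351, 352, 467, 468, 469]⟩,
  ⟨⟨⟨c386x, c373x, c359x, c388x⟩, ⟨.ofNat 0, .ofNat 0, c468x⟩, ⟨.ofNat 1, .ofNat 0, c502x⟩, ⟨.ofNat 0, .ofNat 1, c795x⟩⟩, [350, 490, 491, 492, 494, 495, 496]⟩,
  ⟨⟨⟨c389x, c377x, c359x, c393x⟩, ⟨.ofNat 0, .ofNat 0, c14x⟩, ⟨.negSucc 0, .ofNat 0, c431x⟩, ⟨.ofNat 0, .ofNat 1, c795x⟩⟩, [350, 472, 473, 474, 478, 482, 483, 484]⟩,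
  ⟨⟨⟨c405x, c406x, c375x, c396x⟩, ⟨.ofNat 0, .ofNat 0, c14x⟩, ⟨.negSucc 0, .ofNat 0, c431x⟩, ⟨.ofNat 0, .ofNat 1, c795x⟩⟩, [363, 364, 365, 366]⟩,
  ⟨⟨⟨c394x, c395x, c376x, c396x⟩, ⟨.ofNat 0, .ofNat 0, c14x⟩, ⟨.negSucc 0, .ofNat 0, c431x⟩, ⟨.ofNat 0, .ofNat 1, c795x⟩⟩, [368, 369, 374, 375]⟩,
  ⟨⟨⟨c395x, c397x, c372x, c396x⟩, ⟨.ofNat 0, .ofNat 0, c14x⟩, ⟨.negSucc 0, .ofNat 0, c431x⟩, ⟨.ofNat 0, .ofNat 1, c795x⟩⟩, [368, 369, 370, 371, 372, 374]⟩,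
  ⟨⟨⟨c397x, c407x, c390x, c396x⟩, ⟨.ofNat 0, .ofNat 0, c14x⟩, ⟨.negSucc 0, .ofNat 0, c431x⟩, ⟨.ofNat 0, .ofNat 1, c795x⟩⟩, [371, 372, 373, 374]⟩,
  ⟨⟨⟨c408x, c409x, c379x, c383x⟩, ⟨.ofNat 0, .ofNat 0, c14x⟩, ⟨.negSucc 0, .ofNat 0, c431x⟩, ⟨.ofNat 0, .ofNat 1, c795x⟩⟩, [381, 382, 383, 384]⟩,
  ⟨⟨⟨c373x, c398x, c396x, c388x⟩, ⟨.ofNat 0, .ofNat 0, c468x⟩, ⟨.ofNat 1, .ofNat 0, c502x⟩, ⟨.ofNat 0, .ofNat 1, c795x⟩⟩, [491, 492, 493, 494]⟩,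
  ⟨⟨⟨c399x, c370x, c396x, c400x⟩, ⟨.ofNat 0, .ofNat 0, c14x⟩, ⟨.negSucc 0, .ofNat 0, c431x⟩, ⟨.ofNat 0, .ofNat 1, c795x⟩⟩, [478, 479, 480, 481, 482]⟩,
  ⟨⟨⟨c370x, c389x, c396x, c393x⟩, ⟨.ofNat 0, .ofNat 0, c14x⟩, ⟨.negSucc 0, .ofNat 0, c431x⟩, ⟨.ofNat 0, .ofNat 1, c795x⟩⟩, [478, 479, 482, 483]⟩,
  ⟨⟨⟨c377x, c401x, c383x, c393x⟩, ⟨.ofNat 0, .ofNat 0, c14x⟩, ⟨.negSucc 0, .ofNat 0, c431x⟩, ⟨.ofNat 0, .ofNat 1, c795x⟩⟩, [473, 474, 475, 476, 478]⟩,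
  ⟨⟨⟨c392x, c403x, c361x, c404x⟩, ⟨.ofNat 0, .ofNat 0, c14x⟩, ⟨.negSucc 0, .ofNat 0, c431x⟩, ⟨.ofNat 0, .ofNat 1, c795x⟩⟩, [351, 352, 353, 354, 465, 466, 467, 468]⟩,
  ⟨⟨⟨c409x, c410x, c379x, c388x⟩, ⟨.ofNat 0, .ofNat 0, c14x⟩, ⟨.negSucc 0, .ofNat 0, c431x⟩, ⟨.ofNat 0, .ofNat 1, c795x⟩⟩, [379, 380, 381, 382, 384]⟩,
  ⟨⟨⟨c401x, c402x, c388x, c393x⟩, ⟨.ofNat 0, .ofNat 0, c14x⟩, ⟨.negSucc 0, .ofNat 0, c431x⟩, ⟨.ofNat 0, .ofNat 1, c795x⟩⟩, [475, 476, 477, 478]⟩,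
  ⟨⟨⟨c411x, c394x, c376x, c412x⟩, ⟨.ofNat 0, .ofNat 0, c14x⟩, ⟨.negSucc 0, .ofNat 0, c431x⟩, ⟨.ofNat 0, .ofNat 1, c795x⟩⟩, [366, 367, 368, 374, 375, 376, 464]⟩,
  ⟨⟨⟨c403x, c414x, c381x, c412x⟩, ⟨.ofNat 0, .ofNat 0, c14x⟩, ⟨.negSucc 0, .ofNat 0, c431x⟩, ⟨.ofNat 0, .ofNat 1, c795x⟩⟩, [353, 354, 355, 464, 465, 466]⟩,
  ⟨⟨⟨c414x, c415x, c383x, c412x⟩, ⟨.ofNat 0, .ofNat 0, c14x⟩, ⟨.negSucc 0, .ofNat 0, c431x⟩, ⟨.ofNat 0, .ofNat 1, c795x⟩⟩, [354, 355, 356, 357, 358, 464]⟩,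
  ⟨⟨⟨c415x, c416x, c385x, c412x⟩, ⟨.ofNat 0, .ofNat 0, c14x⟩, ⟨.negSucc 0, .ofNat 0, c431x⟩, ⟨.ofNat 0, .ofNat 1, c795x⟩⟩, [357, 358, 359, 464]⟩,
  ⟨⟨⟨c416x, c417x, c387x, c412x⟩, ⟨.ofNat 0, .ofNat 0, c14x⟩, ⟨.negSucc 0, .ofNat 0, c431x⟩, ⟨.ofNat 0, .ofNat 1, c795x⟩⟩, [358, 359, 360, 361, 362, 464]⟩,
  ⟨⟨⟨c406x, c411x, c375x, c412x⟩, ⟨.ofNat 0, .ofNat 0, c14x⟩, ⟨.negSucc 0, .ofNat 0, c431x⟩, ⟨.ofNat 0, .ofNat 1, c795x⟩⟩, [362, 363, 364, 366, 367, 464]⟩,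
  ⟨⟨⟨c410x, c413x, c379x, c412x⟩, ⟨.ofNat 0, .ofNat 0, c14x⟩, ⟨.negSucc 0, .ofNat 0, c431x⟩, ⟨.ofNat 0, .ofNat 1, c795x⟩⟩, [378, 379, 380, 384, 385, 386, 464]⟩,
  ⟨⟨⟨c413x, c418x, c387x, c412x⟩, ⟨.ofNat 0, .ofNat 0, c14x⟩, ⟨.negSucc 0, .ofNat 0, c431x⟩, ⟨.ofNat 0, .ofNat 1, c795x⟩⟩, [385, 386, 387, 464]⟩,
  ⟨⟨⟨c418x, c419x, c381x, c412x⟩, ⟨.ofNat 0, .ofNat 0, c14x⟩, ⟨.negSucc 0, .ofNat 0, c431x⟩, ⟨.ofNat 0, .ofNat 1, c795x⟩⟩, [386, 387, 388, 389, 390, 463, 464]⟩,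
  ⟨⟨⟨c417x, c406x, c388x, c412x⟩, ⟨.ofNat 0, .ofNat 0, c14x⟩, ⟨.negSucc 0, .ofNat 0, c431x⟩, ⟨.ofNat 0, .ofNat 1, c795x⟩⟩, [361, 362, 363, 464]⟩,
  ⟨⟨⟨c395x, c410x, c393x, c412x⟩, ⟨.ofNat 0, .ofNat 0, c14x⟩, ⟨.negSucc 0, .ofNat 0, c431x⟩, ⟨.ofNat 0, .ofNat 1, c795x⟩⟩, [376, 377, 378, 379, 464]⟩,
  ⟨⟨⟨c394x, c395x, c400x, c412x⟩, ⟨.ofNat 0, .ofNat 0, c14x⟩, ⟨.negSucc 0, .ofNat 0, c431x⟩, ⟨.ofNat 0, .ofNat 1, c795x⟩⟩, [375, 376, 377, 464]⟩,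
  ⟨⟨⟨c420x, c421x, c404x, c422x⟩, ⟨.ofNat 0, .ofNat 0, c468x⟩, ⟨.ofNat 1, .ofNat 0, c512x⟩, ⟨.ofNat 0, .ofNat 1, c795x⟩⟩, [390, 439, 440, 441]⟩,
  ⟨⟨⟨c419x, c423x, c404x, c450x⟩, ⟨.ofNat 0, .ofNat 0, c14x⟩, ⟨.negSucc 0, .ofNat 0, c431x⟩, ⟨.ofNat 0, .ofNat 1, c795x⟩⟩, [389, 390, 463, 464]⟩,
  ⟨⟨⟨c425x, c427x, c404x, c428x⟩, ⟨.ofNat 0, .ofNat 0, c14x⟩, ⟨.negSucc 0, .ofNat 0, c431x⟩, ⟨.ofNat 0, .ofNat 1, c795x⟩⟩, [390, 457, 458, 459]⟩,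
  ⟨⟨⟨c429x, c431x, c404x, c432x⟩, ⟨.ofNat 0, .ofNat 0, c14x⟩, ⟨.negSucc 0, .ofNat 0, c431x⟩, ⟨.ofNat 0, .ofNat 1, c795x⟩⟩, [390, 453, 454, 455]⟩,
  ⟨⟨⟨c421x, c435x, c404x, c436x⟩, ⟨.ofNat 0, .ofNat 0, c468x⟩, ⟨.ofNat 1, .ofNat 0, c512x⟩, ⟨.ofNat 0, .ofNat 1, c795x⟩⟩, [390, 437, 438, 439, 440]⟩,
  ⟨⟨⟨c423x, c425x, c404x, c450x⟩, ⟨.ofNat 0, .ofNat 0, c14x⟩, ⟨.negSucc 0, .ofNat 0, c431x⟩, ⟨.ofNat 0, .ofNat 1, c795x⟩⟩, [390, 458, 459]⟩,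
  ⟨⟨⟨c427x, c429x, c404x, c450x⟩, ⟨.ofNat 0, .ofNat 0, c14x⟩, ⟨.negSucc 0, .ofNat 0, c431x⟩, ⟨.ofNat 0, .ofNat 1, c795x⟩⟩, [390, 454, 455, 457, 458]⟩,
  ⟨⟨⟨c431x, c433x, c404x, c450x⟩, ⟨.ofNat 1, .ofNat 0, c513x⟩, ⟨.ofNat 0, .ofNat 0, c14x⟩, ⟨.ofNat 0, .ofNat 1, c795x⟩⟩, [390, 452, 453, 454]⟩,
  ⟨⟨⟨c433x, c420x, c404x, c450x⟩, ⟨.ofNat 1, .ofNat 0, c513x⟩, ⟨.ofNat 0, .ofNat 0, c14x⟩, ⟨.ofNat 0, .ofNat 1, c795x⟩⟩, [390, 440, 441, 442]⟩,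
  ⟨⟨⟨c435x, c437x, c404x, c450x⟩, ⟨.ofNat 0, .ofNat 0, c468x⟩, ⟨.ofNat 1, .ofNat 0, c512x⟩, ⟨.ofNat 0, .ofNat 1, c795x⟩⟩, [390, 436, 437, 438]⟩,
  ⟨⟨⟨c437x, c438x, c404x, c450x⟩, ⟨.ofNat 0, .ofNat 0, c468x⟩, ⟨.ofNat 1, .ofNat 0, c512x⟩, ⟨.ofNat 0, .ofNat 1, c795x⟩⟩, [390]⟩,
  ⟨⟨⟨c438x, c439x, c404x, c450x⟩, ⟨.ofNat 0, .ofNat 0, c468x⟩, ⟨.ofNat 1, .ofNat 0, c512x⟩, ⟨.ofNat 0, .ofNat 1, c795x⟩⟩, [390, 391, 392]⟩,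
  ⟨⟨⟨c439x, c444x, c412x, c450x⟩, ⟨.ofNat 0, .ofNat 0, c468x⟩, ⟨.ofNat 1, .ofNat 0, c512x⟩, ⟨.ofNat 0, .ofNat 1, c795x⟩⟩, [391, 392]⟩,
  ⟨⟨⟨c444x, c445x, c412x, c450x⟩, ⟨.ofNat 0, .ofNat 0, c468x⟩, ⟨.ofNat 1, .ofNat 0, c512x⟩, ⟨.ofNat 0, .ofNat 1, c795x⟩⟩, [392, 424, 425]⟩,
  ⟨⟨⟨c445x, c446x, c412x, c428x⟩, ⟨.ofNat 0, .ofNat 0, c468x⟩, ⟨.ofNat 1, .ofNat 0, c512x⟩, ⟨.ofNat 0, .ofNat 1, c795x⟩⟩, [392, 423, 424, 425]⟩,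
  ⟨⟨⟨c446x, c447x, c412x, c450x⟩, ⟨.ofNat 0, .ofNat 0, c468x⟩, ⟨.ofNat 1, .ofNat 0, c512x⟩, ⟨.ofNat 0, .ofNat 1, c795x⟩⟩, [392, 420, 421, 423, 424]⟩,
  ⟨⟨⟨c447x, c448x, c412x, c432x⟩, ⟨.ofNat 0, .ofNat 0, c468x⟩, ⟨.ofNat 1, .ofNat 0, c512x⟩, ⟨.ofNat 0, .ofNat 1, c795x⟩⟩, [392, 419, 420, 421]⟩,
  ⟨⟨⟨c448x, c457x, c412x, c450x⟩, ⟨.ofNat 0, .ofNat 0, c468x⟩, ⟨.ofNat 1, .ofNat 0, c512x⟩, ⟨.ofNat 0, .ofNat 1, c795x⟩⟩, [392, 418, 419, 420]⟩,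
  ⟨⟨⟨c442x, c443x, c412x, c422x⟩, ⟨.ofNat 0, .ofNat 0, c468x⟩, ⟨.ofNat 1, .ofNat 0, c512x⟩, ⟨.ofNat 0, .ofNat 1, c795x⟩⟩, [392, 405, 406, 407]⟩,
  ⟨⟨⟨c443x, c458x, c412x, c436x⟩, ⟨.ofNat 0, .ofNat 0, c468x⟩, ⟨.ofNat 1, .ofNat 0, c512x⟩, ⟨.ofNat 0, .ofNat 1, c795x⟩⟩, [392, 403, 404, 405, 406]⟩,
  ⟨⟨⟨c419x, c423x, c450x, c424x⟩, ⟨.ofNat 0, .ofNat 1, c515x⟩, ⟨.negSucc 0, .ofNat 0, c431x⟩, ⟨.ofNat 0, .ofNat 0, c596x⟩⟩, [461, 462, 463]⟩,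
  ⟨⟨⟨c423x, c425x, c450x, c426x⟩, ⟨.ofNat 0, .ofNat 1, c515x⟩, ⟨.negSucc 0, .ofNat 0, c431x⟩, ⟨.ofNat 0, .ofNat 0, c596x⟩⟩, [459, 460, 461, 462]⟩,
  ⟨⟨⟨c427x, c429x, c450x, c430x⟩, ⟨.ofNat 0, .ofNat 1, c515x⟩, ⟨.negSucc 0, .ofNat 0, c431x⟩, ⟨.ofNat 0, .ofNat 0, c596x⟩⟩, [455, 456, 457]⟩,
  ⟨⟨⟨c455x, c435x, c432x, c450x⟩, ⟨.ofNat 0, .ofNat 0, c468x⟩, ⟨.ofNat 1, .ofNat 0, c512x⟩, ⟨.ofNat 0, .ofNat 1, c795x⟩⟩, [435, 436, 437]⟩,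
  ⟨⟨⟨c437x, c438x, c450x, c430x⟩, ⟨.ofNat 0, .negSucc 0, c517x⟩, ⟨.ofNat 1, .ofNat 0, c512x⟩, ⟨.ofNat 0, .ofNat 0, c596x⟩⟩, [429, 430, 431]⟩,
  ⟨⟨⟨c438x, c439x, c450x, c424x⟩, ⟨.ofNat 0, .negSucc 0, c517x⟩, ⟨.ofNat 1, .ofNat 0, c512x⟩, ⟨.ofNat 0, .ofNat 0, c596x⟩⟩, [428, 429, 430]⟩,
  ⟨⟨⟨c439x, c444x, c450x, c424x⟩, ⟨.ofNat 0, .negSucc 0, c517x⟩, ⟨.ofNat 1, .ofNat 0, c512x⟩, ⟨.ofNat 0, .ofNat 0, c596x⟩⟩, [427, 428]⟩,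
  ⟨⟨⟨c457x, c442x, c412x, c450x⟩, ⟨.ofNat 0, .ofNat 0, c468x⟩, ⟨.ofNat 1, .ofNat 0, c512x⟩, ⟨.ofNat 0, .ofNat 1, c795x⟩⟩, [392, 406, 407, 408]⟩,
  ⟨⟨⟨c458x, c459x, c412x, c450x⟩, ⟨.ofNat 0, .ofNat 0, c468x⟩, ⟨.ofNat 1, .ofNat 0, c512x⟩, ⟨.ofNat 0, .ofNat 1, c795x⟩⟩, [392, 402, 403, 404]⟩,
  ⟨⟨⟨c459x, c460x, c412x, c450x⟩, ⟨.ofNat 0, .ofNat 0, c468x⟩, ⟨.ofNat 1, .ofNat 0, c512x⟩, ⟨.ofNat 0, .ofNat 1, c795x⟩⟩, [392]⟩,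
  ⟨⟨⟨c460x, c461x, c412x, c450x⟩, ⟨.ofNat 0, .ofNat 0, c468x⟩, ⟨.ofNat 1, .ofNat 0, c512x⟩, ⟨.ofNat 0, .ofNat 1, c795x⟩⟩, [392, 393]⟩,
  ⟨⟨⟨c446x, c447x, c450x, c430x⟩, ⟨.ofNat 0, .negSucc 0, c517x⟩, ⟨.ofNat 1, .ofNat 0, c512x⟩, ⟨.ofNat 0, .ofNat 0, c596x⟩⟩, [421, 422, 423]⟩,
  ⟨⟨⟨c465x, c458x, c432x, c450x⟩, ⟨.ofNat 0, .ofNat 0, c468x⟩, ⟨.ofNat 1, .ofNat 0, c512x⟩, ⟨.ofNat 0, .ofNat 1, c795x⟩⟩, [401, 402, 403]⟩,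
  ⟨⟨⟨c459x, c460x, c450x, c430x⟩, ⟨.ofNat 0, .negSucc 0, c517x⟩, ⟨.ofNat 1, .ofNat 0, c512x⟩, ⟨.ofNat 0, .ofNat 0, c596x⟩⟩, [395, 396, 397]⟩,
  ⟨⟨⟨c460x, c461x, c450x, c424x⟩, ⟨.ofNat 0, .negSucc 0, c517x⟩, ⟨.ofNat 1, .ofNat 0, c512x⟩, ⟨.ofNat 0, .ofNat 0, c596x⟩⟩, [393, 394, 395, 396]⟩,
  ⟨⟨⟨c449x, c431x, c450x, c434x⟩, ⟨.ofNat 0, .ofNat 0, c14x⟩, ⟨.ofNat 0, .ofNat 1, c515x⟩, ⟨.ofNat 1, .ofNat 0, c798x⟩⟩, [450, 451, 452, 453]⟩,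
  ⟨⟨⟨c431x, c433x, c450x, c434x⟩, ⟨.ofNat 1, .ofNat 0, c513x⟩, ⟨.ofNat 0, .ofNat 1, c515x⟩, ⟨.ofNat 0, .ofNat 0, c596x⟩⟩, [449, 450, 452, 453]⟩,
  ⟨⟨⟨c433x, c420x, c450x, c440x⟩, ⟨.ofNat 1, .ofNat 0, c513x⟩, ⟨.ofNat 0, .ofNat 1, c515x⟩, ⟨.ofNat 0, .ofNat 0, c596x⟩⟩, [441, 442, 448, 449, 450]⟩,
  ⟨⟨⟨c420x, c421x, c450x, c440x⟩, ⟨.ofNat 0, .ofNat 0, c468x⟩, ⟨.ofNat 0, .ofNat 1, c515x⟩, ⟨.negSucc 0, .ofNat 0, c799x⟩⟩, [441, 442, 447, 448]⟩,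
  ⟨⟨⟨c421x, c451x, c450x, c452x⟩, ⟨.ofNat 0, .ofNat 0, c468x⟩, ⟨.ofNat 0, .ofNat 1, c515x⟩, ⟨.negSucc 0, .ofNat 0, c799x⟩⟩, [442, 444, 445, 446, 447, 448]⟩,
  ⟨⟨⟨c451x, c453x, c450x, c454x⟩, ⟨.ofNat 0, .ofNat 0, c468x⟩, ⟨.ofNat 0, .ofNat 1, c515x⟩, ⟨.negSucc 0, .ofNat 0, c799x⟩⟩, [442, 443, 444, 445]⟩,
  ⟨⟨⟨c456x, c455x, c426x, c517x⟩, ⟨.ofNat 0, .negSucc 0, c517x⟩, ⟨.ofNat 1, .ofNat 0, c512x⟩, ⟨.ofNat 0, .ofNat 0, c596x⟩⟩, [433, 434, 435]⟩,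
  ⟨⟨⟨c455x, c435x, c450x, c517x⟩, ⟨.ofNat 0, .negSucc 0, c517x⟩, ⟨.ofNat 1, .ofNat 0, c512x⟩, ⟨.ofNat 0, .ofNat 0, c596x⟩⟩, [434, 435]⟩,
  ⟨⟨⟨c435x, c437x, c450x, c517x⟩, ⟨.ofNat 0, .negSucc 0, c517x⟩, ⟨.ofNat 1, .ofNat 0, c512x⟩, ⟨.ofNat 0, .ofNat 0, c596x⟩⟩, [430, 431]⟩,
  ⟨⟨⟨c456x, c455x, c517x, c441x⟩, ⟨.ofNat 0, .ofNat 0, c14x⟩, ⟨.ofNat 1, .ofNat 0, c512x⟩, ⟨.ofNat 0, .negSucc 0, c800x⟩⟩, [432, 433]⟩,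
  ⟨⟨⟨c455x, c435x, c517x, c441x⟩, ⟨.ofNat 0, .ofNat 0, c14x⟩, ⟨.ofNat 1, .ofNat 0, c512x⟩, ⟨.ofNat 0, .negSucc 0, c800x⟩⟩, [432]⟩,
  ⟨⟨⟨c435x, c437x, c517x, c441x⟩, ⟨.ofNat 0, .ofNat 0, c14x⟩, ⟨.ofNat 1, .ofNat 0, c512x⟩, ⟨.ofNat 0, .negSucc 0, c800x⟩⟩, [431, 432]⟩,
  ⟨⟨⟨c444x, c445x, c450x, c426x⟩, ⟨.ofNat 0, .negSucc 0, c517x⟩, ⟨.ofNat 1, .ofNat 0, c512x⟩, ⟨.ofNat 0, .ofNat 0, c596x⟩⟩, [425, 426, 427, 428]⟩,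
  ⟨⟨⟨c462x, c448x, c450x, c517x⟩, ⟨.ofNat 0, .negSucc 0, c517x⟩, ⟨.ofNat 1, .ofNat 0, c512x⟩, ⟨.ofNat 0, .ofNat 0, c596x⟩⟩, [417, 418, 419]⟩,
  ⟨⟨⟨c462x, c448x, c517x, c434x⟩, ⟨.ofNat 0, .ofNat 0, c14x⟩, ⟨.ofNat 1, .ofNat 0, c512x⟩, ⟨.ofNat 0, .negSucc 0, c800x⟩⟩, [416, 417]⟩,
  ⟨⟨⟨c448x, c457x, c450x, c517x⟩, ⟨.ofNat 0, .negSucc 0, c517x⟩, ⟨.ofNat 1, .ofNat 0, c512x⟩, ⟨.ofNat 0, .ofNat 0, c596x⟩⟩, [418, 419]⟩,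
  ⟨⟨⟨c457x, c442x, c450x, c517x⟩, ⟨.ofNat 0, .negSucc 0, c517x⟩, ⟨.ofNat 1, .ofNat 0, c512x⟩, ⟨.ofNat 0, .ofNat 0, c596x⟩⟩, [407, 408]⟩,
  ⟨⟨⟨c448x, c457x, c517x, c434x⟩, ⟨.ofNat 0, .ofNat 0, c14x⟩, ⟨.ofNat 1, .ofNat 0, c512x⟩, ⟨.ofNat 0, .negSucc 0, c800x⟩⟩, [415, 416]⟩,
  ⟨⟨⟨c457x, c442x, c517x, c440x⟩, ⟨.ofNat 0, .ofNat 0, c14x⟩, ⟨.ofNat 1, .ofNat 0, c512x⟩, ⟨.ofNat 0, .negSucc 0, c800x⟩⟩, [414, 415, 416]⟩,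
  ⟨⟨⟨c442x, c443x, c450x, c517x⟩, ⟨.ofNat 0, .negSucc 0, c517x⟩, ⟨.ofNat 1, .ofNat 0, c512x⟩, ⟨.ofNat 0, .ofNat 0, c596x⟩⟩, [407, 408]⟩,
  ⟨⟨⟨c443x, c463x, c450x, c517x⟩, ⟨.ofNat 0, .negSucc 0, c517x⟩, ⟨.ofNat 1, .ofNat 0, c512x⟩, ⟨.ofNat 0, .ofNat 0, c596x⟩⟩, [408]⟩,
  ⟨⟨⟨c442x, c443x, c517x, c440x⟩, ⟨.ofNat 0, .ofNat 0, c14x⟩, ⟨.ofNat 1, .ofNat 0, c512x⟩, ⟨.ofNat 0, .negSucc 0, c800x⟩⟩, [413, 414]⟩,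
  ⟨⟨⟨c443x, c463x, c517x, c452x⟩, ⟨.ofNat 0, .ofNat 0, c14x⟩, ⟨.ofNat 1, .ofNat 0, c512x⟩, ⟨.ofNat 0, .negSucc 0, c800x⟩⟩, [410, 411, 412, 413, 414]⟩,
  ⟨⟨⟨c463x, c464x, c450x, c517x⟩, ⟨.ofNat 0, .negSucc 0, c517x⟩, ⟨.ofNat 1, .ofNat 0, c512x⟩, ⟨.ofNat 0, .ofNat 0, c596x⟩⟩, [408, 409]⟩,
  ⟨⟨⟨c463x, c464x, c517x, c454x⟩, ⟨.ofNat 0, .ofNat 0, c14x⟩, ⟨.ofNat 1, .ofNat 0, c512x⟩, ⟨.ofNat 0, .negSucc 0, c800x⟩⟩, [409, 410, 411]⟩,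
  ⟨⟨⟨c466x, c465x, c426x, c517x⟩, ⟨.ofNat 0, .negSucc 0, c517x⟩, ⟨.ofNat 1, .ofNat 0, c512x⟩, ⟨.ofNat 0, .ofNat 0, c596x⟩⟩, [399, 400, 401]⟩,
  ⟨⟨⟨c466x, c465x, c517x, c441x⟩, ⟨.ofNat 0, .ofNat 0, c14x⟩, ⟨.ofNat 1, .ofNat 0, c512x⟩, ⟨.ofNat 0, .negSucc 0, c800x⟩⟩, [398, 399]⟩,
  ⟨⟨⟨c465x, c458x, c450x, c517x⟩, ⟨.ofNat 0, .negSucc 0, c517x⟩, ⟨.ofNat 1, .ofNat 0, c512x⟩, ⟨.ofNat 0, .ofNat 0, c596x⟩⟩, [400, 401]⟩,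
  ⟨⟨⟨c458x, c459x, c450x, c517x⟩, ⟨.ofNat 0, .negSucc 0, c517x⟩, ⟨.ofNat 1, .ofNat 0, c512x⟩, ⟨.ofNat 0, .ofNat 0, c596x⟩⟩, [396, 397]⟩,
  ⟨⟨⟨c465x, c458x, c517x, c441x⟩, ⟨.ofNat 0, .ofNat 0, c14x⟩, ⟨.ofNat 1, .ofNat 0, c512x⟩, ⟨.ofNat 0, .negSucc 0, c800x⟩⟩, [398]⟩,
  ⟨⟨⟨c458x, c459x, c517x, c441x⟩, ⟨.ofNat 0, .ofNat 0, c14x⟩, ⟨.ofNat 1, .ofNat 0, c512x⟩, ⟨.ofNat 0, .negSucc 0, c800x⟩⟩, [397, 398]⟩]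

def own : List ℕ := [2, 4, 9, 0, 1, 3, 11, 17, 19, 11, 17, 19, 12, 12, 29, 28, 29, 28, 13, 14, 13, 14, 15, 15, 16, 16, 18, 31, 18, 31, 5, 6, 8, 17, 5, 6, 8, 21, 22, 25, 24, 27, 18, 32, 33, 7, 10, 9, 4, 23, 20, 19, 21, 22, 25, 24, 27, 29, 28, 31, 32, 26, 30, 33, 35, 34, 36, 39, 40, 41, 37, 42, 38, 43, 44, 45, 47, 46, 50, 48, 57, 49, 59, 51, 51, 51, 52, 53, 54, 55, 56, 58, 60, 62, 63, 64, 66, 67, 61, 69, 65, 68, 71, 70, 72, 73, 74, 75, 80, 81, 76, 82, 77, 78, 79, 83, 84, 85, 87, 88, 89, 91, 92, 93, 94, 95, 96, 86, 86, 86, 90, 97, 98, 100, 101, 102, 99, 103, 104, 105, 109, 106, 107, 108, 124, 112, 119, 126, 113, 114, 110, 111, 138, 139, 120, 120, 121, 122, 122, 115, 116, 117, 125, 118, 123, 125, 123, 141,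 142, 124, 119, 127, 128, 126, 113, 129, 130, 131, 136, 136, 129, 130, 131, 138, 139, 120, 121, 122, 132, 127, 128, 133, 135, 134, 137, 137, 136, 129, 143, 144, 140, 125, 145, 141, 142, 146, 124, 147, 148, 150, 152, 155, 156, 149, 151, 153, 154, 161, 162, 163, 158, 157, 159, 160, 164, 165, 172, 173, 166, 168, 167, 174, 169, 170, 171, 178, 179, 180, 175, 181, 176, 177, 182, 183, 189, 190, 184, 186, 187, 185, 191, 187, 188, 188, 199, 195, 198, 196, 197, 192, 194, 201, 193, 208, 207, 211, 202, 200, 205, 206, 203, 204, 212, 213, 209, 210, 220, 214, 215, 216, 217, 218, 219, 221, 222, 224, 225, 223, 227, 230, 232, 231, 226, 228, 229, 233, 235, 236, 237, 247, 238, 239, 240, 248, 250, 224, 225, 230, 233, 241,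 230, 233, 241, 234, 244, 242, 231, 232, 243, 226, 228, 229, 235, 237, 247, 248, 250, 245, 246, 249, 252, 235, 251, 245, 246, 247, 254, 248, 249, 250, 251, 252, 253, 255, 256, 257, 258, 260, 261, 262, 264, 265, 259, 266, 268, 267, 279, 269, 263, 270, 271, 272, 281, 273, 274, 275, 276, 277, 280, 278, 284, 287, 288, 285, 282, 289, 290, 283, 291, 286, 292, 293, 294, 295, 296, 297, 297, 298, 299, 300, 301, 302, 296, 304, 305, 306, 303, 307, 316, 308, 309, 317, 318, 310, 311, 312, 313, 315, 319, 314, 320, 322, 323, 327, 324, 325, 321, 329, 326, 328, 330, 331, 332, 333, 335, 337, 339, 334, 336, 338, 342, 343, 340, 341, 345, 346, 347, 348, 349, 356, 344, 358, 333, 334, 336, 354, 340, 341, 345, 357, 359, 360,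 361, 348, 366, 360, 361, 350, 338, 342, 351, 352, 353, 355, 354, 343, 355, 354, 343, 346, 362, 362, 356, 357, 356, 357, 363, 364, 363, 364, 365, 365, 367, 367, 366, 359, 366, 359]

def ct : List Tr := [
  .leaf 3,
  .leaf 4,
  .leaf 0,
  .leaf 5,
  .sy c4x (.leaf 1) (.leaf 48),
  .sy c4x (.leaf 30) (.leaf 34),
  .sy c4x (.leaf 31) (.leaf 35),
  .leaf 45,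
  .sy c4x (.leaf 32) (.leaf 36),
  .sy c4x (.leaf 2) (.leaf 47),
  .leaf 46,
  .sy c470x (.leaf 6) (.leaf 9),
  .sy c470x (.leaf 12) (.leaf 13),
  .sy c470x (.leaf 18) (.leaf 20),
  .sy c470x (.leaf 19) (.leaf 21),
  .sy c470x (.leaf 22) (.leaf 23),
  .sy c470x (.leaf 24) (.leaf 25),
  .sy c470x (.leaf 7) (.sy c4x (.leaf 10) (.leaf 33)),
  .sy c470x (.leaf 26) (.sy c4x (.leaf 28) (.leaf 42)),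
  .sy c470x (.leaf 8) (.sy c4x (.leaf 11) (.leaf 51)),
  .leaf 50,
  .sy c4x (.leaf 37) (.leaf 52),
  .sy c4x (.leaf 38) (.leaf 53),
  .leaf 49,
  .sy c4x (.leaf 40) (.leaf 55),
  .sy c4x (.leaf 39) (.leaf 54),
  .leaf 61,
  .sy c4x (.leaf 41) (.leaf 56),
  .sy c470x (.leaf 15) (.sy c4x (.leaf 17) (.leaf 58)),
  .sy c470x (.leaf 14) (.sy c4x (.leaf 16) (.leaf 57)),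
  .leaf 62,
  .sy c470x (.leaf 27) (.sy c4x (.leaf 29) (.leaf 59)),
  .sy c4x (.leaf 43) (.leaf 60),
  .sy c4x (.leaf 44) (.leaf 63),
  .leaf 65,
  .leaf 64,
  .leaf 66,
  .leaf 70,
  .leaf 72,
  .leaf 67,
  .leaf 68,
  .leaf 69,
  .leaf 71,
  .leaf 73,
  .leaf 74,
  .leaf 75,
  .leaf 77,
  .leaf 76,
  .leaf 79,
  .leaf 81,
  .leaf 78,
  .sx c476x (.leaf 83) (.sx c477x (.leaf 84) (.leaf 85)),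
  .leaf 86,
  .leaf 87,
  .leaf 88,
  .leaf 89,
  .leaf 90,
  .leaf 80,
  .leaf 91,
  .leaf 82,
  .leaf 92,
  .leaf 98,
  .leaf 93,
  .leaf 94,
  .leaf 95,
  .leaf 100,
  .leaf 96,
  .leaf 97,
  .leaf 101,
  .leaf 99,
  .leaf 103,
  .leaf 102,
  .leaf 104,
  .leaf 105,
  .leaf 106,
  .leaf 107,
  .leaf 110,
  .leaf 112,
  .leaf 113,
  .leaf 114,
  .leaf 108,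
  .leaf 109,
  .leaf 111,
  .leaf 115,
  .leaf 116,
  .leaf 117,
  .sx c480x (.leaf 127) (.sx c481x (.leaf 128) (.leaf 129)),
  .leaf 118,
  .leaf 119,
  .leaf 120,
  .leaf 130,
  .leaf 121,
  .leaf 122,
  .leaf 123,
  .leaf 124,
  .leaf 125,
  .leaf 126,
  .leaf 131,
  .leaf 132,
  .leaf 136,
  .leaf 133,
  .leaf 134,
  .leaf 135,
  .leaf 137,
  .leaf 138,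
  .leaf 139,
  .leaf 141,
  .leaf 142,
  .leaf 143,
  .leaf 140,
  .leaf 150,
  .leaf 151,
  .leaf 145,
  .sy c162x (.leaf 148) (.leaf 174),
  .leaf 149,
  .leaf 159,
  .leaf 160,
  .leaf 161,
  .leaf 163,
  .sy c162x (.leaf 146) (.leaf 170),
  .sy c162x (.leaf 154) (.sy c786x (.leaf 155) (.leaf 185)),
  .sy c786x (.leaf 156) (.leaf 186),
  .sy c162x (.leaf 157) (.sy c786x (.leaf 158) (.leaf 187)),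
  .sy c162x (.leaf 164) (.leaf 166),
  .sy c162x (.leaf 144) (.sy c786x (.leaf 169) (.leaf 206)),
  .sy c162x (.leaf 162) (.sy c786x (.leaf 165) (.leaf 201)),
  .sy c162x (.leaf 147) (.leaf 173),
  .sy c162x (.leaf 171) (.leaf 189),
  .sy c162x (.leaf 172) (.leaf 190),
  .sy c162x (.leaf 175) (.sy c786x (.leaf 180) (.leaf 197)),
  .sy c162x (.leaf 176) (.leaf 181),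
  .sy c162x (.leaf 177) (.leaf 182),
  .leaf 188,
  .leaf 191,
  .leaf 193,
  .leaf 192,
  .sy c162x (.leaf 178) (.sy c786x (.leaf 179) (.leaf 196)),
  .sy c786x (.leaf 194) (.leaf 195),
  .sy c786x (.leaf 152) (.leaf 183),
  .sy c786x (.leaf 153) (.leaf 184),
  .leaf 200,
  .sy c786x (.leaf 167) (.leaf 203),
  .sy c786x (.leaf 168) (.leaf 204),
  .leaf 198,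
  .leaf 199,
  .leaf 202,
  .leaf 205,
  .leaf 207,
  .leaf 208,
  .leaf 213,
  .leaf 209,
  .leaf 214,
  .leaf 210,
  .leaf 215,
  .leaf 216,
  .leaf 211,
  .leaf 212,
  .leaf 221,
  .leaf 220,
  .leaf 222,
  .leaf 223,
  .leaf 217,
  .leaf 218,
  .leaf 219,
  .leaf 224,
  .leaf 225,
  .leaf 228,
  .leaf 230,
  .leaf 229,
  .leaf 232,
  .leaf 233,
  .leaf 234,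
  .leaf 226,
  .leaf 227,
  .leaf 231,
  .leaf 238,
  .leaf 240,
  .leaf 241,
  .leaf 235,
  .leaf 236,
  .leaf 237,
  .leaf 239,
  .leaf 242,
  .leaf 243,
  .leaf 246,
  .leaf 249,
  .leaf 247,
  .sx c259x (.leaf 248) (.leaf 251),
  .sx c239x (.leaf 252) (.leaf 253),
  .leaf 244,
  .leaf 245,
  .leaf 250,
  .leaf 259,
  .leaf 262,
  .leaf 260,
  .leaf 255,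
  .leaf 257,
  .leaf 258,
  .leaf 256,
  .leaf 254,
  .leaf 267,
  .leaf 261,
  .leaf 266,
  .leaf 270,
  .leaf 271,
  .leaf 268,
  .leaf 269,
  .leaf 264,
  .leaf 263,
  .leaf 274,
  .leaf 275,
  .leaf 265,
  .leaf 272,
  .leaf 273,
  .leaf 277,
  .leaf 278,
  .leaf 279,
  .leaf 280,
  .leaf 281,
  .leaf 282,
  .leaf 276,
  .leaf 283,
  .leaf 284,
  .leaf 287,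
  .sy c295x (.leaf 285) (.leaf 305),
  .sy c295x (.leaf 286) (.leaf 306),
  .sy c295x (.leaf 292) (.leaf 319),
  .leaf 288,
  .sy c295x (.leaf 293) (.leaf 320),
  .sy c295x (.leaf 294) (.leaf 321),
  .sy c295x (.leaf 289) (.sy c794x (.leaf 307) (.leaf 310)),
  .sy c295x (.leaf 291) (.leaf 316),
  .sy c295x (.leaf 290) (.leaf 317),
  .sy c295x (.leaf 295) (.sy c794x (.leaf 308) (.leaf 311)),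
  .leaf 313,
  .sy c295x (.leaf 296) (.sy c794x (.leaf 322) (.leaf 331)),
  .leaf 297,
  .sy c295x (.leaf 298) (.leaf 323),
  .leaf 300,
  .leaf 301,
  .leaf 302,
  .sy c794x (.leaf 309) (.leaf 312),
  .leaf 315,
  .leaf 318,
  .leaf 314,
  .sy c794x (.leaf 327) (.leaf 333),
  .sy c794x (.leaf 328) (.leaf 334),
  .sy c295x (.leaf 299) (.sy c794x (.leaf 324) (.leaf 335)),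
  .sy c295x (.leaf 303) (.sy c794x (.leaf 325) (.leaf 337)),
  .sy c794x (.leaf 329) (.leaf 338),
  .sy c295x (.leaf 304) (.sy c794x (.leaf 326) (.leaf 339)),
  .sy c794x (.leaf 332) (.leaf 340),
  .sy c794x (.leaf 330) (.leaf 341),
  .leaf 342,
  .leaf 336,
  .leaf 343,
  .leaf 344,
  .leaf 345,
  .leaf 346,
  .leaf 352,
  .leaf 347,
  .leaf 348,
  .leaf 349,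
  .leaf 358,
  .leaf 350,
  .leaf 351,
  .leaf 353,
  .leaf 355,
  .leaf 354,
  .leaf 357,
  .leaf 359,
  .leaf 360,
  .leaf 361,
  .leaf 363,
  .leaf 364,
  .leaf 365,
  .leaf 366,
  .leaf 367,
  .leaf 369,
  .leaf 356,
  .leaf 368,
  .leaf 362,
  .leaf 374,
  .leaf 377,
  .leaf 370,
  .leaf 373,
  .leaf 379,
  .leaf 371,
  .leaf 372,
  .leaf 375,
  .leaf 376,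
  .leaf 378,
  .leaf 380,
  .leaf 381,
  .leaf 382,
  .leaf 383,
  .sx c398x (.leaf 384) (.leaf 392),
  .sx c399x (.leaf 385) (.leaf 386),
  .leaf 387,
  .leaf 388,
  .leaf 389,
  .leaf 390,
  .leaf 391,
  .leaf 396,
  .leaf 393,
  .leaf 394,
  .leaf 395,
  .leaf 397,
  .leaf 399,
  .leaf 400,
  .leaf 403,
  .leaf 404,
  .leaf 405,
  .leaf 406,
  .leaf 409,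
  .leaf 407,
  .leaf 398,
  .leaf 401,
  .leaf 402,
  .leaf 408,
  .leaf 410,
  .leaf 416,
  .leaf 411,
  .leaf 412,
  .leaf 414,
  .leaf 415,
  .leaf 418,
  .leaf 413,
  .leaf 419,
  .leaf 417,
  .leaf 420,
  .leaf 421,
  .leaf 422,
  .sy c450x (.leaf 423) (.leaf 442),
  .sy c450x (.leaf 427) (.leaf 443),
  .leaf 424,
  .sy c450x (.leaf 428) (.leaf 444),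
  .leaf 425,
  .sy c450x (.leaf 429) (.leaf 458),
  .leaf 426,
  .sy c450x (.leaf 432) (.leaf 446),
  .sy c450x (.leaf 433) (.leaf 447),
  .sy c450x (.leaf 430) (.leaf 459),
  .sy c450x (.leaf 431) (.sy c517x (.leaf 465) (.leaf 468)),
  .leaf 440,
  .sy c450x (.leaf 434) (.leaf 448),
  .sy c450x (.leaf 435) (.leaf 469),
  .leaf 436,
  .sy c450x (.leaf 437) (.leaf 453),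
  .leaf 438,
  .leaf 457,
  .leaf 460,
  .leaf 461,
  .leaf 462,
  .sy c450x (.leaf 445) (.sy c517x (.leaf 464) (.leaf 467)),
  .sy c517x (.leaf 463) (.leaf 466),
  .sy c450x (.leaf 439) (.sy c517x (.leaf 472) (.leaf 474)),
  .sy c450x (.leaf 449) (.sy c517x (.leaf 473) (.leaf 475)),
  .leaf 441,
  .sy c450x (.leaf 450) (.sy c517x (.leaf 485) (.leaf 487)),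
  .sy c450x (.leaf 451) (.leaf 455),
  .sy c450x (.leaf 452) (.leaf 456),
  .sy c517x (.leaf 470) (.leaf 471),
  .sy c517x (.leaf 476) (.leaf 478),
  .sy c517x (.leaf 477) (.leaf 479),
  .sy c517x (.leaf 480) (.leaf 481),
  .sy c450x (.leaf 454) (.sy c517x (.leaf 484) (.leaf 486)),
  .sy c517x (.leaf 482) (.leaf 483)]

def t0x : Tr :=
  .sx c801x (.sx c583x (.sx c530x (.sy c535x (.sx c528x (.sy c536x (.sy c529x (.leaf 0) (.sy c526x (.leaf 46) (.leaf 347))) (.sx c529x (.sy c538x (.sy c537x (.leaf 260) (.leaf 366)) (.leaf 253)) (.leaf 254))) (.sy c526x (.sx c527x (.leaf 36) (.sy c531x (.sx c532x (.leaf 6) (.sx c533x (.leaf 7) (.leaf 8))) (.leaf 45))) (.sx c527x (.sy c539x (.leaf 352) (.leaf 255)) (.sy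 c60x (.leaf 346) (.leaf 256))))) (.sy c541x (.leaf 127) (.sx c527x (.sx c528x (.sy c594x (.leaf 425) (.leaf 457)) (.leaf 428)) (.sy c154x (.leaf 424) (.sx c532x (.leaf 466) (.sx c533x (.leaf 467) (.leaf 468))))))) (.sx c546x (.sx c8x (.sy c535x (.sx c534x (.sy c526x (.leaf 35) (.sy c540x (.leaf 351) (.leaf 257))) (.sy c526x (.leaf 34) (.sy c73x (.leaf 350) (.leaf 258)))) (.sy c541x (.leaf 127) (.sx c534x (.leaf 427) (.leaf 423)))) (.sy c544x (.sy c545x (.leaf 341) (.leaf 261)) (.sy c547x (.leaf 117) (.sy c543x (.leaf 418) (.leaf 183))))) (.sy c544x (.sy c545x (.sx c524x (.leaf 340) (.leaf 339)) (.leaf 261)) (.sx c524x (.sy c548x (.leaf 116) (.sy c543x (.leaf 417) (.leaf 184))) (.sy c584x (.leaf 114)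 (.sy c543x (.sx c579x (.leaf 416) (.sy c117x (.sx c580x (.sy c585x (.leaf 408) (.leaf 126)) (.sy c586x (.leaf 402) (.leaf 125))) (.leaf 420))) (.leaf 185))))))) (.sy c544x (.sx c802x (.sy c545x (.sx c581x (.sx c582x (.leaf 338) (.leaf 337)) (.sy c803x (.sx c473x (.leaf 12) (.leaf 14)) (.leaf 345))) (.leaf 261)) (.sy c545x (.sx c804x (.sy c805x (.sx c39x (.leaf 15) (.leaf 18)) (.leaf 344)) (.sx c806x (.sy c807x (.leaf 19) (.leaf 343)) (.sx c808x (.sy c809x (.leaf 22) (.leaf 336)) (.leaf 335)))) (.leaf 261))) (.sy c543x (.sx c810x (.sx c581x (.sy c117x (.sx c582x (.leaf 115) (.sy c104x (.sx c587x (.sy c588x (.leaf 113) (.leaf 401)) (.sy c589x (.leaf 105) (.leaf 400))) (.leaf 124))) (.leaf 420)) (.sy c590x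 (.leaf 112) (.sx c473x (.sy c104x (.leaf 399) (.sy c591x (.leaf 123) (.leaf 421))) (.leaf 410)))) (.sx c808x (.sx c804x (.sy c633x (.leaf 110) (.sx c39x (.leaf 415) (.sy c104x (.leaf 398) (.sy c585x (.leaf 122) (.leaf 419))))) (.sy c585x (.leaf 111) (.leaf 419))) (.sy c548x (.leaf 109) (.leaf 414)))) (.sx c802x (.sx c581x (.sx c582x (.leaf 186) (.leaf 187)) (.sy c744x (.leaf 198) (.sx c473x (.leaf 471) (.leaf 474)))) (.sx c804x (.sy c811x (.leaf 199) (.sx c39x (.leaf 475) (.leaf 478))) (.sx c806x (.sy c745x (.leaf 205) (.leaf 479)) (.sx c808x (.sy c812x (.leaf 200) (.leaf 481)) (.leaf 201)))))))) (.sx c57x (.sx c27x (.sy c544x (.sy c545x (.sx c813x (.sy c531x (.sx c814x (.leaf 24) (.sx c815x (.leaf 26)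 (.leaf 27))) (.leaf 342)) (.sx c816x (.leaf 334) (.leaf 333))) (.leaf 261)) (.sx c813x (.sy c154x (.sy c632x (.leaf 108) (.sy c543x (.leaf 413) (.leaf 202))) (.sx c814x (.leaf 483) (.sx c815x (.leaf 486) (.leaf 487)))) (.sx c816x (.sy c586x (.leaf 107) (.sy c543x (.leaf 412) (.leaf 203))) (.sy c547x (.leaf 106) (.sy c543x (.leaf 411) (.leaf 204)))))) (.sx c817x (.sy c535x (.sx c818x (.sy c526x (.leaf 331) (.sx c819x (.sy c73x (.leaf 274) (.leaf 101)) (.sy c539x (.leaf 275) (.leaf 97)))) (.sx c820x (.sy c623x (.sy c526x (.leaf 331) (.sx c821x (.leaf 265) (.sy c620x (.leaf 281) (.sx c822x (.sy c536x (.leaf 89) (.leaf 270)) (.sy c540x (.leaf 90) (.leaf 266)))))) (.leaf 103)) (.sy c620x (.sy c526x (.leaf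 331) (.leaf 281)) (.sx c823x (.leaf 96) (.sy c537x (.leaf 88) (.sx c824x (.sy c622x (.leaf 271) (.leaf 100)) (.sy c621x (.leaf 267) (.leaf 104)))))))) (.sy c541x (.leaf 407) (.leaf 206))) (.sy c535x (.sx c825x (.sx c826x (.sy c619x (.sy c526x (.leaf 331) (.sx c827x (.sy c618x (.leaf 282) (.sy c537x (.leaf 87) (.leaf 268))) (.leaf 272))) (.leaf 102)) (.sy c526x (.leaf 331) (.sx c49x (.sy c538x (.leaf 273) (.leaf 99)) (.sy c536x (.leaf 276) (.sx c828x (.sy c537x (.leaf 86) (.sy c538x (.leaf 269) (.leaf 99))) (.leaf 95)))))) (.sx c829x (.sy c526x (.leaf 331) (.sx c830x (.sy c539x (.leaf 277) (.leaf 94)) (.sy c60x (.leaf 278) (.leaf 93)))) (.sy c526x (.leaf 331) (.sx c831x (.sy c540x (.leaf 279) (.leaf 98))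 (.sy c73x (.leaf 280) (.leaf 92)))))) (.sy c541x (.leaf 407) (.leaf 206))))) (.sy c544x (.sy c545x (.sx c832x (.sx c833x (.leaf 285) (.sx c834x (.leaf 286) (.leaf 289))) (.sy c19x (.sy c529x (.sx c835x (.leaf 295) (.leaf 315)) (.leaf 314)) (.sx c836x (.leaf 283) (.sy c528x (.leaf 313) (.leaf 284))))) (.leaf 85)) (.sy c543x (.sx c837x (.sx c834x (.sx c833x (.sy c547x (.leaf 395) (.leaf 213)) (.sy c548x (.leaf 394) (.leaf 209))) (.sy c584x (.leaf 387) (.sx c832x (.leaf 214) (.sy c117x (.sx c835x (.sy c585x (.leaf 217) (.leaf 409)) (.sy c586x (.leaf 228) (.leaf 406))) (.leaf 207))))) (.sx c836x (.sy c117x (.sx c838x (.leaf 397) (.sy c104x (.sx c839x (.sy c588x (.leaf 393) (.leaf 218)) (.sy c589x (.leaf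 383) (.leaf 230))) (.leaf 405))) (.leaf 207)) (.sy c104x (.sy c590x (.leaf 386) (.leaf 229)) (.sy c591x (.leaf 404) (.leaf 208))))) (.sx c832x (.sx c834x (.sx c833x (.leaf 177) (.leaf 176)) (.leaf 175)) (.sy c593x (.sx c836x (.leaf 151) (.sy c599x (.leaf 150) (.leaf 192))) (.sy c594x (.leaf 193) (.sx c835x (.leaf 178) (.leaf 191))))))))

def t1x : Tr :=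
  .sx c801x (.sx c524x (.sx c533x (.sy c535x (.sy c526x (.sy c19x (.sy c529x (.sx c532x (.leaf 3) (.leaf 33)) (.leaf 4)) (.sx c529x (.sy c528x (.leaf 5) (.leaf 49)) (.leaf 50))) (.sx c529x (.sy c537x (.sy c618x (.leaf 348) (.leaf 263)) (.sy c619x (.leaf 367) (.leaf 248))) (.sx c527x (.sy c620x (.leaf 349) (.sx c528x (.sy c537x (.leaf 262) (.sx c19x (.sy c621x (.leaf 369) (.leaf 247)) (.sy c622x (.leaf 356) (.leaf 249)))) (.leaf 250))) (.sy c623x (.sy c620x (.leaf 349) (.sx c532x (.sy c540x (.leaf 259) (.leaf 368)) (.sy c536x (.leaf 264) (.leaf 357)))) (.leaf 246))))) (.sy c593x (.sy c541x (.leaf 129) (.sx c529x (.sy c599x (.leaf 422) (.leaf 462)) (.leaf 426))) (.sy c594x (.leaf 461) (.sx c532x (.leaf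 460) (.leaf 445))))) (.sx c8x (.sy c535x (.sx c530x (.sy c526x (.leaf 51) (.sy c623x (.leaf 355) (.leaf 246))) (.sx c534x (.sy c526x (.leaf 52) (.sy c539x (.leaf 358) (.leaf 245))) (.sy c526x (.leaf 53) (.sy c73x (.leaf 359) (.leaf 244))))) (.sy c541x (.leaf 129) (.sx c530x (.leaf 431) (.sx c534x (.leaf 432) (.leaf 433))))) (.sy c544x (.sy c545x (.sx c546x (.leaf 54) (.leaf 55)) (.leaf 362)) (.sx c546x (.sy c547x (.leaf 243) (.sy c543x (.leaf 133) (.leaf 434))) (.sy c586x (.leaf 242) (.sy c543x (.leaf 134) (.leaf 435))))))) (.sx c802x (.sy c544x (.sy c545x (.sx c582x (.sx c583x (.sy c531x (.leaf 304) (.leaf 61)) (.leaf 56)) (.sx c473x (.sy c529x (.sx c581x (.leaf 303) (.leaf 302)) (.leaf 62)) (.leaf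 57))) (.leaf 362)) (.sy c543x (.sx c582x (.sx c583x (.sy c632x (.leaf 241) (.leaf 137)) (.sy c548x (.leaf 240) (.leaf 138))) (.sx c581x (.sy c585x (.leaf 238) (.leaf 139)) (.sy c633x (.leaf 239) (.sx c473x (.sy c104x (.leaf 118) (.sy c585x (.leaf 227) (.leaf 139))) (.leaf 135))))) (.sx c582x (.sx c583x (.sy c154x (.leaf 436) (.leaf 154)) (.leaf 437)) (.sx c473x (.sy c594x (.leaf 438) (.sx c581x (.leaf 157) (.leaf 159))) (.leaf 439))))) (.sx c804x (.sy c590x (.sy c545x (.sx c39x (.leaf 58) (.sy c528x (.leaf 301) (.leaf 64))) (.sy c544x (.leaf 362) (.leaf 237))) (.sy c543x (.sx c39x (.leaf 132) (.sy c104x (.leaf 119) (.sy c591x (.leaf 223) (.leaf 140)))) (.sx c39x (.leaf 449) (.sy c599x (.leaf 440) (.leaf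 160))))) (.sy c117x (.sy c544x (.sy c19x (.sx c808x (.leaf 300) (.leaf 299)) (.sy c545x (.leaf 65) (.leaf 362))) (.sx c808x (.sy c104x (.sx c806x (.sy c589x (.leaf 236) (.leaf 120)) (.sy c588x (.leaf 235) (.leaf 130))) (.leaf 226)) (.leaf 231))) (.sy c593x (.sy c543x (.leaf 141) (.leaf 441)) (.sx c808x (.leaf 161) (.leaf 162))))))) (.sx c828x (.sx c27x (.sy c544x (.sy c545x (.sx c815x (.sy c19x (.sx c814x (.leaf 298) (.sy c529x (.leaf 42) (.leaf 297))) (.leaf 65)) (.sx c813x (.leaf 59) (.sx c816x (.leaf 60) (.leaf 63)))) (.leaf 362)) (.sy c543x (.sx c813x (.sy c584x (.leaf 234) (.sx c815x (.sy c117x (.sx c814x (.sy c586x (.leaf 121) (.leaf 225)) (.sy c585x (.leaf 131) (.leaf 222))) (.leaf 141)) (.leaf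 136))) (.sx c816x (.sy c548x (.leaf 233) (.leaf 142)) (.sy c547x (.leaf 232) (.leaf 143)))) (.sx c815x (.sy c593x (.leaf 441) (.sx c814x (.leaf 164) (.sy c594x (.leaf 163) (.leaf 454)))) (.sx c813x (.leaf 450) (.sx c816x (.leaf 451) (.leaf 452)))))) (.sy c535x (.sx c823x (.sx c818x (.sy c526x (.leaf 296) (.sx c819x (.sy c73x (.leaf 68) (.leaf 371)) (.sy c540x (.leaf 69) (.leaf 372)))) (.sy c526x (.leaf 296) (.sx c820x (.sy c60x (.leaf 70) (.leaf 370)) (.sy c539x (.leaf 71) (.leaf 373))))) (.sx c840x (.sy c526x (.leaf 296) (.sx c827x (.sy c536x (.leaf 72) (.sx c817x (.leaf 374) (.sy c537x (.leaf 363) (.sy c538x (.leaf 79) (.leaf 375))))) (.sy c538x (.leaf 73) (.leaf 375)))) (.sy c526x (.leaf 296) (.sy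 c619x (.sx c49x (.leaf 77) (.sy c618x (.leaf 66) (.sy c537x (.leaf 360) (.leaf 80)))) (.leaf 381))))) (.sy c541x (.leaf 224) (.leaf 144)))) (.sx c833x (.sx c57x (.sy c535x (.sx c829x (.sy c526x (.leaf 296) (.sx c830x (.sy c620x (.leaf 67) (.sx c825x (.sy c537x (.leaf 364) (.sx c841x (.sy c621x (.leaf 91) (.leaf 382)) (.sy c622x (.leaf 81) (.leaf 376)))) (.leaf 377))) (.sy c623x (.sx c842x (.sy c620x (.leaf 67) (.sx c843x (.sy c540x (.leaf 365) (.leaf 82)) (.sy c536x (.leaf 361) (.leaf 78)))) (.leaf 76)) (.leaf 378)))) (.sy c526x (.leaf 296) (.sx c831x (.sy c539x (.leaf 74) (.leaf 379)) (.sy c73x (.leaf 75) (.leaf 380))))) (.sy c541x (.leaf 224) (.leaf 144))) (.sy c544x (.sy c545x (.leaf 294) (.leaf 83))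 (.sy c543x (.sy c547x (.leaf 388) (.leaf 221)) (.leaf 146)))) (.sx c837x (.sy c544x (.sy c545x (.sx c834x (.leaf 293) (.sy c531x (.sx c832x (.leaf 310) (.sx c835x (.leaf 311) (.leaf 312))) (.leaf 288))) (.leaf 83)) (.sy c543x (.sx c834x (.sy c586x (.leaf 389) (.leaf 220)) (.sy c632x (.leaf 390) (.leaf 212))) (.sx c834x (.leaf 147) (.sy c154x (.leaf 145) (.sx c835x (.sx c832x (.leaf 197) (.leaf 196)) (.leaf 195)))))) (.sy c544x (.sy c545x (.sx c838x (.leaf 292) (.sy c529x (.leaf 318) (.leaf 287))) (.leaf 83)) (.sx c838x (.sy c543x (.sy c548x (.leaf 391) (.leaf 211)) (.leaf 148)) (.sy c585x (.sx c836x (.leaf 396) (.sy c633x (.leaf 384) (.sy c104x (.leaf 219) (.leaf 403)))) (.sy c543x (.leaf 210) (.sy c594x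 (.leaf 149) (.leaf 188)))))))))

def t2x : Tr :=
  .sy c535x (.sx c649x (.sy c526x (.leaf 47) (.sy c538x (.leaf 353) (.leaf 252))) (.sy c526x (.leaf 48) (.sy c619x (.leaf 354) (.leaf 251)))) (.sy c541x (.leaf 128) (.sx c649x (.leaf 429) (.leaf 430)))

def t3x : Tr :=
  .sy c544x (.sy c545x (.sx c650x (.leaf 290) (.leaf 291)) (.leaf 84)) (.sx c650x (.sy c543x (.sy c590x (.leaf 385) (.leaf 216)) (.leaf 172)) (.sy c543x (.sy c633x (.leaf 392) (.leaf 215)) (.leaf 171)))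

def t4x : Tr :=
  .sy c804x (.sy c8x (.sy c533x (.sy c532x (.sx c649x (.sy c528x (.leaf 2) (.sy c527x (.leaf 32) (.leaf 9))) (.leaf 1)) (.leaf 10)) (.sy c534x (.sy c530x (.leaf 11) (.sx c650x (.leaf 31) (.leaf 37))) (.sx c4x (.leaf 30) (.leaf 38)))) (.sy c583x (.sy c546x (.sx c4x (.leaf 330) (.leaf 39)) (.sy c524x (.sx c649x (.leaf 332) (.leaf 40)) (.leaf 326))) (.sy c581x (.sy c582x (.sx c650x (.leaf 329) (.leaf 41)) (.leaf 325)) (.sy c802x (.sy c473x (.leaf 13) (.leaf 16)) (.sy c39x (.leaf 17) (.leaf 20)))))) (.sy c27x (.sy c814x (.sy c808x (.sy c806x (.leaf 21) (.leaf 23)) (.sy c801x (.leaf 324) (.sx c649x (.leaf 25) (.leaf 323)))) (.sy c813x (.sy c815x (.leaf 28) (.leaf 29)) (.sy c816x (.sx c650x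 (.leaf 328) (.leaf 43)) (.sx c4x (.leaf 327) (.leaf 44))))) (.sy c834x (.sy c833x (.sy c57x (.leaf 322) (.sx c4x (.leaf 305) (.leaf 321))) (.sx c649x (.leaf 306) (.leaf 320))) (.sy c835x (.sy c832x (.leaf 307) (.leaf 308)) (.sx c650x (.leaf 317) (.sy c837x (.leaf 309) (.sy c838x (.leaf 319) (.leaf 316)))))))

def t5x : Tr :=
  .sy c804x (.sy c8x (.sy c533x (.sy c532x (.sx c649x (.sy c528x (.leaf 458) (.sy c527x (.leaf 444) (.leaf 463))) (.leaf 459)) (.leaf 464)) (.sy c534x (.sy c530x (.leaf 465) (.sx c650x (.leaf 443) (.leaf 446))) (.sx c4x (.leaf 442) (.leaf 447)))) (.sy c583x (.sy c546x (.sx c4x (.leaf 152) (.leaf 448)) (.sy c524x (.sx c649x (.leaf 153) (.leaf 469)) (.leaf 155))) (.sy c581x (.sy c582x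 (.sx c650x (.leaf 156) (.leaf 453)) (.leaf 158)) (.sy c802x (.sy c473x (.leaf 470) (.leaf 472)) (.sy c39x (.leaf 473) (.leaf 476)))))) (.sy c27x (.sy c814x (.sy c808x (.sy c806x (.leaf 477) (.leaf 480)) (.sy c801x (.leaf 165) (.sx c649x (.leaf 482) (.leaf 166)))) (.sy c813x (.sy c815x (.leaf 484) (.leaf 485)) (.sy c816x (.sx c650x (.leaf 167) (.leaf 455)) (.sx c4x (.leaf 168) (.leaf 456))))) (.sy c834x (.sy c833x (.sy c57x (.leaf 169) (.sx c4x (.leaf 182) (.leaf 170))) (.sx c649x (.leaf 181) (.leaf 173))) (.sy c835x (.sy c832x (.leaf 180) (.leaf 179)) (.sx c650x (.leaf 190) (.sy c837x (.leaf 194) (.sy c838x (.leaf 174) (.leaf 189)))))))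

def bx : BoxData := ⟨c468x, c785x, c596x, own, ps, ct, t0x, t1x, t2x, t3x, t4x, t5x⟩

end Pool.Agent.Box4.BC
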