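import Pool.Agent.Box4.Num
set_option linter.all false
set_option autoImplicit false

namespace Pool.Agent.Box4.BD

open Pool.Agent.Box3

def ps : List PB := [
  ⟨⟨⟨c14x, c15x, c14x, c4x⟩, ⟨.ofNat 0, .negSucc 0, c4x⟩, ⟨.negSucc 0, .ofNat 0, c8x⟩, ⟨.ofNat 0, .ofNat 0, c14x⟩⟩, [0, 1, 787]⟩,
  ⟨⟨⟨c15x, c16x, c17x, c4x⟩, ⟨.ofNat 0, .negSucc 0, c4x⟩, ⟨.negSucc 0, .ofNat 0, c8x⟩, ⟨.ofNat 0, .ofNat 0, c14x⟩⟩, [0, 1, 2, 3]⟩,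
  ⟨⟨⟨c18x, c20x, c21x, c4x⟩, ⟨.ofNat 0, .negSucc 0, c4x⟩, ⟨.negSucc 0, .ofNat 0, c8x⟩, ⟨.ofNat 0, .ofNat 0, c14x⟩⟩, [5, 6, 7]⟩,
  ⟨⟨⟨c7x, c8x, c9x, c4x⟩, ⟨.ofNat 0, .ofNat 0, c14x⟩, ⟨.ofNat 0, .negSucc 0, c4x⟩, ⟨.negSucc 0, .ofNat 0, c8x⟩⟩, [9, 10, 11, 12]⟩,
  ⟨⟨⟨c8x, c12x, c9x, c4x⟩, ⟨.ofNat 1, .ofNat 0, c467x⟩, ⟨.ofNat 0, .negSucc 0, c4x⟩, ⟨.ofNat 0, .ofNat 0, c14x⟩⟩, [9, 10, 12, 13]⟩,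
  ⟨⟨⟨c12x, c1x, c3x, c4x⟩, ⟨.ofNat 1, .ofNat 0, c467x⟩, ⟨.ofNat 0, .negSucc 0, c4x⟩, ⟨.ofNat 0, .ofNat 0, c14x⟩⟩, [12, 13, 14, 20, 21]⟩,
  ⟨⟨⟨c1x, c2x, c3x, c4x⟩, ⟨.ofNat 0, .ofNat 0, c468x⟩, ⟨.ofNat 0, .negSucc 0, c4x⟩, ⟨.ofNat 1, .ofNat 0, c469x⟩⟩, [14, 15, 20, 21]⟩,
  ⟨⟨⟨c2x, c5x, c6x, c4x⟩, ⟨.ofNat 0, .ofNat 0, c468x⟩, ⟨.ofNat 0, .negSucc 0, c4x⟩, ⟨.ofNat 1, .ofNat 0, c469x⟩⟩, [14, 15, 16, 17, 18, 20]⟩,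
  ⟨⟨⟨c5x, c10x, c11x, c4x⟩, ⟨.ofNat 0, .ofNat 0, c468x⟩, ⟨.ofNat 0, .negSucc 0, c4x⟩, ⟨.ofNat 1, .ofNat 0, c469x⟩⟩, [17, 18, 19, 20]⟩,
  ⟨⟨⟨c23x, c24x, c25x, c470x⟩, ⟨.ofNat 0, .ofNat 0, c14x⟩, ⟨.ofNat 1, .ofNat 0, c469x⟩, ⟨.ofNat 0, .negSucc 0, c470x⟩⟩, [29, 30]⟩,
  ⟨⟨⟨c24x, c34x, c25x, c470x⟩, ⟨.ofNat 0, .ofNat 0, c14x⟩, ⟨.ofNat 1, .ofNat 0, c469x⟩, ⟨.ofNat 0, .negSucc 0, c470x⟩⟩, [30]⟩,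
  ⟨⟨⟨c34x, c36x, c25x, c470x⟩, ⟨.ofNat 0, .ofNat 0, c14x⟩, ⟨.ofNat 1, .ofNat 0, c469x⟩, ⟨.ofNat 0, .negSucc 0, c470x⟩⟩, [30, 31]⟩,
  ⟨⟨⟨c23x, c24x, c470x, c17x⟩, ⟨.ofNat 0, .ofNat 1, c4x⟩, ⟨.ofNat 1, .ofNat 0, c469x⟩, ⟨.ofNat 0, .ofNat 0, c14x⟩⟩, [27, 28, 29]⟩,
  ⟨⟨⟨c24x, c34x, c470x, c4x⟩, ⟨.ofNat 0, .ofNat 1, c4x⟩, ⟨.ofNat 1, .ofNat 0, c469x⟩, ⟨.ofNat 0, .ofNat 0, c14x⟩⟩, [27, 28]⟩,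
  ⟨⟨⟨c24x, c34x, c4x, c22x⟩, ⟨.ofNat 0, .ofNat 0, c468x⟩, ⟨.ofNat 1, .ofNat 0, c469x⟩, ⟨.ofNat 0, .ofNat 1, c470x⟩⟩, [25, 26, 27]⟩,
  ⟨⟨⟨c34x, c36x, c470x, c4x⟩, ⟨.ofNat 0, .ofNat 1, c4x⟩, ⟨.ofNat 1, .ofNat 0, c469x⟩, ⟨.ofNat 0, .ofNat 0, c14x⟩⟩, [31, 32]⟩,
  ⟨⟨⟨c36x, c38x, c21x, c4x⟩, ⟨.ofNat 0, .ofNat 1, c4x⟩, ⟨.ofNat 1, .ofNat 0, c469x⟩, ⟨.ofNat 0, .ofNat 0, c14x⟩⟩, [31, 32, 33]⟩,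
  ⟨⟨⟨c38x, c39x, c14x, c4x⟩, ⟨.ofNat 0, .ofNat 1, c4x⟩, ⟨.ofNat 1, .ofNat 0, c469x⟩, ⟨.ofNat 0, .ofNat 0, c14x⟩⟩, [32, 33, 34]⟩,
  ⟨⟨⟨c39x, c41x, c14x, c4x⟩, ⟨.ofNat 0, .ofNat 1, c4x⟩, ⟨.ofNat 1, .ofNat 0, c469x⟩, ⟨.ofNat 0, .ofNat 0, c14x⟩⟩, [34, 35]⟩,
  ⟨⟨⟨c41x, c42x, c17x, c4x⟩, ⟨.ofNat 0, .ofNat 1, c4x⟩, ⟨.ofNat 1, .ofNat 0, c469x⟩, ⟨.ofNat 0, .ofNat 0, c14x⟩⟩, [34, 35, 36, 37]⟩,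
  ⟨⟨⟨c44x, c45x, c21x, c4x⟩, ⟨.ofNat 0, .ofNat 1, c4x⟩, ⟨.ofNat 1, .ofNat 0, c469x⟩, ⟨.ofNat 0, .ofNat 0, c14x⟩⟩, [39, 40, 41]⟩,
  ⟨⟨⟨c26x, c27x, c9x, c470x⟩, ⟨.ofNat 0, .ofNat 0, c14x⟩, ⟨.ofNat 1, .ofNat 0, c469x⟩, ⟨.ofNat 0, .negSucc 0, c470x⟩⟩, [45, 46]⟩,
  ⟨⟨⟨c46x, c28x, c3x, c470x⟩, ⟨.ofNat 0, .ofNat 0, c14x⟩, ⟨.ofNat 1, .ofNat 0, c469x⟩, ⟨.ofNat 0, .negSucc 0, c470x⟩⟩, [46, 47, 48]⟩,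
  ⟨⟨⟨c26x, c27x, c470x, c4x⟩, ⟨.ofNat 0, .ofNat 1, c4x⟩, ⟨.ofNat 1, .ofNat 0, c469x⟩, ⟨.ofNat 0, .ofNat 0, c14x⟩⟩, [43, 44, 45]⟩,
  ⟨⟨⟨c27x, c46x, c9x, c470x⟩, ⟨.ofNat 0, .ofNat 0, c14x⟩, ⟨.ofNat 1, .ofNat 0, c469x⟩, ⟨.ofNat 0, .negSucc 0, c470x⟩⟩, [46, 47]⟩,
  ⟨⟨⟨c27x, c46x, c470x, c4x⟩, ⟨.ofNat 0, .ofNat 1, c4x⟩, ⟨.ofNat 1, .ofNat 0, c469x⟩, ⟨.ofNat 0, .ofNat 0, c14x⟩⟩, [43, 44]⟩,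
  ⟨⟨⟨c28x, c29x, c3x, c470x⟩, ⟨.ofNat 0, .ofNat 0, c14x⟩, ⟨.ofNat 1, .ofNat 0, c469x⟩, ⟨.ofNat 0, .negSucc 0, c470x⟩⟩, [48, 49]⟩,
  ⟨⟨⟨c46x, c28x, c470x, c4x⟩, ⟨.ofNat 0, .ofNat 1, c4x⟩, ⟨.ofNat 1, .ofNat 0, c469x⟩, ⟨.ofNat 0, .ofNat 0, c14x⟩⟩, [54, 55]⟩,
  ⟨⟨⟨c29x, c30x, c6x, c470x⟩, ⟨.ofNat 0, .ofNat 0, c14x⟩, ⟨.ofNat 1, .ofNat 0, c469x⟩, ⟨.ofNat 0, .negSucc 0, c470x⟩⟩, [48, 49, 50, 51, 52]⟩,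
  ⟨⟨⟨c28x, c29x, c470x, c4x⟩, ⟨.ofNat 0, .ofNat 1, c4x⟩, ⟨.ofNat 1, .ofNat 0, c469x⟩, ⟨.ofNat 0, .ofNat 0, c14x⟩⟩, [54, 55]⟩,
  ⟨⟨⟨c29x, c30x, c470x, c4x⟩, ⟨.ofNat 0, .ofNat 1, c4x⟩, ⟨.ofNat 1, .ofNat 0, c469x⟩, ⟨.ofNat 0, .ofNat 0, c14x⟩⟩, [54]⟩,
  ⟨⟨⟨c30x, c31x, c11x, c470x⟩, ⟨.ofNat 0, .ofNat 0, c14x⟩, ⟨.ofNat 1, .ofNat 0, c469x⟩, ⟨.ofNat 0, .negSucc 0, c470x⟩⟩, [51, 52, 53]⟩,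
  ⟨⟨⟨c30x, c31x, c470x, c4x⟩, ⟨.ofNat 0, .ofNat 1, c4x⟩, ⟨.ofNat 1, .ofNat 0, c469x⟩, ⟨.ofNat 0, .ofNat 0, c14x⟩⟩, [53, 54]⟩,
  ⟨⟨⟨c32x, c33x, c25x, c470x⟩, ⟨.ofNat 0, .ofNat 0, c14x⟩, ⟨.ofNat 1, .ofNat 0, c469x⟩, ⟨.ofNat 0, .negSucc 0, c470x⟩⟩, [63, 64]⟩,
  ⟨⟨⟨c33x, c35x, c25x, c470x⟩, ⟨.ofNat 0, .ofNat 0, c14x⟩, ⟨.ofNat 1, .ofNat 0, c469x⟩, ⟨.ofNat 0, .negSucc 0, c470x⟩⟩, [64]⟩,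
  ⟨⟨⟨c32x, c33x, c470x, c17x⟩, ⟨.ofNat 0, .ofNat 1, c4x⟩, ⟨.ofNat 1, .ofNat 0, c469x⟩, ⟨.ofNat 0, .ofNat 0, c14x⟩⟩, [61, 62, 63]⟩,
  ⟨⟨⟨c35x, c47x, c25x, c470x⟩, ⟨.ofNat 0, .ofNat 0, c14x⟩, ⟨.ofNat 1, .ofNat 0, c469x⟩, ⟨.ofNat 0, .negSucc 0, c470x⟩⟩, [64, 65]⟩,
  ⟨⟨⟨c33x, c35x, c470x, c4x⟩, ⟨.ofNat 0, .ofNat 1, c4x⟩, ⟨.ofNat 1, .ofNat 0, c469x⟩, ⟨.ofNat 0, .ofNat 0, c14x⟩⟩, [61, 62]⟩,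
  ⟨⟨⟨c33x, c35x, c4x, c22x⟩, ⟨.ofNat 0, .ofNat 0, c468x⟩, ⟨.ofNat 1, .ofNat 0, c469x⟩, ⟨.ofNat 0, .ofNat 1, c470x⟩⟩, [59, 60, 61]⟩,
  ⟨⟨⟨c35x, c47x, c470x, c4x⟩, ⟨.ofNat 0, .ofNat 1, c4x⟩, ⟨.ofNat 1, .ofNat 0, c469x⟩, ⟨.ofNat 0, .ofNat 0, c14x⟩⟩, [65, 66]⟩,
  ⟨⟨⟨c47x, c48x, c21x, c4x⟩, ⟨.ofNat 0, .ofNat 1, c4x⟩, ⟨.ofNat 1, .ofNat 0, c469x⟩, ⟨.ofNat 0, .ofNat 0, c14x⟩⟩, [65, 66, 67]⟩,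
  ⟨⟨⟨c48x, c49x, c14x, c4x⟩, ⟨.ofNat 0, .ofNat 1, c4x⟩, ⟨.ofNat 1, .ofNat 0, c469x⟩, ⟨.ofNat 0, .ofNat 0, c14x⟩⟩, [66, 67, 68, 69]⟩,
  ⟨⟨⟨c14x, c15x, c4x, c13x⟩, ⟨.ofNat 0, .ofNat 0, c14x⟩, ⟨.negSucc 0, .ofNat 0, c8x⟩, ⟨.ofNat 0, .ofNat 1, c470x⟩⟩, [786, 787]⟩,
  ⟨⟨⟨c15x, c16x, c4x, c13x⟩, ⟨.ofNat 0, .ofNat 0, c14x⟩, ⟨.negSucc 0, .ofNat 0, c8x⟩, ⟨.ofNat 0, .ofNat 1, c470x⟩⟩, [3, 4, 786]⟩,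
  ⟨⟨⟨c16x, c18x, c19x, c13x⟩, ⟨.ofNat 0, .ofNat 0, c14x⟩, ⟨.negSucc 0, .ofNat 0, c8x⟩, ⟨.ofNat 0, .ofNat 1, c470x⟩⟩, [3, 4, 5, 786]⟩,
  ⟨⟨⟨c18x, c20x, c4x, c13x⟩, ⟨.ofNat 0, .ofNat 0, c14x⟩, ⟨.negSucc 0, .ofNat 0, c8x⟩, ⟨.ofNat 0, .ofNat 1, c470x⟩⟩, [4, 5, 7, 8, 786]⟩,
  ⟨⟨⟨c20x, c8x, c22x, c13x⟩, ⟨.ofNat 0, .ofNat 0, c14x⟩, ⟨.negSucc 0, .ofNat 0, c8x⟩, ⟨.ofNat 0, .ofNat 1, c470x⟩⟩, [7, 8, 9, 786]⟩,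
  ⟨⟨⟨c8x, c12x, c4x, c13x⟩, ⟨.ofNat 1, .ofNat 0, c467x⟩, ⟨.ofNat 0, .ofNat 0, c14x⟩, ⟨.ofNat 0, .ofNat 1, c470x⟩⟩, [8, 9, 10, 786]⟩,
  ⟨⟨⟨c12x, c1x, c4x, c13x⟩, ⟨.ofNat 1, .ofNat 0, c467x⟩, ⟨.ofNat 0, .ofNat 0, c14x⟩, ⟨.ofNat 0, .ofNat 1, c470x⟩⟩, [20, 21, 22, 786]⟩,
  ⟨⟨⟨c1x, c2x, c40x, c13x⟩, ⟨.ofNat 0, .ofNat 0, c468x⟩, ⟨.ofNat 1, .ofNat 0, c469x⟩, ⟨.ofNat 0, .ofNat 1, c470x⟩⟩, [21, 22, 23, 786]⟩,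
  ⟨⟨⟨c2x, c34x, c37x, c13x⟩, ⟨.ofNat 0, .ofNat 0, c468x⟩, ⟨.ofNat 1, .ofNat 0, c469x⟩, ⟨.ofNat 0, .ofNat 1, c470x⟩⟩, [22, 23, 24, 25, 786]⟩,
  ⟨⟨⟨c34x, c36x, c4x, c13x⟩, ⟨.ofNat 0, .ofNat 0, c468x⟩, ⟨.ofNat 1, .ofNat 0, c469x⟩, ⟨.ofNat 0, .ofNat 1, c470x⟩⟩, [24, 25, 26, 786]⟩,
  ⟨⟨⟨c36x, c38x, c4x, c13x⟩, ⟨.ofNat 0, .ofNat 0, c468x⟩, ⟨.ofNat 1, .ofNat 0, c469x⟩, ⟨.ofNat 0, .ofNat 1, c470x⟩⟩, [786]⟩,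
  ⟨⟨⟨c38x, c39x, c4x, c13x⟩, ⟨.ofNat 0, .ofNat 0, c468x⟩, ⟨.ofNat 1, .ofNat 0, c469x⟩, ⟨.ofNat 0, .ofNat 1, c470x⟩⟩, [785, 786]⟩,
  ⟨⟨⟨c39x, c41x, c4x, c43x⟩, ⟨.ofNat 0, .ofNat 0, c468x⟩, ⟨.ofNat 1, .ofNat 0, c469x⟩, ⟨.ofNat 0, .ofNat 1, c470x⟩⟩, [784, 785, 786]⟩,
  ⟨⟨⟨c41x, c42x, c4x, c43x⟩, ⟨.ofNat 0, .ofNat 0, c468x⟩, ⟨.ofNat 1, .ofNat 0, c469x⟩, ⟨.ofNat 0, .ofNat 1, c470x⟩⟩, [37, 38, 784]⟩,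
  ⟨⟨⟨c44x, c45x, c4x, c43x⟩, ⟨.ofNat 0, .ofNat 0, c468x⟩, ⟨.ofNat 1, .ofNat 0, c469x⟩, ⟨.ofNat 0, .ofNat 1, c470x⟩⟩, [38, 39, 41, 42, 784]⟩,
  ⟨⟨⟨c42x, c44x, c19x, c43x⟩, ⟨.ofNat 0, .ofNat 0, c468x⟩, ⟨.ofNat 1, .ofNat 0, c469x⟩, ⟨.ofNat 0, .ofNat 1, c470x⟩⟩, [37, 38, 39, 784]⟩,
  ⟨⟨⟨c27x, c46x, c4x, c43x⟩, ⟨.ofNat 0, .ofNat 0, c468x⟩, ⟨.ofNat 1, .ofNat 0, c469x⟩, ⟨.ofNat 0, .ofNat 1, c470x⟩⟩, [42, 43, 44, 784]⟩,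
  ⟨⟨⟨c46x, c28x, c4x, c43x⟩, ⟨.ofNat 0, .ofNat 0, c468x⟩, ⟨.ofNat 1, .ofNat 0, c469x⟩, ⟨.ofNat 0, .ofNat 1, c470x⟩⟩, [54, 55, 56, 784]⟩,
  ⟨⟨⟨c35x, c47x, c4x, c43x⟩, ⟨.ofNat 0, .ofNat 0, c468x⟩, ⟨.ofNat 1, .ofNat 0, c469x⟩, ⟨.ofNat 0, .ofNat 1, c470x⟩⟩, [58, 59, 60, 784]⟩,
  ⟨⟨⟨c47x, c48x, c4x, c43x⟩, ⟨.ofNat 0, .ofNat 0, c468x⟩, ⟨.ofNat 1, .ofNat 0, c469x⟩, ⟨.ofNat 0, .ofNat 1, c470x⟩⟩, [784]⟩,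
  ⟨⟨⟨c48x, c49x, c4x, c43x⟩, ⟨.ofNat 0, .ofNat 0, c468x⟩, ⟨.ofNat 1, .ofNat 0, c469x⟩, ⟨.ofNat 0, .ofNat 1, c470x⟩⟩, [69, 70, 783, 784]⟩,
  ⟨⟨⟨c45x, c27x, c22x, c43x⟩, ⟨.ofNat 0, .ofNat 0, c468x⟩, ⟨.ofNat 1, .ofNat 0, c469x⟩, ⟨.ofNat 0, .ofNat 1, c470x⟩⟩, [41, 42, 43, 784]⟩,
  ⟨⟨⟨c29x, c35x, c37x, c43x⟩, ⟨.ofNat 0, .ofNat 0, c468x⟩, ⟨.ofNat 1, .ofNat 0, c469x⟩, ⟨.ofNat 0, .ofNat 1, c470x⟩⟩, [56, 57, 58, 59, 784]⟩,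
  ⟨⟨⟨c28x, c29x, c40x, c43x⟩, ⟨.ofNat 0, .ofNat 0, c468x⟩, ⟨.ofNat 1, .ofNat 0, c469x⟩, ⟨.ofNat 0, .ofNat 1, c470x⟩⟩, [55, 56, 57, 784]⟩,
  ⟨⟨⟨c50x, c51x, c13x, c52x⟩, ⟨.ofNat 0, .ofNat 0, c468x⟩, ⟨.ofNat 1, .ofNat 0, c469x⟩, ⟨.ofNat 0, .ofNat 1, c470x⟩⟩, [70, 759, 760, 761]⟩,
  ⟨⟨⟨c51x, c59x, c13x, c60x⟩, ⟨.ofNat 0, .ofNat 0, c468x⟩, ⟨.ofNat 1, .ofNat 0, c469x⟩, ⟨.ofNat 0, .ofNat 1, c470x⟩⟩, [70, 757, 758, 759, 760]⟩,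
  ⟨⟨⟨c49x, c61x, c13x, c73x⟩, ⟨.ofNat 0, .ofNat 0, c468x⟩, ⟨.ofNat 1, .ofNat 0, c469x⟩, ⟨.ofNat 0, .ofNat 1, c470x⟩⟩, [69, 70, 783, 784]⟩,
  ⟨⟨⟨c61x, c53x, c13x, c73x⟩, ⟨.ofNat 0, .ofNat 0, c468x⟩, ⟨.ofNat 1, .ofNat 0, c469x⟩, ⟨.ofNat 0, .ofNat 1, c470x⟩⟩, [70, 778, 779]⟩,
  ⟨⟨⟨c53x, c54x, c13x, c55x⟩, ⟨.ofNat 0, .ofNat 0, c468x⟩, ⟨.ofNat 1, .ofNat 0, c469x⟩, ⟨.ofNat 0, .ofNat 1, c470x⟩⟩, [70, 777, 778, 779]⟩,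
  ⟨⟨⟨c54x, c56x, c13x, c73x⟩, ⟨.ofNat 0, .ofNat 0, c468x⟩, ⟨.ofNat 1, .ofNat 0, c469x⟩, ⟨.ofNat 0, .ofNat 1, c470x⟩⟩, [70, 774, 775, 777, 778]⟩,
  ⟨⟨⟨c56x, c57x, c13x, c58x⟩, ⟨.ofNat 0, .ofNat 0, c468x⟩, ⟨.ofNat 1, .ofNat 0, c469x⟩, ⟨.ofNat 0, .ofNat 1, c470x⟩⟩, [70, 773, 774, 775]⟩,
  ⟨⟨⟨c57x, c65x, c13x, c73x⟩, ⟨.ofNat 0, .ofNat 0, c468x⟩, ⟨.ofNat 1, .ofNat 0, c469x⟩, ⟨.ofNat 0, .ofNat 1, c470x⟩⟩, [70, 772, 773, 774]⟩,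
  ⟨⟨⟨c65x, c50x, c13x, c73x⟩, ⟨.ofNat 0, .ofNat 0, c468x⟩, ⟨.ofNat 1, .ofNat 0, c469x⟩, ⟨.ofNat 0, .ofNat 1, c470x⟩⟩, [70, 760, 761, 762]⟩,
  ⟨⟨⟨c59x, c67x, c13x, c73x⟩, ⟨.ofNat 0, .ofNat 0, c468x⟩, ⟨.ofNat 1, .ofNat 0, c469x⟩, ⟨.ofNat 0, .ofNat 1, c470x⟩⟩, [70, 756, 757, 758]⟩,
  ⟨⟨⟨c67x, c68x, c13x, c73x⟩, ⟨.ofNat 0, .ofNat 0, c468x⟩, ⟨.ofNat 1, .ofNat 0, c469x⟩, ⟨.ofNat 0, .ofNat 1, c470x⟩⟩, [70]⟩,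
  ⟨⟨⟨c68x, c69x, c13x, c73x⟩, ⟨.ofNat 0, .ofNat 0, c468x⟩, ⟨.ofNat 1, .ofNat 0, c469x⟩, ⟨.ofNat 0, .ofNat 1, c470x⟩⟩, [70, 71, 72]⟩,
  ⟨⟨⟨c69x, c78x, c43x, c73x⟩, ⟨.ofNat 0, .ofNat 0, c468x⟩, ⟨.ofNat 1, .ofNat 0, c469x⟩, ⟨.ofNat 0, .ofNat 1, c470x⟩⟩, [71, 72, 73]⟩,
  ⟨⟨⟨c82x, c83x, c52x, c73x⟩, ⟨.ofNat 0, .ofNat 0, c468x⟩, ⟨.ofNat 1, .ofNat 0, c469x⟩, ⟨.ofNat 0, .ofNat 1, c470x⟩⟩, [94, 95, 96, 97, 98]⟩,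
  ⟨⟨⟨c83x, c84x, c60x, c73x⟩, ⟨.ofNat 0, .ofNat 0, c468x⟩, ⟨.ofNat 1, .ofNat 0, c469x⟩, ⟨.ofNat 0, .ofNat 1, c470x⟩⟩, [93, 94, 97, 98]⟩,
  ⟨⟨⟨c84x, c87x, c60x, c73x⟩, ⟨.ofNat 0, .ofNat 0, c468x⟩, ⟨.ofNat 1, .ofNat 0, c469x⟩, ⟨.ofNat 0, .ofNat 1, c470x⟩⟩, [93, 94, 98]⟩,
  ⟨⟨⟨c85x, c86x, c60x, c58x⟩, ⟨.ofNat 0, .ofNat 0, c468x⟩, ⟨.ofNat 1, .ofNat 0, c469x⟩, ⟨.ofNat 0, .ofNat 1, c470x⟩⟩, [98, 99, 100, 101]⟩,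
  ⟨⟨⟨c87x, c85x, c60x, c73x⟩, ⟨.ofNat 0, .ofNat 0, c468x⟩, ⟨.ofNat 1, .ofNat 0, c469x⟩, ⟨.ofNat 0, .ofNat 1, c470x⟩⟩, [98, 100, 101]⟩,
  ⟨⟨⟨c49x, c61x, c73x, c62x⟩, ⟨.ofNat 0, .negSucc 0, c844x⟩, ⟨.ofNat 1, .ofNat 0, c469x⟩, ⟨.ofNat 0, .ofNat 0, c537x⟩⟩, [781, 782, 783]⟩,
  ⟨⟨⟨c61x, c53x, c73x, c63x⟩, ⟨.ofNat 0, .negSucc 0, c844x⟩, ⟨.ofNat 1, .ofNat 0, c469x⟩, ⟨.ofNat 0, .ofNat 0, c537x⟩⟩, [779, 780, 781, 782]⟩,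
  ⟨⟨⟨c54x, c56x, c73x, c64x⟩, ⟨.ofNat 0, .negSucc 0, c844x⟩, ⟨.ofNat 1, .ofNat 0, c469x⟩, ⟨.ofNat 0, .ofNat 0, c537x⟩⟩, [775, 776, 777]⟩,
  ⟨⟨⟨c72x, c57x, c73x, c844x⟩, ⟨.ofNat 0, .negSucc 0, c844x⟩, ⟨.ofNat 1, .ofNat 0, c469x⟩, ⟨.ofNat 0, .ofNat 0, c537x⟩⟩, [771, 772, 773]⟩,
  ⟨⟨⟨c72x, c57x, c844x, c66x⟩, ⟨.ofNat 0, .ofNat 0, c14x⟩, ⟨.ofNat 1, .ofNat 0, c469x⟩, ⟨.ofNat 0, .negSucc 0, c547x⟩⟩, [770, 771]⟩,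
  ⟨⟨⟨c57x, c65x, c73x, c844x⟩, ⟨.ofNat 0, .negSucc 0, c844x⟩, ⟨.ofNat 1, .ofNat 0, c469x⟩, ⟨.ofNat 0, .ofNat 0, c537x⟩⟩, [772, 773]⟩,
  ⟨⟨⟨c65x, c50x, c73x, c844x⟩, ⟨.ofNat 0, .negSucc 0, c844x⟩, ⟨.ofNat 1, .ofNat 0, c469x⟩, ⟨.ofNat 0, .ofNat 0, c537x⟩⟩, [761, 762]⟩,
  ⟨⟨⟨c50x, c51x, c73x, c844x⟩, ⟨.ofNat 0, .negSucc 0, c844x⟩, ⟨.ofNat 1, .ofNat 0, c469x⟩, ⟨.ofNat 0, .ofNat 0, c537x⟩⟩, [761, 762]⟩,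
  ⟨⟨⟨c57x, c65x, c844x, c66x⟩, ⟨.ofNat 0, .ofNat 0, c14x⟩, ⟨.ofNat 1, .ofNat 0, c469x⟩, ⟨.ofNat 0, .negSucc 0, c547x⟩⟩, [769, 770]⟩,
  ⟨⟨⟨c65x, c50x, c844x, c70x⟩, ⟨.ofNat 0, .ofNat 0, c14x⟩, ⟨.ofNat 1, .ofNat 0, c469x⟩, ⟨.ofNat 0, .negSucc 0, c547x⟩⟩, [768, 769, 770]⟩,
  ⟨⟨⟨c51x, c74x, c73x, c844x⟩, ⟨.ofNat 0, .negSucc 0, c844x⟩, ⟨.ofNat 1, .ofNat 0, c469x⟩, ⟨.ofNat 0, .ofNat 0, c537x⟩⟩, [762]⟩,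
  ⟨⟨⟨c74x, c75x, c73x, c844x⟩, ⟨.ofNat 0, .negSucc 0, c844x⟩, ⟨.ofNat 1, .ofNat 0, c469x⟩, ⟨.ofNat 0, .ofNat 0, c537x⟩⟩, [762, 763]⟩,
  ⟨⟨⟨c74x, c75x, c844x, c76x⟩, ⟨.ofNat 0, .ofNat 0, c14x⟩, ⟨.ofNat 1, .ofNat 0, c469x⟩, ⟨.ofNat 0, .negSucc 0, c547x⟩⟩, [763, 764, 765]⟩,
  ⟨⟨⟨c50x, c51x, c844x, c70x⟩, ⟨.ofNat 0, .ofNat 0, c14x⟩, ⟨.ofNat 1, .ofNat 0, c469x⟩, ⟨.ofNat 0, .negSucc 0, c547x⟩⟩, [767, 768]⟩,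
  ⟨⟨⟨c51x, c74x, c844x, c88x⟩, ⟨.ofNat 0, .ofNat 0, c14x⟩, ⟨.ofNat 1, .ofNat 0, c469x⟩, ⟨.ofNat 0, .negSucc 0, c547x⟩⟩, [764, 765, 766, 767, 768]⟩,
  ⟨⟨⟨c77x, c59x, c58x, c73x⟩, ⟨.ofNat 0, .ofNat 0, c468x⟩, ⟨.ofNat 1, .ofNat 0, c469x⟩, ⟨.ofNat 0, .ofNat 1, c470x⟩⟩, [755, 756, 757]⟩,
  ⟨⟨⟨c77x, c59x, c73x, c844x⟩, ⟨.ofNat 0, .negSucc 0, c844x⟩, ⟨.ofNat 1, .ofNat 0, c469x⟩, ⟨.ofNat 0, .ofNat 0, c537x⟩⟩, [754, 755]⟩,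
  ⟨⟨⟨c59x, c67x, c73x, c844x⟩, ⟨.ofNat 0, .negSucc 0, c844x⟩, ⟨.ofNat 1, .ofNat 0, c469x⟩, ⟨.ofNat 0, .ofNat 0, c537x⟩⟩, [750, 751]⟩,
  ⟨⟨⟨c89x, c77x, c63x, c844x⟩, ⟨.ofNat 0, .negSucc 0, c844x⟩, ⟨.ofNat 1, .ofNat 0, c469x⟩, ⟨.ofNat 0, .ofNat 0, c537x⟩⟩, [753, 754, 755]⟩,
  ⟨⟨⟨c89x, c77x, c844x, c71x⟩, ⟨.ofNat 0, .ofNat 0, c14x⟩, ⟨.ofNat 1, .ofNat 0, c469x⟩, ⟨.ofNat 0, .negSucc 0, c547x⟩⟩, [752, 753]⟩,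
  ⟨⟨⟨c77x, c59x, c844x, c71x⟩, ⟨.ofNat 0, .ofNat 0, c14x⟩, ⟨.ofNat 1, .ofNat 0, c469x⟩, ⟨.ofNat 0, .negSucc 0, c547x⟩⟩, [752]⟩,
  ⟨⟨⟨c67x, c68x, c73x, c64x⟩, ⟨.ofNat 0, .negSucc 0, c844x⟩, ⟨.ofNat 1, .ofNat 0, c469x⟩, ⟨.ofNat 0, .ofNat 0, c537x⟩⟩, [749, 750, 751]⟩,
  ⟨⟨⟨c68x, c69x, c73x, c62x⟩, ⟨.ofNat 0, .negSucc 0, c844x⟩, ⟨.ofNat 1, .ofNat 0, c469x⟩, ⟨.ofNat 0, .ofNat 0, c537x⟩⟩, [747, 748, 749, 750]⟩,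
  ⟨⟨⟨c69x, c78x, c73x, c844x⟩, ⟨.ofNat 0, .negSucc 0, c844x⟩, ⟨.ofNat 1, .ofNat 0, c469x⟩, ⟨.ofNat 0, .ofNat 0, c537x⟩⟩, [73, 74, 747, 748]⟩,
  ⟨⟨⟨c92x, c93x, c55x, c73x⟩, ⟨.ofNat 0, .ofNat 0, c468x⟩, ⟨.ofNat 1, .ofNat 0, c469x⟩, ⟨.ofNat 0, .ofNat 1, c470x⟩⟩, [77, 78, 79]⟩,
  ⟨⟨⟨c92x, c93x, c73x, c844x⟩, ⟨.ofNat 0, .negSucc 0, c844x⟩, ⟨.ofNat 1, .ofNat 0, c469x⟩, ⟨.ofNat 0, .ofNat 0, c537x⟩⟩, [76, 77, 79, 80]⟩,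
  ⟨⟨⟨c94x, c80x, c58x, c73x⟩, ⟨.ofNat 0, .ofNat 0, c468x⟩, ⟨.ofNat 1, .ofNat 0, c469x⟩, ⟨.ofNat 0, .ofNat 1, c470x⟩⟩, [81, 82, 84, 85]⟩,
  ⟨⟨⟨c94x, c80x, c73x, c844x⟩, ⟨.ofNat 0, .negSucc 0, c844x⟩, ⟨.ofNat 1, .ofNat 0, c469x⟩, ⟨.ofNat 0, .ofNat 0, c537x⟩⟩, [80, 81, 84, 85]⟩,
  ⟨⟨⟨c80x, c81x, c58x, c73x⟩, ⟨.ofNat 0, .ofNat 0, c468x⟩, ⟨.ofNat 1, .ofNat 0, c469x⟩, ⟨.ofNat 0, .ofNat 1, c470x⟩⟩, [82, 83, 84, 85]⟩,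
  ⟨⟨⟨c84x, c87x, c73x, c844x⟩, ⟨.ofNat 0, .negSucc 0, c844x⟩, ⟨.ofNat 1, .ofNat 0, c469x⟩, ⟨.ofNat 0, .ofNat 0, c537x⟩⟩, [93, 94, 102, 103]⟩,
  ⟨⟨⟨c87x, c85x, c73x, c63x⟩, ⟨.ofNat 0, .negSucc 0, c844x⟩, ⟨.ofNat 1, .ofNat 0, c469x⟩, ⟨.ofNat 0, .ofNat 0, c537x⟩⟩, [101, 102, 103]⟩,
  ⟨⟨⟨c78x, c90x, c62x, c844x⟩, ⟨.ofNat 0, .negSucc 0, c844x⟩, ⟨.ofNat 1, .ofNat 0, c469x⟩, ⟨.ofNat 0, .ofNat 0, c537x⟩⟩, [73, 74, 75, 76]⟩,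
  ⟨⟨⟨c90x, c92x, c63x, c844x⟩, ⟨.ofNat 0, .negSucc 0, c844x⟩, ⟨.ofNat 1, .ofNat 0, c469x⟩, ⟨.ofNat 0, .ofNat 0, c537x⟩⟩, [75, 76, 77]⟩,
  ⟨⟨⟨c93x, c94x, c64x, c844x⟩, ⟨.ofNat 0, .negSucc 0, c844x⟩, ⟨.ofNat 1, .ofNat 0, c469x⟩, ⟨.ofNat 0, .ofNat 0, c537x⟩⟩, [79, 80, 81]⟩,
  ⟨⟨⟨c96x, c97x, c64x, c844x⟩, ⟨.ofNat 0, .negSucc 0, c844x⟩, ⟨.ofNat 1, .ofNat 0, c469x⟩, ⟨.ofNat 0, .ofNat 0, c537x⟩⟩, [105, 106, 107, 108]⟩,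
  ⟨⟨⟨c97x, c98x, c62x, c844x⟩, ⟨.ofNat 0, .negSucc 0, c844x⟩, ⟨.ofNat 1, .ofNat 0, c469x⟩, ⟨.ofNat 0, .ofNat 0, c537x⟩⟩, [107, 108, 109]⟩,
  ⟨⟨⟨c59x, c67x, c844x, c71x⟩, ⟨.ofNat 0, .ofNat 0, c14x⟩, ⟨.ofNat 1, .ofNat 0, c469x⟩, ⟨.ofNat 0, .negSucc 0, c547x⟩⟩, [751, 752]⟩,
  ⟨⟨⟨c69x, c78x, c844x, c79x⟩, ⟨.ofNat 0, .ofNat 0, c14x⟩, ⟨.ofNat 1, .ofNat 0, c469x⟩, ⟨.ofNat 0, .negSucc 0, c547x⟩⟩, [745, 746, 747]⟩,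
  ⟨⟨⟨c78x, c90x, c844x, c91x⟩, ⟨.ofNat 0, .ofNat 0, c14x⟩, ⟨.ofNat 1, .ofNat 0, c469x⟩, ⟨.ofNat 0, .negSucc 0, c547x⟩⟩, [744, 745, 746]⟩,
  ⟨⟨⟨c90x, c92x, c844x, c91x⟩, ⟨.ofNat 0, .ofNat 0, c14x⟩, ⟨.ofNat 1, .ofNat 0, c469x⟩, ⟨.ofNat 0, .negSucc 0, c547x⟩⟩, [744]⟩,
  ⟨⟨⟨c92x, c93x, c844x, c91x⟩, ⟨.ofNat 0, .ofNat 0, c14x⟩, ⟨.ofNat 1, .ofNat 0, c469x⟩, ⟨.ofNat 0, .negSucc 0, c547x⟩⟩, [744]⟩,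
  ⟨⟨⟨c93x, c94x, c844x, c91x⟩, ⟨.ofNat 0, .ofNat 0, c14x⟩, ⟨.ofNat 1, .ofNat 0, c469x⟩, ⟨.ofNat 0, .negSucc 0, c547x⟩⟩, [744]⟩,
  ⟨⟨⟨c94x, c80x, c844x, c91x⟩, ⟨.ofNat 0, .ofNat 0, c14x⟩, ⟨.ofNat 1, .ofNat 0, c469x⟩, ⟨.ofNat 0, .negSucc 0, c547x⟩⟩, [85, 86, 744]⟩,
  ⟨⟨⟨c95x, c84x, c76x, c91x⟩, ⟨.ofNat 0, .ofNat 0, c14x⟩, ⟨.ofNat 1, .ofNat 0, c469x⟩, ⟨.ofNat 0, .negSucc 0, c547x⟩⟩, [90, 91, 92, 93, 744]⟩,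
  ⟨⟨⟨c84x, c87x, c844x, c91x⟩, ⟨.ofNat 0, .ofNat 0, c14x⟩, ⟨.ofNat 1, .ofNat 0, c469x⟩, ⟨.ofNat 0, .negSucc 0, c547x⟩⟩, [92, 93, 103, 104, 744]⟩,
  ⟨⟨⟨c96x, c97x, c844x, c91x⟩, ⟨.ofNat 0, .ofNat 0, c14x⟩, ⟨.ofNat 1, .ofNat 0, c469x⟩, ⟨.ofNat 0, .negSucc 0, c547x⟩⟩, [104, 105, 744]⟩,
  ⟨⟨⟨c97x, c98x, c844x, c91x⟩, ⟨.ofNat 0, .ofNat 0, c14x⟩, ⟨.ofNat 1, .ofNat 0, c469x⟩, ⟨.ofNat 0, .negSucc 0, c547x⟩⟩, [109, 110, 743, 744]⟩,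
  ⟨⟨⟨c80x, c99x, c66x, c91x⟩, ⟨.ofNat 0, .ofNat 0, c14x⟩, ⟨.ofNat 1, .ofNat 0, c469x⟩, ⟨.ofNat 0, .negSucc 0, c547x⟩⟩, [85, 86, 87, 88, 744]⟩,
  ⟨⟨⟨c87x, c96x, c71x, c91x⟩, ⟨.ofNat 0, .ofNat 0, c14x⟩, ⟨.ofNat 1, .ofNat 0, c469x⟩, ⟨.ofNat 0, .negSucc 0, c547x⟩⟩, [103, 104, 105, 744]⟩,
  ⟨⟨⟨c99x, c83x, c70x, c91x⟩, ⟨.ofNat 0, .ofNat 0, c14x⟩, ⟨.ofNat 1, .ofNat 0, c469x⟩, ⟨.ofNat 0, .negSucc 0, c547x⟩⟩, [87, 88, 89, 90, 744]⟩,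
  ⟨⟨⟨c83x, c95x, c88x, c91x⟩, ⟨.ofNat 0, .ofNat 0, c14x⟩, ⟨.ofNat 1, .ofNat 0, c469x⟩, ⟨.ofNat 0, .negSucc 0, c547x⟩⟩, [89, 90, 91, 744]⟩,
  ⟨⟨⟨c100x, c101x, c79x, c102x⟩, ⟨.ofNat 0, .ofNat 0, c14x⟩, ⟨.ofNat 1, .ofNat 0, c469x⟩, ⟨.ofNat 0, .negSucc 0, c547x⟩⟩, [110, 725, 726, 727]⟩,
  ⟨⟨⟨c98x, c103x, c79x, c547x⟩, ⟨.ofNat 0, .ofNat 0, c14x⟩, ⟨.ofNat 1, .ofNat 0, c469x⟩, ⟨.ofNat 0, .negSucc 0, c547x⟩⟩, [109, 110, 743, 744]⟩,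
  ⟨⟨⟨c103x, c105x, c79x, c547x⟩, ⟨.ofNat 0, .ofNat 0, c14x⟩, ⟨.ofNat 1, .ofNat 0, c469x⟩, ⟨.ofNat 0, .negSucc 0, c547x⟩⟩, [110]⟩,
  ⟨⟨⟨c105x, c116x, c79x, c547x⟩, ⟨.ofNat 0, .ofNat 0, c14x⟩, ⟨.ofNat 1, .ofNat 0, c469x⟩, ⟨.ofNat 0, .negSucc 0, c547x⟩⟩, [110]⟩,
  ⟨⟨⟨c116x, c118x, c79x, c547x⟩, ⟨.ofNat 0, .ofNat 0, c14x⟩, ⟨.ofNat 1, .ofNat 0, c469x⟩, ⟨.ofNat 0, .negSucc 0, c547x⟩⟩, [110]⟩,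
  ⟨⟨⟨c118x, c107x, c79x, c547x⟩, ⟨.ofNat 0, .ofNat 0, c14x⟩, ⟨.ofNat 1, .ofNat 0, c469x⟩, ⟨.ofNat 0, .negSucc 0, c547x⟩⟩, [110, 730, 731]⟩,
  ⟨⟨⟨c107x, c108x, c79x, c109x⟩, ⟨.ofNat 0, .ofNat 0, c14x⟩, ⟨.ofNat 1, .ofNat 0, c469x⟩, ⟨.ofNat 0, .negSucc 0, c547x⟩⟩, [110, 728, 729, 730, 731]⟩,
  ⟨⟨⟨c108x, c100x, c79x, c110x⟩, ⟨.ofNat 0, .ofNat 0, c14x⟩, ⟨.ofNat 1, .ofNat 0, c469x⟩, ⟨.ofNat 0, .negSucc 0, c547x⟩⟩, [110, 726, 727, 728, 729]⟩,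
  ⟨⟨⟨c101x, c111x, c79x, c112x⟩, ⟨.ofNat 0, .ofNat 0, c14x⟩, ⟨.ofNat 1, .ofNat 0, c469x⟩, ⟨.ofNat 0, .negSucc 0, c547x⟩⟩, [110, 723, 724, 725, 726]⟩,
  ⟨⟨⟨c111x, c113x, c79x, c547x⟩, ⟨.ofNat 0, .ofNat 0, c14x⟩, ⟨.ofNat 1, .ofNat 0, c469x⟩, ⟨.ofNat 0, .negSucc 0, c547x⟩⟩, [110, 712, 713, 723, 724]⟩,
  ⟨⟨⟨c113x, c114x, c79x, c115x⟩, ⟨.ofNat 0, .ofNat 0, c14x⟩, ⟨.ofNat 1, .ofNat 0, c469x⟩, ⟨.ofNat 0, .negSucc 0, c547x⟩⟩, [110, 711, 712, 713]⟩,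
  ⟨⟨⟨c114x, c122x, c79x, c547x⟩, ⟨.ofNat 0, .ofNat 0, c14x⟩, ⟨.ofNat 1, .ofNat 0, c469x⟩, ⟨.ofNat 0, .negSucc 0, c547x⟩⟩, [110, 711, 712]⟩,
  ⟨⟨⟨c122x, c123x, c79x, c547x⟩, ⟨.ofNat 0, .ofNat 0, c14x⟩, ⟨.ofNat 1, .ofNat 0, c469x⟩, ⟨.ofNat 0, .negSucc 0, c547x⟩⟩, [110, 111, 112]⟩,
  ⟨⟨⟨c123x, c124x, c91x, c547x⟩, ⟨.ofNat 0, .ofNat 0, c14x⟩, ⟨.ofNat 1, .ofNat 0, c469x⟩, ⟨.ofNat 0, .negSucc 0, c547x⟩⟩, [111, 112, 113]⟩,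
  ⟨⟨⟨c98x, c103x, c547x, c104x⟩, ⟨.ofNat 0, .ofNat 1, c845x⟩, ⟨.ofNat 1, .ofNat 0, c469x⟩, ⟨.ofNat 0, .ofNat 0, c14x⟩⟩, [740, 741, 742, 743]⟩,
  ⟨⟨⟨c103x, c105x, c547x, c106x⟩, ⟨.ofNat 0, .ofNat 1, c845x⟩, ⟨.ofNat 1, .ofNat 0, c469x⟩, ⟨.ofNat 0, .ofNat 0, c14x⟩⟩, [739, 740, 741]⟩,
  ⟨⟨⟨c122x, c123x, c547x, c104x⟩, ⟨.ofNat 0, .ofNat 1, c845x⟩, ⟨.ofNat 1, .ofNat 0, c469x⟩, ⟨.ofNat 0, .ofNat 0, c14x⟩⟩, [707, 708, 709]⟩,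
  ⟨⟨⟨c105x, c116x, c547x, c128x⟩, ⟨.ofNat 0, .ofNat 1, c845x⟩, ⟨.ofNat 1, .ofNat 0, c469x⟩, ⟨.ofNat 0, .ofNat 0, c14x⟩⟩, [736, 737, 739, 740]⟩,
  ⟨⟨⟨c116x, c118x, c547x, c119x⟩, ⟨.ofNat 0, .ofNat 1, c845x⟩, ⟨.ofNat 1, .ofNat 0, c469x⟩, ⟨.ofNat 0, .ofNat 0, c14x⟩⟩, [735, 736, 737]⟩,
  ⟨⟨⟨c118x, c107x, c547x, c128x⟩, ⟨.ofNat 0, .ofNat 1, c845x⟩, ⟨.ofNat 1, .ofNat 0, c469x⟩, ⟨.ofNat 0, .ofNat 0, c14x⟩⟩, [731, 732, 735, 736]⟩,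
  ⟨⟨⟨c111x, c113x, c547x, c128x⟩, ⟨.ofNat 0, .ofNat 1, c845x⟩, ⟨.ofNat 1, .ofNat 0, c469x⟩, ⟨.ofNat 0, .ofNat 0, c14x⟩⟩, [713, 714, 722, 723]⟩,
  ⟨⟨⟨c114x, c122x, c547x, c119x⟩, ⟨.ofNat 0, .ofNat 1, c845x⟩, ⟨.ofNat 1, .ofNat 0, c469x⟩, ⟨.ofNat 0, .ofNat 0, c14x⟩⟩, [708, 709, 710, 711]⟩,
  ⟨⟨⟨c123x, c124x, c547x, c128x⟩, ⟨.ofNat 0, .ofNat 1, c845x⟩, ⟨.ofNat 1, .ofNat 0, c469x⟩, ⟨.ofNat 0, .ofNat 0, c14x⟩⟩, [113, 114, 707, 708]⟩,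
  ⟨⟨⟨c126x, c127x, c109x, c547x⟩, ⟨.ofNat 0, .ofNat 0, c14x⟩, ⟨.ofNat 1, .ofNat 0, c469x⟩, ⟨.ofNat 0, .negSucc 0, c547x⟩⟩, [125, 126]⟩,
  ⟨⟨⟨c127x, c141x, c109x, c547x⟩, ⟨.ofNat 0, .ofNat 0, c14x⟩, ⟨.ofNat 1, .ofNat 0, c469x⟩, ⟨.ofNat 0, .negSucc 0, c547x⟩⟩, [126, 127]⟩,
  ⟨⟨⟨c141x, c129x, c110x, c547x⟩, ⟨.ofNat 0, .ofNat 0, c14x⟩, ⟨.ofNat 1, .ofNat 0, c469x⟩, ⟨.ofNat 0, .negSucc 0, c547x⟩⟩, [126, 127, 128]⟩,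
  ⟨⟨⟨c129x, c130x, c110x, c547x⟩, ⟨.ofNat 0, .ofNat 0, c14x⟩, ⟨.ofNat 1, .ofNat 0, c469x⟩, ⟨.ofNat 0, .negSucc 0, c547x⟩⟩, [128, 129]⟩,
  ⟨⟨⟨c130x, c131x, c102x, c547x⟩, ⟨.ofNat 0, .ofNat 0, c14x⟩, ⟨.ofNat 1, .ofNat 0, c469x⟩, ⟨.ofNat 0, .negSucc 0, c547x⟩⟩, [128, 129, 130, 131, 132]⟩,
  ⟨⟨⟨c131x, c132x, c112x, c547x⟩, ⟨.ofNat 0, .ofNat 0, c14x⟩, ⟨.ofNat 1, .ofNat 0, c469x⟩, ⟨.ofNat 0, .negSucc 0, c547x⟩⟩, [131, 132, 133]⟩,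
  ⟨⟨⟨c133x, c134x, c115x, c547x⟩, ⟨.ofNat 0, .ofNat 0, c14x⟩, ⟨.ofNat 1, .ofNat 0, c469x⟩, ⟨.ofNat 0, .negSucc 0, c547x⟩⟩, [143, 144]⟩,
  ⟨⟨⟨c133x, c134x, c547x, c106x⟩, ⟨.ofNat 0, .ofNat 1, c845x⟩, ⟨.ofNat 1, .ofNat 0, c469x⟩, ⟨.ofNat 0, .ofNat 0, c14x⟩⟩, [141, 142, 143]⟩,
  ⟨⟨⟨c134x, c140x, c115x, c547x⟩, ⟨.ofNat 0, .ofNat 0, c14x⟩, ⟨.ofNat 1, .ofNat 0, c469x⟩, ⟨.ofNat 0, .negSucc 0, c547x⟩⟩, [144]⟩,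
  ⟨⟨⟨c140x, c143x, c115x, c547x⟩, ⟨.ofNat 0, .ofNat 0, c14x⟩, ⟨.ofNat 1, .ofNat 0, c469x⟩, ⟨.ofNat 0, .negSucc 0, c547x⟩⟩, [144, 145]⟩,
  ⟨⟨⟨c105x, c116x, c128x, c117x⟩, ⟨.ofNat 0, .ofNat 0, c468x⟩, ⟨.ofNat 1, .ofNat 0, c469x⟩, ⟨.ofNat 0, .ofNat 1, c846x⟩⟩, [737, 738, 739]⟩,
  ⟨⟨⟨c118x, c107x, c128x, c120x⟩, ⟨.ofNat 0, .ofNat 0, c468x⟩, ⟨.ofNat 1, .ofNat 0, c469x⟩, ⟨.ofNat 0, .ofNat 1, c846x⟩⟩, [731, 732, 734, 735]⟩,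
  ⟨⟨⟨c107x, c135x, c128x, c120x⟩, ⟨.ofNat 0, .ofNat 0, c468x⟩, ⟨.ofNat 1, .ofNat 0, c469x⟩, ⟨.ofNat 0, .ofNat 1, c846x⟩⟩, [731, 732, 733, 734]⟩,
  ⟨⟨⟨c100x, c111x, c128x, c121x⟩, ⟨.ofNat 0, .ofNat 0, c468x⟩, ⟨.ofNat 1, .ofNat 0, c469x⟩, ⟨.ofNat 0, .ofNat 1, c846x⟩⟩, [718, 719, 722, 723]⟩,
  ⟨⟨⟨c111x, c113x, c128x, c121x⟩, ⟨.ofNat 0, .ofNat 0, c468x⟩, ⟨.ofNat 1, .ofNat 0, c469x⟩, ⟨.ofNat 0, .ofNat 1, c846x⟩⟩, [718, 722, 723]⟩,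
  ⟨⟨⟨c113x, c138x, c106x, c128x⟩, ⟨.ofNat 0, .ofNat 1, c845x⟩, ⟨.ofNat 1, .ofNat 0, c469x⟩, ⟨.ofNat 0, .ofNat 0, c14x⟩⟩, [713, 714, 715]⟩,
  ⟨⟨⟨c113x, c138x, c128x, c121x⟩, ⟨.ofNat 0, .ofNat 0, c468x⟩, ⟨.ofNat 1, .ofNat 0, c469x⟩, ⟨.ofNat 0, .ofNat 1, c846x⟩⟩, [715, 716, 718]⟩,
  ⟨⟨⟨c124x, c144x, c104x, c128x⟩, ⟨.ofNat 0, .ofNat 1, c845x⟩, ⟨.ofNat 1, .ofNat 0, c469x⟩, ⟨.ofNat 0, .ofNat 0, c14x⟩⟩, [113, 114, 115]⟩,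
  ⟨⟨⟨c144x, c145x, c106x, c128x⟩, ⟨.ofNat 0, .ofNat 1, c845x⟩, ⟨.ofNat 1, .ofNat 0, c469x⟩, ⟨.ofNat 0, .ofNat 0, c14x⟩⟩, [114, 115, 116, 117]⟩,
  ⟨⟨⟨c146x, c147x, c119x, c128x⟩, ⟨.ofNat 0, .ofNat 1, c845x⟩, ⟨.ofNat 1, .ofNat 0, c469x⟩, ⟨.ofNat 0, .ofNat 0, c14x⟩⟩, [119, 120, 121]⟩,
  ⟨⟨⟨c126x, c127x, c547x, c128x⟩, ⟨.ofNat 0, .ofNat 1, c845x⟩, ⟨.ofNat 1, .ofNat 0, c469x⟩, ⟨.ofNat 0, .ofNat 0, c14x⟩⟩, [123, 124, 125]⟩,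
  ⟨⟨⟨c127x, c141x, c547x, c128x⟩, ⟨.ofNat 0, .ofNat 1, c845x⟩, ⟨.ofNat 1, .ofNat 0, c469x⟩, ⟨.ofNat 0, .ofNat 0, c14x⟩⟩, [123, 124]⟩,
  ⟨⟨⟨c141x, c129x, c547x, c128x⟩, ⟨.ofNat 0, .ofNat 1, c845x⟩, ⟨.ofNat 1, .ofNat 0, c469x⟩, ⟨.ofNat 0, .ofNat 0, c14x⟩⟩, [134, 135]⟩,
  ⟨⟨⟨c129x, c130x, c547x, c128x⟩, ⟨.ofNat 0, .ofNat 1, c845x⟩, ⟨.ofNat 1, .ofNat 0, c469x⟩, ⟨.ofNat 0, .ofNat 0, c14x⟩⟩, [134, 135]⟩,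
  ⟨⟨⟨c130x, c131x, c547x, c128x⟩, ⟨.ofNat 0, .ofNat 1, c845x⟩, ⟨.ofNat 1, .ofNat 0, c469x⟩, ⟨.ofNat 0, .ofNat 0, c14x⟩⟩, [134]⟩,
  ⟨⟨⟨c131x, c132x, c547x, c128x⟩, ⟨.ofNat 0, .ofNat 1, c845x⟩, ⟨.ofNat 1, .ofNat 0, c469x⟩, ⟨.ofNat 0, .ofNat 0, c14x⟩⟩, [133, 134]⟩,
  ⟨⟨⟨c134x, c140x, c547x, c128x⟩, ⟨.ofNat 0, .ofNat 1, c845x⟩, ⟨.ofNat 1, .ofNat 0, c469x⟩, ⟨.ofNat 0, .ofNat 0, c14x⟩⟩, [141, 142]⟩,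
  ⟨⟨⟨c134x, c140x, c128x, c120x⟩, ⟨.ofNat 0, .ofNat 0, c468x⟩, ⟨.ofNat 1, .ofNat 0, c469x⟩, ⟨.ofNat 0, .ofNat 1, c846x⟩⟩, [139, 140, 141]⟩,
  ⟨⟨⟨c140x, c143x, c547x, c128x⟩, ⟨.ofNat 0, .ofNat 1, c845x⟩, ⟨.ofNat 1, .ofNat 0, c469x⟩, ⟨.ofNat 0, .ofNat 0, c14x⟩⟩, [145, 146]⟩,
  ⟨⟨⟨c143x, c148x, c119x, c128x⟩, ⟨.ofNat 0, .ofNat 1, c845x⟩, ⟨.ofNat 1, .ofNat 0, c469x⟩, ⟨.ofNat 0, .ofNat 0, c14x⟩⟩, [145, 146, 147]⟩,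
  ⟨⟨⟨c148x, c149x, c104x, c128x⟩, ⟨.ofNat 0, .ofNat 1, c845x⟩, ⟨.ofNat 1, .ofNat 0, c469x⟩, ⟨.ofNat 0, .ofNat 0, c14x⟩⟩, [146, 147, 148, 149]⟩,
  ⟨⟨⟨c136x, c100x, c128x, c137x⟩, ⟨.ofNat 0, .ofNat 0, c468x⟩, ⟨.ofNat 1, .ofNat 0, c469x⟩, ⟨.ofNat 0, .ofNat 1, c846x⟩⟩, [718, 719, 720, 721, 722]⟩,
  ⟨⟨⟨c138x, c139x, c120x, c121x⟩, ⟨.ofNat 0, .ofNat 0, c468x⟩, ⟨.ofNat 1, .ofNat 0, c469x⟩, ⟨.ofNat 0, .ofNat 1, c846x⟩⟩, [715, 716, 717, 718]⟩,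
  ⟨⟨⟨c123x, c124x, c128x, c125x⟩, ⟨.ofNat 0, .ofNat 0, c468x⟩, ⟨.ofNat 1, .ofNat 0, c469x⟩, ⟨.ofNat 0, .ofNat 1, c846x⟩⟩, [705, 706, 707]⟩,
  ⟨⟨⟨c124x, c144x, c128x, c142x⟩, ⟨.ofNat 0, .ofNat 0, c468x⟩, ⟨.ofNat 1, .ofNat 0, c469x⟩, ⟨.ofNat 0, .ofNat 1, c846x⟩⟩, [704, 705, 706]⟩,
  ⟨⟨⟨c144x, c145x, c128x, c142x⟩, ⟨.ofNat 0, .ofNat 0, c468x⟩, ⟨.ofNat 1, .ofNat 0, c469x⟩, ⟨.ofNat 0, .ofNat 1, c846x⟩⟩, [117, 118, 704]⟩,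
  ⟨⟨⟨c146x, c147x, c128x, c142x⟩, ⟨.ofNat 0, .ofNat 0, c468x⟩, ⟨.ofNat 1, .ofNat 0, c469x⟩, ⟨.ofNat 0, .ofNat 1, c846x⟩⟩, [118, 119, 121, 122, 704]⟩,
  ⟨⟨⟨c127x, c141x, c128x, c142x⟩, ⟨.ofNat 0, .ofNat 0, c468x⟩, ⟨.ofNat 1, .ofNat 0, c469x⟩, ⟨.ofNat 0, .ofNat 1, c846x⟩⟩, [122, 123, 124, 704]⟩,
  ⟨⟨⟨c141x, c129x, c128x, c142x⟩, ⟨.ofNat 0, .ofNat 0, c468x⟩, ⟨.ofNat 1, .ofNat 0, c469x⟩, ⟨.ofNat 0, .ofNat 1, c846x⟩⟩, [134, 135, 136, 704]⟩,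
  ⟨⟨⟨c140x, c143x, c128x, c142x⟩, ⟨.ofNat 0, .ofNat 0, c468x⟩, ⟨.ofNat 1, .ofNat 0, c469x⟩, ⟨.ofNat 0, .ofNat 1, c846x⟩⟩, [138, 139, 140, 704]⟩,
  ⟨⟨⟨c143x, c148x, c128x, c142x⟩, ⟨.ofNat 0, .ofNat 0, c468x⟩, ⟨.ofNat 1, .ofNat 0, c469x⟩, ⟨.ofNat 0, .ofNat 1, c846x⟩⟩, [704]⟩,
  ⟨⟨⟨c145x, c146x, c117x, c142x⟩, ⟨.ofNat 0, .ofNat 0, c468x⟩, ⟨.ofNat 1, .ofNat 0, c469x⟩, ⟨.ofNat 0, .ofNat 1, c846x⟩⟩, [117, 118, 119, 704]⟩,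
  ⟨⟨⟨c147x, c127x, c120x, c142x⟩, ⟨.ofNat 0, .ofNat 0, c468x⟩, ⟨.ofNat 1, .ofNat 0, c469x⟩, ⟨.ofNat 0, .ofNat 1, c846x⟩⟩, [121, 122, 123, 704]⟩,
  ⟨⟨⟨c129x, c130x, c137x, c142x⟩, ⟨.ofNat 0, .ofNat 0, c468x⟩, ⟨.ofNat 1, .ofNat 0, c469x⟩, ⟨.ofNat 0, .ofNat 1, c846x⟩⟩, [135, 136, 137, 704]⟩,
  ⟨⟨⟨c130x, c140x, c121x, c142x⟩, ⟨.ofNat 0, .ofNat 0, c468x⟩, ⟨.ofNat 1, .ofNat 0, c469x⟩, ⟨.ofNat 0, .ofNat 1, c846x⟩⟩, [136, 137, 138, 139, 704]⟩,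
  ⟨⟨⟨c148x, c149x, c128x, c142x⟩, ⟨.ofNat 0, .ofNat 0, c468x⟩, ⟨.ofNat 1, .ofNat 0, c469x⟩, ⟨.ofNat 0, .ofNat 1, c846x⟩⟩, [149, 150, 703, 704]⟩,
  ⟨⟨⟨c149x, c163x, c125x, c162x⟩, ⟨.ofNat 0, .ofNat 0, c468x⟩, ⟨.ofNat 1, .ofNat 0, c469x⟩, ⟨.ofNat 0, .ofNat 1, c846x⟩⟩, [149, 150, 151, 152, 703, 704]⟩,
  ⟨⟨⟨c163x, c164x, c142x, c162x⟩, ⟨.ofNat 0, .ofNat 0, c468x⟩, ⟨.ofNat 1, .ofNat 0, c469x⟩, ⟨.ofNat 0, .ofNat 1, c846x⟩⟩, [151, 152]⟩,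
  ⟨⟨⟨c155x, c156x, c142x, c157x⟩, ⟨.ofNat 0, .ofNat 0, c468x⟩, ⟨.ofNat 1, .ofNat 0, c469x⟩, ⟨.ofNat 0, .ofNat 1, c846x⟩⟩, [152, 183, 184, 185]⟩,
  ⟨⟨⟨c158x, c160x, c142x, c161x⟩, ⟨.ofNat 0, .ofNat 0, c468x⟩, ⟨.ofNat 1, .ofNat 0, c469x⟩, ⟨.ofNat 0, .ofNat 1, c846x⟩⟩, [152, 179, 180, 181]⟩,
  ⟨⟨⟨c150x, c151x, c142x, c152x⟩, ⟨.ofNat 0, .ofNat 0, c14x⟩, ⟨.negSucc 0, .ofNat 0, c325x⟩, ⟨.ofNat 0, .ofNat 1, c846x⟩⟩, [152, 165, 166, 167]⟩,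
  ⟨⟨⟨c151x, c153x, c142x, c154x⟩, ⟨.ofNat 0, .ofNat 0, c14x⟩, ⟨.negSucc 0, .ofNat 0, c325x⟩, ⟨.ofNat 0, .ofNat 1, c846x⟩⟩, [152, 163, 164, 165, 166]⟩,
  ⟨⟨⟨c124x, c144x, c165x, c786x⟩, ⟨.ofNat 0, .negSucc 0, c786x⟩, ⟨.ofNat 1, .ofNat 0, c469x⟩, ⟨.ofNat 0, .ofNat 0, c537x⟩⟩, [667, 668, 669, 670]⟩,
  ⟨⟨⟨c144x, c145x, c167x, c786x⟩, ⟨.ofNat 0, .negSucc 0, c786x⟩, ⟨.ofNat 1, .ofNat 0, c469x⟩, ⟨.ofNat 0, .ofNat 0, c537x⟩⟩, [669, 670, 671]⟩,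
  ⟨⟨⟨c145x, c146x, c157x, c162x⟩, ⟨.ofNat 0, .ofNat 0, c468x⟩, ⟨.ofNat 1, .ofNat 0, c469x⟩, ⟨.ofNat 0, .ofNat 1, c846x⟩⟩, [671, 672, 673]⟩,
  ⟨⟨⟨c145x, c146x, c162x, c786x⟩, ⟨.ofNat 0, .negSucc 0, c786x⟩, ⟨.ofNat 1, .ofNat 0, c469x⟩, ⟨.ofNat 0, .ofNat 0, c537x⟩⟩, [670, 671, 673, 674]⟩,
  ⟨⟨⟨c146x, c147x, c159x, c786x⟩, ⟨.ofNat 0, .negSucc 0, c786x⟩, ⟨.ofNat 1, .ofNat 0, c469x⟩, ⟨.ofNat 0, .ofNat 0, c537x⟩⟩, [673, 674, 675]⟩,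
  ⟨⟨⟨c147x, c126x, c161x, c162x⟩, ⟨.ofNat 0, .ofNat 0, c468x⟩, ⟨.ofNat 1, .ofNat 0, c469x⟩, ⟨.ofNat 0, .ofNat 1, c846x⟩⟩, [675, 676, 678, 679]⟩,
  ⟨⟨⟨c147x, c126x, c162x, c786x⟩, ⟨.ofNat 0, .negSucc 0, c786x⟩, ⟨.ofNat 1, .ofNat 0, c469x⟩, ⟨.ofNat 0, .ofNat 0, c537x⟩⟩, [674, 675, 678, 679]⟩,
  ⟨⟨⟨c126x, c127x, c161x, c162x⟩, ⟨.ofNat 0, .ofNat 0, c468x⟩, ⟨.ofNat 1, .ofNat 0, c469x⟩, ⟨.ofNat 0, .ofNat 1, c846x⟩⟩, [676, 677, 678, 679]⟩,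
  ⟨⟨⟨c129x, c130x, c152x, c162x⟩, ⟨.ofNat 0, .ofNat 0, c468x⟩, ⟨.ofNat 1, .ofNat 0, c469x⟩, ⟨.ofNat 0, .ofNat 1, c846x⟩⟩, [688, 689, 690, 691, 692]⟩,
  ⟨⟨⟨c130x, c132x, c154x, c162x⟩, ⟨.ofNat 0, .ofNat 0, c468x⟩, ⟨.ofNat 1, .ofNat 0, c469x⟩, ⟨.ofNat 0, .ofNat 1, c846x⟩⟩, [687, 688, 691, 692]⟩,
  ⟨⟨⟨c132x, c133x, c154x, c162x⟩, ⟨.ofNat 0, .ofNat 0, c468x⟩, ⟨.ofNat 1, .ofNat 0, c469x⟩, ⟨.ofNat 0, .ofNat 1, c846x⟩⟩, [687, 688, 692]⟩,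
  ⟨⟨⟨c134x, c140x, c154x, c161x⟩, ⟨.ofNat 0, .ofNat 0, c468x⟩, ⟨.ofNat 1, .ofNat 0, c469x⟩, ⟨.ofNat 0, .ofNat 1, c846x⟩⟩, [692, 693, 694, 695]⟩,
  ⟨⟨⟨c133x, c134x, c154x, c162x⟩, ⟨.ofNat 0, .ofNat 0, c468x⟩, ⟨.ofNat 1, .ofNat 0, c469x⟩, ⟨.ofNat 0, .ofNat 1, c846x⟩⟩, [692, 694, 695]⟩,
  ⟨⟨⟨c132x, c133x, c162x, c786x⟩, ⟨.ofNat 0, .negSucc 0, c786x⟩, ⟨.ofNat 1, .ofNat 0, c469x⟩, ⟨.ofNat 0, .ofNat 0, c537x⟩⟩, [687, 688, 696, 697]⟩,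
  ⟨⟨⟨c133x, c134x, c162x, c167x⟩, ⟨.ofNat 0, .negSucc 0, c786x⟩, ⟨.ofNat 1, .ofNat 0, c469x⟩, ⟨.ofNat 0, .ofNat 0, c537x⟩⟩, [695, 696, 697]⟩,
  ⟨⟨⟨c143x, c148x, c159x, c786x⟩, ⟨.ofNat 0, .negSucc 0, c786x⟩, ⟨.ofNat 1, .ofNat 0, c469x⟩, ⟨.ofNat 0, .ofNat 0, c537x⟩⟩, [699, 700, 701, 702]⟩,
  ⟨⟨⟨c148x, c149x, c165x, c786x⟩, ⟨.ofNat 0, .negSucc 0, c786x⟩, ⟨.ofNat 1, .ofNat 0, c469x⟩, ⟨.ofNat 0, .ofNat 0, c537x⟩⟩, [701, 702, 703]⟩,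
  ⟨⟨⟨c149x, c163x, c162x, c786x⟩, ⟨.ofNat 0, .negSucc 0, c786x⟩, ⟨.ofNat 1, .ofNat 0, c469x⟩, ⟨.ofNat 0, .ofNat 0, c537x⟩⟩, [188, 189, 702, 703]⟩,
  ⟨⟨⟨c164x, c155x, c142x, c162x⟩, ⟨.ofNat 0, .ofNat 0, c468x⟩, ⟨.ofNat 1, .ofNat 0, c469x⟩, ⟨.ofNat 0, .ofNat 1, c846x⟩⟩, [152, 184, 185]⟩,
  ⟨⟨⟨c163x, c164x, c162x, c165x⟩, ⟨.ofNat 0, .negSucc 0, c786x⟩, ⟨.ofNat 1, .ofNat 0, c469x⟩, ⟨.ofNat 0, .ofNat 0, c537x⟩⟩, [187, 188, 189]⟩,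
  ⟨⟨⟨c164x, c155x, c162x, c167x⟩, ⟨.ofNat 0, .negSucc 0, c786x⟩, ⟨.ofNat 1, .ofNat 0, c469x⟩, ⟨.ofNat 0, .ofNat 0, c537x⟩⟩, [185, 186, 187, 188]⟩,
  ⟨⟨⟨c156x, c158x, c142x, c162x⟩, ⟨.ofNat 0, .ofNat 0, c468x⟩, ⟨.ofNat 1, .ofNat 0, c469x⟩, ⟨.ofNat 0, .ofNat 1, c846x⟩⟩, [152, 180, 181, 183, 184]⟩,
  ⟨⟨⟨c160x, c169x, c142x, c162x⟩, ⟨.negSucc 0, .ofNat 0, c150x⟩, ⟨.ofNat 0, .ofNat 0, c847x⟩, ⟨.ofNat 0, .ofNat 1, c846x⟩⟩, [152, 178, 179, 180]⟩,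
  ⟨⟨⟨c169x, c150x, c142x, c162x⟩, ⟨.negSucc 0, .ofNat 0, c150x⟩, ⟨.ofNat 0, .ofNat 0, c847x⟩, ⟨.ofNat 0, .ofNat 1, c846x⟩⟩, [152, 166, 167, 168]⟩,
  ⟨⟨⟨c153x, c172x, c142x, c162x⟩, ⟨.ofNat 0, .ofNat 0, c14x⟩, ⟨.negSucc 0, .ofNat 0, c325x⟩, ⟨.ofNat 0, .ofNat 1, c846x⟩⟩, [152, 162, 163, 164]⟩,
  ⟨⟨⟨c172x, c174x, c142x, c162x⟩, ⟨.ofNat 0, .ofNat 0, c14x⟩, ⟨.negSucc 0, .ofNat 0, c325x⟩, ⟨.ofNat 0, .ofNat 1, c846x⟩⟩, [152]⟩,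
  ⟨⟨⟨c174x, c175x, c142x, c162x⟩, ⟨.ofNat 0, .ofNat 0, c14x⟩, ⟨.negSucc 0, .ofNat 0, c325x⟩, ⟨.ofNat 0, .ofNat 1, c846x⟩⟩, [152, 153]⟩,
  ⟨⟨⟨c181x, c153x, c161x, c162x⟩, ⟨.ofNat 0, .ofNat 0, c14x⟩, ⟨.negSucc 0, .ofNat 0, c325x⟩, ⟨.ofNat 0, .ofNat 1, c846x⟩⟩, [161, 162, 163]⟩,
  ⟨⟨⟨c156x, c158x, c162x, c159x⟩, ⟨.ofNat 0, .negSucc 0, c786x⟩, ⟨.ofNat 1, .ofNat 0, c469x⟩, ⟨.ofNat 0, .ofNat 0, c537x⟩⟩, [181, 182, 183]⟩,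
  ⟨⟨⟨c172x, c174x, c162x, c159x⟩, ⟨.ofNat 0, .ofNat 1, c787x⟩, ⟨.negSucc 0, .ofNat 0, c325x⟩, ⟨.ofNat 0, .ofNat 0, c537x⟩⟩, [155, 156, 157]⟩,
  ⟨⟨⟨c174x, c175x, c162x, c165x⟩, ⟨.ofNat 0, .ofNat 1, c787x⟩, ⟨.negSucc 0, .ofNat 0, c325x⟩, ⟨.ofNat 0, .ofNat 0, c537x⟩⟩, [153, 154, 155, 156]⟩,
  ⟨⟨⟨c176x, c160x, c162x, c170x⟩, ⟨.ofNat 0, .ofNat 0, c468x⟩, ⟨.ofNat 0, .negSucc 0, c848x⟩, ⟨.ofNat 1, .ofNat 0, c849x⟩⟩, [176, 177, 178, 179]⟩,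
  ⟨⟨⟨c160x, c169x, c162x, c170x⟩, ⟨.negSucc 0, .ofNat 0, c150x⟩, ⟨.ofNat 0, .negSucc 0, c848x⟩, ⟨.ofNat 0, .ofNat 0, c537x⟩⟩, [175, 176, 178, 179]⟩,
  ⟨⟨⟨c169x, c150x, c162x, c171x⟩, ⟨.negSucc 0, .ofNat 0, c150x⟩, ⟨.ofNat 0, .negSucc 0, c848x⟩, ⟨.ofNat 0, .ofNat 0, c537x⟩⟩, [167, 168, 174, 175, 176]⟩,
  ⟨⟨⟨c150x, c151x, c162x, c171x⟩, ⟨.ofNat 0, .ofNat 0, c14x⟩, ⟨.ofNat 0, .negSucc 0, c848x⟩, ⟨.negSucc 0, .ofNat 0, c850x⟩⟩, [167, 168, 173, 174]⟩,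
  ⟨⟨⟨c177x, c179x, c162x, c180x⟩, ⟨.ofNat 0, .ofNat 0, c14x⟩, ⟨.ofNat 0, .negSucc 0, c848x⟩, ⟨.negSucc 0, .ofNat 0, c850x⟩⟩, [168, 169, 170, 171]⟩,
  ⟨⟨⟨c182x, c181x, c167x, c786x⟩, ⟨.ofNat 0, .ofNat 1, c787x⟩, ⟨.negSucc 0, .ofNat 0, c325x⟩, ⟨.ofNat 0, .ofNat 0, c537x⟩⟩, [159, 160, 161]⟩,
  ⟨⟨⟨c181x, c153x, c162x, c786x⟩, ⟨.ofNat 0, .ofNat 1, c787x⟩, ⟨.negSucc 0, .ofNat 0, c325x⟩, ⟨.ofNat 0, .ofNat 0, c537x⟩⟩, [160, 161]⟩,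
  ⟨⟨⟨c153x, c172x, c162x, c786x⟩, ⟨.ofNat 0, .ofNat 1, c787x⟩, ⟨.negSucc 0, .ofNat 0, c325x⟩, ⟨.ofNat 0, .ofNat 0, c537x⟩⟩, [156, 157]⟩,
  ⟨⟨⟨c182x, c181x, c786x, c173x⟩, ⟨.ofNat 0, .ofNat 0, c468x⟩, ⟨.negSucc 0, .ofNat 0, c325x⟩, ⟨.ofNat 0, .negSucc 0, c199x⟩⟩, [158, 159]⟩,
  ⟨⟨⟨c181x, c153x, c786x, c173x⟩, ⟨.ofNat 0, .ofNat 0, c468x⟩, ⟨.negSucc 0, .ofNat 0, c325x⟩, ⟨.ofNat 0, .negSucc 0, c199x⟩⟩, [158]⟩,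
  ⟨⟨⟨c153x, c172x, c786x, c173x⟩, ⟨.ofNat 0, .ofNat 0, c468x⟩, ⟨.negSucc 0, .ofNat 0, c325x⟩, ⟨.ofNat 0, .negSucc 0, c199x⟩⟩, [157, 158]⟩,
  ⟨⟨⟨c124x, c144x, c786x, c166x⟩, ⟨.ofNat 0, .ofNat 0, c14x⟩, ⟨.ofNat 1, .ofNat 0, c469x⟩, ⟨.ofNat 0, .negSucc 0, c199x⟩⟩, [666, 667]⟩,
  ⟨⟨⟨c144x, c145x, c786x, c166x⟩, ⟨.ofNat 0, .ofNat 0, c14x⟩, ⟨.ofNat 1, .ofNat 0, c469x⟩, ⟨.ofNat 0, .negSucc 0, c199x⟩⟩, [666]⟩,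
  ⟨⟨⟨c145x, c146x, c786x, c166x⟩, ⟨.ofNat 0, .ofNat 0, c14x⟩, ⟨.ofNat 1, .ofNat 0, c469x⟩, ⟨.ofNat 0, .negSucc 0, c199x⟩⟩, [666]⟩,
  ⟨⟨⟨c146x, c147x, c786x, c166x⟩, ⟨.ofNat 0, .ofNat 0, c14x⟩, ⟨.ofNat 1, .ofNat 0, c469x⟩, ⟨.ofNat 0, .negSucc 0, c199x⟩⟩, [666]⟩,
  ⟨⟨⟨c147x, c126x, c786x, c166x⟩, ⟨.ofNat 0, .ofNat 0, c14x⟩, ⟨.ofNat 1, .ofNat 0, c469x⟩, ⟨.ofNat 0, .negSucc 0, c199x⟩⟩, [666, 679, 680]⟩,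
  ⟨⟨⟨c131x, c132x, c180x, c166x⟩, ⟨.ofNat 0, .ofNat 0, c14x⟩, ⟨.ofNat 1, .ofNat 0, c469x⟩, ⟨.ofNat 0, .negSucc 0, c199x⟩⟩, [666, 684, 685, 686, 687]⟩,
  ⟨⟨⟨c132x, c133x, c786x, c166x⟩, ⟨.ofNat 0, .ofNat 0, c14x⟩, ⟨.ofNat 1, .ofNat 0, c469x⟩, ⟨.ofNat 0, .negSucc 0, c199x⟩⟩, [666, 686, 687, 697, 698]⟩,
  ⟨⟨⟨c143x, c148x, c786x, c166x⟩, ⟨.ofNat 0, .ofNat 0, c14x⟩, ⟨.ofNat 1, .ofNat 0, c469x⟩, ⟨.ofNat 0, .negSucc 0, c199x⟩⟩, [666, 698, 699]⟩,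
  ⟨⟨⟨c148x, c149x, c786x, c166x⟩, ⟨.ofNat 0, .ofNat 0, c14x⟩, ⟨.ofNat 1, .ofNat 0, c469x⟩, ⟨.ofNat 0, .negSucc 0, c199x⟩⟩, [665, 666]⟩,
  ⟨⟨⟨c151x, c177x, c162x, c178x⟩, ⟨.ofNat 0, .ofNat 0, c14x⟩, ⟨.ofNat 0, .negSucc 0, c848x⟩, ⟨.negSucc 0, .ofNat 0, c850x⟩⟩, [168, 170, 171, 172, 173, 174]⟩,
  ⟨⟨⟨c126x, c141x, c170x, c166x⟩, ⟨.ofNat 0, .ofNat 0, c14x⟩, ⟨.ofNat 1, .ofNat 0, c469x⟩, ⟨.ofNat 0, .negSucc 0, c199x⟩⟩, [666, 679, 680, 681, 682]⟩,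
  ⟨⟨⟨c133x, c143x, c173x, c166x⟩, ⟨.ofNat 0, .ofNat 0, c14x⟩, ⟨.ofNat 1, .ofNat 0, c469x⟩, ⟨.ofNat 0, .negSucc 0, c199x⟩⟩, [666, 697, 698, 699]⟩,
  ⟨⟨⟨c141x, c130x, c171x, c166x⟩, ⟨.ofNat 0, .ofNat 0, c14x⟩, ⟨.ofNat 1, .ofNat 0, c469x⟩, ⟨.ofNat 0, .negSucc 0, c199x⟩⟩, [666, 681, 682, 683, 684]⟩,
  ⟨⟨⟨c130x, c131x, c178x, c166x⟩, ⟨.ofNat 0, .ofNat 0, c14x⟩, ⟨.ofNat 1, .ofNat 0, c469x⟩, ⟨.ofNat 0, .negSucc 0, c199x⟩⟩, [666, 683, 684, 685]⟩,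
  ⟨⟨⟨c149x, c163x, c786x, c168x⟩, ⟨.ofNat 0, .ofNat 0, c14x⟩, ⟨.ofNat 1, .ofNat 0, c469x⟩, ⟨.ofNat 0, .negSucc 0, c199x⟩⟩, [189, 190, 663, 664, 665, 666]⟩,
  ⟨⟨⟨c163x, c164x, c166x, c199x⟩, ⟨.ofNat 0, .ofNat 0, c14x⟩, ⟨.ofNat 1, .ofNat 0, c469x⟩, ⟨.ofNat 0, .negSucc 0, c199x⟩⟩, [189, 190, 663, 664]⟩,
  ⟨⟨⟨c164x, c155x, c166x, c199x⟩, ⟨.ofNat 0, .ofNat 0, c14x⟩, ⟨.ofNat 1, .ofNat 0, c469x⟩, ⟨.ofNat 0, .negSucc 0, c199x⟩⟩, [190]⟩,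
  ⟨⟨⟨c183x, c176x, c166x, c184x⟩, ⟨.ofNat 0, .ofNat 0, c14x⟩, ⟨.ofNat 1, .ofNat 0, c469x⟩, ⟨.ofNat 0, .negSucc 0, c199x⟩⟩, [190, 650, 651, 652, 653]⟩,
  ⟨⟨⟨c176x, c160x, c166x, c185x⟩, ⟨.ofNat 0, .ofNat 0, c14x⟩, ⟨.ofNat 1, .ofNat 0, c469x⟩, ⟨.ofNat 0, .negSucc 0, c199x⟩⟩, [190, 649, 650, 651]⟩,
  ⟨⟨⟨c150x, c179x, c166x, c189x⟩, ⟨.ofNat 0, .ofNat 0, c468x⟩, ⟨.negSucc 0, .ofNat 0, c325x⟩, ⟨.ofNat 0, .negSucc 0, c199x⟩⟩, [190, 635, 636, 637]⟩,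
  ⟨⟨⟨c182x, c172x, c166x, c193x⟩, ⟨.ofNat 0, .ofNat 0, c468x⟩, ⟨.negSucc 0, .ofNat 0, c325x⟩, ⟨.ofNat 0, .negSucc 0, c199x⟩⟩, [190, 631, 632, 633]⟩,
  ⟨⟨⟨c155x, c183x, c166x, c199x⟩, ⟨.ofNat 0, .ofNat 0, c14x⟩, ⟨.ofNat 1, .ofNat 0, c469x⟩, ⟨.ofNat 0, .negSucc 0, c199x⟩⟩, [190, 652, 653, 654]⟩,
  ⟨⟨⟨c160x, c190x, c166x, c199x⟩, ⟨.ofNat 1, .ofNat 0, c791x⟩, ⟨.ofNat 0, .ofNat 0, c847x⟩, ⟨.ofNat 0, .negSucc 0, c199x⟩⟩, [190, 648, 649, 650]⟩,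
  ⟨⟨⟨c190x, c150x, c166x, c199x⟩, ⟨.ofNat 1, .ofNat 0, c791x⟩, ⟨.ofNat 0, .ofNat 0, c847x⟩, ⟨.ofNat 0, .negSucc 0, c199x⟩⟩, [190, 636, 637, 638]⟩,
  ⟨⟨⟨c179x, c182x, c166x, c199x⟩, ⟨.ofNat 0, .ofNat 0, c468x⟩, ⟨.negSucc 0, .ofNat 0, c325x⟩, ⟨.ofNat 0, .negSucc 0, c199x⟩⟩, [190, 632, 633, 635, 636]⟩,
  ⟨⟨⟨c172x, c174x, c166x, c199x⟩, ⟨.ofNat 0, .ofNat 0, c468x⟩, ⟨.negSucc 0, .ofNat 0, c325x⟩, ⟨.ofNat 0, .negSucc 0, c199x⟩⟩, [190, 631, 632]⟩,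
  ⟨⟨⟨c163x, c164x, c199x, c186x⟩, ⟨.ofNat 0, .ofNat 1, c851x⟩, ⟨.ofNat 1, .ofNat 0, c469x⟩, ⟨.ofNat 0, .ofNat 0, c14x⟩⟩, [660, 661, 662, 663]⟩,
  ⟨⟨⟨c164x, c155x, c199x, c187x⟩, ⟨.ofNat 0, .ofNat 1, c851x⟩, ⟨.ofNat 1, .ofNat 0, c469x⟩, ⟨.ofNat 0, .ofNat 0, c14x⟩⟩, [659, 660, 661]⟩,
  ⟨⟨⟨c183x, c200x, c189x, c199x⟩, ⟨.ofNat 0, .ofNat 0, c14x⟩, ⟨.ofNat 1, .ofNat 0, c469x⟩, ⟨.ofNat 0, .negSucc 0, c199x⟩⟩, [653, 654, 655]⟩,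
  ⟨⟨⟨c179x, c182x, c199x, c187x⟩, ⟨.ofNat 0, .negSucc 0, c852x⟩, ⟨.negSucc 0, .ofNat 0, c325x⟩, ⟨.ofNat 0, .ofNat 0, c14x⟩⟩, [633, 634, 635]⟩,
  ⟨⟨⟨c172x, c174x, c199x, c194x⟩, ⟨.ofNat 0, .negSucc 0, c852x⟩, ⟨.negSucc 0, .ofNat 0, c325x⟩, ⟨.ofNat 0, .ofNat 0, c14x⟩⟩, [628, 629, 630, 631]⟩,
  ⟨⟨⟨c174x, c175x, c166x, c199x⟩, ⟨.ofNat 0, .ofNat 0, c468x⟩, ⟨.negSucc 0, .ofNat 0, c325x⟩, ⟨.ofNat 0, .negSucc 0, c199x⟩⟩, [190, 191, 192]⟩,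
  ⟨⟨⟨c175x, c203x, c168x, c199x⟩, ⟨.ofNat 0, .ofNat 0, c468x⟩, ⟨.negSucc 0, .ofNat 0, c325x⟩, ⟨.ofNat 0, .negSucc 0, c199x⟩⟩, [191, 192, 193]⟩,
  ⟨⟨⟨c195x, c196x, c184x, c189x⟩, ⟨.ofNat 0, .ofNat 0, c468x⟩, ⟨.negSucc 0, .ofNat 0, c325x⟩, ⟨.ofNat 0, .negSucc 0, c199x⟩⟩, [201, 202, 203, 204]⟩,
  ⟨⟨⟨c196x, c205x, c184x, c199x⟩, ⟨.ofNat 0, .ofNat 0, c468x⟩, ⟨.negSucc 0, .ofNat 0, c325x⟩, ⟨.ofNat 0, .negSucc 0, c199x⟩⟩, [201, 202, 204]⟩,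
  ⟨⟨⟨c197x, c198x, c185x, c199x⟩, ⟨.ofNat 0, .ofNat 0, c468x⟩, ⟨.negSucc 0, .ofNat 0, c325x⟩, ⟨.ofNat 0, .negSucc 0, c199x⟩⟩, [204, 205, 206, 207, 208]⟩,
  ⟨⟨⟨c174x, c175x, c199x, c186x⟩, ⟨.ofNat 0, .negSucc 0, c852x⟩, ⟨.negSucc 0, .ofNat 0, c325x⟩, ⟨.ofNat 0, .ofNat 0, c14x⟩⟩, [627, 628, 629]⟩,
  ⟨⟨⟨c205x, c210x, c184x, c199x⟩, ⟨.ofNat 0, .ofNat 0, c468x⟩, ⟨.negSucc 0, .ofNat 0, c325x⟩, ⟨.ofNat 0, .negSucc 0, c199x⟩⟩, [204, 208, 209]⟩,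
  ⟨⟨⟨c210x, c197x, c184x, c199x⟩, ⟨.ofNat 0, .ofNat 0, c468x⟩, ⟨.negSucc 0, .ofNat 0, c325x⟩, ⟨.ofNat 0, .negSucc 0, c199x⟩⟩, [204, 205, 208, 209]⟩,
  ⟨⟨⟨c211x, c212x, c189x, c199x⟩, ⟨.ofNat 0, .ofNat 0, c468x⟩, ⟨.negSucc 0, .ofNat 0, c325x⟩, ⟨.ofNat 0, .negSucc 0, c199x⟩⟩, [217, 218, 219, 220]⟩,
  ⟨⟨⟨c212x, c213x, c189x, c199x⟩, ⟨.ofNat 0, .ofNat 0, c468x⟩, ⟨.negSucc 0, .ofNat 0, c325x⟩, ⟨.ofNat 0, .negSucc 0, c199x⟩⟩, [217, 218, 220, 221]⟩,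
  ⟨⟨⟨c214x, c215x, c193x, c199x⟩, ⟨.ofNat 0, .ofNat 0, c468x⟩, ⟨.negSucc 0, .ofNat 0, c325x⟩, ⟨.ofNat 0, .negSucc 0, c199x⟩⟩, [223, 224, 225]⟩,
  ⟨⟨⟨c155x, c183x, c199x, c852x⟩, ⟨.ofNat 0, .ofNat 1, c851x⟩, ⟨.ofNat 1, .ofNat 0, c469x⟩, ⟨.ofNat 0, .ofNat 0, c14x⟩⟩, [659, 660]⟩,
  ⟨⟨⟨c183x, c200x, c199x, c852x⟩, ⟨.ofNat 0, .ofNat 1, c851x⟩, ⟨.ofNat 1, .ofNat 0, c469x⟩, ⟨.ofNat 0, .ofNat 0, c14x⟩⟩, [655, 656]⟩,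
  ⟨⟨⟨c155x, c183x, c852x, c188x⟩, ⟨.ofNat 0, .ofNat 0, c468x⟩, ⟨.ofNat 1, .ofNat 0, c469x⟩, ⟨.ofNat 0, .ofNat 1, c853x⟩⟩, [658, 659]⟩,
  ⟨⟨⟨c200x, c156x, c194x, c852x⟩, ⟨.ofNat 0, .ofNat 1, c851x⟩, ⟨.ofNat 1, .ofNat 0, c469x⟩, ⟨.ofNat 0, .ofNat 0, c14x⟩⟩, [655, 656, 657]⟩,
  ⟨⟨⟨c183x, c200x, c852x, c188x⟩, ⟨.ofNat 0, .ofNat 0, c468x⟩, ⟨.ofNat 1, .ofNat 0, c469x⟩, ⟨.ofNat 0, .ofNat 1, c853x⟩⟩, [658]⟩,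
  ⟨⟨⟨c200x, c156x, c852x, c188x⟩, ⟨.ofNat 0, .ofNat 0, c468x⟩, ⟨.ofNat 1, .ofNat 0, c469x⟩, ⟨.ofNat 0, .ofNat 1, c853x⟩⟩, [657, 658]⟩,
  ⟨⟨⟨c158x, c201x, c199x, c202x⟩, ⟨.ofNat 0, .ofNat 0, c14x⟩, ⟨.ofNat 0, .negSucc 0, c854x⟩, ⟨.negSucc 0, .ofNat 0, c160x⟩⟩, [645, 646, 647, 648]⟩,
  ⟨⟨⟨c176x, c160x, c199x, c192x⟩, ⟨.ofNat 0, .ofNat 0, c14x⟩, ⟨.ofNat 0, .negSucc 0, c854x⟩, ⟨.negSucc 0, .ofNat 0, c160x⟩⟩, [642, 643, 648, 649]⟩,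
  ⟨⟨⟨c190x, c150x, c199x, c191x⟩, ⟨.ofNat 1, .ofNat 0, c791x⟩, ⟨.ofNat 0, .negSucc 0, c854x⟩, ⟨.ofNat 0, .ofNat 0, c14x⟩⟩, [637, 638, 640, 641]⟩,
  ⟨⟨⟨c160x, c190x, c199x, c192x⟩, ⟨.ofNat 1, .ofNat 0, c791x⟩, ⟨.ofNat 0, .negSucc 0, c854x⟩, ⟨.ofNat 0, .ofNat 0, c14x⟩⟩, [640, 641, 642, 648, 649]⟩,
  ⟨⟨⟨c150x, c151x, c199x, c191x⟩, ⟨.ofNat 0, .ofNat 0, c468x⟩, ⟨.ofNat 0, .negSucc 0, c854x⟩, ⟨.ofNat 1, .ofNat 0, c855x⟩⟩, [637, 638, 639, 640]⟩,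
  ⟨⟨⟨c175x, c203x, c199x, c852x⟩, ⟨.ofNat 0, .negSucc 0, c852x⟩, ⟨.negSucc 0, .ofNat 0, c325x⟩, ⟨.ofNat 0, .ofNat 0, c14x⟩⟩, [193, 194, 627, 628]⟩,
  ⟨⟨⟨c203x, c207x, c186x, c852x⟩, ⟨.ofNat 0, .negSucc 0, c852x⟩, ⟨.negSucc 0, .ofNat 0, c325x⟩, ⟨.ofNat 0, .ofNat 0, c14x⟩⟩, [193, 194, 195]⟩,
  ⟨⟨⟨c207x, c209x, c187x, c852x⟩, ⟨.ofNat 0, .negSucc 0, c852x⟩, ⟨.negSucc 0, .ofNat 0, c325x⟩, ⟨.ofNat 0, .ofNat 0, c14x⟩⟩, [194, 195, 196, 197]⟩,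
  ⟨⟨⟨c196x, c205x, c199x, c194x⟩, ⟨.ofNat 0, .negSucc 0, c852x⟩, ⟨.negSucc 0, .ofNat 0, c325x⟩, ⟨.ofNat 0, .ofNat 0, c14x⟩⟩, [199, 200, 201]⟩,
  ⟨⟨⟨c205x, c210x, c199x, c852x⟩, ⟨.ofNat 0, .negSucc 0, c852x⟩, ⟨.negSucc 0, .ofNat 0, c325x⟩, ⟨.ofNat 0, .ofNat 0, c14x⟩⟩, [199, 200, 208, 209]⟩,
  ⟨⟨⟨c212x, c213x, c199x, c852x⟩, ⟨.ofNat 0, .negSucc 0, c852x⟩, ⟨.negSucc 0, .ofNat 0, c325x⟩, ⟨.ofNat 0, .ofNat 0, c14x⟩⟩, [217, 218, 221, 222]⟩,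
  ⟨⟨⟨c213x, c214x, c187x, c852x⟩, ⟨.ofNat 0, .negSucc 0, c852x⟩, ⟨.negSucc 0, .ofNat 0, c325x⟩, ⟨.ofNat 0, .ofNat 0, c14x⟩⟩, [221, 222, 223]⟩,
  ⟨⟨⟨c214x, c215x, c199x, c852x⟩, ⟨.ofNat 0, .negSucc 0, c852x⟩, ⟨.negSucc 0, .ofNat 0, c325x⟩, ⟨.ofNat 0, .ofNat 0, c14x⟩⟩, [222, 223, 225, 226]⟩,
  ⟨⟨⟨c215x, c218x, c194x, c852x⟩, ⟨.ofNat 0, .negSucc 0, c852x⟩, ⟨.negSucc 0, .ofNat 0, c325x⟩, ⟨.ofNat 0, .ofNat 0, c14x⟩⟩, [225, 226, 227]⟩,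
  ⟨⟨⟨c218x, c219x, c186x, c852x⟩, ⟨.ofNat 0, .negSucc 0, c852x⟩, ⟨.negSucc 0, .ofNat 0, c325x⟩, ⟨.ofNat 0, .ofNat 0, c14x⟩⟩, [226, 227, 228, 229]⟩,
  ⟨⟨⟨c201x, c176x, c199x, c206x⟩, ⟨.ofNat 0, .ofNat 0, c14x⟩, ⟨.ofNat 0, .negSucc 0, c854x⟩, ⟨.negSucc 0, .ofNat 0, c160x⟩⟩, [642, 643, 644, 645, 646, 648]⟩,
  ⟨⟨⟨c175x, c203x, c852x, c204x⟩, ⟨.ofNat 0, .ofNat 0, c14x⟩, ⟨.negSucc 0, .ofNat 0, c325x⟩, ⟨.ofNat 0, .ofNat 1, c853x⟩⟩, [625, 626, 627]⟩,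
  ⟨⟨⟨c203x, c207x, c852x, c208x⟩, ⟨.ofNat 0, .ofNat 0, c14x⟩, ⟨.negSucc 0, .ofNat 0, c325x⟩, ⟨.ofNat 0, .ofNat 1, c853x⟩⟩, [624, 625, 626]⟩,
  ⟨⟨⟨c207x, c209x, c852x, c208x⟩, ⟨.ofNat 0, .ofNat 0, c14x⟩, ⟨.negSucc 0, .ofNat 0, c325x⟩, ⟨.ofNat 0, .ofNat 1, c853x⟩⟩, [197, 198, 624]⟩,
  ⟨⟨⟨c205x, c210x, c852x, c208x⟩, ⟨.ofNat 0, .ofNat 0, c14x⟩, ⟨.negSucc 0, .ofNat 0, c325x⟩, ⟨.ofNat 0, .ofNat 1, c853x⟩⟩, [198, 199, 209, 210, 624]⟩,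
  ⟨⟨⟨c212x, c213x, c852x, c208x⟩, ⟨.ofNat 0, .ofNat 0, c14x⟩, ⟨.negSucc 0, .ofNat 0, c325x⟩, ⟨.ofNat 0, .ofNat 1, c853x⟩⟩, [216, 217, 624]⟩,
  ⟨⟨⟨c213x, c214x, c852x, c208x⟩, ⟨.ofNat 0, .ofNat 0, c14x⟩, ⟨.negSucc 0, .ofNat 0, c325x⟩, ⟨.ofNat 0, .ofNat 1, c853x⟩⟩, [624]⟩,
  ⟨⟨⟨c214x, c215x, c852x, c208x⟩, ⟨.ofNat 0, .ofNat 0, c14x⟩, ⟨.negSucc 0, .ofNat 0, c325x⟩, ⟨.ofNat 0, .ofNat 1, c853x⟩⟩, [624]⟩,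
  ⟨⟨⟨c215x, c218x, c852x, c208x⟩, ⟨.ofNat 0, .ofNat 0, c14x⟩, ⟨.negSucc 0, .ofNat 0, c325x⟩, ⟨.ofNat 0, .ofNat 1, c853x⟩⟩, [624]⟩,
  ⟨⟨⟨c218x, c219x, c852x, c208x⟩, ⟨.ofNat 0, .ofNat 0, c14x⟩, ⟨.negSucc 0, .ofNat 0, c325x⟩, ⟨.ofNat 0, .ofNat 1, c853x⟩⟩, [229, 230, 623, 624]⟩,
  ⟨⟨⟨c209x, c205x, c188x, c208x⟩, ⟨.ofNat 0, .ofNat 0, c14x⟩, ⟨.negSucc 0, .ofNat 0, c325x⟩, ⟨.ofNat 0, .ofNat 1, c853x⟩⟩, [197, 198, 199, 624]⟩,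
  ⟨⟨⟨c210x, c216x, c202x, c208x⟩, ⟨.ofNat 0, .ofNat 0, c14x⟩, ⟨.negSucc 0, .ofNat 0, c325x⟩, ⟨.ofNat 0, .ofNat 1, c853x⟩⟩, [209, 210, 211, 212, 624]⟩,
  ⟨⟨⟨c216x, c197x, c206x, c208x⟩, ⟨.ofNat 0, .ofNat 0, c14x⟩, ⟨.negSucc 0, .ofNat 0, c325x⟩, ⟨.ofNat 0, .ofNat 1, c853x⟩⟩, [211, 212, 213, 624]⟩,
  ⟨⟨⟨c197x, c217x, c192x, c208x⟩, ⟨.ofNat 0, .ofNat 0, c14x⟩, ⟨.negSucc 0, .ofNat 0, c325x⟩, ⟨.ofNat 0, .ofNat 1, c853x⟩⟩, [212, 213, 214, 215, 624]⟩,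
  ⟨⟨⟨c217x, c212x, c191x, c208x⟩, ⟨.ofNat 0, .ofNat 0, c14x⟩, ⟨.negSucc 0, .ofNat 0, c325x⟩, ⟨.ofNat 0, .ofNat 1, c853x⟩⟩, [214, 215, 216, 217, 624]⟩,
  ⟨⟨⟨c219x, c232x, c204x, c562x⟩, ⟨.ofNat 0, .ofNat 0, c14x⟩, ⟨.negSucc 0, .ofNat 0, c325x⟩, ⟨.ofNat 0, .ofNat 1, c853x⟩⟩, [229, 230, 623, 624]⟩,
  ⟨⟨⟨c220x, c221x, c204x, c222x⟩, ⟨.ofNat 0, .ofNat 0, c14x⟩, ⟨.negSucc 0, .ofNat 0, c325x⟩, ⟨.ofNat 0, .ofNat 1, c853x⟩⟩, [230, 617, 618, 619]⟩,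
  ⟨⟨⟨c223x, c224x, c204x, c225x⟩, ⟨.ofNat 0, .ofNat 0, c14x⟩, ⟨.negSucc 0, .ofNat 0, c325x⟩, ⟨.ofNat 0, .ofNat 1, c853x⟩⟩, [230, 604, 605, 606, 607]⟩,
  ⟨⟨⟨c224x, c226x, c204x, c227x⟩, ⟨.ofNat 0, .ofNat 0, c14x⟩, ⟨.negSucc 0, .ofNat 0, c325x⟩, ⟨.ofNat 0, .ofNat 1, c853x⟩⟩, [230, 603, 604, 605]⟩,
  ⟨⟨⟨c226x, c228x, c204x, c229x⟩, ⟨.ofNat 0, .ofNat 0, c14x⟩, ⟨.negSucc 0, .ofNat 0, c325x⟩, ⟨.ofNat 0, .ofNat 1, c853x⟩⟩, [230, 601, 602, 603, 604]⟩,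
  ⟨⟨⟨c228x, c230x, c204x, c231x⟩, ⟨.ofNat 0, .ofNat 0, c14x⟩, ⟨.negSucc 0, .ofNat 0, c325x⟩, ⟨.ofNat 0, .ofNat 1, c853x⟩⟩, [230, 599, 600, 601, 602]⟩,
  ⟨⟨⟨c232x, c220x, c204x, c562x⟩, ⟨.ofNat 0, .ofNat 0, c14x⟩, ⟨.negSucc 0, .ofNat 0, c325x⟩, ⟨.ofNat 0, .ofNat 1, c853x⟩⟩, [230, 618, 619]⟩,
  ⟨⟨⟨c221x, c223x, c204x, c562x⟩, ⟨.ofNat 0, .ofNat 0, c14x⟩, ⟨.negSucc 0, .ofNat 0, c325x⟩, ⟨.ofNat 0, .ofNat 1, c853x⟩⟩, [230, 606, 607, 617, 618]⟩,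
  ⟨⟨⟨c230x, c241x, c204x, c562x⟩, ⟨.ofNat 0, .ofNat 0, c14x⟩, ⟨.negSucc 0, .ofNat 0, c325x⟩, ⟨.ofNat 0, .ofNat 1, c853x⟩⟩, [230, 599, 600]⟩,
  ⟨⟨⟨c241x, c242x, c204x, c562x⟩, ⟨.ofNat 0, .ofNat 0, c14x⟩, ⟨.negSucc 0, .ofNat 0, c325x⟩, ⟨.ofNat 0, .ofNat 1, c853x⟩⟩, [230]⟩,
  ⟨⟨⟨c242x, c243x, c204x, c562x⟩, ⟨.ofNat 0, .ofNat 0, c14x⟩, ⟨.negSucc 0, .ofNat 0, c325x⟩, ⟨.ofNat 0, .ofNat 1, c853x⟩⟩, [230]⟩,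
  ⟨⟨⟨c243x, c244x, c204x, c562x⟩, ⟨.ofNat 0, .ofNat 0, c14x⟩, ⟨.negSucc 0, .ofNat 0, c325x⟩, ⟨.ofNat 0, .ofNat 1, c853x⟩⟩, [230]⟩,
  ⟨⟨⟨c244x, c245x, c204x, c562x⟩, ⟨.ofNat 0, .ofNat 0, c14x⟩, ⟨.negSucc 0, .ofNat 0, c325x⟩, ⟨.ofNat 0, .ofNat 1, c853x⟩⟩, [230, 231, 232]⟩,
  ⟨⟨⟨c219x, c232x, c562x, c233x⟩, ⟨.ofNat 0, .ofNat 1, c856x⟩, ⟨.negSucc 0, .ofNat 0, c325x⟩, ⟨.ofNat 0, .ofNat 0, c537x⟩⟩, [621, 622, 623]⟩,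
  ⟨⟨⟨c245x, c249x, c208x, c562x⟩, ⟨.ofNat 0, .ofNat 0, c14x⟩, ⟨.negSucc 0, .ofNat 0, c325x⟩, ⟨.ofNat 0, .ofNat 1, c853x⟩⟩, [231, 232, 233]⟩,
  ⟨⟨⟨c243x, c244x, c562x, c237x⟩, ⟨.ofNat 0, .ofNat 1, c856x⟩, ⟨.negSucc 0, .ofNat 0, c325x⟩, ⟨.ofNat 0, .ofNat 0, c537x⟩⟩, [589, 590, 591]⟩,
  ⟨⟨⟨c232x, c220x, c562x, c234x⟩, ⟨.ofNat 0, .ofNat 1, c856x⟩, ⟨.negSucc 0, .ofNat 0, c325x⟩, ⟨.ofNat 0, .ofNat 0, c537x⟩⟩, [619, 620, 621, 622]⟩,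
  ⟨⟨⟨c236x, c221x, c237x, c238x⟩, ⟨.ofNat 0, .ofNat 1, c856x⟩, ⟨.negSucc 0, .ofNat 0, c325x⟩, ⟨.ofNat 0, .ofNat 0, c537x⟩⟩, [615, 616, 617]⟩,
  ⟨⟨⟨c221x, c223x, c562x, c238x⟩, ⟨.ofNat 0, .ofNat 1, c856x⟩, ⟨.negSucc 0, .ofNat 0, c325x⟩, ⟨.ofNat 0, .ofNat 0, c537x⟩⟩, [607, 608, 616, 617]⟩,
  ⟨⟨⟨c230x, c241x, c562x, c238x⟩, ⟨.ofNat 0, .ofNat 1, c856x⟩, ⟨.negSucc 0, .ofNat 0, c325x⟩, ⟨.ofNat 0, .ofNat 0, c537x⟩⟩, [594, 595, 598, 599]⟩,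
  ⟨⟨⟨c241x, c242x, c562x, c234x⟩, ⟨.ofNat 0, .ofNat 1, c856x⟩, ⟨.negSucc 0, .ofNat 0, c325x⟩, ⟨.ofNat 0, .ofNat 0, c537x⟩⟩, [593, 594, 595]⟩,
  ⟨⟨⟨c242x, c243x, c562x, c238x⟩, ⟨.ofNat 0, .ofNat 1, c856x⟩, ⟨.negSucc 0, .ofNat 0, c325x⟩, ⟨.ofNat 0, .ofNat 0, c537x⟩⟩, [590, 591, 593, 594]⟩,
  ⟨⟨⟨c242x, c243x, c238x, c246x⟩, ⟨.ofNat 0, .ofNat 0, c468x⟩, ⟨.negSucc 0, .ofNat 0, c325x⟩, ⟨.ofNat 0, .negSucc 0, c295x⟩⟩, [591, 592, 593]⟩,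
  ⟨⟨⟨c244x, c245x, c562x, c233x⟩, ⟨.ofNat 0, .ofNat 1, c856x⟩, ⟨.negSucc 0, .ofNat 0, c325x⟩, ⟨.ofNat 0, .ofNat 0, c537x⟩⟩, [587, 588, 589, 590]⟩,
  ⟨⟨⟨c245x, c249x, c562x, c238x⟩, ⟨.ofNat 0, .ofNat 1, c856x⟩, ⟨.negSucc 0, .ofNat 0, c325x⟩, ⟨.ofNat 0, .ofNat 0, c537x⟩⟩, [233, 234, 587, 588]⟩,
  ⟨⟨⟨c249x, c261x, c233x, c238x⟩, ⟨.ofNat 0, .ofNat 1, c856x⟩, ⟨.negSucc 0, .ofNat 0, c325x⟩, ⟨.ofNat 0, .ofNat 0, c537x⟩⟩, [233, 234, 235, 236]⟩,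
  ⟨⟨⟨c261x, c263x, c234x, c238x⟩, ⟨.ofNat 0, .ofNat 1, c856x⟩, ⟨.negSucc 0, .ofNat 0, c325x⟩, ⟨.ofNat 0, .ofNat 0, c537x⟩⟩, [235, 236, 237]⟩,
  ⟨⟨⟨c263x, c253x, c222x, c562x⟩, ⟨.ofNat 0, .ofNat 0, c14x⟩, ⟨.negSucc 0, .ofNat 0, c325x⟩, ⟨.ofNat 0, .ofNat 1, c853x⟩⟩, [237, 238]⟩,
  ⟨⟨⟨c253x, c251x, c222x, c562x⟩, ⟨.ofNat 0, .ofNat 0, c14x⟩, ⟨.negSucc 0, .ofNat 0, c325x⟩, ⟨.ofNat 0, .ofNat 1, c853x⟩⟩, [238]⟩,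
  ⟨⟨⟨c251x, c252x, c222x, c562x⟩, ⟨.ofNat 0, .ofNat 0, c14x⟩, ⟨.negSucc 0, .ofNat 0, c325x⟩, ⟨.ofNat 0, .ofNat 1, c853x⟩⟩, [238, 239]⟩,
  ⟨⟨⟨c263x, c253x, c562x, c238x⟩, ⟨.ofNat 0, .ofNat 1, c856x⟩, ⟨.negSucc 0, .ofNat 0, c325x⟩, ⟨.ofNat 0, .ofNat 0, c537x⟩⟩, [236, 237]⟩,
  ⟨⟨⟨c253x, c251x, c562x, c238x⟩, ⟨.ofNat 0, .ofNat 1, c856x⟩, ⟨.negSucc 0, .ofNat 0, c325x⟩, ⟨.ofNat 0, .ofNat 0, c537x⟩⟩, [240, 241]⟩,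
  ⟨⟨⟨c251x, c252x, c562x, c237x⟩, ⟨.ofNat 0, .ofNat 1, c856x⟩, ⟨.negSucc 0, .ofNat 0, c325x⟩, ⟨.ofNat 0, .ofNat 0, c537x⟩⟩, [239, 240, 241]⟩,
  ⟨⟨⟨c254x, c247x, c225x, c562x⟩, ⟨.ofNat 0, .ofNat 0, c14x⟩, ⟨.negSucc 0, .ofNat 0, c325x⟩, ⟨.ofNat 0, .ofNat 1, c853x⟩⟩, [249, 250, 251]⟩,
  ⟨⟨⟨c247x, c248x, c227x, c562x⟩, ⟨.ofNat 0, .ofNat 0, c14x⟩, ⟨.negSucc 0, .ofNat 0, c325x⟩, ⟨.ofNat 0, .ofNat 1, c853x⟩⟩, [250, 251, 252, 253, 254]⟩,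
  ⟨⟨⟨c254x, c247x, c562x, c238x⟩, ⟨.ofNat 0, .ofNat 1, c856x⟩, ⟨.negSucc 0, .ofNat 0, c325x⟩, ⟨.ofNat 0, .ofNat 0, c537x⟩⟩, [248, 249]⟩,
  ⟨⟨⟨c247x, c248x, c562x, c238x⟩, ⟨.ofNat 0, .ofNat 1, c856x⟩, ⟨.negSucc 0, .ofNat 0, c325x⟩, ⟨.ofNat 0, .ofNat 0, c537x⟩⟩, [248]⟩,
  ⟨⟨⟨c248x, c255x, c229x, c562x⟩, ⟨.ofNat 0, .ofNat 0, c14x⟩, ⟨.negSucc 0, .ofNat 0, c325x⟩, ⟨.ofNat 0, .ofNat 1, c853x⟩⟩, [253, 254]⟩,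
  ⟨⟨⟨c255x, c264x, c229x, c562x⟩, ⟨.ofNat 0, .ofNat 0, c14x⟩, ⟨.negSucc 0, .ofNat 0, c325x⟩, ⟨.ofNat 0, .ofNat 1, c853x⟩⟩, [254, 255, 256]⟩,
  ⟨⟨⟨c248x, c255x, c562x, c238x⟩, ⟨.ofNat 0, .ofNat 1, c856x⟩, ⟨.negSucc 0, .ofNat 0, c325x⟩, ⟨.ofNat 0, .ofNat 0, c537x⟩⟩, [247, 248]⟩,
  ⟨⟨⟨c264x, c256x, c231x, c562x⟩, ⟨.ofNat 0, .ofNat 0, c14x⟩, ⟨.negSucc 0, .ofNat 0, c325x⟩, ⟨.ofNat 0, .ofNat 1, c853x⟩⟩, [255, 256]⟩,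
  ⟨⟨⟨c255x, c264x, c562x, c238x⟩, ⟨.ofNat 0, .ofNat 1, c856x⟩, ⟨.negSucc 0, .ofNat 0, c325x⟩, ⟨.ofNat 0, .ofNat 0, c537x⟩⟩, [247, 248]⟩,
  ⟨⟨⟨c264x, c256x, c562x, c238x⟩, ⟨.ofNat 0, .ofNat 1, c856x⟩, ⟨.negSucc 0, .ofNat 0, c325x⟩, ⟨.ofNat 0, .ofNat 0, c537x⟩⟩, [258, 259]⟩,
  ⟨⟨⟨c256x, c257x, c231x, c562x⟩, ⟨.ofNat 0, .ofNat 0, c14x⟩, ⟨.negSucc 0, .ofNat 0, c325x⟩, ⟨.ofNat 0, .ofNat 1, c853x⟩⟩, [256, 257]⟩,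
  ⟨⟨⟨c256x, c257x, c562x, c238x⟩, ⟨.ofNat 0, .ofNat 1, c856x⟩, ⟨.negSucc 0, .ofNat 0, c325x⟩, ⟨.ofNat 0, .ofNat 0, c537x⟩⟩, [257, 258, 259]⟩,
  ⟨⟨⟨c265x, c266x, c234x, c238x⟩, ⟨.ofNat 0, .ofNat 1, c856x⟩, ⟨.negSucc 0, .ofNat 0, c325x⟩, ⟨.ofNat 0, .ofNat 0, c537x⟩⟩, [261, 262, 263]⟩,
  ⟨⟨⟨c267x, c268x, c237x, c238x⟩, ⟨.ofNat 0, .ofNat 1, c856x⟩, ⟨.negSucc 0, .ofNat 0, c325x⟩, ⟨.ofNat 0, .ofNat 0, c537x⟩⟩, [265, 266, 267, 268]⟩,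
  ⟨⟨⟨c268x, c269x, c233x, c238x⟩, ⟨.ofNat 0, .ofNat 1, c856x⟩, ⟨.negSucc 0, .ofNat 0, c325x⟩, ⟨.ofNat 0, .ofNat 0, c537x⟩⟩, [267, 268, 269]⟩,
  ⟨⟨⟨c236x, c221x, c238x, c235x⟩, ⟨.ofNat 0, .ofNat 0, c468x⟩, ⟨.negSucc 0, .ofNat 0, c325x⟩, ⟨.ofNat 0, .negSucc 0, c295x⟩⟩, [612, 614, 615]⟩,
  ⟨⟨⟨c221x, c223x, c238x, c235x⟩, ⟨.ofNat 0, .ofNat 0, c468x⟩, ⟨.negSucc 0, .ofNat 0, c325x⟩, ⟨.ofNat 0, .negSucc 0, c295x⟩⟩, [607, 608, 612]⟩,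
  ⟨⟨⟨c223x, c226x, c238x, c235x⟩, ⟨.ofNat 0, .ofNat 0, c468x⟩, ⟨.negSucc 0, .ofNat 0, c325x⟩, ⟨.ofNat 0, .negSucc 0, c295x⟩⟩, [607, 608, 611, 612]⟩,
  ⟨⟨⟨c239x, c230x, c238x, c240x⟩, ⟨.ofNat 0, .ofNat 0, c468x⟩, ⟨.negSucc 0, .ofNat 0, c325x⟩, ⟨.ofNat 0, .negSucc 0, c295x⟩⟩, [596, 597, 598, 599]⟩,
  ⟨⟨⟨c230x, c241x, c238x, c240x⟩, ⟨.ofNat 0, .ofNat 0, c468x⟩, ⟨.negSucc 0, .ofNat 0, c325x⟩, ⟨.ofNat 0, .negSucc 0, c295x⟩⟩, [595, 596, 598, 599]⟩,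
  ⟨⟨⟨c258x, c236x, c240x, c235x⟩, ⟨.ofNat 0, .ofNat 0, c468x⟩, ⟨.negSucc 0, .ofNat 0, c325x⟩, ⟨.ofNat 0, .negSucc 0, c295x⟩⟩, [612, 613, 614, 615]⟩,
  ⟨⟨⟨c226x, c259x, c238x, c260x⟩, ⟨.ofNat 0, .ofNat 0, c468x⟩, ⟨.negSucc 0, .ofNat 0, c325x⟩, ⟨.ofNat 0, .negSucc 0, c295x⟩⟩, [608, 609, 610, 611, 612]⟩,
  ⟨⟨⟨c245x, c249x, c238x, c250x⟩, ⟨.ofNat 0, .ofNat 0, c468x⟩, ⟨.negSucc 0, .ofNat 0, c325x⟩, ⟨.ofNat 0, .negSucc 0, c295x⟩⟩, [585, 586, 587]⟩,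
  ⟨⟨⟨c249x, c261x, c238x, c262x⟩, ⟨.ofNat 0, .ofNat 0, c468x⟩, ⟨.negSucc 0, .ofNat 0, c325x⟩, ⟨.ofNat 0, .negSucc 0, c295x⟩⟩, [584, 585, 586]⟩,
  ⟨⟨⟨c261x, c263x, c238x, c262x⟩, ⟨.ofNat 0, .ofNat 0, c468x⟩, ⟨.negSucc 0, .ofNat 0, c325x⟩, ⟨.ofNat 0, .negSucc 0, c295x⟩⟩, [584]⟩,
  ⟨⟨⟨c253x, c251x, c238x, c240x⟩, ⟨.ofNat 0, .ofNat 0, c468x⟩, ⟨.negSucc 0, .ofNat 0, c325x⟩, ⟨.ofNat 0, .negSucc 0, c295x⟩⟩, [241, 242, 243]⟩,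
  ⟨⟨⟨c263x, c253x, c238x, c262x⟩, ⟨.ofNat 0, .ofNat 0, c468x⟩, ⟨.negSucc 0, .ofNat 0, c325x⟩, ⟨.ofNat 0, .negSucc 0, c295x⟩⟩, [242, 243, 244, 584]⟩,
  ⟨⟨⟨c255x, c264x, c238x, c262x⟩, ⟨.ofNat 0, .ofNat 0, c468x⟩, ⟨.negSucc 0, .ofNat 0, c325x⟩, ⟨.ofNat 0, .negSucc 0, c295x⟩⟩, [246, 247, 248, 584]⟩,
  ⟨⟨⟨c264x, c256x, c238x, c262x⟩, ⟨.ofNat 0, .ofNat 0, c468x⟩, ⟨.negSucc 0, .ofNat 0, c325x⟩, ⟨.ofNat 0, .negSucc 0, c295x⟩⟩, [258, 259, 260, 584]⟩,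
  ⟨⟨⟨c265x, c266x, c238x, c262x⟩, ⟨.ofNat 0, .ofNat 0, c468x⟩, ⟨.negSucc 0, .ofNat 0, c325x⟩, ⟨.ofNat 0, .negSucc 0, c295x⟩⟩, [260, 261, 263, 264, 584]⟩,
  ⟨⟨⟨c253x, c248x, c235x, c262x⟩, ⟨.ofNat 0, .ofNat 0, c468x⟩, ⟨.negSucc 0, .ofNat 0, c325x⟩, ⟨.ofNat 0, .negSucc 0, c295x⟩⟩, [243, 244, 245, 246, 584]⟩,
  ⟨⟨⟨c248x, c255x, c260x, c262x⟩, ⟨.ofNat 0, .ofNat 0, c468x⟩, ⟨.negSucc 0, .ofNat 0, c325x⟩, ⟨.ofNat 0, .negSucc 0, c295x⟩⟩, [245, 246, 247, 584]⟩,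
  ⟨⟨⟨c256x, c265x, c240x, c262x⟩, ⟨.ofNat 0, .ofNat 0, c468x⟩, ⟨.negSucc 0, .ofNat 0, c325x⟩, ⟨.ofNat 0, .negSucc 0, c295x⟩⟩, [259, 260, 261, 584]⟩,
  ⟨⟨⟨c266x, c267x, c246x, c262x⟩, ⟨.ofNat 0, .ofNat 0, c468x⟩, ⟨.negSucc 0, .ofNat 0, c325x⟩, ⟨.ofNat 0, .negSucc 0, c295x⟩⟩, [263, 264, 265, 584]⟩,
  ⟨⟨⟨c267x, c268x, c238x, c262x⟩, ⟨.ofNat 0, .ofNat 0, c468x⟩, ⟨.negSucc 0, .ofNat 0, c325x⟩, ⟨.ofNat 0, .negSucc 0, c295x⟩⟩, [264, 265, 584]⟩,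
  ⟨⟨⟨c268x, c269x, c238x, c262x⟩, ⟨.ofNat 0, .ofNat 0, c468x⟩, ⟨.negSucc 0, .ofNat 0, c325x⟩, ⟨.ofNat 0, .negSucc 0, c295x⟩⟩, [269, 270, 583, 584]⟩,
  ⟨⟨⟨c269x, c278x, c250x, c295x⟩, ⟨.ofNat 0, .ofNat 0, c468x⟩, ⟨.negSucc 0, .ofNat 0, c325x⟩, ⟨.ofNat 0, .negSucc 0, c295x⟩⟩, [269, 270, 583, 584]⟩,
  ⟨⟨⟨c278x, c280x, c250x, c295x⟩, ⟨.ofNat 0, .ofNat 0, c468x⟩, ⟨.negSucc 0, .ofNat 0, c325x⟩, ⟨.ofNat 0, .negSucc 0, c295x⟩⟩, [270]⟩,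
  ⟨⟨⟨c270x, c271x, c250x, c272x⟩, ⟨.ofNat 0, .ofNat 0, c468x⟩, ⟨.negSucc 0, .ofNat 0, c325x⟩, ⟨.ofNat 0, .negSucc 0, c295x⟩⟩, [270, 570, 571, 572, 573]⟩,
  ⟨⟨⟨c271x, c273x, c250x, c274x⟩, ⟨.ofNat 0, .ofNat 0, c468x⟩, ⟨.negSucc 0, .ofNat 0, c325x⟩, ⟨.ofNat 0, .negSucc 0, c295x⟩⟩, [270, 569, 570, 571]⟩,
  ⟨⟨⟨c275x, c276x, c250x, c277x⟩, ⟨.ofNat 0, .ofNat 0, c468x⟩, ⟨.negSucc 0, .ofNat 0, c325x⟩, ⟨.ofNat 0, .negSucc 0, c295x⟩⟩, [270, 555, 556, 557]⟩,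
  ⟨⟨⟨c280x, c270x, c250x, c295x⟩, ⟨.ofNat 0, .ofNat 0, c468x⟩, ⟨.negSucc 0, .ofNat 0, c325x⟩, ⟨.ofNat 0, .negSucc 0, c295x⟩⟩, [270, 572, 573, 574]⟩,
  ⟨⟨⟨c273x, c289x, c250x, c295x⟩, ⟨.ofNat 0, .ofNat 0, c468x⟩, ⟨.negSucc 0, .ofNat 0, c325x⟩, ⟨.ofNat 0, .negSucc 0, c295x⟩⟩, [270, 568, 569, 570]⟩,
  ⟨⟨⟨c289x, c275x, c250x, c295x⟩, ⟨.ofNat 0, .ofNat 0, c468x⟩, ⟨.negSucc 0, .ofNat 0, c325x⟩, ⟨.ofNat 0, .negSucc 0, c295x⟩⟩, [270, 556, 557, 558]⟩,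
  ⟨⟨⟨c276x, c282x, c250x, c295x⟩, ⟨.ofNat 0, .ofNat 0, c468x⟩, ⟨.negSucc 0, .ofNat 0, c325x⟩, ⟨.ofNat 0, .negSucc 0, c295x⟩⟩, [270, 552, 553, 555, 556]⟩,
  ⟨⟨⟨c270x, c292x, c277x, c295x⟩, ⟨.ofNat 0, .ofNat 0, c468x⟩, ⟨.negSucc 0, .ofNat 0, c325x⟩, ⟨.ofNat 0, .negSucc 0, c295x⟩⟩, [573, 574, 575]⟩,
  ⟨⟨⟨c282x, c283x, c250x, c284x⟩, ⟨.ofNat 0, .ofNat 0, c468x⟩, ⟨.negSucc 0, .ofNat 0, c325x⟩, ⟨.ofNat 0, .negSucc 0, c295x⟩⟩, [270, 551, 552, 553]⟩,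
  ⟨⟨⟨c283x, c285x, c250x, c295x⟩, ⟨.ofNat 0, .ofNat 0, c468x⟩, ⟨.negSucc 0, .ofNat 0, c325x⟩, ⟨.ofNat 0, .negSucc 0, c295x⟩⟩, [270, 551, 552]⟩,
  ⟨⟨⟨c285x, c287x, c250x, c295x⟩, ⟨.ofNat 0, .ofNat 0, c468x⟩, ⟨.negSucc 0, .ofNat 0, c325x⟩, ⟨.ofNat 0, .negSucc 0, c295x⟩⟩, [270, 271, 272]⟩,
  ⟨⟨⟨c287x, c297x, c262x, c295x⟩, ⟨.ofNat 0, .ofNat 0, c468x⟩, ⟨.negSucc 0, .ofNat 0, c325x⟩, ⟨.ofNat 0, .negSucc 0, c295x⟩⟩, [271, 272, 273]⟩,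
  ⟨⟨⟨c299x, c300x, c272x, c277x⟩, ⟨.ofNat 0, .ofNat 0, c468x⟩, ⟨.negSucc 0, .ofNat 0, c325x⟩, ⟨.ofNat 0, .negSucc 0, c295x⟩⟩, [281, 282, 283, 284]⟩,
  ⟨⟨⟨c300x, c301x, c272x, c295x⟩, ⟨.ofNat 0, .ofNat 0, c468x⟩, ⟨.negSucc 0, .ofNat 0, c325x⟩, ⟨.ofNat 0, .negSucc 0, c295x⟩⟩, [281, 282, 284]⟩,
  ⟨⟨⟨c301x, c302x, c272x, c295x⟩, ⟨.ofNat 0, .ofNat 0, c468x⟩, ⟨.negSucc 0, .ofNat 0, c325x⟩, ⟨.ofNat 0, .negSucc 0, c295x⟩⟩, [284, 288, 289]⟩,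
  ⟨⟨⟨c302x, c303x, c272x, c295x⟩, ⟨.ofNat 0, .ofNat 0, c468x⟩, ⟨.negSucc 0, .ofNat 0, c325x⟩, ⟨.ofNat 0, .negSucc 0, c295x⟩⟩, [284, 285, 288, 289]⟩,
  ⟨⟨⟨c303x, c304x, c274x, c295x⟩, ⟨.ofNat 0, .ofNat 0, c468x⟩, ⟨.negSucc 0, .ofNat 0, c325x⟩, ⟨.ofNat 0, .negSucc 0, c295x⟩⟩, [284, 285, 286, 287, 288]⟩,
  ⟨⟨⟨c305x, c306x, c277x, c295x⟩, ⟨.ofNat 0, .ofNat 0, c468x⟩, ⟨.negSucc 0, .ofNat 0, c325x⟩, ⟨.ofNat 0, .negSucc 0, c295x⟩⟩, [297, 298, 299, 300]⟩,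
  ⟨⟨⟨c306x, c313x, c277x, c295x⟩, ⟨.ofNat 0, .ofNat 0, c468x⟩, ⟨.negSucc 0, .ofNat 0, c325x⟩, ⟨.ofNat 0, .negSucc 0, c295x⟩⟩, [297, 298, 300, 301]⟩,
  ⟨⟨⟨c269x, c278x, c295x, c279x⟩, ⟨.ofNat 0, .negSucc 0, c794x⟩, ⟨.negSucc 0, .ofNat 0, c325x⟩, ⟨.ofNat 0, .ofNat 0, c14x⟩⟩, [580, 581, 582, 583]⟩,
  ⟨⟨⟨c278x, c280x, c295x, c281x⟩, ⟨.ofNat 0, .negSucc 0, c794x⟩, ⟨.negSucc 0, .ofNat 0, c325x⟩, ⟨.ofNat 0, .ofNat 0, c14x⟩⟩, [579, 580, 581]⟩,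
  ⟨⟨⟨c280x, c270x, c295x, c794x⟩, ⟨.ofNat 0, .negSucc 0, c794x⟩, ⟨.negSucc 0, .ofNat 0, c325x⟩, ⟨.ofNat 0, .ofNat 0, c14x⟩⟩, [579, 580]⟩,
  ⟨⟨⟨c270x, c292x, c295x, c794x⟩, ⟨.ofNat 0, .negSucc 0, c794x⟩, ⟨.negSucc 0, .ofNat 0, c325x⟩, ⟨.ofNat 0, .ofNat 0, c14x⟩⟩, [575, 576]⟩,
  ⟨⟨⟨c280x, c270x, c794x, c288x⟩, ⟨.ofNat 0, .ofNat 0, c14x⟩, ⟨.negSucc 0, .ofNat 0, c325x⟩, ⟨.ofNat 0, .ofNat 1, c795x⟩⟩, [578, 579]⟩,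
  ⟨⟨⟨c292x, c307x, c286x, c794x⟩, ⟨.ofNat 0, .negSucc 0, c794x⟩, ⟨.negSucc 0, .ofNat 0, c325x⟩, ⟨.ofNat 0, .ofNat 0, c14x⟩⟩, [575, 576, 577]⟩,
  ⟨⟨⟨c270x, c292x, c794x, c288x⟩, ⟨.ofNat 0, .ofNat 0, c14x⟩, ⟨.negSucc 0, .ofNat 0, c325x⟩, ⟨.ofNat 0, .ofNat 1, c795x⟩⟩, [578]⟩,
  ⟨⟨⟨c292x, c307x, c794x, c288x⟩, ⟨.ofNat 0, .ofNat 0, c14x⟩, ⟨.negSucc 0, .ofNat 0, c325x⟩, ⟨.ofNat 0, .ofNat 1, c795x⟩⟩, [577, 578]⟩,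
  ⟨⟨⟨c293x, c294x, c295x, c794x⟩, ⟨.ofNat 0, .negSucc 0, c794x⟩, ⟨.negSucc 0, .ofNat 0, c325x⟩, ⟨.ofNat 0, .ofNat 0, c14x⟩⟩, [567, 568]⟩,
  ⟨⟨⟨c293x, c294x, c794x, c296x⟩, ⟨.ofNat 0, .ofNat 0, c14x⟩, ⟨.negSucc 0, .ofNat 0, c325x⟩, ⟨.ofNat 0, .ofNat 1, c795x⟩⟩, [565, 566, 567]⟩,
  ⟨⟨⟨c294x, c271x, c295x, c794x⟩, ⟨.ofNat 0, .negSucc 0, c794x⟩, ⟨.negSucc 0, .ofNat 0, c325x⟩, ⟨.ofNat 0, .ofNat 0, c14x⟩⟩, [568]⟩,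
  ⟨⟨⟨c294x, c271x, c794x, c309x⟩, ⟨.ofNat 0, .ofNat 0, c14x⟩, ⟨.negSucc 0, .ofNat 0, c325x⟩, ⟨.ofNat 0, .ofNat 1, c795x⟩⟩, [562, 563, 564, 565, 566]⟩,
  ⟨⟨⟨c271x, c273x, c295x, c794x⟩, ⟨.ofNat 0, .negSucc 0, c794x⟩, ⟨.negSucc 0, .ofNat 0, c325x⟩, ⟨.ofNat 0, .ofNat 0, c14x⟩⟩, [568, 569]⟩,
  ⟨⟨⟨c273x, c289x, c295x, c794x⟩, ⟨.ofNat 0, .negSucc 0, c794x⟩, ⟨.negSucc 0, .ofNat 0, c325x⟩, ⟨.ofNat 0, .ofNat 0, c14x⟩⟩, [568, 569]⟩,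
  ⟨⟨⟨c271x, c273x, c794x, c291x⟩, ⟨.ofNat 0, .ofNat 0, c14x⟩, ⟨.negSucc 0, .ofNat 0, c325x⟩, ⟨.ofNat 0, .ofNat 1, c795x⟩⟩, [562, 563]⟩,
  ⟨⟨⟨c289x, c275x, c295x, c794x⟩, ⟨.ofNat 0, .negSucc 0, c794x⟩, ⟨.negSucc 0, .ofNat 0, c325x⟩, ⟨.ofNat 0, .ofNat 0, c14x⟩⟩, [557, 558]⟩,
  ⟨⟨⟨c289x, c275x, c794x, c290x⟩, ⟨.ofNat 0, .ofNat 0, c14x⟩, ⟨.negSucc 0, .ofNat 0, c325x⟩, ⟨.ofNat 0, .ofNat 1, c795x⟩⟩, [560, 561]⟩,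
  ⟨⟨⟨c273x, c289x, c794x, c291x⟩, ⟨.ofNat 0, .ofNat 0, c14x⟩, ⟨.negSucc 0, .ofNat 0, c325x⟩, ⟨.ofNat 0, .ofNat 1, c795x⟩⟩, [560, 561, 562]⟩,
  ⟨⟨⟨c275x, c308x, c295x, c794x⟩, ⟨.ofNat 0, .negSucc 0, c794x⟩, ⟨.negSucc 0, .ofNat 0, c325x⟩, ⟨.ofNat 0, .ofNat 0, c14x⟩⟩, [557, 558, 559]⟩,
  ⟨⟨⟨c275x, c308x, c794x, c290x⟩, ⟨.ofNat 0, .ofNat 0, c14x⟩, ⟨.negSucc 0, .ofNat 0, c325x⟩, ⟨.ofNat 0, .ofNat 1, c795x⟩⟩, [559, 560]⟩,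
  ⟨⟨⟨c276x, c282x, c295x, c281x⟩, ⟨.ofNat 0, .negSucc 0, c794x⟩, ⟨.negSucc 0, .ofNat 0, c325x⟩, ⟨.ofNat 0, .ofNat 0, c14x⟩⟩, [553, 554, 555]⟩,
  ⟨⟨⟨c283x, c285x, c295x, c286x⟩, ⟨.ofNat 0, .negSucc 0, c794x⟩, ⟨.negSucc 0, .ofNat 0, c325x⟩, ⟨.ofNat 0, .ofNat 0, c14x⟩⟩, [548, 549, 550, 551]⟩,
  ⟨⟨⟨c285x, c287x, c295x, c279x⟩, ⟨.ofNat 0, .negSucc 0, c794x⟩, ⟨.negSucc 0, .ofNat 0, c325x⟩, ⟨.ofNat 0, .ofNat 0, c14x⟩⟩, [547, 548, 549]⟩,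
  ⟨⟨⟨c287x, c297x, c295x, c794x⟩, ⟨.ofNat 0, .negSucc 0, c794x⟩, ⟨.negSucc 0, .ofNat 0, c325x⟩, ⟨.ofNat 0, .ofNat 0, c14x⟩⟩, [273, 274, 547, 548]⟩,
  ⟨⟨⟨c310x, c312x, c281x, c794x⟩, ⟨.ofNat 0, .negSucc 0, c794x⟩, ⟨.negSucc 0, .ofNat 0, c325x⟩, ⟨.ofNat 0, .ofNat 0, c14x⟩⟩, [274, 275, 276, 277]⟩,
  ⟨⟨⟨c300x, c301x, c295x, c286x⟩, ⟨.ofNat 0, .negSucc 0, c794x⟩, ⟨.negSucc 0, .ofNat 0, c325x⟩, ⟨.ofNat 0, .ofNat 0, c14x⟩⟩, [279, 280, 281]⟩,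
  ⟨⟨⟨c301x, c302x, c295x, c794x⟩, ⟨.ofNat 0, .negSucc 0, c794x⟩, ⟨.negSucc 0, .ofNat 0, c325x⟩, ⟨.ofNat 0, .ofNat 0, c14x⟩⟩, [279, 280, 288, 289]⟩,
  ⟨⟨⟨c306x, c313x, c295x, c794x⟩, ⟨.ofNat 0, .negSucc 0, c794x⟩, ⟨.negSucc 0, .ofNat 0, c325x⟩, ⟨.ofNat 0, .ofNat 0, c14x⟩⟩, [297, 298, 301, 302]⟩,
  ⟨⟨⟨c313x, c314x, c281x, c794x⟩, ⟨.ofNat 0, .negSucc 0, c794x⟩, ⟨.negSucc 0, .ofNat 0, c325x⟩, ⟨.ofNat 0, .ofNat 0, c14x⟩⟩, [301, 302, 303]⟩,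
  ⟨⟨⟨c314x, c315x, c284x, c295x⟩, ⟨.ofNat 0, .ofNat 0, c468x⟩, ⟨.negSucc 0, .ofNat 0, c325x⟩, ⟨.ofNat 0, .negSucc 0, c295x⟩⟩, [303, 304, 305]⟩,
  ⟨⟨⟨c314x, c315x, c295x, c794x⟩, ⟨.ofNat 0, .negSucc 0, c794x⟩, ⟨.negSucc 0, .ofNat 0, c325x⟩, ⟨.ofNat 0, .ofNat 0, c14x⟩⟩, [302, 303, 305, 306]⟩,
  ⟨⟨⟨c297x, c310x, c279x, c794x⟩, ⟨.ofNat 0, .negSucc 0, c794x⟩, ⟨.negSucc 0, .ofNat 0, c325x⟩, ⟨.ofNat 0, .ofNat 0, c14x⟩⟩, [273, 274, 275]⟩,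
  ⟨⟨⟨c316x, c317x, c279x, c794x⟩, ⟨.ofNat 0, .negSucc 0, c794x⟩, ⟨.negSucc 0, .ofNat 0, c325x⟩, ⟨.ofNat 0, .ofNat 0, c14x⟩⟩, [306, 307, 308, 309]⟩,
  ⟨⟨⟨c315x, c316x, c286x, c794x⟩, ⟨.ofNat 0, .negSucc 0, c794x⟩, ⟨.negSucc 0, .ofNat 0, c325x⟩, ⟨.ofNat 0, .ofNat 0, c14x⟩⟩, [305, 306, 307]⟩,
  ⟨⟨⟨c287x, c297x, c794x, c298x⟩, ⟨.ofNat 0, .ofNat 0, c14x⟩, ⟨.negSucc 0, .ofNat 0, c325x⟩, ⟨.ofNat 0, .ofNat 1, c795x⟩⟩, [545, 546, 547]⟩,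
  ⟨⟨⟨c297x, c310x, c794x, c311x⟩, ⟨.ofNat 0, .ofNat 0, c14x⟩, ⟨.negSucc 0, .ofNat 0, c325x⟩, ⟨.ofNat 0, .ofNat 1, c795x⟩⟩, [544, 545, 546]⟩,
  ⟨⟨⟨c310x, c312x, c794x, c311x⟩, ⟨.ofNat 0, .ofNat 0, c14x⟩, ⟨.negSucc 0, .ofNat 0, c325x⟩, ⟨.ofNat 0, .ofNat 1, c795x⟩⟩, [277, 278, 544]⟩,
  ⟨⟨⟨c301x, c302x, c794x, c311x⟩, ⟨.ofNat 0, .ofNat 0, c14x⟩, ⟨.negSucc 0, .ofNat 0, c325x⟩, ⟨.ofNat 0, .ofNat 1, c795x⟩⟩, [278, 279, 289, 290, 544]⟩,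
  ⟨⟨⟨c306x, c313x, c794x, c311x⟩, ⟨.ofNat 0, .ofNat 0, c14x⟩, ⟨.negSucc 0, .ofNat 0, c325x⟩, ⟨.ofNat 0, .ofNat 1, c795x⟩⟩, [296, 297, 544]⟩,
  ⟨⟨⟨c313x, c314x, c794x, c311x⟩, ⟨.ofNat 0, .ofNat 0, c14x⟩, ⟨.negSucc 0, .ofNat 0, c325x⟩, ⟨.ofNat 0, .ofNat 1, c795x⟩⟩, [544]⟩,
  ⟨⟨⟨c314x, c315x, c794x, c311x⟩, ⟨.ofNat 0, .ofNat 0, c14x⟩, ⟨.negSucc 0, .ofNat 0, c325x⟩, ⟨.ofNat 0, .ofNat 1, c795x⟩⟩, [544]⟩,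
  ⟨⟨⟨c315x, c316x, c794x, c311x⟩, ⟨.ofNat 0, .ofNat 0, c14x⟩, ⟨.negSucc 0, .ofNat 0, c325x⟩, ⟨.ofNat 0, .ofNat 1, c795x⟩⟩, [544]⟩,
  ⟨⟨⟨c312x, c301x, c288x, c311x⟩, ⟨.ofNat 0, .ofNat 0, c14x⟩, ⟨.negSucc 0, .ofNat 0, c325x⟩, ⟨.ofNat 0, .ofNat 1, c795x⟩⟩, [277, 278, 279, 544]⟩,
  ⟨⟨⟨c302x, c318x, c296x, c311x⟩, ⟨.ofNat 0, .ofNat 0, c14x⟩, ⟨.negSucc 0, .ofNat 0, c325x⟩, ⟨.ofNat 0, .ofNat 1, c795x⟩⟩, [289, 290, 291, 292, 544]⟩,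
  ⟨⟨⟨c303x, c319x, c291x, c311x⟩, ⟨.ofNat 0, .ofNat 0, c14x⟩, ⟨.negSucc 0, .ofNat 0, c325x⟩, ⟨.ofNat 0, .ofNat 1, c795x⟩⟩, [292, 293, 294, 295, 544]⟩,
  ⟨⟨⟨c319x, c306x, c290x, c311x⟩, ⟨.ofNat 0, .ofNat 0, c14x⟩, ⟨.negSucc 0, .ofNat 0, c325x⟩, ⟨.ofNat 0, .ofNat 1, c795x⟩⟩, [294, 295, 296, 297, 544]⟩,
  ⟨⟨⟨c316x, c317x, c794x, c311x⟩, ⟨.ofNat 0, .ofNat 0, c14x⟩, ⟨.negSucc 0, .ofNat 0, c325x⟩, ⟨.ofNat 0, .ofNat 1, c795x⟩⟩, [309, 310, 543, 544]⟩,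
  ⟨⟨⟨c318x, c303x, c309x, c311x⟩, ⟨.ofNat 0, .ofNat 0, c14x⟩, ⟨.negSucc 0, .ofNat 0, c325x⟩, ⟨.ofNat 0, .ofNat 1, c795x⟩⟩, [291, 292, 293, 544]⟩,
  ⟨⟨⟨c327x, c328x, c298x, c329x⟩, ⟨.ofNat 0, .ofNat 0, c468x⟩, ⟨.ofNat 1, .ofNat 0, c502x⟩, ⟨.ofNat 0, .ofNat 1, c795x⟩⟩, [310, 519, 520, 521]⟩,
  ⟨⟨⟨c320x, c321x, c298x, c322x⟩, ⟨.ofNat 0, .ofNat 0, c14x⟩, ⟨.negSucc 0, .ofNat 0, c325x⟩, ⟨.ofNat 0, .ofNat 1, c795x⟩⟩, [310, 537, 538, 539]⟩,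
  ⟨⟨⟨c323x, c325x, c298x, c326x⟩, ⟨.ofNat 0, .ofNat 0, c14x⟩, ⟨.negSucc 0, .ofNat 0, c325x⟩, ⟨.ofNat 0, .ofNat 1, c795x⟩⟩, [310, 533, 534, 535]⟩,
  ⟨⟨⟨c328x, c330x, c298x, c331x⟩, ⟨.ofNat 0, .ofNat 0, c468x⟩, ⟨.ofNat 1, .ofNat 0, c502x⟩, ⟨.ofNat 0, .ofNat 1, c795x⟩⟩, [310, 517, 518, 519, 520]⟩,
  ⟨⟨⟨c317x, c334x, c298x, c345x⟩, ⟨.ofNat 0, .ofNat 0, c14x⟩, ⟨.negSucc 0, .ofNat 0, c325x⟩, ⟨.ofNat 0, .ofNat 1, c795x⟩⟩, [309, 310, 543, 544]⟩,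
  ⟨⟨⟨c334x, c320x, c298x, c345x⟩, ⟨.ofNat 0, .ofNat 0, c14x⟩, ⟨.negSucc 0, .ofNat 0, c325x⟩, ⟨.ofNat 0, .ofNat 1, c795x⟩⟩, [310, 538, 539]⟩,
  ⟨⟨⟨c321x, c323x, c298x, c345x⟩, ⟨.ofNat 0, .ofNat 0, c14x⟩, ⟨.negSucc 0, .ofNat 0, c325x⟩, ⟨.ofNat 0, .ofNat 1, c795x⟩⟩, [310, 534, 535, 537, 538]⟩,
  ⟨⟨⟨c325x, c337x, c298x, c345x⟩, ⟨.ofNat 1, .ofNat 0, c503x⟩, ⟨.ofNat 0, .ofNat 0, c14x⟩, ⟨.ofNat 0, .ofNat 1, c795x⟩⟩, [310, 532, 533, 534]⟩,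
  ⟨⟨⟨c337x, c327x, c298x, c345x⟩, ⟨.ofNat 1, .ofNat 0, c503x⟩, ⟨.ofNat 0, .ofNat 0, c14x⟩, ⟨.ofNat 0, .ofNat 1, c795x⟩⟩, [310, 520, 521, 522]⟩,
  ⟨⟨⟨c330x, c332x, c298x, c345x⟩, ⟨.ofNat 0, .ofNat 0, c468x⟩, ⟨.ofNat 1, .ofNat 0, c502x⟩, ⟨.ofNat 0, .ofNat 1, c795x⟩⟩, [310, 516, 517, 518]⟩,
  ⟨⟨⟨c332x, c333x, c298x, c345x⟩, ⟨.ofNat 0, .ofNat 0, c468x⟩, ⟨.ofNat 1, .ofNat 0, c502x⟩, ⟨.ofNat 0, .ofNat 1, c795x⟩⟩, [310]⟩,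
  ⟨⟨⟨c333x, c342x, c298x, c345x⟩, ⟨.ofNat 0, .ofNat 0, c468x⟩, ⟨.ofNat 1, .ofNat 0, c502x⟩, ⟨.ofNat 0, .ofNat 1, c795x⟩⟩, [310, 311, 312]⟩,
  ⟨⟨⟨c342x, c358x, c311x, c345x⟩, ⟨.ofNat 0, .ofNat 0, c468x⟩, ⟨.ofNat 1, .ofNat 0, c502x⟩, ⟨.ofNat 0, .ofNat 1, c795x⟩⟩, [311, 312, 313]⟩,
  ⟨⟨⟨c343x, c344x, c329x, c345x⟩, ⟨.ofNat 0, .ofNat 0, c468x⟩, ⟨.ofNat 1, .ofNat 0, c502x⟩, ⟨.ofNat 0, .ofNat 1, c795x⟩⟩, [334, 335, 336, 337, 338]⟩,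
  ⟨⟨⟨c346x, c347x, c331x, c326x⟩, ⟨.ofNat 0, .ofNat 0, c468x⟩, ⟨.ofNat 1, .ofNat 0, c502x⟩, ⟨.ofNat 0, .ofNat 1, c795x⟩⟩, [338, 339, 340, 341]⟩,
  ⟨⟨⟨c317x, c334x, c345x, c335x⟩, ⟨.ofNat 0, .ofNat 1, c857x⟩, ⟨.negSucc 0, .ofNat 0, c325x⟩, ⟨.ofNat 0, .ofNat 0, c537x⟩⟩, [541, 542, 543]⟩,
  ⟨⟨⟨c334x, c320x, c345x, c336x⟩, ⟨.ofNat 0, .ofNat 1, c857x⟩, ⟨.negSucc 0, .ofNat 0, c325x⟩, ⟨.ofNat 0, .ofNat 0, c537x⟩⟩, [539, 540, 541, 542]⟩,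
  ⟨⟨⟨c321x, c323x, c345x, c324x⟩, ⟨.ofNat 0, .ofNat 1, c857x⟩, ⟨.negSucc 0, .ofNat 0, c325x⟩, ⟨.ofNat 0, .ofNat 0, c537x⟩⟩, [535, 536, 537]⟩,
  ⟨⟨⟨c341x, c330x, c326x, c345x⟩, ⟨.ofNat 0, .ofNat 0, c468x⟩, ⟨.ofNat 1, .ofNat 0, c502x⟩, ⟨.ofNat 0, .ofNat 1, c795x⟩⟩, [515, 516, 517]⟩,
  ⟨⟨⟨c341x, c330x, c345x, c858x⟩, ⟨.ofNat 0, .negSucc 0, c858x⟩, ⟨.ofNat 1, .ofNat 0, c502x⟩, ⟨.ofNat 0, .ofNat 0, c537x⟩⟩, [514, 515]⟩,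
  ⟨⟨⟨c330x, c332x, c345x, c858x⟩, ⟨.ofNat 0, .negSucc 0, c858x⟩, ⟨.ofNat 1, .ofNat 0, c502x⟩, ⟨.ofNat 0, .ofNat 0, c537x⟩⟩, [510, 511]⟩,
  ⟨⟨⟨c332x, c333x, c345x, c324x⟩, ⟨.ofNat 0, .negSucc 0, c858x⟩, ⟨.ofNat 1, .ofNat 0, c502x⟩, ⟨.ofNat 0, .ofNat 0, c537x⟩⟩, [509, 510, 511]⟩,
  ⟨⟨⟨c333x, c342x, c345x, c335x⟩, ⟨.ofNat 0, .negSucc 0, c858x⟩, ⟨.ofNat 1, .ofNat 0, c502x⟩, ⟨.ofNat 0, .ofNat 0, c537x⟩⟩, [507, 508, 509, 510]⟩,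
  ⟨⟨⟨c342x, c358x, c345x, c858x⟩, ⟨.ofNat 0, .negSucc 0, c858x⟩, ⟨.ofNat 1, .ofNat 0, c502x⟩, ⟨.ofNat 0, .ofNat 0, c537x⟩⟩, [313, 314, 507, 508]⟩,
  ⟨⟨⟨c362x, c363x, c322x, c345x⟩, ⟨.ofNat 0, .ofNat 0, c468x⟩, ⟨.ofNat 1, .ofNat 0, c502x⟩, ⟨.ofNat 0, .ofNat 1, c795x⟩⟩, [317, 318, 319]⟩,
  ⟨⟨⟨c362x, c363x, c345x, c858x⟩, ⟨.ofNat 0, .negSucc 0, c858x⟩, ⟨.ofNat 1, .ofNat 0, c502x⟩, ⟨.ofNat 0, .ofNat 0, c537x⟩⟩, [316, 317, 319, 320]⟩,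
  ⟨⟨⟨c363x, c360x, c324x, c858x⟩, ⟨.ofNat 0, .negSucc 0, c858x⟩, ⟨.ofNat 1, .ofNat 0, c502x⟩, ⟨.ofNat 0, .ofNat 0, c537x⟩⟩, [319, 320, 321]⟩,
  ⟨⟨⟨c360x, c348x, c326x, c345x⟩, ⟨.ofNat 0, .ofNat 0, c468x⟩, ⟨.ofNat 1, .ofNat 0, c502x⟩, ⟨.ofNat 0, .ofNat 1, c795x⟩⟩, [321, 322, 324, 325]⟩,
  ⟨⟨⟨c348x, c349x, c326x, c345x⟩, ⟨.ofNat 0, .ofNat 0, c468x⟩, ⟨.ofNat 1, .ofNat 0, c502x⟩, ⟨.ofNat 0, .ofNat 1, c795x⟩⟩, [322, 323, 324, 325]⟩,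
  ⟨⟨⟨c360x, c348x, c345x, c858x⟩, ⟨.ofNat 0, .negSucc 0, c858x⟩, ⟨.ofNat 1, .ofNat 0, c502x⟩, ⟨.ofNat 0, .ofNat 0, c537x⟩⟩, [320, 321, 324, 325]⟩,
  ⟨⟨⟨c344x, c350x, c331x, c345x⟩, ⟨.ofNat 0, .ofNat 0, c468x⟩, ⟨.ofNat 1, .ofNat 0, c502x⟩, ⟨.ofNat 0, .ofNat 1, c795x⟩⟩, [333, 334, 337, 338]⟩,
  ⟨⟨⟨c350x, c351x, c331x, c345x⟩, ⟨.ofNat 0, .ofNat 0, c468x⟩, ⟨.ofNat 1, .ofNat 0, c502x⟩, ⟨.ofNat 0, .ofNat 1, c795x⟩⟩, [333, 334, 338]⟩,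
  ⟨⟨⟨c350x, c351x, c345x, c858x⟩, ⟨.ofNat 0, .negSucc 0, c858x⟩, ⟨.ofNat 1, .ofNat 0, c502x⟩, ⟨.ofNat 0, .ofNat 0, c537x⟩⟩, [333, 334, 342, 343]⟩,
  ⟨⟨⟨c351x, c346x, c331x, c345x⟩, ⟨.ofNat 0, .ofNat 0, c468x⟩, ⟨.ofNat 1, .ofNat 0, c502x⟩, ⟨.ofNat 0, .ofNat 1, c795x⟩⟩, [338, 340, 341]⟩,
  ⟨⟨⟨c351x, c346x, c345x, c336x⟩, ⟨.ofNat 0, .negSucc 0, c858x⟩, ⟨.ofNat 1, .ofNat 0, c502x⟩, ⟨.ofNat 0, .ofNat 0, c537x⟩⟩, [341, 342, 343]⟩,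
  ⟨⟨⟨c364x, c365x, c324x, c858x⟩, ⟨.ofNat 0, .negSucc 0, c858x⟩, ⟨.ofNat 1, .ofNat 0, c502x⟩, ⟨.ofNat 0, .ofNat 0, c537x⟩⟩, [345, 346, 347, 348]⟩,
  ⟨⟨⟨c352x, c325x, c345x, c338x⟩, ⟨.ofNat 0, .ofNat 0, c14x⟩, ⟨.ofNat 0, .ofNat 1, c857x⟩, ⟨.ofNat 1, .ofNat 0, c859x⟩⟩, [530, 531, 532, 533]⟩,
  ⟨⟨⟨c325x, c337x, c345x, c338x⟩, ⟨.ofNat 1, .ofNat 0, c503x⟩, ⟨.ofNat 0, .ofNat 1, c857x⟩, ⟨.ofNat 0, .ofNat 0, c537x⟩⟩, [529, 530, 532, 533]⟩,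
  ⟨⟨⟨c337x, c327x, c345x, c340x⟩, ⟨.ofNat 1, .ofNat 0, c503x⟩, ⟨.ofNat 0, .ofNat 1, c857x⟩, ⟨.ofNat 0, .ofNat 0, c537x⟩⟩, [521, 522, 528, 529, 530]⟩,
  ⟨⟨⟨c327x, c328x, c345x, c340x⟩, ⟨.ofNat 0, .ofNat 0, c468x⟩, ⟨.ofNat 0, .ofNat 1, c857x⟩, ⟨.negSucc 0, .ofNat 0, c860x⟩⟩, [521, 522, 527, 528]⟩,
  ⟨⟨⟨c328x, c353x, c345x, c354x⟩, ⟨.ofNat 0, .ofNat 0, c468x⟩, ⟨.ofNat 0, .ofNat 1, c857x⟩, ⟨.negSucc 0, .ofNat 0, c860x⟩⟩, [522, 524, 525, 526, 527, 528]⟩,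
  ⟨⟨⟨c353x, c355x, c345x, c356x⟩, ⟨.ofNat 0, .ofNat 0, c468x⟩, ⟨.ofNat 0, .ofNat 1, c857x⟩, ⟨.negSucc 0, .ofNat 0, c860x⟩⟩, [522, 523, 524, 525]⟩,
  ⟨⟨⟨c357x, c341x, c336x, c858x⟩, ⟨.ofNat 0, .negSucc 0, c858x⟩, ⟨.ofNat 1, .ofNat 0, c502x⟩, ⟨.ofNat 0, .ofNat 0, c537x⟩⟩, [513, 514, 515]⟩,
  ⟨⟨⟨c357x, c341x, c858x, c339x⟩, ⟨.ofNat 0, .ofNat 0, c14x⟩, ⟨.ofNat 1, .ofNat 0, c502x⟩, ⟨.ofNat 0, .negSucc 0, c576x⟩⟩, [512, 513]⟩,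
  ⟨⟨⟨c341x, c330x, c858x, c339x⟩, ⟨.ofNat 0, .ofNat 0, c14x⟩, ⟨.ofNat 1, .ofNat 0, c502x⟩, ⟨.ofNat 0, .negSucc 0, c576x⟩⟩, [512]⟩,
  ⟨⟨⟨c330x, c332x, c858x, c339x⟩, ⟨.ofNat 0, .ofNat 0, c14x⟩, ⟨.ofNat 1, .ofNat 0, c502x⟩, ⟨.ofNat 0, .negSucc 0, c576x⟩⟩, [511, 512]⟩,
  ⟨⟨⟨c358x, c366x, c335x, c858x⟩, ⟨.ofNat 0, .negSucc 0, c858x⟩, ⟨.ofNat 1, .ofNat 0, c502x⟩, ⟨.ofNat 0, .ofNat 0, c537x⟩⟩, [313, 314, 315, 316]⟩,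
  ⟨⟨⟨c365x, c369x, c335x, c858x⟩, ⟨.ofNat 0, .negSucc 0, c858x⟩, ⟨.ofNat 1, .ofNat 0, c502x⟩, ⟨.ofNat 0, .ofNat 0, c537x⟩⟩, [347, 348, 349]⟩,
  ⟨⟨⟨c366x, c362x, c336x, c858x⟩, ⟨.ofNat 0, .negSucc 0, c858x⟩, ⟨.ofNat 1, .ofNat 0, c502x⟩, ⟨.ofNat 0, .ofNat 0, c537x⟩⟩, [315, 316, 317]⟩,
  ⟨⟨⟨c342x, c358x, c858x, c359x⟩, ⟨.ofNat 0, .ofNat 0, c14x⟩, ⟨.ofNat 1, .ofNat 0, c502x⟩, ⟨.ofNat 0, .negSucc 0, c576x⟩⟩, [505, 506, 507]⟩,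
  ⟨⟨⟨c358x, c366x, c858x, c361x⟩, ⟨.ofNat 0, .ofNat 0, c14x⟩, ⟨.ofNat 1, .ofNat 0, c502x⟩, ⟨.ofNat 0, .negSucc 0, c576x⟩⟩, [504, 505, 506]⟩,
  ⟨⟨⟨c366x, c362x, c858x, c361x⟩, ⟨.ofNat 0, .ofNat 0, c14x⟩, ⟨.ofNat 1, .ofNat 0, c502x⟩, ⟨.ofNat 0, .negSucc 0, c576x⟩⟩, [504]⟩,
  ⟨⟨⟨c362x, c363x, c858x, c361x⟩, ⟨.ofNat 0, .ofNat 0, c14x⟩, ⟨.ofNat 1, .ofNat 0, c502x⟩, ⟨.ofNat 0, .negSucc 0, c576x⟩⟩, [504]⟩,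
  ⟨⟨⟨c363x, c360x, c858x, c361x⟩, ⟨.ofNat 0, .ofNat 0, c14x⟩, ⟨.ofNat 1, .ofNat 0, c502x⟩, ⟨.ofNat 0, .negSucc 0, c576x⟩⟩, [504]⟩,
  ⟨⟨⟨c360x, c348x, c858x, c361x⟩, ⟨.ofNat 0, .ofNat 0, c14x⟩, ⟨.ofNat 1, .ofNat 0, c502x⟩, ⟨.ofNat 0, .negSucc 0, c576x⟩⟩, [325, 326, 504]⟩,
  ⟨⟨⟨c350x, c351x, c858x, c361x⟩, ⟨.ofNat 0, .ofNat 0, c14x⟩, ⟨.ofNat 1, .ofNat 0, c502x⟩, ⟨.ofNat 0, .negSucc 0, c576x⟩⟩, [332, 333, 343, 344, 504]⟩,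
  ⟨⟨⟨c364x, c365x, c858x, c361x⟩, ⟨.ofNat 0, .ofNat 0, c14x⟩, ⟨.ofNat 1, .ofNat 0, c502x⟩, ⟨.ofNat 0, .negSucc 0, c576x⟩⟩, [344, 345, 504]⟩,
  ⟨⟨⟨c348x, c367x, c338x, c361x⟩, ⟨.ofNat 0, .ofNat 0, c14x⟩, ⟨.ofNat 1, .ofNat 0, c502x⟩, ⟨.ofNat 0, .negSucc 0, c576x⟩⟩, [325, 326, 327, 328, 504]⟩,
  ⟨⟨⟨c367x, c344x, c340x, c361x⟩, ⟨.ofNat 0, .ofNat 0, c14x⟩, ⟨.ofNat 1, .ofNat 0, c502x⟩, ⟨.ofNat 0, .negSucc 0, c576x⟩⟩, [327, 328, 329, 330, 504]⟩,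
  ⟨⟨⟨c368x, c350x, c356x, c361x⟩, ⟨.ofNat 0, .ofNat 0, c14x⟩, ⟨.ofNat 1, .ofNat 0, c502x⟩, ⟨.ofNat 0, .negSucc 0, c576x⟩⟩, [330, 331, 332, 333, 504]⟩,
  ⟨⟨⟨c351x, c364x, c339x, c361x⟩, ⟨.ofNat 0, .ofNat 0, c14x⟩, ⟨.ofNat 1, .ofNat 0, c502x⟩, ⟨.ofNat 0, .negSucc 0, c576x⟩⟩, [343, 344, 345, 504]⟩,
  ⟨⟨⟨c365x, c369x, c858x, c361x⟩, ⟨.ofNat 0, .ofNat 0, c14x⟩, ⟨.ofNat 1, .ofNat 0, c502x⟩, ⟨.ofNat 0, .negSucc 0, c576x⟩⟩, [349, 350, 503, 504]⟩,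
  ⟨⟨⟨c344x, c368x, c354x, c361x⟩, ⟨.ofNat 0, .ofNat 0, c14x⟩, ⟨.ofNat 1, .ofNat 0, c502x⟩, ⟨.ofNat 0, .negSucc 0, c576x⟩⟩, [329, 330, 331, 504]⟩,
  ⟨⟨⟨c370x, c371x, c359x, c372x⟩, ⟨.ofNat 0, .ofNat 0, c14x⟩, ⟨.ofNat 1, .ofNat 0, c502x⟩, ⟨.ofNat 0, .negSucc 0, c576x⟩⟩, [350, 485, 486, 487]⟩,
  ⟨⟨⟨c373x, c374x, c359x, c375x⟩, ⟨.ofNat 0, .ofNat 0, c14x⟩, ⟨.ofNat 1, .ofNat 0, c502x⟩, ⟨.ofNat 0, .negSucc 0, c576x⟩⟩, [350, 488, 489, 490, 491]⟩,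
  ⟨⟨⟨c374x, c370x, c359x, c376x⟩, ⟨.ofNat 0, .ofNat 0, c14x⟩, ⟨.ofNat 1, .ofNat 0, c502x⟩, ⟨.ofNat 0, .negSucc 0, c576x⟩⟩, [350, 486, 487, 488, 489]⟩,
  ⟨⟨⟨c377x, c378x, c359x, c379x⟩, ⟨.ofNat 0, .ofNat 0, c14x⟩, ⟨.ofNat 1, .ofNat 0, c502x⟩, ⟨.ofNat 0, .negSucc 0, c576x⟩⟩, [350, 471, 472, 473]⟩,
  ⟨⟨⟨c369x, c380x, c359x, c576x⟩, ⟨.ofNat 0, .ofNat 0, c14x⟩, ⟨.ofNat 1, .ofNat 0, c502x⟩, ⟨.ofNat 0, .negSucc 0, c576x⟩⟩, [349, 350, 503, 504]⟩,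
  ⟨⟨⟨c380x, c382x, c359x, c576x⟩, ⟨.ofNat 0, .ofNat 0, c14x⟩, ⟨.ofNat 1, .ofNat 0, c502x⟩, ⟨.ofNat 0, .negSucc 0, c576x⟩⟩, [350]⟩,
  ⟨⟨⟨c382x, c384x, c359x, c576x⟩, ⟨.ofNat 0, .ofNat 0, c14x⟩, ⟨.ofNat 1, .ofNat 0, c502x⟩, ⟨.ofNat 0, .negSucc 0, c576x⟩⟩, [350]⟩,
  ⟨⟨⟨c384x, c386x, c359x, c576x⟩, ⟨.ofNat 0, .ofNat 0, c14x⟩, ⟨.ofNat 1, .ofNat 0, c502x⟩, ⟨.ofNat 0, .negSucc 0, c576x⟩⟩, [350]⟩,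
  ⟨⟨⟨c386x, c373x, c359x, c576x⟩, ⟨.ofNat 0, .ofNat 0, c14x⟩, ⟨.ofNat 1, .ofNat 0, c502x⟩, ⟨.ofNat 0, .negSucc 0, c576x⟩⟩, [350, 490, 491]⟩,
  ⟨⟨⟨c371x, c389x, c359x, c390x⟩, ⟨.ofNat 0, .ofNat 0, c14x⟩, ⟨.ofNat 1, .ofNat 0, c502x⟩, ⟨.ofNat 0, .negSucc 0, c576x⟩⟩, [350, 483, 484, 485, 486]⟩,
  ⟨⟨⟨c389x, c377x, c359x, c576x⟩, ⟨.ofNat 0, .ofNat 0, c14x⟩, ⟨.ofNat 1, .ofNat 0, c502x⟩, ⟨.ofNat 0, .negSucc 0, c576x⟩⟩, [350, 472, 473, 483, 484]⟩,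
  ⟨⟨⟨c378x, c391x, c359x, c576x⟩, ⟨.ofNat 0, .ofNat 0, c14x⟩, ⟨.ofNat 1, .ofNat 0, c502x⟩, ⟨.ofNat 0, .negSucc 0, c576x⟩⟩, [350, 471, 472]⟩,
  ⟨⟨⟨c391x, c392x, c359x, c576x⟩, ⟨.ofNat 0, .ofNat 0, c14x⟩, ⟨.ofNat 1, .ofNat 0, c502x⟩, ⟨.ofNat 0, .negSucc 0, c576x⟩⟩, [350, 351, 352]⟩,
  ⟨⟨⟨c392x, c403x, c361x, c576x⟩, ⟨.ofNat 0, .ofNat 0, c14x⟩, ⟨.ofNat 1, .ofNat 0, c502x⟩, ⟨.ofNat 0, .negSucc 0, c576x⟩⟩, [351, 352, 353]⟩,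
  ⟨⟨⟨c395x, c397x, c372x, c576x⟩, ⟨.ofNat 0, .ofNat 0, c14x⟩, ⟨.ofNat 1, .ofNat 0, c502x⟩, ⟨.ofNat 0, .negSucc 0, c576x⟩⟩, [368, 369, 370, 371, 372]⟩,
  ⟨⟨⟨c369x, c380x, c576x, c381x⟩, ⟨.ofNat 0, .ofNat 1, c861x⟩, ⟨.ofNat 1, .ofNat 0, c502x⟩, ⟨.ofNat 0, .ofNat 0, c14x⟩⟩, [500, 501, 502, 503]⟩,
  ⟨⟨⟨c380x, c382x, c576x, c383x⟩, ⟨.ofNat 0, .ofNat 1, c861x⟩, ⟨.ofNat 1, .ofNat 0, c502x⟩, ⟨.ofNat 0, .ofNat 0, c14x⟩⟩, [499, 500, 501]⟩,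
  ⟨⟨⟨c382x, c384x, c576x, c396x⟩, ⟨.ofNat 0, .ofNat 1, c861x⟩, ⟨.ofNat 1, .ofNat 0, c502x⟩, ⟨.ofNat 0, .ofNat 0, c14x⟩⟩, [496, 497, 499, 500]⟩,
  ⟨⟨⟨c382x, c384x, c396x, c385x⟩, ⟨.ofNat 0, .ofNat 0, c468x⟩, ⟨.ofNat 1, .ofNat 0, c502x⟩, ⟨.ofNat 0, .ofNat 1, c862x⟩⟩, [497, 498, 499]⟩,
  ⟨⟨⟨c384x, c386x, c576x, c387x⟩, ⟨.ofNat 0, .ofNat 1, c861x⟩, ⟨.ofNat 1, .ofNat 0, c502x⟩, ⟨.ofNat 0, .ofNat 0, c14x⟩⟩, [495, 496, 497]⟩,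
  ⟨⟨⟨c386x, c373x, c576x, c396x⟩, ⟨.ofNat 0, .ofNat 1, c861x⟩, ⟨.ofNat 1, .ofNat 0, c502x⟩, ⟨.ofNat 0, .ofNat 0, c14x⟩⟩, [491, 492, 495, 496]⟩,
  ⟨⟨⟨c386x, c373x, c396x, c388x⟩, ⟨.ofNat 0, .ofNat 0, c468x⟩, ⟨.ofNat 1, .ofNat 0, c502x⟩, ⟨.ofNat 0, .ofNat 1, c862x⟩⟩, [491, 492, 494, 495]⟩,
  ⟨⟨⟨c373x, c398x, c396x, c388x⟩, ⟨.ofNat 0, .ofNat 0, c468x⟩, ⟨.ofNat 1, .ofNat 0, c502x⟩, ⟨.ofNat 0, .ofNat 1, c862x⟩⟩, [491, 492, 493, 494]⟩,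
  ⟨⟨⟨c399x, c370x, c396x, c400x⟩, ⟨.ofNat 0, .ofNat 0, c468x⟩, ⟨.ofNat 1, .ofNat 0, c502x⟩, ⟨.ofNat 0, .ofNat 1, c862x⟩⟩, [478, 479, 480, 481, 482]⟩,
  ⟨⟨⟨c370x, c389x, c396x, c393x⟩, ⟨.ofNat 0, .ofNat 0, c468x⟩, ⟨.ofNat 1, .ofNat 0, c502x⟩, ⟨.ofNat 0, .ofNat 1, c862x⟩⟩, [478, 479, 482, 483]⟩,
  ⟨⟨⟨c389x, c377x, c576x, c396x⟩, ⟨.ofNat 0, .ofNat 1, c861x⟩, ⟨.ofNat 1, .ofNat 0, c502x⟩, ⟨.ofNat 0, .ofNat 0, c14x⟩⟩, [473, 474, 482, 483]⟩,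
  ⟨⟨⟨c377x, c401x, c383x, c396x⟩, ⟨.ofNat 0, .ofNat 1, c861x⟩, ⟨.ofNat 1, .ofNat 0, c502x⟩, ⟨.ofNat 0, .ofNat 0, c14x⟩⟩, [473, 474, 475]⟩,
  ⟨⟨⟨c389x, c377x, c396x, c393x⟩, ⟨.ofNat 0, .ofNat 0, c468x⟩, ⟨.ofNat 1, .ofNat 0, c502x⟩, ⟨.ofNat 0, .ofNat 1, c862x⟩⟩, [478, 482, 483]⟩,
  ⟨⟨⟨c377x, c401x, c396x, c393x⟩, ⟨.ofNat 0, .ofNat 0, c468x⟩, ⟨.ofNat 1, .ofNat 0, c502x⟩, ⟨.ofNat 0, .ofNat 1, c862x⟩⟩, [475, 476, 478]⟩,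
  ⟨⟨⟨c401x, c402x, c388x, c393x⟩, ⟨.ofNat 0, .ofNat 0, c468x⟩, ⟨.ofNat 1, .ofNat 0, c502x⟩, ⟨.ofNat 0, .ofNat 1, c862x⟩⟩, [475, 476, 477, 478]⟩,
  ⟨⟨⟨c378x, c391x, c576x, c387x⟩, ⟨.ofNat 0, .ofNat 1, c861x⟩, ⟨.ofNat 1, .ofNat 0, c502x⟩, ⟨.ofNat 0, .ofNat 0, c14x⟩⟩, [468, 469, 470, 471]⟩,
  ⟨⟨⟨c391x, c392x, c576x, c381x⟩, ⟨.ofNat 0, .ofNat 1, c861x⟩, ⟨.ofNat 1, .ofNat 0, c502x⟩, ⟨.ofNat 0, .ofNat 0, c14x⟩⟩, [467, 468, 469]⟩,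
  ⟨⟨⟨c392x, c403x, c576x, c396x⟩, ⟨.ofNat 0, .ofNat 1, c861x⟩, ⟨.ofNat 1, .ofNat 0, c502x⟩, ⟨.ofNat 0, .ofNat 0, c14x⟩⟩, [353, 354, 467, 468]⟩,
  ⟨⟨⟨c414x, c415x, c383x, c396x⟩, ⟨.ofNat 0, .ofNat 1, c861x⟩, ⟨.ofNat 1, .ofNat 0, c502x⟩, ⟨.ofNat 0, .ofNat 0, c14x⟩⟩, [354, 355, 356, 357]⟩,
  ⟨⟨⟨c403x, c414x, c381x, c396x⟩, ⟨.ofNat 0, .ofNat 1, c861x⟩, ⟨.ofNat 1, .ofNat 0, c502x⟩, ⟨.ofNat 0, .ofNat 0, c14x⟩⟩, [353, 354, 355]⟩,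
  ⟨⟨⟨c392x, c403x, c396x, c404x⟩, ⟨.ofNat 0, .ofNat 0, c468x⟩, ⟨.ofNat 1, .ofNat 0, c502x⟩, ⟨.ofNat 0, .ofNat 1, c862x⟩⟩, [465, 466, 467]⟩,
  ⟨⟨⟨c416x, c417x, c387x, c396x⟩, ⟨.ofNat 0, .ofNat 1, c861x⟩, ⟨.ofNat 1, .ofNat 0, c502x⟩, ⟨.ofNat 0, .ofNat 0, c14x⟩⟩, [359, 360, 361]⟩,
  ⟨⟨⟨c405x, c406x, c375x, c576x⟩, ⟨.ofNat 0, .ofNat 0, c14x⟩, ⟨.ofNat 1, .ofNat 0, c502x⟩, ⟨.ofNat 0, .negSucc 0, c576x⟩⟩, [365, 366]⟩,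
  ⟨⟨⟨c405x, c406x, c576x, c396x⟩, ⟨.ofNat 0, .ofNat 1, c861x⟩, ⟨.ofNat 1, .ofNat 0, c502x⟩, ⟨.ofNat 0, .ofNat 0, c14x⟩⟩, [363, 364, 365]⟩,
  ⟨⟨⟨c406x, c411x, c375x, c576x⟩, ⟨.ofNat 0, .ofNat 0, c14x⟩, ⟨.ofNat 1, .ofNat 0, c502x⟩, ⟨.ofNat 0, .negSucc 0, c576x⟩⟩, [366, 367]⟩,
  ⟨⟨⟨c406x, c411x, c576x, c396x⟩, ⟨.ofNat 0, .ofNat 1, c861x⟩, ⟨.ofNat 1, .ofNat 0, c502x⟩, ⟨.ofNat 0, .ofNat 0, c14x⟩⟩, [363, 364]⟩,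
  ⟨⟨⟨c411x, c394x, c376x, c576x⟩, ⟨.ofNat 0, .ofNat 0, c14x⟩, ⟨.ofNat 1, .ofNat 0, c502x⟩, ⟨.ofNat 0, .negSucc 0, c576x⟩⟩, [366, 367, 368]⟩,
  ⟨⟨⟨c411x, c394x, c576x, c396x⟩, ⟨.ofNat 0, .ofNat 1, c861x⟩, ⟨.ofNat 1, .ofNat 0, c502x⟩, ⟨.ofNat 0, .ofNat 0, c14x⟩⟩, [374, 375]⟩,
  ⟨⟨⟨c394x, c395x, c376x, c576x⟩, ⟨.ofNat 0, .ofNat 0, c14x⟩, ⟨.ofNat 1, .ofNat 0, c502x⟩, ⟨.ofNat 0, .negSucc 0, c576x⟩⟩, [368, 369]⟩,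
  ⟨⟨⟨c394x, c395x, c576x, c396x⟩, ⟨.ofNat 0, .ofNat 1, c861x⟩, ⟨.ofNat 1, .ofNat 0, c502x⟩, ⟨.ofNat 0, .ofNat 0, c14x⟩⟩, [374, 375]⟩,
  ⟨⟨⟨c395x, c397x, c576x, c396x⟩, ⟨.ofNat 0, .ofNat 1, c861x⟩, ⟨.ofNat 1, .ofNat 0, c502x⟩, ⟨.ofNat 0, .ofNat 0, c14x⟩⟩, [374]⟩,
  ⟨⟨⟨c397x, c407x, c390x, c576x⟩, ⟨.ofNat 0, .ofNat 0, c14x⟩, ⟨.ofNat 1, .ofNat 0, c502x⟩, ⟨.ofNat 0, .negSucc 0, c576x⟩⟩, [371, 372, 373]⟩,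
  ⟨⟨⟨c397x, c407x, c576x, c396x⟩, ⟨.ofNat 0, .ofNat 1, c861x⟩, ⟨.ofNat 1, .ofNat 0, c502x⟩, ⟨.ofNat 0, .ofNat 0, c14x⟩⟩, [373, 374]⟩,
  ⟨⟨⟨c408x, c409x, c379x, c576x⟩, ⟨.ofNat 0, .ofNat 0, c14x⟩, ⟨.ofNat 1, .ofNat 0, c502x⟩, ⟨.ofNat 0, .negSucc 0, c576x⟩⟩, [383, 384]⟩,
  ⟨⟨⟨c409x, c410x, c379x, c576x⟩, ⟨.ofNat 0, .ofNat 0, c14x⟩, ⟨.ofNat 1, .ofNat 0, c502x⟩, ⟨.ofNat 0, .negSucc 0, c576x⟩⟩, [384]⟩,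
  ⟨⟨⟨c408x, c409x, c576x, c383x⟩, ⟨.ofNat 0, .ofNat 1, c861x⟩, ⟨.ofNat 1, .ofNat 0, c502x⟩, ⟨.ofNat 0, .ofNat 0, c14x⟩⟩, [381, 382, 383]⟩,
  ⟨⟨⟨c410x, c413x, c379x, c576x⟩, ⟨.ofNat 0, .ofNat 0, c14x⟩, ⟨.ofNat 1, .ofNat 0, c502x⟩, ⟨.ofNat 0, .negSucc 0, c576x⟩⟩, [384, 385]⟩,
  ⟨⟨⟨c409x, c410x, c576x, c396x⟩, ⟨.ofNat 0, .ofNat 1, c861x⟩, ⟨.ofNat 1, .ofNat 0, c502x⟩, ⟨.ofNat 0, .ofNat 0, c14x⟩⟩, [381, 382]⟩,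
  ⟨⟨⟨c409x, c410x, c396x, c388x⟩, ⟨.ofNat 0, .ofNat 0, c468x⟩, ⟨.ofNat 1, .ofNat 0, c502x⟩, ⟨.ofNat 0, .ofNat 1, c862x⟩⟩, [379, 380, 381]⟩,
  ⟨⟨⟨c410x, c413x, c576x, c396x⟩, ⟨.ofNat 0, .ofNat 1, c861x⟩, ⟨.ofNat 1, .ofNat 0, c502x⟩, ⟨.ofNat 0, .ofNat 0, c14x⟩⟩, [385, 386]⟩,
  ⟨⟨⟨c413x, c418x, c387x, c396x⟩, ⟨.ofNat 0, .ofNat 1, c861x⟩, ⟨.ofNat 1, .ofNat 0, c502x⟩, ⟨.ofNat 0, .ofNat 0, c14x⟩⟩, [385, 386, 387]⟩,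
  ⟨⟨⟨c418x, c419x, c381x, c396x⟩, ⟨.ofNat 0, .ofNat 1, c861x⟩, ⟨.ofNat 1, .ofNat 0, c502x⟩, ⟨.ofNat 0, .ofNat 0, c14x⟩⟩, [386, 387, 388, 389]⟩,
  ⟨⟨⟨c403x, c414x, c396x, c412x⟩, ⟨.ofNat 0, .ofNat 0, c468x⟩, ⟨.ofNat 1, .ofNat 0, c502x⟩, ⟨.ofNat 0, .ofNat 1, c862x⟩⟩, [464, 465, 466]⟩,
  ⟨⟨⟨c414x, c415x, c396x, c412x⟩, ⟨.ofNat 0, .ofNat 0, c468x⟩, ⟨.ofNat 1, .ofNat 0, c502x⟩, ⟨.ofNat 0, .ofNat 1, c862x⟩⟩, [357, 358, 464]⟩,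
  ⟨⟨⟨c415x, c416x, c385x, c412x⟩, ⟨.ofNat 0, .ofNat 0, c468x⟩, ⟨.ofNat 1, .ofNat 0, c502x⟩, ⟨.ofNat 0, .ofNat 1, c862x⟩⟩, [357, 358, 359, 464]⟩,
  ⟨⟨⟨c416x, c417x, c396x, c412x⟩, ⟨.ofNat 0, .ofNat 0, c468x⟩, ⟨.ofNat 1, .ofNat 0, c502x⟩, ⟨.ofNat 0, .ofNat 1, c862x⟩⟩, [358, 359, 361, 362, 464]⟩,
  ⟨⟨⟨c417x, c406x, c388x, c412x⟩, ⟨.ofNat 0, .ofNat 0, c468x⟩, ⟨.ofNat 1, .ofNat 0, c502x⟩, ⟨.ofNat 0, .ofNat 1, c862x⟩⟩, [361, 362, 363, 464]⟩,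
  ⟨⟨⟨c406x, c411x, c396x, c412x⟩, ⟨.ofNat 0, .ofNat 0, c468x⟩, ⟨.ofNat 1, .ofNat 0, c502x⟩, ⟨.ofNat 0, .ofNat 1, c862x⟩⟩, [362, 363, 364, 464]⟩,
  ⟨⟨⟨c411x, c394x, c396x, c412x⟩, ⟨.ofNat 0, .ofNat 0, c468x⟩, ⟨.ofNat 1, .ofNat 0, c502x⟩, ⟨.ofNat 0, .ofNat 1, c862x⟩⟩, [374, 375, 376, 464]⟩,
  ⟨⟨⟨c410x, c413x, c396x, c412x⟩, ⟨.ofNat 0, .ofNat 0, c468x⟩, ⟨.ofNat 1, .ofNat 0, c502x⟩, ⟨.ofNat 0, .ofNat 1, c862x⟩⟩, [378, 379, 380, 464]⟩,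
  ⟨⟨⟨c413x, c418x, c396x, c412x⟩, ⟨.ofNat 0, .ofNat 0, c468x⟩, ⟨.ofNat 1, .ofNat 0, c502x⟩, ⟨.ofNat 0, .ofNat 1, c862x⟩⟩, [464]⟩,
  ⟨⟨⟨c418x, c419x, c396x, c412x⟩, ⟨.ofNat 0, .ofNat 0, c468x⟩, ⟨.ofNat 1, .ofNat 0, c502x⟩, ⟨.ofNat 0, .ofNat 1, c862x⟩⟩, [389, 390, 463, 464]⟩,
  ⟨⟨⟨c394x, c395x, c400x, c412x⟩, ⟨.ofNat 0, .ofNat 0, c468x⟩, ⟨.ofNat 1, .ofNat 0, c502x⟩, ⟨.ofNat 0, .ofNat 1, c862x⟩⟩, [375, 376, 377, 464]⟩,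
  ⟨⟨⟨c395x, c410x, c393x, c412x⟩, ⟨.ofNat 0, .ofNat 0, c468x⟩, ⟨.ofNat 1, .ofNat 0, c502x⟩, ⟨.ofNat 0, .ofNat 1, c862x⟩⟩, [376, 377, 378, 379, 464]⟩,
  ⟨⟨⟨c429x, c431x, c404x, c432x⟩, ⟨.ofNat 0, .ofNat 0, c468x⟩, ⟨.ofNat 1, .ofNat 0, c502x⟩, ⟨.ofNat 0, .ofNat 1, c862x⟩⟩, [390, 453, 454, 455]⟩,
  ⟨⟨⟨c420x, c421x, c404x, c422x⟩, ⟨.ofNat 0, .ofNat 0, c468x⟩, ⟨.ofNat 1, .ofNat 0, c502x⟩, ⟨.ofNat 0, .ofNat 1, c862x⟩⟩, [390, 439, 440, 441]⟩,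
  ⟨⟨⟨c421x, c435x, c404x, c436x⟩, ⟨.ofNat 0, .ofNat 0, c468x⟩, ⟨.ofNat 1, .ofNat 0, c502x⟩, ⟨.ofNat 0, .ofNat 1, c862x⟩⟩, [390, 437, 438, 439, 440]⟩,
  ⟨⟨⟨c419x, c423x, c404x, c450x⟩, ⟨.ofNat 0, .ofNat 0, c468x⟩, ⟨.ofNat 1, .ofNat 0, c502x⟩, ⟨.ofNat 0, .ofNat 1, c862x⟩⟩, [389, 390, 463, 464]⟩,
  ⟨⟨⟨c423x, c425x, c404x, c450x⟩, ⟨.ofNat 0, .ofNat 0, c468x⟩, ⟨.ofNat 1, .ofNat 0, c502x⟩, ⟨.ofNat 0, .ofNat 1, c862x⟩⟩, [390, 458, 459]⟩,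
  ⟨⟨⟨c425x, c427x, c404x, c428x⟩, ⟨.ofNat 0, .ofNat 0, c468x⟩, ⟨.ofNat 1, .ofNat 0, c502x⟩, ⟨.ofNat 0, .ofNat 1, c862x⟩⟩, [390, 457, 458, 459]⟩,
  ⟨⟨⟨c427x, c429x, c404x, c450x⟩, ⟨.ofNat 0, .ofNat 0, c468x⟩, ⟨.ofNat 1, .ofNat 0, c502x⟩, ⟨.ofNat 0, .ofNat 1, c862x⟩⟩, [390, 454, 455, 457, 458]⟩,
  ⟨⟨⟨c431x, c433x, c404x, c450x⟩, ⟨.ofNat 0, .ofNat 0, c468x⟩, ⟨.ofNat 1, .ofNat 0, c502x⟩, ⟨.ofNat 0, .ofNat 1, c862x⟩⟩, [390, 452, 453, 454]⟩,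
  ⟨⟨⟨c433x, c420x, c404x, c450x⟩, ⟨.ofNat 0, .ofNat 0, c468x⟩, ⟨.ofNat 1, .ofNat 0, c502x⟩, ⟨.ofNat 0, .ofNat 1, c862x⟩⟩, [390, 440, 441, 442]⟩,
  ⟨⟨⟨c435x, c437x, c404x, c450x⟩, ⟨.ofNat 0, .ofNat 0, c468x⟩, ⟨.ofNat 1, .ofNat 0, c502x⟩, ⟨.ofNat 0, .ofNat 1, c862x⟩⟩, [390, 436, 437, 438]⟩,
  ⟨⟨⟨c437x, c438x, c404x, c450x⟩, ⟨.ofNat 0, .ofNat 0, c468x⟩, ⟨.ofNat 1, .ofNat 0, c502x⟩, ⟨.ofNat 0, .ofNat 1, c862x⟩⟩, [390]⟩,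
  ⟨⟨⟨c438x, c439x, c404x, c450x⟩, ⟨.ofNat 0, .ofNat 0, c468x⟩, ⟨.ofNat 1, .ofNat 0, c502x⟩, ⟨.ofNat 0, .ofNat 1, c862x⟩⟩, [390, 391, 392]⟩,
  ⟨⟨⟨c442x, c443x, c412x, c422x⟩, ⟨.ofNat 0, .ofNat 0, c468x⟩, ⟨.ofNat 1, .ofNat 0, c502x⟩, ⟨.ofNat 0, .ofNat 1, c862x⟩⟩, [392, 405, 406, 407]⟩,
  ⟨⟨⟨c443x, c458x, c412x, c436x⟩, ⟨.ofNat 0, .ofNat 0, c468x⟩, ⟨.ofNat 1, .ofNat 0, c502x⟩, ⟨.ofNat 0, .ofNat 1, c862x⟩⟩, [392, 403, 404, 405, 406]⟩,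
  ⟨⟨⟨c439x, c444x, c412x, c450x⟩, ⟨.ofNat 0, .ofNat 0, c468x⟩, ⟨.ofNat 1, .ofNat 0, c502x⟩, ⟨.ofNat 0, .ofNat 1, c862x⟩⟩, [391, 392]⟩,
  ⟨⟨⟨c444x, c445x, c412x, c450x⟩, ⟨.ofNat 0, .ofNat 0, c468x⟩, ⟨.ofNat 1, .ofNat 0, c502x⟩, ⟨.ofNat 0, .ofNat 1, c862x⟩⟩, [392, 424, 425]⟩,
  ⟨⟨⟨c445x, c446x, c412x, c428x⟩, ⟨.ofNat 0, .ofNat 0, c468x⟩, ⟨.ofNat 1, .ofNat 0, c502x⟩, ⟨.ofNat 0, .ofNat 1, c862x⟩⟩, [392, 423, 424, 425]⟩,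
  ⟨⟨⟨c446x, c447x, c412x, c450x⟩, ⟨.ofNat 0, .ofNat 0, c468x⟩, ⟨.ofNat 1, .ofNat 0, c502x⟩, ⟨.ofNat 0, .ofNat 1, c862x⟩⟩, [392, 420, 421, 423, 424]⟩,
  ⟨⟨⟨c447x, c448x, c412x, c432x⟩, ⟨.ofNat 0, .ofNat 0, c468x⟩, ⟨.ofNat 1, .ofNat 0, c502x⟩, ⟨.ofNat 0, .ofNat 1, c862x⟩⟩, [392, 419, 420, 421]⟩,
  ⟨⟨⟨c427x, c429x, c450x, c430x⟩, ⟨.ofNat 0, .negSucc 0, c517x⟩, ⟨.ofNat 1, .ofNat 0, c502x⟩, ⟨.ofNat 0, .ofNat 0, c537x⟩⟩, [455, 456, 457]⟩,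
  ⟨⟨⟨c455x, c435x, c432x, c450x⟩, ⟨.ofNat 0, .ofNat 0, c468x⟩, ⟨.ofNat 1, .ofNat 0, c502x⟩, ⟨.ofNat 0, .ofNat 1, c862x⟩⟩, [435, 436, 437]⟩,
  ⟨⟨⟨c448x, c457x, c412x, c450x⟩, ⟨.ofNat 0, .ofNat 0, c468x⟩, ⟨.ofNat 1, .ofNat 0, c502x⟩, ⟨.ofNat 0, .ofNat 1, c862x⟩⟩, [392, 418, 419, 420]⟩,
  ⟨⟨⟨c437x, c438x, c450x, c430x⟩, ⟨.ofNat 0, .negSucc 0, c517x⟩, ⟨.ofNat 1, .ofNat 0, c502x⟩, ⟨.ofNat 0, .ofNat 0, c537x⟩⟩, [429, 430, 431]⟩,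
  ⟨⟨⟨c446x, c447x, c450x, c430x⟩, ⟨.ofNat 0, .negSucc 0, c517x⟩, ⟨.ofNat 1, .ofNat 0, c502x⟩, ⟨.ofNat 0, .ofNat 0, c537x⟩⟩, [421, 422, 423]⟩,
  ⟨⟨⟨c457x, c442x, c412x, c450x⟩, ⟨.ofNat 0, .ofNat 0, c468x⟩, ⟨.ofNat 1, .ofNat 0, c502x⟩, ⟨.ofNat 0, .ofNat 1, c862x⟩⟩, [392, 406, 407, 408]⟩,
  ⟨⟨⟨c458x, c459x, c412x, c450x⟩, ⟨.ofNat 0, .ofNat 0, c468x⟩, ⟨.ofNat 1, .ofNat 0, c502x⟩, ⟨.ofNat 0, .ofNat 1, c862x⟩⟩, [392, 402, 403, 404]⟩,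
  ⟨⟨⟨c459x, c460x, c412x, c450x⟩, ⟨.ofNat 0, .ofNat 0, c468x⟩, ⟨.ofNat 1, .ofNat 0, c502x⟩, ⟨.ofNat 0, .ofNat 1, c862x⟩⟩, [392]⟩,
  ⟨⟨⟨c460x, c461x, c412x, c450x⟩, ⟨.ofNat 0, .ofNat 0, c468x⟩, ⟨.ofNat 1, .ofNat 0, c502x⟩, ⟨.ofNat 0, .ofNat 1, c862x⟩⟩, [392, 393]⟩,
  ⟨⟨⟨c465x, c458x, c432x, c450x⟩, ⟨.ofNat 0, .ofNat 0, c468x⟩, ⟨.ofNat 1, .ofNat 0, c502x⟩, ⟨.ofNat 0, .ofNat 1, c862x⟩⟩, [401, 402, 403]⟩,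
  ⟨⟨⟨c459x, c460x, c450x, c430x⟩, ⟨.ofNat 0, .negSucc 0, c517x⟩, ⟨.ofNat 1, .ofNat 0, c502x⟩, ⟨.ofNat 0, .ofNat 0, c537x⟩⟩, [395, 396, 397]⟩,
  ⟨⟨⟨c419x, c423x, c450x, c424x⟩, ⟨.ofNat 0, .negSucc 0, c517x⟩, ⟨.ofNat 1, .ofNat 0, c502x⟩, ⟨.ofNat 0, .ofNat 0, c537x⟩⟩, [461, 462, 463]⟩,
  ⟨⟨⟨c423x, c425x, c450x, c426x⟩, ⟨.ofNat 0, .negSucc 0, c517x⟩, ⟨.ofNat 1, .ofNat 0, c502x⟩, ⟨.ofNat 0, .ofNat 0, c537x⟩⟩, [459, 460, 461, 462]⟩,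
  ⟨⟨⟨c449x, c431x, c450x, c517x⟩, ⟨.ofNat 0, .negSucc 0, c517x⟩, ⟨.ofNat 1, .ofNat 0, c502x⟩, ⟨.ofNat 0, .ofNat 0, c537x⟩⟩, [451, 452, 453]⟩,
  ⟨⟨⟨c449x, c431x, c517x, c434x⟩, ⟨.ofNat 0, .ofNat 0, c14x⟩, ⟨.ofNat 1, .ofNat 0, c502x⟩, ⟨.ofNat 0, .negSucc 0, c863x⟩⟩, [450, 451]⟩,
  ⟨⟨⟨c431x, c433x, c450x, c517x⟩, ⟨.ofNat 0, .negSucc 0, c517x⟩, ⟨.ofNat 1, .ofNat 0, c502x⟩, ⟨.ofNat 0, .ofNat 0, c537x⟩⟩, [452, 453]⟩,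
  ⟨⟨⟨c433x, c420x, c450x, c517x⟩, ⟨.ofNat 0, .negSucc 0, c517x⟩, ⟨.ofNat 1, .ofNat 0, c502x⟩, ⟨.ofNat 0, .ofNat 0, c537x⟩⟩, [441, 442]⟩,
  ⟨⟨⟨c420x, c421x, c450x, c517x⟩, ⟨.ofNat 0, .negSucc 0, c517x⟩, ⟨.ofNat 1, .ofNat 0, c502x⟩, ⟨.ofNat 0, .ofNat 0, c537x⟩⟩, [441, 442]⟩,
  ⟨⟨⟨c431x, c433x, c517x, c434x⟩, ⟨.ofNat 0, .ofNat 0, c14x⟩, ⟨.ofNat 1, .ofNat 0, c502x⟩, ⟨.ofNat 0, .negSucc 0, c863x⟩⟩, [449, 450]⟩,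
  ⟨⟨⟨c433x, c420x, c517x, c440x⟩, ⟨.ofNat 0, .ofNat 0, c14x⟩, ⟨.ofNat 1, .ofNat 0, c502x⟩, ⟨.ofNat 0, .negSucc 0, c863x⟩⟩, [448, 449, 450]⟩,
  ⟨⟨⟨c420x, c421x, c517x, c440x⟩, ⟨.ofNat 0, .ofNat 0, c14x⟩, ⟨.ofNat 1, .ofNat 0, c502x⟩, ⟨.ofNat 0, .negSucc 0, c863x⟩⟩, [447, 448]⟩,
  ⟨⟨⟨c421x, c451x, c450x, c517x⟩, ⟨.ofNat 0, .negSucc 0, c517x⟩, ⟨.ofNat 1, .ofNat 0, c502x⟩, ⟨.ofNat 0, .ofNat 0, c537x⟩⟩, [442]⟩,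
  ⟨⟨⟨c421x, c451x, c517x, c452x⟩, ⟨.ofNat 0, .ofNat 0, c14x⟩, ⟨.ofNat 1, .ofNat 0, c502x⟩, ⟨.ofNat 0, .negSucc 0, c863x⟩⟩, [444, 445, 446, 447, 448]⟩,
  ⟨⟨⟨c451x, c453x, c450x, c517x⟩, ⟨.ofNat 0, .negSucc 0, c517x⟩, ⟨.ofNat 1, .ofNat 0, c502x⟩, ⟨.ofNat 0, .ofNat 0, c537x⟩⟩, [442, 443]⟩,
  ⟨⟨⟨c451x, c453x, c517x, c454x⟩, ⟨.ofNat 0, .ofNat 0, c14x⟩, ⟨.ofNat 1, .ofNat 0, c502x⟩, ⟨.ofNat 0, .negSucc 0, c863x⟩⟩, [443, 444, 445]⟩,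
  ⟨⟨⟨c456x, c455x, c426x, c517x⟩, ⟨.ofNat 0, .negSucc 0, c517x⟩, ⟨.ofNat 1, .ofNat 0, c502x⟩, ⟨.ofNat 0, .ofNat 0, c537x⟩⟩, [433, 434, 435]⟩,
  ⟨⟨⟨c455x, c435x, c450x, c517x⟩, ⟨.ofNat 0, .negSucc 0, c517x⟩, ⟨.ofNat 1, .ofNat 0, c502x⟩, ⟨.ofNat 0, .ofNat 0, c537x⟩⟩, [434, 435]⟩,
  ⟨⟨⟨c456x, c455x, c517x, c441x⟩, ⟨.ofNat 0, .ofNat 0, c14x⟩, ⟨.ofNat 1, .ofNat 0, c502x⟩, ⟨.ofNat 0, .negSucc 0, c863x⟩⟩, [432, 433]⟩,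
  ⟨⟨⟨c455x, c435x, c517x, c441x⟩, ⟨.ofNat 0, .ofNat 0, c14x⟩, ⟨.ofNat 1, .ofNat 0, c502x⟩, ⟨.ofNat 0, .negSucc 0, c863x⟩⟩, [432]⟩,
  ⟨⟨⟨c435x, c437x, c450x, c517x⟩, ⟨.ofNat 0, .negSucc 0, c517x⟩, ⟨.ofNat 1, .ofNat 0, c502x⟩, ⟨.ofNat 0, .ofNat 0, c537x⟩⟩, [430, 431]⟩,
  ⟨⟨⟨c435x, c437x, c517x, c441x⟩, ⟨.ofNat 0, .ofNat 0, c14x⟩, ⟨.ofNat 1, .ofNat 0, c502x⟩, ⟨.ofNat 0, .negSucc 0, c863x⟩⟩, [431, 432]⟩,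
  ⟨⟨⟨c438x, c439x, c450x, c424x⟩, ⟨.ofNat 0, .negSucc 0, c517x⟩, ⟨.ofNat 1, .ofNat 0, c502x⟩, ⟨.ofNat 0, .ofNat 0, c537x⟩⟩, [428, 429, 430]⟩,
  ⟨⟨⟨c439x, c444x, c450x, c424x⟩, ⟨.ofNat 0, .negSucc 0, c517x⟩, ⟨.ofNat 1, .ofNat 0, c502x⟩, ⟨.ofNat 0, .ofNat 0, c537x⟩⟩, [427, 428]⟩,
  ⟨⟨⟨c444x, c445x, c450x, c426x⟩, ⟨.ofNat 0, .negSucc 0, c517x⟩, ⟨.ofNat 1, .ofNat 0, c502x⟩, ⟨.ofNat 0, .ofNat 0, c537x⟩⟩, [425, 426, 427, 428]⟩,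
  ⟨⟨⟨c462x, c448x, c450x, c517x⟩, ⟨.ofNat 0, .negSucc 0, c517x⟩, ⟨.ofNat 1, .ofNat 0, c502x⟩, ⟨.ofNat 0, .ofNat 0, c537x⟩⟩, [417, 418, 419]⟩,
  ⟨⟨⟨c462x, c448x, c517x, c434x⟩, ⟨.ofNat 0, .ofNat 0, c14x⟩, ⟨.ofNat 1, .ofNat 0, c502x⟩, ⟨.ofNat 0, .negSucc 0, c863x⟩⟩, [416, 417]⟩,
  ⟨⟨⟨c448x, c457x, c450x, c517x⟩, ⟨.ofNat 0, .negSucc 0, c517x⟩, ⟨.ofNat 1, .ofNat 0, c502x⟩, ⟨.ofNat 0, .ofNat 0, c537x⟩⟩, [418, 419]⟩,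
  ⟨⟨⟨c457x, c442x, c450x, c517x⟩, ⟨.ofNat 0, .negSucc 0, c517x⟩, ⟨.ofNat 1, .ofNat 0, c502x⟩, ⟨.ofNat 0, .ofNat 0, c537x⟩⟩, [407, 408]⟩,
  ⟨⟨⟨c442x, c443x, c450x, c517x⟩, ⟨.ofNat 0, .negSucc 0, c517x⟩, ⟨.ofNat 1, .ofNat 0, c502x⟩, ⟨.ofNat 0, .ofNat 0, c537x⟩⟩, [407, 408]⟩,
  ⟨⟨⟨c448x, c457x, c517x, c434x⟩, ⟨.ofNat 0, .ofNat 0, c14x⟩, ⟨.ofNat 1, .ofNat 0, c502x⟩, ⟨.ofNat 0, .negSucc 0, c863x⟩⟩, [415, 416]⟩,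
  ⟨⟨⟨c457x, c442x, c517x, c440x⟩, ⟨.ofNat 0, .ofNat 0, c14x⟩, ⟨.ofNat 1, .ofNat 0, c502x⟩, ⟨.ofNat 0, .negSucc 0, c863x⟩⟩, [414, 415, 416]⟩,
  ⟨⟨⟨c442x, c443x, c517x, c440x⟩, ⟨.ofNat 0, .ofNat 0, c14x⟩, ⟨.ofNat 1, .ofNat 0, c502x⟩, ⟨.ofNat 0, .negSucc 0, c863x⟩⟩, [413, 414]⟩,
  ⟨⟨⟨c443x, c463x, c450x, c517x⟩, ⟨.ofNat 0, .negSucc 0, c517x⟩, ⟨.ofNat 1, .ofNat 0, c502x⟩, ⟨.ofNat 0, .ofNat 0, c537x⟩⟩, [408]⟩,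
  ⟨⟨⟨c443x, c463x, c517x, c452x⟩, ⟨.ofNat 0, .ofNat 0, c14x⟩, ⟨.ofNat 1, .ofNat 0, c502x⟩, ⟨.ofNat 0, .negSucc 0, c863x⟩⟩, [410, 411, 412, 413, 414]⟩,
  ⟨⟨⟨c463x, c464x, c450x, c517x⟩, ⟨.ofNat 0, .negSucc 0, c517x⟩, ⟨.ofNat 1, .ofNat 0, c502x⟩, ⟨.ofNat 0, .ofNat 0, c537x⟩⟩, [408, 409]⟩,
  ⟨⟨⟨c463x, c464x, c517x, c454x⟩, ⟨.ofNat 0, .ofNat 0, c14x⟩, ⟨.ofNat 1, .ofNat 0, c502x⟩, ⟨.ofNat 0, .negSucc 0, c863x⟩⟩, [409, 410, 411]⟩,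
  ⟨⟨⟨c466x, c465x, c426x, c517x⟩, ⟨.ofNat 0, .negSucc 0, c517x⟩, ⟨.ofNat 1, .ofNat 0, c502x⟩, ⟨.ofNat 0, .ofNat 0, c537x⟩⟩, [399, 400, 401]⟩,
  ⟨⟨⟨c465x, c458x, c450x, c517x⟩, ⟨.ofNat 0, .negSucc 0, c517x⟩, ⟨.ofNat 1, .ofNat 0, c502x⟩, ⟨.ofNat 0, .ofNat 0, c537x⟩⟩, [400, 401]⟩,
  ⟨⟨⟨c466x, c465x, c517x, c441x⟩, ⟨.ofNat 0, .ofNat 0, c14x⟩, ⟨.ofNat 1, .ofNat 0, c502x⟩, ⟨.ofNat 0, .negSucc 0, c863x⟩⟩, [398, 399]⟩,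
  ⟨⟨⟨c465x, c458x, c517x, c441x⟩, ⟨.ofNat 0, .ofNat 0, c14x⟩, ⟨.ofNat 1, .ofNat 0, c502x⟩, ⟨.ofNat 0, .negSucc 0, c863x⟩⟩, [398]⟩,
  ⟨⟨⟨c458x, c459x, c450x, c517x⟩, ⟨.ofNat 0, .negSucc 0, c517x⟩, ⟨.ofNat 1, .ofNat 0, c502x⟩, ⟨.ofNat 0, .ofNat 0, c537x⟩⟩, [396, 397]⟩,
  ⟨⟨⟨c458x, c459x, c517x, c441x⟩, ⟨.ofNat 0, .ofNat 0, c14x⟩, ⟨.ofNat 1, .ofNat 0, c502x⟩, ⟨.ofNat 0, .negSucc 0, c863x⟩⟩, [397, 398]⟩,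
  ⟨⟨⟨c460x, c461x, c450x, c424x⟩, ⟨.ofNat 0, .negSucc 0, c517x⟩, ⟨.ofNat 1, .ofNat 0, c502x⟩, ⟨.ofNat 0, .ofNat 0, c537x⟩⟩, [393, 394, 395, 396]⟩]

def own : List ℕ := [5, 6, 8, 2, 9, 4, 0, 1, 3, 11, 17, 19, 11, 17, 17, 19, 21, 22, 25, 24, 27, 12, 28, 12, 29, 29, 13, 28, 14, 13, 14, 15, 15, 16, 18, 16, 31, 18, 18, 31, 32, 33, 5, 6, 7, 8, 10, 9, 4, 23, 20, 19, 21, 22, 25, 24, 27, 26, 29, 28, 31, 32, 33, 30, 34, 35, 36, 39, 40, 41, 37, 42, 38, 43, 46, 47, 44, 45, 51, 53, 54, 66, 55, 56, 40, 41, 42, 48, 48, 43, 46, 57, 43, 46, 58, 49, 49, 57, 58, 50, 50, 47, 59, 59, 50, 44, 45, 51, 62, 62, 64, 64, 52, 66, 56, 60, 61, 63, 67, 68, 47, 51, 60, 61, 62, 63, 64, 65, 66, 67, 68, 69, 70, 71, 72, 73, 74, 75, 80,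 81, 82, 76, 77, 78, 83, 79, 84, 85, 86, 74, 75, 85, 80, 81, 82, 83, 84, 86, 87, 102, 98, 88, 89, 90, 91, 91, 97, 99, 80, 82, 92, 94, 83, 95, 95, 100, 101, 104, 87, 102, 98, 88, 89, 90, 97, 97, 99, 107, 108, 93, 96, 86, 100, 101, 104, 102, 98, 99, 107, 103, 105, 109, 106, 108, 124, 119, 112, 114, 110, 111, 138, 139, 120, 120, 121, 122, 122, 115, 116, 117, 125, 118, 123, 125, 123, 141, 142, 124, 126, 119, 126, 113, 127, 128, 129, 130, 131, 136, 113, 130, 131, 132, 127, 128, 133, 135, 137, 136, 129, 137, 136, 129, 138, 139, 120, 121, 122, 140, 125, 141, 142, 134, 143, 145, 144, 146, 124, 149, 150, 147, 148, 152, 156, 151, 154, 153, 155, 158, 149, 150, 161, 155, 158, 157, 164, 159, 165, 160, 157, 174,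 172, 173, 175, 177, 151, 161, 151, 166, 161, 166, 162, 168, 153, 154, 163, 164, 169, 170, 165, 174, 175, 176, 177, 182, 183, 167, 164, 169, 170, 174, 175, 176, 177, 182, 183, 171, 178, 179, 180, 181, 189, 184, 185, 186, 187, 188, 190, 191, 199, 195, 198, 196, 197, 189, 201, 196, 190, 192, 191, 199, 195, 198, 198, 197, 201, 209, 210, 211, 203, 202, 211, 203, 202, 204, 200, 204, 200, 205, 212, 205, 213, 212, 213, 206, 206, 214, 216, 217, 192, 191, 193, 194, 199, 207, 208, 201, 209, 210, 203, 211, 212, 213, 214, 218, 219, 220, 215, 216, 217, 224, 225, 221, 222, 223, 230, 232, 231, 226, 233, 227, 228, 229, 235, 236, 237, 247, 238, 239, 240, 248, 224, 225, 230, 233, 230, 241, 233, 241, 234, 234, 244, 244,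 242, 232, 242, 231, 231, 232, 243, 243, 226, 228, 229, 235, 246, 237, 247, 248, 249, 250, 250, 245, 252, 251, 235, 245, 246, 247, 248, 249, 250, 251, 253, 254, 256, 257, 252, 255, 261, 258, 260, 262, 264, 265, 259, 266, 268, 267, 263, 270, 281, 271, 272, 264, 265, 259, 269, 269, 267, 263, 270, 281, 284, 284, 285, 282, 273, 282, 274, 283, 283, 275, 275, 286, 276, 266, 268, 277, 278, 279, 280, 280, 269, 267, 287, 292, 288, 281, 287, 288, 284, 285, 282, 283, 286, 289, 293, 290, 291, 292, 294, 295, 296, 297, 298, 299, 300, 301, 302, 303, 304, 307, 305, 306, 315, 309, 299, 300, 301, 301, 302, 303, 303, 310, 311, 312, 307, 313, 307, 313, 314, 305, 306, 315, 323, 322, 315, 324, 316, 316, 325, 325, 320, 320,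 308, 308, 309, 317, 317, 318, 319, 318, 321, 319, 319, 321, 329, 326, 322, 323, 327, 324, 328, 325, 320, 321, 329, 326, 331, 330, 337, 332, 339, 333, 334, 335, 336, 338, 342, 343, 340, 341, 344, 358, 345, 346, 347, 348, 349, 336, 354, 356, 340, 348, 357, 359, 360, 361, 366, 360, 333, 334, 350, 350, 338, 342, 351, 338, 342, 351, 352, 352, 353, 353, 355, 354, 355, 354, 343, 343, 341, 345, 346, 362, 362, 356, 357, 363, 356, 357, 363, 364, 364, 365, 365, 367, 366, 367, 366, 359, 359, 361]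

def ct : List Tr := [
  .leaf 6,
  .leaf 7,
  .leaf 3,
  .leaf 8,
  .sy c4x (.leaf 5) (.leaf 48),
  .sy c4x (.leaf 0) (.leaf 42),
  .sy c4x (.leaf 1) (.leaf 43),
  .leaf 44,
  .sy c4x (.leaf 2) (.leaf 45),
  .sy c4x (.leaf 4) (.leaf 47),
  .leaf 46,
  .sy c470x (.leaf 9) (.leaf 12),
  .sy c470x (.leaf 21) (.leaf 23),
  .sy c470x (.leaf 26) (.leaf 29),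
  .sy c470x (.leaf 28) (.leaf 30),
  .sy c470x (.leaf 31) (.leaf 32),
  .sy c470x (.leaf 33) (.leaf 35),
  .sy c470x (.leaf 10) (.sy c4x (.leaf 13) (.leaf 14)),
  .sy c470x (.leaf 34) (.sy c4x (.leaf 37) (.leaf 38)),
  .sy c470x (.leaf 11) (.sy c4x (.leaf 15) (.leaf 51)),
  .leaf 50,
  .sy c4x (.leaf 16) (.leaf 52),
  .sy c4x (.leaf 17) (.leaf 53),
  .leaf 49,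
  .sy c4x (.leaf 19) (.leaf 55),
  .sy c4x (.leaf 18) (.leaf 54),
  .leaf 57,
  .sy c4x (.leaf 20) (.leaf 56),
  .sy c470x (.leaf 22) (.sy c4x (.leaf 27) (.leaf 59)),
  .sy c470x (.leaf 24) (.sy c4x (.leaf 25) (.leaf 58)),
  .leaf 63,
  .sy c470x (.leaf 36) (.sy c4x (.leaf 39) (.leaf 60)),
  .sy c4x (.leaf 40) (.leaf 61),
  .sy c4x (.leaf 41) (.leaf 62),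
  .leaf 64,
  .leaf 65,
  .leaf 66,
  .leaf 70,
  .leaf 72,
  .leaf 67,
  .sy c73x (.leaf 68) (.leaf 84),
  .sy c73x (.leaf 69) (.leaf 85),
  .sy c73x (.leaf 71) (.leaf 86),
  .sy c73x (.leaf 73) (.sy c844x (.leaf 89) (.leaf 92)),
  .sy c73x (.leaf 76) (.leaf 105),
  .sy c73x (.leaf 77) (.leaf 106),
  .sy c73x (.leaf 74) (.sy c844x (.leaf 90) (.leaf 93)),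
  .sy c73x (.leaf 75) (.sy c844x (.leaf 101) (.leaf 120)),
  .sy c844x (.leaf 87) (.leaf 88),
  .sy c844x (.leaf 95) (.leaf 96),
  .sy c73x (.leaf 99) (.sy c844x (.leaf 100) (.leaf 104)),
  .sy c73x (.leaf 78) (.sy c844x (.leaf 107) (.leaf 121)),
  .leaf 112,
  .leaf 79,
  .leaf 80,
  .leaf 82,
  .sy c73x (.leaf 83) (.leaf 114),
  .sy c844x (.leaf 91) (.leaf 97),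
  .sy c844x (.leaf 94) (.leaf 98),
  .sy c844x (.leaf 102) (.leaf 103),
  .sy c844x (.leaf 115) (.leaf 122),
  .sy c844x (.leaf 116) (.leaf 123),
  .sy c73x (.leaf 108) (.sy c844x (.leaf 109) (.leaf 124)),
  .sy c844x (.leaf 117) (.leaf 125),
  .sy c73x (.leaf 110) (.sy c844x (.leaf 111) (.leaf 126)),
  .leaf 127,
  .sy c73x (.leaf 81) (.sy c844x (.leaf 113) (.leaf 128)),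
  .sy c844x (.leaf 118) (.leaf 129),
  .sy c844x (.leaf 119) (.leaf 130),
  .leaf 131,
  .leaf 132,
  .leaf 133,
  .leaf 134,
  .leaf 135,
  .sy c547x (.leaf 136) (.leaf 149),
  .sy c547x (.leaf 137) (.leaf 150),
  .leaf 141,
  .leaf 142,
  .leaf 143,
  .leaf 145,
  .sy c547x (.leaf 138) (.sy c128x (.leaf 152) (.leaf 168)),
  .sy c547x (.leaf 139) (.leaf 153),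
  .sy c547x (.leaf 140) (.sy c128x (.leaf 154) (.leaf 169)),
  .sy c547x (.leaf 144) (.sy c128x (.leaf 155) (.leaf 172)),
  .sy c547x (.leaf 146) (.leaf 156),
  .sy c547x (.leaf 147) (.leaf 151),
  .sy c547x (.leaf 148) (.sy c128x (.leaf 157) (.leaf 191)),
  .sy c547x (.leaf 158) (.leaf 178),
  .sy c547x (.leaf 161) (.leaf 181),
  .sy c547x (.leaf 162) (.leaf 182),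
  .sy c547x (.leaf 163) (.leaf 183),
  .sy c547x (.leaf 164) (.leaf 165),
  .leaf 170,
  .leaf 189,
  .leaf 171,
  .sy c128x (.leaf 173) (.leaf 174),
  .leaf 190,
  .sy c547x (.leaf 166) (.sy c128x (.leaf 184) (.leaf 185)),
  .sy c547x (.leaf 160) (.sy c128x (.leaf 180) (.leaf 196)),
  .sy c547x (.leaf 167) (.sy c128x (.leaf 186) (.leaf 197)),
  .sy c128x (.leaf 175) (.leaf 192),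
  .sy c128x (.leaf 176) (.leaf 193),
  .sy c547x (.leaf 159) (.sy c128x (.leaf 179) (.leaf 195)),
  .leaf 199,
  .sy c128x (.leaf 177) (.leaf 194),
  .leaf 200,
  .leaf 202,
  .sy c128x (.leaf 187) (.leaf 198),
  .sy c128x (.leaf 188) (.leaf 203),
  .leaf 201,
  .leaf 208,
  .leaf 209,
  .leaf 206,
  .sy c162x (.leaf 231) (.leaf 238),
  .leaf 207,
  .leaf 217,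
  .leaf 218,
  .leaf 219,
  .leaf 221,
  .sy c162x (.leaf 205) (.leaf 229),
  .sy c162x (.leaf 212) (.sy c786x (.leaf 213) (.leaf 254)),
  .sy c786x (.leaf 214) (.leaf 255),
  .sy c162x (.leaf 215) (.sy c786x (.leaf 216) (.leaf 256)),
  .sy c162x (.leaf 222) (.leaf 224),
  .sy c162x (.leaf 204) (.sy c786x (.leaf 227) (.leaf 266)),
  .sy c162x (.leaf 220) (.sy c786x (.leaf 223) (.leaf 258)),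
  .sy c162x (.leaf 228) (.leaf 230),
  .sy c162x (.leaf 232) (.leaf 242),
  .sy c162x (.leaf 233) (.leaf 243),
  .sy c162x (.leaf 234) (.sy c786x (.leaf 248) (.leaf 251)),
  .sy c162x (.leaf 235) (.leaf 239),
  .sy c162x (.leaf 236) (.leaf 240),
  .leaf 241,
  .leaf 244,
  .leaf 261,
  .leaf 245,
  .sy c162x (.leaf 237) (.sy c786x (.leaf 247) (.leaf 250)),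
  .sy c786x (.leaf 246) (.leaf 249),
  .sy c786x (.leaf 210) (.leaf 252),
  .sy c786x (.leaf 211) (.leaf 253),
  .leaf 257,
  .sy c786x (.leaf 225) (.leaf 259),
  .sy c786x (.leaf 226) (.leaf 260),
  .leaf 262,
  .leaf 264,
  .leaf 263,
  .leaf 265,
  .leaf 269,
  .leaf 270,
  .sy c199x (.leaf 267) (.leaf 278),
  .sy c199x (.leaf 268) (.leaf 279),
  .sy c199x (.leaf 273) (.sy c852x (.leaf 294) (.leaf 296)),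
  .leaf 271,
  .sy c199x (.leaf 275) (.leaf 302),
  .sy c199x (.leaf 274) (.leaf 303),
  .sy c199x (.leaf 276) (.leaf 281),
  .leaf 272,
  .sy c199x (.leaf 283) (.leaf 288),
  .sy c199x (.leaf 277) (.leaf 282),
  .leaf 285,
  .leaf 287,
  .sy c199x (.leaf 280) (.sy c852x (.leaf 295) (.leaf 298)),
  .leaf 300,
  .leaf 304,
  .sy c199x (.leaf 284) (.sy c852x (.leaf 305) (.leaf 316)),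
  .sy c199x (.leaf 286) (.leaf 308),
  .sy c852x (.leaf 297) (.leaf 299),
  .leaf 315,
  .leaf 301,
  .sy c852x (.leaf 306) (.leaf 317),
  .sy c852x (.leaf 307) (.leaf 318),
  .leaf 325,
  .leaf 290,
  .leaf 291,
  .sy c199x (.leaf 289) (.sy c852x (.leaf 309) (.leaf 319)),
  .sy c199x (.leaf 292) (.sy c852x (.leaf 310) (.leaf 320)),
  .sy c852x (.leaf 311) (.leaf 321),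
  .sy c199x (.leaf 293) (.sy c852x (.leaf 312) (.leaf 322)),
  .leaf 326,
  .leaf 327,
  .leaf 328,
  .leaf 329,
  .sy c852x (.leaf 313) (.leaf 323),
  .sy c852x (.leaf 314) (.leaf 324),
  .leaf 331,
  .leaf 332,
  .leaf 333,
  .leaf 334,
  .leaf 335,
  .sy c562x (.leaf 330) (.leaf 343),
  .sy c562x (.leaf 336) (.leaf 346),
  .sy c562x (.leaf 337) (.sy c238x (.leaf 348) (.leaf 379)),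
  .sy c238x (.leaf 347) (.leaf 378),
  .leaf 380,
  .leaf 381,
  .sy c562x (.leaf 339) (.leaf 350),
  .sy c562x (.leaf 341) (.leaf 345),
  .sy c562x (.leaf 342) (.leaf 353),
  .sy c562x (.leaf 340) (.sy c238x (.leaf 351) (.leaf 352)),
  .sy c562x (.leaf 338) (.sy c238x (.leaf 349) (.leaf 382)),
  .sy c562x (.leaf 364) (.leaf 366),
  .sy c562x (.leaf 344) (.sy c238x (.leaf 354) (.leaf 385)),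
  .sy c562x (.leaf 359) (.leaf 362),
  .sy c562x (.leaf 358) (.sy c238x (.leaf 361) (.leaf 388)),
  .sy c562x (.leaf 363) (.leaf 365),
  .sy c562x (.leaf 367) (.leaf 369),
  .sy c562x (.leaf 373) (.leaf 374),
  .leaf 383,
  .leaf 384,
  .sy c238x (.leaf 355) (.leaf 386),
  .sy c238x (.leaf 356) (.leaf 387),
  .sy c562x (.leaf 357) (.sy c238x (.leaf 360) (.leaf 389)),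
  .sy c562x (.leaf 368) (.sy c238x (.leaf 371) (.leaf 390)),
  .sy c562x (.leaf 370) (.sy c238x (.leaf 372) (.leaf 391)),
  .sy c238x (.leaf 375) (.leaf 392),
  .leaf 396,
  .sy c238x (.leaf 376) (.leaf 397),
  .sy c238x (.leaf 377) (.leaf 398),
  .leaf 393,
  .leaf 394,
  .leaf 395,
  .leaf 401,
  .leaf 402,
  .leaf 403,
  .sy c295x (.leaf 399) (.leaf 420),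
  .sy c295x (.leaf 400) (.leaf 421),
  .sy c295x (.leaf 407) (.leaf 440),
  .leaf 409,
  .sy c295x (.leaf 410) (.leaf 441),
  .sy c295x (.leaf 411) (.leaf 442),
  .sy c295x (.leaf 404) (.sy c794x (.leaf 422) (.leaf 424)),
  .sy c295x (.leaf 406) (.sy c794x (.leaf 435) (.leaf 436)),
  .sy c295x (.leaf 405) (.sy c794x (.leaf 433) (.leaf 437)),
  .sy c295x (.leaf 408) (.sy c794x (.leaf 423) (.leaf 426)),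
  .sy c794x (.leaf 428) (.leaf 429),
  .sy c295x (.leaf 412) (.sy c794x (.leaf 443) (.leaf 454)),
  .leaf 413,
  .sy c295x (.leaf 414) (.leaf 445),
  .leaf 416,
  .leaf 417,
  .leaf 418,
  .sy c794x (.leaf 425) (.leaf 427),
  .sy c794x (.leaf 432) (.leaf 434),
  .sy c794x (.leaf 438) (.leaf 439),
  .sy c794x (.leaf 430) (.leaf 431),
  .sy c794x (.leaf 451) (.leaf 455),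
  .sy c794x (.leaf 444) (.leaf 456),
  .sy c295x (.leaf 415) (.sy c794x (.leaf 446) (.leaf 457)),
  .sy c295x (.leaf 419) (.sy c794x (.leaf 447) (.leaf 458)),
  .sy c794x (.leaf 448) (.leaf 459),
  .sy c295x (.leaf 449) (.sy c794x (.leaf 450) (.leaf 460)),
  .sy c794x (.leaf 453) (.leaf 461),
  .sy c794x (.leaf 452) (.leaf 466),
  .leaf 462,
  .leaf 463,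
  .leaf 467,
  .leaf 464,
  .leaf 465,
  .leaf 469,
  .sy c345x (.leaf 474) (.leaf 485),
  .leaf 470,
  .leaf 468,
  .leaf 471,
  .sy c345x (.leaf 478) (.leaf 489),
  .sy c345x (.leaf 472) (.leaf 483),
  .sy c345x (.leaf 473) (.leaf 484),
  .sy c345x (.leaf 475) (.leaf 505),
  .sy c345x (.leaf 477) (.sy c858x (.leaf 488) (.leaf 513)),
  .sy c345x (.leaf 476) (.leaf 506),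
  .sy c345x (.leaf 486) (.sy c858x (.leaf 487) (.leaf 512)),
  .sy c345x (.leaf 479) (.leaf 490),
  .leaf 481,
  .leaf 482,
  .leaf 496,
  .leaf 498,
  .sy c345x (.leaf 501) (.leaf 502),
  .leaf 504,
  .leaf 507,
  .leaf 508,
  .leaf 509,
  .sy c858x (.leaf 510) (.leaf 511),
  .sy c345x (.leaf 480) (.sy c858x (.leaf 491) (.leaf 517)),
  .sy c345x (.leaf 495) (.sy c858x (.leaf 497) (.leaf 522)),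
  .sy c345x (.leaf 499) (.sy c858x (.leaf 500) (.leaf 523)),
  .sy c345x (.leaf 492) (.sy c858x (.leaf 493) (.leaf 520)),
  .sy c858x (.leaf 494) (.leaf 521),
  .sy c858x (.leaf 503) (.leaf 524),
  .sy c858x (.leaf 514) (.leaf 518),
  .sy c858x (.leaf 516) (.leaf 519),
  .leaf 525,
  .leaf 527,
  .leaf 528,
  .sy c858x (.leaf 515) (.leaf 529),
  .leaf 526,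
  .leaf 530,
  .leaf 531,
  .leaf 532,
  .leaf 533,
  .leaf 534,
  .sy c576x (.leaf 535) (.leaf 546),
  .sy c576x (.leaf 536) (.leaf 547),
  .sy c576x (.leaf 537) (.sy c396x (.leaf 548) (.leaf 549)),
  .sy c576x (.leaf 538) (.leaf 550),
  .sy c576x (.leaf 539) (.sy c396x (.leaf 551) (.leaf 552)),
  .leaf 540,
  .sy c576x (.leaf 542) (.leaf 561),
  .sy c576x (.leaf 543) (.leaf 562),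
  .sy c576x (.leaf 541) (.sy c396x (.leaf 556) (.leaf 558)),
  .sy c576x (.leaf 574) (.leaf 575),
  .sy c576x (.leaf 545) (.leaf 576),
  .leaf 553,
  .leaf 554,
  .leaf 555,
  .sy c396x (.leaf 557) (.leaf 559),
  .leaf 560,
  .sy c576x (.leaf 544) (.sy c396x (.leaf 563) (.leaf 566)),
  .sy c576x (.leaf 568) (.leaf 569),
  .sy c576x (.leaf 577) (.leaf 578),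
  .sy c576x (.leaf 579) (.leaf 581),
  .sy c576x (.leaf 580) (.sy c396x (.leaf 583) (.leaf 584)),
  .sy c576x (.leaf 572) (.sy c396x (.leaf 573) (.leaf 594)),
  .sy c576x (.leaf 582) (.sy c396x (.leaf 585) (.leaf 595)),
  .sy c396x (.leaf 565) (.leaf 588),
  .sy c396x (.leaf 564) (.leaf 589),
  .sy c396x (.leaf 567) (.leaf 591),
  .sy c576x (.leaf 570) (.sy c396x (.leaf 571) (.leaf 593)),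
  .sy c396x (.leaf 587) (.leaf 597),
  .leaf 590,
  .leaf 592,
  .sy c396x (.leaf 586) (.leaf 596),
  .leaf 599,
  .leaf 598,
  .leaf 601,
  .sy c450x (.leaf 603) (.leaf 630),
  .sy c450x (.leaf 604) (.leaf 631),
  .leaf 605,
  .sy c450x (.leaf 606) (.leaf 619),
  .leaf 600,
  .sy c450x (.leaf 607) (.sy c517x (.leaf 634) (.leaf 637)),
  .leaf 602,
  .sy c450x (.leaf 610) (.leaf 622),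
  .sy c450x (.leaf 611) (.leaf 650),
  .sy c450x (.leaf 608) (.sy c517x (.leaf 635) (.leaf 638)),
  .sy c450x (.leaf 609) (.sy c517x (.leaf 648) (.leaf 649)),
  .leaf 612,
  .sy c450x (.leaf 614) (.leaf 651),
  .sy c450x (.leaf 615) (.leaf 652),
  .leaf 616,
  .sy c450x (.leaf 617) (.leaf 623),
  .leaf 618,
  .sy c517x (.leaf 632) (.leaf 633),
  .sy c517x (.leaf 636) (.leaf 639),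
  .sy c517x (.leaf 640) (.leaf 641),
  .sy c517x (.leaf 642) (.leaf 643),
  .sy c450x (.leaf 620) (.sy c517x (.leaf 645) (.leaf 647)),
  .sy c517x (.leaf 644) (.leaf 646),
  .sy c450x (.leaf 621) (.sy c517x (.leaf 655) (.leaf 658)),
  .sy c450x (.leaf 624) (.sy c517x (.leaf 656) (.leaf 659)),
  .leaf 613,
  .sy c450x (.leaf 625) (.sy c517x (.leaf 669) (.leaf 670)),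
  .sy c450x (.leaf 626) (.leaf 629),
  .sy c450x (.leaf 627) (.leaf 671),
  .sy c517x (.leaf 653) (.leaf 654),
  .sy c517x (.leaf 657) (.leaf 660),
  .sy c517x (.leaf 661) (.leaf 662),
  .sy c517x (.leaf 663) (.leaf 664),
  .sy c450x (.leaf 628) (.sy c517x (.leaf 666) (.leaf 668)),
  .sy c517x (.leaf 665) (.leaf 667)]

def t0x : Tr :=
  .sx c81x (.sx c841x (.sx c802x (.sx c530x (.sy c526x (.sx c527x (.sx c528x (.sy c529x (.leaf 3) (.leaf 46)) (.leaf 45)) (.sy c531x (.sx c532x (.leaf 9) (.sx c533x (.leaf 10) (.leaf 11))) (.leaf 44))) (.sx c527x (.sx c528x (.sy c536x (.leaf 470) (.leaf 504)) (.leaf 474)) (.sy c60x (.leaf 469) (.sx c532x (.leaf 511) (.sx c533x (.leaf 512) (.leaf 513)))))) (.sx c8x (.sx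 c534x (.sy c526x (.leaf 43) (.leaf 473)) (.sy c526x (.leaf 42) (.leaf 472))) (.sx c582x (.sy c545x (.sx c524x (.sx c546x (.leaf 466) (.leaf 461)) (.sx c583x (.leaf 460) (.leaf 459))) (.leaf 517)) (.sy c545x (.sx c581x (.leaf 458) (.sy c803x (.sx c473x (.leaf 21) (.leaf 24)) (.leaf 465))) (.leaf 517))))) (.sx c27x (.sx c808x (.sy c545x (.sx c804x (.sy c805x (.sx c39x (.leaf 22) (.leaf 26)) (.leaf 464)) (.sx c806x (.sy c807x (.leaf 28) (.leaf 467)) (.sy c809x (.leaf 31) (.leaf 463)))) (.leaf 517)) (.sy c545x (.sx c813x (.sx c801x (.leaf 457) (.sy c531x (.sx c814x (.leaf 33) (.sx c815x (.leaf 34) (.leaf 36))) (.leaf 462))) (.sx c816x (.leaf 456) (.leaf 455))) (.leaf 517))) (.sx c817x (.sy c526x (.leaf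 454) (.sx c818x (.sx c819x (.leaf 518) (.leaf 519)) (.sx c820x (.leaf 520) (.sx c823x (.leaf 521) (.leaf 522))))) (.sy c526x (.leaf 454) (.sx c840x (.sy c715x (.leaf 525) (.sx c827x (.leaf 88) (.leaf 92))) (.sx c828x (.sy c864x (.leaf 526) (.sx c49x (.leaf 93) (.leaf 97))) (.sy c714x (.leaf 530) (.leaf 98)))))))) (.sx c865x (.sx c837x (.sx c57x (.sy c526x (.leaf 454) (.sx c830x (.sx c825x (.sy c866x (.leaf 527) (.leaf 96)) (.leaf 523)) (.sx c829x (.sy c60x (.leaf 528) (.sx c843x (.leaf 103) (.sx c842x (.leaf 104) (.leaf 120)))) (.sx c831x (.leaf 524) (.leaf 529))))) (.sy c545x (.sx c833x (.leaf 535) (.sx c834x (.leaf 536) (.leaf 537))) (.leaf 121))) (.sx c867x (.sy c545x (.sx c868x (.sx c836x (.sx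 c838x (.leaf 538) (.leaf 539)) (.sy c803x (.sx c785x (.leaf 439) (.leaf 436)) (.leaf 532))) (.sy c805x (.sx c69x (.leaf 437) (.leaf 434)) (.leaf 533))) (.leaf 121)) (.sy c545x (.sx c869x (.sy c807x (.leaf 431) (.leaf 531)) (.sx c870x (.sy c809x (.leaf 429) (.leaf 540)) (.leaf 541))) (.leaf 121)))) (.sx c871x (.sx c476x (.sy c545x (.sx c872x (.sy c531x (.sx c873x (.sx c874x (.leaf 427) (.leaf 426)) (.leaf 424)) (.leaf 534)) (.sx c875x (.leaf 542) (.leaf 543))) (.leaf 121)) (.sx c876x (.sy c526x (.leaf 544) (.sx c877x (.sx c878x (.leaf 122) (.leaf 123)) (.sx c879x (.leaf 124) (.leaf 125)))) (.sy c526x (.leaf 544) (.sx c880x (.leaf 126) (.sy c715x (.leaf 131) (.sx c881x (.leaf 373) (.leaf 370))))))) (.sx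 c882x (.sy c526x (.leaf 544) (.sx c883x (.sy c864x (.leaf 133) (.sx c78x (.leaf 368) (.leaf 367))) (.sx c884x (.sy c714x (.leaf 134) (.leaf 364)) (.sy c866x (.leaf 127) (.leaf 363))))) (.sy c526x (.leaf 544) (.sx c885x (.sx c886x (.leaf 128) (.sy c60x (.leaf 132) (.sx c887x (.sx c888x (.leaf 359) (.leaf 358)) (.leaf 357)))) (.sx c889x (.leaf 129) (.leaf 130)))))))) (.sx c890x (.sx c891x (.sx c892x (.sx c893x (.sy c545x (.sx c894x (.sx c895x (.leaf 136) (.leaf 137)) (.sx c896x (.leaf 138) (.sx c897x (.leaf 139) (.leaf 140)))) (.leaf 344)) (.sy c545x (.sx c898x (.sy c803x (.sx c899x (.leaf 568) (.leaf 570)) (.leaf 141)) (.sx c900x (.sy c805x (.sx c98x (.leaf 572) (.leaf 574)) (.leaf 142)) (.sy c807x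 (.leaf 545) (.leaf 135)))) (.leaf 344))) (.sx c135x (.sy c545x (.sx c901x (.sx c902x (.sy c809x (.leaf 577) (.leaf 143)) (.leaf 144)) (.sx c903x (.sy c531x (.sx c904x (.leaf 579) (.sx c905x (.leaf 580) (.leaf 582))) (.leaf 145)) (.sx c906x (.leaf 146) (.leaf 147)))) (.leaf 344)) (.sy c526x (.leaf 148) (.sx c907x (.sx c908x (.sx c909x (.leaf 342) (.leaf 341)) (.leaf 340)) (.sx c910x (.leaf 339) (.leaf 338)))))) (.sx c480x (.sx c911x (.sy c526x (.leaf 148) (.sx c912x (.sy c715x (.leaf 335) (.sx c913x (.leaf 633) (.leaf 637))) (.sx c914x (.sy c864x (.leaf 334) (.sx c123x (.leaf 638) (.leaf 639))) (.sy c714x (.leaf 333) (.leaf 641))))) (.sy c526x (.leaf 148) (.sx c915x (.sx c916x (.sy c866x (.leaf 332)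 (.leaf 643)) (.leaf 337)) (.sx c917x (.sy c60x (.leaf 331) (.sx c918x (.leaf 646) (.sx c919x (.leaf 647) (.leaf 649)))) (.sx c920x (.leaf 336) (.leaf 330)))))) (.sy c545x (.sx c921x (.sx c922x (.sx c923x (.leaf 324) (.leaf 323)) (.leaf 322)) (.sx c924x (.leaf 321) (.leaf 320))) (.sx c922x (.sx c923x (.leaf 252) (.leaf 253)) (.sx c921x (.leaf 254) (.sx c924x (.leaf 255) (.leaf 256))))))) (.sx c925x (.sy c545x (.sx c926x (.sx c927x (.sy c803x (.sx c928x (.leaf 158) (.leaf 159)) (.leaf 329)) (.sx c929x (.sy c805x (.sx c124x (.leaf 160) (.leaf 161)) (.leaf 328)) (.sy c807x (.leaf 162) (.leaf 327)))) (.sx c930x (.sx c931x (.sy c809x (.leaf 163) (.leaf 326)) (.leaf 319)) (.sy c531x (.sx c932x (.leaf 164)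 (.sx c933x (.leaf 166) (.leaf 167))) (.leaf 325)))) (.sx c926x (.sx c927x (.sy c715x (.leaf 262) (.sx c928x (.leaf 654) (.leaf 658))) (.sx c929x (.sy c864x (.leaf 264) (.sx c124x (.leaf 659) (.leaf 660))) (.sy c714x (.leaf 265) (.leaf 662)))) (.sx c930x (.sx c931x (.sy c866x (.leaf 257) (.leaf 664)) (.leaf 258)) (.sy c60x (.leaf 263) (.sx c932x (.leaf 667) (.sx c933x (.leaf 668) (.leaf 670))))))) (.sx c934x (.sx c484x (.sx c935x (.sy c545x (.leaf 318) (.leaf 259)) (.sx c127x (.sy c545x (.leaf 317) (.leaf 260)) (.sy c526x (.leaf 316) (.leaf 266)))) (.sy c545x (.sx c936x (.leaf 267) (.sx c937x (.leaf 268) (.leaf 273))) (.sx c937x (.sx c936x (.leaf 236) (.leaf 235)) (.leaf 234)))) (.sy c545x (.sy c19x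 (.sy c529x (.sx c938x (.leaf 280) (.leaf 301)) (.leaf 315)) (.sx c939x (.leaf 269) (.sy c528x (.leaf 300) (.leaf 270)))) (.sy c620x (.sx c939x (.leaf 209) (.sy c618x (.leaf 208) (.leaf 245))) (.sy c536x (.leaf 261) (.sx c938x (.leaf 237) (.leaf 244))))))))

def t1x : Tr :=
  .sx c81x (.sx c828x (.sx c473x (.sx c530x (.sy c526x (.sx c533x (.sy c19x (.sy c529x (.sx c532x (.leaf 6) (.leaf 14)) (.leaf 7)) (.sx c529x (.sy c528x (.leaf 8) (.leaf 49)) (.leaf 50))) (.leaf 51)) (.sx c533x (.sy c620x (.sx c529x (.sy c618x (.leaf 468) (.leaf 509)) (.leaf 471)) (.sy c536x (.leaf 508) (.sx c532x (.leaf 507) (.leaf 486)))) (.leaf 477))) (.sx c8x (.sx c534x (.sy c526x (.leaf 52) (.leaf 478)) (.sy c526x (.leaf 53)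 (.leaf 479))) (.sx c583x (.sy c545x (.sx c524x (.sx c546x (.leaf 54) (.leaf 55)) (.sy c531x (.leaf 449) (.leaf 57))) (.leaf 480)) (.sy c545x (.sx c582x (.leaf 56) (.sy c529x (.sx c581x (.leaf 419) (.leaf 418)) (.leaf 63))) (.leaf 480))))) (.sx c27x (.sx c804x (.sy c545x (.sx c39x (.sx c802x (.leaf 58) (.leaf 59)) (.sy c528x (.leaf 417) (.leaf 65))) (.leaf 480)) (.sy c545x (.sx c815x (.sy c19x (.sx c814x (.sx c801x (.sx c808x (.leaf 416) (.leaf 415)) (.leaf 414)) (.sy c529x (.leaf 38) (.leaf 413))) (.leaf 64)) (.sx c813x (.leaf 60) (.sx c816x (.leaf 61) (.leaf 62)))) (.leaf 480))) (.sx c823x (.sy c526x (.leaf 412) (.sx c818x (.sx c819x (.leaf 68) (.leaf 69)) (.sx c820x (.sy c60x (.leaf 70) (.leaf 492))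 (.leaf 71)))) (.sy c526x (.leaf 412) (.sx c827x (.sy c536x (.leaf 72) (.sx c817x (.leaf 495) (.leaf 496))) (.sx c49x (.sx c840x (.leaf 73) (.leaf 74)) (.sy c618x (.leaf 66) (.leaf 481)))))))) (.sx c873x (.sx c837x (.sx c57x (.sy c526x (.leaf 412) (.sx c842x (.sy c620x (.leaf 67) (.sx c843x (.sx c825x (.leaf 498) (.sx c830x (.leaf 499) (.leaf 501))) (.sy c536x (.leaf 482) (.leaf 99)))) (.sx c829x (.leaf 75) (.sx c831x (.leaf 76) (.leaf 77))))) (.sy c545x (.sx c834x (.sx c833x (.leaf 411) (.leaf 410)) (.sy c531x (.leaf 549) (.leaf 409))) (.leaf 78))) (.sx c867x (.sx c785x (.sy c545x (.sx c838x (.leaf 407) (.sy c529x (.sx c836x (.leaf 552) (.leaf 553)) (.leaf 403))) (.leaf 78)) (.sy c545x (.sx c69x (.sx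 c868x (.leaf 406) (.leaf 405)) (.sy c528x (.leaf 554) (.leaf 402))) (.leaf 78))) (.sy c19x (.sx c874x (.sx c870x (.leaf 555) (.sx c865x (.leaf 558) (.leaf 559))) (.sy c529x (.leaf 408) (.leaf 560))) (.sy c545x (.leaf 401) (.leaf 78))))) (.sx c881x (.sx c476x (.sy c545x (.sx c875x (.sx c872x (.leaf 404) (.leaf 400)) (.leaf 399)) (.leaf 78)) (.sx c879x (.sy c526x (.leaf 566) (.sx c877x (.sx c878x (.leaf 398) (.leaf 397)) (.sy c60x (.leaf 396) (.leaf 108)))) (.sy c526x (.leaf 566) (.sx c876x (.leaf 392) (.sy c536x (.leaf 395) (.sx c880x (.leaf 110) (.leaf 112))))))) (.sx c883x (.sy c526x (.leaf 566) (.sx c78x (.sx c871x (.leaf 391) (.leaf 390)) (.sy c618x (.leaf 394) (.leaf 79)))) (.sy c526x (.leaf 566)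 (.sx c887x (.sy c620x (.leaf 393) (.sx c886x (.sx c882x (.leaf 80) (.leaf 81)) (.sx c888x (.leaf 83) (.sy c536x (.leaf 82) (.leaf 388))))) (.sx c889x (.sx c885x (.leaf 389) (.leaf 387)) (.leaf 386)))))))) (.sx c921x (.sx c907x (.sx c900x (.sx c897x (.sy c545x (.sx c894x (.sx c895x (.leaf 588) (.leaf 589)) (.sx c896x (.sy c531x (.leaf 168) (.leaf 590)) (.leaf 591))) (.leaf 385)) (.sy c545x (.sx c899x (.sy c529x (.sx c893x (.leaf 169) (.leaf 170)) (.leaf 592)) (.sx c98x (.sx c898x (.leaf 593) (.leaf 594)) (.sy c528x (.leaf 189) (.leaf 598)))) (.leaf 385))) (.sx c135x (.sy c545x (.sx c905x (.sy c19x (.sx c901x (.sx c902x (.leaf 171) (.leaf 172)) (.sx c904x (.leaf 174) (.sy c529x (.leaf 584) (.leaf 190))))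 (.leaf 599)) (.sx c903x (.leaf 595) (.sx c906x (.leaf 596) (.leaf 597)))) (.leaf 385)) (.sy c526x (.leaf 191) (.sx c908x (.sx c909x (.leaf 603) (.leaf 604)) (.sy c60x (.leaf 605) (.leaf 352)))))) (.sx c919x (.sx c914x (.sx c913x (.sy c526x (.leaf 191) (.sx c910x (.leaf 606) (.sy c536x (.leaf 600) (.sx c891x (.leaf 382) (.leaf 381))))) (.sy c526x (.leaf 191) (.sx c123x (.sx c912x (.leaf 607) (.leaf 608)) (.sy c618x (.leaf 601) (.leaf 384))))) (.sy c620x (.sy c526x (.leaf 191) (.leaf 602)) (.sx c915x (.sx c916x (.leaf 380) (.leaf 379)) (.sx c918x (.leaf 378) (.sy c536x (.leaf 383) (.leaf 620)))))) (.sx c923x (.sx c480x (.sy c526x (.leaf 191) (.sx c917x (.leaf 609) (.sx c920x (.leaf 610) (.leaf 611))))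 (.sy c545x (.leaf 192) (.leaf 614))) (.sy c545x (.sx c922x (.leaf 193) (.sy c531x (.leaf 293) (.leaf 199))) (.sx c922x (.leaf 615) (.sy c60x (.leaf 616) (.leaf 212))))))) (.sx c933x (.sy c545x (.sx c124x (.sx c928x (.sx c924x (.leaf 194) (.sy c529x (.sx c890x (.leaf 292) (.leaf 291)) (.leaf 200))) (.sx c927x (.leaf 195) (.leaf 196))) (.sx c929x (.sy c528x (.leaf 287) (.leaf 201)) (.sy c19x (.sx c932x (.sx c930x (.sx c931x (.leaf 290) (.leaf 289)) (.leaf 286)) (.sy c529x (.leaf 185) (.leaf 285))) (.leaf 202)))) (.sx c124x (.sx c928x (.sx c924x (.leaf 617) (.sy c536x (.leaf 618) (.sx c890x (.leaf 215) (.leaf 217)))) (.sx c927x (.leaf 621) (.leaf 624))) (.sx c929x (.sy c618x (.leaf 612) (.leaf 218)) (.sy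 c620x (.leaf 613) (.sx c930x (.sx c931x (.leaf 219) (.leaf 220)) (.sx c932x (.leaf 222) (.sy c536x (.leaf 221) (.leaf 628)))))))) (.sx c937x (.sx c127x (.sy c545x (.sx c925x (.leaf 197) (.sx c935x (.leaf 198) (.leaf 203))) (.sx c925x (.leaf 625) (.sx c935x (.leaf 626) (.leaf 627)))) (.sx c484x (.sy c526x (.leaf 284) (.leaf 204)) (.sx c936x (.sy c545x (.leaf 283) (.leaf 205)) (.sy c545x (.leaf 277) (.leaf 228))))) (.sy c545x (.sx c940x (.sy c531x (.sx c934x (.leaf 296) (.sx c938x (.leaf 298) (.leaf 299))) (.leaf 272)) (.sx c941x (.leaf 276) (.sy c529x (.leaf 304) (.leaf 271)))) (.sx c940x (.sy c60x (.leaf 206) (.sx c938x (.sx c934x (.leaf 251) (.leaf 250)) (.leaf 249))) (.sx c941x (.leaf 231) (.sy c536x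 (.leaf 207) (.leaf 241))))))))

def t2x : Tr :=
  .sx c649x (.sy c526x (.leaf 47) (.leaf 475)) (.sy c526x (.leaf 48) (.leaf 476))

def t3x : Tr :=
  .sx c650x (.sy c545x (.leaf 274) (.leaf 233)) (.sy c545x (.leaf 275) (.leaf 232))

def t4x : Tr :=
  .sy c81x (.sy c813x (.sy c524x (.sy c534x (.sy c532x (.sx c649x (.sy c528x (.leaf 4) (.sy c527x (.leaf 2) (.leaf 12))) (.leaf 5)) (.sy c530x (.sy c533x (.leaf 13) (.leaf 15)) (.sx c650x (.leaf 1) (.leaf 16)))) (.sy c8x (.sx c4x (.leaf 0) (.leaf 17)) (.sy c546x (.sx c4x (.leaf 452) (.leaf 18)) (.sx c649x (.leaf 453) (.leaf 19))))) (.sy c39x (.sy c582x (.sy c583x (.leaf 450) (.sx c650x (.leaf 448) (.leaf 20))) (.sy c473x (.sy c581x (.leaf 447) (.leaf 23))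 (.sy c802x (.leaf 25) (.leaf 27)))) (.sy c801x (.sy c806x (.sy c804x (.leaf 29) (.leaf 30)) (.sy c808x (.leaf 32) (.leaf 446))) (.sy c814x (.sx c649x (.leaf 35) (.leaf 445)) (.sy c815x (.leaf 37) (.leaf 39)))))) (.sy c868x (.sy c833x (.sy c27x (.sy c816x (.sx c650x (.leaf 444) (.leaf 40)) (.sx c4x (.leaf 451) (.leaf 41))) (.sy c57x (.leaf 443) (.sx c4x (.leaf 546) (.leaf 442)))) (.sy c837x (.sy c834x (.sx c649x (.leaf 547) (.leaf 441)) (.leaf 548)) (.sy c836x (.sy c838x (.sx c650x (.leaf 550) (.leaf 440)) (.leaf 551)) (.sy c785x (.leaf 438) (.leaf 435))))) (.sy c874x (.sy c869x (.sy c867x (.sy c69x (.leaf 433) (.leaf 432)) (.leaf 430)) (.sy c865x (.sy c870x (.leaf 428) (.leaf 556)) (.sx c649x (.leaf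 425) (.leaf 557)))) (.sy c875x (.sy c872x (.sy c873x (.leaf 423) (.leaf 422)) (.sx c650x (.leaf 561) (.leaf 421))) (.sy c476x (.sx c4x (.leaf 562) (.leaf 420)) (.leaf 563)))))) (.sy c921x (.sy c902x (.sy c897x (.sy c894x (.sy c895x (.sx c4x (.leaf 149) (.leaf 565)) (.sx c649x (.leaf 150) (.leaf 564))) (.sy c896x (.leaf 152) (.sx c650x (.leaf 153) (.leaf 567)))) (.sy c898x (.sy c893x (.leaf 154) (.sy c899x (.leaf 569) (.leaf 571))) (.sy c900x (.sy c98x (.leaf 573) (.leaf 575)) (.sy c892x (.leaf 576) (.leaf 578))))) (.sy c906x (.sy c904x (.sy c901x (.leaf 155) (.sx c649x (.leaf 581) (.leaf 173))) (.sy c903x (.sy c905x (.leaf 583) (.leaf 585)) (.sx c650x (.leaf 156) (.leaf 586)))) (.sy c480x (.sy c135x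 (.sx c4x (.leaf 151) (.leaf 587)) (.leaf 157)) (.sy c923x (.sx c4x (.leaf 314) (.leaf 175)) (.sy c922x (.sx c649x (.leaf 313) (.leaf 176)) (.leaf 312)))))) (.sy c925x (.sy c929x (.sy c890x (.sy c924x (.sx c650x (.leaf 311) (.leaf 177)) (.leaf 310)) (.sy c927x (.sy c928x (.leaf 178) (.leaf 179)) (.sy c124x (.leaf 180) (.leaf 181)))) (.sy c930x (.sy c926x (.leaf 182) (.sy c931x (.leaf 183) (.leaf 309))) (.sy c932x (.sx c649x (.leaf 165) (.leaf 308)) (.sy c933x (.leaf 184) (.leaf 186))))) (.sy c936x (.sy c127x (.sy c935x (.sx c650x (.leaf 307) (.leaf 187)) (.sx c4x (.leaf 306) (.leaf 188))) (.sy c484x (.leaf 305) (.sx c4x (.leaf 278) (.leaf 288)))) (.sy c938x (.sy c937x (.sx c649x (.leaf 279) (.leaf 282))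 (.sy c934x (.leaf 294) (.leaf 295))) (.sx c650x (.leaf 303) (.sy c940x (.leaf 297) (.sy c941x (.leaf 281) (.leaf 302))))))))

def t5x : Tr :=
  .sy c81x (.sy c842x (.sy c818x (.sy c534x (.sy c532x (.sx c649x (.sy c528x (.leaf 505) (.sy c527x (.leaf 485) (.leaf 510))) (.leaf 506)) (.sy c530x (.sy c533x (.leaf 487) (.leaf 488)) (.sx c650x (.leaf 484) (.leaf 489)))) (.sy c27x (.sy c8x (.sx c4x (.leaf 483) (.leaf 490)) (.leaf 491)) (.sy c819x (.sx c4x (.leaf 514) (.leaf 84)) (.sx c649x (.leaf 516) (.leaf 85))))) (.sy c49x (.sy c823x (.sy c820x (.leaf 493) (.sx c650x (.leaf 494) (.leaf 86))) (.sy c827x (.sy c817x (.leaf 497) (.leaf 87)) (.sy c840x (.leaf 89) (.leaf 90)))) (.sy c825x (.sy c828x (.leaf 91)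 (.sy c841x (.leaf 94) (.leaf 95))) (.sy c843x (.sy c830x (.leaf 500) (.sx c649x (.leaf 102) (.leaf 502))) (.leaf 100))))) (.sy c880x (.sy c476x (.sy c831x (.sy c829x (.leaf 101) (.sx c650x (.leaf 503) (.leaf 105))) (.sy c57x (.sx c4x (.leaf 515) (.leaf 106)) (.leaf 107))) (.sy c877x (.sy c878x (.sx c4x (.leaf 115) (.leaf 377)) (.sx c649x (.leaf 116) (.leaf 376))) (.sy c879x (.leaf 109) (.sy c876x (.sx c650x (.leaf 117) (.leaf 375)) (.leaf 111))))) (.sy c886x (.sy c883x (.sy c871x (.sy c881x (.leaf 374) (.leaf 372)) (.sy c78x (.leaf 371) (.leaf 369))) (.sy c882x (.sy c884x (.leaf 366) (.leaf 365)) (.leaf 113))) (.sy c885x (.sy c888x (.sx c649x (.leaf 362) (.leaf 114)) (.sy c887x (.leaf 361) (.leaf 360)))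 (.sy c889x (.sx c650x (.leaf 118) (.leaf 356)) (.sx c4x (.leaf 119) (.leaf 355))))))) (.sy c921x (.sy c916x (.sy c910x (.sy c909x (.sy c135x (.leaf 354) (.sx c4x (.leaf 353) (.leaf 630))) (.sy c908x (.sx c649x (.leaf 345) (.leaf 631)) (.sy c907x (.leaf 351) (.sx c650x (.leaf 350) (.leaf 619))))) (.sy c912x (.sy c891x (.leaf 349) (.sy c913x (.leaf 632) (.leaf 634))) (.sy c914x (.sy c123x (.leaf 635) (.leaf 636)) (.sy c911x (.leaf 640) (.leaf 642))))) (.sy c920x (.sy c918x (.sy c915x (.leaf 348) (.sx c649x (.leaf 644) (.leaf 347))) (.sy c917x (.sy c919x (.leaf 645) (.leaf 648)) (.sx c650x (.leaf 346) (.leaf 622)))) (.sy c923x (.sx c4x (.sy c480x (.leaf 343) (.leaf 210)) (.sy c480x (.leaf 650) (.leaf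 651))) (.sy c922x (.sx c649x (.leaf 211) (.leaf 652)) (.leaf 213))))) (.sy c925x (.sy c929x (.sy c890x (.sy c924x (.sx c650x (.leaf 214) (.leaf 623)) (.leaf 216)) (.sy c927x (.sy c928x (.leaf 653) (.leaf 655)) (.sy c124x (.leaf 656) (.leaf 657)))) (.sy c930x (.sy c931x (.sy c926x (.leaf 661) (.leaf 663)) (.leaf 223)) (.sy c932x (.sx c649x (.leaf 665) (.leaf 224)) (.sy c933x (.leaf 666) (.leaf 669))))) (.sy c936x (.sy c127x (.sy c935x (.sx c650x (.leaf 225) (.leaf 629)) (.sx c4x (.leaf 226) (.leaf 671))) (.sy c484x (.leaf 227) (.sx c4x (.leaf 240) (.leaf 229)))) (.sy c938x (.sy c937x (.sx c649x (.leaf 239) (.leaf 230)) (.sy c934x (.leaf 248) (.leaf 247))) (.sx c650x (.leaf 243) (.sy c940x (.leaf 246)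 (.sy c941x (.leaf 238) (.leaf 242))))))))

def bx : BoxData := ⟨c468x, c847x, c537x, own, ps, ct, t0x, t1x, t2x, t3x, t4x, t5x⟩

end Pool.Agent.Box4.BD
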