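import Pool.Agent.Box4.Num
set_option linter.all false
set_option autoImplicit false

namespace Pool.Agent.Box4

open Pool.Agent.Box3

def cs : List R := [
  ⟨c1x, c2x, c3x, c4x⟩,
  ⟨c2x, c5x, c6x, c4x⟩,
  ⟨c7x, c8x, c9x, c4x⟩,
  ⟨c5x, c10x, c11x, c4x⟩,
  ⟨c12x, c1x, c3x, c13x⟩,
  ⟨c14x, c15x, c14x, c13x⟩,
  ⟨c15x, c16x, c17x, c13x⟩,
  ⟨c16x, c18x, c19x, c13x⟩,
  ⟨c18x, c20x, c21x, c13x⟩,
  ⟨c8x, c12x, c9x, c13x⟩,
  ⟨c20x, c8x, c22x, c13x⟩,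
  ⟨c23x, c24x, c25x, c17x⟩,
  ⟨c26x, c27x, c9x, c4x⟩,
  ⟨c28x, c29x, c3x, c4x⟩,
  ⟨c29x, c30x, c6x, c4x⟩,
  ⟨c30x, c31x, c11x, c4x⟩,
  ⟨c32x, c33x, c25x, c17x⟩,
  ⟨c24x, c34x, c25x, c22x⟩,
  ⟨c33x, c35x, c25x, c22x⟩,
  ⟨c34x, c36x, c25x, c13x⟩,
  ⟨c2x, c34x, c37x, c13x⟩,
  ⟨c36x, c38x, c21x, c13x⟩,
  ⟨c38x, c39x, c14x, c13x⟩,
  ⟨c1x, c2x, c40x, c13x⟩,
  ⟨c41x, c42x, c17x, c43x⟩,
  ⟨c39x, c41x, c14x, c43x⟩,
  ⟨c42x, c44x, c19x, c43x⟩,
  ⟨c44x, c45x, c21x, c43x⟩,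
  ⟨c46x, c28x, c3x, c43x⟩,
  ⟨c27x, c46x, c9x, c43x⟩,
  ⟨c45x, c27x, c22x, c43x⟩,
  ⟨c35x, c47x, c25x, c43x⟩,
  ⟨c47x, c48x, c21x, c43x⟩,
  ⟨c48x, c49x, c14x, c43x⟩,
  ⟨c29x, c35x, c37x, c43x⟩,
  ⟨c28x, c29x, c40x, c43x⟩,
  ⟨c50x, c51x, c13x, c52x⟩,
  ⟨c53x, c54x, c13x, c55x⟩,
  ⟨c56x, c57x, c13x, c58x⟩,
  ⟨c51x, c59x, c13x, c60x⟩,
  ⟨c49x, c61x, c13x, c62x⟩,
  ⟨c61x, c53x, c13x, c63x⟩,
  ⟨c54x, c56x, c13x, c64x⟩,
  ⟨c57x, c65x, c13x, c66x⟩,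
  ⟨c67x, c68x, c13x, c64x⟩,
  ⟨c68x, c69x, c13x, c62x⟩,
  ⟨c65x, c50x, c13x, c70x⟩,
  ⟨c59x, c67x, c13x, c71x⟩,
  ⟨c72x, c57x, c73x, c66x⟩,
  ⟨c74x, c75x, c73x, c76x⟩,
  ⟨c77x, c59x, c58x, c71x⟩,
  ⟨c69x, c78x, c43x, c79x⟩,
  ⟨c80x, c81x, c58x, c73x⟩,
  ⟨c82x, c83x, c52x, c73x⟩,
  ⟨c83x, c84x, c60x, c73x⟩,
  ⟨c85x, c86x, c60x, c58x⟩,
  ⟨c87x, c85x, c60x, c63x⟩,
  ⟨c50x, c51x, c73x, c70x⟩,
  ⟨c51x, c74x, c73x, c88x⟩,
  ⟨c89x, c77x, c63x, c71x⟩,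
  ⟨c78x, c90x, c62x, c91x⟩,
  ⟨c90x, c92x, c63x, c91x⟩,
  ⟨c92x, c93x, c55x, c91x⟩,
  ⟨c93x, c94x, c64x, c91x⟩,
  ⟨c94x, c80x, c58x, c91x⟩,
  ⟨c95x, c84x, c76x, c91x⟩,
  ⟨c84x, c87x, c60x, c91x⟩,
  ⟨c96x, c97x, c64x, c91x⟩,
  ⟨c97x, c98x, c62x, c91x⟩,
  ⟨c80x, c99x, c66x, c91x⟩,
  ⟨c87x, c96x, c71x, c91x⟩,
  ⟨c99x, c83x, c70x, c91x⟩,
  ⟨c83x, c95x, c88x, c91x⟩,
  ⟨c100x, c101x, c79x, c102x⟩,
  ⟨c98x, c103x, c79x, c104x⟩,
  ⟨c103x, c105x, c79x, c106x⟩,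
  ⟨c107x, c108x, c79x, c109x⟩,
  ⟨c108x, c100x, c79x, c110x⟩,
  ⟨c101x, c111x, c79x, c112x⟩,
  ⟨c113x, c114x, c79x, c115x⟩,
  ⟨c105x, c116x, c79x, c117x⟩,
  ⟨c116x, c118x, c79x, c119x⟩,
  ⟨c118x, c107x, c79x, c120x⟩,
  ⟨c111x, c113x, c79x, c121x⟩,
  ⟨c114x, c122x, c79x, c119x⟩,
  ⟨c122x, c123x, c79x, c104x⟩,
  ⟨c123x, c124x, c91x, c125x⟩,
  ⟨c126x, c127x, c109x, c128x⟩,
  ⟨c129x, c130x, c110x, c128x⟩,
  ⟨c130x, c131x, c102x, c128x⟩,
  ⟨c131x, c132x, c112x, c128x⟩,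
  ⟨c133x, c134x, c115x, c106x⟩,
  ⟨c107x, c135x, c128x, c120x⟩,
  ⟨c136x, c100x, c128x, c137x⟩,
  ⟨c100x, c111x, c128x, c121x⟩,
  ⟨c113x, c138x, c106x, c121x⟩,
  ⟨c138x, c139x, c120x, c121x⟩,
  ⟨c134x, c140x, c115x, c120x⟩,
  ⟨c141x, c129x, c110x, c142x⟩,
  ⟨c140x, c143x, c115x, c142x⟩,
  ⟨c124x, c144x, c104x, c142x⟩,
  ⟨c144x, c145x, c106x, c142x⟩,
  ⟨c127x, c141x, c109x, c142x⟩,
  ⟨c145x, c146x, c117x, c142x⟩,
  ⟨c146x, c147x, c119x, c142x⟩,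
  ⟨c147x, c127x, c120x, c142x⟩,
  ⟨c130x, c140x, c121x, c142x⟩,
  ⟨c143x, c148x, c119x, c142x⟩,
  ⟨c148x, c149x, c104x, c142x⟩,
  ⟨c129x, c130x, c137x, c142x⟩,
  ⟨c150x, c151x, c142x, c152x⟩,
  ⟨c151x, c153x, c142x, c154x⟩,
  ⟨c155x, c156x, c142x, c157x⟩,
  ⟨c156x, c158x, c142x, c159x⟩,
  ⟨c158x, c160x, c142x, c161x⟩,
  ⟨c126x, c127x, c161x, c162x⟩,
  ⟨c129x, c130x, c152x, c162x⟩,
  ⟨c130x, c132x, c154x, c162x⟩,
  ⟨c134x, c140x, c154x, c161x⟩,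
  ⟨c163x, c164x, c142x, c165x⟩,
  ⟨c145x, c146x, c157x, c166x⟩,
  ⟨c146x, c147x, c159x, c166x⟩,
  ⟨c147x, c126x, c161x, c166x⟩,
  ⟨c133x, c134x, c154x, c167x⟩,
  ⟨c149x, c163x, c125x, c168x⟩,
  ⟨c132x, c133x, c154x, c166x⟩,
  ⟨c164x, c155x, c142x, c167x⟩,
  ⟨c160x, c169x, c142x, c170x⟩,
  ⟨c169x, c150x, c142x, c171x⟩,
  ⟨c153x, c172x, c142x, c173x⟩,
  ⟨c172x, c174x, c142x, c159x⟩,
  ⟨c174x, c175x, c142x, c165x⟩,
  ⟨c176x, c160x, c162x, c170x⟩,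
  ⟨c150x, c151x, c162x, c171x⟩,
  ⟨c151x, c177x, c162x, c178x⟩,
  ⟨c177x, c179x, c162x, c180x⟩,
  ⟨c181x, c153x, c161x, c173x⟩,
  ⟨c182x, c181x, c167x, c173x⟩,
  ⟨c124x, c144x, c165x, c166x⟩,
  ⟨c144x, c145x, c167x, c166x⟩,
  ⟨c131x, c132x, c180x, c166x⟩,
  ⟨c143x, c148x, c159x, c166x⟩,
  ⟨c148x, c149x, c165x, c166x⟩,
  ⟨c126x, c141x, c170x, c166x⟩,
  ⟨c141x, c130x, c171x, c166x⟩,
  ⟨c133x, c143x, c173x, c166x⟩,
  ⟨c130x, c131x, c178x, c166x⟩,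
  ⟨c183x, c176x, c166x, c184x⟩,
  ⟨c176x, c160x, c166x, c185x⟩,
  ⟨c163x, c164x, c166x, c186x⟩,
  ⟨c164x, c155x, c166x, c187x⟩,
  ⟨c155x, c183x, c166x, c188x⟩,
  ⟨c150x, c179x, c166x, c189x⟩,
  ⟨c190x, c150x, c166x, c191x⟩,
  ⟨c160x, c190x, c166x, c192x⟩,
  ⟨c179x, c182x, c166x, c187x⟩,
  ⟨c182x, c172x, c166x, c193x⟩,
  ⟨c174x, c175x, c166x, c186x⟩,
  ⟨c172x, c174x, c166x, c194x⟩,
  ⟨c195x, c196x, c184x, c189x⟩,
  ⟨c197x, c198x, c185x, c199x⟩,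
  ⟨c183x, c200x, c189x, c188x⟩,
  ⟨c158x, c201x, c199x, c202x⟩,
  ⟨c150x, c151x, c199x, c191x⟩,
  ⟨c175x, c203x, c168x, c204x⟩,
  ⟨c196x, c205x, c184x, c194x⟩,
  ⟨c200x, c156x, c194x, c188x⟩,
  ⟨c201x, c176x, c199x, c206x⟩,
  ⟨c176x, c160x, c199x, c192x⟩,
  ⟨c203x, c207x, c186x, c208x⟩,
  ⟨c207x, c209x, c187x, c208x⟩,
  ⟨c209x, c205x, c188x, c208x⟩,
  ⟨c210x, c197x, c184x, c199x⟩,
  ⟨c211x, c212x, c189x, c199x⟩,
  ⟨c205x, c210x, c184x, c208x⟩,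
  ⟨c212x, c213x, c189x, c208x⟩,
  ⟨c213x, c214x, c187x, c208x⟩,
  ⟨c214x, c215x, c193x, c208x⟩,
  ⟨c210x, c216x, c202x, c208x⟩,
  ⟨c216x, c197x, c206x, c208x⟩,
  ⟨c197x, c217x, c192x, c208x⟩,
  ⟨c217x, c212x, c191x, c208x⟩,
  ⟨c215x, c218x, c194x, c208x⟩,
  ⟨c218x, c219x, c186x, c208x⟩,
  ⟨c220x, c221x, c204x, c222x⟩,
  ⟨c223x, c224x, c204x, c225x⟩,
  ⟨c224x, c226x, c204x, c227x⟩,
  ⟨c226x, c228x, c204x, c229x⟩,
  ⟨c228x, c230x, c204x, c231x⟩,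
  ⟨c219x, c232x, c204x, c233x⟩,
  ⟨c232x, c220x, c204x, c234x⟩,
  ⟨c221x, c223x, c204x, c235x⟩,
  ⟨c236x, c221x, c237x, c235x⟩,
  ⟨c223x, c226x, c238x, c235x⟩,
  ⟨c239x, c230x, c238x, c240x⟩,
  ⟨c241x, c242x, c204x, c234x⟩,
  ⟨c243x, c244x, c204x, c237x⟩,
  ⟨c244x, c245x, c204x, c233x⟩,
  ⟨c242x, c243x, c204x, c246x⟩,
  ⟨c230x, c241x, c204x, c240x⟩,
  ⟨c247x, c248x, c227x, c238x⟩,
  ⟨c245x, c249x, c208x, c250x⟩,
  ⟨c251x, c252x, c222x, c237x⟩,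
  ⟨c253x, c251x, c222x, c240x⟩,
  ⟨c254x, c247x, c225x, c238x⟩,
  ⟨c248x, c255x, c229x, c238x⟩,
  ⟨c256x, c257x, c231x, c238x⟩,
  ⟨c258x, c236x, c240x, c235x⟩,
  ⟨c226x, c259x, c238x, c260x⟩,
  ⟨c249x, c261x, c233x, c262x⟩,
  ⟨c261x, c263x, c234x, c262x⟩,
  ⟨c263x, c253x, c222x, c262x⟩,
  ⟨c255x, c264x, c229x, c262x⟩,
  ⟨c264x, c256x, c231x, c262x⟩,
  ⟨c265x, c266x, c234x, c262x⟩,
  ⟨c266x, c267x, c246x, c262x⟩,
  ⟨c267x, c268x, c237x, c262x⟩,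
  ⟨c268x, c269x, c233x, c262x⟩,
  ⟨c253x, c248x, c235x, c262x⟩,
  ⟨c248x, c255x, c260x, c262x⟩,
  ⟨c256x, c265x, c240x, c262x⟩,
  ⟨c270x, c271x, c250x, c272x⟩,
  ⟨c271x, c273x, c250x, c274x⟩,
  ⟨c275x, c276x, c250x, c277x⟩,
  ⟨c269x, c278x, c250x, c279x⟩,
  ⟨c278x, c280x, c250x, c281x⟩,
  ⟨c276x, c282x, c250x, c281x⟩,
  ⟨c282x, c283x, c250x, c284x⟩,
  ⟨c283x, c285x, c250x, c286x⟩,
  ⟨c285x, c287x, c250x, c279x⟩,
  ⟨c280x, c270x, c250x, c288x⟩,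
  ⟨c289x, c275x, c250x, c290x⟩,
  ⟨c273x, c289x, c250x, c291x⟩,
  ⟨c270x, c292x, c277x, c288x⟩,
  ⟨c293x, c294x, c295x, c296x⟩,
  ⟨c287x, c297x, c262x, c298x⟩,
  ⟨c299x, c300x, c272x, c277x⟩,
  ⟨c300x, c301x, c272x, c286x⟩,
  ⟨c302x, c303x, c272x, c295x⟩,
  ⟨c303x, c304x, c274x, c295x⟩,
  ⟨c305x, c306x, c277x, c295x⟩,
  ⟨c292x, c307x, c286x, c288x⟩,
  ⟨c271x, c273x, c295x, c291x⟩,
  ⟨c275x, c308x, c295x, c290x⟩,
  ⟨c294x, c271x, c295x, c309x⟩,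
  ⟨c297x, c310x, c279x, c311x⟩,
  ⟨c310x, c312x, c281x, c311x⟩,
  ⟨c301x, c302x, c272x, c311x⟩,
  ⟨c306x, c313x, c277x, c311x⟩,
  ⟨c313x, c314x, c281x, c311x⟩,
  ⟨c314x, c315x, c284x, c311x⟩,
  ⟨c315x, c316x, c286x, c311x⟩,
  ⟨c316x, c317x, c279x, c311x⟩,
  ⟨c312x, c301x, c288x, c311x⟩,
  ⟨c302x, c318x, c296x, c311x⟩,
  ⟨c318x, c303x, c309x, c311x⟩,
  ⟨c303x, c319x, c291x, c311x⟩,
  ⟨c319x, c306x, c290x, c311x⟩,
  ⟨c320x, c321x, c298x, c322x⟩,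
  ⟨c321x, c323x, c298x, c324x⟩,
  ⟨c323x, c325x, c298x, c326x⟩,
  ⟨c327x, c328x, c298x, c329x⟩,
  ⟨c328x, c330x, c298x, c331x⟩,
  ⟨c332x, c333x, c298x, c324x⟩,
  ⟨c317x, c334x, c298x, c335x⟩,
  ⟨c334x, c320x, c298x, c336x⟩,
  ⟨c325x, c337x, c298x, c338x⟩,
  ⟨c330x, c332x, c298x, c339x⟩,
  ⟨c337x, c327x, c298x, c340x⟩,
  ⟨c341x, c330x, c326x, c339x⟩,
  ⟨c333x, c342x, c298x, c335x⟩,
  ⟨c343x, c344x, c329x, c345x⟩,
  ⟨c346x, c347x, c331x, c326x⟩,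
  ⟨c348x, c349x, c326x, c345x⟩,
  ⟨c344x, c350x, c331x, c345x⟩,
  ⟨c351x, c346x, c331x, c336x⟩,
  ⟨c352x, c325x, c345x, c338x⟩,
  ⟨c327x, c328x, c345x, c340x⟩,
  ⟨c328x, c353x, c345x, c354x⟩,
  ⟨c353x, c355x, c345x, c356x⟩,
  ⟨c357x, c341x, c336x, c339x⟩,
  ⟨c342x, c358x, c311x, c359x⟩,
  ⟨c360x, c348x, c326x, c361x⟩,
  ⟨c350x, c351x, c331x, c361x⟩,
  ⟨c362x, c363x, c322x, c361x⟩,
  ⟨c363x, c360x, c324x, c361x⟩,
  ⟨c364x, c365x, c324x, c361x⟩,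
  ⟨c358x, c366x, c335x, c361x⟩,
  ⟨c366x, c362x, c336x, c361x⟩,
  ⟨c348x, c367x, c338x, c361x⟩,
  ⟨c368x, c350x, c356x, c361x⟩,
  ⟨c351x, c364x, c339x, c361x⟩,
  ⟨c365x, c369x, c335x, c361x⟩,
  ⟨c367x, c344x, c340x, c361x⟩,
  ⟨c344x, c368x, c354x, c361x⟩,
  ⟨c370x, c371x, c359x, c372x⟩,
  ⟨c373x, c374x, c359x, c375x⟩,
  ⟨c374x, c370x, c359x, c376x⟩,
  ⟨c377x, c378x, c359x, c379x⟩,
  ⟨c369x, c380x, c359x, c381x⟩,
  ⟨c380x, c382x, c359x, c383x⟩,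
  ⟨c382x, c384x, c359x, c385x⟩,
  ⟨c384x, c386x, c359x, c387x⟩,
  ⟨c386x, c373x, c359x, c388x⟩,
  ⟨c371x, c389x, c359x, c390x⟩,
  ⟨c378x, c391x, c359x, c387x⟩,
  ⟨c391x, c392x, c359x, c381x⟩,
  ⟨c389x, c377x, c359x, c393x⟩,
  ⟨c394x, c395x, c376x, c396x⟩,
  ⟨c395x, c397x, c372x, c396x⟩,
  ⟨c373x, c398x, c396x, c388x⟩,
  ⟨c399x, c370x, c396x, c400x⟩,
  ⟨c370x, c389x, c396x, c393x⟩,
  ⟨c377x, c401x, c383x, c393x⟩,
  ⟨c401x, c402x, c388x, c393x⟩,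
  ⟨c392x, c403x, c361x, c404x⟩,
  ⟨c405x, c406x, c375x, c396x⟩,
  ⟨c397x, c407x, c390x, c396x⟩,
  ⟨c408x, c409x, c379x, c383x⟩,
  ⟨c409x, c410x, c379x, c388x⟩,
  ⟨c411x, c394x, c376x, c412x⟩,
  ⟨c410x, c413x, c379x, c412x⟩,
  ⟨c403x, c414x, c381x, c412x⟩,
  ⟨c414x, c415x, c383x, c412x⟩,
  ⟨c416x, c417x, c387x, c412x⟩,
  ⟨c406x, c411x, c375x, c412x⟩,
  ⟨c418x, c419x, c381x, c412x⟩,
  ⟨c415x, c416x, c385x, c412x⟩,
  ⟨c417x, c406x, c388x, c412x⟩,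
  ⟨c413x, c418x, c387x, c412x⟩,
  ⟨c395x, c410x, c393x, c412x⟩,
  ⟨c394x, c395x, c400x, c412x⟩,
  ⟨c420x, c421x, c404x, c422x⟩,
  ⟨c419x, c423x, c404x, c424x⟩,
  ⟨c423x, c425x, c404x, c426x⟩,
  ⟨c425x, c427x, c404x, c428x⟩,
  ⟨c427x, c429x, c404x, c430x⟩,
  ⟨c429x, c431x, c404x, c432x⟩,
  ⟨c431x, c433x, c404x, c434x⟩,
  ⟨c421x, c435x, c404x, c436x⟩,
  ⟨c437x, c438x, c404x, c430x⟩,
  ⟨c438x, c439x, c404x, c424x⟩,
  ⟨c433x, c420x, c404x, c440x⟩,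
  ⟨c435x, c437x, c404x, c441x⟩,
  ⟨c442x, c443x, c412x, c422x⟩,
  ⟨c439x, c444x, c412x, c424x⟩,
  ⟨c444x, c445x, c412x, c426x⟩,
  ⟨c445x, c446x, c412x, c428x⟩,
  ⟨c446x, c447x, c412x, c430x⟩,
  ⟨c447x, c448x, c412x, c432x⟩,
  ⟨c449x, c431x, c450x, c434x⟩,
  ⟨c420x, c421x, c450x, c440x⟩,
  ⟨c421x, c451x, c450x, c452x⟩,
  ⟨c451x, c453x, c450x, c454x⟩,
  ⟨c455x, c435x, c432x, c441x⟩,
  ⟨c456x, c455x, c426x, c441x⟩,
  ⟨c448x, c457x, c412x, c434x⟩,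
  ⟨c457x, c442x, c412x, c440x⟩,
  ⟨c443x, c458x, c412x, c436x⟩,
  ⟨c458x, c459x, c412x, c441x⟩,
  ⟨c459x, c460x, c412x, c430x⟩,
  ⟨c460x, c461x, c412x, c424x⟩,
  ⟨c462x, c448x, c450x, c434x⟩,
  ⟨c442x, c443x, c450x, c440x⟩,
  ⟨c443x, c463x, c450x, c452x⟩,
  ⟨c463x, c464x, c450x, c454x⟩,
  ⟨c465x, c458x, c432x, c441x⟩,
  ⟨c466x, c465x, c426x, c441x⟩]

def es : List R := [
  ⟨c14x, c15x, c14x, c14x⟩,
  ⟨c15x, c15x, c17x, c14x⟩,
  ⟨c15x, c16x, c17x, c17x⟩,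
  ⟨c16x, c16x, c17x, c19x⟩,
  ⟨c16x, c18x, c19x, c19x⟩,
  ⟨c18x, c18x, c21x, c19x⟩,
  ⟨c18x, c20x, c21x, c21x⟩,
  ⟨c20x, c20x, c21x, c22x⟩,
  ⟨c20x, c8x, c22x, c22x⟩,
  ⟨c8x, c8x, c4x, c22x⟩,
  ⟨c7x, c8x, c4x, c4x⟩,
  ⟨c7x, c7x, c9x, c4x⟩,
  ⟨c7x, c12x, c9x, c9x⟩,
  ⟨c12x, c12x, c3x, c9x⟩,
  ⟨c12x, c2x, c3x, c3x⟩,
  ⟨c2x, c2x, c6x, c3x⟩,
  ⟨c2x, c5x, c6x, c6x⟩,
  ⟨c5x, c5x, c6x, c11x⟩,
  ⟨c5x, c10x, c11x, c11x⟩,
  ⟨c10x, c10x, c11x, c4x⟩,
  ⟨c1x, c10x, c4x, c4x⟩,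
  ⟨c1x, c1x, c4x, c40x⟩,
  ⟨c1x, c2x, c40x, c40x⟩,
  ⟨c2x, c2x, c37x, c40x⟩,
  ⟨c2x, c34x, c37x, c37x⟩,
  ⟨c34x, c34x, c22x, c37x⟩,
  ⟨c24x, c34x, c22x, c22x⟩,
  ⟨c24x, c24x, c17x, c22x⟩,
  ⟨c23x, c24x, c17x, c17x⟩,
  ⟨c23x, c23x, c25x, c17x⟩,
  ⟨c23x, c36x, c25x, c25x⟩,
  ⟨c36x, c36x, c25x, c21x⟩,
  ⟨c36x, c38x, c21x, c21x⟩,
  ⟨c38x, c38x, c14x, c21x⟩,
  ⟨c38x, c41x, c14x, c14x⟩,
  ⟨c41x, c41x, c17x, c14x⟩,
  ⟨c41x, c42x, c17x, c17x⟩,
  ⟨c42x, c42x, c17x, c19x⟩,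
  ⟨c42x, c44x, c19x, c19x⟩,
  ⟨c44x, c44x, c21x, c19x⟩,
  ⟨c44x, c45x, c21x, c21x⟩,
  ⟨c45x, c45x, c21x, c22x⟩,
  ⟨c45x, c27x, c22x, c22x⟩,
  ⟨c27x, c27x, c4x, c22x⟩,
  ⟨c26x, c27x, c4x, c4x⟩,
  ⟨c26x, c26x, c9x, c4x⟩,
  ⟨c26x, c46x, c9x, c9x⟩,
  ⟨c46x, c46x, c3x, c9x⟩,
  ⟨c46x, c29x, c3x, c3x⟩,
  ⟨c29x, c29x, c6x, c3x⟩,
  ⟨c29x, c30x, c6x, c6x⟩,
  ⟨c30x, c30x, c6x, c11x⟩,
  ⟨c30x, c31x, c11x, c11x⟩,
  ⟨c31x, c31x, c11x, c4x⟩,
  ⟨c28x, c31x, c4x, c4x⟩,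
  ⟨c28x, c28x, c4x, c40x⟩,
  ⟨c28x, c29x, c40x, c40x⟩,
  ⟨c29x, c29x, c37x, c40x⟩,
  ⟨c29x, c35x, c37x, c37x⟩,
  ⟨c35x, c35x, c22x, c37x⟩,
  ⟨c33x, c35x, c22x, c22x⟩,
  ⟨c33x, c33x, c17x, c22x⟩,
  ⟨c32x, c33x, c17x, c17x⟩,
  ⟨c32x, c32x, c25x, c17x⟩,
  ⟨c32x, c47x, c25x, c25x⟩,
  ⟨c47x, c47x, c25x, c21x⟩,
  ⟨c47x, c48x, c21x, c21x⟩,
  ⟨c48x, c48x, c14x, c21x⟩,
  ⟨c48x, c49x, c14x, c14x⟩,
  ⟨c49x, c49x, c14x, c13x⟩,
  ⟨c49x, c69x, c13x, c13x⟩,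
  ⟨c69x, c69x, c13x, c43x⟩,
  ⟨c69x, c78x, c43x, c43x⟩,
  ⟨c78x, c78x, c43x, c62x⟩,
  ⟨c78x, c90x, c62x, c62x⟩,
  ⟨c90x, c90x, c62x, c63x⟩,
  ⟨c90x, c92x, c63x, c63x⟩,
  ⟨c92x, c92x, c55x, c63x⟩,
  ⟨c92x, c93x, c55x, c55x⟩,
  ⟨c93x, c93x, c55x, c64x⟩,
  ⟨c93x, c94x, c64x, c64x⟩,
  ⟨c94x, c94x, c58x, c64x⟩,
  ⟨c94x, c81x, c58x, c58x⟩,
  ⟨c81x, c81x, c58x, c73x⟩,
  ⟨c80x, c81x, c73x, c73x⟩,
  ⟨c80x, c80x, c73x, c66x⟩,
  ⟨c80x, c99x, c66x, c66x⟩,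
  ⟨c99x, c99x, c66x, c70x⟩,
  ⟨c99x, c83x, c70x, c70x⟩,
  ⟨c83x, c83x, c70x, c88x⟩,
  ⟨c83x, c95x, c88x, c88x⟩,
  ⟨c95x, c95x, c76x, c88x⟩,
  ⟨c95x, c84x, c76x, c76x⟩,
  ⟨c84x, c84x, c73x, c76x⟩,
  ⟨c82x, c84x, c73x, c73x⟩,
  ⟨c82x, c82x, c52x, c73x⟩,
  ⟨c82x, c83x, c52x, c52x⟩,
  ⟨c83x, c83x, c52x, c60x⟩,
  ⟨c83x, c86x, c60x, c60x⟩,
  ⟨c86x, c86x, c60x, c58x⟩,
  ⟨c85x, c86x, c58x, c58x⟩,
  ⟨c85x, c85x, c58x, c63x⟩,
  ⟨c87x, c85x, c63x, c63x⟩,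
  ⟨c87x, c87x, c63x, c71x⟩,
  ⟨c87x, c96x, c71x, c71x⟩,
  ⟨c96x, c96x, c64x, c71x⟩,
  ⟨c96x, c97x, c64x, c64x⟩,
  ⟨c97x, c97x, c64x, c62x⟩,
  ⟨c97x, c98x, c62x, c62x⟩,
  ⟨c98x, c98x, c62x, c79x⟩,
  ⟨c98x, c123x, c79x, c79x⟩,
  ⟨c123x, c123x, c79x, c91x⟩,
  ⟨c123x, c124x, c91x, c91x⟩,
  ⟨c124x, c124x, c91x, c104x⟩,
  ⟨c124x, c144x, c104x, c104x⟩,
  ⟨c144x, c144x, c106x, c104x⟩,
  ⟨c144x, c145x, c106x, c106x⟩,
  ⟨c145x, c145x, c106x, c117x⟩,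
  ⟨c145x, c146x, c117x, c117x⟩,
  ⟨c146x, c146x, c119x, c117x⟩,
  ⟨c146x, c147x, c119x, c119x⟩,
  ⟨c147x, c147x, c119x, c120x⟩,
  ⟨c147x, c127x, c120x, c120x⟩,
  ⟨c127x, c127x, c128x, c120x⟩,
  ⟨c126x, c127x, c128x, c128x⟩,
  ⟨c126x, c126x, c109x, c128x⟩,
  ⟨c126x, c141x, c109x, c109x⟩,
  ⟨c141x, c141x, c110x, c109x⟩,
  ⟨c141x, c130x, c110x, c110x⟩,
  ⟨c130x, c130x, c102x, c110x⟩,
  ⟨c130x, c131x, c102x, c102x⟩,
  ⟨c131x, c131x, c102x, c112x⟩,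
  ⟨c131x, c132x, c112x, c112x⟩,
  ⟨c132x, c132x, c112x, c128x⟩,
  ⟨c129x, c132x, c128x, c128x⟩,
  ⟨c129x, c129x, c128x, c137x⟩,
  ⟨c129x, c130x, c137x, c137x⟩,
  ⟨c130x, c130x, c121x, c137x⟩,
  ⟨c130x, c140x, c121x, c121x⟩,
  ⟨c140x, c140x, c120x, c121x⟩,
  ⟨c134x, c140x, c120x, c120x⟩,
  ⟨c134x, c134x, c106x, c120x⟩,
  ⟨c133x, c134x, c106x, c106x⟩,
  ⟨c133x, c133x, c115x, c106x⟩,
  ⟨c133x, c143x, c115x, c115x⟩,
  ⟨c143x, c143x, c115x, c119x⟩,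
  ⟨c143x, c148x, c119x, c119x⟩,
  ⟨c148x, c148x, c104x, c119x⟩,
  ⟨c148x, c149x, c104x, c104x⟩,
  ⟨c149x, c149x, c104x, c125x⟩,
  ⟨c149x, c163x, c125x, c125x⟩,
  ⟨c163x, c163x, c125x, c142x⟩,
  ⟨c163x, c175x, c142x, c142x⟩,
  ⟨c175x, c175x, c142x, c165x⟩,
  ⟨c174x, c175x, c165x, c165x⟩,
  ⟨c174x, c174x, c159x, c165x⟩,
  ⟨c172x, c174x, c159x, c159x⟩,
  ⟨c172x, c172x, c159x, c173x⟩,
  ⟨c182x, c172x, c173x, c173x⟩,
  ⟨c182x, c182x, c167x, c173x⟩,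
  ⟨c182x, c181x, c167x, c167x⟩,
  ⟨c181x, c181x, c161x, c167x⟩,
  ⟨c181x, c153x, c161x, c161x⟩,
  ⟨c153x, c153x, c154x, c161x⟩,
  ⟨c151x, c153x, c154x, c154x⟩,
  ⟨c151x, c151x, c152x, c154x⟩,
  ⟨c150x, c151x, c152x, c152x⟩,
  ⟨c150x, c150x, c152x, c162x⟩,
  ⟨c150x, c179x, c162x, c162x⟩,
  ⟨c179x, c179x, c162x, c180x⟩,
  ⟨c177x, c179x, c180x, c180x⟩,
  ⟨c177x, c177x, c180x, c178x⟩,
  ⟨c151x, c177x, c178x, c178x⟩,
  ⟨c151x, c151x, c171x, c178x⟩,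
  ⟨c169x, c151x, c171x, c171x⟩,
  ⟨c169x, c169x, c170x, c171x⟩,
  ⟨c176x, c169x, c170x, c170x⟩,
  ⟨c176x, c176x, c162x, c170x⟩,
  ⟨c176x, c160x, c162x, c162x⟩,
  ⟨c160x, c160x, c161x, c162x⟩,
  ⟨c158x, c160x, c161x, c161x⟩,
  ⟨c158x, c158x, c161x, c159x⟩,
  ⟨c156x, c158x, c159x, c159x⟩,
  ⟨c156x, c156x, c157x, c159x⟩,
  ⟨c155x, c156x, c157x, c157x⟩,
  ⟨c155x, c155x, c157x, c167x⟩,
  ⟨c164x, c155x, c167x, c167x⟩,
  ⟨c164x, c164x, c165x, c167x⟩,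
  ⟨c163x, c164x, c165x, c165x⟩,
  ⟨c163x, c163x, c165x, c166x⟩,
  ⟨c163x, c175x, c166x, c166x⟩,
  ⟨c175x, c175x, c166x, c168x⟩,
  ⟨c175x, c203x, c168x, c168x⟩,
  ⟨c203x, c203x, c168x, c186x⟩,
  ⟨c203x, c207x, c186x, c186x⟩,
  ⟨c207x, c207x, c187x, c186x⟩,
  ⟨c207x, c209x, c187x, c187x⟩,
  ⟨c209x, c209x, c187x, c188x⟩,
  ⟨c209x, c205x, c188x, c188x⟩,
  ⟨c205x, c205x, c194x, c188x⟩,
  ⟨c196x, c205x, c194x, c194x⟩,
  ⟨c196x, c196x, c189x, c194x⟩,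
  ⟨c195x, c196x, c189x, c189x⟩,
  ⟨c195x, c195x, c184x, c189x⟩,
  ⟨c195x, c197x, c184x, c184x⟩,
  ⟨c197x, c197x, c185x, c184x⟩,
  ⟨c197x, c198x, c185x, c185x⟩,
  ⟨c198x, c198x, c185x, c199x⟩,
  ⟨c210x, c198x, c199x, c199x⟩,
  ⟨c210x, c210x, c199x, c202x⟩,
  ⟨c210x, c216x, c202x, c202x⟩,
  ⟨c216x, c216x, c202x, c206x⟩,
  ⟨c216x, c197x, c206x, c206x⟩,
  ⟨c197x, c197x, c192x, c206x⟩,
  ⟨c197x, c217x, c192x, c192x⟩,
  ⟨c217x, c217x, c191x, c192x⟩,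
  ⟨c217x, c212x, c191x, c191x⟩,
  ⟨c212x, c212x, c199x, c191x⟩,
  ⟨c211x, c212x, c199x, c199x⟩,
  ⟨c211x, c211x, c189x, c199x⟩,
  ⟨c211x, c213x, c189x, c189x⟩,
  ⟨c213x, c213x, c189x, c187x⟩,
  ⟨c213x, c214x, c187x, c187x⟩,
  ⟨c214x, c214x, c193x, c187x⟩,
  ⟨c214x, c215x, c193x, c193x⟩,
  ⟨c215x, c215x, c193x, c194x⟩,
  ⟨c215x, c218x, c194x, c194x⟩,
  ⟨c218x, c218x, c186x, c194x⟩,
  ⟨c218x, c219x, c186x, c186x⟩,
  ⟨c219x, c219x, c186x, c204x⟩,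
  ⟨c219x, c245x, c204x, c204x⟩,
  ⟨c245x, c245x, c204x, c208x⟩,
  ⟨c245x, c249x, c208x, c208x⟩,
  ⟨c249x, c249x, c208x, c233x⟩,
  ⟨c249x, c261x, c233x, c233x⟩,
  ⟨c261x, c261x, c233x, c234x⟩,
  ⟨c261x, c263x, c234x, c234x⟩,
  ⟨c263x, c263x, c222x, c234x⟩,
  ⟨c263x, c252x, c222x, c222x⟩,
  ⟨c252x, c252x, c222x, c237x⟩,
  ⟨c251x, c252x, c237x, c237x⟩,
  ⟨c251x, c251x, c237x, c240x⟩,
  ⟨c253x, c251x, c240x, c240x⟩,
  ⟨c253x, c253x, c240x, c235x⟩,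
  ⟨c253x, c248x, c235x, c235x⟩,
  ⟨c248x, c248x, c235x, c260x⟩,
  ⟨c248x, c255x, c260x, c260x⟩,
  ⟨c255x, c255x, c238x, c260x⟩,
  ⟨c254x, c255x, c238x, c238x⟩,
  ⟨c254x, c254x, c225x, c238x⟩,
  ⟨c254x, c247x, c225x, c225x⟩,
  ⟨c247x, c247x, c227x, c225x⟩,
  ⟨c247x, c248x, c227x, c227x⟩,
  ⟨c248x, c248x, c227x, c229x⟩,
  ⟨c248x, c264x, c229x, c229x⟩,
  ⟨c264x, c264x, c229x, c231x⟩,
  ⟨c264x, c257x, c231x, c231x⟩,
  ⟨c257x, c257x, c231x, c238x⟩,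
  ⟨c256x, c257x, c238x, c238x⟩,
  ⟨c256x, c256x, c238x, c240x⟩,
  ⟨c256x, c265x, c240x, c240x⟩,
  ⟨c265x, c265x, c234x, c240x⟩,
  ⟨c265x, c266x, c234x, c234x⟩,
  ⟨c266x, c266x, c234x, c246x⟩,
  ⟨c266x, c267x, c246x, c246x⟩,
  ⟨c267x, c267x, c237x, c246x⟩,
  ⟨c267x, c268x, c237x, c237x⟩,
  ⟨c268x, c268x, c237x, c233x⟩,
  ⟨c268x, c269x, c233x, c233x⟩,
  ⟨c269x, c269x, c233x, c250x⟩,
  ⟨c269x, c287x, c250x, c250x⟩,
  ⟨c287x, c287x, c250x, c262x⟩,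
  ⟨c287x, c297x, c262x, c262x⟩,
  ⟨c297x, c297x, c262x, c279x⟩,
  ⟨c297x, c310x, c279x, c279x⟩,
  ⟨c310x, c310x, c281x, c279x⟩,
  ⟨c310x, c312x, c281x, c281x⟩,
  ⟨c312x, c312x, c281x, c288x⟩,
  ⟨c312x, c301x, c288x, c288x⟩,
  ⟨c301x, c301x, c286x, c288x⟩,
  ⟨c300x, c301x, c286x, c286x⟩,
  ⟨c300x, c300x, c277x, c286x⟩,
  ⟨c299x, c300x, c277x, c277x⟩,
  ⟨c299x, c299x, c272x, c277x⟩,
  ⟨c299x, c303x, c272x, c272x⟩,
  ⟨c303x, c303x, c274x, c272x⟩,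
  ⟨c303x, c304x, c274x, c274x⟩,
  ⟨c304x, c304x, c274x, c295x⟩,
  ⟨c302x, c304x, c295x, c295x⟩,
  ⟨c302x, c302x, c295x, c296x⟩,
  ⟨c302x, c318x, c296x, c296x⟩,
  ⟨c318x, c318x, c296x, c309x⟩,
  ⟨c318x, c303x, c309x, c309x⟩,
  ⟨c303x, c303x, c291x, c309x⟩,
  ⟨c303x, c319x, c291x, c291x⟩,
  ⟨c319x, c319x, c290x, c291x⟩,
  ⟨c319x, c306x, c290x, c290x⟩,
  ⟨c306x, c306x, c295x, c290x⟩,
  ⟨c305x, c306x, c295x, c295x⟩,
  ⟨c305x, c305x, c277x, c295x⟩,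
  ⟨c305x, c313x, c277x, c277x⟩,
  ⟨c313x, c313x, c277x, c281x⟩,
  ⟨c313x, c314x, c281x, c281x⟩,
  ⟨c314x, c314x, c284x, c281x⟩,
  ⟨c314x, c315x, c284x, c284x⟩,
  ⟨c315x, c315x, c284x, c286x⟩,
  ⟨c315x, c316x, c286x, c286x⟩,
  ⟨c316x, c316x, c279x, c286x⟩,
  ⟨c316x, c317x, c279x, c279x⟩,
  ⟨c317x, c317x, c279x, c298x⟩,
  ⟨c317x, c342x, c298x, c298x⟩,
  ⟨c342x, c342x, c298x, c311x⟩,
  ⟨c342x, c358x, c311x, c311x⟩,
  ⟨c358x, c358x, c311x, c335x⟩,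
  ⟨c358x, c366x, c335x, c335x⟩,
  ⟨c366x, c366x, c335x, c336x⟩,
  ⟨c366x, c362x, c336x, c336x⟩,
  ⟨c362x, c362x, c322x, c336x⟩,
  ⟨c362x, c363x, c322x, c322x⟩,
  ⟨c363x, c363x, c322x, c324x⟩,
  ⟨c363x, c360x, c324x, c324x⟩,
  ⟨c360x, c360x, c326x, c324x⟩,
  ⟨c360x, c349x, c326x, c326x⟩,
  ⟨c349x, c349x, c326x, c345x⟩,
  ⟨c348x, c349x, c345x, c345x⟩,
  ⟨c348x, c348x, c345x, c338x⟩,
  ⟨c348x, c367x, c338x, c338x⟩,
  ⟨c367x, c367x, c338x, c340x⟩,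
  ⟨c367x, c344x, c340x, c340x⟩,
  ⟨c344x, c344x, c340x, c354x⟩,
  ⟨c344x, c368x, c354x, c354x⟩,
  ⟨c368x, c368x, c356x, c354x⟩,
  ⟨c368x, c350x, c356x, c356x⟩,
  ⟨c350x, c350x, c345x, c356x⟩,
  ⟨c343x, c350x, c345x, c345x⟩,
  ⟨c343x, c343x, c329x, c345x⟩,
  ⟨c343x, c344x, c329x, c329x⟩,
  ⟨c344x, c344x, c329x, c331x⟩,
  ⟨c344x, c347x, c331x, c331x⟩,
  ⟨c347x, c347x, c331x, c326x⟩,
  ⟨c346x, c347x, c326x, c326x⟩,
  ⟨c346x, c346x, c326x, c336x⟩,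
  ⟨c351x, c346x, c336x, c336x⟩,
  ⟨c351x, c351x, c336x, c339x⟩,
  ⟨c351x, c364x, c339x, c339x⟩,
  ⟨c364x, c364x, c324x, c339x⟩,
  ⟨c364x, c365x, c324x, c324x⟩,
  ⟨c365x, c365x, c324x, c335x⟩,
  ⟨c365x, c369x, c335x, c335x⟩,
  ⟨c369x, c369x, c335x, c359x⟩,
  ⟨c369x, c392x, c359x, c359x⟩,
  ⟨c392x, c392x, c359x, c361x⟩,
  ⟨c392x, c403x, c361x, c361x⟩,
  ⟨c403x, c403x, c361x, c381x⟩,
  ⟨c403x, c414x, c381x, c381x⟩,
  ⟨c414x, c414x, c383x, c381x⟩,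
  ⟨c414x, c415x, c383x, c383x⟩,
  ⟨c415x, c415x, c383x, c385x⟩,
  ⟨c415x, c416x, c385x, c385x⟩,
  ⟨c416x, c416x, c387x, c385x⟩,
  ⟨c416x, c417x, c387x, c387x⟩,
  ⟨c417x, c417x, c387x, c388x⟩,
  ⟨c417x, c406x, c388x, c388x⟩,
  ⟨c406x, c406x, c396x, c388x⟩,
  ⟨c405x, c406x, c396x, c396x⟩,
  ⟨c405x, c405x, c375x, c396x⟩,
  ⟨c405x, c411x, c375x, c375x⟩,
  ⟨c411x, c411x, c376x, c375x⟩,
  ⟨c411x, c395x, c376x, c376x⟩,
  ⟨c395x, c395x, c372x, c376x⟩,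
  ⟨c395x, c397x, c372x, c372x⟩,
  ⟨c397x, c397x, c372x, c390x⟩,
  ⟨c397x, c407x, c390x, c390x⟩,
  ⟨c407x, c407x, c390x, c396x⟩,
  ⟨c394x, c407x, c396x, c396x⟩,
  ⟨c394x, c394x, c396x, c400x⟩,
  ⟨c394x, c395x, c400x, c400x⟩,
  ⟨c395x, c395x, c393x, c400x⟩,
  ⟨c395x, c410x, c393x, c393x⟩,
  ⟨c410x, c410x, c388x, c393x⟩,
  ⟨c409x, c410x, c388x, c388x⟩,
  ⟨c409x, c409x, c383x, c388x⟩,
  ⟨c408x, c409x, c383x, c383x⟩,
  ⟨c408x, c408x, c379x, c383x⟩,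
  ⟨c408x, c413x, c379x, c379x⟩,
  ⟨c413x, c413x, c379x, c387x⟩,
  ⟨c413x, c418x, c387x, c387x⟩,
  ⟨c418x, c418x, c381x, c387x⟩,
  ⟨c418x, c419x, c381x, c381x⟩,
  ⟨c419x, c419x, c381x, c404x⟩,
  ⟨c419x, c439x, c404x, c404x⟩,
  ⟨c439x, c439x, c404x, c412x⟩,
  ⟨c439x, c461x, c412x, c412x⟩,
  ⟨c461x, c461x, c412x, c424x⟩,
  ⟨c460x, c461x, c424x, c424x⟩,
  ⟨c460x, c460x, c430x, c424x⟩,
  ⟨c459x, c460x, c430x, c430x⟩,
  ⟨c459x, c459x, c430x, c441x⟩,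
  ⟨c466x, c459x, c441x, c441x⟩,
  ⟨c466x, c466x, c426x, c441x⟩,
  ⟨c466x, c465x, c426x, c426x⟩,
  ⟨c465x, c465x, c432x, c426x⟩,
  ⟨c465x, c458x, c432x, c432x⟩,
  ⟨c458x, c458x, c436x, c432x⟩,
  ⟨c443x, c458x, c436x, c436x⟩,
  ⟨c443x, c443x, c422x, c436x⟩,
  ⟨c442x, c443x, c422x, c422x⟩,
  ⟨c442x, c442x, c422x, c450x⟩,
  ⟨c442x, c464x, c450x, c450x⟩,
  ⟨c464x, c464x, c450x, c454x⟩,
  ⟨c463x, c464x, c454x, c454x⟩,
  ⟨c463x, c463x, c454x, c452x⟩,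
  ⟨c443x, c463x, c452x, c452x⟩,
  ⟨c443x, c443x, c440x, c452x⟩,
  ⟨c457x, c443x, c440x, c440x⟩,
  ⟨c457x, c457x, c434x, c440x⟩,
  ⟨c462x, c457x, c434x, c434x⟩,
  ⟨c462x, c462x, c450x, c434x⟩,
  ⟨c462x, c448x, c450x, c450x⟩,
  ⟨c448x, c448x, c432x, c450x⟩,
  ⟨c447x, c448x, c432x, c432x⟩,
  ⟨c447x, c447x, c432x, c430x⟩,
  ⟨c446x, c447x, c430x, c430x⟩,
  ⟨c446x, c446x, c428x, c430x⟩,
  ⟨c445x, c446x, c428x, c428x⟩,
  ⟨c445x, c445x, c428x, c426x⟩,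
  ⟨c444x, c445x, c426x, c426x⟩,
  ⟨c444x, c444x, c424x, c426x⟩,
  ⟨c438x, c444x, c424x, c424x⟩,
  ⟨c438x, c438x, c430x, c424x⟩,
  ⟨c437x, c438x, c430x, c430x⟩,
  ⟨c437x, c437x, c430x, c441x⟩,
  ⟨c456x, c437x, c441x, c441x⟩,
  ⟨c456x, c456x, c426x, c441x⟩,
  ⟨c456x, c455x, c426x, c426x⟩,
  ⟨c455x, c455x, c432x, c426x⟩,
  ⟨c455x, c435x, c432x, c432x⟩,
  ⟨c435x, c435x, c436x, c432x⟩,
  ⟨c421x, c435x, c436x, c436x⟩,
  ⟨c421x, c421x, c422x, c436x⟩,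
  ⟨c420x, c421x, c422x, c422x⟩,
  ⟨c420x, c420x, c422x, c450x⟩,
  ⟨c420x, c453x, c450x, c450x⟩,
  ⟨c453x, c453x, c450x, c454x⟩,
  ⟨c451x, c453x, c454x, c454x⟩,
  ⟨c451x, c451x, c454x, c452x⟩,
  ⟨c421x, c451x, c452x, c452x⟩,
  ⟨c421x, c421x, c440x, c452x⟩,
  ⟨c433x, c421x, c440x, c440x⟩,
  ⟨c433x, c433x, c434x, c440x⟩,
  ⟨c449x, c433x, c434x, c434x⟩,
  ⟨c449x, c449x, c450x, c434x⟩,
  ⟨c449x, c431x, c450x, c450x⟩,
  ⟨c431x, c431x, c432x, c450x⟩,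
  ⟨c429x, c431x, c432x, c432x⟩,
  ⟨c429x, c429x, c432x, c430x⟩,
  ⟨c427x, c429x, c430x, c430x⟩,
  ⟨c427x, c427x, c428x, c430x⟩,
  ⟨c425x, c427x, c428x, c428x⟩,
  ⟨c425x, c425x, c428x, c426x⟩,
  ⟨c423x, c425x, c426x, c426x⟩,
  ⟨c423x, c423x, c424x, c426x⟩,
  ⟨c419x, c423x, c424x, c424x⟩,
  ⟨c419x, c419x, c412x, c424x⟩,
  ⟨c403x, c419x, c412x, c412x⟩,
  ⟨c403x, c403x, c404x, c412x⟩,
  ⟨c392x, c403x, c404x, c404x⟩,
  ⟨c392x, c392x, c381x, c404x⟩,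
  ⟨c391x, c392x, c381x, c381x⟩,
  ⟨c391x, c391x, c381x, c387x⟩,
  ⟨c378x, c391x, c387x, c387x⟩,
  ⟨c378x, c378x, c379x, c387x⟩,
  ⟨c377x, c378x, c379x, c379x⟩,
  ⟨c377x, c377x, c379x, c383x⟩,
  ⟨c377x, c401x, c383x, c383x⟩,
  ⟨c401x, c401x, c383x, c388x⟩,
  ⟨c401x, c402x, c388x, c388x⟩,
  ⟨c402x, c402x, c388x, c393x⟩,
  ⟨c370x, c402x, c393x, c393x⟩,
  ⟨c370x, c370x, c393x, c400x⟩,
  ⟨c399x, c370x, c400x, c400x⟩,
  ⟨c399x, c399x, c396x, c400x⟩,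
  ⟨c399x, c389x, c396x, c396x⟩,
  ⟨c389x, c389x, c390x, c396x⟩,
  ⟨c371x, c389x, c390x, c390x⟩,
  ⟨c371x, c371x, c372x, c390x⟩,
  ⟨c370x, c371x, c372x, c372x⟩,
  ⟨c370x, c370x, c372x, c376x⟩,
  ⟨c374x, c370x, c376x, c376x⟩,
  ⟨c374x, c374x, c376x, c375x⟩,
  ⟨c373x, c374x, c375x, c375x⟩,
  ⟨c373x, c373x, c375x, c396x⟩,
  ⟨c373x, c398x, c396x, c396x⟩,
  ⟨c398x, c398x, c396x, c388x⟩,
  ⟨c386x, c398x, c388x, c388x⟩,
  ⟨c386x, c386x, c387x, c388x⟩,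
  ⟨c384x, c386x, c387x, c387x⟩,
  ⟨c384x, c384x, c387x, c385x⟩,
  ⟨c382x, c384x, c385x, c385x⟩,
  ⟨c382x, c382x, c383x, c385x⟩,
  ⟨c380x, c382x, c383x, c383x⟩,
  ⟨c380x, c380x, c383x, c381x⟩,
  ⟨c369x, c380x, c381x, c381x⟩,
  ⟨c369x, c369x, c361x, c381x⟩,
  ⟨c358x, c369x, c361x, c361x⟩,
  ⟨c358x, c358x, c359x, c361x⟩,
  ⟨c342x, c358x, c359x, c359x⟩,
  ⟨c342x, c342x, c335x, c359x⟩,
  ⟨c333x, c342x, c335x, c335x⟩,
  ⟨c333x, c333x, c324x, c335x⟩,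
  ⟨c332x, c333x, c324x, c324x⟩,
  ⟨c332x, c332x, c324x, c339x⟩,
  ⟨c357x, c332x, c339x, c339x⟩,
  ⟨c357x, c357x, c336x, c339x⟩,
  ⟨c357x, c341x, c336x, c336x⟩,
  ⟨c341x, c341x, c326x, c336x⟩,
  ⟨c341x, c330x, c326x, c326x⟩,
  ⟨c330x, c330x, c331x, c326x⟩,
  ⟨c328x, c330x, c331x, c331x⟩,
  ⟨c328x, c328x, c329x, c331x⟩,
  ⟨c327x, c328x, c329x, c329x⟩,
  ⟨c327x, c327x, c329x, c345x⟩,
  ⟨c327x, c355x, c345x, c345x⟩,
  ⟨c355x, c355x, c345x, c356x⟩,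
  ⟨c353x, c355x, c356x, c356x⟩,
  ⟨c353x, c353x, c356x, c354x⟩,
  ⟨c328x, c353x, c354x, c354x⟩,
  ⟨c328x, c328x, c340x, c354x⟩,
  ⟨c337x, c328x, c340x, c340x⟩,
  ⟨c337x, c337x, c338x, c340x⟩,
  ⟨c352x, c337x, c338x, c338x⟩,
  ⟨c352x, c352x, c345x, c338x⟩,
  ⟨c352x, c325x, c345x, c345x⟩,
  ⟨c325x, c325x, c326x, c345x⟩,
  ⟨c323x, c325x, c326x, c326x⟩,
  ⟨c323x, c323x, c326x, c324x⟩,
  ⟨c321x, c323x, c324x, c324x⟩,
  ⟨c321x, c321x, c322x, c324x⟩,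
  ⟨c320x, c321x, c322x, c322x⟩,
  ⟨c320x, c320x, c322x, c336x⟩,
  ⟨c334x, c320x, c336x, c336x⟩,
  ⟨c334x, c334x, c335x, c336x⟩,
  ⟨c317x, c334x, c335x, c335x⟩,
  ⟨c317x, c317x, c311x, c335x⟩,
  ⟨c297x, c317x, c311x, c311x⟩,
  ⟨c297x, c297x, c298x, c311x⟩,
  ⟨c287x, c297x, c298x, c298x⟩,
  ⟨c287x, c287x, c279x, c298x⟩,
  ⟨c285x, c287x, c279x, c279x⟩,
  ⟨c285x, c285x, c279x, c286x⟩,
  ⟨c283x, c285x, c286x, c286x⟩,
  ⟨c283x, c283x, c284x, c286x⟩,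
  ⟨c282x, c283x, c284x, c284x⟩,
  ⟨c282x, c282x, c284x, c281x⟩,
  ⟨c276x, c282x, c281x, c281x⟩,
  ⟨c276x, c276x, c277x, c281x⟩,
  ⟨c275x, c276x, c277x, c277x⟩,
  ⟨c275x, c275x, c277x, c295x⟩,
  ⟨c275x, c308x, c295x, c295x⟩,
  ⟨c308x, c308x, c295x, c290x⟩,
  ⟨c289x, c308x, c290x, c290x⟩,
  ⟨c289x, c289x, c290x, c291x⟩,
  ⟨c271x, c289x, c291x, c291x⟩,
  ⟨c271x, c271x, c291x, c309x⟩,
  ⟨c294x, c271x, c309x, c309x⟩,
  ⟨c294x, c294x, c296x, c309x⟩,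
  ⟨c293x, c294x, c296x, c296x⟩,
  ⟨c293x, c293x, c295x, c296x⟩,
  ⟨c293x, c273x, c295x, c295x⟩,
  ⟨c273x, c273x, c274x, c295x⟩,
  ⟨c271x, c273x, c274x, c274x⟩,
  ⟨c271x, c271x, c274x, c272x⟩,
  ⟨c270x, c271x, c272x, c272x⟩,
  ⟨c270x, c270x, c272x, c277x⟩,
  ⟨c270x, c292x, c277x, c277x⟩,
  ⟨c292x, c292x, c277x, c286x⟩,
  ⟨c292x, c307x, c286x, c286x⟩,
  ⟨c307x, c307x, c286x, c288x⟩,
  ⟨c280x, c307x, c288x, c288x⟩,
  ⟨c280x, c280x, c281x, c288x⟩,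
  ⟨c278x, c280x, c281x, c281x⟩,
  ⟨c278x, c278x, c281x, c279x⟩,
  ⟨c269x, c278x, c279x, c279x⟩,
  ⟨c269x, c269x, c262x, c279x⟩,
  ⟨c249x, c269x, c262x, c262x⟩,
  ⟨c249x, c249x, c250x, c262x⟩,
  ⟨c245x, c249x, c250x, c250x⟩,
  ⟨c245x, c245x, c233x, c250x⟩,
  ⟨c244x, c245x, c233x, c233x⟩,
  ⟨c244x, c244x, c237x, c233x⟩,
  ⟨c243x, c244x, c237x, c237x⟩,
  ⟨c243x, c243x, c237x, c246x⟩,
  ⟨c242x, c243x, c246x, c246x⟩,
  ⟨c242x, c242x, c234x, c246x⟩,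
  ⟨c241x, c242x, c234x, c234x⟩,
  ⟨c241x, c241x, c234x, c240x⟩,
  ⟨c239x, c241x, c240x, c240x⟩,
  ⟨c239x, c239x, c238x, c240x⟩,
  ⟨c239x, c230x, c238x, c238x⟩,
  ⟨c230x, c230x, c231x, c238x⟩,
  ⟨c228x, c230x, c231x, c231x⟩,
  ⟨c228x, c228x, c229x, c231x⟩,
  ⟨c226x, c228x, c229x, c229x⟩,
  ⟨c226x, c226x, c227x, c229x⟩,
  ⟨c224x, c226x, c227x, c227x⟩,
  ⟨c224x, c224x, c227x, c225x⟩,
  ⟨c223x, c224x, c225x, c225x⟩,
  ⟨c223x, c223x, c225x, c238x⟩,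
  ⟨c223x, c259x, c238x, c238x⟩,
  ⟨c259x, c259x, c238x, c260x⟩,
  ⟨c226x, c259x, c260x, c260x⟩,
  ⟨c226x, c226x, c235x, c260x⟩,
  ⟨c258x, c226x, c235x, c235x⟩,
  ⟨c258x, c258x, c240x, c235x⟩,
  ⟨c258x, c236x, c240x, c240x⟩,
  ⟨c236x, c236x, c237x, c240x⟩,
  ⟨c236x, c221x, c237x, c237x⟩,
  ⟨c221x, c221x, c222x, c237x⟩,
  ⟨c220x, c221x, c222x, c222x⟩,
  ⟨c220x, c220x, c222x, c234x⟩,
  ⟨c232x, c220x, c234x, c234x⟩,
  ⟨c232x, c232x, c233x, c234x⟩,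
  ⟨c219x, c232x, c233x, c233x⟩,
  ⟨c219x, c219x, c208x, c233x⟩,
  ⟨c203x, c219x, c208x, c208x⟩,
  ⟨c203x, c203x, c204x, c208x⟩,
  ⟨c175x, c203x, c204x, c204x⟩,
  ⟨c175x, c175x, c186x, c204x⟩,
  ⟨c174x, c175x, c186x, c186x⟩,
  ⟨c174x, c174x, c186x, c194x⟩,
  ⟨c172x, c174x, c194x, c194x⟩,
  ⟨c172x, c172x, c193x, c194x⟩,
  ⟨c182x, c172x, c193x, c193x⟩,
  ⟨c182x, c182x, c193x, c187x⟩,
  ⟨c179x, c182x, c187x, c187x⟩,
  ⟨c179x, c179x, c189x, c187x⟩,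
  ⟨c150x, c179x, c189x, c189x⟩,
  ⟨c150x, c150x, c189x, c199x⟩,
  ⟨c150x, c151x, c199x, c199x⟩,
  ⟨c151x, c151x, c199x, c191x⟩,
  ⟨c190x, c151x, c191x, c191x⟩,
  ⟨c190x, c190x, c191x, c192x⟩,
  ⟨c176x, c190x, c192x, c192x⟩,
  ⟨c176x, c176x, c192x, c206x⟩,
  ⟨c201x, c176x, c206x, c206x⟩,
  ⟨c201x, c201x, c202x, c206x⟩,
  ⟨c158x, c201x, c202x, c202x⟩,
  ⟨c158x, c158x, c199x, c202x⟩,
  ⟨c158x, c160x, c199x, c199x⟩,
  ⟨c160x, c160x, c185x, c199x⟩,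
  ⟨c176x, c160x, c185x, c185x⟩,
  ⟨c176x, c176x, c185x, c184x⟩,
  ⟨c183x, c176x, c184x, c184x⟩,
  ⟨c183x, c183x, c184x, c189x⟩,
  ⟨c183x, c200x, c189x, c189x⟩,
  ⟨c200x, c200x, c189x, c194x⟩,
  ⟨c200x, c156x, c194x, c194x⟩,
  ⟨c156x, c156x, c194x, c188x⟩,
  ⟨c155x, c156x, c188x, c188x⟩,
  ⟨c155x, c155x, c187x, c188x⟩,
  ⟨c164x, c155x, c187x, c187x⟩,
  ⟨c164x, c164x, c187x, c186x⟩,
  ⟨c163x, c164x, c186x, c186x⟩,
  ⟨c163x, c163x, c168x, c186x⟩,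
  ⟨c149x, c163x, c168x, c168x⟩,
  ⟨c149x, c149x, c166x, c168x⟩,
  ⟨c124x, c149x, c166x, c166x⟩,
  ⟨c124x, c124x, c165x, c166x⟩,
  ⟨c124x, c144x, c165x, c165x⟩,
  ⟨c144x, c144x, c165x, c167x⟩,
  ⟨c144x, c145x, c167x, c167x⟩,
  ⟨c145x, c145x, c157x, c167x⟩,
  ⟨c145x, c146x, c157x, c157x⟩,
  ⟨c146x, c146x, c157x, c159x⟩,
  ⟨c146x, c147x, c159x, c159x⟩,
  ⟨c147x, c147x, c161x, c159x⟩,
  ⟨c147x, c127x, c161x, c161x⟩,
  ⟨c127x, c127x, c161x, c162x⟩,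
  ⟨c126x, c127x, c162x, c162x⟩,
  ⟨c126x, c126x, c162x, c170x⟩,
  ⟨c126x, c141x, c170x, c170x⟩,
  ⟨c141x, c141x, c170x, c171x⟩,
  ⟨c141x, c130x, c171x, c171x⟩,
  ⟨c130x, c130x, c171x, c178x⟩,
  ⟨c130x, c131x, c178x, c178x⟩,
  ⟨c131x, c131x, c180x, c178x⟩,
  ⟨c131x, c132x, c180x, c180x⟩,
  ⟨c132x, c132x, c162x, c180x⟩,
  ⟨c129x, c132x, c162x, c162x⟩,
  ⟨c129x, c129x, c152x, c162x⟩,
  ⟨c129x, c130x, c152x, c152x⟩,
  ⟨c130x, c130x, c152x, c154x⟩,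
  ⟨c130x, c140x, c154x, c154x⟩,
  ⟨c140x, c140x, c154x, c161x⟩,
  ⟨c134x, c140x, c161x, c161x⟩,
  ⟨c134x, c134x, c161x, c167x⟩,
  ⟨c133x, c134x, c167x, c167x⟩,
  ⟨c133x, c133x, c167x, c173x⟩,
  ⟨c133x, c143x, c173x, c173x⟩,
  ⟨c143x, c143x, c159x, c173x⟩,
  ⟨c143x, c148x, c159x, c159x⟩,
  ⟨c148x, c148x, c159x, c165x⟩,
  ⟨c148x, c149x, c165x, c165x⟩,
  ⟨c149x, c149x, c142x, c165x⟩,
  ⟨c124x, c149x, c142x, c142x⟩,
  ⟨c124x, c124x, c125x, c142x⟩,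
  ⟨c123x, c124x, c125x, c125x⟩,
  ⟨c123x, c123x, c104x, c125x⟩,
  ⟨c122x, c123x, c104x, c104x⟩,
  ⟨c122x, c122x, c104x, c119x⟩,
  ⟨c114x, c122x, c119x, c119x⟩,
  ⟨c114x, c114x, c115x, c119x⟩,
  ⟨c113x, c114x, c115x, c115x⟩,
  ⟨c113x, c113x, c115x, c106x⟩,
  ⟨c113x, c138x, c106x, c106x⟩,
  ⟨c138x, c138x, c106x, c120x⟩,
  ⟨c138x, c139x, c120x, c120x⟩,
  ⟨c139x, c139x, c120x, c121x⟩,
  ⟨c100x, c139x, c121x, c121x⟩,
  ⟨c100x, c100x, c121x, c137x⟩,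
  ⟨c136x, c100x, c137x, c137x⟩,
  ⟨c136x, c136x, c128x, c137x⟩,
  ⟨c136x, c111x, c128x, c128x⟩,
  ⟨c111x, c111x, c112x, c128x⟩,
  ⟨c101x, c111x, c112x, c112x⟩,
  ⟨c101x, c101x, c102x, c112x⟩,
  ⟨c100x, c101x, c102x, c102x⟩,
  ⟨c100x, c100x, c102x, c110x⟩,
  ⟨c108x, c100x, c110x, c110x⟩,
  ⟨c108x, c108x, c110x, c109x⟩,
  ⟨c107x, c108x, c109x, c109x⟩,
  ⟨c107x, c107x, c109x, c128x⟩,
  ⟨c107x, c135x, c128x, c128x⟩,
  ⟨c135x, c135x, c128x, c120x⟩,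
  ⟨c118x, c135x, c120x, c120x⟩,
  ⟨c118x, c118x, c119x, c120x⟩,
  ⟨c116x, c118x, c119x, c119x⟩,
  ⟨c116x, c116x, c119x, c117x⟩,
  ⟨c105x, c116x, c117x, c117x⟩,
  ⟨c105x, c105x, c106x, c117x⟩,
  ⟨c103x, c105x, c106x, c106x⟩,
  ⟨c103x, c103x, c106x, c104x⟩,
  ⟨c98x, c103x, c104x, c104x⟩,
  ⟨c98x, c98x, c91x, c104x⟩,
  ⟨c78x, c98x, c91x, c91x⟩,
  ⟨c78x, c78x, c79x, c91x⟩,
  ⟨c69x, c78x, c79x, c79x⟩,
  ⟨c69x, c69x, c62x, c79x⟩,
  ⟨c68x, c69x, c62x, c62x⟩,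
  ⟨c68x, c68x, c64x, c62x⟩,
  ⟨c67x, c68x, c64x, c64x⟩,
  ⟨c67x, c67x, c64x, c71x⟩,
  ⟨c89x, c67x, c71x, c71x⟩,
  ⟨c89x, c89x, c63x, c71x⟩,
  ⟨c89x, c77x, c63x, c63x⟩,
  ⟨c77x, c77x, c58x, c63x⟩,
  ⟨c77x, c59x, c58x, c58x⟩,
  ⟨c59x, c59x, c60x, c58x⟩,
  ⟨c51x, c59x, c60x, c60x⟩,
  ⟨c51x, c51x, c52x, c60x⟩,
  ⟨c50x, c51x, c52x, c52x⟩,
  ⟨c50x, c50x, c52x, c73x⟩,
  ⟨c50x, c75x, c73x, c73x⟩,
  ⟨c75x, c75x, c73x, c76x⟩,
  ⟨c74x, c75x, c76x, c76x⟩,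
  ⟨c74x, c74x, c76x, c88x⟩,
  ⟨c51x, c74x, c88x, c88x⟩,
  ⟨c51x, c51x, c70x, c88x⟩,
  ⟨c65x, c51x, c70x, c70x⟩,
  ⟨c65x, c65x, c66x, c70x⟩,
  ⟨c72x, c65x, c66x, c66x⟩,
  ⟨c72x, c72x, c73x, c66x⟩,
  ⟨c72x, c57x, c73x, c73x⟩,
  ⟨c57x, c57x, c58x, c73x⟩,
  ⟨c56x, c57x, c58x, c58x⟩,
  ⟨c56x, c56x, c58x, c64x⟩,
  ⟨c54x, c56x, c64x, c64x⟩,
  ⟨c54x, c54x, c55x, c64x⟩,
  ⟨c53x, c54x, c55x, c55x⟩,
  ⟨c53x, c53x, c55x, c63x⟩,
  ⟨c61x, c53x, c63x, c63x⟩,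
  ⟨c61x, c61x, c62x, c63x⟩,
  ⟨c49x, c61x, c62x, c62x⟩,
  ⟨c49x, c49x, c43x, c62x⟩,
  ⟨c39x, c49x, c43x, c43x⟩,
  ⟨c39x, c39x, c13x, c43x⟩,
  ⟨c14x, c39x, c13x, c13x⟩,
  ⟨c14x, c14x, c14x, c13x⟩]

def vs : List (L × L) := [
  (c14x, c14x),
  (c15x, c14x),
  (c15x, c17x),
  (c16x, c17x),
  (c16x, c19x),
  (c18x, c19x),
  (c18x, c21x),
  (c20x, c21x),
  (c20x, c22x),
  (c8x, c22x),
  (c8x, c4x),
  (c7x, c4x),
  (c7x, c9x),
  (c12x, c9x),
  (c12x, c3x),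
  (c2x, c3x),
  (c2x, c6x),
  (c5x, c6x),
  (c5x, c11x),
  (c10x, c11x),
  (c10x, c4x),
  (c1x, c4x),
  (c1x, c40x),
  (c2x, c40x),
  (c2x, c37x),
  (c34x, c37x),
  (c34x, c22x),
  (c24x, c22x),
  (c24x, c17x),
  (c23x, c17x),
  (c23x, c25x),
  (c36x, c25x),
  (c36x, c21x),
  (c38x, c21x),
  (c38x, c14x),
  (c41x, c14x),
  (c41x, c17x),
  (c42x, c17x),
  (c42x, c19x),
  (c44x, c19x),
  (c44x, c21x),
  (c45x, c21x),
  (c45x, c22x),
  (c27x, c22x),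
  (c27x, c4x),
  (c26x, c4x),
  (c26x, c9x),
  (c46x, c9x),
  (c46x, c3x),
  (c29x, c3x),
  (c29x, c6x),
  (c30x, c6x),
  (c30x, c11x),
  (c31x, c11x),
  (c31x, c4x),
  (c28x, c4x),
  (c28x, c40x),
  (c29x, c40x),
  (c29x, c37x),
  (c35x, c37x),
  (c35x, c22x),
  (c33x, c22x),
  (c33x, c17x),
  (c32x, c17x),
  (c32x, c25x),
  (c47x, c25x),
  (c47x, c21x),
  (c48x, c21x),
  (c48x, c14x),
  (c49x, c14x),
  (c49x, c13x),
  (c69x, c13x),
  (c69x, c43x),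
  (c78x, c43x),
  (c78x, c62x),
  (c90x, c62x),
  (c90x, c63x),
  (c92x, c63x),
  (c92x, c55x),
  (c93x, c55x),
  (c93x, c64x),
  (c94x, c64x),
  (c94x, c58x),
  (c81x, c58x),
  (c81x, c73x),
  (c80x, c73x),
  (c80x, c66x),
  (c99x, c66x),
  (c99x, c70x),
  (c83x, c70x),
  (c83x, c88x),
  (c95x, c88x),
  (c95x, c76x),
  (c84x, c76x),
  (c84x, c73x),
  (c82x, c73x),
  (c82x, c52x),
  (c83x, c52x),
  (c83x, c60x),
  (c86x, c60x),
  (c86x, c58x),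
  (c85x, c58x),
  (c85x, c63x),
  (c87x, c63x),
  (c87x, c71x),
  (c96x, c71x),
  (c96x, c64x),
  (c97x, c64x),
  (c97x, c62x),
  (c98x, c62x),
  (c98x, c79x),
  (c123x, c79x),
  (c123x, c91x),
  (c124x, c91x),
  (c124x, c104x),
  (c144x, c104x),
  (c144x, c106x),
  (c145x, c106x),
  (c145x, c117x),
  (c146x, c117x),
  (c146x, c119x),
  (c147x, c119x),
  (c147x, c120x),
  (c127x, c120x),
  (c127x, c128x),
  (c126x, c128x),
  (c126x, c109x),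
  (c141x, c109x),
  (c141x, c110x),
  (c130x, c110x),
  (c130x, c102x),
  (c131x, c102x),
  (c131x, c112x),
  (c132x, c112x),
  (c132x, c128x),
  (c129x, c128x),
  (c129x, c137x),
  (c130x, c137x),
  (c130x, c121x),
  (c140x, c121x),
  (c140x, c120x),
  (c134x, c120x),
  (c134x, c106x),
  (c133x, c106x),
  (c133x, c115x),
  (c143x, c115x),
  (c143x, c119x),
  (c148x, c119x),
  (c148x, c104x),
  (c149x, c104x),
  (c149x, c125x),
  (c163x, c125x),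
  (c163x, c142x),
  (c175x, c142x),
  (c175x, c165x),
  (c174x, c165x),
  (c174x, c159x),
  (c172x, c159x),
  (c172x, c173x),
  (c182x, c173x),
  (c182x, c167x),
  (c181x, c167x),
  (c181x, c161x),
  (c153x, c161x),
  (c153x, c154x),
  (c151x, c154x),
  (c151x, c152x),
  (c150x, c152x),
  (c150x, c162x),
  (c179x, c162x),
  (c179x, c180x),
  (c177x, c180x),
  (c177x, c178x),
  (c151x, c178x),
  (c151x, c171x),
  (c169x, c171x),
  (c169x, c170x),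
  (c176x, c170x),
  (c176x, c162x),
  (c160x, c162x),
  (c160x, c161x),
  (c158x, c161x),
  (c158x, c159x),
  (c156x, c159x),
  (c156x, c157x),
  (c155x, c157x),
  (c155x, c167x),
  (c164x, c167x),
  (c164x, c165x),
  (c163x, c165x),
  (c163x, c166x),
  (c175x, c166x),
  (c175x, c168x),
  (c203x, c168x),
  (c203x, c186x),
  (c207x, c186x),
  (c207x, c187x),
  (c209x, c187x),
  (c209x, c188x),
  (c205x, c188x),
  (c205x, c194x),
  (c196x, c194x),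
  (c196x, c189x),
  (c195x, c189x),
  (c195x, c184x),
  (c197x, c184x),
  (c197x, c185x),
  (c198x, c185x),
  (c198x, c199x),
  (c210x, c199x),
  (c210x, c202x),
  (c216x, c202x),
  (c216x, c206x),
  (c197x, c206x),
  (c197x, c192x),
  (c217x, c192x),
  (c217x, c191x),
  (c212x, c191x),
  (c212x, c199x),
  (c211x, c199x),
  (c211x, c189x),
  (c213x, c189x),
  (c213x, c187x),
  (c214x, c187x),
  (c214x, c193x),
  (c215x, c193x),
  (c215x, c194x),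
  (c218x, c194x),
  (c218x, c186x),
  (c219x, c186x),
  (c219x, c204x),
  (c245x, c204x),
  (c245x, c208x),
  (c249x, c208x),
  (c249x, c233x),
  (c261x, c233x),
  (c261x, c234x),
  (c263x, c234x),
  (c263x, c222x),
  (c252x, c222x),
  (c252x, c237x),
  (c251x, c237x),
  (c251x, c240x),
  (c253x, c240x),
  (c253x, c235x),
  (c248x, c235x),
  (c248x, c260x),
  (c255x, c260x),
  (c255x, c238x),
  (c254x, c238x),
  (c254x, c225x),
  (c247x, c225x),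
  (c247x, c227x),
  (c248x, c227x),
  (c248x, c229x),
  (c264x, c229x),
  (c264x, c231x),
  (c257x, c231x),
  (c257x, c238x),
  (c256x, c238x),
  (c256x, c240x),
  (c265x, c240x),
  (c265x, c234x),
  (c266x, c234x),
  (c266x, c246x),
  (c267x, c246x),
  (c267x, c237x),
  (c268x, c237x),
  (c268x, c233x),
  (c269x, c233x),
  (c269x, c250x),
  (c287x, c250x),
  (c287x, c262x),
  (c297x, c262x),
  (c297x, c279x),
  (c310x, c279x),
  (c310x, c281x),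
  (c312x, c281x),
  (c312x, c288x),
  (c301x, c288x),
  (c301x, c286x),
  (c300x, c286x),
  (c300x, c277x),
  (c299x, c277x),
  (c299x, c272x),
  (c303x, c272x),
  (c303x, c274x),
  (c304x, c274x),
  (c304x, c295x),
  (c302x, c295x),
  (c302x, c296x),
  (c318x, c296x),
  (c318x, c309x),
  (c303x, c309x),
  (c303x, c291x),
  (c319x, c291x),
  (c319x, c290x),
  (c306x, c290x),
  (c306x, c295x),
  (c305x, c295x),
  (c305x, c277x),
  (c313x, c277x),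
  (c313x, c281x),
  (c314x, c281x),
  (c314x, c284x),
  (c315x, c284x),
  (c315x, c286x),
  (c316x, c286x),
  (c316x, c279x),
  (c317x, c279x),
  (c317x, c298x),
  (c342x, c298x),
  (c342x, c311x),
  (c358x, c311x),
  (c358x, c335x),
  (c366x, c335x),
  (c366x, c336x),
  (c362x, c336x),
  (c362x, c322x),
  (c363x, c322x),
  (c363x, c324x),
  (c360x, c324x),
  (c360x, c326x),
  (c349x, c326x),
  (c349x, c345x),
  (c348x, c345x),
  (c348x, c338x),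
  (c367x, c338x),
  (c367x, c340x),
  (c344x, c340x),
  (c344x, c354x),
  (c368x, c354x),
  (c368x, c356x),
  (c350x, c356x),
  (c350x, c345x),
  (c343x, c345x),
  (c343x, c329x),
  (c344x, c329x),
  (c344x, c331x),
  (c347x, c331x),
  (c347x, c326x),
  (c346x, c326x),
  (c346x, c336x),
  (c351x, c336x),
  (c351x, c339x),
  (c364x, c339x),
  (c364x, c324x),
  (c365x, c324x),
  (c365x, c335x),
  (c369x, c335x),
  (c369x, c359x),
  (c392x, c359x),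
  (c392x, c361x),
  (c403x, c361x),
  (c403x, c381x),
  (c414x, c381x),
  (c414x, c383x),
  (c415x, c383x),
  (c415x, c385x),
  (c416x, c385x),
  (c416x, c387x),
  (c417x, c387x),
  (c417x, c388x),
  (c406x, c388x),
  (c406x, c396x),
  (c405x, c396x),
  (c405x, c375x),
  (c411x, c375x),
  (c411x, c376x),
  (c395x, c376x),
  (c395x, c372x),
  (c397x, c372x),
  (c397x, c390x),
  (c407x, c390x),
  (c407x, c396x),
  (c394x, c396x),
  (c394x, c400x),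
  (c395x, c400x),
  (c395x, c393x),
  (c410x, c393x),
  (c410x, c388x),
  (c409x, c388x),
  (c409x, c383x),
  (c408x, c383x),
  (c408x, c379x),
  (c413x, c379x),
  (c413x, c387x),
  (c418x, c387x),
  (c418x, c381x),
  (c419x, c381x),
  (c419x, c404x),
  (c439x, c404x),
  (c439x, c412x),
  (c461x, c412x),
  (c461x, c424x),
  (c460x, c424x),
  (c460x, c430x),
  (c459x, c430x),
  (c459x, c441x),
  (c466x, c441x),
  (c466x, c426x),
  (c465x, c426x),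
  (c465x, c432x),
  (c458x, c432x),
  (c458x, c436x),
  (c443x, c436x),
  (c443x, c422x),
  (c442x, c422x),
  (c442x, c450x),
  (c464x, c450x),
  (c464x, c454x),
  (c463x, c454x),
  (c463x, c452x),
  (c443x, c452x),
  (c443x, c440x),
  (c457x, c440x),
  (c457x, c434x),
  (c462x, c434x),
  (c462x, c450x),
  (c448x, c450x),
  (c448x, c432x),
  (c447x, c432x),
  (c447x, c430x),
  (c446x, c430x),
  (c446x, c428x),
  (c445x, c428x),
  (c445x, c426x),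
  (c444x, c426x),
  (c444x, c424x),
  (c438x, c424x),
  (c438x, c430x),
  (c437x, c430x),
  (c437x, c441x),
  (c456x, c441x),
  (c456x, c426x),
  (c455x, c426x),
  (c455x, c432x),
  (c435x, c432x),
  (c435x, c436x),
  (c421x, c436x),
  (c421x, c422x),
  (c420x, c422x),
  (c420x, c450x),
  (c453x, c450x),
  (c453x, c454x),
  (c451x, c454x),
  (c451x, c452x),
  (c421x, c452x),
  (c421x, c440x),
  (c433x, c440x),
  (c433x, c434x),
  (c449x, c434x),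
  (c449x, c450x),
  (c431x, c450x),
  (c431x, c432x),
  (c429x, c432x),
  (c429x, c430x),
  (c427x, c430x),
  (c427x, c428x),
  (c425x, c428x),
  (c425x, c426x),
  (c423x, c426x),
  (c423x, c424x),
  (c419x, c424x),
  (c419x, c412x),
  (c403x, c412x),
  (c403x, c404x),
  (c392x, c404x),
  (c392x, c381x),
  (c391x, c381x),
  (c391x, c387x),
  (c378x, c387x),
  (c378x, c379x),
  (c377x, c379x),
  (c377x, c383x),
  (c401x, c383x),
  (c401x, c388x),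
  (c402x, c388x),
  (c402x, c393x),
  (c370x, c393x),
  (c370x, c400x),
  (c399x, c400x),
  (c399x, c396x),
  (c389x, c396x),
  (c389x, c390x),
  (c371x, c390x),
  (c371x, c372x),
  (c370x, c372x),
  (c370x, c376x),
  (c374x, c376x),
  (c374x, c375x),
  (c373x, c375x),
  (c373x, c396x),
  (c398x, c396x),
  (c398x, c388x),
  (c386x, c388x),
  (c386x, c387x),
  (c384x, c387x),
  (c384x, c385x),
  (c382x, c385x),
  (c382x, c383x),
  (c380x, c383x),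
  (c380x, c381x),
  (c369x, c381x),
  (c369x, c361x),
  (c358x, c361x),
  (c358x, c359x),
  (c342x, c359x),
  (c342x, c335x),
  (c333x, c335x),
  (c333x, c324x),
  (c332x, c324x),
  (c332x, c339x),
  (c357x, c339x),
  (c357x, c336x),
  (c341x, c336x),
  (c341x, c326x),
  (c330x, c326x),
  (c330x, c331x),
  (c328x, c331x),
  (c328x, c329x),
  (c327x, c329x),
  (c327x, c345x),
  (c355x, c345x),
  (c355x, c356x),
  (c353x, c356x),
  (c353x, c354x),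
  (c328x, c354x),
  (c328x, c340x),
  (c337x, c340x),
  (c337x, c338x),
  (c352x, c338x),
  (c352x, c345x),
  (c325x, c345x),
  (c325x, c326x),
  (c323x, c326x),
  (c323x, c324x),
  (c321x, c324x),
  (c321x, c322x),
  (c320x, c322x),
  (c320x, c336x),
  (c334x, c336x),
  (c334x, c335x),
  (c317x, c335x),
  (c317x, c311x),
  (c297x, c311x),
  (c297x, c298x),
  (c287x, c298x),
  (c287x, c279x),
  (c285x, c279x),
  (c285x, c286x),
  (c283x, c286x),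
  (c283x, c284x),
  (c282x, c284x),
  (c282x, c281x),
  (c276x, c281x),
  (c276x, c277x),
  (c275x, c277x),
  (c275x, c295x),
  (c308x, c295x),
  (c308x, c290x),
  (c289x, c290x),
  (c289x, c291x),
  (c271x, c291x),
  (c271x, c309x),
  (c294x, c309x),
  (c294x, c296x),
  (c293x, c296x),
  (c293x, c295x),
  (c273x, c295x),
  (c273x, c274x),
  (c271x, c274x),
  (c271x, c272x),
  (c270x, c272x),
  (c270x, c277x),
  (c292x, c277x),
  (c292x, c286x),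
  (c307x, c286x),
  (c307x, c288x),
  (c280x, c288x),
  (c280x, c281x),
  (c278x, c281x),
  (c278x, c279x),
  (c269x, c279x),
  (c269x, c262x),
  (c249x, c262x),
  (c249x, c250x),
  (c245x, c250x),
  (c245x, c233x),
  (c244x, c233x),
  (c244x, c237x),
  (c243x, c237x),
  (c243x, c246x),
  (c242x, c246x),
  (c242x, c234x),
  (c241x, c234x),
  (c241x, c240x),
  (c239x, c240x),
  (c239x, c238x),
  (c230x, c238x),
  (c230x, c231x),
  (c228x, c231x),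
  (c228x, c229x),
  (c226x, c229x),
  (c226x, c227x),
  (c224x, c227x),
  (c224x, c225x),
  (c223x, c225x),
  (c223x, c238x),
  (c259x, c238x),
  (c259x, c260x),
  (c226x, c260x),
  (c226x, c235x),
  (c258x, c235x),
  (c258x, c240x),
  (c236x, c240x),
  (c236x, c237x),
  (c221x, c237x),
  (c221x, c222x),
  (c220x, c222x),
  (c220x, c234x),
  (c232x, c234x),
  (c232x, c233x),
  (c219x, c233x),
  (c219x, c208x),
  (c203x, c208x),
  (c203x, c204x),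
  (c175x, c204x),
  (c175x, c186x),
  (c174x, c186x),
  (c174x, c194x),
  (c172x, c194x),
  (c172x, c193x),
  (c182x, c193x),
  (c182x, c187x),
  (c179x, c187x),
  (c179x, c189x),
  (c150x, c189x),
  (c150x, c199x),
  (c151x, c199x),
  (c151x, c191x),
  (c190x, c191x),
  (c190x, c192x),
  (c176x, c192x),
  (c176x, c206x),
  (c201x, c206x),
  (c201x, c202x),
  (c158x, c202x),
  (c158x, c199x),
  (c160x, c199x),
  (c160x, c185x),
  (c176x, c185x),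
  (c176x, c184x),
  (c183x, c184x),
  (c183x, c189x),
  (c200x, c189x),
  (c200x, c194x),
  (c156x, c194x),
  (c156x, c188x),
  (c155x, c188x),
  (c155x, c187x),
  (c164x, c187x),
  (c164x, c186x),
  (c163x, c186x),
  (c163x, c168x),
  (c149x, c168x),
  (c149x, c166x),
  (c124x, c166x),
  (c124x, c165x),
  (c144x, c165x),
  (c144x, c167x),
  (c145x, c167x),
  (c145x, c157x),
  (c146x, c157x),
  (c146x, c159x),
  (c147x, c159x),
  (c147x, c161x),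
  (c127x, c161x),
  (c127x, c162x),
  (c126x, c162x),
  (c126x, c170x),
  (c141x, c170x),
  (c141x, c171x),
  (c130x, c171x),
  (c130x, c178x),
  (c131x, c178x),
  (c131x, c180x),
  (c132x, c180x),
  (c132x, c162x),
  (c129x, c162x),
  (c129x, c152x),
  (c130x, c152x),
  (c130x, c154x),
  (c140x, c154x),
  (c140x, c161x),
  (c134x, c161x),
  (c134x, c167x),
  (c133x, c167x),
  (c133x, c173x),
  (c143x, c173x),
  (c143x, c159x),
  (c148x, c159x),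
  (c148x, c165x),
  (c149x, c165x),
  (c149x, c142x),
  (c124x, c142x),
  (c124x, c125x),
  (c123x, c125x),
  (c123x, c104x),
  (c122x, c104x),
  (c122x, c119x),
  (c114x, c119x),
  (c114x, c115x),
  (c113x, c115x),
  (c113x, c106x),
  (c138x, c106x),
  (c138x, c120x),
  (c139x, c120x),
  (c139x, c121x),
  (c100x, c121x),
  (c100x, c137x),
  (c136x, c137x),
  (c136x, c128x),
  (c111x, c128x),
  (c111x, c112x),
  (c101x, c112x),
  (c101x, c102x),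
  (c100x, c102x),
  (c100x, c110x),
  (c108x, c110x),
  (c108x, c109x),
  (c107x, c109x),
  (c107x, c128x),
  (c135x, c128x),
  (c135x, c120x),
  (c118x, c120x),
  (c118x, c119x),
  (c116x, c119x),
  (c116x, c117x),
  (c105x, c117x),
  (c105x, c106x),
  (c103x, c106x),
  (c103x, c104x),
  (c98x, c104x),
  (c98x, c91x),
  (c78x, c91x),
  (c78x, c79x),
  (c69x, c79x),
  (c69x, c62x),
  (c68x, c62x),
  (c68x, c64x),
  (c67x, c64x),
  (c67x, c71x),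
  (c89x, c71x),
  (c89x, c63x),
  (c77x, c63x),
  (c77x, c58x),
  (c59x, c58x),
  (c59x, c60x),
  (c51x, c60x),
  (c51x, c52x),
  (c50x, c52x),
  (c50x, c73x),
  (c75x, c73x),
  (c75x, c76x),
  (c74x, c76x),
  (c74x, c88x),
  (c51x, c88x),
  (c51x, c70x),
  (c65x, c70x),
  (c65x, c66x),
  (c72x, c66x),
  (c72x, c73x),
  (c57x, c73x),
  (c57x, c58x),
  (c56x, c58x),
  (c56x, c64x),
  (c54x, c64x),
  (c54x, c55x),
  (c53x, c55x),
  (c53x, c63x),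
  (c61x, c63x),
  (c61x, c62x),
  (c49x, c62x),
  (c49x, c43x),
  (c39x, c43x),
  (c39x, c13x),
  (c14x, c13x),
  (c14x, c14x)]

def qs : List (Q × List ℕ) := [
  (⟨some c14x, some c15x, none, some c14x⟩, [0, 1, 2, 787]),
  (⟨some c15x, some c16x, none, some c17x⟩, [1, 2, 3]),
  (⟨some c16x, some c18x, none, some c19x⟩, [2, 3, 4, 5, 6]),
  (⟨some c18x, some c20x, none, some c21x⟩, [5, 6, 7]),
  (⟨some c7x, some c12x, none, some c9x⟩, [11, 12, 13, 14]),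
  (⟨some c20x, some c7x, none, some c22x⟩, [6, 7, 8, 10, 11, 12]),
  (⟨some c12x, some c2x, none, some c3x⟩, [13, 14, 15, 16]),
  (⟨some c2x, some c5x, none, some c6x⟩, [15, 16, 17]),
  (⟨some c5x, some c10x, none, some c11x⟩, [16, 17, 18, 19]),
  (⟨some c10x, some c23x, none, some c37x⟩, [18, 19, 20, 24, 28, 29, 30]),
  (⟨some c23x, some c36x, none, some c25x⟩, [29, 30, 31]),
  (⟨some c36x, some c38x, none, some c21x⟩, [30, 31, 32, 33, 34]),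
  (⟨some c38x, some c41x, none, some c14x⟩, [33, 34, 35, 36]),
  (⟨some c41x, some c42x, none, some c17x⟩, [35, 36, 37]),
  (⟨some c42x, some c44x, none, some c19x⟩, [36, 37, 38, 39, 40]),
  (⟨some c44x, some c45x, none, some c21x⟩, [39, 40, 41]),
  (⟨some c26x, some c46x, none, some c9x⟩, [45, 46, 47, 48]),
  (⟨some c45x, some c26x, none, some c22x⟩, [40, 41, 42, 44, 45, 46]),
  (⟨some c46x, some c29x, none, some c3x⟩, [47, 48, 49, 50]),
  (⟨some c29x, some c30x, none, some c6x⟩, [49, 50, 51]),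
  (⟨some c30x, some c31x, none, some c11x⟩, [50, 51, 52, 53]),
  (⟨some c31x, some c32x, none, some c37x⟩, [52, 53, 54, 58, 62, 63, 64]),
  (⟨some c32x, some c47x, none, some c25x⟩, [63, 64, 65]),
  (⟨some c47x, some c48x, none, some c21x⟩, [64, 65, 66, 67, 68]),
  (⟨some c48x, some c49x, none, some c14x⟩, [67, 68, 69]),
  (⟨some c49x, some c69x, none, some c13x⟩, [68, 69, 70, 71]),
  (⟨some c69x, some c78x, none, some c43x⟩, [70, 71, 72, 73]),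
  (⟨some c94x, some c81x, none, some c58x⟩, [81, 82, 83]),
  (⟨some c82x, some c83x, none, some c52x⟩, [95, 96, 97]),
  (⟨some c83x, some c86x, none, some c60x⟩, [96, 97, 98, 99]),
  (⟨some c78x, some c90x, none, some c62x⟩, [72, 73, 74, 75]),
  (⟨some c90x, some c92x, none, some c63x⟩, [74, 75, 76, 77, 78]),
  (⟨some c92x, some c93x, none, some c55x⟩, [77, 78, 79]),
  (⟨some c93x, some c94x, none, some c64x⟩, [78, 79, 80, 81, 82]),
  (⟨some c96x, some c97x, none, some c64x⟩, [105, 106, 107]),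
  (⟨some c97x, some c98x, none, some c62x⟩, [106, 107, 108, 109]),
  (⟨some c81x, some c99x, none, some c66x⟩, [82, 83, 84, 86, 87]),
  (⟨some c99x, some c82x, none, some c70x⟩, [86, 87, 88, 94, 95, 96]),
  (⟨some c86x, some c96x, none, some c71x⟩, [98, 99, 100, 104, 105, 106]),
  (⟨some c98x, some c123x, none, some c79x⟩, [108, 109, 110, 111]),
  (⟨some c123x, some c124x, none, some c91x⟩, [110, 111, 112, 113]),
  (⟨some c130x, some c131x, none, some c102x⟩, [129, 130, 131]),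
  (⟨some c124x, some c144x, none, some c104x⟩, [112, 113, 114, 115, 116]),
  (⟨some c144x, some c145x, none, some c106x⟩, [115, 116, 117]),
  (⟨some c145x, some c146x, none, some c117x⟩, [116, 117, 118, 119, 120]),
  (⟨some c146x, some c147x, none, some c119x⟩, [119, 120, 121]),
  (⟨some c126x, some c141x, none, some c109x⟩, [125, 126, 127, 128]),
  (⟨some c141x, some c130x, none, some c110x⟩, [127, 128, 129, 130]),
  (⟨some c131x, some c132x, none, some c112x⟩, [130, 131, 132, 133]),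
  (⟨none, some c14x, none, none⟩, [0, 786, 787]),
  (⟨some c7x, some c8x, some c4x, some c22x⟩, [8, 9, 10, 11]),
  (⟨some c1x, some c2x, some c4x, some c40x⟩, [20, 21, 22, 23, 24]),
  (⟨some c2x, some c10x, some c4x, some c37x⟩, [19, 20, 23, 24]),
  (⟨some c23x, some c24x, some c17x, some c37x⟩, [24, 26, 27, 28, 29]),
  (⟨some c24x, some c34x, some c22x, some c37x⟩, [24, 25, 26, 27]),
  (⟨some c26x, some c27x, some c4x, some c22x⟩, [42, 43, 44, 45]),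
  (⟨some c29x, some c31x, some c4x, some c37x⟩, [53, 54, 57, 58]),
  (⟨some c32x, some c33x, some c17x, some c37x⟩, [58, 60, 61, 62, 63]),
  (⟨some c28x, some c29x, some c4x, some c40x⟩, [54, 55, 56, 57, 58]),
  (⟨some c33x, some c35x, some c22x, some c37x⟩, [58, 59, 60, 61]),
  (⟨some c72x, some c57x, some c58x, some c73x⟩, [771, 772, 773, 774]),
  (⟨some c147x, some c126x, none, some c120x⟩, [120, 121, 122, 124, 125, 126]),
  (⟨some c132x, some c133x, none, some c121x⟩, [132, 133, 134, 138, 142, 143, 144]),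
  (⟨some c77x, some c59x, some c60x, some c58x⟩, [755, 756, 757, 758]),
  (⟨some c50x, some c51x, some c52x, some c73x⟩, [758, 759, 760, 761, 762]),
  (⟨some c51x, some c75x, some c60x, some c73x⟩, [758, 759, 762, 763]),
  (⟨some c89x, some c77x, some c60x, some c63x⟩, [753, 754, 755, 756, 758]),
  (⟨some c80x, some c81x, some c73x, some c66x⟩, [83, 84, 85, 86]),
  (⟨some c82x, some c83x, some c73x, some c70x⟩, [88, 89, 94, 95]),
  (⟨some c83x, some c95x, some c73x, some c88x⟩, [88, 89, 90, 91, 92, 94]),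
  (⟨some c95x, some c84x, some c73x, some c76x⟩, [91, 92, 93, 94]),
  (⟨some c85x, some c86x, some c58x, some c71x⟩, [99, 100, 101, 102, 104]),
  (⟨some c87x, some c85x, some c63x, some c71x⟩, [101, 102, 103, 104]),
  (⟨some c107x, some c135x, some c109x, some c128x⟩, [730, 731, 732, 733]),
  (⟨some c136x, some c100x, some c110x, some c128x⟩, [721, 722, 727, 728]),
  (⟨some c100x, some c101x, some c102x, some c128x⟩, [722, 724, 725, 726, 727, 728]),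
  (⟨some c101x, some c111x, some c112x, some c128x⟩, [722, 723, 724, 725]),
  (⟨some c113x, some c138x, some c115x, some c106x⟩, [712, 713, 714, 715]),
  (⟨some c138x, some c139x, some c115x, some c120x⟩, [712, 714, 715, 716, 717]),
  (⟨some c126x, some c127x, some c128x, some c120x⟩, [122, 123, 124, 125]),
  (⟨some c130x, some c132x, some c128x, some c121x⟩, [133, 134, 137, 138]),
  (⟨some c133x, some c134x, some c106x, some c121x⟩, [138, 140, 141, 142, 143]),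
  (⟨some c129x, some c130x, some c128x, some c137x⟩, [134, 135, 136, 137, 138]),
  (⟨some c134x, some c140x, some c120x, some c121x⟩, [138, 139, 140, 141]),
  (⟨some c129x, some c130x, some c142x, some c152x⟩, [689, 690, 691, 704]),
  (⟨some c124x, some c144x, some c142x, some c165x⟩, [667, 668, 669, 704, 705]),
  (⟨some c144x, some c145x, some c142x, some c167x⟩, [668, 669, 670, 671, 672, 704]),
  (⟨some c145x, some c146x, some c142x, some c157x⟩, [671, 672, 673, 704]),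
  (⟨some c146x, some c147x, some c142x, some c159x⟩, [672, 673, 674, 675, 676, 704]),
  (⟨some c147x, some c127x, some c142x, some c161x⟩, [675, 676, 677, 704]),
  (⟨some c130x, some c140x, some c142x, some c154x⟩, [690, 691, 692, 693, 704]),
  (⟨some c127x, some c141x, some c142x, some c170x⟩, [676, 677, 678, 680, 681, 704]),
  (⟨some c141x, some c129x, some c142x, some c171x⟩, [680, 681, 682, 688, 689, 690, 704]),
  (⟨some c131x, some c132x, some c162x, some c180x⟩, [685, 686, 687, 688]),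
  (⟨some c126x, some c127x, some c162x, some c170x⟩, [677, 678, 679, 680]),
  (⟨some c129x, some c130x, some c162x, some c171x⟩, [682, 683, 688, 689]),
  (⟨some c130x, some c131x, some c162x, some c178x⟩, [682, 683, 684, 685, 686, 688]),
  (⟨some c133x, some c134x, some c167x, some c173x⟩, [695, 696, 697, 698]),
  (⟨some c133x, some c143x, none, some c115x⟩, [143, 144, 145]),
  (⟨some c143x, some c148x, none, some c119x⟩, [144, 145, 146, 147, 148]),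
  (⟨some c148x, some c149x, none, some c104x⟩, [147, 148, 149]),
  (⟨some c149x, some c163x, none, some c125x⟩, [148, 149, 150, 151]),
  (⟨some c163x, some c175x, none, some c142x⟩, [150, 151, 152, 153]),
  (⟨some c175x, some c203x, none, some c168x⟩, [152, 153, 154, 190, 191, 192, 193]),
  (⟨some c207x, some c209x, none, some c187x⟩, [195, 196, 197]),
  (⟨some c195x, some c197x, none, some c184x⟩, [203, 204, 205, 206]),
  (⟨some c197x, some c198x, none, some c185x⟩, [205, 206, 207]),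
  (⟨some c211x, some c213x, none, some c189x⟩, [219, 220, 221]),
  (⟨some c213x, some c214x, none, some c187x⟩, [220, 221, 222, 223, 224]),
  (⟨some c214x, some c215x, none, some c193x⟩, [223, 224, 225]),
  (⟨some c203x, some c207x, none, some c186x⟩, [192, 193, 194, 195, 196]),
  (⟨some c209x, some c195x, none, some c188x⟩, [196, 197, 198, 202, 203, 204]),
  (⟨some c198x, some c217x, none, some c192x⟩, [206, 207, 208, 214, 215, 216]),
  (⟨some c217x, some c211x, none, some c191x⟩, [215, 216, 218, 219, 220]),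
  (⟨some c215x, some c218x, none, some c194x⟩, [224, 225, 226, 227, 228]),
  (⟨some c218x, some c219x, none, some c186x⟩, [227, 228, 229]),
  (⟨some c219x, some c245x, none, some c204x⟩, [228, 229, 230, 231]),
  (⟨some c245x, some c249x, none, some c208x⟩, [230, 231, 232, 233]),
  (⟨some c247x, some c248x, none, some c227x⟩, [251, 252, 253]),
  (⟨some c263x, some c252x, none, some c222x⟩, [237, 238, 239]),
  (⟨some c248x, some c264x, none, some c229x⟩, [252, 253, 254, 255]),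
  (⟨some c264x, some c257x, none, some c231x⟩, [254, 255, 256, 257]),
  (⟨some c249x, some c261x, none, some c233x⟩, [232, 233, 234, 235]),
  (⟨some c261x, some c263x, none, some c234x⟩, [234, 235, 236, 237, 238]),
  (⟨some c252x, some c254x, none, some c235x⟩, [238, 239, 240, 244, 248, 249, 250]),
  (⟨some c254x, some c247x, none, some c225x⟩, [249, 250, 251, 252]),
  (⟨some c257x, some c265x, none, some c240x⟩, [256, 257, 258, 260, 261, 262]),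
  (⟨some c265x, some c266x, none, some c234x⟩, [261, 262, 263]),
  (⟨some c266x, some c267x, none, some c246x⟩, [262, 263, 264, 265, 266]),
  (⟨some c267x, some c268x, none, some c237x⟩, [265, 266, 267]),
  (⟨some c268x, some c269x, none, some c233x⟩, [266, 267, 268, 269]),
  (⟨some c269x, some c287x, none, some c250x⟩, [268, 269, 270, 271]),
  (⟨some c287x, some c297x, none, some c262x⟩, [270, 271, 272, 273]),
  (⟨some c303x, some c304x, none, some c274x⟩, [285, 286, 287]),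
  (⟨some c297x, some c310x, none, some c279x⟩, [272, 273, 274, 275, 276]),
  (⟨some c310x, some c312x, none, some c281x⟩, [275, 276, 277]),
  (⟨some c312x, some c299x, none, some c288x⟩, [276, 277, 278, 282, 283, 284]),
  (⟨some c299x, some c303x, none, some c272x⟩, [283, 284, 285, 286]),
  (⟨some c319x, some c305x, none, some c290x⟩, [295, 296, 298, 299, 300]),
  (⟨some c304x, some c319x, none, some c291x⟩, [286, 287, 288, 294, 295, 296]),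
  (⟨some c305x, some c313x, none, some c277x⟩, [299, 300, 301]),
  (⟨some c313x, some c314x, none, some c281x⟩, [300, 301, 302, 303, 304]),
  (⟨some c314x, some c315x, none, some c284x⟩, [303, 304, 305]),
  (⟨some c315x, some c316x, none, some c286x⟩, [304, 305, 306, 307, 308]),
  (⟨some c316x, some c317x, none, some c279x⟩, [307, 308, 309]),
  (⟨some c317x, some c342x, none, some c298x⟩, [308, 309, 310, 311]),
  (⟨some c342x, some c358x, none, some c311x⟩, [310, 311, 312, 313]),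
  (⟨some c362x, some c363x, none, some c322x⟩, [317, 318, 319]),
  (⟨some c363x, some c360x, none, some c324x⟩, [318, 319, 320, 321, 322]),
  (⟨some c360x, some c349x, none, some c326x⟩, [321, 322, 323]),
  (⟨some c358x, some c366x, none, some c335x⟩, [312, 313, 314, 315]),
  (⟨some c366x, some c362x, none, some c336x⟩, [314, 315, 316, 317, 318]),
  (⟨some c143x, some c148x, some c142x, some c159x⟩, [699, 700, 701, 704]),
  (⟨some c140x, some c143x, some c142x, some c173x⟩, [692, 693, 694, 698, 699, 700, 704]),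
  (⟨some c148x, some c149x, some c142x, some c165x⟩, [700, 701, 702, 703, 704]),
  (⟨some c176x, some c160x, some c161x, some c162x⟩, [177, 178, 179, 180]),
  (⟨some c150x, some c151x, some c152x, some c162x⟩, [164, 165, 166, 167, 168]),
  (⟨some c151x, some c179x, some c154x, some c162x⟩, [164, 165, 168, 169]),
  (⟨some c181x, some c153x, some c154x, some c161x⟩, [161, 162, 163, 164]),
  (⟨some c134x, some c140x, some c161x, some c173x⟩, [693, 694, 695, 696, 698]),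
  (⟨some c163x, some c164x, some c165x, some c166x⟩, [186, 187, 188, 189, 190]),
  (⟨some c164x, some c155x, some c167x, some c166x⟩, [185, 186, 187, 190]),
  (⟨some c155x, some c156x, some c157x, some c166x⟩, [182, 183, 184, 185, 186, 190]),
  (⟨some c156x, some c158x, some c159x, some c166x⟩, [181, 182, 183, 190]),
  (⟨some c158x, some c176x, some c161x, some c166x⟩, [176, 177, 178, 180, 181, 182, 190]),
  (⟨some c182x, some c181x, some c154x, some c167x⟩, [159, 160, 161, 162, 164]),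
  (⟨some c179x, some c182x, some c154x, some c166x⟩, [158, 159, 160, 164, 168, 169, 170, 190]),
  (⟨some c172x, some c174x, some c159x, some c166x⟩, [154, 155, 156, 157, 158, 190]),
  (⟨some c176x, some c169x, some c170x, some c166x⟩, [174, 175, 176, 177, 190]),
  (⟨some c177x, some c179x, some c180x, some c166x⟩, [169, 170, 171, 172, 190]),
  (⟨some c182x, some c172x, some c173x, some c166x⟩, [157, 158, 159, 190]),
  (⟨some c174x, some c175x, some c165x, some c166x⟩, [153, 154, 155, 190, 191]),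
  (⟨some c349x, some c367x, none, some c338x⟩, [322, 323, 324, 326, 327]),
  (⟨some c343x, some c344x, none, some c329x⟩, [335, 336, 337]),
  (⟨some c344x, some c347x, none, some c331x⟩, [336, 337, 338, 339]),
  (⟨some c347x, some c364x, none, some c339x⟩, [338, 339, 340, 344, 345, 346]),
  (⟨some c364x, some c365x, none, some c324x⟩, [345, 346, 347]),
  (⟨some c365x, some c369x, none, some c335x⟩, [346, 347, 348, 349]),
  (⟨some c367x, some c343x, none, some c340x⟩, [326, 327, 328, 334, 335, 336]),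
  (⟨some c369x, some c392x, none, some c359x⟩, [348, 349, 350, 351]),
  (⟨some c392x, some c403x, none, some c361x⟩, [350, 351, 352, 353]),
  (⟨some c403x, some c414x, none, some c381x⟩, [352, 353, 354, 355, 356]),
  (⟨some c414x, some c415x, none, some c383x⟩, [355, 356, 357]),
  (⟨some c415x, some c416x, none, some c385x⟩, [356, 357, 358, 359, 360]),
  (⟨some c416x, some c417x, none, some c387x⟩, [359, 360, 361]),
  (⟨some c405x, some c411x, none, some c375x⟩, [365, 366, 367, 368]),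
  (⟨some c417x, some c405x, none, some c388x⟩, [360, 361, 362, 364, 365, 366]),
  (⟨some c411x, some c395x, none, some c376x⟩, [367, 368, 369, 370]),
  (⟨some c395x, some c397x, none, some c372x⟩, [369, 370, 371]),
  (⟨some c397x, some c407x, none, some c390x⟩, [370, 371, 372, 373]),
  (⟨some c407x, some c408x, none, some c393x⟩, [372, 373, 374, 378, 382, 383, 384]),
  (⟨some c408x, some c413x, none, some c379x⟩, [383, 384, 385]),
  (⟨some c413x, some c418x, none, some c387x⟩, [384, 385, 386, 387, 388]),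
  (⟨some c418x, some c419x, none, some c381x⟩, [387, 388, 389]),
  (⟨some c419x, some c439x, none, some c404x⟩, [388, 389, 390, 391]),
  (⟨some c439x, some c461x, none, some c412x⟩, [390, 391, 392, 393]),
  (⟨some c461x, none, none, none⟩, [392, 393, 394]),
  (⟨some c169x, some c151x, some c171x, some c166x⟩, [172, 173, 174, 175, 190]),
  (⟨some c151x, some c177x, some c178x, some c166x⟩, [171, 172, 173, 190]),
  (⟨some c183x, some c200x, some c184x, some c189x⟩, [652, 653, 654, 655]),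
  (⟨some c158x, some c176x, some c184x, some c199x⟩, [647, 648, 651, 652]),
  (⟨some c176x, some c160x, some c185x, some c199x⟩, [648, 649, 650, 651, 652]),
  (⟨some c150x, some c151x, some c189x, some c199x⟩, [636, 637, 638, 639]),
  (⟨some c200x, some c156x, some c184x, some c194x⟩, [652, 654, 655, 656, 657]),
  (⟨some c195x, some c196x, some c189x, some c188x⟩, [198, 200, 201, 202, 203]),
  (⟨some c196x, some c205x, some c194x, some c188x⟩, [198, 199, 200, 201]),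
  (⟨some c210x, some c216x, some c199x, some c202x⟩, [208, 209, 210, 211]),
  (⟨some c197x, some c198x, some c199x, some c192x⟩, [207, 208, 213, 214]),
  (⟨some c211x, some c212x, some c199x, some c191x⟩, [216, 217, 218, 219]),
  (⟨some c216x, some c197x, some c199x, some c206x⟩, [208, 210, 211, 212, 213, 214]),
  (⟨some c224x, some c226x, some c227x, some c238x⟩, [602, 603, 604, 605, 606, 608]),
  (⟨some c226x, some c259x, some c229x, some c238x⟩, [602, 603, 608, 609]),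
  (⟨some c236x, some c221x, some c222x, some c237x⟩, [615, 616, 617, 618]),
  (⟨some c223x, some c224x, some c225x, some c238x⟩, [605, 606, 607, 608]),
  (⟨some c239x, some c230x, some c231x, some c238x⟩, [597, 598, 599, 600]),
  (⟨some c258x, some c236x, some c222x, some c240x⟩, [613, 614, 615, 616, 618]),
  (⟨some c251x, some c252x, some c237x, some c235x⟩, [239, 240, 241, 242, 244]),
  (⟨some c253x, some c251x, some c240x, some c235x⟩, [241, 242, 243, 244]),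
  (⟨some c254x, some c248x, some c238x, some c235x⟩, [244, 245, 248, 249]),
  (⟨some c248x, some c255x, some c238x, some c260x⟩, [244, 245, 246, 247, 248]),
  (⟨some c256x, some c257x, some c238x, some c240x⟩, [257, 258, 259, 260]),
  (⟨some c270x, some c292x, some c272x, some c277x⟩, [572, 573, 574, 575]),
  (⟨some c292x, some c307x, some c272x, some c286x⟩, [572, 574, 575, 576, 577]),
  (⟨some c293x, some c271x, some c272x, some c295x⟩, [567, 568, 571, 572]),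
  (⟨some c271x, some c273x, some c274x, some c295x⟩, [568, 569, 570, 571, 572]),
  (⟨some c275x, some c308x, some c277x, some c295x⟩, [556, 557, 558, 559]),
  (⟨some c299x, some c300x, some c277x, some c288x⟩, [278, 280, 281, 282, 283]),
  (⟨some c300x, some c301x, some c286x, some c288x⟩, [278, 279, 280, 281]),
  (⟨some c302x, some c318x, some c295x, some c296x⟩, [288, 289, 290, 291]),
  (⟨some c305x, some c306x, some c295x, some c290x⟩, [296, 297, 298, 299]),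
  (⟨some c303x, some c304x, some c295x, some c291x⟩, [287, 288, 293, 294]),
  (⟨some c318x, some c303x, some c295x, some c309x⟩, [288, 290, 291, 292, 293, 294]),
  (⟨some c341x, some c330x, some c331x, some c326x⟩, [515, 516, 517, 518]),
  (⟨some c352x, some c325x, some c326x, some c345x⟩, [531, 532, 533, 534]),
  (⟨some c327x, some c328x, some c329x, some c345x⟩, [518, 519, 520, 521, 522]),
  (⟨some c328x, some c355x, some c331x, some c345x⟩, [518, 519, 522, 523]),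
  (⟨some c357x, some c341x, some c331x, some c336x⟩, [513, 514, 515, 516, 518]),
  (⟨some c368x, some c350x, some c345x, some c356x⟩, [331, 332, 333, 334]),
  (⟨some c346x, some c347x, some c326x, some c339x⟩, [339, 340, 341, 342, 344]),
  (⟨some c348x, some c349x, some c345x, some c338x⟩, [323, 324, 325, 326]),
  (⟨some c343x, some c344x, some c345x, some c340x⟩, [328, 329, 334, 335]),
  (⟨some c351x, some c346x, some c336x, some c339x⟩, [341, 342, 343, 344]),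
  (⟨some c344x, some c368x, some c345x, some c354x⟩, [328, 329, 330, 331, 332, 334]),
  (⟨some c370x, some c371x, some c372x, some c396x⟩, [482, 484, 485, 486, 487, 488]),
  (⟨some c399x, some c370x, some c376x, some c396x⟩, [481, 482, 487, 488]),
  (⟨some c377x, some c401x, some c379x, some c383x⟩, [472, 473, 474, 475]),
  (⟨some c373x, some c398x, some c375x, some c396x⟩, [490, 491, 492, 493]),
  (⟨some c371x, some c389x, some c390x, some c396x⟩, [482, 483, 484, 485]),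
  (⟨some c401x, some c402x, some c379x, some c388x⟩, [472, 474, 475, 476, 477]),
  (⟨some c405x, some c406x, some c396x, some c388x⟩, [362, 363, 364, 365]),
  (⟨some c395x, some c407x, some c396x, some c393x⟩, [373, 374, 377, 378]),
  (⟨some c408x, some c409x, some c383x, some c393x⟩, [378, 380, 381, 382, 383]),
  (⟨some c394x, some c395x, some c396x, some c400x⟩, [374, 375, 376, 377, 378]),
  (⟨some c409x, some c410x, some c388x, some c393x⟩, [378, 379, 380, 381]),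
  (⟨some c455x, some c435x, some c436x, some c432x⟩, [435, 436, 437, 438]),
  (⟨some c420x, some c421x, some c422x, some c450x⟩, [438, 439, 440, 441, 442]),
  (⟨some c442x, some c443x, some c422x, some c450x⟩, [404, 405, 406, 407, 408]),
  (⟨some c465x, some c458x, some c436x, some c432x⟩, [401, 402, 403, 404]),
  (⟨some c449x, some c431x, some c432x, some c450x⟩, [451, 452, 453, 454]),
  (⟨some c421x, some c453x, some c436x, some c450x⟩, [438, 439, 442, 443]),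
  (⟨some c456x, some c455x, some c436x, some c426x⟩, [433, 434, 435, 436, 438]),
  (⟨some c462x, some c448x, some c432x, some c450x⟩, [417, 418, 419, 420]),
  (⟨some c443x, some c464x, some c436x, some c450x⟩, [404, 405, 408, 409]),
  (⟨some c466x, some c465x, some c436x, some c426x⟩, [399, 400, 401, 402, 404]),
  (⟨some c14x, some c39x, some c13x, none⟩, [784, 785, 786, 787]),
  (⟨some c39x, some c49x, some c43x, none⟩, [782, 783, 784, 785]),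
  (⟨some c75x, some c89x, some c60x, none⟩, [752, 753, 754, 758, 762, 763, 764]),
  (⟨some c53x, some c54x, some c55x, none⟩, [776, 777, 778, 779, 780]),
  (⟨some c54x, some c56x, some c64x, none⟩, [775, 776, 777]),
  (⟨some c56x, some c72x, some c58x, none⟩, [770, 771, 772, 774, 775, 776]),
  (⟨some c49x, some c61x, some c62x, none⟩, [780, 781, 782, 783]),
  (⟨some c61x, some c53x, some c63x, none⟩, [779, 780, 781]),
  (⟨some c72x, some c65x, some c66x, none⟩, [768, 769, 770, 771]),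
  (⟨some c65x, some c51x, some c70x, none⟩, [766, 767, 768, 769]),
  (⟨some c74x, some c75x, some c76x, none⟩, [763, 764, 765, 766]),
  (⟨some c51x, some c74x, some c88x, none⟩, [765, 766, 767]),
  (⟨some c89x, some c67x, some c71x, none⟩, [751, 752, 753]),
  (⟨some c67x, some c68x, some c64x, none⟩, [748, 749, 750, 751, 752]),
  (⟨some c68x, some c69x, some c62x, none⟩, [746, 747, 748, 749]),
  (⟨some c69x, some c78x, some c79x, none⟩, [744, 745, 746, 747]),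
  (⟨some c78x, some c98x, some c91x, none⟩, [742, 743, 744, 745]),
  (⟨some c108x, some c136x, some c110x, none⟩, [720, 721, 722, 728, 729, 730]),
  (⟨some c98x, some c103x, some c104x, none⟩, [741, 742, 743]),
  (⟨some c103x, some c105x, some c106x, none⟩, [738, 739, 740, 741, 742]),
  (⟨some c116x, some c118x, some c119x, none⟩, [734, 735, 736, 737, 738]),
  (⟨some c135x, some c108x, some c109x, none⟩, [729, 730, 732, 733, 734]),
  (⟨some c139x, some c114x, some c115x, none⟩, [710, 711, 712, 716, 717, 718]),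
  (⟨some c122x, some c123x, some c104x, none⟩, [706, 707, 708, 709, 710]),
  (⟨some c105x, some c116x, some c117x, none⟩, [737, 738, 739]),
  (⟨some c118x, some c135x, some c120x, none⟩, [733, 734, 735]),
  (⟨some c114x, some c122x, some c119x, none⟩, [709, 710, 711]),
  (⟨some c136x, some c100x, some c137x, none⟩, [719, 720, 721]),
  (⟨some c100x, some c139x, some c121x, none⟩, [717, 718, 719, 720]),
  (⟨some c123x, some c124x, some c125x, none⟩, [666, 667, 668, 704, 705, 706, 707]),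
  (⟨some c124x, some c149x, some c166x, none⟩, [664, 665, 666, 667]),
  (⟨some c149x, some c163x, some c168x, none⟩, [662, 663, 664, 665]),
  (⟨some c164x, some c155x, some c187x, none⟩, [658, 659, 660, 661, 662]),
  (⟨some c156x, some c158x, some c184x, none⟩, [646, 647, 648, 652, 656, 657, 658]),
  (⟨some c163x, some c164x, some c186x, none⟩, [661, 662, 663]),
  (⟨some c155x, some c156x, some c188x, none⟩, [657, 658, 659]),
  (⟨some c158x, some c201x, some c202x, none⟩, [644, 645, 646, 647]),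
  (⟨some c201x, some c176x, some c206x, none⟩, [643, 644, 645]),
  (⟨some c176x, some c190x, some c192x, none⟩, [641, 642, 643, 644]),
  (⟨some c190x, some c151x, some c191x, none⟩, [639, 640, 641, 642]),
  (⟨some c151x, some c179x, some c189x, none⟩, [634, 635, 636, 638, 639, 640]),
  (⟨some c179x, some c182x, some c187x, none⟩, [633, 634, 635]),
  (⟨some c182x, some c172x, some c193x, none⟩, [630, 631, 632, 633, 634]),
  (⟨some c174x, some c175x, some c186x, none⟩, [626, 627, 628, 629, 630]),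
  (⟨some c172x, some c174x, some c194x, none⟩, [629, 630, 631]),
  (⟨some c175x, some c203x, some c204x, none⟩, [624, 625, 626, 627]),
  (⟨some c203x, some c219x, some c208x, none⟩, [622, 623, 624, 625]),
  (⟨some c220x, some c258x, some c222x, none⟩, [612, 613, 614, 618, 619, 620]),
  (⟨some c259x, some c228x, some c229x, none⟩, [600, 601, 602, 608, 609, 610]),
  (⟨some c219x, some c232x, some c233x, none⟩, [620, 621, 622, 623]),
  (⟨some c232x, some c220x, some c234x, none⟩, [619, 620, 621]),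
  (⟨some c228x, some c239x, some c231x, none⟩, [596, 597, 598, 600, 601]),
  (⟨some c241x, some c242x, some c234x, none⟩, [592, 593, 594, 595, 596]),
  (⟨some c243x, some c244x, some c237x, none⟩, [588, 589, 590, 591, 592]),
  (⟨some c244x, some c245x, some c233x, none⟩, [586, 587, 588, 589]),
  (⟨some c258x, some c226x, some c235x, none⟩, [610, 611, 612, 613]),
  (⟨some c226x, some c259x, some c260x, none⟩, [609, 610, 611]),
  (⟨some c239x, some c241x, some c240x, none⟩, [595, 596, 597]),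
  (⟨some c242x, some c243x, some c246x, none⟩, [591, 592, 593]),
  (⟨some c245x, some c249x, some c250x, none⟩, [584, 585, 586, 587]),
  (⟨some c249x, some c269x, some c262x, none⟩, [582, 583, 584, 585]),
  (⟨some c269x, some c278x, some c279x, none⟩, [581, 582, 583]),
  (⟨some c278x, some c280x, some c281x, none⟩, [578, 579, 580, 581, 582]),
  (⟨some c307x, some c293x, some c272x, none⟩, [566, 567, 568, 572, 576, 577, 578]),
  (⟨some c308x, some c276x, some c277x, none⟩, [554, 555, 556, 558, 559, 560]),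
  (⟨some c276x, some c282x, some c281x, none⟩, [553, 554, 555]),
  (⟨some c282x, some c283x, some c284x, none⟩, [550, 551, 552, 553, 554]),
  (⟨some c280x, some c307x, some c288x, none⟩, [577, 578, 579]),
  (⟨some c293x, some c294x, some c296x, none⟩, [564, 565, 566, 567]),
  (⟨some c294x, some c271x, some c309x, none⟩, [563, 564, 565]),
  (⟨some c271x, some c289x, some c291x, none⟩, [561, 562, 563, 564]),
  (⟨some c289x, some c308x, some c290x, none⟩, [559, 560, 561, 562]),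
  (⟨some c283x, some c285x, some c286x, none⟩, [549, 550, 551]),
  (⟨some c285x, some c287x, some c279x, none⟩, [546, 547, 548, 549, 550]),
  (⟨some c287x, some c297x, some c298x, none⟩, [544, 545, 546, 547]),
  (⟨some c297x, some c317x, some c311x, none⟩, [542, 543, 544, 545]),
  (⟨some c320x, some c321x, some c322x, none⟩, [536, 537, 538, 539, 540]),
  (⟨some c321x, some c323x, some c324x, none⟩, [535, 536, 537]),
  (⟨some c323x, some c352x, some c326x, none⟩, [530, 531, 532, 534, 535, 536]),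
  (⟨some c355x, some c357x, some c331x, none⟩, [512, 513, 514, 518, 522, 523, 524]),
  (⟨some c317x, some c334x, some c335x, none⟩, [540, 541, 542, 543]),
  (⟨some c334x, some c320x, some c336x, none⟩, [539, 540, 541]),
  (⟨some c352x, some c337x, some c338x, none⟩, [528, 529, 530, 531]),
  (⟨some c337x, some c328x, some c340x, none⟩, [526, 527, 528, 529]),
  (⟨some c353x, some c355x, some c356x, none⟩, [523, 524, 525, 526]),
  (⟨some c328x, some c353x, some c354x, none⟩, [525, 526, 527]),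
  (⟨some c357x, some c332x, some c339x, none⟩, [511, 512, 513]),
  (⟨some c332x, some c333x, some c324x, none⟩, [508, 509, 510, 511, 512]),
  (⟨some c333x, some c342x, some c335x, none⟩, [506, 507, 508, 509]),
  (⟨some c342x, some c358x, some c359x, none⟩, [504, 505, 506, 507]),
  (⟨some c358x, some c369x, some c361x, none⟩, [502, 503, 504, 505]),
  (⟨some c374x, some c399x, some c376x, none⟩, [480, 481, 482, 488, 489, 490]),
  (⟨some c369x, some c380x, some c381x, none⟩, [501, 502, 503]),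
  (⟨some c380x, some c382x, some c383x, none⟩, [498, 499, 500, 501, 502]),
  (⟨some c382x, some c384x, some c385x, none⟩, [497, 498, 499]),
  (⟨some c384x, some c386x, some c387x, none⟩, [494, 495, 496, 497, 498]),
  (⟨some c398x, some c374x, some c375x, none⟩, [489, 490, 492, 493, 494]),
  (⟨some c386x, some c398x, some c388x, none⟩, [493, 494, 495]),
  (⟨some c402x, some c378x, some c379x, none⟩, [470, 471, 472, 476, 477, 478]),
  (⟨some c378x, some c391x, some c387x, none⟩, [469, 470, 471]),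
  (⟨some c391x, some c392x, some c381x, none⟩, [466, 467, 468, 469, 470]),
  (⟨some c399x, some c370x, some c400x, none⟩, [479, 480, 481]),
  (⟨some c370x, some c402x, some c393x, none⟩, [477, 478, 479, 480]),
  (⟨some c392x, some c403x, some c404x, none⟩, [464, 465, 466, 467]),
  (⟨some c403x, some c419x, some c412x, none⟩, [462, 463, 464, 465]),
  (⟨some c419x, some c423x, some c424x, none⟩, [460, 461, 462, 463]),
  (⟨some c423x, some c425x, some c426x, none⟩, [459, 460, 461]),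
  (⟨some c425x, some c427x, some c428x, none⟩, [456, 457, 458, 459, 460]),
  (⟨some c427x, some c429x, some c430x, none⟩, [455, 456, 457]),
  (⟨some c429x, some c449x, some c432x, none⟩, [450, 451, 452, 454, 455, 456]),
  (⟨some c449x, some c433x, some c434x, none⟩, [448, 449, 450, 451]),
  (⟨some c433x, some c421x, some c440x, none⟩, [446, 447, 448, 449]),
  (⟨some c451x, some c453x, some c454x, none⟩, [443, 444, 445, 446]),
  (⟨some c421x, some c451x, some c452x, none⟩, [445, 446, 447]),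
  (⟨some c453x, some c456x, some c436x, none⟩, [432, 433, 434, 438, 442, 443, 444]),
  (⟨some c456x, some c437x, some c441x, none⟩, [431, 432, 433]),
  (⟨some c437x, some c438x, some c430x, none⟩, [428, 429, 430, 431, 432]),
  (⟨some c438x, some c444x, some c424x, none⟩, [426, 427, 428, 429]),
  (⟨some c444x, some c445x, some c426x, none⟩, [425, 426, 427]),
  (⟨some c445x, some c446x, some c428x, none⟩, [422, 423, 424, 425, 426]),
  (⟨some c446x, some c447x, some c430x, none⟩, [421, 422, 423]),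
  (⟨some c447x, some c462x, some c432x, none⟩, [416, 417, 418, 420, 421, 422]),
  (⟨some c462x, some c457x, some c434x, none⟩, [414, 415, 416, 417]),
  (⟨some c457x, some c443x, some c440x, none⟩, [412, 413, 414, 415]),
  (⟨some c463x, some c464x, some c454x, none⟩, [409, 410, 411, 412]),
  (⟨some c443x, some c463x, some c452x, none⟩, [411, 412, 413]),
  (⟨some c464x, some c466x, some c436x, none⟩, [398, 399, 400, 404, 408, 409, 410]),
  (⟨some c466x, some c459x, some c441x, none⟩, [397, 398, 399]),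
  (⟨some c459x, some c460x, some c430x, none⟩, [394, 395, 396, 397, 398]),
  (⟨some c460x, some c461x, some c424x, none⟩, [393, 394, 395])]

def tr : Tr :=
  .sx c219x (.sx c124x (.sx c51x (.sx c45x (.sx c2x (.sx c20x (.sx c16x (.sx c14x (.leaf 417) (.sy c13x (.sx c15x (.sy c14x (.leaf 368) (.leaf 5)) (.sy c17x (.leaf 369) (.leaf 6))) (.leaf 632))) (.sy c13x (.sx c18x (.sy c19x (.leaf 370) (.leaf 7)) (.sy c21x (.leaf 371) (.leaf 8))) (.leaf 632))) (.sx c12x (.sy c13x (.sx c7x (.sy c22x (.leaf 373) (.leaf 10)) (.sy c9x (.leaf 372) (.sx c8x (.sy c4x (.leaf 2) (.sy c22x (.leaf 418) (.leaf 10))) (.leaf 9)))) (.leaf 632)) (.sy c3x (.leaf 374) (.sy c13x (.sx c1x (.leaf 4) (.sy c4x (.leaf 0) (.sy c40x (.leaf 419) (.leaf 23)))) (.leaf 632))))) (.sx c36x (.sx c23x (.sy c37x (.sx c10x (.sy c4x (.sx c5x (.sy c6x (.leaf 375) (.leaf 1)) (.sy c11x (.leaf 376) (.leaf 3))) (.leaf 420)) (.leaf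 377)) (.sy c13x (.leaf 20) (.leaf 632))) (.sy c25x (.leaf 378) (.sy c13x (.sx c34x (.sy c37x (.sx c24x (.sy c17x (.leaf 11) (.leaf 421)) (.sy c22x (.leaf 17) (.leaf 422))) (.leaf 20)) (.leaf 19)) (.leaf 632)))) (.sx c41x (.sx c38x (.sy c21x (.leaf 379) (.sy c13x (.leaf 21) (.leaf 632))) (.sy c14x (.leaf 380) (.sx c39x (.sy c13x (.leaf 22) (.leaf 632)) (.sy c43x (.leaf 25) (.leaf 633))))) (.sy c43x (.sx c42x (.sy c17x (.leaf 381) (.leaf 24)) (.sx c44x (.sy c19x (.leaf 382) (.leaf 26)) (.sy c21x (.leaf 383) (.leaf 27)))) (.leaf 633))))) (.sx c47x (.sx c29x (.sx c46x (.sy c43x (.sx c26x (.sy c22x (.leaf 385) (.leaf 30)) (.sy c9x (.leaf 384) (.sx c27x (.sy c4x (.leaf 12) (.sy c22x (.leaf 423) (.leaf 30))) (.leaf 29)))) (.leaf 633)) (.sy c3x (.leaf 386) (.sy c43x (.sx c28x (.leaf 28) (.sy c4x (.leaf 13) (.sy c40x (.leaf 426) (.leaf 35)))) (.leaf 633)))) (.sx c32x (.sy c37x (.sx c31x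 (.sy c4x (.sx c30x (.sy c6x (.leaf 387) (.leaf 14)) (.sy c11x (.leaf 388) (.leaf 15))) (.leaf 424)) (.leaf 389)) (.sy c43x (.leaf 34) (.leaf 633))) (.sy c25x (.leaf 390) (.sy c43x (.sx c35x (.sy c37x (.sx c33x (.sy c17x (.leaf 16) (.leaf 425)) (.sy c22x (.leaf 18) (.leaf 427))) (.leaf 34)) (.leaf 31)) (.leaf 633))))) (.sx c54x (.sx c49x (.sy c43x (.sx c48x (.sy c21x (.leaf 391) (.leaf 32)) (.sy c14x (.leaf 392) (.leaf 33))) (.leaf 633)) (.sy c13x (.leaf 393) (.sx c53x (.sx c61x (.sy c62x (.leaf 40) (.leaf 638)) (.sy c63x (.leaf 41) (.leaf 639))) (.sy c55x (.leaf 37) (.leaf 635))))) (.sx c65x (.sy c13x (.leaf 393) (.sx c56x (.sy c64x (.leaf 42) (.leaf 636)) (.sx c57x (.sy c58x (.leaf 38) (.sx c72x (.leaf 637) (.sy c73x (.leaf 428) (.sy c66x (.leaf 48) (.leaf 640))))) (.sy c66x (.leaf 43) (.leaf 640))))) (.sy c13x (.leaf 393) (.sy c70x (.sx c50x (.leaf 46) (.sy c52x (.leaf 36)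 (.sy c73x (.leaf 432) (.leaf 57)))) (.leaf 641))))))) (.sx c96x (.sx c93x (.sx c67x (.sy c13x (.leaf 393) (.sx c89x (.sy c60x (.leaf 39) (.sx c75x (.sy c73x (.leaf 433) (.sx c74x (.sy c88x (.leaf 58) (.leaf 643)) (.sy c76x (.leaf 49) (.leaf 642)))) (.leaf 634))) (.sy c71x (.sx c59x (.sy c60x (.leaf 39) (.sx c77x (.sy c63x (.leaf 434) (.leaf 59)) (.sy c58x (.leaf 431) (.leaf 50)))) (.leaf 47)) (.leaf 644)))) (.sx c78x (.sx c69x (.sy c13x (.leaf 393) (.sx c68x (.sy c64x (.leaf 44) (.leaf 645)) (.sy c62x (.leaf 45) (.leaf 646)))) (.sy c43x (.leaf 394) (.sy c79x (.leaf 51) (.leaf 647)))) (.sy c91x (.sx c90x (.sy c62x (.leaf 398) (.leaf 60)) (.sx c92x (.sy c63x (.leaf 399) (.leaf 61)) (.sy c55x (.leaf 400) (.leaf 62)))) (.leaf 648)))) (.sx c83x (.sx c99x (.sy c91x (.sx c94x (.sy c64x (.leaf 401) (.leaf 63)) (.sx c80x (.sy c58x (.leaf 395) (.leaf 64)) (.sy c66x (.sx c81x (.sy c58x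 (.leaf 395) (.sy c73x (.leaf 52) (.leaf 435))) (.leaf 404)) (.leaf 69)))) (.leaf 648)) (.sy c70x (.sx c82x (.leaf 405) (.sy c52x (.leaf 396) (.sy c73x (.leaf 53) (.leaf 436)))) (.sy c91x (.leaf 71) (.leaf 648)))) (.sx c87x (.sy c60x (.leaf 397) (.sy c91x (.sx c84x (.sy c73x (.leaf 54) (.sx c95x (.sy c88x (.leaf 437) (.leaf 72)) (.sy c76x (.leaf 438) (.leaf 65)))) (.leaf 66)) (.leaf 648))) (.sy c71x (.sx c86x (.sy c60x (.leaf 397) (.sx c85x (.sy c63x (.leaf 56) (.leaf 440)) (.sy c58x (.leaf 55) (.leaf 439)))) (.leaf 406)) (.sy c91x (.leaf 70) (.leaf 648)))))) (.sx c100x (.sx c116x (.sx c98x (.sy c91x (.sx c97x (.sy c64x (.leaf 402) (.leaf 67)) (.sy c62x (.leaf 403) (.leaf 68))) (.leaf 648)) (.sy c79x (.leaf 407) (.sx c103x (.sy c104x (.leaf 74) (.leaf 650)) (.sx c105x (.sy c106x (.leaf 75) (.leaf 651)) (.sy c117x (.leaf 80) (.leaf 656)))))) (.sx c108x (.sy c79x (.leaf 407) (.sx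 c118x (.sy c119x (.leaf 81) (.leaf 652)) (.sx c107x (.sy c120x (.leaf 82) (.leaf 657)) (.sy c109x (.leaf 76) (.sx c135x (.sy c128x (.leaf 441) (.sy c120x (.leaf 92) (.leaf 657))) (.leaf 653)))))) (.sy c110x (.sy c79x (.leaf 407) (.leaf 77)) (.sx c136x (.leaf 649) (.sy c128x (.leaf 442) (.sy c137x (.leaf 93) (.leaf 659))))))) (.sx c114x (.sy c79x (.leaf 407) (.sx c113x (.sy c121x (.sx c111x (.sy c128x (.sx c101x (.sy c102x (.leaf 73) (.leaf 443)) (.sy c112x (.leaf 78) (.leaf 444))) (.leaf 94)) (.leaf 83)) (.leaf 660)) (.sy c115x (.leaf 79) (.sx c139x (.sy c121x (.sx c138x (.sy c106x (.leaf 445) (.leaf 95)) (.sy c120x (.leaf 446) (.leaf 96))) (.leaf 660)) (.leaf 654))))) (.sx c123x (.sy c79x (.leaf 407) (.sx c122x (.sy c119x (.leaf 84) (.leaf 658)) (.sy c104x (.leaf 85) (.leaf 655)))) (.sy c91x (.leaf 408) (.sy c125x (.leaf 86) (.leaf 661)))))))) (.sx c156x (.sx c130x (.sy c142x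 (.sx c147x (.sx c145x (.sx c144x (.sy c104x (.leaf 410) (.leaf 100)) (.sy c106x (.leaf 411) (.leaf 101))) (.sx c146x (.sy c117x (.leaf 412) (.leaf 103)) (.sy c119x (.leaf 413) (.leaf 104)))) (.sx c141x (.sx c126x (.sy c120x (.leaf 429) (.leaf 105)) (.sy c109x (.leaf 414) (.sx c127x (.sy c128x (.leaf 87) (.sy c120x (.leaf 447) (.leaf 105))) (.leaf 102)))) (.sy c110x (.leaf 415) (.sx c129x (.leaf 98) (.sy c128x (.leaf 88) (.sy c137x (.leaf 450) (.leaf 109))))))) (.sx c147x (.sx c145x (.sy c166x (.sx c144x (.sy c165x (.leaf 453) (.leaf 138)) (.sy c167x (.leaf 454) (.leaf 139))) (.leaf 662)) (.sy c166x (.sx c146x (.sy c157x (.leaf 455) (.leaf 120)) (.sy c159x (.leaf 456) (.leaf 121))) (.leaf 662))) (.sx c141x (.sy c166x (.sx c126x (.sy c161x (.leaf 457) (.leaf 122)) (.sy c170x (.sx c127x (.sy c161x (.leaf 457) (.sy c162x (.leaf 115) (.leaf 462))) (.leaf 459)) (.leaf 143))) (.leaf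 662)) (.sy c171x (.sx c129x (.leaf 460) (.sy c152x (.leaf 452) (.sy c162x (.leaf 116) (.leaf 463)))) (.sy c166x (.leaf 144) (.leaf 662)))))) (.sx c143x (.sy c142x (.sx c133x (.sy c121x (.sx c132x (.sy c128x (.sx c131x (.sy c102x (.leaf 409) (.leaf 89)) (.sy c112x (.leaf 416) (.leaf 90))) (.leaf 448)) (.leaf 430)) (.leaf 106)) (.sy c115x (.leaf 466) (.sx c140x (.sy c121x (.sx c134x (.sy c106x (.leaf 91) (.leaf 449)) (.sy c120x (.leaf 97) (.leaf 451))) (.leaf 106)) (.leaf 99)))) (.sx c133x (.sy c154x (.leaf 458) (.sy c166x (.sx c132x (.sy c162x (.leaf 117) (.sx c131x (.sy c178x (.leaf 464) (.leaf 146)) (.sy c180x (.leaf 461) (.leaf 140)))) (.leaf 125)) (.leaf 662))) (.sy c173x (.sx c140x (.sy c154x (.leaf 458) (.sx c134x (.sy c167x (.leaf 123) (.leaf 465)) (.sy c161x (.leaf 118) (.leaf 527)))) (.leaf 521)) (.sy c166x (.leaf 145) (.leaf 662))))) (.sx c163x (.sx c149x (.sy c142x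 (.sx c148x (.sy c119x (.leaf 467) (.leaf 107)) (.sy c104x (.leaf 468) (.leaf 108))) (.sy c166x (.sx c148x (.sy c159x (.leaf 520) (.leaf 141)) (.sy c165x (.leaf 522) (.leaf 142))) (.leaf 662))) (.sy c125x (.leaf 469) (.sy c168x (.leaf 124) (.leaf 663)))) (.sy c166x (.sy c142x (.leaf 470) (.sx c155x (.sx c164x (.sy c165x (.leaf 119) (.leaf 528)) (.sy c167x (.leaf 126) (.leaf 529))) (.sy c157x (.leaf 112) (.leaf 530)))) (.sx c155x (.sx c164x (.sy c186x (.leaf 149) (.leaf 666)) (.sy c187x (.leaf 150) (.leaf 664))) (.sy c188x (.sx c183x (.leaf 151) (.sy c184x (.leaf 147) (.sx c200x (.sy c189x (.leaf 567) (.leaf 161)) (.sy c194x (.leaf 571) (.leaf 166))))) (.leaf 667))))))) (.sx c172x (.sy c166x (.sx c151x (.sx c169x (.sy c142x (.leaf 470) (.sx c158x (.sy c159x (.leaf 113) (.leaf 531)) (.sx c160x (.sy c161x (.leaf 114) (.sx c176x (.leaf 532) (.sy c162x (.leaf 523) (.sy c170x (.leaf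 132) (.leaf 536))))) (.sy c170x (.leaf 127) (.leaf 536))))) (.sy c142x (.leaf 470) (.sy c171x (.sx c150x (.leaf 128) (.sy c152x (.leaf 110) (.sy c162x (.leaf 524) (.leaf 133)))) (.leaf 565)))) (.sy c142x (.leaf 470) (.sx c182x (.sy c154x (.leaf 111) (.sx c179x (.sy c162x (.leaf 525) (.sx c177x (.sy c178x (.leaf 134) (.leaf 566)) (.sy c180x (.leaf 135) (.leaf 537)))) (.leaf 534))) (.sy c173x (.sx c153x (.sy c154x (.leaf 111) (.sx c181x (.sy c167x (.leaf 533) (.leaf 137)) (.sy c161x (.leaf 526) (.leaf 136)))) (.leaf 129)) (.leaf 538))))) (.sx c190x (.sx c176x (.sy c184x (.leaf 147) (.sx c158x (.leaf 665) (.sy c199x (.leaf 568) (.sx c201x (.sy c202x (.leaf 162) (.leaf 668)) (.sy c206x (.leaf 167) (.leaf 669)))))) (.sy c192x (.sx c160x (.sy c185x (.leaf 148) (.sy c199x (.leaf 569) (.leaf 168))) (.leaf 154)) (.leaf 670))) (.sx c179x (.sx c150x (.sy c191x (.leaf 153) (.leaf 671))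 (.sy c189x (.leaf 152) (.sx c151x (.sy c199x (.leaf 570) (.sy c191x (.leaf 163) (.leaf 671))) (.leaf 672)))) (.sx c182x (.sy c187x (.leaf 155) (.leaf 673)) (.sy c193x (.leaf 156) (.leaf 674)))))) (.sx c210x (.sx c203x (.sx c175x (.sy c166x (.sy c142x (.leaf 470) (.sx c174x (.sy c159x (.leaf 130) (.leaf 535)) (.sy c165x (.leaf 131) (.leaf 539)))) (.sx c174x (.sy c194x (.leaf 158) (.leaf 676)) (.sy c186x (.leaf 157) (.leaf 675)))) (.sy c168x (.leaf 471) (.sy c204x (.leaf 164) (.leaf 677)))) (.sx c209x (.sy c208x (.sx c207x (.sy c186x (.leaf 478) (.leaf 169)) (.sy c187x (.leaf 472) (.leaf 170))) (.leaf 678)) (.sy c208x (.sx c195x (.sy c188x (.leaf 479) (.leaf 171)) (.sy c184x (.leaf 473) (.sx c205x (.sy c188x (.sx c196x (.sy c189x (.leaf 159) (.leaf 572)) (.sy c194x (.leaf 165) (.leaf 573))) (.leaf 171)) (.leaf 174)))) (.leaf 678)))) (.sx c217x (.sx c197x (.sy c199x (.sy c184x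 (.leaf 473) (.leaf 172)) (.sy c208x (.sx c216x (.sy c202x (.leaf 574) (.leaf 178)) (.sy c206x (.leaf 577) (.leaf 179))) (.leaf 678))) (.sy c192x (.sx c198x (.sy c185x (.leaf 474) (.sy c199x (.leaf 160) (.leaf 575))) (.leaf 480)) (.sy c208x (.leaf 180) (.leaf 678)))) (.sx c213x (.sy c208x (.sx c211x (.sy c191x (.leaf 481) (.leaf 181)) (.sy c189x (.leaf 475) (.sx c212x (.sy c199x (.leaf 173) (.sy c191x (.leaf 576) (.leaf 181))) (.leaf 175)))) (.leaf 678)) (.sx c215x (.sy c208x (.sx c214x (.sy c187x (.leaf 476) (.leaf 176)) (.sy c193x (.leaf 477) (.leaf 177))) (.leaf 678)) (.sy c208x (.sx c218x (.sy c194x (.leaf 482) (.leaf 182)) (.sy c186x (.leaf 483) (.leaf 183))) (.leaf 678))))))))) (.sx c342x (.sx c271x (.sx c263x (.sx c228x (.sx c221x (.sx c220x (.sy c204x (.leaf 484) (.sx c232x (.sy c233x (.leaf 189) (.leaf 681)) (.sy c234x (.leaf 190) (.leaf 682)))) (.sy c222x (.sy c204x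 (.leaf 484) (.leaf 184)) (.sx c258x (.leaf 679) (.sy c235x (.sx c236x (.sy c240x (.leaf 583) (.leaf 207)) (.sy c237x (.leaf 580) (.leaf 192))) (.leaf 687))))) (.sx c226x (.sy c204x (.leaf 484) (.sy c235x (.sx c223x (.leaf 191) (.sy c238x (.sx c224x (.sy c225x (.leaf 185) (.leaf 581)) (.sy c227x (.leaf 186) (.leaf 578))) (.leaf 193))) (.leaf 687))) (.sy c229x (.sy c204x (.leaf 484) (.leaf 187)) (.sx c259x (.sy c238x (.leaf 579) (.sy c260x (.leaf 208) (.leaf 688))) (.leaf 680))))) (.sx c245x (.sx c241x (.sy c204x (.leaf 484) (.sx c230x (.sy c231x (.leaf 188) (.sx c239x (.leaf 683) (.sy c238x (.leaf 582) (.sy c240x (.leaf 194) (.leaf 689))))) (.sy c240x (.leaf 199) (.leaf 689)))) (.sx c243x (.sy c204x (.leaf 484) (.sx c242x (.sy c234x (.leaf 195) (.leaf 684)) (.sy c246x (.leaf 198) (.leaf 690)))) (.sy c204x (.leaf 484) (.sx c244x (.sy c237x (.leaf 196) (.leaf 685)) (.sy c233x (.leaf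 197) (.leaf 686)))))) (.sx c249x (.sy c208x (.leaf 485) (.sy c250x (.leaf 201) (.leaf 691))) (.sy c262x (.sx c261x (.sy c233x (.leaf 490) (.leaf 209)) (.sy c234x (.leaf 491) (.leaf 210))) (.leaf 692))))) (.sx c265x (.sx c248x (.sx c252x (.sy c222x (.leaf 487) (.sy c262x (.sx c253x (.leaf 211) (.sy c235x (.sx c251x (.sy c240x (.leaf 203) (.leaf 585)) (.sy c237x (.leaf 202) (.leaf 584))) (.leaf 218))) (.leaf 692))) (.sy c235x (.sx c254x (.leaf 492) (.sy c238x (.sx c247x (.sy c225x (.leaf 493) (.leaf 204)) (.sy c227x (.leaf 486) (.leaf 200))) (.leaf 586))) (.sy c262x (.leaf 218) (.leaf 692)))) (.sx c264x (.sy c229x (.leaf 488) (.sy c262x (.sx c255x (.sy c238x (.leaf 205) (.sy c260x (.leaf 587) (.leaf 219))) (.leaf 212)) (.leaf 692))) (.sy c262x (.sx c256x (.sy c231x (.leaf 489) (.leaf 213)) (.sy c240x (.sx c257x (.sy c231x (.leaf 489) (.sy c238x (.leaf 206) (.leaf 588))) (.leaf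 494)) (.leaf 220))) (.leaf 692)))) (.sx c280x (.sx c269x (.sx c267x (.sy c262x (.sx c266x (.sy c234x (.leaf 495) (.leaf 214)) (.sy c246x (.leaf 496) (.leaf 215))) (.leaf 692)) (.sy c262x (.sx c268x (.sy c237x (.leaf 497) (.leaf 216)) (.sy c233x (.leaf 498) (.leaf 217))) (.leaf 692))) (.sy c250x (.leaf 499) (.sx c278x (.sy c279x (.leaf 224) (.leaf 693)) (.sy c281x (.leaf 225) (.leaf 694))))) (.sy c250x (.leaf 499) (.sx c307x (.sy c288x (.sx c270x (.leaf 230) (.sy c272x (.leaf 221) (.sx c292x (.sy c277x (.leaf 589) (.leaf 233)) (.sy c286x (.leaf 590) (.leaf 241))))) (.leaf 699)) (.sy c272x (.leaf 221) (.sx c293x (.leaf 695) (.sy c295x (.leaf 591) (.sx c294x (.sy c296x (.leaf 234) (.leaf 700)) (.sy c309x (.leaf 244) (.leaf 701))))))))))) (.sx c313x (.sx c297x (.sx c276x (.sx c289x (.sy c250x (.leaf 499) (.sy c291x (.sx c273x (.sy c274x (.leaf 222) (.sy c295x (.leaf 592) (.leaf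 242))) (.leaf 232)) (.leaf 702))) (.sy c250x (.leaf 499) (.sx c275x (.sy c290x (.leaf 231) (.leaf 703)) (.sy c277x (.leaf 223) (.sx c308x (.sy c295x (.leaf 593) (.sy c290x (.leaf 243) (.leaf 703))) (.leaf 696)))))) (.sx c287x (.sx c283x (.sy c250x (.leaf 499) (.sx c282x (.sy c281x (.leaf 226) (.leaf 697)) (.sy c284x (.leaf 227) (.leaf 698)))) (.sy c250x (.leaf 499) (.sx c285x (.sy c286x (.leaf 228) (.leaf 704)) (.sy c279x (.leaf 229) (.leaf 705))))) (.sy c262x (.leaf 500) (.sy c298x (.leaf 235) (.leaf 706))))) (.sx c303x (.sx c312x (.sy c311x (.sx c310x (.sy c279x (.leaf 502) (.leaf 245)) (.sy c281x (.leaf 503) (.leaf 246))) (.leaf 707)) (.sx c301x (.sy c288x (.sx c299x (.leaf 504) (.sy c272x (.leaf 505) (.sx c300x (.sy c277x (.leaf 236) (.leaf 594)) (.sy c286x (.leaf 237) (.leaf 595))))) (.sy c311x (.leaf 253) (.leaf 707))) (.sy c272x (.leaf 505) (.sy c311x (.sx c302x (.leaf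 247) (.sy c295x (.leaf 238) (.sx c318x (.sy c296x (.leaf 596) (.leaf 254)) (.sy c309x (.leaf 599) (.leaf 255))))) (.leaf 707))))) (.sx c319x (.sy c291x (.sx c304x (.sy c274x (.leaf 501) (.sy c295x (.leaf 239) (.leaf 598))) (.leaf 507)) (.sy c311x (.leaf 256) (.leaf 707))) (.sy c311x (.sx c305x (.sy c290x (.leaf 506) (.leaf 257)) (.sy c277x (.leaf 508) (.sx c306x (.sy c295x (.leaf 240) (.sy c290x (.leaf 597) (.leaf 257))) (.leaf 248)))) (.leaf 707))))) (.sx c337x (.sx c317x (.sx c315x (.sy c311x (.sx c314x (.sy c281x (.leaf 509) (.leaf 249)) (.sy c284x (.leaf 510) (.leaf 250))) (.leaf 707)) (.sy c311x (.sx c316x (.sy c286x (.leaf 511) (.leaf 251)) (.sy c279x (.leaf 512) (.leaf 252))) (.leaf 707))) (.sx c321x (.sy c298x (.leaf 513) (.sx c320x (.sx c334x (.sy c335x (.leaf 264) (.leaf 712)) (.sy c336x (.leaf 265) (.leaf 713))) (.sy c322x (.leaf 258) (.leaf 708)))) (.sy c298x (.leaf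 513) (.sx c323x (.sy c324x (.leaf 259) (.leaf 709)) (.sx c325x (.sy c326x (.leaf 260) (.sx c352x (.leaf 710) (.sy c345x (.leaf 601) (.sy c338x (.leaf 276) (.leaf 714))))) (.sy c338x (.leaf 266) (.leaf 714))))))) (.sx c355x (.sx c328x (.sy c298x (.leaf 513) (.sy c340x (.sx c327x (.leaf 268) (.sy c329x (.leaf 261) (.sy c345x (.leaf 602) (.leaf 277)))) (.leaf 715))) (.sy c345x (.sy c298x (.leaf 513) (.sy c331x (.leaf 262) (.leaf 603))) (.sx c353x (.sy c354x (.leaf 278) (.leaf 717)) (.sy c356x (.leaf 279) (.leaf 716))))) (.sx c332x (.sy c298x (.leaf 513) (.sx c330x (.sy c331x (.leaf 262) (.sx c357x (.leaf 711) (.sy c339x (.sx c341x (.sy c336x (.leaf 604) (.leaf 280)) (.sy c326x (.leaf 600) (.leaf 269))) (.leaf 718)))) (.sy c339x (.leaf 267) (.leaf 718)))) (.sy c298x (.leaf 513) (.sx c333x (.sy c324x (.leaf 263) (.leaf 719)) (.sy c335x (.leaf 270) (.leaf 720))))))))) (.sx c411x (.sx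 c384x (.sx c344x (.sx c360x (.sx c358x (.sy c311x (.leaf 514) (.sy c359x (.leaf 281) (.leaf 721))) (.sx c362x (.sy c361x (.sx c366x (.sy c335x (.leaf 518) (.leaf 287)) (.sy c336x (.leaf 519) (.leaf 288))) (.leaf 722)) (.sy c361x (.sx c363x (.sy c322x (.leaf 515) (.leaf 284)) (.sy c324x (.leaf 516) (.leaf 285))) (.leaf 722)))) (.sx c367x (.sy c361x (.sx c348x (.sy c326x (.leaf 517) (.leaf 282)) (.sy c338x (.sx c349x (.sy c326x (.leaf 517) (.sy c345x (.leaf 273) (.leaf 607))) (.leaf 540)) (.leaf 289))) (.leaf 722)) (.sy c340x (.sx c343x (.leaf 546) (.sy c329x (.leaf 541) (.sy c345x (.leaf 271) (.leaf 608)))) (.sy c361x (.leaf 293) (.leaf 722))))) (.sx c364x (.sx c351x (.sy c331x (.leaf 542) (.sy c361x (.sx c350x (.sy c345x (.leaf 274) (.sx c368x (.sy c354x (.leaf 610) (.leaf 294)) (.sy c356x (.leaf 605) (.leaf 290)))) (.leaf 283)) (.leaf 722))) (.sy c339x (.sx c347x (.sy c331x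 (.leaf 542) (.sx c346x (.sy c336x (.leaf 275) (.leaf 609)) (.sy c326x (.leaf 272) (.leaf 606)))) (.leaf 543)) (.sy c361x (.leaf 291) (.leaf 722)))) (.sx c369x (.sy c361x (.sx c365x (.sy c324x (.leaf 544) (.leaf 286)) (.sy c335x (.leaf 545) (.leaf 292))) (.leaf 722)) (.sy c359x (.leaf 547) (.sx c380x (.sy c381x (.leaf 299) (.leaf 724)) (.sx c382x (.sy c383x (.leaf 300) (.leaf 725)) (.sy c385x (.leaf 301) (.leaf 726)))))))) (.sx c378x (.sx c370x (.sx c374x (.sy c359x (.leaf 547) (.sx c386x (.sy c387x (.leaf 302) (.leaf 727)) (.sx c373x (.sy c388x (.leaf 303) (.leaf 729)) (.sy c375x (.leaf 296) (.sx c398x (.sy c396x (.leaf 614) (.sy c388x (.leaf 310) (.leaf 729))) (.leaf 728)))))) (.sy c376x (.sy c359x (.leaf 547) (.leaf 297)) (.sx c399x (.leaf 723) (.sy c396x (.leaf 612) (.sy c400x (.leaf 311) (.leaf 733)))))) (.sy c359x (.leaf 547) (.sx c377x (.sy c393x (.sx c389x (.sy c396x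 (.sx c371x (.sy c372x (.leaf 295) (.leaf 611)) (.sy c390x (.leaf 304) (.leaf 615))) (.leaf 312)) (.leaf 307)) (.leaf 734)) (.sy c379x (.leaf 298) (.sx c402x (.sy c393x (.sx c401x (.sy c383x (.leaf 613) (.leaf 313)) (.sy c388x (.leaf 616) (.leaf 314))) (.leaf 734)) (.leaf 730)))))) (.sx c403x (.sx c392x (.sy c359x (.leaf 547) (.sx c391x (.sy c387x (.leaf 305) (.leaf 731)) (.sy c381x (.leaf 306) (.leaf 732)))) (.sy c361x (.leaf 548) (.sy c404x (.leaf 315) (.leaf 735)))) (.sx c416x (.sy c412x (.sx c414x (.sy c381x (.leaf 549) (.leaf 322)) (.sx c415x (.sy c383x (.leaf 550) (.leaf 323)) (.sy c385x (.leaf 551) (.leaf 327)))) (.leaf 736)) (.sy c412x (.sx c417x (.sy c387x (.leaf 552) (.leaf 324)) (.sx c405x (.sy c388x (.leaf 554) (.leaf 328)) (.sy c375x (.leaf 553) (.sx c406x (.sy c396x (.leaf 316) (.sy c388x (.leaf 617) (.leaf 328))) (.leaf 325))))) (.leaf 736)))))) (.sx c453x (.sx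 c419x (.sx c407x (.sx c395x (.sy c376x (.leaf 555) (.sy c412x (.sx c394x (.leaf 320) (.sy c396x (.leaf 308) (.sy c400x (.leaf 620) (.leaf 331)))) (.leaf 736))) (.sy c396x (.sx c397x (.sy c372x (.leaf 556) (.leaf 309)) (.sy c390x (.leaf 557) (.leaf 317))) (.sy c393x (.leaf 618) (.sy c412x (.leaf 330) (.leaf 736))))) (.sx c413x (.sy c412x (.sx c408x (.sy c393x (.leaf 558) (.leaf 330)) (.sy c379x (.leaf 559) (.sx c410x (.sy c393x (.sx c409x (.sy c383x (.leaf 318) (.leaf 619)) (.sy c388x (.leaf 319) (.leaf 621))) (.leaf 330)) (.leaf 321)))) (.leaf 736)) (.sy c412x (.sx c418x (.sy c387x (.leaf 560) (.leaf 329)) (.sy c381x (.leaf 561) (.leaf 326))) (.leaf 736)))) (.sx c433x (.sx c427x (.sy c404x (.leaf 562) (.sx c423x (.sy c424x (.leaf 333) (.leaf 737)) (.sx c425x (.sy c426x (.leaf 334) (.leaf 738)) (.sy c428x (.leaf 335) (.leaf 739))))) (.sy c404x (.leaf 562) (.sx c429x (.sy c430x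 (.leaf 336) (.leaf 740)) (.sx c431x (.sy c432x (.leaf 337) (.sx c449x (.leaf 741) (.sy c450x (.leaf 626) (.sy c434x (.leaf 350) (.leaf 742))))) (.sy c434x (.leaf 338) (.leaf 742)))))) (.sx c421x (.sy c404x (.leaf 562) (.sy c440x (.sx c420x (.leaf 342) (.sy c422x (.leaf 332) (.sy c450x (.leaf 623) (.leaf 351)))) (.leaf 743))) (.sy c450x (.sy c404x (.leaf 562) (.sy c436x (.leaf 339) (.leaf 627))) (.sx c451x (.sy c452x (.leaf 352) (.leaf 745)) (.sy c454x (.leaf 353) (.leaf 744))))))) (.sx c457x (.sx c439x (.sx c437x (.sy c404x (.leaf 562) (.sx c435x (.sy c436x (.leaf 339) (.sx c456x (.leaf 746) (.sy c441x (.sx c455x (.sy c426x (.leaf 628) (.leaf 355)) (.sy c432x (.leaf 622) (.leaf 354))) (.leaf 747)))) (.sy c441x (.leaf 343) (.leaf 747)))) (.sy c404x (.leaf 562) (.sx c438x (.sy c430x (.leaf 340) (.leaf 748)) (.sy c424x (.leaf 341) (.leaf 749))))) (.sx c446x (.sy c412x (.leaf 563)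 (.sx c444x (.sy c424x (.leaf 345) (.leaf 749)) (.sx c445x (.sy c426x (.leaf 346) (.leaf 750)) (.sy c428x (.leaf 347) (.leaf 751))))) (.sy c412x (.leaf 563) (.sx c447x (.sy c430x (.leaf 348) (.leaf 752)) (.sx c448x (.sy c432x (.leaf 349) (.sx c462x (.leaf 753) (.sy c450x (.leaf 629) (.sy c434x (.leaf 362) (.leaf 754))))) (.sy c434x (.leaf 356) (.leaf 754))))))) (.sx c466x (.sx c443x (.sy c412x (.leaf 563) (.sy c440x (.sx c442x (.leaf 357) (.sy c422x (.leaf 344) (.sy c450x (.leaf 624) (.leaf 363)))) (.leaf 755))) (.sy c436x (.sy c412x (.leaf 563) (.leaf 358)) (.sx c464x (.sy c450x (.leaf 630) (.sx c463x (.sy c452x (.leaf 364) (.leaf 757)) (.sy c454x (.leaf 365) (.leaf 756)))) (.leaf 758)))) (.sx c459x (.sy c412x (.leaf 563) (.sy c441x (.sx c458x (.sy c436x (.leaf 358) (.sx c465x (.sy c426x (.leaf 631) (.leaf 367)) (.sy c432x (.leaf 625) (.leaf 366)))) (.leaf 359)) (.leaf 759)))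 (.sx c461x (.sy c412x (.leaf 563) (.sx c460x (.sy c430x (.leaf 360) (.leaf 760)) (.sy c424x (.leaf 361) (.leaf 761)))) (.leaf 564))))))))

def ow : List (Tr × Tr) := [
  (.leaf 5, .leaf 0),
  (.leaf 6, .leaf 0),
  (.leaf 6, .leaf 1),
  (.leaf 6, .leaf 2),
  (.leaf 7, .leaf 2),
  (.leaf 8, .leaf 2),
  (.leaf 8, .leaf 3),
  (.leaf 8, .leaf 5),
  (.leaf 10, .sx c7x (.leaf 5) (.leaf 50)),
  (.leaf 9, .leaf 50),
  (.leaf 2, .leaf 50),
  (.leaf 2, .leaf 5),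
  (.sx c8x (.leaf 2) (.leaf 9), .leaf 4),
  (.leaf 4, .leaf 4),
  (.sx c1x (.leaf 4) (.leaf 0), .leaf 6),
  (.leaf 1, .leaf 6),
  (.leaf 1, .leaf 7),
  (.leaf 1, .leaf 8),
  (.leaf 3, .leaf 8),
  (.leaf 3, .leaf 9),
  (.sx c2x (.leaf 0) (.sx c5x (.leaf 1) (.leaf 3)), .sx c2x (.leaf 51) (.leaf 52)),
  (.leaf 4, .leaf 51),
  (.leaf 23, .leaf 51),
  (.leaf 20, .leaf 51),
  (.leaf 20, .sx c23x (.sx c10x (.leaf 52) (.leaf 9)) (.sx c24x (.leaf 53) (.leaf 54))),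
  (.leaf 19, .leaf 54),
  (.leaf 17, .leaf 54),
  (.leaf 17, .leaf 53),
  (.leaf 11, .leaf 53),
  (.leaf 11, .leaf 9),
  (.sx c24x (.leaf 11) (.sx c34x (.leaf 17) (.leaf 19)), .leaf 10),
  (.leaf 19, .leaf 11),
  (.leaf 21, .leaf 11),
  (.leaf 22, .leaf 11),
  (.sx c39x (.leaf 22) (.leaf 25), .leaf 12),
  (.leaf 24, .leaf 12),
  (.leaf 24, .leaf 13),
  (.leaf 24, .leaf 14),
  (.leaf 26, .leaf 14),
  (.leaf 27, .leaf 14),
  (.leaf 27, .leaf 15),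
  (.leaf 27, .leaf 17),
  (.leaf 30, .sx c26x (.leaf 17) (.leaf 55)),
  (.leaf 29, .leaf 55),
  (.leaf 12, .leaf 55),
  (.leaf 12, .leaf 17),
  (.sx c27x (.leaf 12) (.leaf 29), .leaf 16),
  (.leaf 28, .leaf 16),
  (.sx c28x (.leaf 28) (.leaf 13), .leaf 18),
  (.leaf 14, .leaf 18),
  (.leaf 14, .leaf 19),
  (.leaf 14, .leaf 20),
  (.leaf 15, .leaf 20),
  (.leaf 15, .leaf 21),
  (.sx c29x (.leaf 13) (.sx c30x (.leaf 14) (.leaf 15)), .sx c29x (.leaf 58) (.leaf 56)),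
  (.leaf 28, .leaf 58),
  (.leaf 35, .leaf 58),
  (.leaf 34, .leaf 58),
  (.leaf 34, .sx c32x (.sx c31x (.leaf 56) (.leaf 21)) (.sx c33x (.leaf 57) (.leaf 59))),
  (.leaf 31, .leaf 59),
  (.leaf 18, .leaf 59),
  (.leaf 18, .leaf 57),
  (.leaf 16, .leaf 57),
  (.leaf 16, .leaf 21),
  (.sx c33x (.leaf 16) (.sx c35x (.leaf 18) (.leaf 31)), .leaf 22),
  (.leaf 31, .leaf 23),
  (.leaf 32, .leaf 23),
  (.leaf 33, .leaf 23),
  (.leaf 33, .leaf 24),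
  (.leaf 33, .leaf 25),
  (.sx c65x (.sx c54x (.sx c53x (.sx c61x (.leaf 40) (.leaf 41)) (.leaf 37)) (.sx c56x (.leaf 42) (.sx c57x (.leaf 38) (.leaf 43)))) (.sx c59x (.sx c50x (.leaf 46) (.sx c51x (.leaf 36) (.leaf 39))) (.sx c67x (.leaf 47) (.sx c68x (.leaf 44) (.leaf 45)))), .leaf 25),
  (.leaf 45, .leaf 26),
  (.leaf 51, .leaf 26),
  (.leaf 51, .leaf 30),
  (.leaf 60, .leaf 30),
  (.leaf 60, .leaf 31),
  (.leaf 61, .leaf 31),
  (.leaf 62, .leaf 31),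
  (.leaf 62, .leaf 32),
  (.leaf 62, .leaf 33),
  (.leaf 63, .leaf 33),
  (.leaf 64, .leaf 33),
  (.sx c80x (.leaf 64) (.leaf 52), .leaf 27),
  (.leaf 52, .leaf 36),
  (.leaf 52, .leaf 67),
  (.leaf 64, .leaf 67),
  (.leaf 69, .sx c81x (.leaf 67) (.leaf 36)),
  (.leaf 69, .leaf 37),
  (.leaf 71, .sx c82x (.leaf 37) (.leaf 68)),
  (.leaf 71, .leaf 69),
  (.leaf 72, .leaf 69),
  (.leaf 65, .leaf 69),
  (.leaf 65, .leaf 70),
  (.leaf 66, .leaf 70),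
  (.sx c83x (.leaf 53) (.leaf 54), .sx c83x (.leaf 68) (.sx c95x (.leaf 69) (.leaf 70))),
  (.leaf 53, .leaf 37),
  (.leaf 53, .leaf 28),
  (.leaf 53, .leaf 29),
  (.sx c87x (.sx c84x (.leaf 54) (.leaf 66)) (.sx c85x (.leaf 56) (.leaf 55)), .leaf 29),
  (.leaf 55, .leaf 38),
  (.leaf 55, .leaf 71),
  (.leaf 56, .leaf 71),
  (.leaf 56, .leaf 72),
  (.leaf 66, .leaf 72),
  (.leaf 70, .sx c86x (.sx c85x (.leaf 72) (.leaf 71)) (.leaf 38)),
  (.leaf 67, .leaf 38),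
  (.leaf 67, .leaf 34),
  (.leaf 67, .leaf 35),
  (.leaf 68, .leaf 35),
  (.leaf 68, .leaf 39),
  (.sx c100x (.sx c116x (.sx c103x (.leaf 74) (.sx c105x (.leaf 75) (.leaf 80))) (.sx c107x (.sx c118x (.leaf 81) (.leaf 82)) (.sx c108x (.leaf 76) (.leaf 77)))) (.sx c113x (.sx c101x (.leaf 73) (.sx c111x (.leaf 78) (.leaf 83))) (.sx c114x (.leaf 79) (.sx c122x (.leaf 84) (.leaf 85)))), .leaf 39),
  (.leaf 85, .leaf 40),
  (.leaf 86, .leaf 40),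
  (.leaf 86, .leaf 42),
  (.leaf 100, .leaf 42),
  (.leaf 101, .leaf 42),
  (.leaf 101, .leaf 43),
  (.leaf 101, .leaf 44),
  (.leaf 103, .leaf 44),
  (.leaf 104, .leaf 44),
  (.leaf 104, .leaf 45),
  (.leaf 104, .leaf 61),
  (.leaf 105, .sx c126x (.leaf 61) (.leaf 79)),
  (.leaf 102, .leaf 79),
  (.leaf 87, .leaf 79),
  (.leaf 87, .leaf 61),
  (.sx c127x (.leaf 87) (.leaf 102), .leaf 46),
  (.leaf 98, .leaf 46),
  (.sx c129x (.leaf 98) (.leaf 88), .leaf 47),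
  (.leaf 89, .leaf 47),
  (.leaf 89, .leaf 41),
  (.leaf 89, .leaf 48),
  (.leaf 90, .leaf 48),
  (.leaf 90, .leaf 62),
  (.sx c130x (.leaf 88) (.sx c131x (.leaf 89) (.leaf 90)), .sx c130x (.leaf 82) (.leaf 80)),
  (.leaf 98, .leaf 82),
  (.leaf 109, .leaf 82),
  (.leaf 106, .leaf 82),
  (.leaf 106, .sx c133x (.sx c132x (.leaf 80) (.leaf 62)) (.sx c134x (.leaf 81) (.leaf 83))),
  (.leaf 99, .leaf 83),
  (.leaf 97, .leaf 83),
  (.leaf 97, .leaf 81),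
  (.leaf 91, .leaf 81),
  (.leaf 91, .leaf 62),
  (.sx c134x (.leaf 91) (.sx c140x (.leaf 97) (.leaf 99)), .leaf 98),
  (.leaf 99, .leaf 99),
  (.leaf 107, .leaf 99),
  (.leaf 108, .leaf 99),
  (.leaf 108, .leaf 100),
  (.leaf 108, .leaf 101),
  (.leaf 124, .leaf 101),
  (.leaf 124, .leaf 102),
  (.sx c169x (.sx c156x (.sx c155x (.sx c164x (.leaf 119) (.leaf 126)) (.leaf 112)) (.sx c158x (.leaf 113) (.sx c160x (.leaf 114) (.leaf 127)))) (.sx c153x (.sx c150x (.leaf 128) (.sx c151x (.leaf 110) (.leaf 111))) (.sx c172x (.leaf 129) (.sx c174x (.leaf 130) (.leaf 131)))), .leaf 102),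
  (.leaf 131, .leaf 103),
  (.leaf 131, .leaf 171),
  (.leaf 131, .leaf 167),
  (.leaf 130, .leaf 167),
  (.leaf 129, .leaf 167),
  (.sx c153x (.sx c181x (.leaf 137) (.leaf 136)) (.leaf 129), .leaf 170),
  (.leaf 137, .leaf 166),
  (.leaf 137, .leaf 165),
  (.leaf 136, .leaf 165),
  (.leaf 136, .leaf 158),
  (.leaf 129, .leaf 158),
  (.leaf 111, .sx c182x (.sx c179x (.leaf 157) (.leaf 166)) (.sx c181x (.leaf 165) (.leaf 158))),
  (.leaf 111, .leaf 156),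
  (.leaf 110, .leaf 156),
  (.leaf 128, .leaf 156),
  (.sx c151x (.leaf 133) (.sx c177x (.leaf 134) (.leaf 135)), .sx c151x (.leaf 156) (.leaf 157)),
  (.leaf 135, .leaf 166),
  (.leaf 135, .leaf 169),
  (.leaf 134, .leaf 169),
  (.leaf 134, .leaf 198),
  (.leaf 134, .leaf 197),
  (.sx c150x (.leaf 128) (.leaf 133), .leaf 197),
  (.leaf 128, .leaf 168),
  (.sx c160x (.leaf 132) (.leaf 127), .leaf 168),
  (.leaf 132, .leaf 164),
  (.leaf 132, .leaf 155),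
  (.leaf 127, .leaf 155),
  (.leaf 114, .sx c176x (.leaf 164) (.leaf 155)),
  (.leaf 113, .leaf 164),
  (.leaf 113, .leaf 163),
  (.leaf 113, .leaf 162),
  (.leaf 112, .leaf 162),
  (.leaf 126, .leaf 162),
  (.leaf 126, .leaf 161),
  (.leaf 126, .leaf 160),
  (.leaf 119, .leaf 160),
  (.leaf 124, .leaf 160),
  (.sx c190x (.sx c183x (.sx c164x (.leaf 149) (.sx c155x (.leaf 150) (.leaf 151))) (.sx c176x (.leaf 147) (.sx c160x (.leaf 148) (.leaf 154)))) (.sx c182x (.sx c150x (.leaf 153) (.sx c179x (.leaf 152) (.leaf 155))) (.sx c172x (.leaf 156) (.sx c174x (.leaf 158) (.leaf 157)))), .sx c169x (.sx c156x (.sx c164x (.leaf 160) (.sx c155x (.leaf 161) (.leaf 162))) (.sx c158x (.leaf 163) (.sx c176x (.leaf 164) (.leaf 168)))) (.sx c179x (.sx c177x (.sx c151x (.leaf 197) (.leaf 198)) (.leaf 169)) (.sx c172x (.sx c182x (.leaf 166) (.leaf 170)) (.sx c174x (.leaf 167) (.leaf 171))))),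
  (.leaf 157, .leaf 103),
  (.leaf 164, .leaf 103),
  (.leaf 164, .leaf 110),
  (.leaf 169, .leaf 110),
  (.leaf 170, .leaf 110),
  (.leaf 170, .leaf 104),
  (.leaf 170, .leaf 111),
  (.leaf 171, .sx c195x (.leaf 111) (.sx c196x (.leaf 204) (.leaf 205))),
  (.leaf 174, .leaf 205),
  (.leaf 165, .leaf 205),
  (.leaf 165, .leaf 204),
  (.leaf 159, .leaf 204),
  (.leaf 159, .leaf 111),
  (.sx c205x (.sx c196x (.leaf 159) (.leaf 165)) (.sx c210x (.leaf 174) (.leaf 172)), .leaf 105),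
  (.leaf 160, .leaf 105),
  (.leaf 160, .leaf 106),
  (.leaf 160, .leaf 112),
  (.sx c197x (.leaf 172) (.leaf 160), .sx c216x (.leaf 206) (.sx c197x (.leaf 209) (.leaf 207))),
  (.leaf 174, .leaf 206),
  (.leaf 178, .leaf 206),
  (.leaf 178, .leaf 209),
  (.leaf 179, .leaf 209),
  (.leaf 180, .leaf 209),
  (.leaf 180, .sx c198x (.leaf 207) (.leaf 112)),
  (.leaf 181, .leaf 112),
  (.leaf 181, .sx c211x (.leaf 113) (.leaf 208)),
  (.leaf 175, .leaf 208),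
  (.leaf 173, .leaf 208),
  (.leaf 173, .leaf 113),
  (.sx c212x (.leaf 173) (.leaf 175), .leaf 107),
  (.leaf 175, .leaf 108),
  (.leaf 176, .leaf 108),
  (.leaf 177, .leaf 108),
  (.leaf 177, .leaf 109),
  (.leaf 177, .leaf 114),
  (.leaf 182, .leaf 114),
  (.leaf 183, .leaf 114),
  (.leaf 183, .leaf 115),
  (.leaf 183, .leaf 116),
  (.sx c226x (.sx c221x (.sx c220x (.sx c232x (.leaf 189) (.leaf 190)) (.leaf 184)) (.sx c223x (.leaf 191) (.sx c224x (.leaf 185) (.leaf 186)))) (.sx c241x (.sx c228x (.leaf 187) (.sx c230x (.leaf 188) (.leaf 199))) (.sx c243x (.sx c242x (.leaf 195) (.leaf 198)) (.sx c244x (.leaf 196) (.leaf 197)))), .leaf 116),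
  (.leaf 197, .leaf 117),
  (.leaf 201, .leaf 117),
  (.leaf 201, .leaf 122),
  (.leaf 209, .leaf 122),
  (.leaf 209, .leaf 123),
  (.leaf 210, .leaf 123),
  (.leaf 211, .leaf 123),
  (.sx c251x (.sx c253x (.leaf 211) (.leaf 203)) (.leaf 202), .leaf 119),
  (.leaf 202, .leaf 124),
  (.leaf 202, .leaf 216),
  (.leaf 203, .leaf 216),
  (.leaf 203, .leaf 217),
  (.leaf 211, .leaf 217),
  (.leaf 218, .sx c252x (.sx c251x (.leaf 217) (.leaf 216)) (.sx c254x (.leaf 124) (.leaf 218))),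
  (.leaf 218, .leaf 219),
  (.leaf 219, .leaf 219),
  (.leaf 212, .leaf 219),
  (.sx c247x (.leaf 204) (.sx c248x (.leaf 200) (.leaf 205)), .sx c248x (.leaf 218) (.leaf 219)),
  (.leaf 204, .leaf 124),
  (.leaf 204, .leaf 125),
  (.leaf 200, .leaf 125),
  (.leaf 200, .leaf 118),
  (.leaf 200, .leaf 120),
  (.sx c255x (.leaf 205) (.leaf 212), .leaf 120),
  (.leaf 212, .leaf 121),
  (.sx c256x (.leaf 213) (.leaf 206), .leaf 121),
  (.leaf 206, .leaf 126),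
  (.leaf 206, .leaf 220),
  (.leaf 213, .leaf 220),
  (.leaf 220, .sx c257x (.leaf 220) (.leaf 126)),
  (.leaf 214, .leaf 126),
  (.leaf 214, .leaf 127),
  (.leaf 214, .leaf 128),
  (.leaf 215, .leaf 128),
  (.leaf 216, .leaf 128),
  (.leaf 216, .leaf 129),
  (.leaf 216, .leaf 130),
  (.leaf 217, .leaf 130),
  (.leaf 217, .leaf 131),
  (.sx c289x (.sx c270x (.sx c278x (.leaf 224) (.sx c280x (.leaf 225) (.leaf 230))) (.sx c271x (.leaf 221) (.sx c273x (.leaf 222) (.leaf 232)))) (.sx c282x (.sx c275x (.leaf 231) (.sx c276x (.leaf 223) (.leaf 226))) (.sx c283x (.leaf 227) (.sx c285x (.leaf 228) (.leaf 229)))), .leaf 131),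
  (.leaf 229, .leaf 132),
  (.leaf 235, .leaf 132),
  (.leaf 235, .leaf 134),
  (.leaf 245, .leaf 134),
  (.leaf 246, .leaf 134),
  (.leaf 246, .leaf 135),
  (.leaf 246, .leaf 136),
  (.leaf 253, .sx c299x (.leaf 136) (.sx c300x (.leaf 226) (.leaf 227))),
  (.leaf 247, .leaf 227),
  (.leaf 237, .leaf 227),
  (.leaf 237, .leaf 226),
  (.leaf 236, .leaf 226),
  (.leaf 236, .leaf 136),
  (.sx c301x (.sx c300x (.leaf 236) (.leaf 237)) (.sx c302x (.leaf 247) (.leaf 238)), .leaf 137),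
  (.leaf 239, .leaf 137),
  (.leaf 239, .leaf 133),
  (.leaf 239, .leaf 139),
  (.sx c303x (.leaf 238) (.leaf 239), .sx c318x (.leaf 228) (.sx c303x (.leaf 231) (.leaf 230))),
  (.leaf 247, .leaf 228),
  (.leaf 254, .leaf 228),
  (.leaf 254, .leaf 231),
  (.leaf 255, .leaf 231),
  (.leaf 256, .leaf 231),
  (.leaf 256, .sx c304x (.leaf 230) (.leaf 139)),
  (.leaf 257, .leaf 139),
  (.leaf 257, .sx c305x (.leaf 138) (.leaf 229)),
  (.leaf 248, .leaf 229),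
  (.leaf 240, .leaf 229),
  (.leaf 240, .leaf 138),
  (.sx c306x (.leaf 240) (.leaf 248), .leaf 140),
  (.leaf 248, .leaf 141),
  (.leaf 249, .leaf 141),
  (.leaf 250, .leaf 141),
  (.leaf 250, .leaf 142),
  (.leaf 250, .leaf 143),
  (.leaf 251, .leaf 143),
  (.leaf 252, .leaf 143),
  (.leaf 252, .leaf 144),
  (.leaf 252, .leaf 145),
  (.sx c337x (.sx c321x (.sx c320x (.sx c334x (.leaf 264) (.leaf 265)) (.leaf 258)) (.sx c323x (.leaf 259) (.sx c325x (.leaf 260) (.leaf 266)))) (.sx c330x (.sx c327x (.leaf 268) (.sx c328x (.leaf 261) (.leaf 262))) (.sx c332x (.leaf 267) (.sx c333x (.leaf 263) (.leaf 270)))), .leaf 145),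
  (.leaf 270, .leaf 146),
  (.leaf 281, .leaf 146),
  (.leaf 281, .leaf 150),
  (.leaf 287, .leaf 150),
  (.leaf 287, .leaf 151),
  (.leaf 288, .leaf 151),
  (.leaf 284, .leaf 151),
  (.leaf 284, .leaf 147),
  (.leaf 284, .leaf 148),
  (.leaf 285, .leaf 148),
  (.leaf 282, .leaf 148),
  (.sx c348x (.leaf 282) (.leaf 273), .leaf 149),
  (.leaf 273, .leaf 172),
  (.leaf 273, .leaf 239),
  (.leaf 282, .leaf 239),
  (.leaf 289, .sx c349x (.leaf 239) (.leaf 172)),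
  (.leaf 289, .leaf 178),
  (.leaf 293, .sx c343x (.leaf 178) (.leaf 240)),
  (.leaf 293, .leaf 242),
  (.leaf 294, .leaf 242),
  (.leaf 290, .leaf 242),
  (.leaf 290, .leaf 237),
  (.leaf 283, .leaf 237),
  (.sx c344x (.leaf 271) (.leaf 274), .sx c368x (.sx c344x (.leaf 240) (.leaf 242)) (.leaf 237)),
  (.leaf 271, .leaf 178),
  (.leaf 271, .leaf 173),
  (.leaf 271, .leaf 174),
  (.sx c351x (.sx c350x (.leaf 274) (.leaf 283)) (.sx c346x (.leaf 275) (.leaf 272)), .leaf 174),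
  (.leaf 272, .leaf 175),
  (.leaf 272, .leaf 238),
  (.leaf 275, .leaf 238),
  (.leaf 275, .leaf 241),
  (.leaf 283, .leaf 241),
  (.leaf 291, .sx c347x (.sx c346x (.leaf 241) (.leaf 238)) (.leaf 175)),
  (.leaf 286, .leaf 175),
  (.leaf 286, .leaf 176),
  (.leaf 286, .leaf 177),
  (.leaf 292, .leaf 177),
  (.leaf 292, .leaf 179),
  (.sx c370x (.sx c384x (.sx c380x (.leaf 299) (.sx c382x (.leaf 300) (.leaf 301))) (.sx c373x (.sx c386x (.leaf 302) (.leaf 303)) (.sx c374x (.leaf 296) (.leaf 297)))) (.sx c377x (.sx c371x (.leaf 295) (.sx c389x (.leaf 304) (.leaf 307))) (.sx c378x (.leaf 298) (.sx c391x (.leaf 305) (.leaf 306)))), .leaf 179),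
  (.leaf 306, .leaf 180),
  (.leaf 315, .leaf 180),
  (.leaf 315, .leaf 181),
  (.leaf 322, .leaf 181),
  (.leaf 323, .leaf 181),
  (.leaf 323, .leaf 182),
  (.leaf 323, .leaf 183),
  (.leaf 327, .leaf 183),
  (.leaf 324, .leaf 183),
  (.leaf 324, .leaf 184),
  (.leaf 324, .leaf 186),
  (.leaf 328, .sx c405x (.leaf 186) (.leaf 249)),
  (.leaf 325, .leaf 249),
  (.leaf 316, .leaf 249),
  (.leaf 316, .leaf 186),
  (.sx c406x (.leaf 316) (.leaf 325), .leaf 185),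
  (.leaf 320, .leaf 185),
  (.sx c394x (.leaf 320) (.leaf 308), .leaf 187),
  (.leaf 309, .leaf 187),
  (.leaf 309, .leaf 188),
  (.leaf 309, .leaf 189),
  (.leaf 317, .leaf 189),
  (.leaf 317, .leaf 190),
  (.sx c395x (.leaf 308) (.sx c397x (.leaf 309) (.leaf 317)), .sx c395x (.leaf 252) (.leaf 250)),
  (.leaf 320, .leaf 252),
  (.leaf 331, .leaf 252),
  (.leaf 330, .leaf 252),
  (.leaf 330, .sx c408x (.sx c407x (.leaf 250) (.leaf 190)) (.sx c409x (.leaf 251) (.leaf 253))),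
  (.leaf 321, .leaf 253),
  (.leaf 319, .leaf 253),
  (.leaf 319, .leaf 251),
  (.leaf 318, .leaf 251),
  (.leaf 318, .leaf 190),
  (.sx c409x (.leaf 318) (.sx c410x (.leaf 319) (.leaf 321)), .leaf 191),
  (.leaf 321, .leaf 192),
  (.leaf 329, .leaf 192),
  (.leaf 326, .leaf 192),
  (.leaf 326, .leaf 193),
  (.leaf 326, .leaf 194),
  (.sx c433x (.sx c427x (.sx c423x (.leaf 333) (.sx c425x (.leaf 334) (.leaf 335))) (.sx c429x (.leaf 336) (.sx c431x (.leaf 337) (.leaf 338)))) (.sx c435x (.sx c420x (.leaf 342) (.sx c421x (.leaf 332) (.leaf 339))) (.sx c437x (.leaf 343) (.sx c438x (.leaf 340) (.leaf 341)))), .leaf 194),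
  (.leaf 341, .leaf 195),
  (.sx c457x (.sx c446x (.sx c444x (.leaf 345) (.sx c445x (.leaf 346) (.leaf 347))) (.sx c447x (.leaf 348) (.sx c448x (.leaf 349) (.leaf 356)))) (.sx c458x (.sx c442x (.leaf 357) (.sx c443x (.leaf 344) (.leaf 358))) (.sx c459x (.leaf 359) (.sx c460x (.leaf 360) (.leaf 361)))), .leaf 195),
  (.leaf 361, .leaf 196),
  (.leaf 361, .leaf 393),
  (.leaf 361, .leaf 392),
  (.leaf 360, .leaf 392),
  (.leaf 359, .leaf 392),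
  (.sx c458x (.sx c465x (.leaf 367) (.leaf 366)) (.leaf 359), .leaf 391),
  (.leaf 367, .leaf 390),
  (.leaf 367, .leaf 263),
  (.leaf 366, .leaf 263),
  (.leaf 366, .leaf 257),
  (.leaf 359, .leaf 257),
  (.leaf 358, .sx c466x (.sx c464x (.leaf 262) (.leaf 390)) (.sx c465x (.leaf 263) (.leaf 257))),
  (.leaf 358, .leaf 256),
  (.leaf 344, .leaf 256),
  (.leaf 357, .leaf 256),
  (.sx c443x (.leaf 363) (.sx c463x (.leaf 364) (.leaf 365)), .sx c443x (.leaf 256) (.leaf 262)),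
  (.leaf 365, .leaf 390),
  (.leaf 365, .leaf 388),
  (.leaf 364, .leaf 388),
  (.leaf 364, .leaf 389),
  (.leaf 364, .leaf 387),
  (.sx c442x (.leaf 357) (.leaf 363), .leaf 387),
  (.leaf 357, .leaf 386),
  (.sx c448x (.leaf 362) (.leaf 356), .leaf 386),
  (.leaf 362, .leaf 385),
  (.leaf 362, .leaf 261),
  (.leaf 356, .leaf 261),
  (.leaf 349, .sx c462x (.leaf 385) (.leaf 261)),
  (.leaf 348, .leaf 385),
  (.leaf 348, .leaf 384),
  (.leaf 348, .leaf 383),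
  (.leaf 347, .leaf 383),
  (.leaf 346, .leaf 383),
  (.leaf 346, .leaf 382),
  (.leaf 346, .leaf 381),
  (.sx c439x (.leaf 341) (.leaf 345), .leaf 381),
  (.leaf 341, .leaf 380),
  (.leaf 340, .leaf 380),
  (.leaf 343, .leaf 380),
  (.sx c435x (.sx c455x (.leaf 355) (.leaf 354)) (.leaf 343), .leaf 379),
  (.leaf 355, .leaf 378),
  (.leaf 355, .leaf 260),
  (.leaf 354, .leaf 260),
  (.leaf 354, .leaf 254),
  (.leaf 343, .leaf 254),
  (.leaf 339, .sx c456x (.sx c453x (.leaf 259) (.leaf 378)) (.sx c455x (.leaf 260) (.leaf 254))),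
  (.leaf 339, .leaf 255),
  (.leaf 332, .leaf 255),
  (.leaf 342, .leaf 255),
  (.sx c421x (.leaf 351) (.sx c451x (.leaf 352) (.leaf 353)), .sx c421x (.leaf 255) (.leaf 259)),
  (.leaf 353, .leaf 378),
  (.leaf 353, .leaf 376),
  (.leaf 352, .leaf 376),
  (.leaf 352, .leaf 377),
  (.leaf 352, .leaf 375),
  (.sx c420x (.leaf 342) (.leaf 351), .leaf 375),
  (.leaf 342, .leaf 374),
  (.sx c431x (.leaf 350) (.leaf 338), .leaf 374),
  (.leaf 350, .leaf 373),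
  (.leaf 350, .leaf 258),
  (.leaf 338, .leaf 258),
  (.leaf 337, .sx c449x (.leaf 373) (.leaf 258)),
  (.leaf 336, .leaf 373),
  (.leaf 336, .leaf 372),
  (.leaf 336, .leaf 371),
  (.leaf 335, .leaf 371),
  (.leaf 334, .leaf 371),
  (.leaf 334, .leaf 370),
  (.leaf 334, .leaf 369),
  (.leaf 333, .leaf 369),
  (.leaf 333, .leaf 368),
  (.sx c411x (.sx c416x (.sx c414x (.leaf 322) (.sx c415x (.leaf 323) (.leaf 327))) (.sx c417x (.leaf 324) (.sx c406x (.leaf 328) (.leaf 325)))) (.sx c410x (.sx c394x (.leaf 320) (.sx c395x (.leaf 331) (.leaf 330))) (.sx c413x (.leaf 321) (.sx c418x (.leaf 329) (.leaf 326)))), .leaf 368),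
  (.leaf 322, .leaf 367),
  (.leaf 315, .leaf 367),
  (.leaf 315, .leaf 364),
  (.leaf 306, .leaf 364),
  (.leaf 305, .leaf 364),
  (.leaf 305, .leaf 363),
  (.leaf 305, .leaf 362),
  (.leaf 298, .sx c401x (.leaf 245) (.sx c402x (.leaf 248) (.leaf 362))),
  (.leaf 307, .leaf 245),
  (.leaf 313, .leaf 245),
  (.leaf 313, .leaf 248),
  (.leaf 314, .leaf 248),
  (.leaf 314, .leaf 362),
  (.sx c377x (.sx c389x (.leaf 312) (.leaf 307)) (.sx c401x (.leaf 313) (.leaf 314)), .leaf 366),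
  (.leaf 311, .leaf 366),
  (.leaf 311, .leaf 365),
  (.leaf 311, .leaf 355),
  (.sx c370x (.leaf 311) (.leaf 312), .sx c370x (.leaf 244) (.sx c371x (.leaf 243) (.leaf 247))),
  (.leaf 307, .leaf 247),
  (.leaf 304, .leaf 247),
  (.leaf 304, .leaf 243),
  (.leaf 295, .leaf 243),
  (.leaf 297, .leaf 243),
  (.leaf 297, .sx c399x (.leaf 355) (.leaf 244)),
  (.leaf 296, .leaf 355),
  (.leaf 296, .sx c398x (.leaf 246) (.leaf 360)),
  (.leaf 303, .leaf 246),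
  (.leaf 310, .leaf 246),
  (.leaf 310, .leaf 360),
  (.sx c373x (.leaf 303) (.leaf 310), .leaf 361),
  (.leaf 303, .leaf 359),
  (.leaf 302, .leaf 359),
  (.leaf 301, .leaf 359),
  (.leaf 301, .leaf 358),
  (.leaf 301, .leaf 357),
  (.leaf 300, .leaf 357),
  (.leaf 299, .leaf 357),
  (.leaf 299, .leaf 356),
  (.leaf 299, .leaf 354),
  (.sx c367x (.sx c363x (.sx c362x (.sx c366x (.leaf 287) (.leaf 288)) (.leaf 284)) (.sx c360x (.leaf 285) (.sx c348x (.leaf 282) (.leaf 289)))) (.sx c350x (.sx c368x (.sx c344x (.leaf 293) (.leaf 294)) (.leaf 290)) (.sx c364x (.sx c351x (.leaf 283) (.leaf 291)) (.sx c365x (.leaf 286) (.leaf 292)))), .leaf 354),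
  (.leaf 287, .leaf 353),
  (.leaf 281, .leaf 353),
  (.leaf 281, .leaf 352),
  (.leaf 270, .leaf 352),
  (.leaf 270, .leaf 351),
  (.leaf 263, .leaf 351),
  (.leaf 267, .leaf 351),
  (.sx c330x (.sx c341x (.leaf 280) (.leaf 269)) (.leaf 267), .leaf 350),
  (.leaf 280, .leaf 343),
  (.leaf 280, .leaf 236),
  (.leaf 269, .leaf 236),
  (.leaf 269, .leaf 232),
  (.leaf 267, .leaf 232),
  (.leaf 262, .sx c357x (.sx c355x (.leaf 235) (.leaf 343)) (.sx c341x (.leaf 236) (.leaf 232))),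
  (.leaf 262, .leaf 234),
  (.leaf 261, .leaf 234),
  (.leaf 268, .leaf 234),
  (.sx c328x (.leaf 277) (.sx c353x (.leaf 278) (.leaf 279)), .sx c328x (.leaf 234) (.leaf 235)),
  (.leaf 279, .leaf 343),
  (.leaf 279, .leaf 348),
  (.leaf 278, .leaf 348),
  (.leaf 278, .leaf 349),
  (.leaf 278, .leaf 347),
  (.sx c327x (.leaf 268) (.leaf 277), .leaf 347),
  (.leaf 268, .leaf 346),
  (.sx c325x (.leaf 276) (.leaf 266), .leaf 346),
  (.leaf 276, .leaf 342),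
  (.leaf 276, .leaf 233),
  (.leaf 266, .leaf 233),
  (.leaf 260, .sx c352x (.leaf 342) (.leaf 233)),
  (.leaf 259, .leaf 342),
  (.leaf 259, .leaf 341),
  (.leaf 259, .leaf 340),
  (.leaf 258, .leaf 340),
  (.leaf 265, .leaf 340),
  (.leaf 265, .leaf 345),
  (.leaf 265, .leaf 344),
  (.leaf 264, .leaf 344),
  (.leaf 264, .leaf 339),
  (.sx c303x (.sx c301x (.sx c310x (.leaf 245) (.sx c312x (.leaf 246) (.leaf 253))) (.sx c302x (.leaf 247) (.sx c318x (.leaf 254) (.leaf 255)))) (.sx c313x (.sx c306x (.sx c319x (.leaf 256) (.leaf 257)) (.leaf 248)) (.sx c315x (.sx c314x (.leaf 249) (.leaf 250)) (.sx c316x (.leaf 251) (.leaf 252)))), .leaf 339),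
  (.leaf 245, .leaf 338),
  (.leaf 235, .leaf 338),
  (.leaf 235, .leaf 337),
  (.leaf 229, .leaf 337),
  (.leaf 228, .leaf 337),
  (.leaf 228, .leaf 336),
  (.leaf 228, .leaf 330),
  (.leaf 227, .leaf 330),
  (.leaf 226, .leaf 330),
  (.leaf 226, .leaf 329),
  (.leaf 226, .leaf 328),
  (.leaf 223, .sx c308x (.leaf 225) (.leaf 328)),
  (.leaf 231, .leaf 225),
  (.leaf 243, .leaf 225),
  (.leaf 243, .leaf 328),
  (.sx c275x (.leaf 231) (.leaf 243), .leaf 335),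
  (.leaf 232, .leaf 335),
  (.sx c273x (.leaf 242) (.leaf 232), .leaf 334),
  (.leaf 244, .leaf 334),
  (.leaf 244, .leaf 333),
  (.leaf 244, .leaf 332),
  (.leaf 234, .leaf 332),
  (.leaf 234, .leaf 327),
  (.sx c294x (.leaf 234) (.sx c271x (.leaf 244) (.leaf 242)), .sx c271x (.leaf 223) (.leaf 224)),
  (.leaf 232, .leaf 224),
  (.leaf 222, .leaf 224),
  (.leaf 221, .leaf 224),
  (.leaf 221, .sx c307x (.sx c292x (.leaf 221) (.leaf 222)) (.sx c293x (.leaf 327) (.leaf 223))),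
  (.leaf 230, .leaf 221),
  (.leaf 233, .leaf 221),
  (.leaf 233, .leaf 222),
  (.leaf 241, .leaf 222),
  (.leaf 241, .leaf 327),
  (.sx c270x (.leaf 230) (.sx c292x (.leaf 233) (.leaf 241)), .leaf 331),
  (.leaf 230, .leaf 326),
  (.leaf 225, .leaf 326),
  (.leaf 224, .leaf 326),
  (.leaf 224, .leaf 325),
  (.leaf 224, .leaf 324),
  (.sx c264x (.sx c253x (.sx c261x (.leaf 209) (.sx c263x (.leaf 210) (.leaf 211))) (.sx c255x (.sx c248x (.leaf 218) (.leaf 219)) (.leaf 212))) (.sx c266x (.sx c256x (.leaf 213) (.sx c265x (.leaf 220) (.leaf 214))) (.sx c267x (.leaf 215) (.sx c268x (.leaf 216) (.leaf 217)))), .leaf 324),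
  (.leaf 209, .leaf 323),
  (.leaf 201, .leaf 323),
  (.leaf 201, .leaf 318),
  (.leaf 197, .leaf 318),
  (.leaf 197, .leaf 317),
  (.leaf 196, .leaf 317),
  (.leaf 198, .leaf 317),
  (.leaf 198, .leaf 322),
  (.leaf 198, .leaf 316),
  (.leaf 195, .leaf 316),
  (.leaf 199, .leaf 316),
  (.sx c230x (.leaf 194) (.leaf 199), .leaf 321),
  (.leaf 194, .leaf 315),
  (.leaf 194, .leaf 214),
  (.leaf 199, .leaf 214),
  (.leaf 188, .sx c239x (.leaf 315) (.leaf 214)),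
  (.leaf 188, .leaf 312),
  (.leaf 187, .sx c259x (.leaf 211) (.leaf 312)),
  (.leaf 187, .leaf 210),
  (.leaf 186, .leaf 210),
  (.leaf 185, .leaf 210),
  (.leaf 185, .leaf 213),
  (.leaf 191, .leaf 213),
  (.sx c226x (.leaf 193) (.leaf 208), .sx c224x (.leaf 213) (.sx c226x (.leaf 210) (.leaf 211))),
  (.leaf 208, .leaf 312),
  (.leaf 208, .leaf 320),
  (.leaf 208, .leaf 319),
  (.sx c221x (.sx c236x (.leaf 207) (.leaf 192)) (.sx c223x (.leaf 191) (.leaf 193)), .leaf 319),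
  (.leaf 207, .leaf 311),
  (.leaf 207, .leaf 215),
  (.leaf 192, .leaf 215),
  (.leaf 192, .leaf 212),
  (.leaf 191, .leaf 212),
  (.leaf 184, .sx c236x (.sx c258x (.leaf 311) (.leaf 215)) (.leaf 212)),
  (.leaf 190, .leaf 311),
  (.leaf 190, .leaf 314),
  (.leaf 190, .leaf 313),
  (.leaf 189, .leaf 313),
  (.leaf 189, .leaf 310),
  (.sx c197x (.sx c205x (.sx c207x (.leaf 169) (.sx c209x (.leaf 170) (.leaf 171))) (.sx c210x (.leaf 174) (.sx c216x (.leaf 178) (.leaf 179)))) (.sx c213x (.sx c212x (.sx c217x (.leaf 180) (.leaf 181)) (.leaf 175)) (.sx c215x (.sx c214x (.leaf 176) (.leaf 177)) (.sx c218x (.leaf 182) (.leaf 183)))), .leaf 310),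
  (.leaf 169, .leaf 309),
  (.leaf 164, .leaf 309),
  (.leaf 164, .leaf 307),
  (.leaf 157, .leaf 307),
  (.leaf 158, .leaf 307),
  (.leaf 158, .leaf 308),
  (.leaf 158, .leaf 306),
  (.leaf 156, .leaf 306),
  (.leaf 155, .leaf 306),
  (.leaf 155, .leaf 305),
  (.leaf 155, .leaf 304),
  (.leaf 152, .sx c151x (.leaf 202) (.leaf 304)),
  (.leaf 153, .leaf 202),
  (.leaf 163, .leaf 202),
  (.leaf 163, .leaf 304),
  (.sx c150x (.leaf 153) (.leaf 163), .leaf 303),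
  (.leaf 154, .leaf 303),
  (.sx c160x (.leaf 168) (.leaf 154), .leaf 302),
  (.leaf 167, .leaf 302),
  (.leaf 167, .leaf 301),
  (.leaf 167, .leaf 300),
  (.leaf 162, .leaf 300),
  (.leaf 162, .leaf 297),
  (.sx c201x (.leaf 162) (.sx c176x (.leaf 167) (.leaf 168)), .sx c176x (.leaf 200) (.leaf 201)),
  (.leaf 154, .leaf 201),
  (.leaf 148, .leaf 201),
  (.leaf 147, .leaf 201),
  (.leaf 147, .sx c156x (.sx c200x (.leaf 199) (.leaf 203)) (.sx c158x (.leaf 297) (.leaf 200))),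
  (.leaf 151, .leaf 199),
  (.leaf 161, .leaf 199),
  (.leaf 161, .leaf 203),
  (.leaf 166, .leaf 203),
  (.leaf 166, .leaf 297),
  (.sx c183x (.leaf 151) (.sx c200x (.leaf 161) (.leaf 166)), .leaf 299),
  (.leaf 151, .leaf 296),
  (.leaf 150, .leaf 296),
  (.leaf 149, .leaf 296),
  (.leaf 149, .leaf 298),
  (.leaf 149, .leaf 295),
  (.leaf 124, .leaf 295),
  (.leaf 124, .leaf 294),
  (.sx c141x (.sx c146x (.sx c145x (.sx c144x (.leaf 138) (.leaf 139)) (.leaf 120)) (.sx c147x (.leaf 121) (.sx c126x (.leaf 122) (.leaf 143)))) (.sx c132x (.sx c131x (.sx c130x (.leaf 144) (.leaf 146)) (.leaf 140)) (.sx c143x (.sx c133x (.leaf 125) (.leaf 145)) (.sx c148x (.leaf 141) (.leaf 142)))), .leaf 294),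
  (.leaf 138, .leaf 293),
  (.leaf 138, .leaf 85),
  (.leaf 138, .leaf 86),
  (.leaf 139, .leaf 86),
  (.leaf 120, .leaf 86),
  (.leaf 120, .leaf 87),
  (.leaf 120, .leaf 88),
  (.leaf 121, .leaf 88),
  (.leaf 122, .leaf 88),
  (.sx c126x (.leaf 122) (.leaf 115), .leaf 89),
  (.leaf 115, .leaf 91),
  (.leaf 115, .leaf 94),
  (.leaf 122, .leaf 94),
  (.leaf 143, .sx c127x (.leaf 94) (.leaf 91)),
  (.leaf 143, .leaf 92),
  (.leaf 144, .sx c129x (.leaf 92) (.leaf 95)),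
  (.leaf 144, .leaf 96),
  (.leaf 146, .leaf 96),
  (.leaf 140, .leaf 96),
  (.leaf 140, .leaf 93),
  (.leaf 125, .leaf 93),
  (.sx c130x (.leaf 116) (.leaf 117), .sx c131x (.sx c130x (.leaf 95) (.leaf 96)) (.leaf 93)),
  (.leaf 116, .leaf 92),
  (.leaf 116, .leaf 84),
  (.leaf 116, .leaf 90),
  (.sx c133x (.sx c132x (.leaf 117) (.leaf 125)) (.sx c134x (.leaf 123) (.leaf 118)), .leaf 90),
  (.leaf 118, .leaf 153),
  (.leaf 118, .leaf 159),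
  (.leaf 123, .leaf 159),
  (.leaf 123, .leaf 97),
  (.leaf 125, .leaf 97),
  (.leaf 145, .sx c134x (.leaf 97) (.sx c140x (.leaf 159) (.leaf 153))),
  (.leaf 141, .leaf 153),
  (.leaf 141, .leaf 152),
  (.leaf 141, .leaf 154),
  (.leaf 142, .leaf 154),
  (.leaf 124, .leaf 154),
  (.sx c141x (.sx c146x (.sx c144x (.leaf 100) (.sx c145x (.leaf 101) (.leaf 103))) (.sx c127x (.sx c147x (.leaf 104) (.leaf 105)) (.leaf 102))) (.sx c140x (.sx c129x (.leaf 98) (.sx c130x (.leaf 109) (.leaf 106))) (.sx c143x (.leaf 99) (.sx c148x (.leaf 107) (.leaf 108)))), .sx c141x (.sx c146x (.sx c144x (.leaf 85) (.sx c145x (.leaf 86) (.leaf 87))) (.sx c147x (.leaf 88) (.sx c127x (.leaf 89) (.leaf 91)))) (.sx c140x (.sx c129x (.leaf 92) (.sx c130x (.leaf 84) (.leaf 90))) (.sx c143x (.leaf 153) (.sx c148x (.leaf 152) (.leaf 154))))),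
  (.leaf 100, .leaf 293),
  (.leaf 86, .leaf 293),
  (.leaf 86, .leaf 287),
  (.leaf 85, .leaf 287),
  (.leaf 84, .leaf 287),
  (.leaf 84, .leaf 290),
  (.leaf 84, .leaf 286),
  (.leaf 79, .sx c138x (.leaf 77) (.sx c139x (.leaf 78) (.leaf 286))),
  (.leaf 83, .leaf 77),
  (.leaf 95, .leaf 77),
  (.leaf 95, .leaf 78),
  (.leaf 96, .leaf 78),
  (.leaf 96, .leaf 286),
  (.sx c113x (.sx c111x (.leaf 94) (.leaf 83)) (.sx c138x (.leaf 95) (.leaf 96)), .leaf 292),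
  (.leaf 93, .leaf 292),
  (.leaf 93, .leaf 291),
  (.leaf 93, .leaf 281),
  (.sx c100x (.leaf 93) (.leaf 94), .sx c100x (.leaf 74) (.sx c101x (.leaf 75) (.leaf 76))),
  (.leaf 83, .leaf 76),
  (.leaf 78, .leaf 76),
  (.leaf 78, .leaf 75),
  (.leaf 73, .leaf 75),
  (.leaf 77, .leaf 75),
  (.leaf 77, .sx c136x (.leaf 281) (.leaf 74)),
  (.leaf 76, .leaf 281),
  (.leaf 76, .sx c135x (.leaf 73) (.leaf 285)),
  (.leaf 82, .leaf 73),
  (.leaf 92, .leaf 73),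
  (.leaf 92, .leaf 285),
  (.sx c107x (.leaf 82) (.leaf 92), .leaf 289),
  (.leaf 82, .leaf 284),
  (.leaf 81, .leaf 284),
  (.leaf 80, .leaf 284),
  (.leaf 80, .leaf 288),
  (.leaf 80, .leaf 283),
  (.leaf 75, .leaf 283),
  (.leaf 74, .leaf 283),
  (.leaf 74, .leaf 282),
  (.leaf 74, .leaf 280),
  (.sx c99x (.sx c93x (.sx c90x (.leaf 60) (.sx c92x (.leaf 61) (.leaf 62))) (.sx c94x (.leaf 63) (.sx c80x (.leaf 64) (.leaf 69)))) (.sx c84x (.sx c95x (.sx c83x (.leaf 71) (.leaf 72)) (.leaf 65)) (.sx c96x (.sx c87x (.leaf 66) (.leaf 70)) (.sx c97x (.leaf 67) (.leaf 68)))), .leaf 280),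
  (.leaf 60, .leaf 279),
  (.leaf 51, .leaf 279),
  (.leaf 51, .leaf 278),
  (.leaf 45, .leaf 278),
  (.leaf 45, .leaf 277),
  (.leaf 44, .leaf 277),
  (.leaf 47, .leaf 277),
  (.sx c59x (.sx c77x (.leaf 59) (.leaf 50)) (.leaf 47), .leaf 276),
  (.leaf 59, .leaf 266),
  (.leaf 59, .leaf 66),
  (.leaf 50, .leaf 66),
  (.leaf 50, .leaf 63),
  (.leaf 47, .leaf 63),
  (.leaf 39, .sx c89x (.sx c75x (.leaf 65) (.leaf 266)) (.sx c77x (.leaf 66) (.leaf 63))),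
  (.leaf 39, .leaf 64),
  (.leaf 36, .leaf 64),
  (.leaf 46, .leaf 64),
  (.sx c74x (.sx c51x (.leaf 57) (.leaf 58)) (.leaf 49), .sx c51x (.leaf 64) (.leaf 65)),
  (.leaf 49, .leaf 266),
  (.leaf 49, .leaf 274),
  (.leaf 58, .leaf 274),
  (.leaf 58, .leaf 275),
  (.leaf 58, .leaf 273),
  (.sx c50x (.leaf 46) (.leaf 57), .leaf 273),
  (.leaf 46, .leaf 272),
  (.sx c57x (.leaf 48) (.leaf 43), .leaf 272),
  (.leaf 48, .leaf 269),
  (.leaf 48, .leaf 60),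
  (.leaf 43, .leaf 60),
  (.leaf 38, .sx c72x (.leaf 269) (.leaf 60)),
  (.leaf 42, .leaf 269),
  (.leaf 42, .leaf 268),
  (.leaf 42, .leaf 267),
  (.leaf 37, .leaf 267),
  (.leaf 41, .leaf 267),
  (.leaf 41, .leaf 271),
  (.leaf 41, .leaf 270),
  (.leaf 40, .leaf 270),
  (.leaf 40, .leaf 265),
  (.sx c46x (.sx c44x (.sx c41x (.leaf 25) (.sx c42x (.leaf 24) (.leaf 26))) (.sx c45x (.leaf 27) (.sx c27x (.leaf 30) (.leaf 29)))) (.sx c35x (.sx c28x (.leaf 28) (.sx c29x (.leaf 35) (.leaf 34))) (.sx c47x (.leaf 31) (.sx c48x (.leaf 32) (.leaf 33)))), .leaf 265),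
  (.leaf 25, .leaf 264),
  (.sx c12x (.sx c18x (.sx c15x (.leaf 5) (.sx c16x (.leaf 6) (.leaf 7))) (.sx c20x (.leaf 8) (.sx c8x (.leaf 10) (.leaf 9)))) (.sx c34x (.sx c1x (.leaf 4) (.sx c2x (.leaf 23) (.leaf 20))) (.sx c36x (.leaf 19) (.sx c38x (.leaf 21) (.leaf 22)))), .leaf 264),
  (.leaf 5, .leaf 49)]

def poly : PolyData := ⟨cs, qs, tr, es, vs, ow⟩

end Pool.Agent.Box4
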