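import Pool.Agent.Box3.TreeB
import Pool.Agent.Box4.Poly
set_option linter.all false
set_option autoImplicit false

namespace Pool.Agent.Box4

open Pool.Agent.Box3

def ex000x : EX :=
  .node 49 (.node 24 (.node 12 (.node 6 (.node 3 (.node 1 (.leaf ⟨c14x, c15x, c14x, c14x⟩) (.node 1 (.leaf ⟨c15x, c15x, c17x, c14x⟩) (.leaf ⟨c15x, c16x, c17x, c17x⟩))) (.node 1 (.leaf ⟨c16x, c16x, c17x, c19x⟩) (.node 1 (.leaf ⟨c16x, c18x, c19x, c19x⟩) (.leaf ⟨c18x, c18x, c21x, c19x⟩)))) (.node 3 (.node 1 (.leaf ⟨c18x, c20x, c21x, c21x⟩) (.node 1 (.leaf ⟨c20x, c20x, c21x, c22x⟩) (.leaf ⟨c20x, c8x, c22x, c22x⟩))) (.node 1 (.leaf ⟨c8x, c8x, c4x, c22x⟩) (.node 1 (.leaf ⟨c7x, c8x, c4x, c4x⟩) (.leaf ⟨c7x, c7x, c9x, c4x⟩))))) (.node 6 (.node 3 (.node 1 (.leaf ⟨c7x, c12x, c9x, c9x⟩) (.node 1 (.leaf ⟨c12x, c12x, c3x, c9x⟩)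 (.leaf ⟨c12x, c2x, c3x, c3x⟩))) (.node 1 (.leaf ⟨c2x, c2x, c6x, c3x⟩) (.node 1 (.leaf ⟨c2x, c5x, c6x, c6x⟩) (.leaf ⟨c5x, c5x, c6x, c11x⟩)))) (.node 3 (.node 1 (.leaf ⟨c5x, c10x, c11x, c11x⟩) (.node 1 (.leaf ⟨c10x, c10x, c11x, c4x⟩) (.leaf ⟨c1x, c10x, c4x, c4x⟩))) (.node 1 (.leaf ⟨c1x, c1x, c4x, c40x⟩) (.node 1 (.leaf ⟨c1x, c2x, c40x, c40x⟩) (.leaf ⟨c2x, c2x, c37x, c40x⟩)))))) (.node 12 (.node 6 (.node 3 (.node 1 (.leaf ⟨c2x, c34x, c37x, c37x⟩) (.node 1 (.leaf ⟨c34x, c34x, c22x, c37x⟩) (.leaf ⟨c24x, c34x, c22x, c22x⟩))) (.node 1 (.leaf ⟨c24x, c24x, c17x, c22x⟩) (.node 1 (.leaf ⟨c23x, c24x, c17x, c17x⟩) (.leaf ⟨c23x, c23x, c25x, c17x⟩)))) (.node 3 (.node 1 (.leaf ⟨c23x, c36x, c25x, c25x⟩) (.node 1 (.leaf ⟨c36x, c36x, c25x, c21x⟩) (.leaf ⟨c36x, c38x, c21x, c21x⟩))) (.node 1 (.leaf ⟨c38x, c38x, c14x,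 c21x⟩) (.node 1 (.leaf ⟨c38x, c41x, c14x, c14x⟩) (.leaf ⟨c41x, c41x, c17x, c14x⟩))))) (.node 6 (.node 3 (.node 1 (.leaf ⟨c41x, c42x, c17x, c17x⟩) (.node 1 (.leaf ⟨c42x, c42x, c17x, c19x⟩) (.leaf ⟨c42x, c44x, c19x, c19x⟩))) (.node 1 (.leaf ⟨c44x, c44x, c21x, c19x⟩) (.node 1 (.leaf ⟨c44x, c45x, c21x, c21x⟩) (.leaf ⟨c45x, c45x, c21x, c22x⟩)))) (.node 3 (.node 1 (.leaf ⟨c45x, c27x, c22x, c22x⟩) (.node 1 (.leaf ⟨c27x, c27x, c4x, c22x⟩) (.leaf ⟨c26x, c27x, c4x, c4x⟩))) (.node 2 (.node 1 (.leaf ⟨c26x, c26x, c9x, c4x⟩) (.leaf ⟨c26x, c46x, c9x, c9x⟩)) (.node 1 (.leaf ⟨c46x, c46x, c3x, c9x⟩) (.leaf ⟨c46x, c29x, c3x, c3x⟩))))))) (.node 24 (.node 12 (.node 6 (.node 3 (.node 1 (.leaf ⟨c29x, c29x, c6x, c3x⟩) (.node 1 (.leaf ⟨c29x, c30x, c6x, c6x⟩) (.leaf ⟨c30x, c30x, c6x, c11x⟩))) (.node 1 (.leaf ⟨c30x, c31x,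 c11x, c11x⟩) (.node 1 (.leaf ⟨c31x, c31x, c11x, c4x⟩) (.leaf ⟨c28x, c31x, c4x, c4x⟩)))) (.node 3 (.node 1 (.leaf ⟨c28x, c28x, c4x, c40x⟩) (.node 1 (.leaf ⟨c28x, c29x, c40x, c40x⟩) (.leaf ⟨c29x, c29x, c37x, c40x⟩))) (.node 1 (.leaf ⟨c29x, c35x, c37x, c37x⟩) (.node 1 (.leaf ⟨c35x, c35x, c22x, c37x⟩) (.leaf ⟨c33x, c35x, c22x, c22x⟩))))) (.node 6 (.node 3 (.node 1 (.leaf ⟨c33x, c33x, c17x, c22x⟩) (.node 1 (.leaf ⟨c32x, c33x, c17x, c17x⟩) (.leaf ⟨c32x, c32x, c25x, c17x⟩))) (.node 1 (.leaf ⟨c32x, c47x, c25x, c25x⟩) (.node 1 (.leaf ⟨c47x, c47x, c25x, c21x⟩) (.leaf ⟨c47x, c48x, c21x, c21x⟩)))) (.node 3 (.node 1 (.leaf ⟨c48x, c48x, c14x, c21x⟩) (.node 1 (.leaf ⟨c48x, c49x, c14x, c14x⟩) (.leaf ⟨c49x, c49x, c14x, c13x⟩))) (.node 1 (.leaf ⟨c49x, c69x, c13x, c13x⟩) (.node 1 (.leaf ⟨c69x, c69x, c13x, c43x⟩)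 (.leaf ⟨c69x, c78x, c43x, c43x⟩)))))) (.node 12 (.node 6 (.node 3 (.node 1 (.leaf ⟨c78x, c78x, c43x, c62x⟩) (.node 1 (.leaf ⟨c78x, c90x, c62x, c62x⟩) (.leaf ⟨c90x, c90x, c62x, c63x⟩))) (.node 1 (.leaf ⟨c90x, c92x, c63x, c63x⟩) (.node 1 (.leaf ⟨c92x, c92x, c55x, c63x⟩) (.leaf ⟨c92x, c93x, c55x, c55x⟩)))) (.node 3 (.node 1 (.leaf ⟨c93x, c93x, c55x, c64x⟩) (.node 1 (.leaf ⟨c93x, c94x, c64x, c64x⟩) (.leaf ⟨c94x, c94x, c58x, c64x⟩))) (.node 1 (.leaf ⟨c94x, c81x, c58x, c58x⟩) (.node 1 (.leaf ⟨c81x, c81x, c58x, c73x⟩) (.leaf ⟨c80x, c81x, c73x, c73x⟩))))) (.node 6 (.node 3 (.node 1 (.leaf ⟨c80x, c80x, c73x, c66x⟩) (.node 1 (.leaf ⟨c80x, c99x, c66x, c66x⟩) (.leaf ⟨c99x, c99x, c66x, c70x⟩))) (.node 1 (.leaf ⟨c99x, c83x, c70x, c70x⟩) (.node 1 (.leaf ⟨c83x, c83x, c70x, c88x⟩) (.leaf ⟨c83x, c95x, c88x, c88x⟩))))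 (.node 3 (.node 1 (.leaf ⟨c95x, c95x, c76x, c88x⟩) (.node 1 (.leaf ⟨c95x, c84x, c76x, c76x⟩) (.leaf ⟨c84x, c84x, c73x, c76x⟩))) (.node 2 (.node 1 (.leaf ⟨c82x, c84x, c73x, c73x⟩) (.leaf ⟨c82x, c82x, c52x, c73x⟩)) (.node 1 (.leaf ⟨c82x, c83x, c52x, c52x⟩) (.leaf ⟨c83x, c83x, c52x, c60x⟩)))))))

def ex001x : EX :=
  .node 49 (.node 24 (.node 12 (.node 6 (.node 3 (.node 1 (.leaf ⟨c83x, c86x, c60x, c60x⟩) (.node 1 (.leaf ⟨c86x, c86x, c60x, c58x⟩) (.leaf ⟨c85x, c86x, c58x, c58x⟩))) (.node 1 (.leaf ⟨c85x, c85x, c58x, c63x⟩) (.node 1 (.leaf ⟨c87x, c85x, c63x, c63x⟩) (.leaf ⟨c87x, c87x, c63x, c71x⟩)))) (.node 3 (.node 1 (.leaf ⟨c87x, c96x, c71x, c71x⟩) (.node 1 (.leaf ⟨c96x, c96x, c64x, c71x⟩) (.leaf ⟨c96x, c97x, c64x, c64x⟩))) (.node 1 (.leaf ⟨c97x, c97x, c64x, c62x⟩) (.node 1 (.leaf ⟨c97x, c98x, c62x,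 c62x⟩) (.leaf ⟨c98x, c98x, c62x, c79x⟩))))) (.node 6 (.node 3 (.node 1 (.leaf ⟨c98x, c123x, c79x, c79x⟩) (.node 1 (.leaf ⟨c123x, c123x, c79x, c91x⟩) (.leaf ⟨c123x, c124x, c91x, c91x⟩))) (.node 1 (.leaf ⟨c124x, c124x, c91x, c104x⟩) (.node 1 (.leaf ⟨c124x, c144x, c104x, c104x⟩) (.leaf ⟨c144x, c144x, c106x, c104x⟩)))) (.node 3 (.node 1 (.leaf ⟨c144x, c145x, c106x, c106x⟩) (.node 1 (.leaf ⟨c145x, c145x, c106x, c117x⟩) (.leaf ⟨c145x, c146x, c117x, c117x⟩))) (.node 1 (.leaf ⟨c146x, c146x, c119x, c117x⟩) (.node 1 (.leaf ⟨c146x, c147x, c119x, c119x⟩) (.leaf ⟨c147x, c147x, c119x, c120x⟩)))))) (.node 12 (.node 6 (.node 3 (.node 1 (.leaf ⟨c147x, c127x, c120x, c120x⟩) (.node 1 (.leaf ⟨c127x, c127x, c128x, c120x⟩) (.leaf ⟨c126x, c127x, c128x, c128x⟩))) (.node 1 (.leaf ⟨c126x, c126x, c109x, c128x⟩) (.node 1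 (.leaf ⟨c126x, c141x, c109x, c109x⟩) (.leaf ⟨c141x, c141x, c110x, c109x⟩)))) (.node 3 (.node 1 (.leaf ⟨c141x, c130x, c110x, c110x⟩) (.node 1 (.leaf ⟨c130x, c130x, c102x, c110x⟩) (.leaf ⟨c130x, c131x, c102x, c102x⟩))) (.node 1 (.leaf ⟨c131x, c131x, c102x, c112x⟩) (.node 1 (.leaf ⟨c131x, c132x, c112x, c112x⟩) (.leaf ⟨c132x, c132x, c112x, c128x⟩))))) (.node 6 (.node 3 (.node 1 (.leaf ⟨c129x, c132x, c128x, c128x⟩) (.node 1 (.leaf ⟨c129x, c129x, c128x, c137x⟩) (.leaf ⟨c129x, c130x, c137x, c137x⟩))) (.node 1 (.leaf ⟨c130x, c130x, c121x, c137x⟩) (.node 1 (.leaf ⟨c130x, c140x, c121x, c121x⟩) (.leaf ⟨c140x, c140x, c120x, c121x⟩)))) (.node 3 (.node 1 (.leaf ⟨c134x, c140x, c120x, c120x⟩) (.node 1 (.leaf ⟨c134x, c134x, c106x, c120x⟩) (.leaf ⟨c133x, c134x, c106x, c106x⟩))) (.node 2 (.node 1 (.leaf ⟨c133x, c133x,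 c115x, c106x⟩) (.leaf ⟨c133x, c143x, c115x, c115x⟩)) (.node 1 (.leaf ⟨c143x, c143x, c115x, c119x⟩) (.leaf ⟨c143x, c148x, c119x, c119x⟩))))))) (.node 25 (.node 12 (.node 6 (.node 3 (.node 1 (.leaf ⟨c148x, c148x, c104x, c119x⟩) (.node 1 (.leaf ⟨c148x, c149x, c104x, c104x⟩) (.leaf ⟨c149x, c149x, c104x, c125x⟩))) (.node 1 (.leaf ⟨c149x, c163x, c125x, c125x⟩) (.node 1 (.leaf ⟨c163x, c163x, c125x, c142x⟩) (.leaf ⟨c163x, c175x, c142x, c142x⟩)))) (.node 3 (.node 1 (.leaf ⟨c175x, c175x, c142x, c165x⟩) (.node 1 (.leaf ⟨c174x, c175x, c165x, c165x⟩) (.leaf ⟨c174x, c174x, c159x, c165x⟩))) (.node 1 (.leaf ⟨c172x, c174x, c159x, c159x⟩) (.node 1 (.leaf ⟨c172x, c172x, c159x, c173x⟩) (.leaf ⟨c182x, c172x, c173x, c173x⟩))))) (.node 6 (.node 3 (.node 1 (.leaf ⟨c182x, c182x, c167x, c173x⟩) (.node 1 (.leaf ⟨c182x, c181x,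 c167x, c167x⟩) (.leaf ⟨c181x, c181x, c161x, c167x⟩))) (.node 1 (.leaf ⟨c181x, c153x, c161x, c161x⟩) (.node 1 (.leaf ⟨c153x, c153x, c154x, c161x⟩) (.leaf ⟨c151x, c153x, c154x, c154x⟩)))) (.node 3 (.node 1 (.leaf ⟨c151x, c151x, c152x, c154x⟩) (.node 1 (.leaf ⟨c150x, c151x, c152x, c152x⟩) (.leaf ⟨c150x, c150x, c152x, c162x⟩))) (.node 2 (.node 1 (.leaf ⟨c150x, c179x, c162x, c162x⟩) (.leaf ⟨c179x, c179x, c162x, c180x⟩)) (.node 1 (.leaf ⟨c177x, c179x, c180x, c180x⟩) (.leaf ⟨c177x, c177x, c180x, c178x⟩)))))) (.node 12 (.node 6 (.node 3 (.node 1 (.leaf ⟨c151x, c177x, c178x, c178x⟩) (.node 1 (.leaf ⟨c151x, c151x, c171x, c178x⟩) (.leaf ⟨c169x, c151x, c171x, c171x⟩))) (.node 1 (.leaf ⟨c169x, c169x, c170x, c171x⟩) (.node 1 (.leaf ⟨c176x, c169x, c170x, c170x⟩) (.leaf ⟨c176x, c176x, c162x, c170x⟩)))) (.node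 3 (.node 1 (.leaf ⟨c176x, c160x, c162x, c162x⟩) (.node 1 (.leaf ⟨c160x, c160x, c161x, c162x⟩) (.leaf ⟨c158x, c160x, c161x, c161x⟩))) (.node 1 (.leaf ⟨c158x, c158x, c161x, c159x⟩) (.node 1 (.leaf ⟨c156x, c158x, c159x, c159x⟩) (.leaf ⟨c156x, c156x, c157x, c159x⟩))))) (.node 6 (.node 3 (.node 1 (.leaf ⟨c155x, c156x, c157x, c157x⟩) (.node 1 (.leaf ⟨c155x, c155x, c157x, c167x⟩) (.leaf ⟨c164x, c155x, c167x, c167x⟩))) (.node 1 (.leaf ⟨c164x, c164x, c165x, c167x⟩) (.node 1 (.leaf ⟨c163x, c164x, c165x, c165x⟩) (.leaf ⟨c163x, c163x, c165x, c166x⟩)))) (.node 3 (.node 1 (.leaf ⟨c163x, c175x, c166x, c166x⟩) (.node 1 (.leaf ⟨c175x, c175x, c166x, c168x⟩) (.leaf ⟨c175x, c203x, c168x, c168x⟩))) (.node 2 (.node 1 (.leaf ⟨c203x, c203x, c168x, c186x⟩) (.leaf ⟨c203x, c207x, c186x, c186x⟩)) (.node 1 (.leaf ⟨c207x, c207x,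 c187x, c186x⟩) (.leaf ⟨c207x, c209x, c187x, c187x⟩)))))))

def ex00x : EX :=
  .node 98 ex000x ex001x

def ex010x : EX :=
  .node 49 (.node 24 (.node 12 (.node 6 (.node 3 (.node 1 (.leaf ⟨c209x, c209x, c187x, c188x⟩) (.node 1 (.leaf ⟨c209x, c205x, c188x, c188x⟩) (.leaf ⟨c205x, c205x, c194x, c188x⟩))) (.node 1 (.leaf ⟨c196x, c205x, c194x, c194x⟩) (.node 1 (.leaf ⟨c196x, c196x, c189x, c194x⟩) (.leaf ⟨c195x, c196x, c189x, c189x⟩)))) (.node 3 (.node 1 (.leaf ⟨c195x, c195x, c184x, c189x⟩) (.node 1 (.leaf ⟨c195x, c197x, c184x, c184x⟩) (.leaf ⟨c197x, c197x, c185x, c184x⟩))) (.node 1 (.leaf ⟨c197x, c198x, c185x, c185x⟩) (.node 1 (.leaf ⟨c198x, c198x, c185x, c199x⟩) (.leaf ⟨c210x, c198x, c199x, c199x⟩))))) (.node 6 (.node 3 (.node 1 (.leaf ⟨c210x, c210x, c199x, c202x⟩) (.node 1 (.leaf ⟨c210x, c216x, c202x,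 c202x⟩) (.leaf ⟨c216x, c216x, c202x, c206x⟩))) (.node 1 (.leaf ⟨c216x, c197x, c206x, c206x⟩) (.node 1 (.leaf ⟨c197x, c197x, c192x, c206x⟩) (.leaf ⟨c197x, c217x, c192x, c192x⟩)))) (.node 3 (.node 1 (.leaf ⟨c217x, c217x, c191x, c192x⟩) (.node 1 (.leaf ⟨c217x, c212x, c191x, c191x⟩) (.leaf ⟨c212x, c212x, c199x, c191x⟩))) (.node 1 (.leaf ⟨c211x, c212x, c199x, c199x⟩) (.node 1 (.leaf ⟨c211x, c211x, c189x, c199x⟩) (.leaf ⟨c211x, c213x, c189x, c189x⟩)))))) (.node 12 (.node 6 (.node 3 (.node 1 (.leaf ⟨c213x, c213x, c189x, c187x⟩) (.node 1 (.leaf ⟨c213x, c214x, c187x, c187x⟩) (.leaf ⟨c214x, c214x, c193x, c187x⟩))) (.node 1 (.leaf ⟨c214x, c215x, c193x, c193x⟩) (.node 1 (.leaf ⟨c215x, c215x, c193x, c194x⟩) (.leaf ⟨c215x, c218x, c194x, c194x⟩)))) (.node 3 (.node 1 (.leaf ⟨c218x, c218x, c186x, c194x⟩) (.node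 1 (.leaf ⟨c218x, c219x, c186x, c186x⟩) (.leaf ⟨c219x, c219x, c186x, c204x⟩))) (.node 1 (.leaf ⟨c219x, c245x, c204x, c204x⟩) (.node 1 (.leaf ⟨c245x, c245x, c204x, c208x⟩) (.leaf ⟨c245x, c249x, c208x, c208x⟩))))) (.node 6 (.node 3 (.node 1 (.leaf ⟨c249x, c249x, c208x, c233x⟩) (.node 1 (.leaf ⟨c249x, c261x, c233x, c233x⟩) (.leaf ⟨c261x, c261x, c233x, c234x⟩))) (.node 1 (.leaf ⟨c261x, c263x, c234x, c234x⟩) (.node 1 (.leaf ⟨c263x, c263x, c222x, c234x⟩) (.leaf ⟨c263x, c252x, c222x, c222x⟩)))) (.node 3 (.node 1 (.leaf ⟨c252x, c252x, c222x, c237x⟩) (.node 1 (.leaf ⟨c251x, c252x, c237x, c237x⟩) (.leaf ⟨c251x, c251x, c237x, c240x⟩))) (.node 2 (.node 1 (.leaf ⟨c253x, c251x, c240x, c240x⟩) (.leaf ⟨c253x, c253x, c240x, c235x⟩)) (.node 1 (.leaf ⟨c253x, c248x, c235x, c235x⟩) (.leaf ⟨c248x, c248x, c235x, c260x⟩)))))))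 (.node 24 (.node 12 (.node 6 (.node 3 (.node 1 (.leaf ⟨c248x, c255x, c260x, c260x⟩) (.node 1 (.leaf ⟨c255x, c255x, c238x, c260x⟩) (.leaf ⟨c254x, c255x, c238x, c238x⟩))) (.node 1 (.leaf ⟨c254x, c254x, c225x, c238x⟩) (.node 1 (.leaf ⟨c254x, c247x, c225x, c225x⟩) (.leaf ⟨c247x, c247x, c227x, c225x⟩)))) (.node 3 (.node 1 (.leaf ⟨c247x, c248x, c227x, c227x⟩) (.node 1 (.leaf ⟨c248x, c248x, c227x, c229x⟩) (.leaf ⟨c248x, c264x, c229x, c229x⟩))) (.node 1 (.leaf ⟨c264x, c264x, c229x, c231x⟩) (.node 1 (.leaf ⟨c264x, c257x, c231x, c231x⟩) (.leaf ⟨c257x, c257x, c231x, c238x⟩))))) (.node 6 (.node 3 (.node 1 (.leaf ⟨c256x, c257x, c238x, c238x⟩) (.node 1 (.leaf ⟨c256x, c256x, c238x, c240x⟩) (.leaf ⟨c256x, c265x, c240x, c240x⟩))) (.node 1 (.leaf ⟨c265x, c265x, c234x, c240x⟩) (.node 1 (.leaf ⟨c265x, c266x, c234x,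 c234x⟩) (.leaf ⟨c266x, c266x, c234x, c246x⟩)))) (.node 3 (.node 1 (.leaf ⟨c266x, c267x, c246x, c246x⟩) (.node 1 (.leaf ⟨c267x, c267x, c237x, c246x⟩) (.leaf ⟨c267x, c268x, c237x, c237x⟩))) (.node 1 (.leaf ⟨c268x, c268x, c237x, c233x⟩) (.node 1 (.leaf ⟨c268x, c269x, c233x, c233x⟩) (.leaf ⟨c269x, c269x, c233x, c250x⟩)))))) (.node 12 (.node 6 (.node 3 (.node 1 (.leaf ⟨c269x, c287x, c250x, c250x⟩) (.node 1 (.leaf ⟨c287x, c287x, c250x, c262x⟩) (.leaf ⟨c287x, c297x, c262x, c262x⟩))) (.node 1 (.leaf ⟨c297x, c297x, c262x, c279x⟩) (.node 1 (.leaf ⟨c297x, c310x, c279x, c279x⟩) (.leaf ⟨c310x, c310x, c281x, c279x⟩)))) (.node 3 (.node 1 (.leaf ⟨c310x, c312x, c281x, c281x⟩) (.node 1 (.leaf ⟨c312x, c312x, c281x, c288x⟩) (.leaf ⟨c312x, c301x, c288x, c288x⟩))) (.node 1 (.leaf ⟨c301x, c301x, c286x, c288x⟩) (.node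 1 (.leaf ⟨c300x, c301x, c286x, c286x⟩) (.leaf ⟨c300x, c300x, c277x, c286x⟩))))) (.node 6 (.node 3 (.node 1 (.leaf ⟨c299x, c300x, c277x, c277x⟩) (.node 1 (.leaf ⟨c299x, c299x, c272x, c277x⟩) (.leaf ⟨c299x, c303x, c272x, c272x⟩))) (.node 1 (.leaf ⟨c303x, c303x, c274x, c272x⟩) (.node 1 (.leaf ⟨c303x, c304x, c274x, c274x⟩) (.leaf ⟨c304x, c304x, c274x, c295x⟩)))) (.node 3 (.node 1 (.leaf ⟨c302x, c304x, c295x, c295x⟩) (.node 1 (.leaf ⟨c302x, c302x, c295x, c296x⟩) (.leaf ⟨c302x, c318x, c296x, c296x⟩))) (.node 2 (.node 1 (.leaf ⟨c318x, c318x, c296x, c309x⟩) (.leaf ⟨c318x, c303x, c309x, c309x⟩)) (.node 1 (.leaf ⟨c303x, c303x, c291x, c309x⟩) (.leaf ⟨c303x, c319x, c291x, c291x⟩)))))))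

def ex011x : EX :=
  .node 49 (.node 24 (.node 12 (.node 6 (.node 3 (.node 1 (.leaf ⟨c319x, c319x, c290x, c291x⟩) (.node 1 (.leaf ⟨c319x, c306x, c290x, c290x⟩) (.leaf ⟨c306x, c306x, c295x, c290x⟩))) (.node 1 (.leaf ⟨c305x, c306x, c295x, c295x⟩) (.node 1 (.leaf ⟨c305x, c305x, c277x, c295x⟩) (.leaf ⟨c305x, c313x, c277x, c277x⟩)))) (.node 3 (.node 1 (.leaf ⟨c313x, c313x, c277x, c281x⟩) (.node 1 (.leaf ⟨c313x, c314x, c281x, c281x⟩) (.leaf ⟨c314x, c314x, c284x, c281x⟩))) (.node 1 (.leaf ⟨c314x, c315x, c284x, c284x⟩) (.node 1 (.leaf ⟨c315x, c315x, c284x, c286x⟩) (.leaf ⟨c315x, c316x, c286x, c286x⟩))))) (.node 6 (.node 3 (.node 1 (.leaf ⟨c316x, c316x, c279x, c286x⟩) (.node 1 (.leaf ⟨c316x, c317x, c279x, c279x⟩) (.leaf ⟨c317x, c317x, c279x, c298x⟩))) (.node 1 (.leaf ⟨c317x, c342x, c298x, c298x⟩) (.node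 1 (.leaf ⟨c342x, c342x, c298x, c311x⟩) (.leaf ⟨c342x, c358x, c311x, c311x⟩)))) (.node 3 (.node 1 (.leaf ⟨c358x, c358x, c311x, c335x⟩) (.node 1 (.leaf ⟨c358x, c366x, c335x, c335x⟩) (.leaf ⟨c366x, c366x, c335x, c336x⟩))) (.node 1 (.leaf ⟨c366x, c362x, c336x, c336x⟩) (.node 1 (.leaf ⟨c362x, c362x, c322x, c336x⟩) (.leaf ⟨c362x, c363x, c322x, c322x⟩)))))) (.node 12 (.node 6 (.node 3 (.node 1 (.leaf ⟨c363x, c363x, c322x, c324x⟩) (.node 1 (.leaf ⟨c363x, c360x, c324x, c324x⟩) (.leaf ⟨c360x, c360x, c326x, c324x⟩))) (.node 1 (.leaf ⟨c360x, c349x, c326x, c326x⟩) (.node 1 (.leaf ⟨c349x, c349x, c326x, c345x⟩) (.leaf ⟨c348x, c349x, c345x, c345x⟩)))) (.node 3 (.node 1 (.leaf ⟨c348x, c348x, c345x, c338x⟩) (.node 1 (.leaf ⟨c348x, c367x, c338x, c338x⟩) (.leaf ⟨c367x, c367x, c338x, c340x⟩))) (.node 1 (.leaf ⟨c367x,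 c344x, c340x, c340x⟩) (.node 1 (.leaf ⟨c344x, c344x, c340x, c354x⟩) (.leaf ⟨c344x, c368x, c354x, c354x⟩))))) (.node 6 (.node 3 (.node 1 (.leaf ⟨c368x, c368x, c356x, c354x⟩) (.node 1 (.leaf ⟨c368x, c350x, c356x, c356x⟩) (.leaf ⟨c350x, c350x, c345x, c356x⟩))) (.node 1 (.leaf ⟨c343x, c350x, c345x, c345x⟩) (.node 1 (.leaf ⟨c343x, c343x, c329x, c345x⟩) (.leaf ⟨c343x, c344x, c329x, c329x⟩)))) (.node 3 (.node 1 (.leaf ⟨c344x, c344x, c329x, c331x⟩) (.node 1 (.leaf ⟨c344x, c347x, c331x, c331x⟩) (.leaf ⟨c347x, c347x, c331x, c326x⟩))) (.node 2 (.node 1 (.leaf ⟨c346x, c347x, c326x, c326x⟩) (.leaf ⟨c346x, c346x, c326x, c336x⟩)) (.node 1 (.leaf ⟨c351x, c346x, c336x, c336x⟩) (.leaf ⟨c351x, c351x, c336x, c339x⟩))))))) (.node 25 (.node 12 (.node 6 (.node 3 (.node 1 (.leaf ⟨c351x, c364x, c339x, c339x⟩) (.node 1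 (.leaf ⟨c364x, c364x, c324x, c339x⟩) (.leaf ⟨c364x, c365x, c324x, c324x⟩))) (.node 1 (.leaf ⟨c365x, c365x, c324x, c335x⟩) (.node 1 (.leaf ⟨c365x, c369x, c335x, c335x⟩) (.leaf ⟨c369x, c369x, c335x, c359x⟩)))) (.node 3 (.node 1 (.leaf ⟨c369x, c392x, c359x, c359x⟩) (.node 1 (.leaf ⟨c392x, c392x, c359x, c361x⟩) (.leaf ⟨c392x, c403x, c361x, c361x⟩))) (.node 1 (.leaf ⟨c403x, c403x, c361x, c381x⟩) (.node 1 (.leaf ⟨c403x, c414x, c381x, c381x⟩) (.leaf ⟨c414x, c414x, c383x, c381x⟩))))) (.node 6 (.node 3 (.node 1 (.leaf ⟨c414x, c415x, c383x, c383x⟩) (.node 1 (.leaf ⟨c415x, c415x, c383x, c385x⟩) (.leaf ⟨c415x, c416x, c385x, c385x⟩))) (.node 1 (.leaf ⟨c416x, c416x, c387x, c385x⟩) (.node 1 (.leaf ⟨c416x, c417x, c387x, c387x⟩) (.leaf ⟨c417x, c417x, c387x, c388x⟩)))) (.node 3 (.node 1 (.leaf ⟨c417x, c406x, c388x,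 c388x⟩) (.node 1 (.leaf ⟨c406x, c406x, c396x, c388x⟩) (.leaf ⟨c405x, c406x, c396x, c396x⟩))) (.node 2 (.node 1 (.leaf ⟨c405x, c405x, c375x, c396x⟩) (.leaf ⟨c405x, c411x, c375x, c375x⟩)) (.node 1 (.leaf ⟨c411x, c411x, c376x, c375x⟩) (.leaf ⟨c411x, c395x, c376x, c376x⟩)))))) (.node 12 (.node 6 (.node 3 (.node 1 (.leaf ⟨c395x, c395x, c372x, c376x⟩) (.node 1 (.leaf ⟨c395x, c397x, c372x, c372x⟩) (.leaf ⟨c397x, c397x, c372x, c390x⟩))) (.node 1 (.leaf ⟨c397x, c407x, c390x, c390x⟩) (.node 1 (.leaf ⟨c407x, c407x, c390x, c396x⟩) (.leaf ⟨c394x, c407x, c396x, c396x⟩)))) (.node 3 (.node 1 (.leaf ⟨c394x, c394x, c396x, c400x⟩) (.node 1 (.leaf ⟨c394x, c395x, c400x, c400x⟩) (.leaf ⟨c395x, c395x, c393x, c400x⟩))) (.node 1 (.leaf ⟨c395x, c410x, c393x, c393x⟩) (.node 1 (.leaf ⟨c410x, c410x, c388x, c393x⟩) (.leaf ⟨c409x,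 c410x, c388x, c388x⟩))))) (.node 6 (.node 3 (.node 1 (.leaf ⟨c409x, c409x, c383x, c388x⟩) (.node 1 (.leaf ⟨c408x, c409x, c383x, c383x⟩) (.leaf ⟨c408x, c408x, c379x, c383x⟩))) (.node 1 (.leaf ⟨c408x, c413x, c379x, c379x⟩) (.node 1 (.leaf ⟨c413x, c413x, c379x, c387x⟩) (.leaf ⟨c413x, c418x, c387x, c387x⟩)))) (.node 3 (.node 1 (.leaf ⟨c418x, c418x, c381x, c387x⟩) (.node 1 (.leaf ⟨c418x, c419x, c381x, c381x⟩) (.leaf ⟨c419x, c419x, c381x, c404x⟩))) (.node 2 (.node 1 (.leaf ⟨c419x, c439x, c404x, c404x⟩) (.leaf ⟨c439x, c439x, c404x, c412x⟩)) (.node 1 (.leaf ⟨c439x, c461x, c412x, c412x⟩) (.leaf ⟨c461x, c461x, c412x, c424x⟩)))))))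

def ex01x : EX :=
  .node 98 ex010x ex011x

def ex0x : EX :=
  .node 197 ex00x ex01x

def ex100x : EX :=
  .node 49 (.node 24 (.node 12 (.node 6 (.node 3 (.node 1 (.leaf ⟨c460x, c461x, c424x, c424x⟩) (.node 1 (.leaf ⟨c460x, c460x, c430x, c424x⟩) (.leaf ⟨c459x, c460x, c430x, c430x⟩))) (.node 1 (.leaf ⟨c459x, c459x, c430x, c441x⟩) (.node 1 (.leaf ⟨c466x, c459x, c441x, c441x⟩) (.leaf ⟨c466x, c466x, c426x, c441x⟩)))) (.node 3 (.node 1 (.leaf ⟨c466x, c465x, c426x, c426x⟩) (.node 1 (.leaf ⟨c465x, c465x, c432x, c426x⟩) (.leaf ⟨c465x, c458x, c432x, c432x⟩))) (.node 1 (.leaf ⟨c458x, c458x, c436x, c432x⟩) (.node 1 (.leaf ⟨c443x, c458x, c436x, c436x⟩) (.leaf ⟨c443x, c443x, c422x, c436x⟩))))) (.node 6 (.node 3 (.node 1 (.leaf ⟨c442x, c443x, c422x, c422x⟩) (.node 1 (.leaf ⟨c442x, c442x, c422x, c450x⟩) (.leaf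 ⟨c442x, c464x, c450x, c450x⟩))) (.node 1 (.leaf ⟨c464x, c464x, c450x, c454x⟩) (.node 1 (.leaf ⟨c463x, c464x, c454x, c454x⟩) (.leaf ⟨c463x, c463x, c454x, c452x⟩)))) (.node 3 (.node 1 (.leaf ⟨c443x, c463x, c452x, c452x⟩) (.node 1 (.leaf ⟨c443x, c443x, c440x, c452x⟩) (.leaf ⟨c457x, c443x, c440x, c440x⟩))) (.node 1 (.leaf ⟨c457x, c457x, c434x, c440x⟩) (.node 1 (.leaf ⟨c462x, c457x, c434x, c434x⟩) (.leaf ⟨c462x, c462x, c450x, c434x⟩)))))) (.node 12 (.node 6 (.node 3 (.node 1 (.leaf ⟨c462x, c448x, c450x, c450x⟩) (.node 1 (.leaf ⟨c448x, c448x, c432x, c450x⟩) (.leaf ⟨c447x, c448x, c432x, c432x⟩))) (.node 1 (.leaf ⟨c447x, c447x, c432x, c430x⟩) (.node 1 (.leaf ⟨c446x, c447x, c430x, c430x⟩) (.leaf ⟨c446x, c446x, c428x, c430x⟩)))) (.node 3 (.node 1 (.leaf ⟨c445x, c446x, c428x, c428x⟩) (.node 1 (.leaf ⟨c445x,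 c445x, c428x, c426x⟩) (.leaf ⟨c444x, c445x, c426x, c426x⟩))) (.node 1 (.leaf ⟨c444x, c444x, c424x, c426x⟩) (.node 1 (.leaf ⟨c438x, c444x, c424x, c424x⟩) (.leaf ⟨c438x, c438x, c430x, c424x⟩))))) (.node 6 (.node 3 (.node 1 (.leaf ⟨c437x, c438x, c430x, c430x⟩) (.node 1 (.leaf ⟨c437x, c437x, c430x, c441x⟩) (.leaf ⟨c456x, c437x, c441x, c441x⟩))) (.node 1 (.leaf ⟨c456x, c456x, c426x, c441x⟩) (.node 1 (.leaf ⟨c456x, c455x, c426x, c426x⟩) (.leaf ⟨c455x, c455x, c432x, c426x⟩)))) (.node 3 (.node 1 (.leaf ⟨c455x, c435x, c432x, c432x⟩) (.node 1 (.leaf ⟨c435x, c435x, c436x, c432x⟩) (.leaf ⟨c421x, c435x, c436x, c436x⟩))) (.node 2 (.node 1 (.leaf ⟨c421x, c421x, c422x, c436x⟩) (.leaf ⟨c420x, c421x, c422x, c422x⟩)) (.node 1 (.leaf ⟨c420x, c420x, c422x, c450x⟩) (.leaf ⟨c420x, c453x, c450x, c450x⟩))))))) (.node 24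 (.node 12 (.node 6 (.node 3 (.node 1 (.leaf ⟨c453x, c453x, c450x, c454x⟩) (.node 1 (.leaf ⟨c451x, c453x, c454x, c454x⟩) (.leaf ⟨c451x, c451x, c454x, c452x⟩))) (.node 1 (.leaf ⟨c421x, c451x, c452x, c452x⟩) (.node 1 (.leaf ⟨c421x, c421x, c440x, c452x⟩) (.leaf ⟨c433x, c421x, c440x, c440x⟩)))) (.node 3 (.node 1 (.leaf ⟨c433x, c433x, c434x, c440x⟩) (.node 1 (.leaf ⟨c449x, c433x, c434x, c434x⟩) (.leaf ⟨c449x, c449x, c450x, c434x⟩))) (.node 1 (.leaf ⟨c449x, c431x, c450x, c450x⟩) (.node 1 (.leaf ⟨c431x, c431x, c432x, c450x⟩) (.leaf ⟨c429x, c431x, c432x, c432x⟩))))) (.node 6 (.node 3 (.node 1 (.leaf ⟨c429x, c429x, c432x, c430x⟩) (.node 1 (.leaf ⟨c427x, c429x, c430x, c430x⟩) (.leaf ⟨c427x, c427x, c428x, c430x⟩))) (.node 1 (.leaf ⟨c425x, c427x, c428x, c428x⟩) (.node 1 (.leaf ⟨c425x, c425x, c428x, c426x⟩)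 (.leaf ⟨c423x, c425x, c426x, c426x⟩)))) (.node 3 (.node 1 (.leaf ⟨c423x, c423x, c424x, c426x⟩) (.node 1 (.leaf ⟨c419x, c423x, c424x, c424x⟩) (.leaf ⟨c419x, c419x, c412x, c424x⟩))) (.node 1 (.leaf ⟨c403x, c419x, c412x, c412x⟩) (.node 1 (.leaf ⟨c403x, c403x, c404x, c412x⟩) (.leaf ⟨c392x, c403x, c404x, c404x⟩)))))) (.node 12 (.node 6 (.node 3 (.node 1 (.leaf ⟨c392x, c392x, c381x, c404x⟩) (.node 1 (.leaf ⟨c391x, c392x, c381x, c381x⟩) (.leaf ⟨c391x, c391x, c381x, c387x⟩))) (.node 1 (.leaf ⟨c378x, c391x, c387x, c387x⟩) (.node 1 (.leaf ⟨c378x, c378x, c379x, c387x⟩) (.leaf ⟨c377x, c378x, c379x, c379x⟩)))) (.node 3 (.node 1 (.leaf ⟨c377x, c377x, c379x, c383x⟩) (.node 1 (.leaf ⟨c377x, c401x, c383x, c383x⟩) (.leaf ⟨c401x, c401x, c383x, c388x⟩))) (.node 1 (.leaf ⟨c401x, c402x, c388x, c388x⟩) (.node 1 (.leaf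 ⟨c402x, c402x, c388x, c393x⟩) (.leaf ⟨c370x, c402x, c393x, c393x⟩))))) (.node 6 (.node 3 (.node 1 (.leaf ⟨c370x, c370x, c393x, c400x⟩) (.node 1 (.leaf ⟨c399x, c370x, c400x, c400x⟩) (.leaf ⟨c399x, c399x, c396x, c400x⟩))) (.node 1 (.leaf ⟨c399x, c389x, c396x, c396x⟩) (.node 1 (.leaf ⟨c389x, c389x, c390x, c396x⟩) (.leaf ⟨c371x, c389x, c390x, c390x⟩)))) (.node 3 (.node 1 (.leaf ⟨c371x, c371x, c372x, c390x⟩) (.node 1 (.leaf ⟨c370x, c371x, c372x, c372x⟩) (.leaf ⟨c370x, c370x, c372x, c376x⟩))) (.node 2 (.node 1 (.leaf ⟨c374x, c370x, c376x, c376x⟩) (.leaf ⟨c374x, c374x, c376x, c375x⟩)) (.node 1 (.leaf ⟨c373x, c374x, c375x, c375x⟩) (.leaf ⟨c373x, c373x, c375x, c396x⟩)))))))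

def ex101x : EX :=
  .node 49 (.node 24 (.node 12 (.node 6 (.node 3 (.node 1 (.leaf ⟨c373x, c398x, c396x, c396x⟩) (.node 1 (.leaf ⟨c398x, c398x, c396x, c388x⟩) (.leaf ⟨c386x, c398x, c388x, c388x⟩))) (.node 1 (.leaf ⟨c386x, c386x, c387x, c388x⟩) (.node 1 (.leaf ⟨c384x, c386x, c387x, c387x⟩) (.leaf ⟨c384x, c384x, c387x, c385x⟩)))) (.node 3 (.node 1 (.leaf ⟨c382x, c384x, c385x, c385x⟩) (.node 1 (.leaf ⟨c382x, c382x, c383x, c385x⟩) (.leaf ⟨c380x, c382x, c383x, c383x⟩))) (.node 1 (.leaf ⟨c380x, c380x, c383x, c381x⟩) (.node 1 (.leaf ⟨c369x, c380x, c381x, c381x⟩) (.leaf ⟨c369x, c369x, c361x, c381x⟩))))) (.node 6 (.node 3 (.node 1 (.leaf ⟨c358x, c369x, c361x, c361x⟩) (.node 1 (.leaf ⟨c358x, c358x, c359x, c361x⟩) (.leaf ⟨c342x, c358x, c359x, c359x⟩))) (.node 1 (.leaf ⟨c342x, c342x, c335x, c359x⟩) (.node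 1 (.leaf ⟨c333x, c342x, c335x, c335x⟩) (.leaf ⟨c333x, c333x, c324x, c335x⟩)))) (.node 3 (.node 1 (.leaf ⟨c332x, c333x, c324x, c324x⟩) (.node 1 (.leaf ⟨c332x, c332x, c324x, c339x⟩) (.leaf ⟨c357x, c332x, c339x, c339x⟩))) (.node 1 (.leaf ⟨c357x, c357x, c336x, c339x⟩) (.node 1 (.leaf ⟨c357x, c341x, c336x, c336x⟩) (.leaf ⟨c341x, c341x, c326x, c336x⟩)))))) (.node 12 (.node 6 (.node 3 (.node 1 (.leaf ⟨c341x, c330x, c326x, c326x⟩) (.node 1 (.leaf ⟨c330x, c330x, c331x, c326x⟩) (.leaf ⟨c328x, c330x, c331x, c331x⟩))) (.node 1 (.leaf ⟨c328x, c328x, c329x, c331x⟩) (.node 1 (.leaf ⟨c327x, c328x, c329x, c329x⟩) (.leaf ⟨c327x, c327x, c329x, c345x⟩)))) (.node 3 (.node 1 (.leaf ⟨c327x, c355x, c345x, c345x⟩) (.node 1 (.leaf ⟨c355x, c355x, c345x, c356x⟩) (.leaf ⟨c353x, c355x, c356x, c356x⟩))) (.node 1 (.leaf ⟨c353x,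 c353x, c356x, c354x⟩) (.node 1 (.leaf ⟨c328x, c353x, c354x, c354x⟩) (.leaf ⟨c328x, c328x, c340x, c354x⟩))))) (.node 6 (.node 3 (.node 1 (.leaf ⟨c337x, c328x, c340x, c340x⟩) (.node 1 (.leaf ⟨c337x, c337x, c338x, c340x⟩) (.leaf ⟨c352x, c337x, c338x, c338x⟩))) (.node 1 (.leaf ⟨c352x, c352x, c345x, c338x⟩) (.node 1 (.leaf ⟨c352x, c325x, c345x, c345x⟩) (.leaf ⟨c325x, c325x, c326x, c345x⟩)))) (.node 3 (.node 1 (.leaf ⟨c323x, c325x, c326x, c326x⟩) (.node 1 (.leaf ⟨c323x, c323x, c326x, c324x⟩) (.leaf ⟨c321x, c323x, c324x, c324x⟩))) (.node 2 (.node 1 (.leaf ⟨c321x, c321x, c322x, c324x⟩) (.leaf ⟨c320x, c321x, c322x, c322x⟩)) (.node 1 (.leaf ⟨c320x, c320x, c322x, c336x⟩) (.leaf ⟨c334x, c320x, c336x, c336x⟩))))))) (.node 25 (.node 12 (.node 6 (.node 3 (.node 1 (.leaf ⟨c334x, c334x, c335x, c336x⟩) (.node 1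 (.leaf ⟨c317x, c334x, c335x, c335x⟩) (.leaf ⟨c317x, c317x, c311x, c335x⟩))) (.node 1 (.leaf ⟨c297x, c317x, c311x, c311x⟩) (.node 1 (.leaf ⟨c297x, c297x, c298x, c311x⟩) (.leaf ⟨c287x, c297x, c298x, c298x⟩)))) (.node 3 (.node 1 (.leaf ⟨c287x, c287x, c279x, c298x⟩) (.node 1 (.leaf ⟨c285x, c287x, c279x, c279x⟩) (.leaf ⟨c285x, c285x, c279x, c286x⟩))) (.node 1 (.leaf ⟨c283x, c285x, c286x, c286x⟩) (.node 1 (.leaf ⟨c283x, c283x, c284x, c286x⟩) (.leaf ⟨c282x, c283x, c284x, c284x⟩))))) (.node 6 (.node 3 (.node 1 (.leaf ⟨c282x, c282x, c284x, c281x⟩) (.node 1 (.leaf ⟨c276x, c282x, c281x, c281x⟩) (.leaf ⟨c276x, c276x, c277x, c281x⟩))) (.node 1 (.leaf ⟨c275x, c276x, c277x, c277x⟩) (.node 1 (.leaf ⟨c275x, c275x, c277x, c295x⟩) (.leaf ⟨c275x, c308x, c295x, c295x⟩)))) (.node 3 (.node 1 (.leaf ⟨c308x, c308x, c295x,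 c290x⟩) (.node 1 (.leaf ⟨c289x, c308x, c290x, c290x⟩) (.leaf ⟨c289x, c289x, c290x, c291x⟩))) (.node 2 (.node 1 (.leaf ⟨c271x, c289x, c291x, c291x⟩) (.leaf ⟨c271x, c271x, c291x, c309x⟩)) (.node 1 (.leaf ⟨c294x, c271x, c309x, c309x⟩) (.leaf ⟨c294x, c294x, c296x, c309x⟩)))))) (.node 12 (.node 6 (.node 3 (.node 1 (.leaf ⟨c293x, c294x, c296x, c296x⟩) (.node 1 (.leaf ⟨c293x, c293x, c295x, c296x⟩) (.leaf ⟨c293x, c273x, c295x, c295x⟩))) (.node 1 (.leaf ⟨c273x, c273x, c274x, c295x⟩) (.node 1 (.leaf ⟨c271x, c273x, c274x, c274x⟩) (.leaf ⟨c271x, c271x, c274x, c272x⟩)))) (.node 3 (.node 1 (.leaf ⟨c270x, c271x, c272x, c272x⟩) (.node 1 (.leaf ⟨c270x, c270x, c272x, c277x⟩) (.leaf ⟨c270x, c292x, c277x, c277x⟩))) (.node 1 (.leaf ⟨c292x, c292x, c277x, c286x⟩) (.node 1 (.leaf ⟨c292x, c307x, c286x, c286x⟩) (.leaf ⟨c307x,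 c307x, c286x, c288x⟩))))) (.node 6 (.node 3 (.node 1 (.leaf ⟨c280x, c307x, c288x, c288x⟩) (.node 1 (.leaf ⟨c280x, c280x, c281x, c288x⟩) (.leaf ⟨c278x, c280x, c281x, c281x⟩))) (.node 1 (.leaf ⟨c278x, c278x, c281x, c279x⟩) (.node 1 (.leaf ⟨c269x, c278x, c279x, c279x⟩) (.leaf ⟨c269x, c269x, c262x, c279x⟩)))) (.node 3 (.node 1 (.leaf ⟨c249x, c269x, c262x, c262x⟩) (.node 1 (.leaf ⟨c249x, c249x, c250x, c262x⟩) (.leaf ⟨c245x, c249x, c250x, c250x⟩))) (.node 2 (.node 1 (.leaf ⟨c245x, c245x, c233x, c250x⟩) (.leaf ⟨c244x, c245x, c233x, c233x⟩)) (.node 1 (.leaf ⟨c244x, c244x, c237x, c233x⟩) (.leaf ⟨c243x, c244x, c237x, c237x⟩)))))))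

def ex10x : EX :=
  .node 98 ex100x ex101x

def ex110x : EX :=
  .node 49 (.node 24 (.node 12 (.node 6 (.node 3 (.node 1 (.leaf ⟨c243x, c243x, c237x, c246x⟩) (.node 1 (.leaf ⟨c242x, c243x, c246x, c246x⟩) (.leaf ⟨c242x, c242x, c234x, c246x⟩))) (.node 1 (.leaf ⟨c241x, c242x, c234x, c234x⟩) (.node 1 (.leaf ⟨c241x, c241x, c234x, c240x⟩) (.leaf ⟨c239x, c241x, c240x, c240x⟩)))) (.node 3 (.node 1 (.leaf ⟨c239x, c239x, c238x, c240x⟩) (.node 1 (.leaf ⟨c239x, c230x, c238x, c238x⟩) (.leaf ⟨c230x, c230x, c231x, c238x⟩))) (.node 1 (.leaf ⟨c228x, c230x, c231x, c231x⟩) (.node 1 (.leaf ⟨c228x, c228x, c229x, c231x⟩) (.leaf ⟨c226x, c228x, c229x, c229x⟩))))) (.node 6 (.node 3 (.node 1 (.leaf ⟨c226x, c226x, c227x, c229x⟩) (.node 1 (.leaf ⟨c224x, c226x, c227x, c227x⟩) (.leaf ⟨c224x, c224x, c227x, c225x⟩))) (.node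 1 (.leaf ⟨c223x, c224x, c225x, c225x⟩) (.node 1 (.leaf ⟨c223x, c223x, c225x, c238x⟩) (.leaf ⟨c223x, c259x, c238x, c238x⟩)))) (.node 3 (.node 1 (.leaf ⟨c259x, c259x, c238x, c260x⟩) (.node 1 (.leaf ⟨c226x, c259x, c260x, c260x⟩) (.leaf ⟨c226x, c226x, c235x, c260x⟩))) (.node 1 (.leaf ⟨c258x, c226x, c235x, c235x⟩) (.node 1 (.leaf ⟨c258x, c258x, c240x, c235x⟩) (.leaf ⟨c258x, c236x, c240x, c240x⟩)))))) (.node 12 (.node 6 (.node 3 (.node 1 (.leaf ⟨c236x, c236x, c237x, c240x⟩) (.node 1 (.leaf ⟨c236x, c221x, c237x, c237x⟩) (.leaf ⟨c221x, c221x, c222x, c237x⟩))) (.node 1 (.leaf ⟨c220x, c221x, c222x, c222x⟩) (.node 1 (.leaf ⟨c220x, c220x, c222x, c234x⟩) (.leaf ⟨c232x, c220x, c234x, c234x⟩)))) (.node 3 (.node 1 (.leaf ⟨c232x, c232x, c233x, c234x⟩) (.node 1 (.leaf ⟨c219x, c232x, c233x, c233x⟩) (.leaf ⟨c219x,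 c219x, c208x, c233x⟩))) (.node 1 (.leaf ⟨c203x, c219x, c208x, c208x⟩) (.node 1 (.leaf ⟨c203x, c203x, c204x, c208x⟩) (.leaf ⟨c175x, c203x, c204x, c204x⟩))))) (.node 6 (.node 3 (.node 1 (.leaf ⟨c175x, c175x, c186x, c204x⟩) (.node 1 (.leaf ⟨c174x, c175x, c186x, c186x⟩) (.leaf ⟨c174x, c174x, c186x, c194x⟩))) (.node 1 (.leaf ⟨c172x, c174x, c194x, c194x⟩) (.node 1 (.leaf ⟨c172x, c172x, c193x, c194x⟩) (.leaf ⟨c182x, c172x, c193x, c193x⟩)))) (.node 3 (.node 1 (.leaf ⟨c182x, c182x, c193x, c187x⟩) (.node 1 (.leaf ⟨c179x, c182x, c187x, c187x⟩) (.leaf ⟨c179x, c179x, c189x, c187x⟩))) (.node 2 (.node 1 (.leaf ⟨c150x, c179x, c189x, c189x⟩) (.leaf ⟨c150x, c150x, c189x, c199x⟩)) (.node 1 (.leaf ⟨c150x, c151x, c199x, c199x⟩) (.leaf ⟨c151x, c151x, c199x, c191x⟩))))))) (.node 24 (.node 12 (.node 6 (.node 3 (.node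 1 (.leaf ⟨c190x, c151x, c191x, c191x⟩) (.node 1 (.leaf ⟨c190x, c190x, c191x, c192x⟩) (.leaf ⟨c176x, c190x, c192x, c192x⟩))) (.node 1 (.leaf ⟨c176x, c176x, c192x, c206x⟩) (.node 1 (.leaf ⟨c201x, c176x, c206x, c206x⟩) (.leaf ⟨c201x, c201x, c202x, c206x⟩)))) (.node 3 (.node 1 (.leaf ⟨c158x, c201x, c202x, c202x⟩) (.node 1 (.leaf ⟨c158x, c158x, c199x, c202x⟩) (.leaf ⟨c158x, c160x, c199x, c199x⟩))) (.node 1 (.leaf ⟨c160x, c160x, c185x, c199x⟩) (.node 1 (.leaf ⟨c176x, c160x, c185x, c185x⟩) (.leaf ⟨c176x, c176x, c185x, c184x⟩))))) (.node 6 (.node 3 (.node 1 (.leaf ⟨c183x, c176x, c184x, c184x⟩) (.node 1 (.leaf ⟨c183x, c183x, c184x, c189x⟩) (.leaf ⟨c183x, c200x, c189x, c189x⟩))) (.node 1 (.leaf ⟨c200x, c200x, c189x, c194x⟩) (.node 1 (.leaf ⟨c200x, c156x, c194x, c194x⟩) (.leaf ⟨c156x, c156x, c194x, c188x⟩))))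 (.node 3 (.node 1 (.leaf ⟨c155x, c156x, c188x, c188x⟩) (.node 1 (.leaf ⟨c155x, c155x, c187x, c188x⟩) (.leaf ⟨c164x, c155x, c187x, c187x⟩))) (.node 1 (.leaf ⟨c164x, c164x, c187x, c186x⟩) (.node 1 (.leaf ⟨c163x, c164x, c186x, c186x⟩) (.leaf ⟨c163x, c163x, c168x, c186x⟩)))))) (.node 12 (.node 6 (.node 3 (.node 1 (.leaf ⟨c149x, c163x, c168x, c168x⟩) (.node 1 (.leaf ⟨c149x, c149x, c166x, c168x⟩) (.leaf ⟨c124x, c149x, c166x, c166x⟩))) (.node 1 (.leaf ⟨c124x, c124x, c165x, c166x⟩) (.node 1 (.leaf ⟨c124x, c144x, c165x, c165x⟩) (.leaf ⟨c144x, c144x, c165x, c167x⟩)))) (.node 3 (.node 1 (.leaf ⟨c144x, c145x, c167x, c167x⟩) (.node 1 (.leaf ⟨c145x, c145x, c157x, c167x⟩) (.leaf ⟨c145x, c146x, c157x, c157x⟩))) (.node 1 (.leaf ⟨c146x, c146x, c157x, c159x⟩) (.node 1 (.leaf ⟨c146x, c147x, c159x, c159x⟩) (.leaf ⟨c147x,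 c147x, c161x, c159x⟩))))) (.node 6 (.node 3 (.node 1 (.leaf ⟨c147x, c127x, c161x, c161x⟩) (.node 1 (.leaf ⟨c127x, c127x, c161x, c162x⟩) (.leaf ⟨c126x, c127x, c162x, c162x⟩))) (.node 1 (.leaf ⟨c126x, c126x, c162x, c170x⟩) (.node 1 (.leaf ⟨c126x, c141x, c170x, c170x⟩) (.leaf ⟨c141x, c141x, c170x, c171x⟩)))) (.node 3 (.node 1 (.leaf ⟨c141x, c130x, c171x, c171x⟩) (.node 1 (.leaf ⟨c130x, c130x, c171x, c178x⟩) (.leaf ⟨c130x, c131x, c178x, c178x⟩))) (.node 2 (.node 1 (.leaf ⟨c131x, c131x, c180x, c178x⟩) (.leaf ⟨c131x, c132x, c180x, c180x⟩)) (.node 1 (.leaf ⟨c132x, c132x, c162x, c180x⟩) (.leaf ⟨c129x, c132x, c162x, c162x⟩)))))))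

def ex111x : EX :=
  .node 49 (.node 24 (.node 12 (.node 6 (.node 3 (.node 1 (.leaf ⟨c129x, c129x, c152x, c162x⟩) (.node 1 (.leaf ⟨c129x, c130x, c152x, c152x⟩) (.leaf ⟨c130x, c130x, c152x, c154x⟩))) (.node 1 (.leaf ⟨c130x, c140x, c154x, c154x⟩) (.node 1 (.leaf ⟨c140x, c140x, c154x, c161x⟩) (.leaf ⟨c134x, c140x, c161x, c161x⟩)))) (.node 3 (.node 1 (.leaf ⟨c134x, c134x, c161x, c167x⟩) (.node 1 (.leaf ⟨c133x, c134x, c167x, c167x⟩) (.leaf ⟨c133x, c133x, c167x, c173x⟩))) (.node 1 (.leaf ⟨c133x, c143x, c173x, c173x⟩) (.node 1 (.leaf ⟨c143x, c143x, c159x, c173x⟩) (.leaf ⟨c143x, c148x, c159x, c159x⟩))))) (.node 6 (.node 3 (.node 1 (.leaf ⟨c148x, c148x, c159x, c165x⟩) (.node 1 (.leaf ⟨c148x, c149x, c165x, c165x⟩) (.leaf ⟨c149x, c149x, c142x, c165x⟩))) (.node 1 (.leaf ⟨c124x, c149x, c142x, c142x⟩) (.node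 1 (.leaf ⟨c124x, c124x, c125x, c142x⟩) (.leaf ⟨c123x, c124x, c125x, c125x⟩)))) (.node 3 (.node 1 (.leaf ⟨c123x, c123x, c104x, c125x⟩) (.node 1 (.leaf ⟨c122x, c123x, c104x, c104x⟩) (.leaf ⟨c122x, c122x, c104x, c119x⟩))) (.node 1 (.leaf ⟨c114x, c122x, c119x, c119x⟩) (.node 1 (.leaf ⟨c114x, c114x, c115x, c119x⟩) (.leaf ⟨c113x, c114x, c115x, c115x⟩)))))) (.node 12 (.node 6 (.node 3 (.node 1 (.leaf ⟨c113x, c113x, c115x, c106x⟩) (.node 1 (.leaf ⟨c113x, c138x, c106x, c106x⟩) (.leaf ⟨c138x, c138x, c106x, c120x⟩))) (.node 1 (.leaf ⟨c138x, c139x, c120x, c120x⟩) (.node 1 (.leaf ⟨c139x, c139x, c120x, c121x⟩) (.leaf ⟨c100x, c139x, c121x, c121x⟩)))) (.node 3 (.node 1 (.leaf ⟨c100x, c100x, c121x, c137x⟩) (.node 1 (.leaf ⟨c136x, c100x, c137x, c137x⟩) (.leaf ⟨c136x, c136x, c128x, c137x⟩))) (.node 1 (.leaf ⟨c136x,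 c111x, c128x, c128x⟩) (.node 1 (.leaf ⟨c111x, c111x, c112x, c128x⟩) (.leaf ⟨c101x, c111x, c112x, c112x⟩))))) (.node 6 (.node 3 (.node 1 (.leaf ⟨c101x, c101x, c102x, c112x⟩) (.node 1 (.leaf ⟨c100x, c101x, c102x, c102x⟩) (.leaf ⟨c100x, c100x, c102x, c110x⟩))) (.node 1 (.leaf ⟨c108x, c100x, c110x, c110x⟩) (.node 1 (.leaf ⟨c108x, c108x, c110x, c109x⟩) (.leaf ⟨c107x, c108x, c109x, c109x⟩)))) (.node 3 (.node 1 (.leaf ⟨c107x, c107x, c109x, c128x⟩) (.node 1 (.leaf ⟨c107x, c135x, c128x, c128x⟩) (.leaf ⟨c135x, c135x, c128x, c120x⟩))) (.node 2 (.node 1 (.leaf ⟨c118x, c135x, c120x, c120x⟩) (.leaf ⟨c118x, c118x, c119x, c120x⟩)) (.node 1 (.leaf ⟨c116x, c118x, c119x, c119x⟩) (.leaf ⟨c116x, c116x, c119x, c117x⟩))))))) (.node 25 (.node 12 (.node 6 (.node 3 (.node 1 (.leaf ⟨c105x, c116x, c117x, c117x⟩) (.node 1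 (.leaf ⟨c105x, c105x, c106x, c117x⟩) (.leaf ⟨c103x, c105x, c106x, c106x⟩))) (.node 1 (.leaf ⟨c103x, c103x, c106x, c104x⟩) (.node 1 (.leaf ⟨c98x, c103x, c104x, c104x⟩) (.leaf ⟨c98x, c98x, c91x, c104x⟩)))) (.node 3 (.node 1 (.leaf ⟨c78x, c98x, c91x, c91x⟩) (.node 1 (.leaf ⟨c78x, c78x, c79x, c91x⟩) (.leaf ⟨c69x, c78x, c79x, c79x⟩))) (.node 1 (.leaf ⟨c69x, c69x, c62x, c79x⟩) (.node 1 (.leaf ⟨c68x, c69x, c62x, c62x⟩) (.leaf ⟨c68x, c68x, c64x, c62x⟩))))) (.node 6 (.node 3 (.node 1 (.leaf ⟨c67x, c68x, c64x, c64x⟩) (.node 1 (.leaf ⟨c67x, c67x, c64x, c71x⟩) (.leaf ⟨c89x, c67x, c71x, c71x⟩))) (.node 1 (.leaf ⟨c89x, c89x, c63x, c71x⟩) (.node 1 (.leaf ⟨c89x, c77x, c63x, c63x⟩) (.leaf ⟨c77x, c77x, c58x, c63x⟩)))) (.node 3 (.node 1 (.leaf ⟨c77x, c59x, c58x, c58x⟩) (.node 1 (.leaf ⟨c59x, c59x, c60x, c58x⟩) (.leaf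 ⟨c51x, c59x, c60x, c60x⟩))) (.node 2 (.node 1 (.leaf ⟨c51x, c51x, c52x, c60x⟩) (.leaf ⟨c50x, c51x, c52x, c52x⟩)) (.node 1 (.leaf ⟨c50x, c50x, c52x, c73x⟩) (.leaf ⟨c50x, c75x, c73x, c73x⟩)))))) (.node 12 (.node 6 (.node 3 (.node 1 (.leaf ⟨c75x, c75x, c73x, c76x⟩) (.node 1 (.leaf ⟨c74x, c75x, c76x, c76x⟩) (.leaf ⟨c74x, c74x, c76x, c88x⟩))) (.node 1 (.leaf ⟨c51x, c74x, c88x, c88x⟩) (.node 1 (.leaf ⟨c51x, c51x, c70x, c88x⟩) (.leaf ⟨c65x, c51x, c70x, c70x⟩)))) (.node 3 (.node 1 (.leaf ⟨c65x, c65x, c66x, c70x⟩) (.node 1 (.leaf ⟨c72x, c65x, c66x, c66x⟩) (.leaf ⟨c72x, c72x, c73x, c66x⟩))) (.node 1 (.leaf ⟨c72x, c57x, c73x, c73x⟩) (.node 1 (.leaf ⟨c57x, c57x, c58x, c73x⟩) (.leaf ⟨c56x, c57x, c58x, c58x⟩))))) (.node 6 (.node 3 (.node 1 (.leaf ⟨c56x, c56x, c58x, c64x⟩) (.node 1 (.leaf ⟨c54x, c56x, c64x, c64x⟩)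 (.leaf ⟨c54x, c54x, c55x, c64x⟩))) (.node 1 (.leaf ⟨c53x, c54x, c55x, c55x⟩) (.node 1 (.leaf ⟨c53x, c53x, c55x, c63x⟩) (.leaf ⟨c61x, c53x, c63x, c63x⟩)))) (.node 3 (.node 1 (.leaf ⟨c61x, c61x, c62x, c63x⟩) (.node 1 (.leaf ⟨c49x, c61x, c62x, c62x⟩) (.leaf ⟨c49x, c49x, c43x, c62x⟩))) (.node 2 (.node 1 (.leaf ⟨c39x, c49x, c43x, c43x⟩) (.leaf ⟨c39x, c39x, c13x, c43x⟩)) (.node 1 (.leaf ⟨c14x, c39x, c13x, c13x⟩) (.leaf ⟨c14x, c14x, c14x, c13x⟩)))))))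

def ex11x : EX :=
  .node 98 ex110x ex111x

def ex1x : EX :=
  .node 197 ex10x ex11x

def exx : EX :=
  .node 394 ex0x ex1x

end Pool.Agent.Box4
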