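import Pool.Agent.Box4.TreeP
set_option linter.all false
set_option autoImplicit false

namespace Pool.Agent.Box4

open Pool.Agent.Box3

theorem poly_ok5 : poly.ok5 = true := by decide +kernel

end Pool.Agent.Box4
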