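import Pool.Agent.Box4.QtA
import Pool.Agent.Box4.Edges
set_option linter.all false
set_option autoImplicit false

namespace Pool.Agent.Box4

open Pool.Agent.Box3

theorem sA00y : TA.n00x.self exx = true := by decide +kernel

theorem sA01y : TA.n01x.self exx = true := by decide +kernel

theorem sA00_01y : TA.n00x.cross exx TA.n01x = true := by decide +kernel

end Pool.Agent.Box4
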