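import Pool.Agent.Box4.QtB
import Pool.Agent.Box4.Edges
set_option linter.all false
set_option autoImplicit false

namespace Pool.Agent.Box4

open Pool.Agent.Box3

theorem sB10y : TB.n10x.self exx = true := by decide +kernel

theorem sB11y : TB.n11x.self exx = true := by decide +kernel

theorem sB10_11y : TB.n10x.cross exx TB.n11x = true := by decide +kernel

theorem sB0_1y : TB.n0x.cross exx TB.n1x = true := by decide +kernel

end Pool.Agent.Box4
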