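import Pool.Agent.Box4.QtC
import Pool.Agent.Box4.DataC
import Pool.Agent.Box4.Poly
set_option linter.all false
set_option autoImplicit false

namespace Pool.Agent.Box4

open Pool.Agent.Box3

theorem okC1y : BC.bx.ok1 cs = true := by decide +kernel

theorem okC2y : BC.bx.ok2 cs = true := by decide +kernel

theorem okC3y : BC.bx.ok3 cs = true := by decide +kernel

theorem okC4y : BC.bx.ok4 = true := by decide +kernel

theorem listCy : TC.nx.list.map PI.b = BC.ps := by decide +kernel

theorem validCy : TC.nx.valid = true := by decide +kernel

end Pool.Agent.Box4
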