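import Pool.Agent.Box4.QtC
import Pool.Agent.Box4.Edges
set_option linter.all false
set_option autoImplicit false

namespace Pool.Agent.Box4

open Pool.Agent.Box3

theorem sC00y : TC.n00x.self exx = true := by decide +kernel

theorem sC01y : TC.n01x.self exx = true := by decide +kernel

theorem sC00_01y : TC.n00x.cross exx TC.n01x = true := by decide +kernel

end Pool.Agent.Box4
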