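import Pool.Agent.Box4.QtD
import Pool.Agent.Box4.DataD
import Pool.Agent.Box4.Poly
set_option linter.all false
set_option autoImplicit false

namespace Pool.Agent.Box4

open Pool.Agent.Box3

theorem okD1y : BD.bx.ok1 cs = true := by decide +kernel

theorem okD2y : BD.bx.ok2 cs = true := by decide +kernel

theorem okD3y : BD.bx.ok3 cs = true := by decide +kernel

theorem okD4y : BD.bx.ok4 = true := by decide +kernel

theorem listDy : TD.nx.list.map PI.b = BD.ps := by decide +kernel

theorem validDy : TD.nx.valid = true := by decide +kernel

end Pool.Agent.Box4
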