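import Pool.Agent.Box3.TreeB
import Pool.Agent.Box3.FastP
import Pool.Agent.Box4.OkP
import Pool.Agent.Box4.OkQ
import Pool.Agent.Box4.OkS
import Pool.Agent.Box4.OkT
import Pool.Agent.Box4.RkA1
import Pool.Agent.Box4.RkA2
import Pool.Agent.Box4.RkA3
import Pool.Agent.Box4.RkB1
import Pool.Agent.Box4.RkB2
import Pool.Agent.Box4.RkB3
import Pool.Agent.Box4.RkC1
import Pool.Agent.Box4.RkC2
import Pool.Agent.Box4.RkC3
import Pool.Agent.Box4.RkD1
import Pool.Agent.Box4.RkD2
import Pool.Agent.Box4.RkD3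
set_option linter.all false
set_option autoImplicit false

/-!
One polygon and four boxes, with three free real parameters.
-/

namespace Pool.Agent.Box4

open Pool.Agent.Box3

theorem exl : exx.flat = poly.es := by decide +kernel

theorem selfAy : TA.nx.self exx = true := by
  have h0 : TA.n0x.self exx = true := by
    show (TA.n00x.self exx && TA.n01x.self exx && TA.n00x.cross exx TA.n01x) = true
    rw [sA00y, sA01y, sA00_01y]; rfl
  have h1 : TA.n1x.self exx = true := by
    show (TA.n10x.self exx && TA.n11x.self exx && TA.n10x.cross exx TA.n11x) = true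
    rw [sA10y, sA11y, sA10_11y]; rfl
  show (TA.n0x.self exx && TA.n1x.self exx && TA.n0x.cross exx TA.n1x) = true
  rw [h0, h1, sA0_1y]; rfl

theorem selfBy : TB.nx.self exx = true := by
  have h0 : TB.n0x.self exx = true := by
    show (TB.n00x.self exx && TB.n01x.self exx && TB.n00x.cross exx TB.n01x) = true
    rw [sB00y, sB01y, sB00_01y]; rfl
  have h1 : TB.n1x.self exx = true := by
    show (TB.n10x.self exx && TB.n11x.self exx && TB.n10x.cross exx TB.n11x) = true
    rw [sB10y, sB11y, sB10_11y]; rfl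
  show (TB.n0x.self exx && TB.n1x.self exx && TB.n0x.cross exx TB.n1x) = true
  rw [h0, h1, sB0_1y]; rfl

theorem selfCy : TC.nx.self exx = true := by
  have h0 : TC.n0x.self exx = true := by
    show (TC.n00x.self exx && TC.n01x.self exx && TC.n00x.cross exx TC.n01x) = true
    rw [sC00y, sC01y, sC00_01y]; rfl
  have h1 : TC.n1x.self exx = true := by
    show (TC.n10x.self exx && TC.n11x.self exx && TC.n10x.cross exx TC.n11x) = true
    rw [sC10y, sC11y, sC10_11y]; rfl
  show (TC.n0x.self exx && TC.n1x.self exx && TC.n0x.cross exx TC.n1x) = true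
  rw [h0, h1, sC0_1y]; rfl

theorem selfDy : TD.nx.self exx = true := by
  have h0 : TD.n0x.self exx = true := by
    show (TD.n00x.self exx && TD.n01x.self exx && TD.n00x.cross exx TD.n01x) = true
    rw [sD00y, sD01y, sD00_01y]; rfl
  have h1 : TD.n1x.self exx = true := by
    show (TD.n10x.self exx && TD.n11x.self exx && TD.n10x.cross exx TD.n11x) = true
    rw [sD10y, sD11y, sD10_11y]; rfl
  show (TD.n0x.self exx && TD.n1x.self exx && TD.n0x.cross exx TD.n1x) = true
  rw [h0, h1, sD0_1y]; rfl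

/-- the common net, in terms of the generators -/
theorem main_g (g : Fin 3 → ℝ) (hg : ∀ k, 0 < g k) :
    IsPolygon (poly.P g) ∧
    FoldsInto (poly.P g) (BA.bx.a.ev g) (BA.bx.b.ev g) (BA.bx.c.ev g) ∧
    FoldsInto (poly.P g) (BB.bx.a.ev g) (BB.bx.b.ev g) (BB.bx.c.ev g) ∧
    FoldsInto (poly.P g) (BC.bx.a.ev g) (BC.bx.b.ev g) (BC.bx.c.ev g) ∧
    FoldsInto (poly.P g) (BD.bx.a.ev g) (BD.bx.b.ev g) (BD.bx.c.ev g) := by
  have hb := edge_not_interiorF g hg poly tc poly_ok1 poly_ok3F poly_ok4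
  exact ⟨isPolygon_of_dataF g hg poly te tc poly_ok1 poly_ok2F poly_ok3F poly_ok4 poly_ok5 poly_ok6,
    box_of_treeB g hg poly BA.bx TA.nx exx exl listAy hb okA1y okA2y okA3y okA4y validAy selfAy,
    box_of_treeB g hg poly BB.bx TB.nx exx exl listBy hb okB1y okB2y okB3y okB4y validBy selfBy,
    box_of_treeB g hg poly BC.bx TC.nx exx exl listCy hb okC1y okC2y okC3y okC4y validCy selfCy,
    box_of_treeB g hg poly BD.bx TD.nx exx exl listDy hb okD1y okD2y okD3y okD4y validDy selfDy⟩

theorem exists_net (r w X : ℝ) (hr : 0 < r) (hw : 4 * r < w) (hX : 4 * w + 6 * r < X) :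
    ∃ P : Set Pl, IsPolygon P ∧ FoldsInto P (6 * r) (18 * w - 6 * r) (27 * X - 6 * r) ∧
      FoldsInto P (6 * w + 6 * r) (12 * w - 6 * r) (27 * X - 4 * w - 2 * r) ∧
      FoldsInto P (6 * r) (54 * w - 6 * r) (9 * X - 6 * r) ∧
      FoldsInto P (6 * r) (162 * w - 6 * r) (3 * X - 6 * r) := by
  set g : Fin 3 → ℝ := ![r, w - 4 * r, X - 4 * w - 6 * r] with hgd
  have g0 : g 0 = r := rfl
  have g1 : g 1 = w - 4 * r := rfl
  have g2 : g 2 = X - 4 * w - 6 * r := rfl
  have hg : ∀ k, 0 < g k := by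
    intro k
    fin_cases k
    · exact hr
    · show 0 < w - 4 * r; linarith
    · show 0 < X - 4 * w - 6 * r; linarith
  obtain ⟨h0, h1, h2, h3, h4⟩ := main_g g hg
  refine ⟨poly.P g, h0, ?_, ?_, ?_, ?_⟩
  · have e1 : BA.bx.a.ev g = 6 * r := by
      simp only [BA.bx, L.ev, c468x, g0, g1, g2]; push_cast; ring
    have e2 : BA.bx.b.ev g = 18 * w - 6 * r := by
      simp only [BA.bx, L.ev, c473x, g0, g1, g2]; push_cast; ring
    have e3 : BA.bx.c.ev g = 27 * X - 6 * r := by
      simp only [BA.bx, L.ev, c516x, g0, g1, g2]; push_cast; ring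
    rw [e1, e2, e3] at h1; exact h1
  · have e1 : BB.bx.a.ev g = 6 * w + 6 * r := by
      simp only [BB.bx, L.ev, c657x, g0, g1, g2]; push_cast; ring
    have e2 : BB.bx.b.ev g = 12 * w - 6 * r := by
      simp only [BB.bx, L.ev, c655x, g0, g1, g2]; push_cast; ring
    have e3 : BB.bx.c.ev g = 27 * X - 4 * w - 2 * r := by
      simp only [BB.bx, L.ev, c704x, g0, g1, g2]; push_cast; ring
    rw [e1, e2, e3] at h2; exact h2
  · have e1 : BC.bx.a.ev g = 6 * r := by
      simp only [BC.bx, L.ev, c468x, g0, g1, g2]; push_cast; ring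
    have e2 : BC.bx.b.ev g = 54 * w - 6 * r := by
      simp only [BC.bx, L.ev, c785x, g0, g1, g2]; push_cast; ring
    have e3 : BC.bx.c.ev g = 9 * X - 6 * r := by
      simp only [BC.bx, L.ev, c596x, g0, g1, g2]; push_cast; ring
    rw [e1, e2, e3] at h3; exact h3
  · have e1 : BD.bx.a.ev g = 6 * r := by
      simp only [BD.bx, L.ev, c468x, g0, g1, g2]; push_cast; ring
    have e2 : BD.bx.b.ev g = 162 * w - 6 * r := by
      simp only [BD.bx, L.ev, c847x, g0, g1, g2]; push_cast; ring
    have e3 : BD.bx.c.ev g = 3 * X - 6 * r := by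
      simp only [BD.bx, L.ev, c537x, g0, g1, g2]; push_cast; ring
    rw [e1, e2, e3] at h4; exact h4

end Pool.Agent.Box4
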