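import Pool.Agent.Box3.Check
set_option linter.all false
set_option autoImplicit false

namespace Pool.Agent.Box4

open Pool.Agent.Box3

def c1x : L := ⟨.ofNat 39, .ofNat 9, .ofNat 0⟩
def c2x : L := ⟨.ofNat 45, .ofNat 11, .ofNat 0⟩
def c3x : L := ⟨.negSucc 11, .negSucc 3, .ofNat 0⟩
def c4x : L := ⟨.ofNat 3, .ofNat 0, .ofNat 0⟩
def c5x : L := ⟨.ofNat 46, .ofNat 11, .ofNat 0⟩
def c6x : L := ⟨.negSucc 12, .negSucc 3, .ofNat 0⟩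
def c7x : L := ⟨.ofNat 27, .ofNat 7, .ofNat 0⟩
def c8x : L := ⟨.ofNat 33, .ofNat 9, .ofNat 0⟩
def c9x : L := ⟨.negSucc 4, .negSucc 1, .ofNat 0⟩
def c10x : L := ⟨.ofNat 47, .ofNat 11, .ofNat 0⟩
def c11x : L := ⟨.negSucc 2, .negSucc 1, .ofNat 0⟩
def c12x : L := ⟨.ofNat 35, .ofNat 9, .ofNat 0⟩
def c13x : L := ⟨.ofNat 22, .ofNat 4, .ofNat 1⟩
def c14x : L := ⟨.ofNat 0, .ofNat 0, .ofNat 0⟩
def c15x : L := ⟨.ofNat 5, .ofNat 1, .ofNat 0⟩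
def c16x : L := ⟨.ofNat 11, .ofNat 3, .ofNat 0⟩
def c17x : L := ⟨.negSucc 0, .ofNat 0, .ofNat 0⟩
def c18x : L := ⟨.ofNat 19, .ofNat 5, .ofNat 0⟩
def c19x : L := ⟨.ofNat 7, .ofNat 2, .ofNat 0⟩
def c20x : L := ⟨.ofNat 25, .ofNat 7, .ofNat 0⟩
def c21x : L := ⟨.ofNat 1, .ofNat 0, .ofNat 0⟩
def c22x : L := ⟨.ofNat 9, .ofNat 2, .ofNat 0⟩
def c23x : L := ⟨.ofNat 53, .ofNat 13, .ofNat 0⟩
def c24x : L := ⟨.ofNat 54, .ofNat 13, .ofNat 0⟩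
def c25x : L := ⟨.negSucc 6, .negSucc 1, .ofNat 0⟩
def c26x : L := ⟨.ofNat 99, .ofNat 25, .ofNat 0⟩
def c27x : L := ⟨.ofNat 105, .ofNat 27, .ofNat 0⟩
def c28x : L := ⟨.ofNat 111, .ofNat 27, .ofNat 0⟩
def c29x : L := ⟨.ofNat 117, .ofNat 29, .ofNat 0⟩
def c30x : L := ⟨.ofNat 118, .ofNat 29, .ofNat 0⟩
def c31x : L := ⟨.ofNat 119, .ofNat 29, .ofNat 0⟩
def c32x : L := ⟨.ofNat 125, .ofNat 31, .ofNat 0⟩
def c33x : L := ⟨.ofNat 126, .ofNat 31, .ofNat 0⟩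
def c34x : L := ⟨.ofNat 55, .ofNat 13, .ofNat 0⟩
def c35x : L := ⟨.ofNat 127, .ofNat 31, .ofNat 0⟩
def c36x : L := ⟨.ofNat 61, .ofNat 15, .ofNat 0⟩
def c37x : L := ⟨.ofNat 10, .ofNat 2, .ofNat 0⟩
def c38x : L := ⟨.ofNat 67, .ofNat 17, .ofNat 0⟩
def c39x : L := ⟨.ofNat 72, .ofNat 18, .ofNat 0⟩
def c40x : L := ⟨.ofNat 11, .ofNat 2, .ofNat 0⟩
def c41x : L := ⟨.ofNat 77, .ofNat 19, .ofNat 0⟩
def c42x : L := ⟨.ofNat 83, .ofNat 21, .ofNat 0⟩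
def c43x : L := ⟨.ofNat 44, .ofNat 8, .ofNat 2⟩
def c44x : L := ⟨.ofNat 91, .ofNat 23, .ofNat 0⟩
def c45x : L := ⟨.ofNat 97, .ofNat 25, .ofNat 0⟩
def c46x : L := ⟨.ofNat 107, .ofNat 27, .ofNat 0⟩
def c47x : L := ⟨.ofNat 133, .ofNat 33, .ofNat 0⟩
def c48x : L := ⟨.ofNat 139, .ofNat 35, .ofNat 0⟩
def c49x : L := ⟨.ofNat 144, .ofNat 36, .ofNat 0⟩
def c50x : L := ⟨.ofNat 183, .ofNat 45, .ofNat 0⟩
def c51x : L := ⟨.ofNat 189, .ofNat 47, .ofNat 0⟩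
def c52x : L := ⟨.ofNat 55, .ofNat 10, .ofNat 3⟩
def c53x : L := ⟨.ofNat 155, .ofNat 39, .ofNat 0⟩
def c54x : L := ⟨.ofNat 163, .ofNat 41, .ofNat 0⟩
def c55x : L := ⟨.ofNat 59, .ofNat 10, .ofNat 3⟩
def c56x : L := ⟨.ofNat 169, .ofNat 43, .ofNat 0⟩
def c57x : L := ⟨.ofNat 177, .ofNat 45, .ofNat 0⟩
def c58x : L := ⟨.ofNat 57, .ofNat 10, .ofNat 3⟩
def c59x : L := ⟨.ofNat 199, .ofNat 49, .ofNat 0⟩
def c60x : L := ⟨.ofNat 56, .ofNat 10, .ofNat 3⟩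
def c61x : L := ⟨.ofNat 149, .ofNat 37, .ofNat 0⟩
def c62x : L := ⟨.ofNat 66, .ofNat 12, .ofNat 3⟩
def c63x : L := ⟨.ofNat 67, .ofNat 12, .ofNat 3⟩
def c64x : L := ⟨.ofNat 65, .ofNat 12, .ofNat 3⟩
def c65x : L := ⟨.ofNat 179, .ofNat 45, .ofNat 0⟩
def c66x : L := ⟨.ofNat 71, .ofNat 14, .ofNat 3⟩
def c67x : L := ⟨.ofNat 205, .ofNat 51, .ofNat 0⟩
def c68x : L := ⟨.ofNat 211, .ofNat 53, .ofNat 0⟩
def c69x : L := ⟨.ofNat 216, .ofNat 54, .ofNat 0⟩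
def c70x : L := ⟨.ofNat 78, .ofNat 16, .ofNat 3⟩
def c71x : L := ⟨.ofNat 73, .ofNat 14, .ofNat 3⟩
def c72x : L := ⟨.ofNat 171, .ofNat 43, .ofNat 0⟩
def c73x : L := ⟨.ofNat 63, .ofNat 12, .ofNat 3⟩
def c74x : L := ⟨.ofNat 190, .ofNat 47, .ofNat 0⟩
def c75x : L := ⟨.ofNat 191, .ofNat 47, .ofNat 0⟩
def c76x : L := ⟨.ofNat 69, .ofNat 14, .ofNat 3⟩
def c77x : L := ⟨.ofNat 198, .ofNat 49, .ofNat 0⟩
def c78x : L := ⟨.ofNat 288, .ofNat 72, .ofNat 0⟩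
def c79x : L := ⟨.ofNat 88, .ofNat 16, .ofNat 4⟩
def c80x : L := ⟨.ofNat 315, .ofNat 79, .ofNat 0⟩
def c81x : L := ⟨.ofNat 321, .ofNat 81, .ofNat 0⟩
def c82x : L := ⟨.ofNat 327, .ofNat 81, .ofNat 0⟩
def c83x : L := ⟨.ofNat 333, .ofNat 83, .ofNat 0⟩
def c84x : L := ⟨.ofNat 335, .ofNat 83, .ofNat 0⟩
def c85x : L := ⟨.ofNat 342, .ofNat 85, .ofNat 0⟩
def c86x : L := ⟨.ofNat 343, .ofNat 85, .ofNat 0⟩
def c87x : L := ⟨.ofNat 341, .ofNat 85, .ofNat 0⟩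
def c88x : L := ⟨.ofNat 79, .ofNat 16, .ofNat 3⟩
def c89x : L := ⟨.ofNat 197, .ofNat 49, .ofNat 0⟩
def c90x : L := ⟨.ofNat 293, .ofNat 73, .ofNat 0⟩
def c91x : L := ⟨.ofNat 110, .ofNat 20, .ofNat 5⟩
def c92x : L := ⟨.ofNat 299, .ofNat 75, .ofNat 0⟩
def c93x : L := ⟨.ofNat 307, .ofNat 77, .ofNat 0⟩
def c94x : L := ⟨.ofNat 313, .ofNat 79, .ofNat 0⟩
def c95x : L := ⟨.ofNat 334, .ofNat 83, .ofNat 0⟩
def c96x : L := ⟨.ofNat 349, .ofNat 87, .ofNat 0⟩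
def c97x : L := ⟨.ofNat 355, .ofNat 89, .ofNat 0⟩
def c98x : L := ⟨.ofNat 360, .ofNat 90, .ofNat 0⟩
def c99x : L := ⟨.ofNat 323, .ofNat 81, .ofNat 0⟩
def c100x : L := ⟨.ofNat 405, .ofNat 101, .ofNat 0⟩
def c101x : L := ⟨.ofNat 406, .ofNat 101, .ofNat 0⟩
def c102x : L := ⟨.ofNat 119, .ofNat 20, .ofNat 6⟩
def c103x : L := ⟨.ofNat 365, .ofNat 91, .ofNat 0⟩
def c104x : L := ⟨.ofNat 132, .ofNat 24, .ofNat 6⟩
def c105x : L := ⟨.ofNat 371, .ofNat 93, .ofNat 0⟩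
def c106x : L := ⟨.ofNat 131, .ofNat 24, .ofNat 6⟩
def c107x : L := ⟨.ofNat 387, .ofNat 97, .ofNat 0⟩
def c108x : L := ⟨.ofNat 395, .ofNat 99, .ofNat 0⟩
def c109x : L := ⟨.ofNat 127, .ofNat 22, .ofNat 6⟩
def c110x : L := ⟨.ofNat 120, .ofNat 20, .ofNat 6⟩
def c111x : L := ⟨.ofNat 407, .ofNat 101, .ofNat 0⟩
def c112x : L := ⟨.ofNat 129, .ofNat 22, .ofNat 6⟩
def c113x : L := ⟨.ofNat 413, .ofNat 103, .ofNat 0⟩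
def c114x : L := ⟨.ofNat 421, .ofNat 105, .ofNat 0⟩
def c115x : L := ⟨.ofNat 125, .ofNat 22, .ofNat 6⟩
def c116x : L := ⟨.ofNat 379, .ofNat 95, .ofNat 0⟩
def c117x : L := ⟨.ofNat 139, .ofNat 26, .ofNat 6⟩
def c118x : L := ⟨.ofNat 385, .ofNat 97, .ofNat 0⟩
def c119x : L := ⟨.ofNat 133, .ofNat 24, .ofNat 6⟩
def c120x : L := ⟨.ofNat 141, .ofNat 26, .ofNat 6⟩
def c121x : L := ⟨.ofNat 142, .ofNat 26, .ofNat 6⟩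
def c122x : L := ⟨.ofNat 427, .ofNat 107, .ofNat 0⟩
def c123x : L := ⟨.ofNat 432, .ofNat 108, .ofNat 0⟩
def c124x : L := ⟨.ofNat 504, .ofNat 126, .ofNat 0⟩
def c125x : L := ⟨.ofNat 154, .ofNat 28, .ofNat 7⟩
def c126x : L := ⟨.ofNat 531, .ofNat 133, .ofNat 0⟩
def c127x : L := ⟨.ofNat 537, .ofNat 135, .ofNat 0⟩
def c128x : L := ⟨.ofNat 135, .ofNat 24, .ofNat 6⟩
def c129x : L := ⟨.ofNat 543, .ofNat 135, .ofNat 0⟩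
def c130x : L := ⟨.ofNat 549, .ofNat 137, .ofNat 0⟩
def c131x : L := ⟨.ofNat 550, .ofNat 137, .ofNat 0⟩
def c132x : L := ⟨.ofNat 551, .ofNat 137, .ofNat 0⟩
def c133x : L := ⟨.ofNat 557, .ofNat 139, .ofNat 0⟩
def c134x : L := ⟨.ofNat 558, .ofNat 139, .ofNat 0⟩
def c135x : L := ⟨.ofNat 393, .ofNat 99, .ofNat 0⟩
def c136x : L := ⟨.ofNat 399, .ofNat 99, .ofNat 0⟩
def c137x : L := ⟨.ofNat 143, .ofNat 26, .ofNat 6⟩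
def c138x : L := ⟨.ofNat 414, .ofNat 103, .ofNat 0⟩
def c139x : L := ⟨.ofNat 415, .ofNat 103, .ofNat 0⟩
def c140x : L := ⟨.ofNat 559, .ofNat 139, .ofNat 0⟩
def c141x : L := ⟨.ofNat 539, .ofNat 135, .ofNat 0⟩
def c142x : L := ⟨.ofNat 176, .ofNat 32, .ofNat 8⟩
def c143x : L := ⟨.ofNat 565, .ofNat 141, .ofNat 0⟩
def c144x : L := ⟨.ofNat 509, .ofNat 127, .ofNat 0⟩
def c145x : L := ⟨.ofNat 515, .ofNat 129, .ofNat 0⟩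
def c146x : L := ⟨.ofNat 523, .ofNat 131, .ofNat 0⟩
def c147x : L := ⟨.ofNat 529, .ofNat 133, .ofNat 0⟩
def c148x : L := ⟨.ofNat 571, .ofNat 143, .ofNat 0⟩
def c149x : L := ⟨.ofNat 576, .ofNat 144, .ofNat 0⟩
def c150x : L := ⟨.ofNat 687, .ofNat 171, .ofNat 0⟩
def c151x : L := ⟨.ofNat 693, .ofNat 173, .ofNat 0⟩
def c152x : L := ⟨.ofNat 187, .ofNat 34, .ofNat 9⟩
def c153x : L := ⟨.ofNat 703, .ofNat 175, .ofNat 0⟩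
def c154x : L := ⟨.ofNat 188, .ofNat 34, .ofNat 9⟩
def c155x : L := ⟨.ofNat 659, .ofNat 165, .ofNat 0⟩
def c156x : L := ⟨.ofNat 667, .ofNat 167, .ofNat 0⟩
def c157x : L := ⟨.ofNat 191, .ofNat 34, .ofNat 9⟩
def c158x : L := ⟨.ofNat 673, .ofNat 169, .ofNat 0⟩
def c159x : L := ⟨.ofNat 197, .ofNat 36, .ofNat 9⟩
def c160x : L := ⟨.ofNat 681, .ofNat 171, .ofNat 0⟩
def c161x : L := ⟨.ofNat 189, .ofNat 34, .ofNat 9⟩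
def c162x : L := ⟨.ofNat 195, .ofNat 36, .ofNat 9⟩
def c163x : L := ⟨.ofNat 648, .ofNat 162, .ofNat 0⟩
def c164x : L := ⟨.ofNat 653, .ofNat 163, .ofNat 0⟩
def c165x : L := ⟨.ofNat 198, .ofNat 36, .ofNat 9⟩
def c166x : L := ⟨.ofNat 220, .ofNat 40, .ofNat 10⟩
def c167x : L := ⟨.ofNat 199, .ofNat 36, .ofNat 9⟩
def c168x : L := ⟨.ofNat 242, .ofNat 44, .ofNat 11⟩
def c169x : L := ⟨.ofNat 683, .ofNat 171, .ofNat 0⟩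
def c170x : L := ⟨.ofNat 203, .ofNat 38, .ofNat 9⟩
def c171x : L := ⟨.ofNat 210, .ofNat 40, .ofNat 9⟩
def c172x : L := ⟨.ofNat 709, .ofNat 177, .ofNat 0⟩
def c173x : L := ⟨.ofNat 205, .ofNat 38, .ofNat 9⟩
def c174x : L := ⟨.ofNat 715, .ofNat 179, .ofNat 0⟩
def c175x : L := ⟨.ofNat 720, .ofNat 180, .ofNat 0⟩
def c176x : L := ⟨.ofNat 675, .ofNat 169, .ofNat 0⟩
def c177x : L := ⟨.ofNat 694, .ofNat 173, .ofNat 0⟩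
def c178x : L := ⟨.ofNat 211, .ofNat 40, .ofNat 9⟩
def c179x : L := ⟨.ofNat 695, .ofNat 173, .ofNat 0⟩
def c180x : L := ⟨.ofNat 201, .ofNat 38, .ofNat 9⟩
def c181x : L := ⟨.ofNat 702, .ofNat 175, .ofNat 0⟩
def c182x : L := ⟨.ofNat 701, .ofNat 175, .ofNat 0⟩
def c183x : L := ⟨.ofNat 665, .ofNat 167, .ofNat 0⟩
def c184x : L := ⟨.ofNat 254, .ofNat 46, .ofNat 12⟩
def c185x : L := ⟨.ofNat 253, .ofNat 46, .ofNat 12⟩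
def c186x : L := ⟨.ofNat 264, .ofNat 48, .ofNat 12⟩
def c187x : L := ⟨.ofNat 263, .ofNat 48, .ofNat 12⟩
def c188x : L := ⟨.ofNat 271, .ofNat 50, .ofNat 12⟩
def c189x : L := ⟨.ofNat 255, .ofNat 46, .ofNat 12⟩
def c190x : L := ⟨.ofNat 685, .ofNat 171, .ofNat 0⟩
def c191x : L := ⟨.ofNat 269, .ofNat 50, .ofNat 12⟩
def c192x : L := ⟨.ofNat 276, .ofNat 52, .ofNat 12⟩
def c193x : L := ⟨.ofNat 257, .ofNat 46, .ofNat 12⟩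
def c194x : L := ⟨.ofNat 265, .ofNat 48, .ofNat 12⟩
def c195x : L := ⟨.ofNat 809, .ofNat 203, .ofNat 0⟩
def c196x : L := ⟨.ofNat 810, .ofNat 203, .ofNat 0⟩
def c197x : L := ⟨.ofNat 819, .ofNat 205, .ofNat 0⟩
def c198x : L := ⟨.ofNat 825, .ofNat 207, .ofNat 0⟩
def c199x : L := ⟨.ofNat 261, .ofNat 48, .ofNat 12⟩
def c200x : L := ⟨.ofNat 666, .ofNat 167, .ofNat 0⟩
def c201x : L := ⟨.ofNat 674, .ofNat 169, .ofNat 0⟩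
def c202x : L := ⟨.ofNat 267, .ofNat 50, .ofNat 12⟩
def c203x : L := ⟨.ofNat 792, .ofNat 198, .ofNat 0⟩
def c204x : L := ⟨.ofNat 286, .ofNat 52, .ofNat 13⟩
def c205x : L := ⟨.ofNat 811, .ofNat 203, .ofNat 0⟩
def c206x : L := ⟨.ofNat 277, .ofNat 52, .ofNat 12⟩
def c207x : L := ⟨.ofNat 797, .ofNat 199, .ofNat 0⟩
def c208x : L := ⟨.ofNat 308, .ofNat 56, .ofNat 14⟩
def c209x : L := ⟨.ofNat 803, .ofNat 201, .ofNat 0⟩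
def c210x : L := ⟨.ofNat 817, .ofNat 205, .ofNat 0⟩
def c211x : L := ⟨.ofNat 831, .ofNat 207, .ofNat 0⟩
def c212x : L := ⟨.ofNat 837, .ofNat 209, .ofNat 0⟩
def c213x : L := ⟨.ofNat 839, .ofNat 209, .ofNat 0⟩
def c214x : L := ⟨.ofNat 845, .ofNat 211, .ofNat 0⟩
def c215x : L := ⟨.ofNat 853, .ofNat 213, .ofNat 0⟩
def c216x : L := ⟨.ofNat 818, .ofNat 205, .ofNat 0⟩
def c217x : L := ⟨.ofNat 829, .ofNat 207, .ofNat 0⟩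
def c218x : L := ⟨.ofNat 859, .ofNat 215, .ofNat 0⟩
def c219x : L := ⟨.ofNat 864, .ofNat 216, .ofNat 0⟩
def c220x : L := ⟨.ofNat 875, .ofNat 219, .ofNat 0⟩
def c221x : L := ⟨.ofNat 883, .ofNat 221, .ofNat 0⟩
def c222x : L := ⟨.ofNat 323, .ofNat 58, .ofNat 15⟩
def c223x : L := ⟨.ofNat 889, .ofNat 223, .ofNat 0⟩
def c224x : L := ⟨.ofNat 890, .ofNat 223, .ofNat 0⟩
def c225x : L := ⟨.ofNat 327, .ofNat 58, .ofNat 15⟩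
def c226x : L := ⟨.ofNat 891, .ofNat 223, .ofNat 0⟩
def c227x : L := ⟨.ofNat 317, .ofNat 56, .ofNat 15⟩
def c228x : L := ⟨.ofNat 901, .ofNat 225, .ofNat 0⟩
def c229x : L := ⟨.ofNat 318, .ofNat 56, .ofNat 15⟩
def c230x : L := ⟨.ofNat 909, .ofNat 227, .ofNat 0⟩
def c231x : L := ⟨.ofNat 325, .ofNat 58, .ofNat 15⟩
def c232x : L := ⟨.ofNat 869, .ofNat 217, .ofNat 0⟩
def c233x : L := ⟨.ofNat 330, .ofNat 60, .ofNat 15⟩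
def c234x : L := ⟨.ofNat 331, .ofNat 60, .ofNat 15⟩
def c235x : L := ⟨.ofNat 340, .ofNat 62, .ofNat 15⟩
def c236x : L := ⟨.ofNat 882, .ofNat 221, .ofNat 0⟩
def c237x : L := ⟨.ofNat 329, .ofNat 60, .ofNat 15⟩
def c238x : L := ⟨.ofNat 333, .ofNat 60, .ofNat 15⟩
def c239x : L := ⟨.ofNat 903, .ofNat 225, .ofNat 0⟩
def c240x : L := ⟨.ofNat 339, .ofNat 62, .ofNat 15⟩
def c241x : L := ⟨.ofNat 911, .ofNat 227, .ofNat 0⟩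
def c242x : L := ⟨.ofNat 917, .ofNat 229, .ofNat 0⟩
def c243x : L := ⟨.ofNat 925, .ofNat 231, .ofNat 0⟩
def c244x : L := ⟨.ofNat 931, .ofNat 233, .ofNat 0⟩
def c245x : L := ⟨.ofNat 936, .ofNat 234, .ofNat 0⟩
def c246x : L := ⟨.ofNat 337, .ofNat 62, .ofNat 15⟩
def c247x : L := ⟨.ofNat 1034, .ofNat 259, .ofNat 0⟩
def c248x : L := ⟨.ofNat 1035, .ofNat 259, .ofNat 0⟩
def c249x : L := ⟨.ofNat 1008, .ofNat 252, .ofNat 0⟩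
def c250x : L := ⟨.ofNat 352, .ofNat 64, .ofNat 16⟩
def c251x : L := ⟨.ofNat 1026, .ofNat 257, .ofNat 0⟩
def c252x : L := ⟨.ofNat 1027, .ofNat 257, .ofNat 0⟩
def c253x : L := ⟨.ofNat 1025, .ofNat 257, .ofNat 0⟩
def c254x : L := ⟨.ofNat 1033, .ofNat 259, .ofNat 0⟩
def c255x : L := ⟨.ofNat 1041, .ofNat 261, .ofNat 0⟩
def c256x : L := ⟨.ofNat 1047, .ofNat 261, .ofNat 0⟩
def c257x : L := ⟨.ofNat 1053, .ofNat 263, .ofNat 0⟩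
def c258x : L := ⟨.ofNat 881, .ofNat 221, .ofNat 0⟩
def c259x : L := ⟨.ofNat 897, .ofNat 225, .ofNat 0⟩
def c260x : L := ⟨.ofNat 341, .ofNat 62, .ofNat 15⟩
def c261x : L := ⟨.ofNat 1013, .ofNat 253, .ofNat 0⟩
def c262x : L := ⟨.ofNat 374, .ofNat 68, .ofNat 17⟩
def c263x : L := ⟨.ofNat 1019, .ofNat 255, .ofNat 0⟩
def c264x : L := ⟨.ofNat 1045, .ofNat 261, .ofNat 0⟩
def c265x : L := ⟨.ofNat 1055, .ofNat 263, .ofNat 0⟩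
def c266x : L := ⟨.ofNat 1061, .ofNat 265, .ofNat 0⟩
def c267x : L := ⟨.ofNat 1069, .ofNat 267, .ofNat 0⟩
def c268x : L := ⟨.ofNat 1075, .ofNat 269, .ofNat 0⟩
def c269x : L := ⟨.ofNat 1080, .ofNat 270, .ofNat 0⟩
def c270x : L := ⟨.ofNat 1097, .ofNat 275, .ofNat 0⟩
def c271x : L := ⟨.ofNat 1107, .ofNat 277, .ofNat 0⟩
def c272x : L := ⟨.ofNat 386, .ofNat 70, .ofNat 18⟩
def c273x : L := ⟨.ofNat 1113, .ofNat 279, .ofNat 0⟩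
def c274x : L := ⟨.ofNat 385, .ofNat 70, .ofNat 18⟩
def c275x : L := ⟨.ofNat 1119, .ofNat 279, .ofNat 0⟩
def c276x : L := ⟨.ofNat 1127, .ofNat 281, .ofNat 0⟩
def c277x : L := ⟨.ofNat 387, .ofNat 70, .ofNat 18⟩
def c278x : L := ⟨.ofNat 1085, .ofNat 271, .ofNat 0⟩
def c279x : L := ⟨.ofNat 396, .ofNat 72, .ofNat 18⟩
def c280x : L := ⟨.ofNat 1091, .ofNat 273, .ofNat 0⟩
def c281x : L := ⟨.ofNat 395, .ofNat 72, .ofNat 18⟩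
def c282x : L := ⟨.ofNat 1133, .ofNat 283, .ofNat 0⟩
def c283x : L := ⟨.ofNat 1141, .ofNat 285, .ofNat 0⟩
def c284x : L := ⟨.ofNat 389, .ofNat 70, .ofNat 18⟩
def c285x : L := ⟨.ofNat 1147, .ofNat 287, .ofNat 0⟩
def c286x : L := ⟨.ofNat 397, .ofNat 72, .ofNat 18⟩
def c287x : L := ⟨.ofNat 1152, .ofNat 288, .ofNat 0⟩
def c288x : L := ⟨.ofNat 403, .ofNat 74, .ofNat 18⟩
def c289x : L := ⟨.ofNat 1117, .ofNat 279, .ofNat 0⟩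
def c290x : L := ⟨.ofNat 401, .ofNat 74, .ofNat 18⟩
def c291x : L := ⟨.ofNat 408, .ofNat 76, .ofNat 18⟩
def c292x : L := ⟨.ofNat 1098, .ofNat 275, .ofNat 0⟩
def c293x : L := ⟨.ofNat 1105, .ofNat 277, .ofNat 0⟩
def c294x : L := ⟨.ofNat 1106, .ofNat 277, .ofNat 0⟩
def c295x : L := ⟨.ofNat 393, .ofNat 72, .ofNat 18⟩
def c296x : L := ⟨.ofNat 399, .ofNat 74, .ofNat 18⟩
def c297x : L := ⟨.ofNat 1224, .ofNat 306, .ofNat 0⟩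
def c298x : L := ⟨.ofNat 418, .ofNat 76, .ofNat 19⟩
def c299x : L := ⟨.ofNat 1241, .ofNat 311, .ofNat 0⟩
def c300x : L := ⟨.ofNat 1242, .ofNat 311, .ofNat 0⟩
def c301x : L := ⟨.ofNat 1243, .ofNat 311, .ofNat 0⟩
def c302x : L := ⟨.ofNat 1249, .ofNat 313, .ofNat 0⟩
def c303x : L := ⟨.ofNat 1251, .ofNat 313, .ofNat 0⟩
def c304x : L := ⟨.ofNat 1257, .ofNat 315, .ofNat 0⟩
def c305x : L := ⟨.ofNat 1263, .ofNat 315, .ofNat 0⟩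
def c306x : L := ⟨.ofNat 1269, .ofNat 317, .ofNat 0⟩
def c307x : L := ⟨.ofNat 1099, .ofNat 275, .ofNat 0⟩
def c308x : L := ⟨.ofNat 1125, .ofNat 281, .ofNat 0⟩
def c309x : L := ⟨.ofNat 409, .ofNat 76, .ofNat 18⟩
def c310x : L := ⟨.ofNat 1229, .ofNat 307, .ofNat 0⟩
def c311x : L := ⟨.ofNat 440, .ofNat 80, .ofNat 20⟩
def c312x : L := ⟨.ofNat 1235, .ofNat 309, .ofNat 0⟩
def c313x : L := ⟨.ofNat 1271, .ofNat 317, .ofNat 0⟩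
def c314x : L := ⟨.ofNat 1277, .ofNat 319, .ofNat 0⟩
def c315x : L := ⟨.ofNat 1285, .ofNat 321, .ofNat 0⟩
def c316x : L := ⟨.ofNat 1291, .ofNat 323, .ofNat 0⟩
def c317x : L := ⟨.ofNat 1296, .ofNat 324, .ofNat 0⟩
def c318x : L := ⟨.ofNat 1250, .ofNat 313, .ofNat 0⟩
def c319x : L := ⟨.ofNat 1261, .ofNat 315, .ofNat 0⟩
def c320x : L := ⟨.ofNat 1307, .ofNat 327, .ofNat 0⟩
def c321x : L := ⟨.ofNat 1315, .ofNat 329, .ofNat 0⟩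
def c322x : L := ⟨.ofNat 455, .ofNat 82, .ofNat 21⟩
def c323x : L := ⟨.ofNat 1321, .ofNat 331, .ofNat 0⟩
def c324x : L := ⟨.ofNat 461, .ofNat 84, .ofNat 21⟩
def c325x : L := ⟨.ofNat 1329, .ofNat 333, .ofNat 0⟩
def c326x : L := ⟨.ofNat 453, .ofNat 82, .ofNat 21⟩
def c327x : L := ⟨.ofNat 1335, .ofNat 333, .ofNat 0⟩
def c328x : L := ⟨.ofNat 1341, .ofNat 335, .ofNat 0⟩
def c329x : L := ⟨.ofNat 451, .ofNat 82, .ofNat 21⟩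
def c330x : L := ⟨.ofNat 1351, .ofNat 337, .ofNat 0⟩
def c331x : L := ⟨.ofNat 452, .ofNat 82, .ofNat 21⟩
def c332x : L := ⟨.ofNat 1357, .ofNat 339, .ofNat 0⟩
def c333x : L := ⟨.ofNat 1363, .ofNat 341, .ofNat 0⟩
def c334x : L := ⟨.ofNat 1301, .ofNat 325, .ofNat 0⟩
def c335x : L := ⟨.ofNat 462, .ofNat 84, .ofNat 21⟩
def c336x : L := ⟨.ofNat 463, .ofNat 84, .ofNat 21⟩
def c337x : L := ⟨.ofNat 1331, .ofNat 333, .ofNat 0⟩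
def c338x : L := ⟨.ofNat 467, .ofNat 86, .ofNat 21⟩
def c339x : L := ⟨.ofNat 469, .ofNat 86, .ofNat 21⟩
def c340x : L := ⟨.ofNat 474, .ofNat 88, .ofNat 21⟩
def c341x : L := ⟨.ofNat 1350, .ofNat 337, .ofNat 0⟩
def c342x : L := ⟨.ofNat 1368, .ofNat 342, .ofNat 0⟩
def c343x : L := ⟨.ofNat 1479, .ofNat 369, .ofNat 0⟩
def c344x : L := ⟨.ofNat 1485, .ofNat 371, .ofNat 0⟩
def c345x : L := ⟨.ofNat 459, .ofNat 84, .ofNat 21⟩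
def c346x : L := ⟨.ofNat 1494, .ofNat 373, .ofNat 0⟩
def c347x : L := ⟨.ofNat 1495, .ofNat 373, .ofNat 0⟩
def c348x : L := ⟨.ofNat 1467, .ofNat 367, .ofNat 0⟩
def c349x : L := ⟨.ofNat 1473, .ofNat 369, .ofNat 0⟩
def c350x : L := ⟨.ofNat 1487, .ofNat 371, .ofNat 0⟩
def c351x : L := ⟨.ofNat 1493, .ofNat 373, .ofNat 0⟩
def c352x : L := ⟨.ofNat 1323, .ofNat 331, .ofNat 0⟩
def c353x : L := ⟨.ofNat 1342, .ofNat 335, .ofNat 0⟩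
def c354x : L := ⟨.ofNat 475, .ofNat 88, .ofNat 21⟩
def c355x : L := ⟨.ofNat 1343, .ofNat 335, .ofNat 0⟩
def c356x : L := ⟨.ofNat 465, .ofNat 86, .ofNat 21⟩
def c357x : L := ⟨.ofNat 1349, .ofNat 337, .ofNat 0⟩
def c358x : L := ⟨.ofNat 1440, .ofNat 360, .ofNat 0⟩
def c359x : L := ⟨.ofNat 484, .ofNat 88, .ofNat 22⟩
def c360x : L := ⟨.ofNat 1465, .ofNat 367, .ofNat 0⟩
def c361x : L := ⟨.ofNat 506, .ofNat 92, .ofNat 23⟩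
def c362x : L := ⟨.ofNat 1451, .ofNat 363, .ofNat 0⟩
def c363x : L := ⟨.ofNat 1459, .ofNat 365, .ofNat 0⟩
def c364x : L := ⟨.ofNat 1501, .ofNat 375, .ofNat 0⟩
def c365x : L := ⟨.ofNat 1507, .ofNat 377, .ofNat 0⟩
def c366x : L := ⟨.ofNat 1445, .ofNat 361, .ofNat 0⟩
def c367x : L := ⟨.ofNat 1475, .ofNat 369, .ofNat 0⟩
def c368x : L := ⟨.ofNat 1486, .ofNat 371, .ofNat 0⟩
def c369x : L := ⟨.ofNat 1512, .ofNat 378, .ofNat 0⟩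
def c370x : L := ⟨.ofNat 1557, .ofNat 389, .ofNat 0⟩
def c371x : L := ⟨.ofNat 1558, .ofNat 389, .ofNat 0⟩
def c372x : L := ⟨.ofNat 515, .ofNat 92, .ofNat 24⟩
def c373x : L := ⟨.ofNat 1539, .ofNat 385, .ofNat 0⟩
def c374x : L := ⟨.ofNat 1547, .ofNat 387, .ofNat 0⟩
def c375x : L := ⟨.ofNat 523, .ofNat 94, .ofNat 24⟩
def c376x : L := ⟨.ofNat 516, .ofNat 92, .ofNat 24⟩
def c377x : L := ⟨.ofNat 1565, .ofNat 391, .ofNat 0⟩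
def c378x : L := ⟨.ofNat 1573, .ofNat 393, .ofNat 0⟩
def c379x : L := ⟨.ofNat 521, .ofNat 94, .ofNat 24⟩
def c380x : L := ⟨.ofNat 1517, .ofNat 379, .ofNat 0⟩
def c381x : L := ⟨.ofNat 528, .ofNat 96, .ofNat 24⟩
def c382x : L := ⟨.ofNat 1523, .ofNat 381, .ofNat 0⟩
def c383x : L := ⟨.ofNat 527, .ofNat 96, .ofNat 24⟩
def c384x : L := ⟨.ofNat 1531, .ofNat 383, .ofNat 0⟩
def c385x : L := ⟨.ofNat 535, .ofNat 98, .ofNat 24⟩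
def c386x : L := ⟨.ofNat 1537, .ofNat 385, .ofNat 0⟩
def c387x : L := ⟨.ofNat 529, .ofNat 96, .ofNat 24⟩
def c388x : L := ⟨.ofNat 537, .ofNat 98, .ofNat 24⟩
def c389x : L := ⟨.ofNat 1559, .ofNat 389, .ofNat 0⟩
def c390x : L := ⟨.ofNat 525, .ofNat 94, .ofNat 24⟩
def c391x : L := ⟨.ofNat 1579, .ofNat 395, .ofNat 0⟩
def c392x : L := ⟨.ofNat 1584, .ofNat 396, .ofNat 0⟩
def c393x : L := ⟨.ofNat 538, .ofNat 98, .ofNat 24⟩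
def c394x : L := ⟨.ofNat 1695, .ofNat 423, .ofNat 0⟩
def c395x : L := ⟨.ofNat 1701, .ofNat 425, .ofNat 0⟩
def c396x : L := ⟨.ofNat 531, .ofNat 96, .ofNat 24⟩
def c397x : L := ⟨.ofNat 1702, .ofNat 425, .ofNat 0⟩
def c398x : L := ⟨.ofNat 1545, .ofNat 387, .ofNat 0⟩
def c399x : L := ⟨.ofNat 1551, .ofNat 387, .ofNat 0⟩
def c400x : L := ⟨.ofNat 539, .ofNat 98, .ofNat 24⟩
def c401x : L := ⟨.ofNat 1566, .ofNat 391, .ofNat 0⟩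
def c402x : L := ⟨.ofNat 1567, .ofNat 391, .ofNat 0⟩
def c403x : L := ⟨.ofNat 1656, .ofNat 414, .ofNat 0⟩
def c404x : L := ⟨.ofNat 550, .ofNat 100, .ofNat 25⟩
def c405x : L := ⟨.ofNat 1683, .ofNat 421, .ofNat 0⟩
def c406x : L := ⟨.ofNat 1689, .ofNat 423, .ofNat 0⟩
def c407x : L := ⟨.ofNat 1703, .ofNat 425, .ofNat 0⟩
def c408x : L := ⟨.ofNat 1709, .ofNat 427, .ofNat 0⟩
def c409x : L := ⟨.ofNat 1710, .ofNat 427, .ofNat 0⟩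
def c410x : L := ⟨.ofNat 1711, .ofNat 427, .ofNat 0⟩
def c411x : L := ⟨.ofNat 1691, .ofNat 423, .ofNat 0⟩
def c412x : L := ⟨.ofNat 572, .ofNat 104, .ofNat 26⟩
def c413x : L := ⟨.ofNat 1717, .ofNat 429, .ofNat 0⟩
def c414x : L := ⟨.ofNat 1661, .ofNat 415, .ofNat 0⟩
def c415x : L := ⟨.ofNat 1667, .ofNat 417, .ofNat 0⟩
def c416x : L := ⟨.ofNat 1675, .ofNat 419, .ofNat 0⟩
def c417x : L := ⟨.ofNat 1681, .ofNat 421, .ofNat 0⟩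
def c418x : L := ⟨.ofNat 1723, .ofNat 431, .ofNat 0⟩
def c419x : L := ⟨.ofNat 1728, .ofNat 432, .ofNat 0⟩
def c420x : L := ⟨.ofNat 1767, .ofNat 441, .ofNat 0⟩
def c421x : L := ⟨.ofNat 1773, .ofNat 443, .ofNat 0⟩
def c422x : L := ⟨.ofNat 583, .ofNat 106, .ofNat 27⟩
def c423x : L := ⟨.ofNat 1733, .ofNat 433, .ofNat 0⟩
def c424x : L := ⟨.ofNat 594, .ofNat 108, .ofNat 27⟩
def c425x : L := ⟨.ofNat 1739, .ofNat 435, .ofNat 0⟩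
def c426x : L := ⟨.ofNat 595, .ofNat 108, .ofNat 27⟩
def c427x : L := ⟨.ofNat 1747, .ofNat 437, .ofNat 0⟩
def c428x : L := ⟨.ofNat 587, .ofNat 106, .ofNat 27⟩
def c429x : L := ⟨.ofNat 1753, .ofNat 439, .ofNat 0⟩
def c430x : L := ⟨.ofNat 593, .ofNat 108, .ofNat 27⟩
def c431x : L := ⟨.ofNat 1761, .ofNat 441, .ofNat 0⟩
def c432x : L := ⟨.ofNat 585, .ofNat 106, .ofNat 27⟩
def c433x : L := ⟨.ofNat 1763, .ofNat 441, .ofNat 0⟩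
def c434x : L := ⟨.ofNat 599, .ofNat 110, .ofNat 27⟩
def c435x : L := ⟨.ofNat 1783, .ofNat 445, .ofNat 0⟩
def c436x : L := ⟨.ofNat 584, .ofNat 106, .ofNat 27⟩
def c437x : L := ⟨.ofNat 1789, .ofNat 447, .ofNat 0⟩
def c438x : L := ⟨.ofNat 1795, .ofNat 449, .ofNat 0⟩
def c439x : L := ⟨.ofNat 1800, .ofNat 450, .ofNat 0⟩
def c440x : L := ⟨.ofNat 606, .ofNat 112, .ofNat 27⟩
def c441x : L := ⟨.ofNat 601, .ofNat 110, .ofNat 27⟩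
def c442x : L := ⟨.ofNat 1839, .ofNat 459, .ofNat 0⟩
def c443x : L := ⟨.ofNat 1845, .ofNat 461, .ofNat 0⟩
def c444x : L := ⟨.ofNat 1805, .ofNat 451, .ofNat 0⟩
def c445x : L := ⟨.ofNat 1811, .ofNat 453, .ofNat 0⟩
def c446x : L := ⟨.ofNat 1819, .ofNat 455, .ofNat 0⟩
def c447x : L := ⟨.ofNat 1825, .ofNat 457, .ofNat 0⟩
def c448x : L := ⟨.ofNat 1833, .ofNat 459, .ofNat 0⟩
def c449x : L := ⟨.ofNat 1755, .ofNat 439, .ofNat 0⟩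
def c450x : L := ⟨.ofNat 591, .ofNat 108, .ofNat 27⟩
def c451x : L := ⟨.ofNat 1774, .ofNat 443, .ofNat 0⟩
def c452x : L := ⟨.ofNat 607, .ofNat 112, .ofNat 27⟩
def c453x : L := ⟨.ofNat 1775, .ofNat 443, .ofNat 0⟩
def c454x : L := ⟨.ofNat 597, .ofNat 110, .ofNat 27⟩
def c455x : L := ⟨.ofNat 1782, .ofNat 445, .ofNat 0⟩
def c456x : L := ⟨.ofNat 1781, .ofNat 445, .ofNat 0⟩
def c457x : L := ⟨.ofNat 1835, .ofNat 459, .ofNat 0⟩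
def c458x : L := ⟨.ofNat 1855, .ofNat 463, .ofNat 0⟩
def c459x : L := ⟨.ofNat 1861, .ofNat 465, .ofNat 0⟩
def c460x : L := ⟨.ofNat 1867, .ofNat 467, .ofNat 0⟩
def c461x : L := ⟨.ofNat 1872, .ofNat 468, .ofNat 0⟩
def c462x : L := ⟨.ofNat 1827, .ofNat 457, .ofNat 0⟩
def c463x : L := ⟨.ofNat 1846, .ofNat 461, .ofNat 0⟩
def c464x : L := ⟨.ofNat 1847, .ofNat 461, .ofNat 0⟩
def c465x : L := ⟨.ofNat 1854, .ofNat 463, .ofNat 0⟩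
def c466x : L := ⟨.ofNat 1853, .ofNat 463, .ofNat 0⟩
def c467x : L := ⟨.negSucc 32, .negSucc 8, .ofNat 0⟩
def c468x : L := ⟨.ofNat 6, .ofNat 0, .ofNat 0⟩
def c469x : L := ⟨.negSucc 38, .negSucc 8, .ofNat 0⟩
def c470x : L := ⟨.negSucc 2, .ofNat 0, .ofNat 0⟩
def c471x : L := ⟨.ofNat 63, .ofNat 18, .ofNat 0⟩
def c472x : L := ⟨.negSucc 110, .negSucc 26, .ofNat 0⟩
def c473x : L := ⟨.ofNat 66, .ofNat 18, .ofNat 0⟩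
def c474x : L := ⟨.negSucc 182, .negSucc 44, .ofNat 0⟩
def c475x : L := ⟨.negSucc 176, .negSucc 44, .ofNat 0⟩
def c476x : L := ⟨.ofNat 249, .ofNat 63, .ofNat 0⟩
def c477x : L := ⟨.ofNat 255, .ofNat 63, .ofNat 0⟩
def c478x : L := ⟨.negSucc 326, .negSucc 80, .ofNat 0⟩
def c479x : L := ⟨.negSucc 320, .negSucc 80, .ofNat 0⟩
def c480x : L := ⟨.ofNat 465, .ofNat 117, .ofNat 0⟩
def c481x : L := ⟨.ofNat 471, .ofNat 117, .ofNat 0⟩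
def c482x : L := ⟨.negSucc 464, .negSucc 116, .ofNat 0⟩
def c483x : L := ⟨.negSucc 470, .negSucc 116, .ofNat 0⟩
def c484x : L := ⟨.ofNat 609, .ofNat 153, .ofNat 0⟩
def c485x : L := ⟨.ofNat 753, .ofNat 189, .ofNat 0⟩
def c486x : L := ⟨.negSucc 614, .negSucc 152, .ofNat 0⟩
def c487x : L := ⟨.ofNat 615, .ofNat 153, .ofNat 0⟩
def c488x : L := ⟨.negSucc 608, .negSucc 152, .ofNat 0⟩
def c489x : L := ⟨.negSucc 758, .negSucc 188, .ofNat 0⟩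
def c490x : L := ⟨.ofNat 759, .ofNat 189, .ofNat 0⟩
def c491x : L := ⟨.negSucc 752, .negSucc 188, .ofNat 0⟩
def c492x : L := ⟨.negSucc 896, .negSucc 224, .ofNat 0⟩
def c493x : L := ⟨.negSucc 902, .negSucc 224, .ofNat 0⟩
def c494x : L := ⟨.ofNat 969, .ofNat 243, .ofNat 0⟩
def c495x : L := ⟨.ofNat 975, .ofNat 243, .ofNat 0⟩
def c496x : L := ⟨.negSucc 1046, .negSucc 260, .ofNat 0⟩
def c497x : L := ⟨.negSucc 1040, .negSucc 260, .ofNat 0⟩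
def c498x : L := ⟨.ofNat 1185, .ofNat 297, .ofNat 0⟩
def c499x : L := ⟨.negSucc 1190, .negSucc 296, .ofNat 0⟩
def c500x : L := ⟨.ofNat 1191, .ofNat 297, .ofNat 0⟩
def c501x : L := ⟨.negSucc 1184, .negSucc 296, .ofNat 0⟩
def c502x : L := ⟨.negSucc 1334, .negSucc 332, .ofNat 0⟩
def c503x : L := ⟨.negSucc 1328, .negSucc 332, .ofNat 0⟩
def c504x : L := ⟨.negSucc 1478, .negSucc 368, .ofNat 0⟩
def c505x : L := ⟨.ofNat 1401, .ofNat 351, .ofNat 0⟩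
def c506x : L := ⟨.ofNat 1407, .ofNat 351, .ofNat 0⟩
def c507x : L := ⟨.negSucc 1472, .negSucc 368, .ofNat 0⟩
def c508x : L := ⟨.ofNat 1617, .ofNat 405, .ofNat 0⟩
def c509x : L := ⟨.ofNat 1623, .ofNat 405, .ofNat 0⟩
def c510x : L := ⟨.negSucc 1616, .negSucc 404, .ofNat 0⟩
def c511x : L := ⟨.negSucc 1622, .negSucc 404, .ofNat 0⟩
def c512x : L := ⟨.negSucc 1766, .negSucc 440, .ofNat 0⟩
def c513x : L := ⟨.negSucc 1760, .negSucc 440, .ofNat 0⟩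
def c514x : L := ⟨.ofNat 1905, .ofNat 477, .ofNat 0⟩
def c515x : L := ⟨.negSucc 590, .negSucc 107, .negSucc 26⟩
def c516x : L := ⟨.ofNat 588, .ofNat 108, .ofNat 27⟩
def c517x : L := ⟨.ofNat 597, .ofNat 108, .ofNat 27⟩
def c518x : L := ⟨.negSucc 1172, .negSucc 332, .ofNat 27⟩
def c519x : L := ⟨.ofNat 2355, .ofNat 549, .ofNat 27⟩
def c520x : L := ⟨.ofNat 1185, .ofNat 216, .ofNat 54⟩
def c521x : L := ⟨.ofNat 657, .ofNat 126, .ofNat 27⟩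
def c522x : L := ⟨.negSucc 1244, .negSucc 350, .ofNat 27⟩
def c523x : L := ⟨.ofNat 2427, .ofNat 567, .ofNat 27⟩
def c524x : L := ⟨.ofNat 44, .ofNat 12, .ofNat 0⟩
def c525x : L := ⟨.ofNat 283, .ofNat 52, .ofNat 13⟩
def c526x : L := ⟨.ofNat 19, .ofNat 4, .ofNat 1⟩
def c527x : L := ⟨.ofNat 14, .ofNat 4, .ofNat 0⟩
def c528x : L := ⟨.ofNat 8, .ofNat 2, .ofNat 0⟩
def c529x : L := ⟨.ofNat 6, .ofNat 2, .ofNat 0⟩
def c530x : L := ⟨.ofNat 22, .ofNat 6, .ofNat 0⟩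
def c531x : L := ⟨.ofNat 4, .ofNat 2, .ofNat 0⟩
def c532x : L := ⟨.ofNat 15, .ofNat 4, .ofNat 0⟩
def c533x : L := ⟨.ofNat 16, .ofNat 4, .ofNat 0⟩
def c534x : L := ⟨.ofNat 28, .ofNat 8, .ofNat 0⟩
def c535x : L := ⟨.ofNat 107, .ofNat 20, .ofNat 5⟩
def c536x : L := ⟨.ofNat 54, .ofNat 10, .ofNat 3⟩
def c537x : L := ⟨.ofNat 60, .ofNat 12, .ofNat 3⟩
def c538x : L := ⟨.ofNat 68, .ofNat 14, .ofNat 3⟩
def c539x : L := ⟨.ofNat 62, .ofNat 12, .ofNat 3⟩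
def c540x : L := ⟨.ofNat 64, .ofNat 12, .ofNat 3⟩
def c541x : L := ⟨.ofNat 151, .ofNat 28, .ofNat 7⟩
def c542x : L := ⟨.ofNat 239, .ofNat 44, .ofNat 11⟩
def c543x : L := ⟨.ofNat 173, .ofNat 32, .ofNat 8⟩
def c544x : L := ⟨.ofNat 85, .ofNat 16, .ofNat 4⟩
def c545x : L := ⟨.ofNat 41, .ofNat 8, .ofNat 2⟩
def c546x : L := ⟨.ofNat 38, .ofNat 10, .ofNat 0⟩
def c547x : L := ⟨.ofNat 129, .ofNat 24, .ofNat 6⟩
def c548x : L := ⟨.ofNat 130, .ofNat 24, .ofNat 6⟩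
def c549x : L := ⟨.ofNat 217, .ofNat 40, .ofNat 10⟩
def c550x : L := ⟨.ofNat 194, .ofNat 36, .ofNat 9⟩
def c551x : L := ⟨.ofNat 262, .ofNat 48, .ofNat 12⟩
def c552x : L := ⟨.ofNat 415, .ofNat 76, .ofNat 19⟩
def c553x : L := ⟨.ofNat 315, .ofNat 56, .ofNat 15⟩
def c554x : L := ⟨.ofNat 314, .ofNat 56, .ofNat 15⟩
def c555x : L := ⟨.ofNat 324, .ofNat 58, .ofNat 15⟩
def c556x : L := ⟨.ofNat 371, .ofNat 68, .ofNat 17⟩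
def c557x : L := ⟨.ofNat 338, .ofNat 62, .ofNat 15⟩
def c558x : L := ⟨.ofNat 320, .ofNat 58, .ofNat 15⟩
def c559x : L := ⟨.ofNat 326, .ofNat 60, .ofNat 15⟩
def c560x : L := ⟨.ofNat 336, .ofNat 62, .ofNat 15⟩
def c561x : L := ⟨.ofNat 328, .ofNat 60, .ofNat 15⟩
def c562x : L := ⟨.ofNat 327, .ofNat 60, .ofNat 15⟩
def c563x : L := ⟨.ofNat 349, .ofNat 64, .ofNat 16⟩
def c564x : L := ⟨.ofNat 305, .ofNat 56, .ofNat 14⟩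
def c565x : L := ⟨.ofNat 394, .ofNat 72, .ofNat 18⟩
def c566x : L := ⟨.ofNat 503, .ofNat 92, .ofNat 23⟩
def c567x : L := ⟨.ofNat 450, .ofNat 82, .ofNat 21⟩
def c568x : L := ⟨.ofNat 456, .ofNat 84, .ofNat 21⟩
def c569x : L := ⟨.ofNat 464, .ofNat 86, .ofNat 21⟩
def c570x : L := ⟨.ofNat 458, .ofNat 84, .ofNat 21⟩
def c571x : L := ⟨.ofNat 547, .ofNat 100, .ofNat 25⟩
def c572x : L := ⟨.ofNat 582, .ofNat 106, .ofNat 27⟩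
def c573x : L := ⟨.ofNat 460, .ofNat 84, .ofNat 21⟩
def c574x : L := ⟨.ofNat 481, .ofNat 88, .ofNat 22⟩
def c575x : L := ⟨.ofNat 437, .ofNat 80, .ofNat 20⟩
def c576x : L := ⟨.ofNat 525, .ofNat 96, .ofNat 24⟩
def c577x : L := ⟨.ofNat 569, .ofNat 104, .ofNat 26⟩
def c578x : L := ⟨.ofNat 526, .ofNat 96, .ofNat 24⟩
def c579x : L := ⟨.ofNat 50, .ofNat 14, .ofNat 0⟩
def c580x : L := ⟨.ofNat 51, .ofNat 14, .ofNat 0⟩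
def c581x : L := ⟨.ofNat 60, .ofNat 16, .ofNat 0⟩
def c582x : L := ⟨.ofNat 58, .ofNat 16, .ofNat 0⟩
def c583x : L := ⟨.ofNat 52, .ofNat 14, .ofNat 0⟩
def c584x : L := ⟨.ofNat 122, .ofNat 22, .ofNat 6⟩
def c585x : L := ⟨.ofNat 138, .ofNat 26, .ofNat 6⟩
def c586x : L := ⟨.ofNat 128, .ofNat 24, .ofNat 6⟩
def c587x : L := ⟨.ofNat 59, .ofNat 16, .ofNat 0⟩
def c588x : L := ⟨.ofNat 126, .ofNat 22, .ofNat 6⟩
def c589x : L := ⟨.ofNat 116, .ofNat 20, .ofNat 6⟩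
def c590x : L := ⟨.ofNat 117, .ofNat 20, .ofNat 6⟩
def c591x : L := ⟨.ofNat 140, .ofNat 26, .ofNat 6⟩
def c592x : L := ⟨.ofNat 202, .ofNat 38, .ofNat 9⟩
def c593x : L := ⟨.ofNat 185, .ofNat 34, .ofNat 9⟩
def c594x : L := ⟨.ofNat 186, .ofNat 34, .ofNat 9⟩
def c595x : L := ⟨.ofNat 196, .ofNat 36, .ofNat 9⟩
def c596x : L := ⟨.ofNat 192, .ofNat 36, .ofNat 9⟩
def c597x : L := ⟨.ofNat 198, .ofNat 38, .ofNat 9⟩
def c598x : L := ⟨.ofNat 208, .ofNat 40, .ofNat 9⟩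
def c599x : L := ⟨.ofNat 184, .ofNat 34, .ofNat 9⟩
def c600x : L := ⟨.ofNat 207, .ofNat 40, .ofNat 9⟩
def c601x : L := ⟨.ofNat 260, .ofNat 48, .ofNat 12⟩
def c602x : L := ⟨.ofNat 252, .ofNat 46, .ofNat 12⟩
def c603x : L := ⟨.ofNat 258, .ofNat 48, .ofNat 12⟩
def c604x : L := ⟨.ofNat 266, .ofNat 50, .ofNat 12⟩
def c605x : L := ⟨.ofNat 392, .ofNat 72, .ofNat 18⟩
def c606x : L := ⟨.ofNat 384, .ofNat 70, .ofNat 18⟩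
def c607x : L := ⟨.ofNat 390, .ofNat 72, .ofNat 18⟩
def c608x : L := ⟨.ofNat 398, .ofNat 74, .ofNat 18⟩
def c609x : L := ⟨.ofNat 518, .ofNat 94, .ofNat 24⟩
def c610x : L := ⟨.ofNat 534, .ofNat 98, .ofNat 24⟩
def c611x : L := ⟨.ofNat 524, .ofNat 96, .ofNat 24⟩
def c612x : L := ⟨.ofNat 522, .ofNat 94, .ofNat 24⟩
def c613x : L := ⟨.ofNat 512, .ofNat 92, .ofNat 24⟩
def c614x : L := ⟨.ofNat 513, .ofNat 92, .ofNat 24⟩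
def c615x : L := ⟨.ofNat 536, .ofNat 98, .ofNat 24⟩
def c616x : L := ⟨.ofNat 581, .ofNat 106, .ofNat 27⟩
def c617x : L := ⟨.ofNat 580, .ofNat 106, .ofNat 27⟩
def c618x : L := ⟨.ofNat 52, .ofNat 10, .ofNat 3⟩
def c619x : L := ⟨.ofNat 75, .ofNat 16, .ofNat 3⟩
def c620x : L := ⟨.ofNat 53, .ofNat 10, .ofNat 3⟩
def c621x : L := ⟨.ofNat 76, .ofNat 16, .ofNat 3⟩
def c622x : L := ⟨.ofNat 66, .ofNat 14, .ofNat 3⟩
def c623x : L := ⟨.ofNat 70, .ofNat 14, .ofNat 3⟩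
def c624x : L := ⟨.ofNat 322, .ofNat 58, .ofNat 15⟩
def c625x : L := ⟨.ofNat 334, .ofNat 62, .ofNat 15⟩
def c626x : L := ⟨.ofNat 448, .ofNat 82, .ofNat 21⟩
def c627x : L := ⟨.ofNat 471, .ofNat 88, .ofNat 21⟩
def c628x : L := ⟨.ofNat 449, .ofNat 82, .ofNat 21⟩
def c629x : L := ⟨.ofNat 472, .ofNat 88, .ofNat 21⟩
def c630x : L := ⟨.ofNat 462, .ofNat 86, .ofNat 21⟩
def c631x : L := ⟨.ofNat 466, .ofNat 86, .ofNat 21⟩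
def c632x : L := ⟨.ofNat 136, .ofNat 26, .ofNat 6⟩
def c633x : L := ⟨.ofNat 124, .ofNat 22, .ofNat 6⟩
def c634x : L := ⟨.ofNat 268, .ofNat 50, .ofNat 12⟩
def c635x : L := ⟨.ofNat 251, .ofNat 46, .ofNat 12⟩
def c636x : L := ⟨.ofNat 200, .ofNat 38, .ofNat 9⟩
def c637x : L := ⟨.ofNat 250, .ofNat 46, .ofNat 12⟩
def c638x : L := ⟨.ofNat 264, .ofNat 50, .ofNat 12⟩
def c639x : L := ⟨.ofNat 274, .ofNat 52, .ofNat 12⟩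
def c640x : L := ⟨.ofNat 273, .ofNat 52, .ofNat 12⟩
def c641x : L := ⟨.ofNat 400, .ofNat 74, .ofNat 18⟩
def c642x : L := ⟨.ofNat 383, .ofNat 70, .ofNat 18⟩
def c643x : L := ⟨.ofNat 382, .ofNat 70, .ofNat 18⟩
def c644x : L := ⟨.ofNat 396, .ofNat 74, .ofNat 18⟩
def c645x : L := ⟨.ofNat 406, .ofNat 76, .ofNat 18⟩
def c646x : L := ⟨.ofNat 405, .ofNat 76, .ofNat 18⟩
def c647x : L := ⟨.ofNat 532, .ofNat 98, .ofNat 24⟩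
def c648x : L := ⟨.ofNat 520, .ofNat 94, .ofNat 24⟩
def c649x : L := ⟨.ofNat 2, .ofNat 0, .ofNat 0⟩
def c650x : L := ⟨.ofNat 4, .ofNat 0, .ofNat 0⟩
def c651x : L := ⟨.negSucc 24, .negSucc 6, .ofNat 0⟩
def c652x : L := ⟨.ofNat 21, .ofNat 4, .ofNat 0⟩
def c653x : L := ⟨.negSucc 54, .negSucc 12, .ofNat 0⟩
def c654x : L := ⟨.ofNat 33, .ofNat 10, .ofNat 0⟩
def c655x : L := ⟨.ofNat 42, .ofNat 12, .ofNat 0⟩
def c656x : L := ⟨.negSucc 8, .negSucc 1, .ofNat 0⟩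
def c657x : L := ⟨.ofNat 30, .ofNat 6, .ofNat 0⟩
def c658x : L := ⟨.negSucc 168, .negSucc 42, .ofNat 0⟩
def c659x : L := ⟨.negSucc 198, .negSucc 48, .ofNat 0⟩
def c660x : L := ⟨.negSucc 312, .negSucc 78, .ofNat 0⟩
def c661x : L := ⟨.ofNat 241, .ofNat 61, .ofNat 0⟩
def c662x : L := ⟨.ofNat 271, .ofNat 67, .ofNat 0⟩
def c663x : L := ⟨.negSucc 342, .negSucc 84, .ofNat 0⟩
def c664x : L := ⟨.ofNat 457, .ofNat 115, .ofNat 0⟩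
def c665x : L := ⟨.ofNat 487, .ofNat 121, .ofNat 0⟩
def c666x : L := ⟨.negSucc 456, .negSucc 114, .ofNat 0⟩
def c667x : L := ⟨.negSucc 486, .negSucc 120, .ofNat 0⟩
def c668x : L := ⟨.ofNat 601, .ofNat 151, .ofNat 0⟩
def c669x : L := ⟨.negSucc 630, .negSucc 156, .ofNat 0⟩
def c670x : L := ⟨.ofNat 631, .ofNat 157, .ofNat 0⟩
def c671x : L := ⟨.negSucc 600, .negSucc 150, .ofNat 0⟩
def c672x : L := ⟨.ofNat 745, .ofNat 187, .ofNat 0⟩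
def c673x : L := ⟨.negSucc 774, .negSucc 192, .ofNat 0⟩
def c674x : L := ⟨.ofNat 847, .ofNat 211, .ofNat 0⟩
def c675x : L := ⟨.ofNat 775, .ofNat 193, .ofNat 0⟩
def c676x : L := ⟨.negSucc 744, .negSucc 186, .ofNat 0⟩
def c677x : L := ⟨.negSucc 888, .negSucc 222, .ofNat 0⟩
def c678x : L := ⟨.negSucc 918, .negSucc 228, .ofNat 0⟩
def c679x : L := ⟨.ofNat 919, .ofNat 229, .ofNat 0⟩
def c680x : L := ⟨.negSucc 1032, .negSucc 258, .ofNat 0⟩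
def c681x : L := ⟨.ofNat 961, .ofNat 241, .ofNat 0⟩
def c682x : L := ⟨.ofNat 991, .ofNat 247, .ofNat 0⟩
def c683x : L := ⟨.ofNat 1063, .ofNat 265, .ofNat 0⟩
def c684x : L := ⟨.negSucc 1062, .negSucc 264, .ofNat 0⟩
def c685x : L := ⟨.ofNat 1135, .ofNat 283, .ofNat 0⟩
def c686x : L := ⟨.ofNat 1177, .ofNat 295, .ofNat 0⟩
def c687x : L := ⟨.ofNat 1207, .ofNat 301, .ofNat 0⟩
def c688x : L := ⟨.negSucc 1176, .negSucc 294, .ofNat 0⟩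
def c689x : L := ⟨.negSucc 1206, .negSucc 300, .ofNat 0⟩
def c690x : L := ⟨.ofNat 1279, .ofNat 319, .ofNat 0⟩
def c691x : L := ⟨.negSucc 1320, .negSucc 330, .ofNat 0⟩
def c692x : L := ⟨.negSucc 1350, .negSucc 336, .ofNat 0⟩
def c693x : L := ⟨.ofNat 1393, .ofNat 349, .ofNat 0⟩
def c694x : L := ⟨.ofNat 1423, .ofNat 355, .ofNat 0⟩
def c695x : L := ⟨.negSucc 1464, .negSucc 366, .ofNat 0⟩
def c696x : L := ⟨.negSucc 1494, .negSucc 372, .ofNat 0⟩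
def c697x : L := ⟨.ofNat 1609, .ofNat 403, .ofNat 0⟩
def c698x : L := ⟨.ofNat 1639, .ofNat 409, .ofNat 0⟩
def c699x : L := ⟨.negSucc 1608, .negSucc 402, .ofNat 0⟩
def c700x : L := ⟨.negSucc 1638, .negSucc 408, .ofNat 0⟩
def c701x : L := ⟨.negSucc 1752, .negSucc 438, .ofNat 0⟩
def c702x : L := ⟨.negSucc 1782, .negSucc 444, .ofNat 0⟩
def c703x : L := ⟨.negSucc 584, .negSucc 105, .negSucc 26⟩
def c704x : L := ⟨.ofNat 576, .ofNat 104, .ofNat 27⟩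
def c705x : L := ⟨.ofNat 615, .ofNat 112, .ofNat 27⟩
def c706x : L := ⟨.ofNat 1897, .ofNat 475, .ofNat 0⟩
def c707x : L := ⟨.negSucc 1206, .negSucc 340, .ofNat 27⟩
def c708x : L := ⟨.ofNat 627, .ofNat 118, .ofNat 27⟩
def c709x : L := ⟨.negSucc 1278, .negSucc 358, .ofNat 27⟩
def c710x : L := ⟨.ofNat 277, .ofNat 50, .ofNat 13⟩
def c711x : L := ⟨.ofNat 13, .ofNat 2, .ofNat 1⟩
def c712x : L := ⟨.ofNat 20, .ofNat 6, .ofNat 0⟩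
def c713x : L := ⟨.ofNat 101, .ofNat 18, .ofNat 5⟩
def c714x : L := ⟨.ofNat 50, .ofNat 8, .ofNat 3⟩
def c715x : L := ⟨.ofNat 58, .ofNat 10, .ofNat 3⟩
def c716x : L := ⟨.ofNat 145, .ofNat 26, .ofNat 7⟩
def c717x : L := ⟨.ofNat 233, .ofNat 42, .ofNat 11⟩
def c718x : L := ⟨.ofNat 409, .ofNat 74, .ofNat 19⟩
def c719x : L := ⟨.ofNat 365, .ofNat 66, .ofNat 17⟩
def c720x : L := ⟨.ofNat 321, .ofNat 58, .ofNat 15⟩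
def c721x : L := ⟨.ofNat 497, .ofNat 90, .ofNat 23⟩
def c722x : L := ⟨.ofNat 446, .ofNat 80, .ofNat 21⟩
def c723x : L := ⟨.ofNat 454, .ofNat 82, .ofNat 21⟩
def c724x : L := ⟨.ofNat 541, .ofNat 98, .ofNat 25⟩
def c725x : L := ⟨.ofNat 299, .ofNat 54, .ofNat 14⟩
def c726x : L := ⟨.ofNat 167, .ofNat 30, .ofNat 8⟩
def c727x : L := ⟨.ofNat 79, .ofNat 14, .ofNat 4⟩
def c728x : L := ⟨.ofNat 35, .ofNat 6, .ofNat 2⟩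
def c729x : L := ⟨.ofNat 36, .ofNat 10, .ofNat 0⟩
def c730x : L := ⟨.ofNat 30, .ofNat 8, .ofNat 0⟩
def c731x : L := ⟨.ofNat 123, .ofNat 22, .ofNat 6⟩
def c732x : L := ⟨.ofNat 211, .ofNat 38, .ofNat 10⟩
def c733x : L := ⟨.ofNat 256, .ofNat 46, .ofNat 12⟩
def c734x : L := ⟨.ofNat 248, .ofNat 44, .ofNat 12⟩
def c735x : L := ⟨.ofNat 475, .ofNat 86, .ofNat 22⟩
def c736x : L := ⟨.ofNat 343, .ofNat 62, .ofNat 16⟩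
def c737x : L := ⟨.ofNat 431, .ofNat 78, .ofNat 20⟩
def c738x : L := ⟨.ofNat 388, .ofNat 70, .ofNat 18⟩
def c739x : L := ⟨.ofNat 380, .ofNat 68, .ofNat 18⟩
def c740x : L := ⟨.ofNat 519, .ofNat 94, .ofNat 24⟩
def c741x : L := ⟨.ofNat 563, .ofNat 102, .ofNat 26⟩
def c742x : L := ⟨.ofNat 17, .ofNat 5, .ofNat 0⟩
def c743x : L := ⟨.ofNat 12, .ofNat 4, .ofNat 0⟩
def c744x : L := ⟨.ofNat 190, .ofNat 34, .ofNat 9⟩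
def c745x : L := ⟨.ofNat 182, .ofNat 32, .ofNat 9⟩
def c746x : L := ⟨.ofNat 34, .ofNat 10, .ofNat 0⟩
def c747x : L := ⟨.ofNat 245, .ofNat 44, .ofNat 12⟩
def c748x : L := ⟨.ofNat 35, .ofNat 10, .ofNat 0⟩
def c749x : L := ⟨.ofNat 246, .ofNat 44, .ofNat 12⟩
def c750x : L := ⟨.ofNat 377, .ofNat 68, .ofNat 18⟩
def c751x : L := ⟨.ofNat 378, .ofNat 68, .ofNat 18⟩
def c752x : L := ⟨.ofNat 14, .ofNat 2, .ofNat 0⟩
def c753x : L := ⟨.ofNat 20, .ofNat 4, .ofNat 0⟩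
def c754x : L := ⟨.ofNat 48, .ofNat 8, .ofNat 3⟩
def c755x : L := ⟨.ofNat 46, .ofNat 8, .ofNat 3⟩
def c756x : L := ⟨.ofNat 22, .ofNat 4, .ofNat 0⟩
def c757x : L := ⟨.ofNat 47, .ofNat 8, .ofNat 3⟩
def c758x : L := ⟨.ofNat 28, .ofNat 6, .ofNat 0⟩
def c759x : L := ⟨.ofNat 29, .ofNat 6, .ofNat 0⟩
def c760x : L := ⟨.ofNat 12, .ofNat 2, .ofNat 0⟩
def c761x : L := ⟨.ofNat 308, .ofNat 54, .ofNat 15⟩
def c762x : L := ⟨.ofNat 309, .ofNat 54, .ofNat 15⟩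
def c763x : L := ⟨.ofNat 332, .ofNat 60, .ofNat 15⟩
def c764x : L := ⟨.ofNat 316, .ofNat 56, .ofNat 15⟩
def c765x : L := ⟨.ofNat 444, .ofNat 80, .ofNat 21⟩
def c766x : L := ⟨.ofNat 442, .ofNat 80, .ofNat 21⟩
def c767x : L := ⟨.ofNat 574, .ofNat 104, .ofNat 27⟩
def c768x : L := ⟨.ofNat 575, .ofNat 104, .ofNat 27⟩
def c769x : L := ⟨.ofNat 443, .ofNat 80, .ofNat 21⟩
def c770x : L := ⟨.ofNat 110, .ofNat 18, .ofNat 6⟩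
def c771x : L := ⟨.ofNat 111, .ofNat 18, .ofNat 6⟩
def c772x : L := ⟨.ofNat 134, .ofNat 24, .ofNat 6⟩
def c773x : L := ⟨.ofNat 118, .ofNat 20, .ofNat 6⟩
def c774x : L := ⟨.ofNat 179, .ofNat 32, .ofNat 9⟩
def c775x : L := ⟨.ofNat 180, .ofNat 32, .ofNat 9⟩
def c776x : L := ⟨.ofNat 178, .ofNat 32, .ofNat 9⟩
def c777x : L := ⟨.ofNat 18, .ofNat 4, .ofNat 0⟩
def c778x : L := ⟨.ofNat 244, .ofNat 44, .ofNat 12⟩
def c779x : L := ⟨.ofNat 376, .ofNat 68, .ofNat 18⟩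
def c780x : L := ⟨.ofNat 506, .ofNat 90, .ofNat 24⟩
def c781x : L := ⟨.ofNat 507, .ofNat 90, .ofNat 24⟩
def c782x : L := ⟨.ofNat 530, .ofNat 96, .ofNat 24⟩
def c783x : L := ⟨.ofNat 514, .ofNat 92, .ofNat 24⟩
def c784x : L := ⟨.ofNat 21, .ofNat 6, .ofNat 0⟩
def c785x : L := ⟨.ofNat 210, .ofNat 54, .ofNat 0⟩
def c786x : L := ⟨.ofNat 201, .ofNat 36, .ofNat 9⟩
def c787x : L := ⟨.negSucc 194, .negSucc 35, .negSucc 8⟩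
def c788x : L := ⟨.ofNat 405, .ofNat 90, .ofNat 9⟩
def c789x : L := ⟨.negSucc 488, .negSucc 134, .ofNat 9⟩
def c790x : L := ⟨.ofNat 879, .ofNat 207, .ofNat 9⟩
def c791x : L := ⟨.negSucc 680, .negSucc 170, .ofNat 0⟩
def c792x : L := ⟨.negSucc 1112, .negSucc 278, .ofNat 0⟩
def c793x : L := ⟨.negSucc 392, .negSucc 71, .negSucc 17⟩
def c794x : L := ⟨.ofNat 399, .ofNat 72, .ofNat 18⟩
def c795x : L := ⟨.negSucc 398, .negSucc 71, .negSucc 17⟩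
def c796x : L := ⟨.ofNat 603, .ofNat 126, .ofNat 18⟩
def c797x : L := ⟨.negSucc 1118, .negSucc 278, .ofNat 0⟩
def c798x : L := ⟨.negSucc 1568, .negSucc 404, .ofNat 9⟩
def c799x : L := ⟨.ofNat 1959, .ofNat 477, .ofNat 9⟩
def c800x : L := ⟨.ofNat 789, .ofNat 144, .ofNat 36⟩
def c801x : L := ⟨.ofNat 86, .ofNat 22, .ofNat 0⟩
def c802x : L := ⟨.ofNat 68, .ofNat 18, .ofNat 0⟩
def c803x : L := ⟨.ofNat 2, .ofNat 2, .ofNat 0⟩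
def c804x : L := ⟨.ofNat 78, .ofNat 20, .ofNat 0⟩
def c805x : L := ⟨.ofNat 9, .ofNat 4, .ofNat 0⟩
def c806x : L := ⟨.ofNat 79, .ofNat 20, .ofNat 0⟩
def c807x : L := ⟨.ofNat 10, .ofNat 4, .ofNat 0⟩
def c808x : L := ⟨.ofNat 80, .ofNat 20, .ofNat 0⟩
def c809x : L := ⟨.ofNat 0, .ofNat 2, .ofNat 0⟩
def c810x : L := ⟨.ofNat 70, .ofNat 18, .ofNat 0⟩
def c811x : L := ⟨.ofNat 183, .ofNat 32, .ofNat 9⟩
def c812x : L := ⟨.ofNat 192, .ofNat 34, .ofNat 9⟩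
def c813x : L := ⟨.ofNat 94, .ofNat 24, .ofNat 0⟩
def c814x : L := ⟨.ofNat 87, .ofNat 22, .ofNat 0⟩
def c815x : L := ⟨.ofNat 88, .ofNat 22, .ofNat 0⟩
def c816x : L := ⟨.ofNat 100, .ofNat 26, .ofNat 0⟩
def c817x : L := ⟨.ofNat 132, .ofNat 34, .ofNat 0⟩
def c818x : L := ⟨.ofNat 116, .ofNat 30, .ofNat 0⟩
def c819x : L := ⟨.ofNat 110, .ofNat 28, .ofNat 0⟩
def c820x : L := ⟨.ofNat 124, .ofNat 32, .ofNat 0⟩
def c821x : L := ⟨.ofNat 122, .ofNat 32, .ofNat 0⟩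
def c822x : L := ⟨.ofNat 123, .ofNat 32, .ofNat 0⟩
def c823x : L := ⟨.ofNat 130, .ofNat 34, .ofNat 0⟩
def c824x : L := ⟨.ofNat 131, .ofNat 34, .ofNat 0⟩
def c825x : L := ⟨.ofNat 152, .ofNat 38, .ofNat 0⟩
def c826x : L := ⟨.ofNat 142, .ofNat 36, .ofNat 0⟩
def c827x : L := ⟨.ofNat 138, .ofNat 36, .ofNat 0⟩
def c828x : L := ⟨.ofNat 150, .ofNat 38, .ofNat 0⟩
def c829x : L := ⟨.ofNat 166, .ofNat 42, .ofNat 0⟩
def c830x : L := ⟨.ofNat 158, .ofNat 40, .ofNat 0⟩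
def c831x : L := ⟨.ofNat 172, .ofNat 44, .ofNat 0⟩
def c832x : L := ⟨.ofNat 194, .ofNat 50, .ofNat 0⟩
def c833x : L := ⟨.ofNat 182, .ofNat 46, .ofNat 0⟩
def c834x : L := ⟨.ofNat 188, .ofNat 48, .ofNat 0⟩
def c835x : L := ⟨.ofNat 195, .ofNat 50, .ofNat 0⟩
def c836x : L := ⟨.ofNat 204, .ofNat 52, .ofNat 0⟩
def c837x : L := ⟨.ofNat 196, .ofNat 50, .ofNat 0⟩
def c838x : L := ⟨.ofNat 202, .ofNat 52, .ofNat 0⟩
def c839x : L := ⟨.ofNat 203, .ofNat 52, .ofNat 0⟩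
def c840x : L := ⟨.ofNat 140, .ofNat 36, .ofNat 0⟩
def c841x : L := ⟨.ofNat 151, .ofNat 38, .ofNat 0⟩
def c842x : L := ⟨.ofNat 160, .ofNat 40, .ofNat 0⟩
def c843x : L := ⟨.ofNat 159, .ofNat 40, .ofNat 0⟩
def c844x : L := ⟨.ofNat 69, .ofNat 12, .ofNat 3⟩
def c845x : L := ⟨.negSucc 128, .negSucc 23, .negSucc 5⟩
def c846x : L := ⟨.negSucc 134, .negSucc 23, .negSucc 5⟩
def c847x : L := ⟨.ofNat 642, .ofNat 162, .ofNat 0⟩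
def c848x : L := ⟨.ofNat 837, .ofNat 198, .ofNat 9⟩
def c849x : L := ⟨.negSucc 620, .negSucc 158, .ofNat 3⟩
def c850x : L := ⟨.ofNat 747, .ofNat 183, .ofNat 3⟩
def c851x : L := ⟨.negSucc 260, .negSucc 47, .negSucc 11⟩
def c852x : L := ⟨.ofNat 267, .ofNat 48, .ofNat 12⟩
def c853x : L := ⟨.negSucc 266, .negSucc 47, .negSucc 11⟩
def c854x : L := ⟨.ofNat 903, .ofNat 210, .ofNat 12⟩
def c855x : L := ⟨.negSucc 686, .negSucc 170, .ofNat 0⟩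
def c856x : L := ⟨.negSucc 326, .negSucc 59, .negSucc 14⟩
def c857x : L := ⟨.negSucc 458, .negSucc 83, .negSucc 20⟩
def c858x : L := ⟨.ofNat 465, .ofNat 84, .ofNat 21⟩
def c859x : L := ⟨.negSucc 1268, .negSucc 320, .ofNat 3⟩
def c860x : L := ⟨.ofNat 1395, .ofNat 345, .ofNat 3⟩
def c861x : L := ⟨.negSucc 524, .negSucc 95, .negSucc 23⟩
def c862x : L := ⟨.negSucc 530, .negSucc 95, .negSucc 23⟩
def c863x : L := ⟨.ofNat 657, .ofNat 120, .ofNat 30⟩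
def c864x : L := ⟨.ofNat 51, .ofNat 8, .ofNat 3⟩
def c865x : L := ⟨.ofNat 230, .ofNat 58, .ofNat 0⟩
def c866x : L := ⟨.ofNat 60, .ofNat 10, .ofNat 3⟩
def c867x : L := ⟨.ofNat 222, .ofNat 56, .ofNat 0⟩
def c868x : L := ⟨.ofNat 212, .ofNat 54, .ofNat 0⟩
def c869x : L := ⟨.ofNat 223, .ofNat 56, .ofNat 0⟩
def c870x : L := ⟨.ofNat 224, .ofNat 56, .ofNat 0⟩
def c871x : L := ⟨.ofNat 284, .ofNat 72, .ofNat 0⟩
def c872x : L := ⟨.ofNat 238, .ofNat 60, .ofNat 0⟩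
def c873x : L := ⟨.ofNat 232, .ofNat 58, .ofNat 0⟩
def c874x : L := ⟨.ofNat 231, .ofNat 58, .ofNat 0⟩
def c875x : L := ⟨.ofNat 244, .ofNat 62, .ofNat 0⟩
def c876x : L := ⟨.ofNat 274, .ofNat 70, .ofNat 0⟩
def c877x : L := ⟨.ofNat 260, .ofNat 66, .ofNat 0⟩
def c878x : L := ⟨.ofNat 254, .ofNat 64, .ofNat 0⟩
def c879x : L := ⟨.ofNat 268, .ofNat 68, .ofNat 0⟩
def c880x : L := ⟨.ofNat 276, .ofNat 70, .ofNat 0⟩
def c881x : L := ⟨.ofNat 282, .ofNat 72, .ofNat 0⟩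
def c882x : L := ⟨.ofNat 296, .ofNat 74, .ofNat 0⟩
def c883x : L := ⟨.ofNat 294, .ofNat 74, .ofNat 0⟩
def c884x : L := ⟨.ofNat 295, .ofNat 74, .ofNat 0⟩
def c885x : L := ⟨.ofNat 310, .ofNat 78, .ofNat 0⟩
def c886x : L := ⟨.ofNat 302, .ofNat 76, .ofNat 0⟩
def c887x : L := ⟨.ofNat 304, .ofNat 76, .ofNat 0⟩
def c888x : L := ⟨.ofNat 303, .ofNat 76, .ofNat 0⟩
def c889x : L := ⟨.ofNat 316, .ofNat 80, .ofNat 0⟩
def c890x : L := ⟨.ofNat 492, .ofNat 124, .ofNat 0⟩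
def c891x : L := ⟨.ofNat 420, .ofNat 106, .ofNat 0⟩
def c892x : L := ⟨.ofNat 367, .ofNat 92, .ofNat 0⟩
def c893x : L := ⟨.ofNat 348, .ofNat 88, .ofNat 0⟩
def c894x : L := ⟨.ofNat 332, .ofNat 84, .ofNat 0⟩
def c895x : L := ⟨.ofNat 326, .ofNat 82, .ofNat 0⟩
def c896x : L := ⟨.ofNat 340, .ofNat 86, .ofNat 0⟩
def c897x : L := ⟨.ofNat 346, .ofNat 88, .ofNat 0⟩
def c898x : L := ⟨.ofNat 356, .ofNat 90, .ofNat 0⟩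
def c899x : L := ⟨.ofNat 354, .ofNat 90, .ofNat 0⟩
def c900x : L := ⟨.ofNat 366, .ofNat 92, .ofNat 0⟩
def c901x : L := ⟨.ofNat 374, .ofNat 94, .ofNat 0⟩
def c902x : L := ⟨.ofNat 368, .ofNat 92, .ofNat 0⟩
def c903x : L := ⟨.ofNat 382, .ofNat 96, .ofNat 0⟩
def c904x : L := ⟨.ofNat 375, .ofNat 94, .ofNat 0⟩
def c905x : L := ⟨.ofNat 376, .ofNat 94, .ofNat 0⟩
def c906x : L := ⟨.ofNat 388, .ofNat 98, .ofNat 0⟩
def c907x : L := ⟨.ofNat 412, .ofNat 104, .ofNat 0⟩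
def c908x : L := ⟨.ofNat 404, .ofNat 102, .ofNat 0⟩
def c909x : L := ⟨.ofNat 398, .ofNat 100, .ofNat 0⟩
def c910x : L := ⟨.ofNat 418, .ofNat 106, .ofNat 0⟩
def c911x : L := ⟨.ofNat 439, .ofNat 110, .ofNat 0⟩
def c912x : L := ⟨.ofNat 428, .ofNat 108, .ofNat 0⟩
def c913x : L := ⟨.ofNat 426, .ofNat 108, .ofNat 0⟩
def c914x : L := ⟨.ofNat 438, .ofNat 110, .ofNat 0⟩
def c915x : L := ⟨.ofNat 446, .ofNat 112, .ofNat 0⟩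
def c916x : L := ⟨.ofNat 440, .ofNat 110, .ofNat 0⟩
def c917x : L := ⟨.ofNat 454, .ofNat 114, .ofNat 0⟩
def c918x : L := ⟨.ofNat 447, .ofNat 112, .ofNat 0⟩
def c919x : L := ⟨.ofNat 448, .ofNat 112, .ofNat 0⟩
def c920x : L := ⟨.ofNat 460, .ofNat 116, .ofNat 0⟩
def c921x : L := ⟨.ofNat 484, .ofNat 122, .ofNat 0⟩
def c922x : L := ⟨.ofNat 476, .ofNat 120, .ofNat 0⟩
def c923x : L := ⟨.ofNat 470, .ofNat 118, .ofNat 0⟩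
def c924x : L := ⟨.ofNat 490, .ofNat 124, .ofNat 0⟩
def c925x : L := ⟨.ofNat 526, .ofNat 132, .ofNat 0⟩
def c926x : L := ⟨.ofNat 511, .ofNat 128, .ofNat 0⟩
def c927x : L := ⟨.ofNat 500, .ofNat 126, .ofNat 0⟩
def c928x : L := ⟨.ofNat 498, .ofNat 126, .ofNat 0⟩
def c929x : L := ⟨.ofNat 510, .ofNat 128, .ofNat 0⟩
def c930x : L := ⟨.ofNat 518, .ofNat 130, .ofNat 0⟩
def c931x : L := ⟨.ofNat 512, .ofNat 128, .ofNat 0⟩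
def c932x : L := ⟨.ofNat 519, .ofNat 130, .ofNat 0⟩
def c933x : L := ⟨.ofNat 520, .ofNat 130, .ofNat 0⟩
def c934x : L := ⟨.ofNat 626, .ofNat 158, .ofNat 0⟩
def c935x : L := ⟨.ofNat 532, .ofNat 134, .ofNat 0⟩
def c936x : L := ⟨.ofNat 614, .ofNat 154, .ofNat 0⟩
def c937x : L := ⟨.ofNat 620, .ofNat 156, .ofNat 0⟩
def c938x : L := ⟨.ofNat 627, .ofNat 158, .ofNat 0⟩
def c939x : L := ⟨.ofNat 636, .ofNat 160, .ofNat 0⟩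
def c940x : L := ⟨.ofNat 628, .ofNat 158, .ofNat 0⟩
def c941x : L := ⟨.ofNat 634, .ofNat 160, .ofNat 0⟩

end Pool.Agent.Box4
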