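import Pool.Agent.Box3.TreeB
import Pool.Agent.Box4.Num
set_option linter.all false
set_option autoImplicit false

namespace Pool.Agent.Box4.TA

open Pool.Agent.Box3 Pool.Agent.Box4



def n000x : QT :=
  .node ⟨c14x, c49x, c6x, c43x⟩ ⟨c14x, c468x, c14x, c473x, c14x, c545x⟩ (.node ⟨c14x, c47x, c6x, c4x⟩ ⟨c14x, c468x, c14x, c473x, c14x, c528x⟩ (.node ⟨c14x, c36x, c6x, c4x⟩ ⟨c14x, c468x, c14x, c8x, c14x, c528x⟩ (.node ⟨c14x, c5x, c6x, c4x⟩ ⟨c14x, c468x, c14x, c8x, c14x, c19x⟩ (.leaf ⟨c14x, c8x, c9x, c4x⟩ ⟨c14x, c650x, c14x, c8x, c14x, c529x⟩ [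
    ⟨⟨⟨⟨c14x, c15x, c14x, c4x⟩, ⟨.ofNat 0, .negSucc 0, c4x⟩, ⟨.negSucc 0, .ofNat 0, c8x⟩, ⟨.ofNat 0, .ofNat 0, c14x⟩⟩, [0, 1, 787]⟩, ⟨c14x, c4x, c534x, c8x, c14x, c14x⟩⟩,
    ⟨⟨⟨⟨c15x, c16x, c17x, c4x⟩, ⟨.ofNat 0, .negSucc 0, c4x⟩, ⟨.negSucc 0, .ofNat 0, c8x⟩, ⟨.ofNat 0, .ofNat 0, c14x⟩⟩, [0, 1, 2, 3]⟩, ⟨c14x, c650x, c530x, c534x, c14x, c14x⟩⟩,
    ⟨⟨⟨⟨c7x, c8x, c9x, c4x⟩, ⟨.ofNat 0, .ofNat 0, c14x⟩, ⟨.ofNat 0, .negSucc 0, c4x⟩, ⟨.negSucc 0, .ofNat 0, c8x⟩⟩, [9, 10, 11, 12]⟩, ⟨c14x, c14x, c14x, c528x, c14x, c529x⟩⟩]) (.leaf ⟨c8x, c5x, c6x, c4x⟩ ⟨c14x, c468x, c14x, c533x, c14x, c19x⟩ [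
    ⟨⟨⟨⟨c12x, c1x, c3x, c4x⟩, ⟨.ofNat 1, .ofNat 0, c467x⟩, ⟨.ofNat 0, .negSucc 0, c4x⟩, ⟨.ofNat 0, .ofNat 0, c14x⟩⟩, [12, 13, 14, 20, 21]⟩, ⟨c649x, c468x, c14x, c532x, c14x, c14x⟩⟩,
    ⟨⟨⟨⟨c8x, c12x, c9x, c4x⟩, ⟨.ofNat 1, .ofNat 0, c467x⟩, ⟨.ofNat 0, .negSucc 0, c4x⟩, ⟨.ofNat 0, .ofNat 0, c14x⟩⟩, [9, 10, 12, 13]⟩, ⟨c14x, c649x, c14x, c528x, c14x, c14x⟩⟩,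
    ⟨⟨⟨⟨c1x, c2x, c3x, c4x⟩, ⟨.ofNat 0, .ofNat 0, c468x⟩, ⟨.ofNat 0, .negSucc 0, c4x⟩, ⟨.ofNat 1, .ofNat 0, c469x⟩⟩, [14, 15, 20, 21]⟩, ⟨c468x, c468x, c14x, c532x, c14x, c529x⟩⟩,
    ⟨⟨⟨⟨c2x, c5x, c6x, c4x⟩, ⟨.ofNat 0, .ofNat 0, c468x⟩, ⟨.ofNat 0, .negSucc 0, c4x⟩, ⟨.ofNat 1, .ofNat 0, c469x⟩⟩, [14, 15, 16, 17, 18, 20]⟩, ⟨c468x, c468x, c14x, c533x, c529x, c19x⟩⟩])) (.node ⟨c5x, c36x, c25x, c4x⟩ ⟨c14x, c468x, c14x, c530x, c14x, c528x⟩ (.leaf ⟨c5x, c24x, c25x, c4x⟩ ⟨c14x, c468x, c14x, c532x, c14x, c528x⟩ [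
    ⟨⟨⟨⟨c5x, c10x, c11x, c4x⟩, ⟨.ofNat 0, .ofNat 0, c468x⟩, ⟨.ofNat 0, .negSucc 0, c4x⟩, ⟨.ofNat 1, .ofNat 0, c469x⟩⟩, [17, 18, 19, 20]⟩, ⟨c468x, c468x, c14x, c529x, c19x, c528x⟩⟩,
    ⟨⟨⟨⟨c23x, c24x, c25x, c470x⟩, ⟨.ofNat 0, .ofNat 0, c14x⟩, ⟨.ofNat 1, .ofNat 0, c469x⟩, ⟨.ofNat 0, .negSucc 0, c470x⟩⟩, [29, 30]⟩, ⟨c14x, c14x, c527x, c532x, c14x, c531x⟩⟩,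
    ⟨⟨⟨⟨c23x, c24x, c470x, c17x⟩, ⟨.ofNat 0, .ofNat 1, c4x⟩, ⟨.ofNat 1, .ofNat 0, c469x⟩, ⟨.ofNat 0, .ofNat 0, c14x⟩⟩, [27, 28, 29]⟩, ⟨c14x, c649x, c527x, c532x, c14x, c14x⟩⟩]) (.leaf ⟨c24x, c36x, c25x, c4x⟩ ⟨c14x, c468x, c532x, c530x, c14x, c531x⟩ [
    ⟨⟨⟨⟨c24x, c34x, c25x, c470x⟩, ⟨.ofNat 0, .ofNat 0, c14x⟩, ⟨.ofNat 1, .ofNat 0, c469x⟩, ⟨.ofNat 0, .negSucc 0, c470x⟩⟩, [30]⟩, ⟨c14x, c14x, c532x, c533x, c14x, c531x⟩⟩,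
    ⟨⟨⟨⟨c34x, c36x, c25x, c470x⟩, ⟨.ofNat 0, .ofNat 0, c14x⟩, ⟨.ofNat 1, .ofNat 0, c469x⟩, ⟨.ofNat 0, .negSucc 0, c470x⟩⟩, [30, 31]⟩, ⟨c14x, c14x, c533x, c530x, c14x, c531x⟩⟩,
    ⟨⟨⟨⟨c24x, c34x, c470x, c4x⟩, ⟨.ofNat 0, .ofNat 1, c4x⟩, ⟨.ofNat 1, .ofNat 0, c469x⟩, ⟨.ofNat 0, .ofNat 0, c14x⟩⟩, [27, 28]⟩, ⟨c14x, c468x, c532x, c533x, c14x, c14x⟩⟩,
    ⟨⟨⟨⟨c34x, c36x, c470x, c4x⟩, ⟨.ofNat 0, .ofNat 1, c4x⟩, ⟨.ofNat 1, .ofNat 0, c469x⟩, ⟨.ofNat 0, .ofNat 0, c14x⟩⟩, [31, 32]⟩, ⟨c14x, c468x, c533x, c530x, c14x, c14x⟩⟩]))) (.node ⟨c38x, c47x, c6x, c4x⟩ ⟨c14x, c468x, c534x, c473x, c14x, c528x⟩ (.node ⟨c38x, c30x, c6x, c4x⟩ ⟨c14x, c468x, c534x, c473x, c14x, c19x⟩ (.leaf ⟨c38x, c27x, c9x, c4x⟩ ⟨c649x, c468x,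 c534x, c473x, c14x, c529x⟩ [
    ⟨⟨⟨⟨c38x, c39x, c14x, c4x⟩, ⟨.ofNat 0, .ofNat 1, c4x⟩, ⟨.ofNat 1, .ofNat 0, c469x⟩, ⟨.ofNat 0, .ofNat 0, c14x⟩⟩, [32, 33, 34]⟩, ⟨c4x, c468x, c534x, c8x, c14x, c14x⟩⟩,
    ⟨⟨⟨⟨c41x, c42x, c17x, c4x⟩, ⟨.ofNat 0, .ofNat 1, c4x⟩, ⟨.ofNat 1, .ofNat 0, c469x⟩, ⟨.ofNat 0, .ofNat 0, c14x⟩⟩, [34, 35, 36, 37]⟩, ⟨c649x, c468x, c546x, c524x, c14x, c14x⟩⟩,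
    ⟨⟨⟨⟨c26x, c27x, c9x, c4x⟩, ⟨.ofNat 0, .ofNat 0, c468x⟩, ⟨.ofNat 0, .ofNat 1, c471x⟩, ⟨.negSucc 0, .ofNat 0, c27x⟩⟩, [43, 44, 45, 46]⟩, ⟨c468x, c468x, c582x, c473x, c14x, c529x⟩⟩]) (.leaf ⟨c27x, c30x, c6x, c4x⟩ ⟨c14x, c468x, c579x, c473x, c14x, c19x⟩ [
    ⟨⟨⟨⟨c46x, c28x, c3x, c4x⟩, ⟨.negSucc 0, .ofNat 0, c28x⟩, ⟨.ofNat 0, .ofNat 1, c471x⟩, ⟨.ofNat 0, .ofNat 0, c14x⟩⟩, [46, 47, 48, 54, 55]⟩, ⟨c14x, c650x, c580x, c473x, c14x, c14x⟩⟩,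
    ⟨⟨⟨⟨c27x, c46x, c9x, c4x⟩, ⟨.negSucc 0, .ofNat 0, c28x⟩, ⟨.ofNat 0, .ofNat 1, c471x⟩, ⟨.ofNat 0, .ofNat 0, c14x⟩⟩, [43, 44, 46, 47]⟩, ⟨c650x, c468x, c582x, c473x, c14x, c14x⟩⟩,
    ⟨⟨⟨⟨c28x, c29x, c3x, c4x⟩, ⟨.ofNat 0, .ofNat 0, c14x⟩, ⟨.ofNat 0, .ofNat 1, c471x⟩, ⟨.ofNat 1, .ofNat 0, c472x⟩⟩, [48, 49, 54, 55]⟩, ⟨c14x, c14x, c580x, c473x, c14x, c529x⟩⟩,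
    ⟨⟨⟨⟨c29x, c30x, c6x, c4x⟩, ⟨.ofNat 0, .ofNat 0, c14x⟩, ⟨.ofNat 0, .ofNat 1, c471x⟩, ⟨.ofNat 1, .ofNat 0, c472x⟩⟩, [48, 49, 50, 51, 52, 54]⟩, ⟨c14x, c14x, c579x, c473x, c529x, c19x⟩⟩])) (.node ⟨c30x, c47x, c25x, c4x⟩ ⟨c14x, c468x, c524x, c473x, c14x, c528x⟩ (.leaf ⟨c30x, c33x, c25x, c4x⟩ ⟨c14x, c468x, c580x, c473x, c14x, c528x⟩ [
    ⟨⟨⟨⟨c30x, c31x, c11x, c4x⟩, ⟨.ofNat 0, .ofNat 0, c14x⟩, ⟨.ofNat 0, .ofNat 1, c471x⟩, ⟨.ofNat 1, .ofNat 0, c472x⟩⟩, [51, 52, 53, 54]⟩, ⟨c14x, c14x, c581x, c473x, c19x, c528x⟩⟩,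
    ⟨⟨⟨⟨c32x, c33x, c25x, c470x⟩, ⟨.ofNat 0, .ofNat 0, c468x⟩, ⟨.negSucc 0, .ofNat 0, c57x⟩, ⟨.ofNat 0, .negSucc 0, c470x⟩⟩, [63, 64]⟩, ⟨c468x, c468x, c580x, c583x, c14x, c531x⟩⟩,
    ⟨⟨⟨⟨c32x, c33x, c470x, c17x⟩, ⟨.ofNat 0, .negSucc 0, c4x⟩, ⟨.negSucc 0, .ofNat 0, c57x⟩, ⟨.ofNat 0, .ofNat 0, c14x⟩⟩, [61, 62, 63]⟩, ⟨c650x, c468x, c580x, c583x, c14x, c14x⟩⟩]) (.leaf ⟨c33x, c47x, c25x, c4x⟩ ⟨c14x, c468x, c524x, c580x, c14x, c531x⟩ [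
    ⟨⟨⟨⟨c33x, c35x, c25x, c470x⟩, ⟨.ofNat 0, .ofNat 0, c468x⟩, ⟨.negSucc 0, .ofNat 0, c57x⟩, ⟨.ofNat 0, .negSucc 0, c470x⟩⟩, [64]⟩, ⟨c468x, c468x, c579x, c580x, c14x, c531x⟩⟩,
    ⟨⟨⟨⟨c35x, c47x, c25x, c470x⟩, ⟨.ofNat 0, .ofNat 0, c468x⟩, ⟨.negSucc 0, .ofNat 0, c57x⟩, ⟨.ofNat 0, .negSucc 0, c470x⟩⟩, [64, 65]⟩, ⟨c468x, c468x, c524x, c579x, c14x, c531x⟩⟩,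
    ⟨⟨⟨⟨c33x, c35x, c470x, c4x⟩, ⟨.ofNat 0, .negSucc 0, c4x⟩, ⟨.negSucc 0, .ofNat 0, c57x⟩, ⟨.ofNat 0, .ofNat 0, c14x⟩⟩, [61, 62]⟩, ⟨c14x, c468x, c579x, c580x, c14x, c14x⟩⟩,
    ⟨⟨⟨⟨c35x, c47x, c470x, c4x⟩, ⟨.ofNat 0, .negSucc 0, c4x⟩, ⟨.negSucc 0, .ofNat 0, c57x⟩, ⟨.ofNat 0, .ofNat 0, c14x⟩⟩, [65, 66]⟩, ⟨c14x, c468x, c524x, c579x, c14x, c14x⟩⟩])))) (.node ⟨c14x, c49x, c14x, c43x⟩ ⟨c14x, c468x, c14x, c473x, c14x, c545x⟩ (.node ⟨c14x, c49x, c14x, c13x⟩ ⟨c14x, c468x, c14x, c582x, c14x, c526x⟩ (.node ⟨c14x, c34x, c21x, c13x⟩ ⟨c14x, c468x, c14x, c8x, c14x, c526x⟩ (.leaf ⟨c14x, c34x, c21x, c13x⟩ ⟨c14x, c468x, c528x, c8x, c14x, c526x⟩ [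
    ⟨⟨⟨⟨c18x, c20x, c21x, c4x⟩, ⟨.ofNat 0, .negSucc 0, c4x⟩, ⟨.negSucc 0, .ofNat 0, c8x⟩, ⟨.ofNat 0, .ofNat 0, c14x⟩⟩, [5, 6, 7]⟩, ⟨c14x, c649x, c528x, c527x, c14x, c14x⟩⟩,
    ⟨⟨⟨⟨c24x, c34x, c4x, c22x⟩, ⟨.ofNat 0, .ofNat 0, c468x⟩, ⟨.ofNat 1, .ofNat 0, c469x⟩, ⟨.ofNat 0, .ofNat 1, c470x⟩⟩, [25, 26, 27]⟩, ⟨c468x, c468x, c532x, c533x, c14x, c529x⟩⟩,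
    ⟨⟨⟨⟨c14x, c15x, c4x, c13x⟩, ⟨.ofNat 0, .ofNat 0, c14x⟩, ⟨.negSucc 0, .ofNat 0, c8x⟩, ⟨.ofNat 0, .ofNat 1, c470x⟩⟩, [786, 787]⟩, ⟨c14x, c14x, c534x, c8x, c14x, c526x⟩⟩]) (.leaf ⟨c15x, c1x, c4x, c13x⟩ ⟨c14x, c468x, c14x, c534x, c14x, c526x⟩ [
    ⟨⟨⟨⟨c15x, c16x, c4x, c13x⟩, ⟨.ofNat 0, .ofNat 0, c14x⟩, ⟨.negSucc 0, .ofNat 0, c8x⟩, ⟨.ofNat 0, .ofNat 1, c470x⟩⟩, [3, 4, 786]⟩, ⟨c14x, c14x, c530x, c534x, c14x, c526x⟩⟩,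
    ⟨⟨⟨⟨c18x, c20x, c4x, c13x⟩, ⟨.ofNat 0, .ofNat 0, c14x⟩, ⟨.negSucc 0, .ofNat 0, c8x⟩, ⟨.ofNat 0, .ofNat 1, c470x⟩⟩, [4, 5, 7, 8, 786]⟩, ⟨c14x, c14x, c528x, c527x, c14x, c526x⟩⟩,
    ⟨⟨⟨⟨c8x, c12x, c4x, c13x⟩, ⟨.ofNat 1, .ofNat 0, c467x⟩, ⟨.ofNat 0, .ofNat 0, c14x⟩, ⟨.ofNat 0, .ofNat 1, c470x⟩⟩, [8, 9, 10, 786]⟩, ⟨c14x, c649x, c14x, c14x, c14x, c526x⟩⟩,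
    ⟨⟨⟨⟨c12x, c1x, c4x, c13x⟩, ⟨.ofNat 1, .ofNat 0, c467x⟩, ⟨.ofNat 0, .ofNat 0, c14x⟩, ⟨.ofNat 0, .ofNat 1, c470x⟩⟩, [20, 21, 22, 786]⟩, ⟨c649x, c468x, c14x, c14x, c14x, c526x⟩⟩])) (.node ⟨c34x, c49x, c14x, c13x⟩ ⟨c14x, c468x, c533x, c582x, c14x, c526x⟩ (.leaf ⟨c34x, c41x, c14x, c13x⟩ ⟨c4x, c468x, c533x, c546x, c14x, c526x⟩ [
    ⟨⟨⟨⟨c39x, c41x, c14x, c4x⟩, ⟨.ofNat 0, .ofNat 1, c4x⟩, ⟨.ofNat 1, .ofNat 0, c469x⟩, ⟨.ofNat 0, .ofNat 0, c14x⟩⟩, [34, 35]⟩, ⟨c4x, c468x, c8x, c546x, c14x, c14x⟩⟩,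
    ⟨⟨⟨⟨c36x, c38x, c21x, c4x⟩, ⟨.ofNat 0, .ofNat 1, c4x⟩, ⟨.ofNat 1, .ofNat 0, c469x⟩, ⟨.ofNat 0, .ofNat 0, c14x⟩⟩, [31, 32, 33]⟩, ⟨c650x, c468x, c530x, c534x, c14x, c14x⟩⟩,
    ⟨⟨⟨⟨c34x, c36x, c4x, c13x⟩, ⟨.ofNat 0, .ofNat 0, c468x⟩, ⟨.ofNat 1, .ofNat 0, c469x⟩, ⟨.ofNat 0, .ofNat 1, c470x⟩⟩, [24, 25, 26, 786]⟩, ⟨c468x, c468x, c533x, c530x, c14x, c526x⟩⟩]) (.leaf ⟨c44x, c49x, c14x, c22x⟩ ⟨c14x, c468x, c8x, c582x, c14x, c529x⟩ [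
    ⟨⟨⟨⟨c44x, c45x, c21x, c4x⟩, ⟨.ofNat 0, .ofNat 1, c4x⟩, ⟨.ofNat 1, .ofNat 0, c469x⟩, ⟨.ofNat 0, .ofNat 0, c14x⟩⟩, [39, 40, 41]⟩, ⟨c650x, c468x, c583x, c582x, c14x, c14x⟩⟩,
    ⟨⟨⟨⟨c33x, c35x, c4x, c22x⟩, ⟨.ofNat 0, .ofNat 0, c14x⟩, ⟨.negSucc 0, .ofNat 0, c57x⟩, ⟨.ofNat 0, .ofNat 1, c470x⟩⟩, [59, 60, 61]⟩, ⟨c14x, c14x, c579x, c580x, c14x, c529x⟩⟩,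
    ⟨⟨⟨⟨c47x, c48x, c21x, c4x⟩, ⟨.ofNat 0, .negSucc 0, c4x⟩, ⟨.negSucc 0, .ofNat 0, c57x⟩, ⟨.ofNat 0, .ofNat 0, c14x⟩⟩, [65, 66, 67]⟩, ⟨c14x, c649x, c546x, c524x, c14x, c14x⟩⟩,
    ⟨⟨⟨⟨c48x, c49x, c14x, c4x⟩, ⟨.ofNat 0, .negSucc 0, c4x⟩, ⟨.negSucc 0, .ofNat 0, c57x⟩, ⟨.ofNat 0, .ofNat 0, c14x⟩⟩, [66, 67, 68, 69]⟩, ⟨c14x, c4x, c8x, c546x, c14x, c14x⟩⟩]))) (.node ⟨c16x, c49x, c4x, c43x⟩ ⟨c14x, c468x, c14x, c473x, c14x, c545x⟩ (.node ⟨c16x, c41x, c4x, c43x⟩ ⟨c14x, c468x, c14x, c546x, c14x, c545x⟩ (.leaf ⟨c16x, c39x, c4x, c13x⟩ ⟨c14x, c468x, c527x, c8x, c14x, c526x⟩ [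
    ⟨⟨⟨⟨c16x, c18x, c19x, c13x⟩, ⟨.ofNat 0, .ofNat 0, c14x⟩, ⟨.negSucc 0, .ofNat 0, c8x⟩, ⟨.ofNat 0, .ofNat 1, c470x⟩⟩, [3, 4, 5, 786]⟩, ⟨c14x, c14x, c527x, c530x, c531x, c526x⟩⟩,
    ⟨⟨⟨⟨c36x, c38x, c4x, c13x⟩, ⟨.ofNat 0, .ofNat 0, c468x⟩, ⟨.ofNat 1, .ofNat 0, c469x⟩, ⟨.ofNat 0, .ofNat 1, c470x⟩⟩, [786]⟩, ⟨c468x, c468x, c530x, c534x, c14x, c526x⟩⟩,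
    ⟨⟨⟨⟨c38x, c39x, c4x, c13x⟩, ⟨.ofNat 0, .ofNat 0, c468x⟩, ⟨.ofNat 1, .ofNat 0, c469x⟩, ⟨.ofNat 0, .ofNat 1, c470x⟩⟩, [785, 786]⟩, ⟨c468x, c468x, c534x, c8x, c14x, c526x⟩⟩]) (.leaf ⟨c20x, c41x, c4x, c43x⟩ ⟨c14x, c468x, c14x, c546x, c14x, c545x⟩ [
    ⟨⟨⟨⟨c20x, c8x, c22x, c13x⟩, ⟨.ofNat 0, .ofNat 0, c14x⟩, ⟨.negSucc 0, .ofNat 0, c8x⟩, ⟨.ofNat 0, .ofNat 1, c470x⟩⟩, [7, 8, 9, 786]⟩, ⟨c14x, c14x, c14x, c528x, c529x, c526x⟩⟩,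
    ⟨⟨⟨⟨c2x, c34x, c37x, c13x⟩, ⟨.ofNat 0, .ofNat 0, c468x⟩, ⟨.ofNat 1, .ofNat 0, c469x⟩, ⟨.ofNat 0, .ofNat 1, c470x⟩⟩, [22, 23, 24, 25, 786]⟩, ⟨c468x, c468x, c529x, c533x, c19x, c526x⟩⟩,
    ⟨⟨⟨⟨c1x, c2x, c40x, c13x⟩, ⟨.ofNat 0, .ofNat 0, c468x⟩, ⟨.ofNat 1, .ofNat 0, c469x⟩, ⟨.ofNat 0, .ofNat 1, c470x⟩⟩, [21, 22, 23, 786]⟩, ⟨c468x, c468x, c14x, c529x, c528x, c526x⟩⟩,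
    ⟨⟨⟨⟨c39x, c41x, c4x, c43x⟩, ⟨.ofNat 0, .ofNat 0, c468x⟩, ⟨.ofNat 1, .ofNat 0, c469x⟩, ⟨.ofNat 0, .ofNat 1, c470x⟩⟩, [784, 785, 786]⟩, ⟨c468x, c468x, c8x, c546x, c14x, c545x⟩⟩])) (.node ⟨c41x, c49x, c4x, c43x⟩ ⟨c14x, c468x, c8x, c473x, c14x, c545x⟩ (.leaf ⟨c41x, c46x, c4x, c43x⟩ ⟨c650x, c468x, c546x, c473x, c14x, c545x⟩ [
    ⟨⟨⟨⟨c41x, c42x, c4x, c43x⟩, ⟨.ofNat 0, .ofNat 0, c468x⟩, ⟨.ofNat 1, .ofNat 0, c469x⟩, ⟨.ofNat 0, .ofNat 1, c470x⟩⟩, [37, 38, 784]⟩, ⟨c468x, c468x, c546x, c524x, c14x, c545x⟩⟩,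
    ⟨⟨⟨⟨c44x, c45x, c4x, c43x⟩, ⟨.ofNat 0, .ofNat 0, c468x⟩, ⟨.ofNat 1, .ofNat 0, c469x⟩, ⟨.ofNat 0, .ofNat 1, c470x⟩⟩, [38, 39, 41, 42, 784]⟩, ⟨c468x, c468x, c583x, c582x, c14x, c545x⟩⟩,
    ⟨⟨⟨⟨c27x, c46x, c4x, c43x⟩, ⟨.negSucc 0, .ofNat 0, c28x⟩, ⟨.ofNat 0, .ofNat 0, c473x⟩, ⟨.ofNat 0, .ofNat 1, c470x⟩⟩, [42, 43, 44, 784]⟩, ⟨c650x, c468x, c473x, c473x, c14x, c545x⟩⟩]) (.leaf ⟨c46x, c49x, c4x, c43x⟩ ⟨c14x, c650x, c8x, c473x, c14x, c545x⟩ [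
    ⟨⟨⟨⟨c46x, c28x, c4x, c43x⟩, ⟨.negSucc 0, .ofNat 0, c28x⟩, ⟨.ofNat 0, .ofNat 0, c473x⟩, ⟨.ofNat 0, .ofNat 1, c470x⟩⟩, [54, 55, 56, 784]⟩, ⟨c14x, c650x, c473x, c473x, c14x, c545x⟩⟩,
    ⟨⟨⟨⟨c35x, c47x, c4x, c43x⟩, ⟨.ofNat 0, .ofNat 0, c14x⟩, ⟨.negSucc 0, .ofNat 0, c57x⟩, ⟨.ofNat 0, .ofNat 1, c470x⟩⟩, [58, 59, 60, 784]⟩, ⟨c14x, c14x, c524x, c579x, c14x, c545x⟩⟩,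
    ⟨⟨⟨⟨c47x, c48x, c4x, c43x⟩, ⟨.ofNat 0, .ofNat 0, c14x⟩, ⟨.negSucc 0, .ofNat 0, c57x⟩, ⟨.ofNat 0, .ofNat 1, c470x⟩⟩, [784]⟩, ⟨c14x, c14x, c546x, c524x, c14x, c545x⟩⟩,
    ⟨⟨⟨⟨c48x, c49x, c4x, c43x⟩, ⟨.ofNat 0, .ofNat 0, c14x⟩, ⟨.negSucc 0, .ofNat 0, c57x⟩, ⟨.ofNat 0, .ofNat 1, c470x⟩⟩, [69, 70, 783, 784]⟩, ⟨c14x, c14x, c8x, c546x, c14x, c545x⟩⟩]))))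

def n001x : QT :=
  .node ⟨c42x, c123x, c19x, c119x⟩ ⟨c14x, c468x, c14x, c473x, c531x, c548x⟩ (.node ⟨c42x, c86x, c19x, c79x⟩ ⟨c14x, c468x, c14x, c473x, c531x, c544x⟩ (.node ⟨c42x, c69x, c19x, c66x⟩ ⟨c14x, c468x, c14x, c473x, c531x, c538x⟩ (.node ⟨c42x, c59x, c19x, c58x⟩ ⟨c14x, c468x, c14x, c473x, c531x, c536x⟩ (.leaf ⟨c42x, c35x, c19x, c43x⟩ ⟨c14x, c468x, c524x, c473x, c531x, c545x⟩ [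
    ⟨⟨⟨⟨c42x, c44x, c19x, c43x⟩, ⟨.ofNat 0, .ofNat 0, c468x⟩, ⟨.ofNat 1, .ofNat 0, c469x⟩, ⟨.ofNat 0, .ofNat 1, c470x⟩⟩, [37, 38, 39, 784]⟩, ⟨c468x, c468x, c524x, c583x, c531x, c545x⟩⟩,
    ⟨⟨⟨⟨c45x, c27x, c22x, c43x⟩, ⟨.ofNat 0, .ofNat 0, c468x⟩, ⟨.ofNat 1, .ofNat 0, c469x⟩, ⟨.ofNat 0, .ofNat 1, c470x⟩⟩, [41, 42, 43, 784]⟩, ⟨c468x, c468x, c582x, c473x, c529x, c545x⟩⟩,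
    ⟨⟨⟨⟨c29x, c35x, c37x, c43x⟩, ⟨.ofNat 0, .ofNat 0, c14x⟩, ⟨.negSucc 0, .ofNat 0, c57x⟩, ⟨.ofNat 0, .ofNat 1, c470x⟩⟩, [56, 57, 58, 59, 784]⟩, ⟨c14x, c14x, c579x, c581x, c19x, c545x⟩⟩]) (.leaf ⟨c28x, c59x, c40x, c58x⟩ ⟨c14x, c468x, c14x, c473x, c528x, c536x⟩ [
    ⟨⟨⟨⟨c28x, c29x, c40x, c43x⟩, ⟨.ofNat 0, .ofNat 0, c14x⟩, ⟨.negSucc 0, .ofNat 0, c57x⟩, ⟨.ofNat 0, .ofNat 1, c470x⟩⟩, [55, 56, 57, 784]⟩, ⟨c14x, c14x, c581x, c473x, c528x, c545x⟩⟩,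
    ⟨⟨⟨⟨c50x, c51x, c13x, c52x⟩, ⟨.ofNat 0, .ofNat 0, c468x⟩, ⟨.ofNat 1, .ofNat 0, c474x⟩, ⟨.ofNat 0, .ofNat 1, c470x⟩⟩, [70, 759, 760, 761]⟩, ⟨c468x, c468x, c14x, c529x, c526x, c618x⟩⟩,
    ⟨⟨⟨⟨c56x, c57x, c13x, c58x⟩, ⟨.ofNat 0, .ofNat 0, c14x⟩, ⟨.negSucc 0, .ofNat 0, c57x⟩, ⟨.ofNat 0, .ofNat 1, c470x⟩⟩, [70, 773, 774, 775]⟩, ⟨c14x, c14x, c14x, c528x, c526x, c536x⟩⟩,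
    ⟨⟨⟨⟨c51x, c59x, c13x, c60x⟩, ⟨.ofNat 0, .ofNat 0, c468x⟩, ⟨.ofNat 1, .ofNat 0, c474x⟩, ⟨.ofNat 0, .ofNat 1, c470x⟩⟩, [70, 757, 758, 759, 760]⟩, ⟨c468x, c468x, c529x, c533x, c526x, c620x⟩⟩])) (.node ⟨c49x, c69x, c13x, c66x⟩ ⟨c14x, c468x, c14x, c8x, c526x, c538x⟩ (.leaf ⟨c49x, c54x, c13x, c63x⟩ ⟨c14x, c14x, c527x, c8x, c526x, c540x⟩ [
    ⟨⟨⟨⟨c49x, c61x, c13x, c62x⟩, ⟨.ofNat 0, .ofNat 0, c14x⟩, ⟨.negSucc 0, .ofNat 0, c57x⟩, ⟨.ofNat 0, .ofNat 1, c470x⟩⟩, [69, 70, 781, 782, 783, 784]⟩, ⟨c14x, c14x, c534x, c8x, c526x, c73x⟩⟩,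
    ⟨⟨⟨⟨c61x, c53x, c13x, c63x⟩, ⟨.ofNat 0, .ofNat 0, c14x⟩, ⟨.negSucc 0, .ofNat 0, c57x⟩, ⟨.ofNat 0, .ofNat 1, c470x⟩⟩, [70, 778, 779, 780, 781, 782]⟩, ⟨c14x, c14x, c530x, c534x, c526x, c540x⟩⟩,
    ⟨⟨⟨⟨c53x, c54x, c13x, c55x⟩, ⟨.ofNat 0, .ofNat 0, c14x⟩, ⟨.negSucc 0, .ofNat 0, c57x⟩, ⟨.ofNat 0, .ofNat 1, c470x⟩⟩, [70, 777, 778, 779]⟩, ⟨c14x, c14x, c527x, c530x, c526x, c60x⟩⟩]) (.leaf ⟨c54x, c69x, c13x, c66x⟩ ⟨c14x, c468x, c14x, c8x, c526x, c538x⟩ [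
    ⟨⟨⟨⟨c54x, c56x, c13x, c64x⟩, ⟨.ofNat 0, .ofNat 0, c14x⟩, ⟨.negSucc 0, .ofNat 0, c57x⟩, ⟨.ofNat 0, .ofNat 1, c470x⟩⟩, [70, 774, 775, 776, 777, 778]⟩, ⟨c14x, c14x, c528x, c527x, c526x, c539x⟩⟩,
    ⟨⟨⟨⟨c57x, c65x, c13x, c66x⟩, ⟨.ofNat 1, .ofNat 0, c475x⟩, ⟨.ofNat 0, .ofNat 0, c14x⟩, ⟨.ofNat 0, .ofNat 1, c470x⟩⟩, [70, 769, 770, 772, 773, 774]⟩, ⟨c14x, c649x, c14x, c14x, c526x, c538x⟩⟩,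
    ⟨⟨⟨⟨c67x, c68x, c13x, c64x⟩, ⟨.ofNat 0, .ofNat 0, c468x⟩, ⟨.ofNat 1, .ofNat 0, c474x⟩, ⟨.ofNat 0, .ofNat 1, c470x⟩⟩, [70, 749, 750, 751]⟩, ⟨c468x, c468x, c530x, c534x, c526x, c539x⟩⟩,
    ⟨⟨⟨⟨c68x, c69x, c13x, c62x⟩, ⟨.ofNat 0, .ofNat 0, c468x⟩, ⟨.ofNat 1, .ofNat 0, c474x⟩, ⟨.ofNat 0, .ofNat 1, c470x⟩⟩, [70, 71, 72, 747, 748, 749, 750]⟩, ⟨c468x, c468x, c534x, c8x, c526x, c73x⟩⟩]))) (.node ⟨c72x, c86x, c13x, c79x⟩ ⟨c14x, c468x, c14x, c473x, c526x, c544x⟩ (.node ⟨c72x, c476x, c13x, c79x⟩ ⟨c14x, c468x, c14x, c473x, c526x, c544x⟩ (.leaf ⟨c65x, c67x, c13x, c70x⟩ ⟨c649x, c468x, c14x, c530x, c526x, c619x⟩ [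
    ⟨⟨⟨⟨c59x, c67x, c13x, c71x⟩, ⟨.ofNat 0, .ofNat 0, c468x⟩, ⟨.ofNat 1, .ofNat 0, c474x⟩, ⟨.ofNat 0, .ofNat 1, c470x⟩⟩, [70, 750, 751, 752, 756, 757, 758]⟩, ⟨c468x, c468x, c533x, c530x, c526x, c623x⟩⟩,
    ⟨⟨⟨⟨c65x, c50x, c13x, c70x⟩, ⟨.ofNat 1, .ofNat 0, c475x⟩, ⟨.ofNat 0, .ofNat 0, c14x⟩, ⟨.ofNat 0, .ofNat 1, c470x⟩⟩, [70, 760, 761, 762, 768, 769, 770]⟩, ⟨c649x, c468x, c14x, c14x, c526x, c619x⟩⟩,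
    ⟨⟨⟨⟨c77x, c59x, c58x, c71x⟩, ⟨.ofNat 0, .ofNat 0, c468x⟩, ⟨.ofNat 1, .ofNat 0, c474x⟩, ⟨.ofNat 0, .ofNat 1, c470x⟩⟩, [752, 754, 755, 756, 757]⟩, ⟨c468x, c468x, c532x, c533x, c536x, c623x⟩⟩]) (.leaf ⟨c72x, c476x, c43x, c79x⟩ ⟨c14x, c468x, c14x, c473x, c545x, c544x⟩ [
    ⟨⟨⟨⟨c72x, c57x, c73x, c66x⟩, ⟨.ofNat 0, .ofNat 0, c14x⟩, ⟨.negSucc 0, .ofNat 0, c57x⟩, ⟨.ofNat 0, .ofNat 1, c470x⟩⟩, [770, 771, 772, 773]⟩, ⟨c14x, c14x, c14x, c529x, c537x, c538x⟩⟩,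
    ⟨⟨⟨⟨c74x, c75x, c73x, c76x⟩, ⟨.ofNat 0, .ofNat 0, c468x⟩, ⟨.ofNat 1, .ofNat 0, c474x⟩, ⟨.ofNat 0, .ofNat 1, c470x⟩⟩, [762, 763, 764, 765]⟩, ⟨c468x, c468x, c19x, c528x, c537x, c622x⟩⟩,
    ⟨⟨⟨⟨c89x, c77x, c63x, c71x⟩, ⟨.ofNat 0, .ofNat 0, c468x⟩, ⟨.ofNat 1, .ofNat 0, c474x⟩, ⟨.ofNat 0, .ofNat 1, c470x⟩⟩, [752, 753, 754, 755]⟩, ⟨c468x, c468x, c527x, c532x, c540x, c623x⟩⟩,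
    ⟨⟨⟨⟨c69x, c476x, c43x, c79x⟩, ⟨.ofNat 0, .ofNat 0, c468x⟩, ⟨.ofNat 1, .ofNat 0, c474x⟩, ⟨.ofNat 0, .ofNat 1, c470x⟩⟩, [71, 72, 746, 747, 748]⟩, ⟨c468x, c468x, c8x, c473x, c545x, c544x⟩⟩])) (.node ⟨c476x, c86x, c43x, c79x⟩ ⟨c14x, c468x, c14x, c473x, c545x, c544x⟩ (.leaf ⟨c476x, c81x, c43x, c79x⟩ ⟨c14x, c468x, c14x, c473x, c545x, c544x⟩ [
    ⟨⟨⟨⟨c476x, c477x, c43x, c79x⟩, ⟨.negSucc 0, .ofNat 0, c477x⟩, ⟨.ofNat 0, .ofNat 0, c473x⟩, ⟨.ofNat 0, .ofNat 1, c470x⟩⟩, [72, 746]⟩, ⟨c14x, c468x, c473x, c473x, c545x, c544x⟩⟩,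
    ⟨⟨⟨⟨c477x, c78x, c43x, c79x⟩, ⟨.ofNat 0, .ofNat 0, c14x⟩, ⟨.negSucc 0, .ofNat 0, c81x⟩, ⟨.ofNat 0, .ofNat 1, c470x⟩⟩, [72, 73, 74, 745, 746]⟩, ⟨c14x, c14x, c8x, c473x, c545x, c544x⟩⟩,
    ⟨⟨⟨⟨c80x, c81x, c58x, c73x⟩, ⟨.ofNat 0, .ofNat 0, c14x⟩, ⟨.negSucc 0, .ofNat 0, c81x⟩, ⟨.ofNat 0, .ofNat 1, c470x⟩⟩, [82, 83, 84, 85]⟩, ⟨c14x, c14x, c14x, c529x, c536x, c537x⟩⟩]) (.leaf ⟨c82x, c86x, c52x, c63x⟩ ⟨c468x, c468x, c14x, c533x, c618x, c540x⟩ [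
    ⟨⟨⟨⟨c82x, c83x, c52x, c73x⟩, ⟨.ofNat 0, .ofNat 0, c468x⟩, ⟨.ofNat 1, .ofNat 0, c478x⟩, ⟨.ofNat 0, .ofNat 1, c470x⟩⟩, [94, 95, 96, 97, 98]⟩, ⟨c468x, c468x, c14x, c529x, c618x, c537x⟩⟩,
    ⟨⟨⟨⟨c83x, c84x, c60x, c73x⟩, ⟨.ofNat 0, .ofNat 0, c468x⟩, ⟨.ofNat 1, .ofNat 0, c478x⟩, ⟨.ofNat 0, .ofNat 1, c470x⟩⟩, [93, 94, 97, 98]⟩, ⟨c468x, c468x, c529x, c528x, c620x, c537x⟩⟩,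
    ⟨⟨⟨⟨c85x, c86x, c60x, c58x⟩, ⟨.ofNat 0, .ofNat 0, c468x⟩, ⟨.ofNat 1, .ofNat 0, c478x⟩, ⟨.ofNat 0, .ofNat 1, c470x⟩⟩, [98, 99, 100, 101]⟩, ⟨c468x, c468x, c532x, c533x, c620x, c536x⟩⟩,
    ⟨⟨⟨⟨c87x, c85x, c60x, c63x⟩, ⟨.ofNat 0, .ofNat 0, c468x⟩, ⟨.ofNat 1, .ofNat 0, c478x⟩, ⟨.ofNat 0, .ofNat 1, c470x⟩⟩, [98, 100, 101, 102, 103]⟩, ⟨c468x, c468x, c527x, c532x, c620x, c540x⟩⟩])))) (.node ⟨c50x, c123x, c60x, c119x⟩ ⟨c14x, c468x, c14x, c473x, c620x, c548x⟩ (.node ⟨c50x, c98x, c60x, c91x⟩ ⟨c14x, c468x, c14x, c8x, c620x, c535x⟩ (.node ⟨c50x, c80x, c58x, c91x⟩ ⟨c14x, c468x, c14x, c8x, c536x, c535x⟩ (.leaf ⟨c50x, c80x, c58x, c91x⟩ ⟨c14x, c468x, c14x, c528x, c536x, c535x⟩ [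
    ⟨⟨⟨⟨c50x, c51x, c73x, c70x⟩, ⟨.ofNat 0, .ofNat 0, c468x⟩, ⟨.ofNat 1, .ofNat 0, c474x⟩, ⟨.ofNat 0, .ofNat 1, c470x⟩⟩, [761, 762, 767, 768]⟩, ⟨c468x, c468x, c14x, c529x, c537x, c619x⟩⟩,
    ⟨⟨⟨⟨c51x, c74x, c73x, c88x⟩, ⟨.ofNat 0, .ofNat 0, c468x⟩, ⟨.ofNat 1, .ofNat 0, c474x⟩, ⟨.ofNat 0, .ofNat 1, c470x⟩⟩, [762, 764, 765, 766, 767, 768]⟩, ⟨c468x, c468x, c529x, c19x, c537x, c621x⟩⟩,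
    ⟨⟨⟨⟨c94x, c80x, c58x, c91x⟩, ⟨.ofNat 0, .ofNat 0, c14x⟩, ⟨.negSucc 0, .ofNat 0, c81x⟩, ⟨.ofNat 0, .ofNat 1, c470x⟩⟩, [80, 81, 82, 84, 85, 86, 744]⟩, ⟨c14x, c14x, c529x, c528x, c536x, c535x⟩⟩]) (.leaf ⟨c78x, c94x, c55x, c91x⟩ ⟨c14x, c14x, c528x, c8x, c60x, c535x⟩ [
    ⟨⟨⟨⟨c78x, c90x, c62x, c91x⟩, ⟨.ofNat 0, .ofNat 0, c14x⟩, ⟨.negSucc 0, .ofNat 0, c81x⟩, ⟨.ofNat 0, .ofNat 1, c470x⟩⟩, [73, 74, 75, 76, 744, 745, 746]⟩, ⟨c14x, c14x, c534x, c8x, c73x, c535x⟩⟩,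
    ⟨⟨⟨⟨c90x, c92x, c63x, c91x⟩, ⟨.ofNat 0, .ofNat 0, c14x⟩, ⟨.negSucc 0, .ofNat 0, c81x⟩, ⟨.ofNat 0, .ofNat 1, c470x⟩⟩, [75, 76, 77, 744]⟩, ⟨c14x, c14x, c530x, c534x, c540x, c535x⟩⟩,
    ⟨⟨⟨⟨c92x, c93x, c55x, c91x⟩, ⟨.ofNat 0, .ofNat 0, c14x⟩, ⟨.negSucc 0, .ofNat 0, c81x⟩, ⟨.ofNat 0, .ofNat 1, c470x⟩⟩, [76, 77, 78, 79, 80, 744]⟩, ⟨c14x, c14x, c527x, c530x, c60x, c535x⟩⟩,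
    ⟨⟨⟨⟨c93x, c94x, c64x, c91x⟩, ⟨.ofNat 0, .ofNat 0, c14x⟩, ⟨.negSucc 0, .ofNat 0, c81x⟩, ⟨.ofNat 0, .ofNat 1, c470x⟩⟩, [79, 80, 81, 744]⟩, ⟨c14x, c14x, c528x, c527x, c539x, c535x⟩⟩])) (.node ⟨c80x, c98x, c60x, c91x⟩ ⟨c14x, c468x, c14x, c8x, c620x, c535x⟩ (.leaf ⟨c80x, c84x, c76x, c91x⟩ ⟨c14x, c468x, c14x, c528x, c622x, c535x⟩ [
    ⟨⟨⟨⟨c80x, c81x, c66x, c91x⟩, ⟨.ofNat 0, .ofNat 0, c14x⟩, ⟨.negSucc 0, .ofNat 0, c81x⟩, ⟨.ofNat 0, .ofNat 1, c470x⟩⟩, [85, 86, 744]⟩, ⟨c14x, c14x, c14x, c529x, c538x, c535x⟩⟩,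
    ⟨⟨⟨⟨c81x, c99x, c66x, c91x⟩, ⟨.ofNat 1, .ofNat 0, c479x⟩, ⟨.ofNat 0, .ofNat 0, c14x⟩, ⟨.ofNat 0, .ofNat 1, c470x⟩⟩, [86, 87, 88, 744]⟩, ⟨c14x, c649x, c14x, c14x, c538x, c535x⟩⟩,
    ⟨⟨⟨⟨c95x, c84x, c76x, c91x⟩, ⟨.ofNat 0, .ofNat 0, c468x⟩, ⟨.ofNat 1, .ofNat 0, c478x⟩, ⟨.ofNat 0, .ofNat 1, c470x⟩⟩, [90, 91, 92, 93, 744]⟩, ⟨c468x, c468x, c19x, c528x, c622x, c535x⟩⟩]) (.leaf ⟨c84x, c98x, c60x, c91x⟩ ⟨c468x, c468x, c528x, c8x, c620x, c535x⟩ [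
    ⟨⟨⟨⟨c84x, c87x, c60x, c91x⟩, ⟨.ofNat 0, .ofNat 0, c468x⟩, ⟨.ofNat 1, .ofNat 0, c478x⟩, ⟨.ofNat 0, .ofNat 1, c470x⟩⟩, [92, 93, 94, 98, 102, 103, 104, 744]⟩, ⟨c468x, c468x, c528x, c527x, c620x, c535x⟩⟩,
    ⟨⟨⟨⟨c87x, c96x, c71x, c91x⟩, ⟨.ofNat 0, .ofNat 0, c468x⟩, ⟨.ofNat 1, .ofNat 0, c478x⟩, ⟨.ofNat 0, .ofNat 1, c470x⟩⟩, [103, 104, 105, 744]⟩, ⟨c468x, c468x, c527x, c530x, c623x, c535x⟩⟩,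
    ⟨⟨⟨⟨c96x, c97x, c64x, c91x⟩, ⟨.ofNat 0, .ofNat 0, c468x⟩, ⟨.ofNat 1, .ofNat 0, c478x⟩, ⟨.ofNat 0, .ofNat 1, c470x⟩⟩, [104, 105, 106, 107, 108, 744]⟩, ⟨c468x, c468x, c530x, c534x, c539x, c535x⟩⟩,
    ⟨⟨⟨⟨c97x, c98x, c62x, c91x⟩, ⟨.ofNat 0, .ofNat 0, c468x⟩, ⟨.ofNat 1, .ofNat 0, c478x⟩, ⟨.ofNat 0, .ofNat 1, c470x⟩⟩, [107, 108, 109, 110, 743, 744]⟩, ⟨c468x, c468x, c534x, c8x, c73x, c535x⟩⟩]))) (.node ⟨c99x, c123x, c70x, c119x⟩ ⟨c14x, c468x, c14x, c473x, c619x, c548x⟩ (.node ⟨c99x, c114x, c70x, c115x⟩ ⟨c14x, c468x, c14x, c473x, c619x, c584x⟩ (.leaf ⟨c99x, c95x, c70x, c91x⟩ ⟨c649x, c468x, c14x, c19x, c619x, c535x⟩ [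
    ⟨⟨⟨⟨c99x, c82x, c70x, c91x⟩, ⟨.ofNat 1, .ofNat 0, c479x⟩, ⟨.ofNat 0, .ofNat 0, c14x⟩, ⟨.ofNat 0, .ofNat 1, c470x⟩⟩, [87, 88, 744]⟩, ⟨c649x, c468x, c14x, c14x, c619x, c535x⟩⟩,
    ⟨⟨⟨⟨c82x, c83x, c70x, c91x⟩, ⟨.ofNat 0, .ofNat 0, c468x⟩, ⟨.ofNat 1, .ofNat 0, c478x⟩, ⟨.ofNat 0, .ofNat 1, c470x⟩⟩, [88, 89, 90, 744]⟩, ⟨c468x, c468x, c14x, c529x, c619x, c535x⟩⟩,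
    ⟨⟨⟨⟨c83x, c95x, c88x, c91x⟩, ⟨.ofNat 0, .ofNat 0, c468x⟩, ⟨.ofNat 1, .ofNat 0, c478x⟩, ⟨.ofNat 0, .ofNat 1, c470x⟩⟩, [89, 90, 91, 744]⟩, ⟨c468x, c468x, c529x, c19x, c621x, c535x⟩⟩]) (.leaf ⟨c108x, c114x, c79x, c115x⟩ ⟨c14x, c650x, c524x, c473x, c544x, c584x⟩ [
    ⟨⟨⟨⟨c108x, c136x, c79x, c110x⟩, ⟨.negSucc 0, .ofNat 0, c136x⟩, ⟨.ofNat 0, .ofNat 0, c473x⟩, ⟨.ofNat 0, .ofNat 1, c470x⟩⟩, [110, 728, 729]⟩, ⟨c14x, c650x, c473x, c473x, c544x, c590x⟩⟩,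
    ⟨⟨⟨⟨c136x, c100x, c79x, c110x⟩, ⟨.ofNat 0, .ofNat 0, c14x⟩, ⟨.negSucc 0, .ofNat 0, c480x⟩, ⟨.ofNat 0, .ofNat 1, c470x⟩⟩, [110, 726, 727, 728]⟩, ⟨c14x, c14x, c581x, c473x, c544x, c590x⟩⟩,
    ⟨⟨⟨⟨c100x, c101x, c79x, c102x⟩, ⟨.ofNat 0, .ofNat 0, c14x⟩, ⟨.negSucc 0, .ofNat 0, c480x⟩, ⟨.ofNat 0, .ofNat 1, c470x⟩⟩, [110, 725, 726, 727]⟩, ⟨c14x, c14x, c587x, c581x, c544x, c589x⟩⟩,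
    ⟨⟨⟨⟨c113x, c114x, c79x, c115x⟩, ⟨.ofNat 0, .ofNat 0, c14x⟩, ⟨.negSucc 0, .ofNat 0, c480x⟩, ⟨.ofNat 0, .ofNat 1, c470x⟩⟩, [110, 711, 712, 713]⟩, ⟨c14x, c14x, c524x, c583x, c544x, c584x⟩⟩])) (.node ⟨c98x, c123x, c79x, c119x⟩ ⟨c14x, c468x, c8x, c473x, c544x, c548x⟩ (.leaf ⟨c98x, c118x, c79x, c119x⟩ ⟨c468x, c468x, c8x, c582x, c544x, c548x⟩ [
    ⟨⟨⟨⟨c98x, c103x, c79x, c104x⟩, ⟨.ofNat 0, .ofNat 0, c468x⟩, ⟨.ofNat 1, .ofNat 0, c478x⟩, ⟨.ofNat 0, .ofNat 1, c470x⟩⟩, [109, 110, 740, 741, 742, 743, 744]⟩, ⟨c468x, c468x, c8x, c546x, c544x, c547x⟩⟩,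
    ⟨⟨⟨⟨c103x, c105x, c79x, c106x⟩, ⟨.ofNat 0, .ofNat 0, c468x⟩, ⟨.ofNat 1, .ofNat 0, c478x⟩, ⟨.ofNat 0, .ofNat 1, c470x⟩⟩, [110, 739, 740, 741]⟩, ⟨c468x, c468x, c546x, c524x, c544x, c586x⟩⟩,
    ⟨⟨⟨⟨c116x, c118x, c79x, c119x⟩, ⟨.ofNat 0, .ofNat 0, c468x⟩, ⟨.ofNat 1, .ofNat 0, c478x⟩, ⟨.ofNat 0, .ofNat 1, c470x⟩⟩, [110, 735, 736, 737]⟩, ⟨c468x, c468x, c583x, c582x, c544x, c548x⟩⟩]) (.leaf ⟨c107x, c123x, c79x, c104x⟩ ⟨c14x, c468x, c8x, c473x, c544x, c547x⟩ [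
    ⟨⟨⟨⟨c107x, c135x, c79x, c109x⟩, ⟨.ofNat 0, .ofNat 0, c468x⟩, ⟨.ofNat 1, .ofNat 0, c478x⟩, ⟨.ofNat 0, .ofNat 1, c470x⟩⟩, [110, 730, 731]⟩, ⟨c468x, c468x, c581x, c473x, c544x, c633x⟩⟩,
    ⟨⟨⟨⟨c135x, c108x, c79x, c109x⟩, ⟨.negSucc 0, .ofNat 0, c136x⟩, ⟨.ofNat 0, .ofNat 0, c473x⟩, ⟨.ofNat 0, .ofNat 1, c470x⟩⟩, [110, 728, 729, 730]⟩, ⟨c650x, c468x, c473x, c473x, c544x, c633x⟩⟩,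
    ⟨⟨⟨⟨c101x, c111x, c79x, c112x⟩, ⟨.ofNat 0, .ofNat 0, c14x⟩, ⟨.negSucc 0, .ofNat 0, c480x⟩, ⟨.ofNat 0, .ofNat 1, c470x⟩⟩, [110, 723, 724, 725, 726]⟩, ⟨c14x, c14x, c582x, c587x, c544x, c588x⟩⟩,
    ⟨⟨⟨⟨c122x, c123x, c79x, c104x⟩, ⟨.ofNat 0, .ofNat 0, c14x⟩, ⟨.negSucc 0, .ofNat 0, c480x⟩, ⟨.ofNat 0, .ofNat 1, c470x⟩⟩, [110, 111, 112, 707, 708, 709]⟩, ⟨c14x, c14x, c8x, c546x, c544x, c547x⟩⟩]))))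

def n00x : QT :=
  .node ⟨c14x, c123x, c6x, c119x⟩ ⟨c14x, c468x, c14x, c473x, c14x, c548x⟩ (n000x) (n001x)

def n010x : QT :=
  .node ⟨c105x, c175x, c79x, c168x⟩ ⟨c14x, c468x, c14x, c473x, c544x, c542x⟩ (.node ⟨c105x, c149x, c79x, c142x⟩ ⟨c14x, c468x, c14x, c473x, c544x, c543x⟩ (.node ⟨c105x, c140x, c79x, c125x⟩ ⟨c14x, c468x, c14x, c473x, c544x, c541x⟩ (.node ⟨c105x, c481x, c79x, c125x⟩ ⟨c14x, c468x, c14x, c581x, c544x, c541x⟩ (.leaf ⟨c105x, c122x, c79x, c120x⟩ ⟨c14x, c468x, c546x, c581x, c544x, c585x⟩ [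
    ⟨⟨⟨⟨c105x, c116x, c79x, c117x⟩, ⟨.ofNat 0, .ofNat 0, c468x⟩, ⟨.ofNat 1, .ofNat 0, c478x⟩, ⟨.ofNat 0, .ofNat 1, c470x⟩⟩, [110, 736, 737, 738, 739, 740]⟩, ⟨c468x, c468x, c524x, c583x, c544x, c632x⟩⟩,
    ⟨⟨⟨⟨c118x, c107x, c79x, c120x⟩, ⟨.ofNat 0, .ofNat 0, c468x⟩, ⟨.ofNat 1, .ofNat 0, c478x⟩, ⟨.ofNat 0, .ofNat 1, c470x⟩⟩, [110, 730, 731, 732, 734, 735, 736]⟩, ⟨c468x, c468x, c582x, c581x, c544x, c585x⟩⟩,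
    ⟨⟨⟨⟨c114x, c122x, c79x, c119x⟩, ⟨.ofNat 0, .ofNat 0, c14x⟩, ⟨.negSucc 0, .ofNat 0, c480x⟩, ⟨.ofNat 0, .ofNat 1, c470x⟩⟩, [110, 708, 709, 710, 711, 712]⟩, ⟨c14x, c14x, c546x, c524x, c544x, c548x⟩⟩]) (.leaf ⟨c111x, c481x, c79x, c125x⟩ ⟨c14x, c468x, c14x, c582x, c544x, c541x⟩ [
    ⟨⟨⟨⟨c111x, c113x, c79x, c121x⟩, ⟨.ofNat 0, .ofNat 0, c14x⟩, ⟨.negSucc 0, .ofNat 0, c480x⟩, ⟨.ofNat 0, .ofNat 1, c470x⟩⟩, [110, 712, 713, 714, 718, 722, 723, 724]⟩, ⟨c14x, c14x, c583x, c582x, c544x, c117x⟩⟩,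
    ⟨⟨⟨⟨c123x, c480x, c91x, c125x⟩, ⟨.ofNat 0, .ofNat 0, c14x⟩, ⟨.negSucc 0, .ofNat 0, c480x⟩, ⟨.ofNat 0, .ofNat 1, c470x⟩⟩, [111, 112, 706, 707, 708]⟩, ⟨c14x, c14x, c14x, c8x, c535x, c541x⟩⟩,
    ⟨⟨⟨⟨c113x, c138x, c106x, c121x⟩, ⟨.ofNat 0, .ofNat 0, c14x⟩, ⟨.negSucc 0, .ofNat 0, c480x⟩, ⟨.ofNat 0, .ofNat 1, c470x⟩⟩, [713, 714, 715, 716, 718]⟩, ⟨c14x, c14x, c580x, c583x, c586x, c117x⟩⟩,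
    ⟨⟨⟨⟨c480x, c481x, c91x, c125x⟩, ⟨.ofNat 1, .ofNat 0, c482x⟩, ⟨.ofNat 0, .ofNat 0, c14x⟩, ⟨.ofNat 0, .ofNat 1, c470x⟩⟩, [112, 706]⟩, ⟨c14x, c468x, c14x, c14x, c535x, c541x⟩⟩])) (.node ⟨c481x, c140x, c91x, c125x⟩ ⟨c14x, c468x, c14x, c473x, c535x, c541x⟩ (.leaf ⟨c481x, c130x, c91x, c125x⟩ ⟨c14x, c468x, c14x, c473x, c535x, c541x⟩ [
    ⟨⟨⟨⟨c481x, c124x, c91x, c125x⟩, ⟨.ofNat 0, .ofNat 0, c468x⟩, ⟨.ofNat 1, .ofNat 0, c483x⟩, ⟨.ofNat 0, .ofNat 1, c470x⟩⟩, [112, 113, 114, 705, 706]⟩, ⟨c468x, c468x, c14x, c8x, c535x, c541x⟩⟩,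
    ⟨⟨⟨⟨c126x, c127x, c109x, c128x⟩, ⟨.ofNat 0, .ofNat 0, c468x⟩, ⟨.ofNat 1, .ofNat 0, c483x⟩, ⟨.ofNat 0, .ofNat 1, c470x⟩⟩, [123, 124, 125, 126]⟩, ⟨c468x, c468x, c581x, c473x, c633x, c104x⟩⟩,
    ⟨⟨⟨⟨c129x, c130x, c110x, c128x⟩, ⟨.ofNat 0, .ofNat 0, c14x⟩, ⟨.negSucc 0, .ofNat 0, c484x⟩, ⟨.ofNat 0, .ofNat 1, c470x⟩⟩, [128, 129, 134, 135]⟩, ⟨c14x, c14x, c581x, c473x, c590x, c104x⟩⟩]) (.leaf ⟨c130x, c140x, c102x, c120x⟩ ⟨c14x, c14x, c579x, c581x, c589x, c585x⟩ [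
    ⟨⟨⟨⟨c130x, c131x, c102x, c128x⟩, ⟨.ofNat 0, .ofNat 0, c14x⟩, ⟨.negSucc 0, .ofNat 0, c484x⟩, ⟨.ofNat 0, .ofNat 1, c470x⟩⟩, [128, 129, 130, 131, 132, 134]⟩, ⟨c14x, c14x, c587x, c581x, c589x, c104x⟩⟩,
    ⟨⟨⟨⟨c131x, c132x, c112x, c128x⟩, ⟨.ofNat 0, .ofNat 0, c14x⟩, ⟨.negSucc 0, .ofNat 0, c484x⟩, ⟨.ofNat 0, .ofNat 1, c470x⟩⟩, [131, 132, 133, 134]⟩, ⟨c14x, c14x, c582x, c587x, c588x, c104x⟩⟩,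
    ⟨⟨⟨⟨c133x, c134x, c115x, c106x⟩, ⟨.ofNat 0, .ofNat 0, c14x⟩, ⟨.negSucc 0, .ofNat 0, c484x⟩, ⟨.ofNat 0, .ofNat 1, c470x⟩⟩, [141, 142, 143, 144]⟩, ⟨c14x, c14x, c580x, c583x, c584x, c586x⟩⟩,
    ⟨⟨⟨⟨c134x, c140x, c115x, c120x⟩, ⟨.ofNat 0, .ofNat 0, c14x⟩, ⟨.negSucc 0, .ofNat 0, c484x⟩, ⟨.ofNat 0, .ofNat 1, c470x⟩⟩, [139, 140, 141, 142, 144]⟩, ⟨c14x, c14x, c579x, c580x, c584x, c585x⟩⟩]))) (.node ⟨c107x, c149x, c110x, c142x⟩ ⟨c14x, c468x, c8x, c473x, c590x, c543x⟩ (.node ⟨c107x, c146x, c106x, c142x⟩ ⟨c14x, c468x, c8x, c473x, c586x, c543x⟩ (.leaf ⟨c107x, c111x, c128x, c137x⟩ ⟨c14x, c468x, c582x, c473x, c104x, c591x⟩ [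
    ⟨⟨⟨⟨c107x, c135x, c128x, c120x⟩, ⟨.ofNat 0, .ofNat 0, c468x⟩, ⟨.ofNat 1, .ofNat 0, c478x⟩, ⟨.ofNat 0, .ofNat 1, c470x⟩⟩, [731, 732, 733, 734]⟩, ⟨c468x, c468x, c581x, c473x, c104x, c585x⟩⟩,
    ⟨⟨⟨⟨c136x, c100x, c128x, c137x⟩, ⟨.ofNat 0, .ofNat 0, c14x⟩, ⟨.negSucc 0, .ofNat 0, c480x⟩, ⟨.ofNat 0, .ofNat 1, c470x⟩⟩, [718, 719, 720, 721, 722]⟩, ⟨c14x, c14x, c581x, c473x, c104x, c591x⟩⟩,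
    ⟨⟨⟨⟨c100x, c111x, c128x, c121x⟩, ⟨.ofNat 0, .ofNat 0, c14x⟩, ⟨.negSucc 0, .ofNat 0, c480x⟩, ⟨.ofNat 0, .ofNat 1, c470x⟩⟩, [718, 719, 722, 723]⟩, ⟨c14x, c14x, c582x, c581x, c104x, c117x⟩⟩]) (.leaf ⟨c138x, c146x, c106x, c142x⟩ ⟨c14x, c468x, c8x, c583x, c586x, c543x⟩ [
    ⟨⟨⟨⟨c138x, c139x, c120x, c121x⟩, ⟨.ofNat 0, .ofNat 0, c14x⟩, ⟨.negSucc 0, .ofNat 0, c480x⟩, ⟨.ofNat 0, .ofNat 1, c470x⟩⟩, [715, 716, 717, 718]⟩, ⟨c14x, c14x, c579x, c580x, c585x, c117x⟩⟩,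
    ⟨⟨⟨⟨c144x, c145x, c106x, c142x⟩, ⟨.ofNat 0, .ofNat 0, c468x⟩, ⟨.ofNat 1, .ofNat 0, c483x⟩, ⟨.ofNat 0, .ofNat 1, c470x⟩⟩, [114, 115, 116, 117, 118, 704]⟩, ⟨c468x, c468x, c546x, c524x, c586x, c543x⟩⟩,
    ⟨⟨⟨⟨c124x, c144x, c104x, c142x⟩, ⟨.ofNat 0, .ofNat 0, c468x⟩, ⟨.ofNat 1, .ofNat 0, c483x⟩, ⟨.ofNat 0, .ofNat 1, c470x⟩⟩, [113, 114, 115, 704, 705, 706]⟩, ⟨c468x, c468x, c8x, c546x, c547x, c543x⟩⟩,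
    ⟨⟨⟨⟨c145x, c146x, c117x, c142x⟩, ⟨.ofNat 0, .ofNat 0, c468x⟩, ⟨.ofNat 1, .ofNat 0, c483x⟩, ⟨.ofNat 0, .ofNat 1, c470x⟩⟩, [117, 118, 119, 704]⟩, ⟨c468x, c468x, c524x, c583x, c632x, c543x⟩⟩])) (.node ⟨c146x, c149x, c110x, c142x⟩ ⟨c14x, c468x, c8x, c473x, c590x, c543x⟩ (.leaf ⟨c146x, c141x, c109x, c142x⟩ ⟨c650x, c468x, c583x, c473x, c633x, c543x⟩ [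
    ⟨⟨⟨⟨c146x, c147x, c119x, c142x⟩, ⟨.ofNat 0, .ofNat 0, c468x⟩, ⟨.ofNat 1, .ofNat 0, c483x⟩, ⟨.ofNat 0, .ofNat 1, c470x⟩⟩, [118, 119, 120, 121, 122, 704]⟩, ⟨c468x, c468x, c583x, c582x, c548x, c543x⟩⟩,
    ⟨⟨⟨⟨c127x, c141x, c109x, c142x⟩, ⟨.negSucc 0, .ofNat 0, c129x⟩, ⟨.ofNat 0, .ofNat 0, c473x⟩, ⟨.ofNat 0, .ofNat 1, c470x⟩⟩, [122, 123, 124, 126, 127, 704]⟩, ⟨c650x, c468x, c473x, c473x, c633x, c543x⟩⟩,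
    ⟨⟨⟨⟨c147x, c127x, c120x, c142x⟩, ⟨.ofNat 0, .ofNat 0, c468x⟩, ⟨.ofNat 1, .ofNat 0, c483x⟩, ⟨.ofNat 0, .ofNat 1, c470x⟩⟩, [121, 122, 123, 704]⟩, ⟨c468x, c468x, c582x, c473x, c585x, c543x⟩⟩]) (.leaf ⟨c141x, c149x, c110x, c142x⟩ ⟨c14x, c650x, c8x, c473x, c590x, c543x⟩ [
    ⟨⟨⟨⟨c141x, c129x, c110x, c142x⟩, ⟨.negSucc 0, .ofNat 0, c129x⟩, ⟨.ofNat 0, .ofNat 0, c473x⟩, ⟨.ofNat 0, .ofNat 1, c470x⟩⟩, [126, 127, 128, 134, 135, 136, 704]⟩, ⟨c14x, c650x, c473x, c473x, c590x, c543x⟩⟩,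
    ⟨⟨⟨⟨c140x, c143x, c115x, c142x⟩, ⟨.ofNat 0, .ofNat 0, c14x⟩, ⟨.negSucc 0, .ofNat 0, c484x⟩, ⟨.ofNat 0, .ofNat 1, c470x⟩⟩, [138, 139, 140, 144, 145, 146, 704]⟩, ⟨c14x, c14x, c524x, c579x, c584x, c543x⟩⟩,
    ⟨⟨⟨⟨c143x, c148x, c119x, c142x⟩, ⟨.ofNat 0, .ofNat 0, c14x⟩, ⟨.negSucc 0, .ofNat 0, c484x⟩, ⟨.ofNat 0, .ofNat 1, c470x⟩⟩, [145, 146, 147, 704]⟩, ⟨c14x, c14x, c546x, c524x, c548x, c543x⟩⟩,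
    ⟨⟨⟨⟨c148x, c149x, c104x, c142x⟩, ⟨.ofNat 0, .ofNat 0, c14x⟩, ⟨.negSucc 0, .ofNat 0, c484x⟩, ⟨.ofNat 0, .ofNat 1, c470x⟩⟩, [146, 147, 148, 149, 150, 703, 704]⟩, ⟨c14x, c14x, c8x, c546x, c547x, c543x⟩⟩])))) (.node ⟨c126x, c175x, c121x, c168x⟩ ⟨c14x, c468x, c14x, c473x, c117x, c542x⟩ (.node ⟨c129x, c175x, c121x, c171x⟩ ⟨c14x, c468x, c8x, c473x, c117x, c600x⟩ (.node ⟨c129x, c153x, c121x, c159x⟩ ⟨c14x, c468x, c524x, c473x, c117x, c550x⟩ (.leaf ⟨c129x, c151x, c121x, c152x⟩ ⟨c14x, c14x, c579x, c473x, c117x, c599x⟩ [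
    ⟨⟨⟨⟨c130x, c140x, c121x, c142x⟩, ⟨.ofNat 0, .ofNat 0, c14x⟩, ⟨.negSucc 0, .ofNat 0, c484x⟩, ⟨.ofNat 0, .ofNat 1, c470x⟩⟩, [136, 137, 138, 139, 704]⟩, ⟨c14x, c14x, c579x, c581x, c117x, c543x⟩⟩,
    ⟨⟨⟨⟨c129x, c130x, c137x, c142x⟩, ⟨.ofNat 0, .ofNat 0, c14x⟩, ⟨.negSucc 0, .ofNat 0, c484x⟩, ⟨.ofNat 0, .ofNat 1, c470x⟩⟩, [135, 136, 137, 704]⟩, ⟨c14x, c14x, c581x, c473x, c591x, c543x⟩⟩,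
    ⟨⟨⟨⟨c150x, c151x, c142x, c152x⟩, ⟨.ofNat 0, .ofNat 0, c14x⟩, ⟨.negSucc 0, .ofNat 0, c485x⟩, ⟨.ofNat 0, .ofNat 1, c470x⟩⟩, [152, 165, 166, 167]⟩, ⟨c14x, c14x, c581x, c473x, c543x, c599x⟩⟩]) (.leaf ⟨c155x, c153x, c142x, c159x⟩ ⟨c14x, c468x, c524x, c473x, c543x, c550x⟩ [
    ⟨⟨⟨⟨c155x, c156x, c142x, c157x⟩, ⟨.ofNat 0, .ofNat 0, c468x⟩, ⟨.ofNat 1, .ofNat 0, c486x⟩, ⟨.ofNat 0, .ofNat 1, c470x⟩⟩, [152, 183, 184, 185]⟩, ⟨c468x, c468x, c524x, c583x, c543x, c154x⟩⟩,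
    ⟨⟨⟨⟨c156x, c158x, c142x, c159x⟩, ⟨.ofNat 0, .ofNat 0, c468x⟩, ⟨.ofNat 1, .ofNat 0, c486x⟩, ⟨.ofNat 0, .ofNat 1, c470x⟩⟩, [152, 180, 181, 182, 183, 184]⟩, ⟨c468x, c468x, c583x, c582x, c543x, c550x⟩⟩,
    ⟨⟨⟨⟨c158x, c160x, c142x, c161x⟩, ⟨.ofNat 0, .ofNat 0, c468x⟩, ⟨.ofNat 1, .ofNat 0, c486x⟩, ⟨.ofNat 0, .ofNat 1, c470x⟩⟩, [152, 179, 180, 181]⟩, ⟨c468x, c468x, c582x, c473x, c543x, c594x⟩⟩,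
    ⟨⟨⟨⟨c151x, c153x, c142x, c154x⟩, ⟨.ofNat 0, .ofNat 0, c14x⟩, ⟨.negSucc 0, .ofNat 0, c485x⟩, ⟨.ofNat 0, .ofNat 1, c470x⟩⟩, [152, 163, 164, 165, 166]⟩, ⟨c14x, c14x, c579x, c581x, c543x, c593x⟩⟩])) (.node ⟨c163x, c175x, c142x, c171x⟩ ⟨c14x, c468x, c8x, c473x, c543x, c600x⟩ (.leaf ⟨c163x, c169x, c142x, c170x⟩ ⟨c650x, c468x, c8x, c473x, c543x, c636x⟩ [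
    ⟨⟨⟨⟨c163x, c164x, c142x, c165x⟩, ⟨.ofNat 0, .ofNat 0, c468x⟩, ⟨.ofNat 1, .ofNat 0, c486x⟩, ⟨.ofNat 0, .ofNat 1, c470x⟩⟩, [151, 152, 187, 188, 189]⟩, ⟨c468x, c468x, c8x, c546x, c543x, c162x⟩⟩,
    ⟨⟨⟨⟨c164x, c155x, c142x, c167x⟩, ⟨.ofNat 0, .ofNat 0, c468x⟩, ⟨.ofNat 1, .ofNat 0, c486x⟩, ⟨.ofNat 0, .ofNat 1, c470x⟩⟩, [152, 184, 185, 186, 187, 188]⟩, ⟨c468x, c468x, c546x, c524x, c543x, c595x⟩⟩,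
    ⟨⟨⟨⟨c160x, c169x, c142x, c170x⟩, ⟨.negSucc 0, .ofNat 0, c150x⟩, ⟨.ofNat 0, .ofNat 0, c473x⟩, ⟨.ofNat 0, .ofNat 1, c470x⟩⟩, [152, 175, 176, 178, 179, 180]⟩, ⟨c650x, c468x, c473x, c473x, c543x, c636x⟩⟩]) (.leaf ⟨c169x, c175x, c142x, c171x⟩ ⟨c14x, c650x, c8x, c473x, c543x, c600x⟩ [
    ⟨⟨⟨⟨c169x, c150x, c142x, c171x⟩, ⟨.negSucc 0, .ofNat 0, c150x⟩, ⟨.ofNat 0, .ofNat 0, c473x⟩, ⟨.ofNat 0, .ofNat 1, c470x⟩⟩, [152, 166, 167, 168, 174, 175, 176]⟩, ⟨c14x, c650x, c473x, c473x, c543x, c600x⟩⟩,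
    ⟨⟨⟨⟨c153x, c172x, c142x, c173x⟩, ⟨.ofNat 0, .ofNat 0, c14x⟩, ⟨.negSucc 0, .ofNat 0, c485x⟩, ⟨.ofNat 0, .ofNat 1, c470x⟩⟩, [152, 156, 157, 158, 162, 163, 164]⟩, ⟨c14x, c14x, c524x, c579x, c543x, c592x⟩⟩,
    ⟨⟨⟨⟨c172x, c174x, c142x, c159x⟩, ⟨.ofNat 0, .ofNat 0, c14x⟩, ⟨.negSucc 0, .ofNat 0, c485x⟩, ⟨.ofNat 0, .ofNat 1, c470x⟩⟩, [152, 155, 156, 157]⟩, ⟨c14x, c14x, c546x, c524x, c543x, c550x⟩⟩,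
    ⟨⟨⟨⟨c174x, c175x, c142x, c165x⟩, ⟨.ofNat 0, .ofNat 0, c14x⟩, ⟨.negSucc 0, .ofNat 0, c485x⟩, ⟨.ofNat 0, .ofNat 1, c470x⟩⟩, [152, 153, 154, 155, 156]⟩, ⟨c14x, c14x, c8x, c546x, c543x, c162x⟩⟩]))) (.node ⟨c126x, c153x, c125x, c168x⟩ ⟨c14x, c468x, c14x, c473x, c541x, c542x⟩ (.node ⟨c126x, c487x, c125x, c168x⟩ ⟨c14x, c468x, c14x, c473x, c541x, c542x⟩ (.leaf ⟨c126x, c132x, c152x, c162x⟩ ⟨c14x, c468x, c582x, c473x, c599x, c596x⟩ [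
    ⟨⟨⟨⟨c126x, c127x, c161x, c162x⟩, ⟨.ofNat 0, .ofNat 0, c468x⟩, ⟨.ofNat 1, .ofNat 0, c483x⟩, ⟨.ofNat 0, .ofNat 1, c470x⟩⟩, [676, 677, 678, 679]⟩, ⟨c468x, c468x, c581x, c473x, c594x, c596x⟩⟩,
    ⟨⟨⟨⟨c129x, c130x, c152x, c162x⟩, ⟨.ofNat 0, .ofNat 0, c14x⟩, ⟨.negSucc 0, .ofNat 0, c484x⟩, ⟨.ofNat 0, .ofNat 1, c470x⟩⟩, [688, 689, 690, 691, 692]⟩, ⟨c14x, c14x, c581x, c473x, c599x, c596x⟩⟩,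
    ⟨⟨⟨⟨c130x, c132x, c154x, c162x⟩, ⟨.ofNat 0, .ofNat 0, c14x⟩, ⟨.negSucc 0, .ofNat 0, c484x⟩, ⟨.ofNat 0, .ofNat 1, c470x⟩⟩, [687, 688, 691, 692]⟩, ⟨c14x, c14x, c582x, c581x, c593x, c596x⟩⟩]) (.leaf ⟨c133x, c487x, c125x, c168x⟩ ⟨c14x, c468x, c14x, c583x, c541x, c542x⟩ [
    ⟨⟨⟨⟨c134x, c140x, c154x, c161x⟩, ⟨.ofNat 0, .ofNat 0, c14x⟩, ⟨.negSucc 0, .ofNat 0, c484x⟩, ⟨.ofNat 0, .ofNat 1, c470x⟩⟩, [692, 693, 694, 695]⟩, ⟨c14x, c14x, c579x, c580x, c593x, c594x⟩⟩,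
    ⟨⟨⟨⟨c133x, c134x, c154x, c167x⟩, ⟨.ofNat 0, .ofNat 0, c14x⟩, ⟨.negSucc 0, .ofNat 0, c484x⟩, ⟨.ofNat 0, .ofNat 1, c470x⟩⟩, [692, 694, 695, 696, 697]⟩, ⟨c14x, c14x, c580x, c583x, c593x, c595x⟩⟩,
    ⟨⟨⟨⟨c149x, c484x, c125x, c168x⟩, ⟨.ofNat 0, .ofNat 0, c14x⟩, ⟨.negSucc 0, .ofNat 0, c484x⟩, ⟨.ofNat 0, .ofNat 1, c470x⟩⟩, [149, 150, 664, 665, 666, 702, 703, 704]⟩, ⟨c14x, c14x, c14x, c8x, c541x, c542x⟩⟩,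
    ⟨⟨⟨⟨c484x, c487x, c125x, c168x⟩, ⟨.ofNat 1, .ofNat 0, c488x⟩, ⟨.ofNat 0, .ofNat 0, c14x⟩, ⟨.ofNat 0, .ofNat 1, c470x⟩⟩, [150, 664]⟩, ⟨c14x, c468x, c14x, c14x, c541x, c542x⟩⟩])) (.node ⟨c487x, c153x, c125x, c168x⟩ ⟨c14x, c468x, c14x, c473x, c541x, c542x⟩ (.leaf ⟨c487x, c151x, c125x, c168x⟩ ⟨c14x, c468x, c14x, c473x, c541x, c542x⟩ [
    ⟨⟨⟨⟨c487x, c163x, c125x, c168x⟩, ⟨.ofNat 0, .ofNat 0, c468x⟩, ⟨.ofNat 1, .ofNat 0, c486x⟩, ⟨.ofNat 0, .ofNat 1, c470x⟩⟩, [150, 151, 152, 188, 189, 190, 663, 664]⟩, ⟨c468x, c468x, c14x, c8x, c541x, c542x⟩⟩,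
    ⟨⟨⟨⟨c176x, c160x, c162x, c170x⟩, ⟨.ofNat 0, .ofNat 0, c468x⟩, ⟨.ofNat 1, .ofNat 0, c486x⟩, ⟨.ofNat 0, .ofNat 1, c470x⟩⟩, [176, 177, 178, 179]⟩, ⟨c468x, c468x, c581x, c473x, c596x, c636x⟩⟩,
    ⟨⟨⟨⟨c150x, c151x, c162x, c171x⟩, ⟨.ofNat 0, .ofNat 0, c14x⟩, ⟨.negSucc 0, .ofNat 0, c485x⟩, ⟨.ofNat 0, .ofNat 1, c470x⟩⟩, [167, 168, 173, 174]⟩, ⟨c14x, c14x, c581x, c473x, c596x, c600x⟩⟩]) (.leaf ⟨c151x, c153x, c161x, c178x⟩ ⟨c14x, c14x, c579x, c581x, c594x, c598x⟩ [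
    ⟨⟨⟨⟨c177x, c179x, c162x, c180x⟩, ⟨.ofNat 0, .ofNat 0, c14x⟩, ⟨.negSucc 0, .ofNat 0, c485x⟩, ⟨.ofNat 0, .ofNat 1, c470x⟩⟩, [168, 169, 170, 171]⟩, ⟨c14x, c14x, c582x, c587x, c596x, c597x⟩⟩,
    ⟨⟨⟨⟨c151x, c177x, c162x, c178x⟩, ⟨.ofNat 0, .ofNat 0, c14x⟩, ⟨.negSucc 0, .ofNat 0, c485x⟩, ⟨.ofNat 0, .ofNat 1, c470x⟩⟩, [168, 170, 171, 172, 173, 174]⟩, ⟨c14x, c14x, c587x, c581x, c596x, c598x⟩⟩,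
    ⟨⟨⟨⟨c181x, c153x, c161x, c173x⟩, ⟨.ofNat 0, .ofNat 0, c14x⟩, ⟨.negSucc 0, .ofNat 0, c485x⟩, ⟨.ofNat 0, .ofNat 1, c470x⟩⟩, [158, 160, 161, 162, 163]⟩, ⟨c14x, c14x, c579x, c580x, c594x, c592x⟩⟩,
    ⟨⟨⟨⟨c182x, c181x, c167x, c173x⟩, ⟨.ofNat 0, .ofNat 0, c14x⟩, ⟨.negSucc 0, .ofNat 0, c485x⟩, ⟨.ofNat 0, .ofNat 1, c470x⟩⟩, [158, 159, 160, 161]⟩, ⟨c14x, c14x, c580x, c583x, c595x, c592x⟩⟩]))))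

def n011x : QT :=
  .node ⟨c124x, c219x, c154x, c208x⟩ ⟨c14x, c468x, c14x, c473x, c593x, c564x⟩ (.node ⟨c124x, c196x, c154x, c192x⟩ ⟨c14x, c468x, c8x, c473x, c593x, c640x⟩ (.node ⟨c124x, c149x, c154x, c166x⟩ ⟨c14x, c468x, c8x, c473x, c593x, c549x⟩ (.node ⟨c124x, c141x, c161x, c166x⟩ ⟨c650x, c468x, c8x, c473x, c594x, c549x⟩ (.leaf ⟨c124x, c146x, c157x, c166x⟩ ⟨c468x, c468x, c8x, c583x, c154x, c549x⟩ [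
    ⟨⟨⟨⟨c124x, c144x, c165x, c166x⟩, ⟨.ofNat 0, .ofNat 0, c468x⟩, ⟨.ofNat 1, .ofNat 0, c483x⟩, ⟨.ofNat 0, .ofNat 1, c470x⟩⟩, [666, 667, 668, 669, 670]⟩, ⟨c468x, c468x, c8x, c546x, c162x, c549x⟩⟩,
    ⟨⟨⟨⟨c144x, c145x, c167x, c166x⟩, ⟨.ofNat 0, .ofNat 0, c468x⟩, ⟨.ofNat 1, .ofNat 0, c483x⟩, ⟨.ofNat 0, .ofNat 1, c470x⟩⟩, [666, 669, 670, 671]⟩, ⟨c468x, c468x, c546x, c524x, c595x, c549x⟩⟩,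
    ⟨⟨⟨⟨c145x, c146x, c157x, c166x⟩, ⟨.ofNat 0, .ofNat 0, c468x⟩, ⟨.ofNat 1, .ofNat 0, c483x⟩, ⟨.ofNat 0, .ofNat 1, c470x⟩⟩, [666, 670, 671, 672, 673, 674]⟩, ⟨c468x, c468x, c524x, c583x, c154x, c549x⟩⟩]) (.leaf ⟨c146x, c141x, c161x, c166x⟩ ⟨c650x, c468x, c583x, c473x, c594x, c549x⟩ [
    ⟨⟨⟨⟨c146x, c147x, c159x, c166x⟩, ⟨.ofNat 0, .ofNat 0, c468x⟩, ⟨.ofNat 1, .ofNat 0, c483x⟩, ⟨.ofNat 0, .ofNat 1, c470x⟩⟩, [666, 673, 674, 675]⟩, ⟨c468x, c468x, c583x, c582x, c550x, c549x⟩⟩,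
    ⟨⟨⟨⟨c147x, c126x, c161x, c166x⟩, ⟨.ofNat 0, .ofNat 0, c468x⟩, ⟨.ofNat 1, .ofNat 0, c483x⟩, ⟨.ofNat 0, .ofNat 1, c470x⟩⟩, [666, 674, 675, 676, 678, 679, 680]⟩, ⟨c468x, c468x, c582x, c581x, c594x, c549x⟩⟩,
    ⟨⟨⟨⟨c126x, c127x, c170x, c166x⟩, ⟨.ofNat 0, .ofNat 0, c468x⟩, ⟨.ofNat 1, .ofNat 0, c483x⟩, ⟨.ofNat 0, .ofNat 1, c470x⟩⟩, [666, 679, 680]⟩, ⟨c468x, c468x, c581x, c473x, c636x, c549x⟩⟩,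
    ⟨⟨⟨⟨c127x, c141x, c170x, c166x⟩, ⟨.negSucc 0, .ofNat 0, c129x⟩, ⟨.ofNat 0, .ofNat 0, c473x⟩, ⟨.ofNat 0, .ofNat 1, c470x⟩⟩, [666, 680, 681, 682]⟩, ⟨c650x, c468x, c473x, c473x, c636x, c549x⟩⟩])) (.node ⟨c141x, c149x, c154x, c166x⟩ ⟨c14x, c650x, c8x, c473x, c593x, c549x⟩ (.leaf ⟨c141x, c132x, c180x, c166x⟩ ⟨c14x, c650x, c582x, c473x, c597x, c549x⟩ [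
    ⟨⟨⟨⟨c141x, c129x, c171x, c166x⟩, ⟨.negSucc 0, .ofNat 0, c129x⟩, ⟨.ofNat 0, .ofNat 0, c473x⟩, ⟨.ofNat 0, .ofNat 1, c470x⟩⟩, [666, 681, 682]⟩, ⟨c14x, c650x, c473x, c473x, c600x, c549x⟩⟩,
    ⟨⟨⟨⟨c129x, c130x, c171x, c166x⟩, ⟨.ofNat 0, .ofNat 0, c14x⟩, ⟨.negSucc 0, .ofNat 0, c484x⟩, ⟨.ofNat 0, .ofNat 1, c470x⟩⟩, [666, 682, 683, 684]⟩, ⟨c14x, c14x, c581x, c473x, c600x, c549x⟩⟩,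
    ⟨⟨⟨⟨c131x, c132x, c180x, c166x⟩, ⟨.ofNat 0, .ofNat 0, c14x⟩, ⟨.negSucc 0, .ofNat 0, c484x⟩, ⟨.ofNat 0, .ofNat 1, c470x⟩⟩, [666, 684, 685, 686, 687]⟩, ⟨c14x, c14x, c582x, c587x, c597x, c549x⟩⟩]) (.leaf ⟨c132x, c149x, c154x, c166x⟩ ⟨c14x, c14x, c8x, c582x, c593x, c549x⟩ [
    ⟨⟨⟨⟨c132x, c133x, c154x, c166x⟩, ⟨.ofNat 0, .ofNat 0, c14x⟩, ⟨.negSucc 0, .ofNat 0, c484x⟩, ⟨.ofNat 0, .ofNat 1, c470x⟩⟩, [666, 686, 687, 688, 692, 696, 697, 698]⟩, ⟨c14x, c14x, c583x, c582x, c593x, c549x⟩⟩,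
    ⟨⟨⟨⟨c133x, c143x, c173x, c166x⟩, ⟨.ofNat 0, .ofNat 0, c14x⟩, ⟨.negSucc 0, .ofNat 0, c484x⟩, ⟨.ofNat 0, .ofNat 1, c470x⟩⟩, [666, 697, 698, 699]⟩, ⟨c14x, c14x, c524x, c583x, c592x, c549x⟩⟩,
    ⟨⟨⟨⟨c143x, c148x, c159x, c166x⟩, ⟨.ofNat 0, .ofNat 0, c14x⟩, ⟨.negSucc 0, .ofNat 0, c484x⟩, ⟨.ofNat 0, .ofNat 1, c470x⟩⟩, [666, 698, 699, 700, 701, 702]⟩, ⟨c14x, c14x, c546x, c524x, c550x, c549x⟩⟩,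
    ⟨⟨⟨⟨c148x, c149x, c165x, c166x⟩, ⟨.ofNat 0, .ofNat 0, c14x⟩, ⟨.negSucc 0, .ofNat 0, c484x⟩, ⟨.ofNat 0, .ofNat 1, c470x⟩⟩, [665, 666, 701, 702, 703]⟩, ⟨c14x, c14x, c8x, c546x, c162x, c549x⟩⟩]))) (.node ⟨c130x, c196x, c178x, c192x⟩ ⟨c14x, c468x, c8x, c473x, c598x, c640x⟩ (.node ⟨c130x, c172x, c178x, c187x⟩ ⟨c14x, c468x, c546x, c473x, c598x, c601x⟩ (.leaf ⟨c130x, c160x, c178x, c184x⟩ ⟨c14x, c468x, c579x, c473x, c598x, c635x⟩ [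
    ⟨⟨⟨⟨c130x, c131x, c178x, c166x⟩, ⟨.ofNat 0, .ofNat 0, c14x⟩, ⟨.negSucc 0, .ofNat 0, c484x⟩, ⟨.ofNat 0, .ofNat 1, c470x⟩⟩, [666, 683, 684, 685]⟩, ⟨c14x, c14x, c587x, c581x, c598x, c549x⟩⟩,
    ⟨⟨⟨⟨c183x, c176x, c166x, c184x⟩, ⟨.ofNat 0, .ofNat 0, c468x⟩, ⟨.ofNat 1, .ofNat 0, c486x⟩, ⟨.ofNat 0, .ofNat 1, c470x⟩⟩, [190, 650, 651, 652, 653]⟩, ⟨c468x, c468x, c579x, c581x, c549x, c635x⟩⟩,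
    ⟨⟨⟨⟨c176x, c160x, c166x, c185x⟩, ⟨.ofNat 0, .ofNat 0, c468x⟩, ⟨.ofNat 1, .ofNat 0, c486x⟩, ⟨.ofNat 0, .ofNat 1, c470x⟩⟩, [190, 649, 650, 651]⟩, ⟨c468x, c468x, c581x, c473x, c549x, c637x⟩⟩]) (.leaf ⟨c164x, c172x, c166x, c187x⟩ ⟨c14x, c468x, c546x, c473x, c549x, c601x⟩ [
    ⟨⟨⟨⟨c164x, c155x, c166x, c187x⟩, ⟨.ofNat 0, .ofNat 0, c468x⟩, ⟨.ofNat 1, .ofNat 0, c486x⟩, ⟨.ofNat 0, .ofNat 1, c470x⟩⟩, [190, 659, 660, 661]⟩, ⟨c468x, c468x, c546x, c524x, c549x, c601x⟩⟩,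
    ⟨⟨⟨⟨c150x, c179x, c166x, c189x⟩, ⟨.ofNat 0, .ofNat 0, c14x⟩, ⟨.negSucc 0, .ofNat 0, c485x⟩, ⟨.ofNat 0, .ofNat 1, c470x⟩⟩, [190, 635, 636, 637]⟩, ⟨c14x, c14x, c582x, c473x, c549x, c602x⟩⟩,
    ⟨⟨⟨⟨c179x, c182x, c166x, c187x⟩, ⟨.ofNat 0, .ofNat 0, c14x⟩, ⟨.negSucc 0, .ofNat 0, c485x⟩, ⟨.ofNat 0, .ofNat 1, c470x⟩⟩, [190, 632, 633, 634, 635, 636]⟩, ⟨c14x, c14x, c583x, c582x, c549x, c601x⟩⟩,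
    ⟨⟨⟨⟨c182x, c172x, c166x, c193x⟩, ⟨.ofNat 0, .ofNat 0, c14x⟩, ⟨.negSucc 0, .ofNat 0, c485x⟩, ⟨.ofNat 0, .ofNat 1, c470x⟩⟩, [190, 631, 632, 633]⟩, ⟨c14x, c14x, c524x, c583x, c549x, c184x⟩⟩])) (.node ⟨c163x, c196x, c166x, c192x⟩ ⟨c14x, c468x, c8x, c473x, c549x, c640x⟩ (.leaf ⟨c163x, c190x, c166x, c192x⟩ ⟨c649x, c468x, c8x, c473x, c549x, c640x⟩ [
    ⟨⟨⟨⟨c163x, c164x, c166x, c186x⟩, ⟨.ofNat 0, .ofNat 0, c468x⟩, ⟨.ofNat 1, .ofNat 0, c486x⟩, ⟨.ofNat 0, .ofNat 1, c470x⟩⟩, [189, 190, 660, 661, 662, 663, 664]⟩, ⟨c468x, c468x, c8x, c546x, c549x, c199x⟩⟩,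
    ⟨⟨⟨⟨c155x, c183x, c166x, c188x⟩, ⟨.ofNat 0, .ofNat 0, c468x⟩, ⟨.ofNat 1, .ofNat 0, c486x⟩, ⟨.ofNat 0, .ofNat 1, c470x⟩⟩, [190, 652, 653, 654, 658, 659, 660]⟩, ⟨c468x, c468x, c524x, c579x, c549x, c634x⟩⟩,
    ⟨⟨⟨⟨c160x, c190x, c166x, c192x⟩, ⟨.negSucc 0, .ofNat 0, c150x⟩, ⟨.ofNat 0, .ofNat 0, c473x⟩, ⟨.ofNat 0, .ofNat 1, c470x⟩⟩, [190, 640, 641, 642, 648, 649, 650]⟩, ⟨c649x, c468x, c473x, c473x, c549x, c640x⟩⟩]) (.leaf ⟨c190x, c196x, c166x, c191x⟩ ⟨c14x, c468x, c8x, c473x, c549x, c604x⟩ [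
    ⟨⟨⟨⟨c172x, c174x, c166x, c194x⟩, ⟨.ofNat 0, .ofNat 0, c14x⟩, ⟨.negSucc 0, .ofNat 0, c485x⟩, ⟨.ofNat 0, .ofNat 1, c470x⟩⟩, [190, 628, 629, 630, 631, 632]⟩, ⟨c14x, c14x, c546x, c524x, c549x, c551x⟩⟩,
    ⟨⟨⟨⟨c174x, c175x, c166x, c186x⟩, ⟨.ofNat 0, .ofNat 0, c14x⟩, ⟨.negSucc 0, .ofNat 0, c485x⟩, ⟨.ofNat 0, .ofNat 1, c470x⟩⟩, [190, 191, 192, 627, 628, 629]⟩, ⟨c14x, c14x, c8x, c546x, c549x, c199x⟩⟩,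
    ⟨⟨⟨⟨c190x, c150x, c166x, c191x⟩, ⟨.negSucc 0, .ofNat 0, c150x⟩, ⟨.ofNat 0, .ofNat 0, c473x⟩, ⟨.ofNat 0, .ofNat 1, c470x⟩⟩, [190, 636, 637, 638, 640, 641]⟩, ⟨c14x, c649x, c473x, c473x, c549x, c604x⟩⟩,
    ⟨⟨⟨⟨c195x, c196x, c184x, c189x⟩, ⟨.ofNat 0, .ofNat 0, c468x⟩, ⟨.ofNat 1, .ofNat 0, c489x⟩, ⟨.ofNat 0, .ofNat 1, c470x⟩⟩, [201, 202, 203, 204]⟩, ⟨c468x, c468x, c579x, c580x, c635x, c602x⟩⟩])))) (.node ⟨c183x, c219x, c168x, c208x⟩ ⟨c14x, c468x, c14x, c473x, c542x, c564x⟩ (.node ⟨c183x, c210x, c168x, c208x⟩ ⟨c14x, c468x, c14x, c473x, c542x, c564x⟩ (.node ⟨c183x, c205x, c168x, c204x⟩ ⟨c14x, c468x, c14x, c473x, c542x, c525x⟩ (.leaf ⟨c183x, c151x, c189x, c188x⟩ ⟨c14x, c468x, c579x, c473x, c602x,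 c634x⟩ [
    ⟨⟨⟨⟨c183x, c200x, c189x, c188x⟩, ⟨.ofNat 0, .ofNat 0, c468x⟩, ⟨.ofNat 1, .ofNat 0, c486x⟩, ⟨.ofNat 0, .ofNat 1, c470x⟩⟩, [653, 654, 655, 656, 658]⟩, ⟨c468x, c468x, c579x, c580x, c602x, c634x⟩⟩,
    ⟨⟨⟨⟨c158x, c201x, c199x, c202x⟩, ⟨.ofNat 0, .ofNat 0, c468x⟩, ⟨.ofNat 1, .ofNat 0, c486x⟩, ⟨.ofNat 0, .ofNat 1, c470x⟩⟩, [645, 646, 647, 648]⟩, ⟨c468x, c468x, c582x, c587x, c603x, c638x⟩⟩,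
    ⟨⟨⟨⟨c150x, c151x, c199x, c191x⟩, ⟨.ofNat 0, .ofNat 0, c14x⟩, ⟨.negSucc 0, .ofNat 0, c485x⟩, ⟨.ofNat 0, .ofNat 1, c470x⟩⟩, [637, 638, 639, 640]⟩, ⟨c14x, c14x, c581x, c473x, c603x, c604x⟩⟩]) (.leaf ⟨c175x, c205x, c168x, c204x⟩ ⟨c14x, c468x, c14x, c583x, c542x, c525x⟩ [
    ⟨⟨⟨⟨c175x, c485x, c168x, c204x⟩, ⟨.ofNat 0, .ofNat 0, c14x⟩, ⟨.negSucc 0, .ofNat 0, c485x⟩, ⟨.ofNat 0, .ofNat 1, c470x⟩⟩, [191, 192, 626, 627, 628]⟩, ⟨c14x, c14x, c14x, c8x, c542x, c525x⟩⟩,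
    ⟨⟨⟨⟨c485x, c490x, c168x, c204x⟩, ⟨.ofNat 1, .ofNat 0, c491x⟩, ⟨.ofNat 0, .ofNat 0, c14x⟩, ⟨.ofNat 0, .ofNat 1, c470x⟩⟩, [192, 626]⟩, ⟨c14x, c468x, c14x, c14x, c542x, c525x⟩⟩,
    ⟨⟨⟨⟨c490x, c203x, c168x, c204x⟩, ⟨.ofNat 0, .ofNat 0, c468x⟩, ⟨.ofNat 1, .ofNat 0, c489x⟩, ⟨.ofNat 0, .ofNat 1, c470x⟩⟩, [192, 193, 194, 625, 626]⟩, ⟨c468x, c468x, c14x, c8x, c542x, c525x⟩⟩,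
    ⟨⟨⟨⟨c196x, c205x, c184x, c194x⟩, ⟨.ofNat 0, .ofNat 0, c468x⟩, ⟨.ofNat 1, .ofNat 0, c489x⟩, ⟨.ofNat 0, .ofNat 1, c470x⟩⟩, [199, 200, 201, 202, 204]⟩, ⟨c468x, c468x, c580x, c583x, c635x, c551x⟩⟩])) (.node ⟨c200x, c210x, c184x, c208x⟩ ⟨c468x, c468x, c8x, c473x, c635x, c564x⟩ (.leaf ⟨c200x, c160x, c199x, c206x⟩ ⟨c468x, c468x, c580x, c473x, c603x, c639x⟩ [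
    ⟨⟨⟨⟨c200x, c156x, c194x, c188x⟩, ⟨.ofNat 0, .ofNat 0, c468x⟩, ⟨.ofNat 1, .ofNat 0, c486x⟩, ⟨.ofNat 0, .ofNat 1, c470x⟩⟩, [655, 656, 657, 658]⟩, ⟨c468x, c468x, c580x, c583x, c551x, c634x⟩⟩,
    ⟨⟨⟨⟨c201x, c176x, c199x, c206x⟩, ⟨.ofNat 0, .ofNat 0, c468x⟩, ⟨.ofNat 1, .ofNat 0, c486x⟩, ⟨.ofNat 0, .ofNat 1, c470x⟩⟩, [642, 643, 644, 645, 646, 648]⟩, ⟨c468x, c468x, c587x, c581x, c603x, c639x⟩⟩,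
    ⟨⟨⟨⟨c176x, c160x, c199x, c192x⟩, ⟨.ofNat 0, .ofNat 0, c468x⟩, ⟨.ofNat 1, .ofNat 0, c486x⟩, ⟨.ofNat 0, .ofNat 1, c470x⟩⟩, [642, 643, 648, 649]⟩, ⟨c468x, c468x, c581x, c473x, c603x, c640x⟩⟩]) (.leaf ⟨c203x, c210x, c184x, c208x⟩ ⟨c468x, c468x, c8x, c582x, c635x, c564x⟩ [
    ⟨⟨⟨⟨c203x, c207x, c186x, c208x⟩, ⟨.ofNat 0, .ofNat 0, c468x⟩, ⟨.ofNat 1, .ofNat 0, c489x⟩, ⟨.ofNat 0, .ofNat 1, c470x⟩⟩, [193, 194, 195, 624, 625, 626]⟩, ⟨c468x, c468x, c8x, c546x, c199x, c564x⟩⟩,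
    ⟨⟨⟨⟨c207x, c209x, c187x, c208x⟩, ⟨.ofNat 0, .ofNat 0, c468x⟩, ⟨.ofNat 1, .ofNat 0, c489x⟩, ⟨.ofNat 0, .ofNat 1, c470x⟩⟩, [194, 195, 196, 197, 198, 624]⟩, ⟨c468x, c468x, c546x, c524x, c601x, c564x⟩⟩,
    ⟨⟨⟨⟨c205x, c210x, c184x, c208x⟩, ⟨.ofNat 0, .ofNat 0, c468x⟩, ⟨.ofNat 1, .ofNat 0, c489x⟩, ⟨.ofNat 0, .ofNat 1, c470x⟩⟩, [198, 199, 200, 204, 208, 209, 210, 624]⟩, ⟨c468x, c468x, c583x, c582x, c635x, c564x⟩⟩,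
    ⟨⟨⟨⟨c209x, c205x, c188x, c208x⟩, ⟨.ofNat 0, .ofNat 0, c468x⟩, ⟨.ofNat 1, .ofNat 0, c489x⟩, ⟨.ofNat 0, .ofNat 1, c470x⟩⟩, [197, 198, 199, 624]⟩, ⟨c468x, c468x, c524x, c583x, c634x, c564x⟩⟩]))) (.node ⟨c210x, c219x, c185x, c208x⟩ ⟨c14x, c468x, c8x, c473x, c637x, c564x⟩ (.node ⟨c210x, c219x, c185x, c208x⟩ ⟨c14x, c468x, c8x, c473x, c637x, c564x⟩ (.leaf ⟨c210x, c212x, c185x, c199x⟩ ⟨c14x, c468x, c582x, c473x, c637x, c603x⟩ [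
    ⟨⟨⟨⟨c210x, c197x, c184x, c199x⟩, ⟨.ofNat 0, .ofNat 0, c468x⟩, ⟨.ofNat 1, .ofNat 0, c489x⟩, ⟨.ofNat 0, .ofNat 1, c470x⟩⟩, [204, 205, 208, 209]⟩, ⟨c468x, c468x, c582x, c581x, c635x, c603x⟩⟩,
    ⟨⟨⟨⟨c197x, c198x, c185x, c199x⟩, ⟨.ofNat 0, .ofNat 0, c468x⟩, ⟨.ofNat 1, .ofNat 0, c489x⟩, ⟨.ofNat 0, .ofNat 1, c470x⟩⟩, [204, 205, 206, 207, 208]⟩, ⟨c468x, c468x, c581x, c473x, c637x, c603x⟩⟩,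
    ⟨⟨⟨⟨c211x, c212x, c189x, c199x⟩, ⟨.ofNat 0, .ofNat 0, c14x⟩, ⟨.negSucc 0, .ofNat 0, c259x⟩, ⟨.ofNat 0, .ofNat 1, c470x⟩⟩, [217, 218, 219, 220]⟩, ⟨c14x, c14x, c581x, c473x, c602x, c603x⟩⟩]) (.leaf ⟨c212x, c219x, c189x, c208x⟩ ⟨c14x, c14x, c8x, c581x, c602x, c564x⟩ [
    ⟨⟨⟨⟨c212x, c213x, c189x, c208x⟩, ⟨.ofNat 0, .ofNat 0, c14x⟩, ⟨.negSucc 0, .ofNat 0, c259x⟩, ⟨.ofNat 0, .ofNat 1, c470x⟩⟩, [216, 217, 218, 220, 221, 222, 624]⟩, ⟨c14x, c14x, c582x, c581x, c602x, c564x⟩⟩,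
    ⟨⟨⟨⟨c213x, c214x, c187x, c208x⟩, ⟨.ofNat 0, .ofNat 0, c14x⟩, ⟨.negSucc 0, .ofNat 0, c259x⟩, ⟨.ofNat 0, .ofNat 1, c470x⟩⟩, [221, 222, 223, 624]⟩, ⟨c14x, c14x, c583x, c582x, c601x, c564x⟩⟩,
    ⟨⟨⟨⟨c214x, c215x, c193x, c208x⟩, ⟨.ofNat 0, .ofNat 0, c14x⟩, ⟨.negSucc 0, .ofNat 0, c259x⟩, ⟨.ofNat 0, .ofNat 1, c470x⟩⟩, [222, 223, 224, 225, 226, 624]⟩, ⟨c14x, c14x, c524x, c583x, c184x, c564x⟩⟩,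
    ⟨⟨⟨⟨c218x, c219x, c186x, c208x⟩, ⟨.ofNat 0, .ofNat 0, c14x⟩, ⟨.negSucc 0, .ofNat 0, c259x⟩, ⟨.ofNat 0, .ofNat 1, c470x⟩⟩, [226, 227, 228, 229, 230, 623, 624]⟩, ⟨c14x, c14x, c8x, c546x, c199x, c564x⟩⟩])) (.node ⟨c210x, c218x, c194x, c208x⟩ ⟨c14x, c468x, c546x, c473x, c551x, c564x⟩ (.leaf ⟨c210x, c198x, c202x, c208x⟩ ⟨c468x, c468x, c582x, c473x, c638x, c564x⟩ [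
    ⟨⟨⟨⟨c210x, c216x, c202x, c208x⟩, ⟨.ofNat 0, .ofNat 0, c468x⟩, ⟨.ofNat 1, .ofNat 0, c489x⟩, ⟨.ofNat 0, .ofNat 1, c470x⟩⟩, [209, 210, 211, 212, 624]⟩, ⟨c468x, c468x, c582x, c587x, c638x, c564x⟩⟩,
    ⟨⟨⟨⟨c216x, c197x, c206x, c208x⟩, ⟨.ofNat 0, .ofNat 0, c468x⟩, ⟨.ofNat 1, .ofNat 0, c489x⟩, ⟨.ofNat 0, .ofNat 1, c470x⟩⟩, [211, 212, 213, 624]⟩, ⟨c468x, c468x, c587x, c581x, c639x, c564x⟩⟩,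
    ⟨⟨⟨⟨c197x, c198x, c192x, c208x⟩, ⟨.ofNat 0, .ofNat 0, c468x⟩, ⟨.ofNat 1, .ofNat 0, c489x⟩, ⟨.ofNat 0, .ofNat 1, c470x⟩⟩, [212, 213, 214, 624]⟩, ⟨c468x, c468x, c581x, c473x, c640x, c564x⟩⟩]) (.leaf ⟨c198x, c218x, c194x, c208x⟩ ⟨c14x, c468x, c546x, c473x, c551x, c564x⟩ [
    ⟨⟨⟨⟨c217x, c211x, c191x, c208x⟩, ⟨.negSucc 0, .ofNat 0, c211x⟩, ⟨.ofNat 0, .ofNat 0, c473x⟩, ⟨.ofNat 0, .ofNat 1, c470x⟩⟩, [214, 215, 216, 624]⟩, ⟨c14x, c649x, c473x, c473x, c604x, c564x⟩⟩,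
    ⟨⟨⟨⟨c198x, c217x, c192x, c208x⟩, ⟨.negSucc 0, .ofNat 0, c211x⟩, ⟨.ofNat 0, .ofNat 0, c473x⟩, ⟨.ofNat 0, .ofNat 1, c470x⟩⟩, [214, 215, 624]⟩, ⟨c649x, c468x, c473x, c473x, c640x, c564x⟩⟩,
    ⟨⟨⟨⟨c211x, c212x, c191x, c208x⟩, ⟨.ofNat 0, .ofNat 0, c14x⟩, ⟨.negSucc 0, .ofNat 0, c259x⟩, ⟨.ofNat 0, .ofNat 1, c470x⟩⟩, [216, 217, 624]⟩, ⟨c14x, c14x, c581x, c473x, c604x, c564x⟩⟩,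
    ⟨⟨⟨⟨c215x, c218x, c194x, c208x⟩, ⟨.ofNat 0, .ofNat 0, c14x⟩, ⟨.negSucc 0, .ofNat 0, c259x⟩, ⟨.ofNat 0, .ofNat 1, c470x⟩⟩, [225, 226, 227, 624]⟩, ⟨c14x, c14x, c546x, c524x, c551x, c564x⟩⟩]))))

def n01x : QT :=
  .node ⟨c105x, c219x, c79x, c208x⟩ ⟨c14x, c468x, c14x, c473x, c544x, c564x⟩ (n010x) (n011x)

def n0x : QT :=
  .node ⟨c14x, c219x, c6x, c208x⟩ ⟨c14x, c468x, c14x, c473x, c14x, c564x⟩ (n00x) (n01x)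

def n100x : QT :=
  .node ⟨c219x, c304x, c204x, c291x⟩ ⟨c14x, c468x, c14x, c473x, c525x, c646x⟩ (.node ⟨c219x, c257x, c204x, c250x⟩ ⟨c14x, c468x, c14x, c473x, c525x, c563x⟩ (.node ⟨c219x, c230x, c204x, c260x⟩ ⟨c14x, c468x, c14x, c8x, c525x, c557x⟩ (.node ⟨c220x, c230x, c204x, c225x⟩ ⟨c14x, c468x, c14x, c530x, c525x, c555x⟩ (.leaf ⟨c220x, c226x, c204x, c225x⟩ ⟨c14x, c14x, c529x, c530x, c525x, c555x⟩ [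
    ⟨⟨⟨⟨c220x, c221x, c204x, c222x⟩, ⟨.ofNat 0, .ofNat 0, c14x⟩, ⟨.negSucc 0, .ofNat 0, c259x⟩, ⟨.ofNat 0, .ofNat 1, c470x⟩⟩, [230, 617, 618, 619]⟩, ⟨c14x, c14x, c527x, c530x, c525x, c558x⟩⟩,
    ⟨⟨⟨⟨c224x, c226x, c204x, c227x⟩, ⟨.ofNat 0, .ofNat 0, c14x⟩, ⟨.negSucc 0, .ofNat 0, c259x⟩, ⟨.ofNat 0, .ofNat 1, c470x⟩⟩, [230, 603, 604, 605]⟩, ⟨c14x, c14x, c529x, c19x, c525x, c554x⟩⟩,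
    ⟨⟨⟨⟨c223x, c224x, c204x, c225x⟩, ⟨.ofNat 0, .ofNat 0, c14x⟩, ⟨.negSucc 0, .ofNat 0, c259x⟩, ⟨.ofNat 0, .ofNat 1, c470x⟩⟩, [230, 604, 605, 606, 607]⟩, ⟨c14x, c14x, c19x, c528x, c525x, c555x⟩⟩]) (.leaf ⟨c226x, c230x, c204x, c231x⟩ ⟨c14x, c468x, c14x, c529x, c525x, c624x⟩ [
    ⟨⟨⟨⟨c226x, c259x, c204x, c229x⟩, ⟨.ofNat 0, .ofNat 0, c14x⟩, ⟨.negSucc 0, .ofNat 0, c259x⟩, ⟨.ofNat 0, .ofNat 1, c470x⟩⟩, [230, 602, 603, 604]⟩, ⟨c14x, c14x, c14x, c529x, c525x, c553x⟩⟩,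
    ⟨⟨⟨⟨c259x, c228x, c204x, c229x⟩, ⟨.ofNat 1, .ofNat 0, c492x⟩, ⟨.ofNat 0, .ofNat 0, c14x⟩, ⟨.ofNat 0, .ofNat 1, c470x⟩⟩, [230, 601, 602]⟩, ⟨c14x, c650x, c14x, c14x, c525x, c553x⟩⟩,
    ⟨⟨⟨⟨c228x, c239x, c204x, c231x⟩, ⟨.ofNat 1, .ofNat 0, c492x⟩, ⟨.ofNat 0, .ofNat 0, c14x⟩, ⟨.ofNat 0, .ofNat 1, c470x⟩⟩, [230, 600, 601, 602]⟩, ⟨c650x, c468x, c14x, c14x, c525x, c624x⟩⟩,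
    ⟨⟨⟨⟨c239x, c230x, c204x, c231x⟩, ⟨.ofNat 0, .ofNat 0, c468x⟩, ⟨.ofNat 1, .ofNat 0, c493x⟩, ⟨.ofNat 0, .ofNat 1, c470x⟩⟩, [230, 599, 600]⟩, ⟨c468x, c468x, c14x, c529x, c525x, c624x⟩⟩])) (.node ⟨c219x, c230x, c204x, c260x⟩ ⟨c14x, c468x, c14x, c8x, c525x, c557x⟩ (.leaf ⟨c219x, c223x, c204x, c235x⟩ ⟨c14x, c14x, c528x, c8x, c525x, c246x⟩ [
    ⟨⟨⟨⟨c219x, c232x, c204x, c233x⟩, ⟨.ofNat 0, .ofNat 0, c14x⟩, ⟨.negSucc 0, .ofNat 0, c259x⟩, ⟨.ofNat 0, .ofNat 1, c470x⟩⟩, [229, 230, 621, 622, 623, 624]⟩, ⟨c14x, c14x, c534x, c8x, c525x, c562x⟩⟩,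
    ⟨⟨⟨⟨c232x, c220x, c204x, c234x⟩, ⟨.ofNat 0, .ofNat 0, c14x⟩, ⟨.negSucc 0, .ofNat 0, c259x⟩, ⟨.ofNat 0, .ofNat 1, c470x⟩⟩, [230, 618, 619, 620, 621, 622]⟩, ⟨c14x, c14x, c530x, c534x, c525x, c561x⟩⟩,
    ⟨⟨⟨⟨c221x, c223x, c204x, c235x⟩, ⟨.ofNat 0, .ofNat 0, c14x⟩, ⟨.negSucc 0, .ofNat 0, c259x⟩, ⟨.ofNat 0, .ofNat 1, c470x⟩⟩, [230, 606, 607, 608, 612, 616, 617, 618]⟩, ⟨c14x, c14x, c528x, c527x, c525x, c246x⟩⟩]) (.leaf ⟨c236x, c230x, c237x, c260x⟩ ⟨c14x, c468x, c14x, c532x, c559x, c557x⟩ [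
    ⟨⟨⟨⟨c236x, c221x, c237x, c235x⟩, ⟨.ofNat 0, .ofNat 0, c14x⟩, ⟨.negSucc 0, .ofNat 0, c259x⟩, ⟨.ofNat 0, .ofNat 1, c470x⟩⟩, [612, 614, 615, 616, 617]⟩, ⟨c14x, c14x, c527x, c532x, c559x, c246x⟩⟩,
    ⟨⟨⟨⟨c223x, c226x, c238x, c235x⟩, ⟨.ofNat 0, .ofNat 0, c14x⟩, ⟨.negSucc 0, .ofNat 0, c259x⟩, ⟨.ofNat 0, .ofNat 1, c470x⟩⟩, [607, 608, 611, 612]⟩, ⟨c14x, c14x, c529x, c528x, c233x, c246x⟩⟩,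
    ⟨⟨⟨⟨c226x, c259x, c238x, c260x⟩, ⟨.ofNat 0, .ofNat 0, c14x⟩, ⟨.negSucc 0, .ofNat 0, c259x⟩, ⟨.ofNat 0, .ofNat 1, c470x⟩⟩, [608, 609, 610, 611, 612]⟩, ⟨c14x, c14x, c14x, c529x, c233x, c557x⟩⟩,
    ⟨⟨⟨⟨c239x, c230x, c238x, c240x⟩, ⟨.ofNat 0, .ofNat 0, c468x⟩, ⟨.ofNat 1, .ofNat 0, c493x⟩, ⟨.ofNat 0, .ofNat 1, c470x⟩⟩, [596, 597, 598, 599]⟩, ⟨c468x, c468x, c14x, c529x, c233x, c560x⟩⟩]))) (.node ⟨c230x, c257x, c204x, c250x⟩ ⟨c14x, c468x, c14x, c473x, c525x, c563x⟩ (.node ⟨c230x, c255x, c204x, c240x⟩ ⟨c14x, c468x, c14x, c8x, c525x, c560x⟩ (.leaf ⟨c241x, c245x, c204x, c234x⟩ ⟨c468x, c468x, c528x, c8x, c525x, c561x⟩ [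
    ⟨⟨⟨⟨c241x, c242x, c204x, c234x⟩, ⟨.ofNat 0, .ofNat 0, c468x⟩, ⟨.ofNat 1, .ofNat 0, c493x⟩, ⟨.ofNat 0, .ofNat 1, c470x⟩⟩, [230, 593, 594, 595]⟩, ⟨c468x, c468x, c528x, c527x, c525x, c561x⟩⟩,
    ⟨⟨⟨⟨c243x, c244x, c204x, c237x⟩, ⟨.ofNat 0, .ofNat 0, c468x⟩, ⟨.ofNat 1, .ofNat 0, c493x⟩, ⟨.ofNat 0, .ofNat 1, c470x⟩⟩, [230, 589, 590, 591]⟩, ⟨c468x, c468x, c530x, c534x, c525x, c559x⟩⟩,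
    ⟨⟨⟨⟨c244x, c245x, c204x, c233x⟩, ⟨.ofNat 0, .ofNat 0, c468x⟩, ⟨.ofNat 1, .ofNat 0, c493x⟩, ⟨.ofNat 0, .ofNat 1, c470x⟩⟩, [230, 231, 232, 587, 588, 589, 590]⟩, ⟨c468x, c468x, c534x, c8x, c525x, c562x⟩⟩]) (.leaf ⟨c230x, c255x, c204x, c240x⟩ ⟨c14x, c468x, c14x, c530x, c525x, c560x⟩ [
    ⟨⟨⟨⟨c230x, c241x, c204x, c240x⟩, ⟨.ofNat 0, .ofNat 0, c468x⟩, ⟨.ofNat 1, .ofNat 0, c493x⟩, ⟨.ofNat 0, .ofNat 1, c470x⟩⟩, [230, 594, 595, 596, 598, 599, 600]⟩, ⟨c468x, c468x, c529x, c528x, c525x, c560x⟩⟩,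
    ⟨⟨⟨⟨c242x, c243x, c204x, c246x⟩, ⟨.ofNat 0, .ofNat 0, c468x⟩, ⟨.ofNat 1, .ofNat 0, c493x⟩, ⟨.ofNat 0, .ofNat 1, c470x⟩⟩, [230, 590, 591, 592, 593, 594]⟩, ⟨c468x, c468x, c527x, c530x, c525x, c625x⟩⟩,
    ⟨⟨⟨⟨c247x, c248x, c227x, c238x⟩, ⟨.ofNat 0, .ofNat 0, c14x⟩, ⟨.negSucc 0, .ofNat 0, c255x⟩, ⟨.ofNat 0, .ofNat 1, c470x⟩⟩, [248, 250, 251, 252, 253, 254]⟩, ⟨c14x, c14x, c529x, c19x, c554x, c233x⟩⟩,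
    ⟨⟨⟨⟨c248x, c255x, c229x, c238x⟩, ⟨.ofNat 0, .ofNat 0, c14x⟩, ⟨.negSucc 0, .ofNat 0, c255x⟩, ⟨.ofNat 0, .ofNat 1, c470x⟩⟩, [247, 248, 253, 254]⟩, ⟨c14x, c14x, c14x, c529x, c553x, c233x⟩⟩])) (.node ⟨c245x, c257x, c208x, c250x⟩ ⟨c14x, c468x, c14x, c473x, c564x, c563x⟩ (.leaf ⟨c245x, c249x, c208x, c250x⟩ ⟨c14x, c468x, c8x, c473x, c564x, c563x⟩ [
    ⟨⟨⟨⟨c245x, c494x, c208x, c250x⟩, ⟨.ofNat 0, .ofNat 0, c468x⟩, ⟨.ofNat 1, .ofNat 0, c493x⟩, ⟨.ofNat 0, .ofNat 1, c470x⟩⟩, [231, 232, 586, 587, 588]⟩, ⟨c468x, c468x, c8x, c473x, c564x, c563x⟩⟩,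
    ⟨⟨⟨⟨c494x, c495x, c208x, c250x⟩, ⟨.negSucc 0, .ofNat 0, c495x⟩, ⟨.ofNat 0, .ofNat 0, c473x⟩, ⟨.ofNat 0, .ofNat 1, c470x⟩⟩, [232, 586]⟩, ⟨c14x, c468x, c473x, c473x, c564x, c563x⟩⟩,
    ⟨⟨⟨⟨c495x, c249x, c208x, c250x⟩, ⟨.ofNat 0, .ofNat 0, c14x⟩, ⟨.negSucc 0, .ofNat 0, c255x⟩, ⟨.ofNat 0, .ofNat 1, c470x⟩⟩, [232, 233, 234, 585, 586]⟩, ⟨c14x, c14x, c8x, c473x, c564x, c563x⟩⟩]) (.leaf ⟨c253x, c257x, c222x, c240x⟩ ⟨c14x, c468x, c14x, c533x, c558x, c560x⟩ [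
    ⟨⟨⟨⟨c251x, c252x, c222x, c237x⟩, ⟨.ofNat 0, .ofNat 0, c14x⟩, ⟨.negSucc 0, .ofNat 0, c255x⟩, ⟨.ofNat 0, .ofNat 1, c470x⟩⟩, [238, 239, 240, 241]⟩, ⟨c14x, c14x, c527x, c532x, c558x, c559x⟩⟩,
    ⟨⟨⟨⟨c253x, c251x, c222x, c240x⟩, ⟨.ofNat 0, .ofNat 0, c14x⟩, ⟨.negSucc 0, .ofNat 0, c255x⟩, ⟨.ofNat 0, .ofNat 1, c470x⟩⟩, [238, 240, 241, 242, 243]⟩, ⟨c14x, c14x, c532x, c533x, c558x, c560x⟩⟩,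
    ⟨⟨⟨⟨c254x, c247x, c225x, c238x⟩, ⟨.ofNat 0, .ofNat 0, c14x⟩, ⟨.negSucc 0, .ofNat 0, c255x⟩, ⟨.ofNat 0, .ofNat 1, c470x⟩⟩, [248, 249, 250, 251]⟩, ⟨c14x, c14x, c19x, c528x, c555x, c233x⟩⟩,
    ⟨⟨⟨⟨c256x, c257x, c231x, c238x⟩, ⟨.ofNat 0, .ofNat 0, c468x⟩, ⟨.ofNat 1, .ofNat 0, c496x⟩, ⟨.ofNat 0, .ofNat 1, c470x⟩⟩, [256, 257, 258, 259]⟩, ⟨c468x, c468x, c14x, c529x, c624x, c233x⟩⟩])))) (.node ⟨c258x, c304x, c229x, c291x⟩ ⟨c14x, c468x, c14x, c473x, c553x, c646x⟩ (.node ⟨c258x, c273x, c229x, c274x⟩ ⟨c14x, c468x, c14x, c473x, c553x, c643x⟩ (.node ⟨c258x, c269x, c229x, c262x⟩ ⟨c14x, c468x, c14x, c8x, c553x, c556x⟩ (.leaf ⟨c258x, c253x, c222x, c262x⟩ ⟨c14x, c14x, c532x, c8x, c558x, c556x⟩ [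
    ⟨⟨⟨⟨c258x, c236x, c240x, c235x⟩, ⟨.ofNat 0, .ofNat 0, c14x⟩, ⟨.negSucc 0, .ofNat 0, c259x⟩, ⟨.ofNat 0, .ofNat 1, c470x⟩⟩, [612, 613, 614, 615]⟩, ⟨c14x, c14x, c532x, c533x, c560x, c246x⟩⟩,
    ⟨⟨⟨⟨c249x, c261x, c233x, c262x⟩, ⟨.ofNat 0, .ofNat 0, c14x⟩, ⟨.negSucc 0, .ofNat 0, c255x⟩, ⟨.ofNat 0, .ofNat 1, c470x⟩⟩, [233, 234, 235, 236, 584, 585, 586]⟩, ⟨c14x, c14x, c534x, c8x, c562x, c556x⟩⟩,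
    ⟨⟨⟨⟨c263x, c253x, c222x, c262x⟩, ⟨.ofNat 0, .ofNat 0, c14x⟩, ⟨.negSucc 0, .ofNat 0, c255x⟩, ⟨.ofNat 0, .ofNat 1, c470x⟩⟩, [236, 237, 238, 242, 243, 244, 584]⟩, ⟨c14x, c14x, c533x, c530x, c558x, c556x⟩⟩]) (.leaf ⟨c255x, c269x, c229x, c262x⟩ ⟨c14x, c468x, c14x, c8x, c553x, c556x⟩ [
    ⟨⟨⟨⟨c255x, c264x, c229x, c262x⟩, ⟨.ofNat 1, .ofNat 0, c497x⟩, ⟨.ofNat 0, .ofNat 0, c14x⟩, ⟨.ofNat 0, .ofNat 1, c470x⟩⟩, [246, 247, 248, 254, 255, 256, 584]⟩, ⟨c14x, c650x, c14x, c14x, c553x, c556x⟩⟩,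
    ⟨⟨⟨⟨c264x, c256x, c231x, c262x⟩, ⟨.ofNat 1, .ofNat 0, c497x⟩, ⟨.ofNat 0, .ofNat 0, c14x⟩, ⟨.ofNat 0, .ofNat 1, c470x⟩⟩, [255, 256, 258, 259, 260, 584]⟩, ⟨c650x, c468x, c14x, c14x, c624x, c556x⟩⟩,
    ⟨⟨⟨⟨c267x, c268x, c237x, c262x⟩, ⟨.ofNat 0, .ofNat 0, c468x⟩, ⟨.ofNat 1, .ofNat 0, c496x⟩, ⟨.ofNat 0, .ofNat 1, c470x⟩⟩, [264, 265, 266, 267, 268, 584]⟩, ⟨c468x, c468x, c530x, c534x, c559x, c556x⟩⟩,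
    ⟨⟨⟨⟨c268x, c269x, c233x, c262x⟩, ⟨.ofNat 0, .ofNat 0, c468x⟩, ⟨.ofNat 1, .ofNat 0, c496x⟩, ⟨.ofNat 0, .ofNat 1, c470x⟩⟩, [267, 268, 269, 270, 583, 584]⟩, ⟨c468x, c468x, c534x, c8x, c562x, c556x⟩⟩])) (.node ⟨c261x, c273x, c234x, c274x⟩ ⟨c14x, c468x, c14x, c473x, c561x, c643x⟩ (.leaf ⟨c261x, c267x, c234x, c262x⟩ ⟨c14x, c468x, c528x, c534x, c561x, c556x⟩ [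
    ⟨⟨⟨⟨c261x, c263x, c234x, c262x⟩, ⟨.ofNat 0, .ofNat 0, c14x⟩, ⟨.negSucc 0, .ofNat 0, c255x⟩, ⟨.ofNat 0, .ofNat 1, c470x⟩⟩, [235, 236, 237, 584]⟩, ⟨c14x, c14x, c530x, c534x, c561x, c556x⟩⟩,
    ⟨⟨⟨⟨c265x, c266x, c234x, c262x⟩, ⟨.ofNat 0, .ofNat 0, c468x⟩, ⟨.ofNat 1, .ofNat 0, c496x⟩, ⟨.ofNat 0, .ofNat 1, c470x⟩⟩, [260, 261, 262, 263, 264, 584]⟩, ⟨c468x, c468x, c528x, c527x, c561x, c556x⟩⟩,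
    ⟨⟨⟨⟨c266x, c267x, c246x, c262x⟩, ⟨.ofNat 0, .ofNat 0, c468x⟩, ⟨.ofNat 1, .ofNat 0, c496x⟩, ⟨.ofNat 0, .ofNat 1, c470x⟩⟩, [263, 264, 265, 584]⟩, ⟨c468x, c468x, c527x, c530x, c625x, c556x⟩⟩]) (.leaf ⟨c253x, c273x, c240x, c274x⟩ ⟨c14x, c468x, c14x, c473x, c560x, c643x⟩ [
    ⟨⟨⟨⟨c253x, c248x, c235x, c262x⟩, ⟨.ofNat 0, .ofNat 0, c14x⟩, ⟨.negSucc 0, .ofNat 0, c255x⟩, ⟨.ofNat 0, .ofNat 1, c470x⟩⟩, [243, 244, 245, 246, 584]⟩, ⟨c14x, c14x, c529x, c533x, c246x, c556x⟩⟩,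
    ⟨⟨⟨⟨c256x, c265x, c240x, c262x⟩, ⟨.ofNat 0, .ofNat 0, c468x⟩, ⟨.ofNat 1, .ofNat 0, c496x⟩, ⟨.ofNat 0, .ofNat 1, c470x⟩⟩, [259, 260, 261, 584]⟩, ⟨c468x, c468x, c14x, c528x, c560x, c556x⟩⟩,
    ⟨⟨⟨⟨c248x, c255x, c260x, c262x⟩, ⟨.ofNat 0, .ofNat 0, c14x⟩, ⟨.negSucc 0, .ofNat 0, c255x⟩, ⟨.ofNat 0, .ofNat 1, c470x⟩⟩, [245, 246, 247, 584]⟩, ⟨c14x, c14x, c14x, c529x, c557x, c556x⟩⟩,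
    ⟨⟨⟨⟨c271x, c273x, c250x, c274x⟩, ⟨.ofNat 0, .ofNat 0, c468x⟩, ⟨.ofNat 1, .ofNat 0, c496x⟩, ⟨.ofNat 0, .ofNat 1, c470x⟩⟩, [270, 569, 570, 571]⟩, ⟨c468x, c468x, c581x, c473x, c563x, c643x⟩⟩]))) (.node ⟨c269x, c304x, c250x, c291x⟩ ⟨c14x, c468x, c8x, c473x, c563x, c646x⟩ (.node ⟨c269x, c276x, c250x, c291x⟩ ⟨c14x, c468x, c8x, c473x, c563x, c646x⟩ (.leaf ⟨c269x, c270x, c250x, c288x⟩ ⟨c468x, c468x, c8x, c579x, c563x, c641x⟩ [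
    ⟨⟨⟨⟨c269x, c278x, c250x, c279x⟩, ⟨.ofNat 0, .ofNat 0, c468x⟩, ⟨.ofNat 1, .ofNat 0, c496x⟩, ⟨.ofNat 0, .ofNat 1, c470x⟩⟩, [269, 270, 580, 581, 582, 583, 584]⟩, ⟨c468x, c468x, c8x, c546x, c563x, c295x⟩⟩,
    ⟨⟨⟨⟨c278x, c280x, c250x, c281x⟩, ⟨.ofNat 0, .ofNat 0, c468x⟩, ⟨.ofNat 1, .ofNat 0, c496x⟩, ⟨.ofNat 0, .ofNat 1, c470x⟩⟩, [270, 579, 580, 581]⟩, ⟨c468x, c468x, c546x, c524x, c563x, c605x⟩⟩,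
    ⟨⟨⟨⟨c280x, c270x, c250x, c288x⟩, ⟨.ofNat 0, .ofNat 0, c468x⟩, ⟨.ofNat 1, .ofNat 0, c496x⟩, ⟨.ofNat 0, .ofNat 1, c470x⟩⟩, [270, 572, 573, 574, 578, 579, 580]⟩, ⟨c468x, c468x, c524x, c579x, c563x, c641x⟩⟩]) (.leaf ⟨c270x, c276x, c250x, c291x⟩ ⟨c14x, c468x, c579x, c473x, c563x, c646x⟩ [
    ⟨⟨⟨⟨c270x, c271x, c250x, c272x⟩, ⟨.ofNat 0, .ofNat 0, c468x⟩, ⟨.ofNat 1, .ofNat 0, c496x⟩, ⟨.ofNat 0, .ofNat 1, c470x⟩⟩, [270, 570, 571, 572, 573]⟩, ⟨c468x, c468x, c579x, c581x, c563x, c642x⟩⟩,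
    ⟨⟨⟨⟨c273x, c289x, c250x, c291x⟩, ⟨.negSucc 0, .ofNat 0, c275x⟩, ⟨.ofNat 0, .ofNat 0, c473x⟩, ⟨.ofNat 0, .ofNat 1, c470x⟩⟩, [270, 560, 561, 562, 568, 569, 570]⟩, ⟨c649x, c468x, c473x, c473x, c563x, c646x⟩⟩,
    ⟨⟨⟨⟨c275x, c276x, c250x, c277x⟩, ⟨.ofNat 0, .ofNat 0, c14x⟩, ⟨.negSucc 0, .ofNat 0, c498x⟩, ⟨.ofNat 0, .ofNat 1, c470x⟩⟩, [270, 555, 556, 557]⟩, ⟨c14x, c14x, c582x, c473x, c563x, c606x⟩⟩,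
    ⟨⟨⟨⟨c289x, c275x, c250x, c290x⟩, ⟨.negSucc 0, .ofNat 0, c275x⟩, ⟨.ofNat 0, .ofNat 0, c473x⟩, ⟨.ofNat 0, .ofNat 1, c470x⟩⟩, [270, 556, 557, 558, 560, 561]⟩, ⟨c14x, c649x, c473x, c473x, c563x, c608x⟩⟩])) (.node ⟨c276x, c304x, c250x, c286x⟩ ⟨c14x, c468x, c8x, c473x, c563x, c565x⟩ (.leaf ⟨c276x, c287x, c250x, c279x⟩ ⟨c14x, c14x, c8x, c582x, c563x, c295x⟩ [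
    ⟨⟨⟨⟨c276x, c282x, c250x, c281x⟩, ⟨.ofNat 0, .ofNat 0, c14x⟩, ⟨.negSucc 0, .ofNat 0, c498x⟩, ⟨.ofNat 0, .ofNat 1, c470x⟩⟩, [270, 552, 553, 554, 555, 556]⟩, ⟨c14x, c14x, c583x, c582x, c563x, c605x⟩⟩,
    ⟨⟨⟨⟨c282x, c283x, c250x, c284x⟩, ⟨.ofNat 0, .ofNat 0, c14x⟩, ⟨.negSucc 0, .ofNat 0, c498x⟩, ⟨.ofNat 0, .ofNat 1, c470x⟩⟩, [270, 551, 552, 553]⟩, ⟨c14x, c14x, c524x, c583x, c563x, c272x⟩⟩,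
    ⟨⟨⟨⟨c285x, c287x, c250x, c279x⟩, ⟨.ofNat 0, .ofNat 0, c14x⟩, ⟨.negSucc 0, .ofNat 0, c498x⟩, ⟨.ofNat 0, .ofNat 1, c470x⟩⟩, [270, 271, 272, 547, 548, 549]⟩, ⟨c14x, c14x, c8x, c546x, c563x, c295x⟩⟩]) (.leaf ⟨c283x, c304x, c250x, c286x⟩ ⟨c14x, c468x, c546x, c473x, c563x, c565x⟩ [
    ⟨⟨⟨⟨c283x, c285x, c250x, c286x⟩, ⟨.ofNat 0, .ofNat 0, c14x⟩, ⟨.negSucc 0, .ofNat 0, c498x⟩, ⟨.ofNat 0, .ofNat 1, c470x⟩⟩, [270, 548, 549, 550, 551, 552]⟩, ⟨c14x, c14x, c546x, c524x, c563x, c565x⟩⟩,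
    ⟨⟨⟨⟨c299x, c300x, c272x, c277x⟩, ⟨.ofNat 0, .ofNat 0, c468x⟩, ⟨.ofNat 1, .ofNat 0, c499x⟩, ⟨.ofNat 0, .ofNat 1, c470x⟩⟩, [281, 282, 283, 284]⟩, ⟨c468x, c468x, c579x, c580x, c642x, c606x⟩⟩,
    ⟨⟨⟨⟨c302x, c303x, c272x, c295x⟩, ⟨.ofNat 0, .ofNat 0, c468x⟩, ⟨.ofNat 1, .ofNat 0, c499x⟩, ⟨.ofNat 0, .ofNat 1, c470x⟩⟩, [284, 285, 288, 289]⟩, ⟨c468x, c468x, c582x, c581x, c642x, c607x⟩⟩,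
    ⟨⟨⟨⟨c303x, c304x, c274x, c295x⟩, ⟨.ofNat 0, .ofNat 0, c468x⟩, ⟨.ofNat 1, .ofNat 0, c499x⟩, ⟨.ofNat 0, .ofNat 1, c470x⟩⟩, [284, 285, 286, 287, 288]⟩, ⟨c468x, c468x, c581x, c473x, c643x, c607x⟩⟩]))))

def n101x : QT :=
  .node ⟨c270x, c347x, c262x, c361x⟩ ⟨c14x, c468x, c14x, c473x, c556x, c566x⟩ (.node ⟨c270x, c330x, c262x, c331x⟩ ⟨c14x, c468x, c14x, c473x, c556x, c628x⟩ (.node ⟨c270x, c315x, c262x, c311x⟩ ⟨c14x, c468x, c14x, c473x, c556x, c575x⟩ (.node ⟨c270x, c498x, c262x, c298x⟩ ⟨c14x, c468x, c14x, c473x, c556x, c552x⟩ (.leaf ⟨c270x, c294x, c277x, c288x⟩ ⟨c468x, c468x, c579x, c587x, c606x, c641x⟩ [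
    ⟨⟨⟨⟨c270x, c292x, c277x, c288x⟩, ⟨.ofNat 0, .ofNat 0, c468x⟩, ⟨.ofNat 1, .ofNat 0, c496x⟩, ⟨.ofNat 0, .ofNat 1, c470x⟩⟩, [573, 574, 575, 576, 578]⟩, ⟨c468x, c468x, c579x, c580x, c606x, c641x⟩⟩,
    ⟨⟨⟨⟨c292x, c307x, c286x, c288x⟩, ⟨.ofNat 0, .ofNat 0, c468x⟩, ⟨.ofNat 1, .ofNat 0, c496x⟩, ⟨.ofNat 0, .ofNat 1, c470x⟩⟩, [575, 576, 577, 578]⟩, ⟨c468x, c468x, c580x, c583x, c565x, c641x⟩⟩,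
    ⟨⟨⟨⟨c293x, c294x, c295x, c296x⟩, ⟨.ofNat 0, .ofNat 0, c468x⟩, ⟨.ofNat 1, .ofNat 0, c496x⟩, ⟨.ofNat 0, .ofNat 1, c470x⟩⟩, [565, 566, 567, 568]⟩, ⟨c468x, c468x, c582x, c587x, c607x, c644x⟩⟩]) (.leaf ⟨c294x, c498x, c262x, c298x⟩ ⟨c14x, c468x, c14x, c473x, c556x, c552x⟩ [
    ⟨⟨⟨⟨c294x, c271x, c295x, c309x⟩, ⟨.ofNat 0, .ofNat 0, c468x⟩, ⟨.ofNat 1, .ofNat 0, c496x⟩, ⟨.ofNat 0, .ofNat 1, c470x⟩⟩, [562, 563, 564, 565, 566, 568]⟩, ⟨c468x, c468x, c587x, c581x, c607x, c645x⟩⟩,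
    ⟨⟨⟨⟨c271x, c273x, c295x, c291x⟩, ⟨.ofNat 0, .ofNat 0, c468x⟩, ⟨.ofNat 1, .ofNat 0, c496x⟩, ⟨.ofNat 0, .ofNat 1, c470x⟩⟩, [562, 563, 568, 569]⟩, ⟨c468x, c468x, c581x, c473x, c607x, c646x⟩⟩,
    ⟨⟨⟨⟨c275x, c308x, c295x, c290x⟩, ⟨.ofNat 0, .ofNat 0, c14x⟩, ⟨.negSucc 0, .ofNat 0, c498x⟩, ⟨.ofNat 0, .ofNat 1, c470x⟩⟩, [557, 558, 559, 560]⟩, ⟨c14x, c14x, c581x, c473x, c607x, c608x⟩⟩,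
    ⟨⟨⟨⟨c287x, c498x, c262x, c298x⟩, ⟨.ofNat 0, .ofNat 0, c14x⟩, ⟨.negSucc 0, .ofNat 0, c498x⟩, ⟨.ofNat 0, .ofNat 1, c470x⟩⟩, [271, 272, 546, 547, 548]⟩, ⟨c14x, c14x, c14x, c8x, c556x, c552x⟩⟩])) (.node ⟨c498x, c315x, c262x, c311x⟩ ⟨c14x, c468x, c14x, c473x, c556x, c575x⟩ (.leaf ⟨c498x, c306x, c262x, c298x⟩ ⟨c14x, c468x, c14x, c473x, c556x, c552x⟩ [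
    ⟨⟨⟨⟨c498x, c500x, c262x, c298x⟩, ⟨.ofNat 1, .ofNat 0, c501x⟩, ⟨.ofNat 0, .ofNat 0, c14x⟩, ⟨.ofNat 0, .ofNat 1, c470x⟩⟩, [272, 546]⟩, ⟨c14x, c468x, c14x, c14x, c556x, c552x⟩⟩,
    ⟨⟨⟨⟨c300x, c301x, c272x, c286x⟩, ⟨.ofNat 0, .ofNat 0, c468x⟩, ⟨.ofNat 1, .ofNat 0, c499x⟩, ⟨.ofNat 0, .ofNat 1, c470x⟩⟩, [279, 280, 281, 282, 284]⟩, ⟨c468x, c468x, c580x, c583x, c642x, c565x⟩⟩,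
    ⟨⟨⟨⟨c305x, c306x, c277x, c295x⟩, ⟨.ofNat 0, .ofNat 0, c14x⟩, ⟨.negSucc 0, .ofNat 0, c325x⟩, ⟨.ofNat 0, .ofNat 1, c470x⟩⟩, [297, 298, 299, 300]⟩, ⟨c14x, c14x, c581x, c473x, c606x, c607x⟩⟩]) (.leaf ⟨c500x, c315x, c262x, c311x⟩ ⟨c14x, c468x, c14x, c581x, c556x, c575x⟩ [
    ⟨⟨⟨⟨c500x, c297x, c262x, c298x⟩, ⟨.ofNat 0, .ofNat 0, c468x⟩, ⟨.ofNat 1, .ofNat 0, c499x⟩, ⟨.ofNat 0, .ofNat 1, c470x⟩⟩, [272, 273, 274, 545, 546]⟩, ⟨c468x, c468x, c14x, c8x, c556x, c552x⟩⟩,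
    ⟨⟨⟨⟨c301x, c302x, c272x, c311x⟩, ⟨.ofNat 0, .ofNat 0, c468x⟩, ⟨.ofNat 1, .ofNat 0, c499x⟩, ⟨.ofNat 0, .ofNat 1, c470x⟩⟩, [278, 279, 280, 284, 288, 289, 290, 544]⟩, ⟨c468x, c468x, c583x, c582x, c642x, c575x⟩⟩,
    ⟨⟨⟨⟨c306x, c313x, c277x, c311x⟩, ⟨.ofNat 0, .ofNat 0, c14x⟩, ⟨.negSucc 0, .ofNat 0, c325x⟩, ⟨.ofNat 0, .ofNat 1, c470x⟩⟩, [296, 297, 298, 300, 301, 302, 544]⟩, ⟨c14x, c14x, c582x, c581x, c606x, c575x⟩⟩,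
    ⟨⟨⟨⟨c314x, c315x, c284x, c311x⟩, ⟨.ofNat 0, .ofNat 0, c14x⟩, ⟨.negSucc 0, .ofNat 0, c325x⟩, ⟨.ofNat 0, .ofNat 1, c470x⟩⟩, [302, 303, 304, 305, 306, 544]⟩, ⟨c14x, c14x, c524x, c583x, c272x, c575x⟩⟩]))) (.node ⟨c297x, c330x, c281x, c331x⟩ ⟨c14x, c468x, c14x, c473x, c605x, c628x⟩ (.node ⟨c297x, c317x, c281x, c311x⟩ ⟨c14x, c468x, c8x, c473x, c605x, c575x⟩ (.leaf ⟨c297x, c318x, c281x, c311x⟩ ⟨c468x, c468x, c8x, c587x, c605x, c575x⟩ [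
    ⟨⟨⟨⟨c297x, c310x, c279x, c311x⟩, ⟨.ofNat 0, .ofNat 0, c468x⟩, ⟨.ofNat 1, .ofNat 0, c499x⟩, ⟨.ofNat 0, .ofNat 1, c470x⟩⟩, [273, 274, 275, 544, 545, 546]⟩, ⟨c468x, c468x, c8x, c546x, c295x, c575x⟩⟩,
    ⟨⟨⟨⟨c310x, c312x, c281x, c311x⟩, ⟨.ofNat 0, .ofNat 0, c468x⟩, ⟨.ofNat 1, .ofNat 0, c499x⟩, ⟨.ofNat 0, .ofNat 1, c470x⟩⟩, [274, 275, 276, 277, 278, 544]⟩, ⟨c468x, c468x, c546x, c524x, c605x, c575x⟩⟩,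
    ⟨⟨⟨⟨c302x, c318x, c296x, c311x⟩, ⟨.ofNat 0, .ofNat 0, c468x⟩, ⟨.ofNat 1, .ofNat 0, c499x⟩, ⟨.ofNat 0, .ofNat 1, c470x⟩⟩, [289, 290, 291, 292, 544]⟩, ⟨c468x, c468x, c582x, c587x, c644x, c575x⟩⟩]) (.leaf ⟨c319x, c317x, c281x, c311x⟩ ⟨c14x, c649x, c8x, c473x, c605x, c575x⟩ [
    ⟨⟨⟨⟨c319x, c305x, c290x, c311x⟩, ⟨.negSucc 0, .ofNat 0, c305x⟩, ⟨.ofNat 0, .ofNat 0, c473x⟩, ⟨.ofNat 0, .ofNat 1, c470x⟩⟩, [294, 295, 296, 544]⟩, ⟨c14x, c649x, c473x, c473x, c608x, c575x⟩⟩,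
    ⟨⟨⟨⟨c313x, c314x, c281x, c311x⟩, ⟨.ofNat 0, .ofNat 0, c14x⟩, ⟨.negSucc 0, .ofNat 0, c325x⟩, ⟨.ofNat 0, .ofNat 1, c470x⟩⟩, [301, 302, 303, 544]⟩, ⟨c14x, c14x, c583x, c582x, c605x, c575x⟩⟩,
    ⟨⟨⟨⟨c315x, c316x, c286x, c311x⟩, ⟨.ofNat 0, .ofNat 0, c14x⟩, ⟨.negSucc 0, .ofNat 0, c325x⟩, ⟨.ofNat 0, .ofNat 1, c470x⟩⟩, [305, 306, 307, 544]⟩, ⟨c14x, c14x, c546x, c524x, c565x, c575x⟩⟩,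
    ⟨⟨⟨⟨c316x, c317x, c279x, c311x⟩, ⟨.ofNat 0, .ofNat 0, c14x⟩, ⟨.negSucc 0, .ofNat 0, c325x⟩, ⟨.ofNat 0, .ofNat 1, c470x⟩⟩, [306, 307, 308, 309, 310, 543, 544]⟩, ⟨c14x, c14x, c8x, c546x, c295x, c575x⟩⟩])) (.node ⟨c312x, c330x, c290x, c331x⟩ ⟨c14x, c468x, c14x, c473x, c608x, c628x⟩ (.leaf ⟨c312x, c306x, c290x, c311x⟩ ⟨c14x, c468x, c524x, c473x, c608x, c575x⟩ [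
    ⟨⟨⟨⟨c312x, c301x, c288x, c311x⟩, ⟨.ofNat 0, .ofNat 0, c468x⟩, ⟨.ofNat 1, .ofNat 0, c499x⟩, ⟨.ofNat 0, .ofNat 1, c470x⟩⟩, [277, 278, 279, 544]⟩, ⟨c468x, c468x, c524x, c583x, c641x, c575x⟩⟩,
    ⟨⟨⟨⟨c303x, c304x, c291x, c311x⟩, ⟨.ofNat 0, .ofNat 0, c468x⟩, ⟨.ofNat 1, .ofNat 0, c499x⟩, ⟨.ofNat 0, .ofNat 1, c470x⟩⟩, [292, 293, 294, 544]⟩, ⟨c468x, c468x, c581x, c473x, c646x, c575x⟩⟩,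
    ⟨⟨⟨⟨c305x, c306x, c290x, c311x⟩, ⟨.ofNat 0, .ofNat 0, c14x⟩, ⟨.negSucc 0, .ofNat 0, c325x⟩, ⟨.ofNat 0, .ofNat 1, c470x⟩⟩, [296, 297, 544]⟩, ⟨c14x, c14x, c581x, c473x, c608x, c575x⟩⟩]) (.leaf ⟨c318x, c330x, c291x, c331x⟩ ⟨c649x, c468x, c14x, c473x, c646x, c628x⟩ [
    ⟨⟨⟨⟨c318x, c303x, c309x, c311x⟩, ⟨.ofNat 0, .ofNat 0, c468x⟩, ⟨.ofNat 1, .ofNat 0, c499x⟩, ⟨.ofNat 0, .ofNat 1, c470x⟩⟩, [291, 292, 293, 544]⟩, ⟨c468x, c468x, c587x, c581x, c645x, c575x⟩⟩,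
    ⟨⟨⟨⟨c304x, c319x, c291x, c311x⟩, ⟨.negSucc 0, .ofNat 0, c305x⟩, ⟨.ofNat 0, .ofNat 0, c473x⟩, ⟨.ofNat 0, .ofNat 1, c470x⟩⟩, [294, 295, 544]⟩, ⟨c649x, c468x, c473x, c473x, c646x, c575x⟩⟩,
    ⟨⟨⟨⟨c327x, c328x, c298x, c329x⟩, ⟨.ofNat 0, .ofNat 0, c468x⟩, ⟨.ofNat 1, .ofNat 0, c502x⟩, ⟨.ofNat 0, .ofNat 1, c470x⟩⟩, [310, 519, 520, 521]⟩, ⟨c468x, c468x, c14x, c529x, c552x, c626x⟩⟩,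
    ⟨⟨⟨⟨c328x, c330x, c298x, c331x⟩, ⟨.ofNat 0, .ofNat 0, c468x⟩, ⟨.ofNat 1, .ofNat 0, c502x⟩, ⟨.ofNat 0, .ofNat 1, c470x⟩⟩, [310, 517, 518, 519, 520]⟩, ⟨c468x, c468x, c529x, c533x, c552x, c628x⟩⟩])))) (.node ⟨c317x, c347x, c298x, c361x⟩ ⟨c14x, c468x, c14x, c473x, c552x, c566x⟩ (.node ⟨c317x, c347x, c298x, c340x⟩ ⟨c14x, c468x, c14x, c8x, c552x, c627x⟩ (.node ⟨c317x, c327x, c298x, c340x⟩ ⟨c14x, c468x, c14x, c8x, c552x, c627x⟩ (.leaf ⟨c317x, c321x, c298x, c336x⟩ ⟨c14x, c14x, c527x, c8x, c552x, c573x⟩ [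
    ⟨⟨⟨⟨c317x, c334x, c298x, c335x⟩, ⟨.ofNat 0, .ofNat 0, c14x⟩, ⟨.negSucc 0, .ofNat 0, c325x⟩, ⟨.ofNat 0, .ofNat 1, c470x⟩⟩, [309, 310, 541, 542, 543, 544]⟩, ⟨c14x, c14x, c534x, c8x, c552x, c345x⟩⟩,
    ⟨⟨⟨⟨c334x, c320x, c298x, c336x⟩, ⟨.ofNat 0, .ofNat 0, c14x⟩, ⟨.negSucc 0, .ofNat 0, c325x⟩, ⟨.ofNat 0, .ofNat 1, c470x⟩⟩, [310, 538, 539, 540, 541, 542]⟩, ⟨c14x, c14x, c530x, c534x, c552x, c573x⟩⟩,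
    ⟨⟨⟨⟨c320x, c321x, c298x, c322x⟩, ⟨.ofNat 0, .ofNat 0, c14x⟩, ⟨.negSucc 0, .ofNat 0, c325x⟩, ⟨.ofNat 0, .ofNat 1, c470x⟩⟩, [310, 537, 538, 539]⟩, ⟨c14x, c14x, c527x, c530x, c552x, c331x⟩⟩]) (.leaf ⟨c321x, c327x, c298x, c340x⟩ ⟨c14x, c468x, c14x, c527x, c552x, c627x⟩ [
    ⟨⟨⟨⟨c321x, c323x, c298x, c324x⟩, ⟨.ofNat 0, .ofNat 0, c14x⟩, ⟨.negSucc 0, .ofNat 0, c325x⟩, ⟨.ofNat 0, .ofNat 1, c470x⟩⟩, [310, 534, 535, 536, 537, 538]⟩, ⟨c14x, c14x, c528x, c527x, c552x, c570x⟩⟩,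
    ⟨⟨⟨⟨c323x, c325x, c298x, c326x⟩, ⟨.ofNat 0, .ofNat 0, c14x⟩, ⟨.negSucc 0, .ofNat 0, c325x⟩, ⟨.ofNat 0, .ofNat 1, c470x⟩⟩, [310, 533, 534, 535]⟩, ⟨c14x, c14x, c14x, c528x, c552x, c567x⟩⟩,
    ⟨⟨⟨⟨c325x, c337x, c298x, c338x⟩, ⟨.ofNat 1, .ofNat 0, c503x⟩, ⟨.ofNat 0, .ofNat 0, c14x⟩, ⟨.ofNat 0, .ofNat 1, c470x⟩⟩, [310, 529, 530, 532, 533, 534]⟩, ⟨c14x, c649x, c14x, c14x, c552x, c569x⟩⟩,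
    ⟨⟨⟨⟨c337x, c327x, c298x, c340x⟩, ⟨.ofNat 1, .ofNat 0, c503x⟩, ⟨.ofNat 0, .ofNat 0, c14x⟩, ⟨.ofNat 0, .ofNat 1, c470x⟩⟩, [310, 520, 521, 522, 528, 529, 530]⟩, ⟨c649x, c468x, c14x, c14x, c552x, c627x⟩⟩])) (.node ⟨c330x, c347x, c298x, c339x⟩ ⟨c14x, c468x, c14x, c8x, c552x, c631x⟩ (.leaf ⟨c330x, c342x, c298x, c339x⟩ ⟨c468x, c468x, c533x, c8x, c552x, c631x⟩ [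
    ⟨⟨⟨⟨c330x, c332x, c298x, c339x⟩, ⟨.ofNat 0, .ofNat 0, c468x⟩, ⟨.ofNat 1, .ofNat 0, c502x⟩, ⟨.ofNat 0, .ofNat 1, c470x⟩⟩, [310, 510, 511, 512, 516, 517, 518]⟩, ⟨c468x, c468x, c533x, c530x, c552x, c631x⟩⟩,
    ⟨⟨⟨⟨c332x, c333x, c298x, c324x⟩, ⟨.ofNat 0, .ofNat 0, c468x⟩, ⟨.ofNat 1, .ofNat 0, c502x⟩, ⟨.ofNat 0, .ofNat 1, c470x⟩⟩, [310, 509, 510, 511]⟩, ⟨c468x, c468x, c530x, c534x, c552x, c570x⟩⟩,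
    ⟨⟨⟨⟨c333x, c342x, c298x, c335x⟩, ⟨.ofNat 0, .ofNat 0, c468x⟩, ⟨.ofNat 1, .ofNat 0, c502x⟩, ⟨.ofNat 0, .ofNat 1, c470x⟩⟩, [310, 311, 312, 507, 508, 509, 510]⟩, ⟨c468x, c468x, c534x, c8x, c552x, c345x⟩⟩]) (.leaf ⟨c348x, c347x, c329x, c345x⟩ ⟨c14x, c468x, c14x, c533x, c626x, c568x⟩ [
    ⟨⟨⟨⟨c348x, c349x, c326x, c345x⟩, ⟨.ofNat 0, .ofNat 0, c14x⟩, ⟨.negSucc 0, .ofNat 0, c349x⟩, ⟨.ofNat 0, .ofNat 1, c470x⟩⟩, [322, 323, 324, 325]⟩, ⟨c14x, c14x, c14x, c529x, c567x, c568x⟩⟩,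
    ⟨⟨⟨⟨c343x, c344x, c329x, c345x⟩, ⟨.ofNat 0, .ofNat 0, c468x⟩, ⟨.ofNat 1, .ofNat 0, c504x⟩, ⟨.ofNat 0, .ofNat 1, c470x⟩⟩, [334, 335, 336, 337, 338]⟩, ⟨c468x, c468x, c14x, c529x, c626x, c568x⟩⟩,
    ⟨⟨⟨⟨c344x, c350x, c331x, c345x⟩, ⟨.ofNat 0, .ofNat 0, c468x⟩, ⟨.ofNat 1, .ofNat 0, c504x⟩, ⟨.ofNat 0, .ofNat 1, c470x⟩⟩, [333, 334, 337, 338]⟩, ⟨c468x, c468x, c529x, c528x, c628x, c568x⟩⟩,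
    ⟨⟨⟨⟨c346x, c347x, c331x, c326x⟩, ⟨.ofNat 0, .ofNat 0, c468x⟩, ⟨.ofNat 1, .ofNat 0, c504x⟩, ⟨.ofNat 0, .ofNat 1, c470x⟩⟩, [338, 339, 340, 341]⟩, ⟨c468x, c468x, c532x, c533x, c628x, c567x⟩⟩]))) (.node ⟨c352x, c346x, c311x, c361x⟩ ⟨c14x, c468x, c14x, c473x, c575x, c566x⟩ (.node ⟨c352x, c505x, c311x, c359x⟩ ⟨c14x, c468x, c14x, c473x, c575x, c574x⟩ (.leaf ⟨c352x, c353x, c345x, c354x⟩ ⟨c14x, c468x, c14x, c19x, c568x, c629x⟩ [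
    ⟨⟨⟨⟨c352x, c325x, c345x, c338x⟩, ⟨.ofNat 0, .ofNat 0, c14x⟩, ⟨.negSucc 0, .ofNat 0, c325x⟩, ⟨.ofNat 0, .ofNat 1, c470x⟩⟩, [530, 531, 532, 533]⟩, ⟨c14x, c14x, c14x, c529x, c568x, c569x⟩⟩,
    ⟨⟨⟨⟨c327x, c328x, c345x, c340x⟩, ⟨.ofNat 0, .ofNat 0, c468x⟩, ⟨.ofNat 1, .ofNat 0, c502x⟩, ⟨.ofNat 0, .ofNat 1, c470x⟩⟩, [521, 522, 527, 528]⟩, ⟨c468x, c468x, c14x, c529x, c568x, c627x⟩⟩,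
    ⟨⟨⟨⟨c328x, c353x, c345x, c354x⟩, ⟨.ofNat 0, .ofNat 0, c468x⟩, ⟨.ofNat 1, .ofNat 0, c502x⟩, ⟨.ofNat 0, .ofNat 1, c470x⟩⟩, [522, 524, 525, 526, 527, 528]⟩, ⟨c468x, c468x, c529x, c19x, c568x, c629x⟩⟩]) (.leaf ⟨c353x, c505x, c311x, c359x⟩ ⟨c468x, c468x, c19x, c473x, c575x, c574x⟩ [
    ⟨⟨⟨⟨c353x, c355x, c345x, c356x⟩, ⟨.ofNat 0, .ofNat 0, c468x⟩, ⟨.ofNat 1, .ofNat 0, c502x⟩, ⟨.ofNat 0, .ofNat 1, c470x⟩⟩, [522, 523, 524, 525]⟩, ⟨c468x, c468x, c19x, c528x, c568x, c630x⟩⟩,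
    ⟨⟨⟨⟨c357x, c341x, c336x, c339x⟩, ⟨.ofNat 0, .ofNat 0, c468x⟩, ⟨.ofNat 1, .ofNat 0, c502x⟩, ⟨.ofNat 0, .ofNat 1, c470x⟩⟩, [512, 513, 514, 515]⟩, ⟨c468x, c468x, c527x, c532x, c573x, c631x⟩⟩,
    ⟨⟨⟨⟨c341x, c330x, c326x, c339x⟩, ⟨.ofNat 0, .ofNat 0, c468x⟩, ⟨.ofNat 1, .ofNat 0, c502x⟩, ⟨.ofNat 0, .ofNat 1, c470x⟩⟩, [512, 514, 515, 516, 517]⟩, ⟨c468x, c468x, c532x, c533x, c567x, c631x⟩⟩,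
    ⟨⟨⟨⟨c342x, c505x, c311x, c359x⟩, ⟨.ofNat 0, .ofNat 0, c468x⟩, ⟨.ofNat 1, .ofNat 0, c502x⟩, ⟨.ofNat 0, .ofNat 1, c470x⟩⟩, [311, 312, 506, 507, 508]⟩, ⟨c468x, c468x, c8x, c473x, c575x, c574x⟩⟩])) (.node ⟨c505x, c346x, c311x, c361x⟩ ⟨c14x, c468x, c529x, c473x, c575x, c566x⟩ (.leaf ⟨c505x, c346x, c311x, c359x⟩ ⟨c14x, c468x, c527x, c473x, c575x, c574x⟩ [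
    ⟨⟨⟨⟨c505x, c506x, c311x, c359x⟩, ⟨.negSucc 0, .ofNat 0, c506x⟩, ⟨.ofNat 0, .ofNat 0, c473x⟩, ⟨.ofNat 0, .ofNat 1, c470x⟩⟩, [312, 506]⟩, ⟨c14x, c468x, c473x, c473x, c575x, c574x⟩⟩,
    ⟨⟨⟨⟨c506x, c358x, c311x, c359x⟩, ⟨.ofNat 0, .ofNat 0, c14x⟩, ⟨.negSucc 0, .ofNat 0, c349x⟩, ⟨.ofNat 0, .ofNat 1, c470x⟩⟩, [312, 313, 314, 505, 506]⟩, ⟨c14x, c14x, c8x, c473x, c575x, c574x⟩⟩,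
    ⟨⟨⟨⟨c351x, c346x, c331x, c336x⟩, ⟨.ofNat 0, .ofNat 0, c468x⟩, ⟨.ofNat 1, .ofNat 0, c504x⟩, ⟨.ofNat 0, .ofNat 1, c470x⟩⟩, [338, 340, 341, 342, 343]⟩, ⟨c468x, c468x, c527x, c532x, c628x, c573x⟩⟩]) (.leaf ⟨c362x, c351x, c331x, c361x⟩ ⟨c14x, c468x, c529x, c530x, c628x, c566x⟩ [
    ⟨⟨⟨⟨c362x, c363x, c322x, c361x⟩, ⟨.ofNat 0, .ofNat 0, c14x⟩, ⟨.negSucc 0, .ofNat 0, c349x⟩, ⟨.ofNat 0, .ofNat 1, c470x⟩⟩, [316, 317, 318, 319, 320, 504]⟩, ⟨c14x, c14x, c527x, c530x, c331x, c566x⟩⟩,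
    ⟨⟨⟨⟨c363x, c360x, c324x, c361x⟩, ⟨.ofNat 0, .ofNat 0, c14x⟩, ⟨.negSucc 0, .ofNat 0, c349x⟩, ⟨.ofNat 0, .ofNat 1, c470x⟩⟩, [319, 320, 321, 504]⟩, ⟨c14x, c14x, c528x, c527x, c570x, c566x⟩⟩,
    ⟨⟨⟨⟨c360x, c348x, c326x, c361x⟩, ⟨.ofNat 0, .ofNat 0, c14x⟩, ⟨.negSucc 0, .ofNat 0, c349x⟩, ⟨.ofNat 0, .ofNat 1, c470x⟩⟩, [320, 321, 322, 324, 325, 326, 504]⟩, ⟨c14x, c14x, c529x, c528x, c567x, c566x⟩⟩,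
    ⟨⟨⟨⟨c350x, c351x, c331x, c361x⟩, ⟨.ofNat 0, .ofNat 0, c468x⟩, ⟨.ofNat 1, .ofNat 0, c504x⟩, ⟨.ofNat 0, .ofNat 1, c470x⟩⟩, [332, 333, 334, 338, 342, 343, 344, 504]⟩, ⟨c468x, c468x, c528x, c527x, c628x, c566x⟩⟩]))))

def n10x : QT :=
  .node ⟨c219x, c347x, c204x, c361x⟩ ⟨c14x, c468x, c14x, c473x, c525x, c566x⟩ (n100x) (n101x)

def n110x : QT :=
  .node ⟨c358x, c435x, c324x, c428x⟩ ⟨c14x, c468x, c14x, c473x, c570x, c436x⟩ (.node ⟨c358x, c397x, c324x, c393x⟩ ⟨c14x, c468x, c14x, c473x, c570x, c385x⟩ (.node ⟨c358x, c371x, c324x, c376x⟩ ⟨c14x, c468x, c14x, c473x, c570x, c614x⟩ (.node ⟨c358x, c369x, c324x, c361x⟩ ⟨c14x, c468x, c14x, c8x, c570x, c566x⟩ (.leaf ⟨c358x, c349x, c335x, c361x⟩ ⟨c14x, c14x,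 c14x, c8x, c345x, c566x⟩ [
    ⟨⟨⟨⟨c358x, c366x, c335x, c361x⟩, ⟨.ofNat 0, .ofNat 0, c14x⟩, ⟨.negSucc 0, .ofNat 0, c349x⟩, ⟨.ofNat 0, .ofNat 1, c470x⟩⟩, [313, 314, 315, 316, 504, 505, 506]⟩, ⟨c14x, c14x, c534x, c8x, c345x, c566x⟩⟩,
    ⟨⟨⟨⟨c366x, c362x, c336x, c361x⟩, ⟨.ofNat 0, .ofNat 0, c14x⟩, ⟨.negSucc 0, .ofNat 0, c349x⟩, ⟨.ofNat 0, .ofNat 1, c470x⟩⟩, [315, 316, 317, 504]⟩, ⟨c14x, c14x, c530x, c534x, c573x, c566x⟩⟩,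
    ⟨⟨⟨⟨c348x, c349x, c338x, c361x⟩, ⟨.ofNat 0, .ofNat 0, c14x⟩, ⟨.negSucc 0, .ofNat 0, c349x⟩, ⟨.ofNat 0, .ofNat 1, c470x⟩⟩, [325, 326, 504]⟩, ⟨c14x, c14x, c14x, c529x, c569x, c566x⟩⟩]) (.leaf ⟨c349x, c369x, c324x, c361x⟩ ⟨c14x, c468x, c14x, c8x, c570x, c566x⟩ [
    ⟨⟨⟨⟨c349x, c367x, c338x, c361x⟩, ⟨.ofNat 1, .ofNat 0, c507x⟩, ⟨.ofNat 0, .ofNat 0, c14x⟩, ⟨.ofNat 0, .ofNat 1, c470x⟩⟩, [326, 327, 328, 504]⟩, ⟨c14x, c649x, c14x, c14x, c569x, c566x⟩⟩,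
    ⟨⟨⟨⟨c368x, c350x, c356x, c361x⟩, ⟨.ofNat 0, .ofNat 0, c468x⟩, ⟨.ofNat 1, .ofNat 0, c504x⟩, ⟨.ofNat 0, .ofNat 1, c470x⟩⟩, [330, 331, 332, 333, 504]⟩, ⟨c468x, c468x, c19x, c528x, c630x, c566x⟩⟩,
    ⟨⟨⟨⟨c364x, c365x, c324x, c361x⟩, ⟨.ofNat 0, .ofNat 0, c468x⟩, ⟨.ofNat 1, .ofNat 0, c504x⟩, ⟨.ofNat 0, .ofNat 1, c470x⟩⟩, [344, 345, 346, 347, 348, 504]⟩, ⟨c468x, c468x, c530x, c534x, c570x, c566x⟩⟩,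
    ⟨⟨⟨⟨c365x, c369x, c335x, c361x⟩, ⟨.ofNat 0, .ofNat 0, c468x⟩, ⟨.ofNat 1, .ofNat 0, c504x⟩, ⟨.ofNat 0, .ofNat 1, c470x⟩⟩, [347, 348, 349, 350, 503, 504]⟩, ⟨c468x, c468x, c534x, c8x, c345x, c566x⟩⟩])) (.node ⟨c367x, c371x, c339x, c376x⟩ ⟨c14x, c468x, c14x, c473x, c631x, c614x⟩ (.leaf ⟨c367x, c364x, c339x, c361x⟩ ⟨c649x, c468x, c14x, c530x, c631x, c566x⟩ [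
    ⟨⟨⟨⟨c367x, c343x, c340x, c361x⟩, ⟨.ofNat 1, .ofNat 0, c507x⟩, ⟨.ofNat 0, .ofNat 0, c14x⟩, ⟨.ofNat 0, .ofNat 1, c470x⟩⟩, [327, 328, 504]⟩, ⟨c649x, c468x, c14x, c14x, c627x, c566x⟩⟩,
    ⟨⟨⟨⟨c343x, c344x, c340x, c361x⟩, ⟨.ofNat 0, .ofNat 0, c468x⟩, ⟨.ofNat 1, .ofNat 0, c504x⟩, ⟨.ofNat 0, .ofNat 1, c470x⟩⟩, [328, 329, 330, 504]⟩, ⟨c468x, c468x, c14x, c529x, c627x, c566x⟩⟩,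
    ⟨⟨⟨⟨c351x, c364x, c339x, c361x⟩, ⟨.ofNat 0, .ofNat 0, c468x⟩, ⟨.ofNat 1, .ofNat 0, c504x⟩, ⟨.ofNat 0, .ofNat 1, c470x⟩⟩, [343, 344, 345, 504]⟩, ⟨c468x, c468x, c527x, c530x, c631x, c566x⟩⟩]) (.leaf ⟨c344x, c371x, c354x, c376x⟩ ⟨c14x, c468x, c529x, c473x, c629x, c614x⟩ [
    ⟨⟨⟨⟨c344x, c368x, c354x, c361x⟩, ⟨.ofNat 0, .ofNat 0, c468x⟩, ⟨.ofNat 1, .ofNat 0, c504x⟩, ⟨.ofNat 0, .ofNat 1, c470x⟩⟩, [329, 330, 331, 504]⟩, ⟨c468x, c468x, c529x, c19x, c629x, c566x⟩⟩,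
    ⟨⟨⟨⟨c370x, c371x, c359x, c372x⟩, ⟨.ofNat 0, .ofNat 0, c14x⟩, ⟨.negSucc 0, .ofNat 0, c508x⟩, ⟨.ofNat 0, .ofNat 1, c470x⟩⟩, [350, 485, 486, 487]⟩, ⟨c14x, c14x, c587x, c581x, c574x, c613x⟩⟩,
    ⟨⟨⟨⟨c374x, c399x, c359x, c376x⟩, ⟨.negSucc 0, .ofNat 0, c399x⟩, ⟨.ofNat 0, .ofNat 0, c473x⟩, ⟨.ofNat 0, .ofNat 1, c470x⟩⟩, [350, 488, 489]⟩, ⟨c14x, c650x, c473x, c473x, c574x, c614x⟩⟩,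
    ⟨⟨⟨⟨c399x, c370x, c359x, c376x⟩, ⟨.ofNat 0, .ofNat 0, c14x⟩, ⟨.negSucc 0, .ofNat 0, c508x⟩, ⟨.ofNat 0, .ofNat 1, c470x⟩⟩, [350, 486, 487, 488]⟩, ⟨c14x, c14x, c581x, c473x, c574x, c614x⟩⟩]))) (.node ⟨c369x, c397x, c359x, c393x⟩ ⟨c14x, c468x, c8x, c473x, c574x, c385x⟩ (.node ⟨c369x, c374x, c359x, c388x⟩ ⟨c650x, c468x, c8x, c473x, c574x, c610x⟩ (.leaf ⟨c369x, c384x, c359x, c385x⟩ ⟨c468x, c468x, c8x, c583x, c574x, c647x⟩ [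
    ⟨⟨⟨⟨c369x, c380x, c359x, c381x⟩, ⟨.ofNat 0, .ofNat 0, c468x⟩, ⟨.ofNat 1, .ofNat 0, c504x⟩, ⟨.ofNat 0, .ofNat 1, c470x⟩⟩, [349, 350, 500, 501, 502, 503, 504]⟩, ⟨c468x, c468x, c8x, c546x, c574x, c576x⟩⟩,
    ⟨⟨⟨⟨c380x, c382x, c359x, c383x⟩, ⟨.ofNat 0, .ofNat 0, c468x⟩, ⟨.ofNat 1, .ofNat 0, c504x⟩, ⟨.ofNat 0, .ofNat 1, c470x⟩⟩, [350, 499, 500, 501]⟩, ⟨c468x, c468x, c546x, c524x, c574x, c611x⟩⟩,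
    ⟨⟨⟨⟨c382x, c384x, c359x, c385x⟩, ⟨.ofNat 0, .ofNat 0, c468x⟩, ⟨.ofNat 1, .ofNat 0, c504x⟩, ⟨.ofNat 0, .ofNat 1, c470x⟩⟩, [350, 496, 497, 498, 499, 500]⟩, ⟨c468x, c468x, c524x, c583x, c574x, c647x⟩⟩]) (.leaf ⟨c384x, c374x, c359x, c388x⟩ ⟨c650x, c468x, c583x, c473x, c574x, c610x⟩ [
    ⟨⟨⟨⟨c384x, c386x, c359x, c387x⟩, ⟨.ofNat 0, .ofNat 0, c468x⟩, ⟨.ofNat 1, .ofNat 0, c504x⟩, ⟨.ofNat 0, .ofNat 1, c470x⟩⟩, [350, 495, 496, 497]⟩, ⟨c468x, c468x, c583x, c582x, c574x, c578x⟩⟩,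
    ⟨⟨⟨⟨c386x, c373x, c359x, c388x⟩, ⟨.ofNat 0, .ofNat 0, c468x⟩, ⟨.ofNat 1, .ofNat 0, c504x⟩, ⟨.ofNat 0, .ofNat 1, c470x⟩⟩, [350, 490, 491, 492, 494, 495, 496]⟩, ⟨c468x, c468x, c582x, c581x, c574x, c610x⟩⟩,
    ⟨⟨⟨⟨c373x, c398x, c359x, c375x⟩, ⟨.ofNat 0, .ofNat 0, c468x⟩, ⟨.ofNat 1, .ofNat 0, c504x⟩, ⟨.ofNat 0, .ofNat 1, c470x⟩⟩, [350, 490, 491]⟩, ⟨c468x, c468x, c581x, c473x, c574x, c648x⟩⟩,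
    ⟨⟨⟨⟨c398x, c374x, c359x, c375x⟩, ⟨.negSucc 0, .ofNat 0, c399x⟩, ⟨.ofNat 0, .ofNat 0, c473x⟩, ⟨.ofNat 0, .ofNat 1, c470x⟩⟩, [350, 488, 489, 490]⟩, ⟨c650x, c468x, c473x, c473x, c574x, c648x⟩⟩])) (.node ⟨c371x, c397x, c359x, c393x⟩ ⟨c14x, c14x, c8x, c473x, c574x, c385x⟩ (.leaf ⟨c371x, c392x, c359x, c381x⟩ ⟨c14x, c14x, c8x, c587x, c574x, c576x⟩ [
    ⟨⟨⟨⟨c371x, c389x, c359x, c390x⟩, ⟨.ofNat 0, .ofNat 0, c14x⟩, ⟨.negSucc 0, .ofNat 0, c508x⟩, ⟨.ofNat 0, .ofNat 1, c470x⟩⟩, [350, 483, 484, 485, 486]⟩, ⟨c14x, c14x, c582x, c587x, c574x, c612x⟩⟩,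
    ⟨⟨⟨⟨c377x, c378x, c359x, c379x⟩, ⟨.ofNat 0, .ofNat 0, c14x⟩, ⟨.negSucc 0, .ofNat 0, c508x⟩, ⟨.ofNat 0, .ofNat 1, c470x⟩⟩, [350, 471, 472, 473]⟩, ⟨c14x, c14x, c524x, c583x, c574x, c609x⟩⟩,
    ⟨⟨⟨⟨c391x, c392x, c359x, c381x⟩, ⟨.ofNat 0, .ofNat 0, c14x⟩, ⟨.negSucc 0, .ofNat 0, c508x⟩, ⟨.ofNat 0, .ofNat 1, c470x⟩⟩, [350, 351, 352, 467, 468, 469]⟩, ⟨c14x, c14x, c8x, c546x, c574x, c576x⟩⟩]) (.leaf ⟨c389x, c397x, c359x, c393x⟩ ⟨c14x, c14x, c546x, c473x, c574x, c385x⟩ [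
    ⟨⟨⟨⟨c389x, c377x, c359x, c393x⟩, ⟨.ofNat 0, .ofNat 0, c14x⟩, ⟨.negSucc 0, .ofNat 0, c508x⟩, ⟨.ofNat 0, .ofNat 1, c470x⟩⟩, [350, 472, 473, 474, 478, 482, 483, 484]⟩, ⟨c14x, c14x, c583x, c582x, c574x, c385x⟩⟩,
    ⟨⟨⟨⟨c378x, c391x, c359x, c387x⟩, ⟨.ofNat 0, .ofNat 0, c14x⟩, ⟨.negSucc 0, .ofNat 0, c508x⟩, ⟨.ofNat 0, .ofNat 1, c470x⟩⟩, [350, 468, 469, 470, 471, 472]⟩, ⟨c14x, c14x, c546x, c524x, c574x, c578x⟩⟩,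
    ⟨⟨⟨⟨c394x, c395x, c376x, c396x⟩, ⟨.ofNat 0, .ofNat 0, c14x⟩, ⟨.negSucc 0, .ofNat 0, c431x⟩, ⟨.ofNat 0, .ofNat 1, c470x⟩⟩, [368, 369, 374, 375]⟩, ⟨c14x, c14x, c581x, c473x, c614x, c381x⟩⟩,
    ⟨⟨⟨⟨c395x, c397x, c372x, c396x⟩, ⟨.ofNat 0, .ofNat 0, c14x⟩, ⟨.negSucc 0, .ofNat 0, c431x⟩, ⟨.ofNat 0, .ofNat 1, c470x⟩⟩, [368, 369, 370, 371, 372, 374]⟩, ⟨c14x, c14x, c587x, c581x, c613x, c381x⟩⟩])))) (.node ⟨c373x, c435x, c361x, c428x⟩ ⟨c14x, c468x, c14x, c473x, c566x, c436x⟩ (.node ⟨c373x, c413x, c361x, c412x⟩ ⟨c14x, c468x, c14x, c473x, c566x, c577x⟩ (.node ⟨c373x, c509x, c361x, c404x⟩ ⟨c14x, c468x, c14x, c473x, c566x, c571x⟩ (.leaf ⟨c373x, c389x, c396x, c400x⟩ ⟨c14x, c468x, c582x, c473x, c381x, c615x⟩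 [
    ⟨⟨⟨⟨c373x, c398x, c396x, c388x⟩, ⟨.ofNat 0, .ofNat 0, c468x⟩, ⟨.ofNat 1, .ofNat 0, c504x⟩, ⟨.ofNat 0, .ofNat 1, c470x⟩⟩, [491, 492, 493, 494]⟩, ⟨c468x, c468x, c581x, c473x, c381x, c610x⟩⟩,
    ⟨⟨⟨⟨c399x, c370x, c396x, c400x⟩, ⟨.ofNat 0, .ofNat 0, c14x⟩, ⟨.negSucc 0, .ofNat 0, c508x⟩, ⟨.ofNat 0, .ofNat 1, c470x⟩⟩, [478, 479, 480, 481, 482]⟩, ⟨c14x, c14x, c581x, c473x, c381x, c615x⟩⟩,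
    ⟨⟨⟨⟨c370x, c389x, c396x, c393x⟩, ⟨.ofNat 0, .ofNat 0, c14x⟩, ⟨.negSucc 0, .ofNat 0, c508x⟩, ⟨.ofNat 0, .ofNat 1, c470x⟩⟩, [478, 479, 482, 483]⟩, ⟨c14x, c14x, c582x, c581x, c381x, c385x⟩⟩]) (.leaf ⟨c377x, c509x, c361x, c404x⟩ ⟨c14x, c468x, c14x, c583x, c566x, c571x⟩ [
    ⟨⟨⟨⟨c377x, c401x, c383x, c393x⟩, ⟨.ofNat 0, .ofNat 0, c14x⟩, ⟨.negSucc 0, .ofNat 0, c508x⟩, ⟨.ofNat 0, .ofNat 1, c470x⟩⟩, [473, 474, 475, 476, 478]⟩, ⟨c14x, c14x, c580x, c583x, c611x, c385x⟩⟩,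
    ⟨⟨⟨⟨c401x, c402x, c388x, c393x⟩, ⟨.ofNat 0, .ofNat 0, c14x⟩, ⟨.negSucc 0, .ofNat 0, c508x⟩, ⟨.ofNat 0, .ofNat 1, c470x⟩⟩, [475, 476, 477, 478]⟩, ⟨c14x, c14x, c579x, c580x, c610x, c385x⟩⟩,
    ⟨⟨⟨⟨c392x, c508x, c361x, c404x⟩, ⟨.ofNat 0, .ofNat 0, c14x⟩, ⟨.negSucc 0, .ofNat 0, c508x⟩, ⟨.ofNat 0, .ofNat 1, c470x⟩⟩, [351, 352, 466, 467, 468]⟩, ⟨c14x, c14x, c14x, c8x, c566x, c571x⟩⟩,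
    ⟨⟨⟨⟨c508x, c509x, c361x, c404x⟩, ⟨.ofNat 1, .ofNat 0, c510x⟩, ⟨.ofNat 0, .ofNat 0, c14x⟩, ⟨.ofNat 0, .ofNat 1, c470x⟩⟩, [352, 466]⟩, ⟨c14x, c468x, c14x, c14x, c566x, c571x⟩⟩])) (.node ⟨c509x, c413x, c361x, c412x⟩ ⟨c14x, c468x, c14x, c473x, c566x, c577x⟩ (.leaf ⟨c405x, c409x, c379x, c396x⟩ ⟨c14x, c468x, c580x, c473x, c609x, c381x⟩ [
    ⟨⟨⟨⟨c405x, c406x, c375x, c396x⟩, ⟨.ofNat 0, .ofNat 0, c468x⟩, ⟨.ofNat 1, .ofNat 0, c511x⟩, ⟨.ofNat 0, .ofNat 1, c470x⟩⟩, [363, 364, 365, 366]⟩, ⟨c468x, c468x, c581x, c473x, c648x, c381x⟩⟩,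
    ⟨⟨⟨⟨c397x, c407x, c390x, c396x⟩, ⟨.ofNat 0, .ofNat 0, c14x⟩, ⟨.negSucc 0, .ofNat 0, c431x⟩, ⟨.ofNat 0, .ofNat 1, c470x⟩⟩, [371, 372, 373, 374]⟩, ⟨c14x, c14x, c582x, c587x, c612x, c381x⟩⟩,
    ⟨⟨⟨⟨c408x, c409x, c379x, c383x⟩, ⟨.ofNat 0, .ofNat 0, c14x⟩, ⟨.negSucc 0, .ofNat 0, c431x⟩, ⟨.ofNat 0, .ofNat 1, c470x⟩⟩, [381, 382, 383, 384]⟩, ⟨c14x, c14x, c580x, c583x, c609x, c611x⟩⟩]) (.leaf ⟨c509x, c413x, c361x, c412x⟩ ⟨c14x, c468x, c14x, c473x, c566x, c577x⟩ [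
    ⟨⟨⟨⟨c509x, c403x, c361x, c404x⟩, ⟨.ofNat 0, .ofNat 0, c468x⟩, ⟨.ofNat 1, .ofNat 0, c511x⟩, ⟨.ofNat 0, .ofNat 1, c470x⟩⟩, [352, 353, 354, 465, 466]⟩, ⟨c468x, c468x, c14x, c8x, c566x, c571x⟩⟩,
    ⟨⟨⟨⟨c409x, c410x, c379x, c388x⟩, ⟨.ofNat 0, .ofNat 0, c14x⟩, ⟨.negSucc 0, .ofNat 0, c431x⟩, ⟨.ofNat 0, .ofNat 1, c470x⟩⟩, [379, 380, 381, 382, 384]⟩, ⟨c14x, c14x, c579x, c580x, c609x, c610x⟩⟩,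
    ⟨⟨⟨⟨c411x, c394x, c376x, c412x⟩, ⟨.negSucc 0, .ofNat 0, c394x⟩, ⟨.ofNat 0, .ofNat 0, c473x⟩, ⟨.ofNat 0, .ofNat 1, c470x⟩⟩, [366, 367, 368, 374, 375, 376, 464]⟩, ⟨c14x, c650x, c473x, c473x, c614x, c577x⟩⟩,
    ⟨⟨⟨⟨c410x, c413x, c379x, c412x⟩, ⟨.ofNat 0, .ofNat 0, c14x⟩, ⟨.negSucc 0, .ofNat 0, c431x⟩, ⟨.ofNat 0, .ofNat 1, c470x⟩⟩, [378, 379, 380, 384, 385, 386, 464]⟩, ⟨c14x, c14x, c524x, c579x, c609x, c577x⟩⟩]))) (.node ⟨c403x, c435x, c375x, c428x⟩ ⟨c14x, c468x, c14x, c473x, c648x, c436x⟩ (.node ⟨c403x, c419x, c375x, c412x⟩ ⟨c14x, c468x, c8x, c473x, c648x, c577x⟩ (.leaf ⟨c403x, c416x, c383x, c412x⟩ ⟨c468x, c468x, c8x, c583x, c611x, c577x⟩ [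
    ⟨⟨⟨⟨c403x, c414x, c381x, c412x⟩, ⟨.ofNat 0, .ofNat 0, c468x⟩, ⟨.ofNat 1, .ofNat 0, c511x⟩, ⟨.ofNat 0, .ofNat 1, c470x⟩⟩, [353, 354, 355, 464, 465, 466]⟩, ⟨c468x, c468x, c8x, c546x, c576x, c577x⟩⟩,
    ⟨⟨⟨⟨c414x, c415x, c383x, c412x⟩, ⟨.ofNat 0, .ofNat 0, c468x⟩, ⟨.ofNat 1, .ofNat 0, c511x⟩, ⟨.ofNat 0, .ofNat 1, c470x⟩⟩, [354, 355, 356, 357, 358, 464]⟩, ⟨c468x, c468x, c546x, c524x, c611x, c577x⟩⟩,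
    ⟨⟨⟨⟨c415x, c416x, c385x, c412x⟩, ⟨.ofNat 0, .ofNat 0, c468x⟩, ⟨.ofNat 1, .ofNat 0, c511x⟩, ⟨.ofNat 0, .ofNat 1, c470x⟩⟩, [357, 358, 359, 464]⟩, ⟨c468x, c468x, c524x, c583x, c647x, c577x⟩⟩]) (.leaf ⟨c416x, c419x, c375x, c412x⟩ ⟨c14x, c468x, c8x, c473x, c648x, c577x⟩ [
    ⟨⟨⟨⟨c416x, c417x, c387x, c412x⟩, ⟨.ofNat 0, .ofNat 0, c468x⟩, ⟨.ofNat 1, .ofNat 0, c511x⟩, ⟨.ofNat 0, .ofNat 1, c470x⟩⟩, [358, 359, 360, 361, 362, 464]⟩, ⟨c468x, c468x, c583x, c582x, c578x, c577x⟩⟩,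
    ⟨⟨⟨⟨c406x, c411x, c375x, c412x⟩, ⟨.negSucc 0, .ofNat 0, c394x⟩, ⟨.ofNat 0, .ofNat 0, c473x⟩, ⟨.ofNat 0, .ofNat 1, c470x⟩⟩, [362, 363, 364, 366, 367, 464]⟩, ⟨c650x, c468x, c473x, c473x, c648x, c577x⟩⟩,
    ⟨⟨⟨⟨c413x, c418x, c387x, c412x⟩, ⟨.ofNat 0, .ofNat 0, c14x⟩, ⟨.negSucc 0, .ofNat 0, c431x⟩, ⟨.ofNat 0, .ofNat 1, c470x⟩⟩, [385, 386, 387, 464]⟩, ⟨c14x, c14x, c546x, c524x, c578x, c577x⟩⟩,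
    ⟨⟨⟨⟨c418x, c419x, c381x, c412x⟩, ⟨.ofNat 0, .ofNat 0, c14x⟩, ⟨.negSucc 0, .ofNat 0, c431x⟩, ⟨.ofNat 0, .ofNat 1, c470x⟩⟩, [386, 387, 388, 389, 390, 463, 464]⟩, ⟨c14x, c14x, c8x, c546x, c576x, c577x⟩⟩])) (.node ⟨c417x, c435x, c388x, c428x⟩ ⟨c14x, c468x, c14x, c473x, c610x, c436x⟩ (.leaf ⟨c417x, c410x, c388x, c412x⟩ ⟨c14x, c468x, c579x, c473x, c610x, c577x⟩ [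
    ⟨⟨⟨⟨c417x, c406x, c388x, c412x⟩, ⟨.ofNat 0, .ofNat 0, c468x⟩, ⟨.ofNat 1, .ofNat 0, c511x⟩, ⟨.ofNat 0, .ofNat 1, c470x⟩⟩, [361, 362, 363, 464]⟩, ⟨c468x, c468x, c582x, c473x, c610x, c577x⟩⟩,
    ⟨⟨⟨⟨c394x, c395x, c400x, c412x⟩, ⟨.ofNat 0, .ofNat 0, c14x⟩, ⟨.negSucc 0, .ofNat 0, c431x⟩, ⟨.ofNat 0, .ofNat 1, c470x⟩⟩, [375, 376, 377, 464]⟩, ⟨c14x, c14x, c581x, c473x, c615x, c577x⟩⟩,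
    ⟨⟨⟨⟨c395x, c410x, c393x, c412x⟩, ⟨.ofNat 0, .ofNat 0, c14x⟩, ⟨.negSucc 0, .ofNat 0, c431x⟩, ⟨.ofNat 0, .ofNat 1, c470x⟩⟩, [376, 377, 378, 379, 464]⟩, ⟨c14x, c14x, c579x, c581x, c385x, c577x⟩⟩]) (.leaf ⟨c425x, c435x, c404x, c428x⟩ ⟨c14x, c468x, c14x, c530x, c571x, c436x⟩ [
    ⟨⟨⟨⟨c425x, c427x, c404x, c428x⟩, ⟨.ofNat 0, .ofNat 0, c14x⟩, ⟨.negSucc 0, .ofNat 0, c431x⟩, ⟨.ofNat 0, .ofNat 1, c470x⟩⟩, [390, 457, 458, 459]⟩, ⟨c14x, c14x, c527x, c530x, c571x, c436x⟩⟩,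
    ⟨⟨⟨⟨c429x, c431x, c404x, c432x⟩, ⟨.ofNat 0, .ofNat 0, c14x⟩, ⟨.negSucc 0, .ofNat 0, c431x⟩, ⟨.ofNat 0, .ofNat 1, c470x⟩⟩, [390, 453, 454, 455]⟩, ⟨c14x, c14x, c14x, c528x, c571x, c572x⟩⟩,
    ⟨⟨⟨⟨c420x, c421x, c404x, c422x⟩, ⟨.ofNat 0, .ofNat 0, c468x⟩, ⟨.ofNat 1, .ofNat 0, c512x⟩, ⟨.ofNat 0, .ofNat 1, c470x⟩⟩, [390, 439, 440, 441]⟩, ⟨c468x, c468x, c14x, c529x, c571x, c617x⟩⟩,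
    ⟨⟨⟨⟨c421x, c435x, c404x, c436x⟩, ⟨.ofNat 0, .ofNat 0, c468x⟩, ⟨.ofNat 1, .ofNat 0, c512x⟩, ⟨.ofNat 0, .ofNat 1, c470x⟩⟩, [390, 437, 438, 439, 440]⟩, ⟨c468x, c468x, c529x, c533x, c571x, c616x⟩⟩]))))

def n111x : QT :=
  .node ⟨c419x, c461x, c404x, c452x⟩ ⟨c14x, c468x, c14x, c473x, c571x, c516x⟩ (.node ⟨c419x, c461x, c404x, c424x⟩ ⟨c14x, c468x, c14x, c473x, c571x, c516x⟩ (.node ⟨c419x, c458x, c404x, c450x⟩ ⟨c14x, c468x, c14x, c473x, c571x, c516x⟩ (.node ⟨c419x, c438x, c404x, c450x⟩ ⟨c14x, c468x, c14x, c8x, c571x, c516x⟩ (.leaf ⟨c419x, c429x, c404x, c450x⟩ ⟨c14x, c14x, c528x, c8x, c571x, c516x⟩ [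
    ⟨⟨⟨⟨c419x, c423x, c404x, c450x⟩, ⟨.ofNat 0, .ofNat 0, c14x⟩, ⟨.negSucc 0, .ofNat 0, c431x⟩, ⟨.ofNat 0, .ofNat 1, c470x⟩⟩, [389, 390, 463, 464]⟩, ⟨c14x, c14x, c534x, c8x, c571x, c516x⟩⟩,
    ⟨⟨⟨⟨c423x, c425x, c404x, c450x⟩, ⟨.ofNat 0, .ofNat 0, c14x⟩, ⟨.negSucc 0, .ofNat 0, c431x⟩, ⟨.ofNat 0, .ofNat 1, c470x⟩⟩, [390, 458, 459]⟩, ⟨c14x, c14x, c530x, c534x, c571x, c516x⟩⟩,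
    ⟨⟨⟨⟨c427x, c429x, c404x, c450x⟩, ⟨.ofNat 0, .ofNat 0, c14x⟩, ⟨.negSucc 0, .ofNat 0, c431x⟩, ⟨.ofNat 0, .ofNat 1, c470x⟩⟩, [390, 454, 455, 457, 458]⟩, ⟨c14x, c14x, c528x, c527x, c571x, c516x⟩⟩]) (.leaf ⟨c431x, c438x, c404x, c450x⟩ ⟨c14x, c468x, c14x, c534x, c571x, c516x⟩ [
    ⟨⟨⟨⟨c431x, c433x, c404x, c450x⟩, ⟨.ofNat 1, .ofNat 0, c513x⟩, ⟨.ofNat 0, .ofNat 0, c14x⟩, ⟨.ofNat 0, .ofNat 1, c470x⟩⟩, [390, 452, 453, 454]⟩, ⟨c14x, c649x, c14x, c14x, c571x, c516x⟩⟩,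
    ⟨⟨⟨⟨c433x, c420x, c404x, c450x⟩, ⟨.ofNat 1, .ofNat 0, c513x⟩, ⟨.ofNat 0, .ofNat 0, c14x⟩, ⟨.ofNat 0, .ofNat 1, c470x⟩⟩, [390, 440, 441, 442]⟩, ⟨c649x, c468x, c14x, c14x, c571x, c516x⟩⟩,
    ⟨⟨⟨⟨c435x, c437x, c404x, c450x⟩, ⟨.ofNat 0, .ofNat 0, c468x⟩, ⟨.ofNat 1, .ofNat 0, c512x⟩, ⟨.ofNat 0, .ofNat 1, c470x⟩⟩, [390, 436, 437, 438]⟩, ⟨c468x, c468x, c533x, c530x, c571x, c516x⟩⟩,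
    ⟨⟨⟨⟨c437x, c438x, c404x, c450x⟩, ⟨.ofNat 0, .ofNat 0, c468x⟩, ⟨.ofNat 1, .ofNat 0, c512x⟩, ⟨.ofNat 0, .ofNat 1, c470x⟩⟩, [390]⟩, ⟨c468x, c468x, c530x, c534x, c571x, c516x⟩⟩])) (.node ⟨c438x, c458x, c404x, c450x⟩ ⟨c14x, c468x, c534x, c473x, c571x, c516x⟩ (.leaf ⟨c438x, c458x, c404x, c450x⟩ ⟨c14x, c468x, c534x, c473x, c571x, c516x⟩ [
    ⟨⟨⟨⟨c438x, c439x, c404x, c450x⟩, ⟨.ofNat 0, .ofNat 0, c468x⟩, ⟨.ofNat 1, .ofNat 0, c512x⟩, ⟨.ofNat 0, .ofNat 1, c470x⟩⟩, [390, 391, 392]⟩, ⟨c468x, c468x, c534x, c8x, c571x, c516x⟩⟩,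
    ⟨⟨⟨⟨c442x, c443x, c412x, c422x⟩, ⟨.ofNat 0, .ofNat 0, c14x⟩, ⟨.negSucc 0, .ofNat 0, c514x⟩, ⟨.ofNat 0, .ofNat 1, c470x⟩⟩, [392, 405, 406, 407]⟩, ⟨c14x, c14x, c581x, c473x, c577x, c617x⟩⟩,
    ⟨⟨⟨⟨c443x, c458x, c412x, c436x⟩, ⟨.ofNat 0, .ofNat 0, c14x⟩, ⟨.negSucc 0, .ofNat 0, c514x⟩, ⟨.ofNat 0, .ofNat 1, c470x⟩⟩, [392, 403, 404, 405, 406]⟩, ⟨c14x, c14x, c579x, c581x, c577x, c616x⟩⟩]) (.leaf ⟨c439x, c448x, c412x, c450x⟩ ⟨c468x, c468x, c8x, c473x, c577x, c516x⟩ [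
    ⟨⟨⟨⟨c439x, c444x, c412x, c450x⟩, ⟨.ofNat 0, .ofNat 0, c468x⟩, ⟨.ofNat 1, .ofNat 0, c512x⟩, ⟨.ofNat 0, .ofNat 1, c470x⟩⟩, [391, 392]⟩, ⟨c468x, c468x, c8x, c546x, c577x, c516x⟩⟩,
    ⟨⟨⟨⟨c444x, c445x, c412x, c450x⟩, ⟨.ofNat 0, .ofNat 0, c468x⟩, ⟨.ofNat 1, .ofNat 0, c512x⟩, ⟨.ofNat 0, .ofNat 1, c470x⟩⟩, [392, 424, 425]⟩, ⟨c468x, c468x, c546x, c524x, c577x, c516x⟩⟩,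
    ⟨⟨⟨⟨c445x, c446x, c412x, c428x⟩, ⟨.ofNat 0, .ofNat 0, c468x⟩, ⟨.ofNat 1, .ofNat 0, c512x⟩, ⟨.ofNat 0, .ofNat 1, c470x⟩⟩, [392, 423, 424, 425]⟩, ⟨c468x, c468x, c524x, c583x, c577x, c436x⟩⟩,
    ⟨⟨⟨⟨c447x, c448x, c412x, c432x⟩, ⟨.ofNat 0, .ofNat 0, c468x⟩, ⟨.ofNat 1, .ofNat 0, c512x⟩, ⟨.ofNat 0, .ofNat 1, c470x⟩⟩, [392, 419, 420, 421]⟩, ⟨c468x, c468x, c582x, c473x, c577x, c572x⟩⟩]))) (.node ⟨c419x, c461x, c412x, c424x⟩ ⟨c14x, c468x, c528x, c473x, c577x, c516x⟩ (.node ⟨c419x, c447x, c412x, c424x⟩ ⟨c14x, c468x, c528x, c582x, c577x, c516x⟩ (.leaf ⟨c419x, c435x, c432x, c424x⟩ ⟨c14x, c468x, c528x, c8x, c572x, c516x⟩ [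
    ⟨⟨⟨⟨c419x, c423x, c450x, c424x⟩, ⟨.ofNat 0, .ofNat 1, c515x⟩, ⟨.negSucc 0, .ofNat 0, c431x⟩, ⟨.ofNat 0, .ofNat 0, c516x⟩⟩, [461, 462, 463]⟩, ⟨c14x, c4x, c534x, c8x, c516x, c516x⟩⟩,
    ⟨⟨⟨⟨c427x, c429x, c450x, c430x⟩, ⟨.ofNat 0, .ofNat 1, c515x⟩, ⟨.negSucc 0, .ofNat 0, c431x⟩, ⟨.ofNat 0, .ofNat 0, c516x⟩⟩, [455, 456, 457]⟩, ⟨c14x, c649x, c528x, c527x, c516x, c516x⟩⟩,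
    ⟨⟨⟨⟨c455x, c435x, c432x, c450x⟩, ⟨.ofNat 0, .ofNat 0, c468x⟩, ⟨.ofNat 1, .ofNat 0, c512x⟩, ⟨.ofNat 0, .ofNat 1, c470x⟩⟩, [435, 436, 437]⟩, ⟨c468x, c468x, c532x, c533x, c572x, c516x⟩⟩]) (.leaf ⟨c437x, c447x, c412x, c424x⟩ ⟨c4x, c468x, c530x, c582x, c577x, c516x⟩ [
    ⟨⟨⟨⟨c446x, c447x, c412x, c450x⟩, ⟨.ofNat 0, .ofNat 0, c468x⟩, ⟨.ofNat 1, .ofNat 0, c512x⟩, ⟨.ofNat 0, .ofNat 1, c470x⟩⟩, [392, 420, 421, 423, 424]⟩, ⟨c468x, c468x, c583x, c582x, c577x, c516x⟩⟩,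
    ⟨⟨⟨⟨c437x, c438x, c450x, c430x⟩, ⟨.ofNat 0, .negSucc 0, c517x⟩, ⟨.ofNat 1, .ofNat 0, c512x⟩, ⟨.ofNat 0, .ofNat 0, c516x⟩⟩, [429, 430, 431]⟩, ⟨c650x, c468x, c530x, c534x, c516x, c516x⟩⟩,
    ⟨⟨⟨⟨c438x, c439x, c450x, c424x⟩, ⟨.ofNat 0, .negSucc 0, c517x⟩, ⟨.ofNat 1, .ofNat 0, c512x⟩, ⟨.ofNat 0, .ofNat 0, c516x⟩⟩, [428, 429, 430]⟩, ⟨c4x, c468x, c534x, c8x, c516x, c516x⟩⟩,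
    ⟨⟨⟨⟨c446x, c447x, c450x, c430x⟩, ⟨.ofNat 0, .negSucc 0, c517x⟩, ⟨.ofNat 1, .ofNat 0, c512x⟩, ⟨.ofNat 0, .ofNat 0, c516x⟩⟩, [421, 422, 423]⟩, ⟨c650x, c468x, c583x, c582x, c516x, c516x⟩⟩])) (.node ⟨c448x, c461x, c412x, c430x⟩ ⟨c14x, c468x, c8x, c473x, c577x, c516x⟩ (.leaf ⟨c448x, c459x, c412x, c450x⟩ ⟨c14x, c468x, c524x, c473x, c577x, c516x⟩ [
    ⟨⟨⟨⟨c448x, c457x, c412x, c450x⟩, ⟨.negSucc 0, .ofNat 0, c442x⟩, ⟨.ofNat 0, .ofNat 0, c473x⟩, ⟨.ofNat 0, .ofNat 1, c470x⟩⟩, [392, 418, 419, 420]⟩, ⟨c650x, c468x, c473x, c473x, c577x, c516x⟩⟩,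
    ⟨⟨⟨⟨c457x, c442x, c412x, c450x⟩, ⟨.negSucc 0, .ofNat 0, c442x⟩, ⟨.ofNat 0, .ofNat 0, c473x⟩, ⟨.ofNat 0, .ofNat 1, c470x⟩⟩, [392, 406, 407, 408]⟩, ⟨c14x, c650x, c473x, c473x, c577x, c516x⟩⟩,
    ⟨⟨⟨⟨c458x, c459x, c412x, c450x⟩, ⟨.ofNat 0, .ofNat 0, c14x⟩, ⟨.negSucc 0, .ofNat 0, c514x⟩, ⟨.ofNat 0, .ofNat 1, c470x⟩⟩, [392, 402, 403, 404]⟩, ⟨c14x, c14x, c524x, c579x, c577x, c516x⟩⟩]) (.leaf ⟨c465x, c461x, c412x, c430x⟩ ⟨c14x, c649x, c8x, c580x, c577x, c516x⟩ [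
    ⟨⟨⟨⟨c459x, c460x, c412x, c450x⟩, ⟨.ofNat 0, .ofNat 0, c14x⟩, ⟨.negSucc 0, .ofNat 0, c514x⟩, ⟨.ofNat 0, .ofNat 1, c470x⟩⟩, [392]⟩, ⟨c14x, c14x, c546x, c524x, c577x, c516x⟩⟩,
    ⟨⟨⟨⟨c460x, c461x, c412x, c450x⟩, ⟨.ofNat 0, .ofNat 0, c14x⟩, ⟨.negSucc 0, .ofNat 0, c514x⟩, ⟨.ofNat 0, .ofNat 1, c470x⟩⟩, [392, 393]⟩, ⟨c14x, c14x, c8x, c546x, c577x, c516x⟩⟩,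
    ⟨⟨⟨⟨c465x, c458x, c432x, c450x⟩, ⟨.ofNat 0, .ofNat 0, c14x⟩, ⟨.negSucc 0, .ofNat 0, c514x⟩, ⟨.ofNat 0, .ofNat 1, c470x⟩⟩, [401, 402, 403]⟩, ⟨c14x, c14x, c579x, c580x, c572x, c516x⟩⟩,
    ⟨⟨⟨⟨c459x, c460x, c450x, c430x⟩, ⟨.ofNat 0, .ofNat 1, c515x⟩, ⟨.negSucc 0, .ofNat 0, c514x⟩, ⟨.ofNat 0, .ofNat 0, c516x⟩⟩, [395, 396, 397]⟩, ⟨c14x, c649x, c546x, c524x, c516x, c516x⟩⟩])))) (.node ⟨c423x, c461x, c450x, c452x⟩ ⟨c14x, c468x, c14x, c473x, c617x, c516x⟩ (.node ⟨c423x, c444x, c450x, c452x⟩ ⟨c14x, c468x, c14x, c546x, c617x, c516x⟩ (.node ⟨c423x, c453x, c450x, c452x⟩ ⟨c14x, c468x, c14x, c534x, c617x, c516x⟩ (.leaf ⟨c423x, c433x, c450x, c434x⟩ ⟨c14x, c650x, c14x, c534x, c572x, c516x⟩ [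
    ⟨⟨⟨⟨c423x, c425x, c450x, c426x⟩, ⟨.ofNat 0, .ofNat 1, c515x⟩, ⟨.negSucc 0, .ofNat 0, c431x⟩, ⟨.ofNat 0, .ofNat 0, c516x⟩⟩, [459, 460, 461, 462]⟩, ⟨c14x, c650x, c530x, c534x, c516x, c516x⟩⟩,
    ⟨⟨⟨⟨c449x, c431x, c450x, c434x⟩, ⟨.ofNat 0, .ofNat 0, c14x⟩, ⟨.ofNat 0, .ofNat 1, c515x⟩, ⟨.ofNat 1, .ofNat 0, c518x⟩⟩, [450, 451, 452, 453]⟩, ⟨c14x, c14x, c14x, c528x, c572x, c516x⟩⟩,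
    ⟨⟨⟨⟨c431x, c433x, c450x, c434x⟩, ⟨.ofNat 1, .ofNat 0, c513x⟩, ⟨.ofNat 0, .ofNat 1, c515x⟩, ⟨.ofNat 0, .ofNat 0, c516x⟩⟩, [449, 450, 452, 453]⟩, ⟨c14x, c649x, c14x, c528x, c516x, c516x⟩⟩]) (.leaf ⟨c433x, c453x, c450x, c452x⟩ ⟨c649x, c468x, c14x, c533x, c617x, c516x⟩ [
    ⟨⟨⟨⟨c433x, c420x, c450x, c440x⟩, ⟨.ofNat 1, .ofNat 0, c513x⟩, ⟨.ofNat 0, .ofNat 1, c515x⟩, ⟨.ofNat 0, .ofNat 0, c516x⟩⟩, [441, 442, 448, 449, 450]⟩, ⟨c649x, c468x, c14x, c532x, c516x, c516x⟩⟩,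
    ⟨⟨⟨⟨c420x, c421x, c450x, c440x⟩, ⟨.ofNat 0, .ofNat 0, c468x⟩, ⟨.ofNat 0, .ofNat 1, c515x⟩, ⟨.negSucc 0, .ofNat 0, c519x⟩⟩, [441, 442, 447, 448]⟩, ⟨c468x, c468x, c14x, c532x, c572x, c516x⟩⟩,
    ⟨⟨⟨⟨c451x, c453x, c450x, c454x⟩, ⟨.ofNat 0, .ofNat 0, c468x⟩, ⟨.ofNat 0, .ofNat 1, c515x⟩, ⟨.negSucc 0, .ofNat 0, c519x⟩⟩, [442, 443, 444, 445]⟩, ⟨c468x, c468x, c14x, c529x, c617x, c616x⟩⟩,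
    ⟨⟨⟨⟨c421x, c451x, c450x, c452x⟩, ⟨.ofNat 0, .ofNat 0, c468x⟩, ⟨.ofNat 0, .ofNat 1, c515x⟩, ⟨.negSucc 0, .ofNat 0, c519x⟩⟩, [442, 444, 445, 446, 447, 448]⟩, ⟨c468x, c468x, c14x, c533x, c616x, c572x⟩⟩])) (.node ⟨c456x, c444x, c450x, c441x⟩ ⟨c14x, c468x, c527x, c546x, c436x, c516x⟩ (.leaf ⟨c456x, c435x, c450x, c441x⟩ ⟨c14x, c468x, c527x, c533x, c436x, c516x⟩ [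
    ⟨⟨⟨⟨c455x, c435x, c450x, c517x⟩, ⟨.ofNat 0, .negSucc 0, c517x⟩, ⟨.ofNat 1, .ofNat 0, c512x⟩, ⟨.ofNat 0, .ofNat 0, c516x⟩⟩, [434, 435]⟩, ⟨c14x, c468x, c532x, c533x, c516x, c516x⟩⟩,
    ⟨⟨⟨⟨c456x, c455x, c426x, c517x⟩, ⟨.ofNat 0, .negSucc 0, c517x⟩, ⟨.ofNat 1, .ofNat 0, c512x⟩, ⟨.ofNat 0, .ofNat 0, c516x⟩⟩, [433, 434, 435]⟩, ⟨c14x, c649x, c527x, c532x, c516x, c516x⟩⟩,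
    ⟨⟨⟨⟨c456x, c455x, c517x, c441x⟩, ⟨.ofNat 0, .ofNat 0, c14x⟩, ⟨.ofNat 1, .ofNat 0, c512x⟩, ⟨.ofNat 0, .negSucc 0, c520x⟩⟩, [432, 433]⟩, ⟨c14x, c14x, c527x, c532x, c436x, c516x⟩⟩]) (.leaf ⟨c455x, c444x, c450x, c441x⟩ ⟨c14x, c468x, c532x, c546x, c436x, c516x⟩ [
    ⟨⟨⟨⟨c435x, c437x, c450x, c517x⟩, ⟨.ofNat 0, .negSucc 0, c517x⟩, ⟨.ofNat 1, .ofNat 0, c512x⟩, ⟨.ofNat 0, .ofNat 0, c516x⟩⟩, [430, 431]⟩, ⟨c14x, c468x, c533x, c530x, c516x, c516x⟩⟩,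
    ⟨⟨⟨⟨c455x, c435x, c517x, c441x⟩, ⟨.ofNat 0, .ofNat 0, c14x⟩, ⟨.ofNat 1, .ofNat 0, c512x⟩, ⟨.ofNat 0, .negSucc 0, c520x⟩⟩, [432]⟩, ⟨c14x, c14x, c532x, c533x, c436x, c516x⟩⟩,
    ⟨⟨⟨⟨c435x, c437x, c517x, c441x⟩, ⟨.ofNat 0, .ofNat 0, c14x⟩, ⟨.ofNat 1, .ofNat 0, c512x⟩, ⟨.ofNat 0, .negSucc 0, c520x⟩⟩, [431, 432]⟩, ⟨c14x, c14x, c533x, c530x, c436x, c516x⟩⟩,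
    ⟨⟨⟨⟨c439x, c444x, c450x, c424x⟩, ⟨.ofNat 0, .negSucc 0, c517x⟩, ⟨.ofNat 1, .ofNat 0, c512x⟩, ⟨.ofNat 0, .ofNat 0, c516x⟩⟩, [427, 428]⟩, ⟨c4x, c468x, c8x, c546x, c516x, c516x⟩⟩]))) (.node ⟨c444x, c461x, c450x, c452x⟩ ⟨c14x, c468x, c8x, c473x, c617x, c516x⟩ (.node ⟨c444x, c464x, c450x, c452x⟩ ⟨c14x, c468x, c546x, c473x, c617x, c516x⟩ (.leaf ⟨c444x, c457x, c450x, c434x⟩ ⟨c649x, c468x, c546x, c473x, c572x, c516x⟩ [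
    ⟨⟨⟨⟨c444x, c445x, c450x, c426x⟩, ⟨.ofNat 0, .negSucc 0, c517x⟩, ⟨.ofNat 1, .ofNat 0, c512x⟩, ⟨.ofNat 0, .ofNat 0, c516x⟩⟩, [425, 426, 427, 428]⟩, ⟨c649x, c468x, c546x, c524x, c516x, c516x⟩⟩,
    ⟨⟨⟨⟨c462x, c448x, c450x, c434x⟩, ⟨.ofNat 0, .ofNat 0, c468x⟩, ⟨.ofNat 0, .negSucc 0, c521x⟩, ⟨.ofNat 1, .ofNat 0, c522x⟩⟩, [416, 417, 418, 419]⟩, ⟨c468x, c468x, c582x, c473x, c572x, c516x⟩⟩,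
    ⟨⟨⟨⟨c448x, c457x, c450x, c434x⟩, ⟨.negSucc 0, .ofNat 0, c442x⟩, ⟨.ofNat 0, .negSucc 0, c521x⟩, ⟨.ofNat 0, .ofNat 0, c516x⟩⟩, [415, 416, 418, 419]⟩, ⟨c650x, c468x, c582x, c473x, c516x, c516x⟩⟩]) (.leaf ⟨c457x, c464x, c450x, c452x⟩ ⟨c14x, c650x, c579x, c473x, c617x, c516x⟩ [
    ⟨⟨⟨⟨c457x, c442x, c450x, c440x⟩, ⟨.negSucc 0, .ofNat 0, c442x⟩, ⟨.ofNat 0, .negSucc 0, c521x⟩, ⟨.ofNat 0, .ofNat 0, c516x⟩⟩, [407, 408, 414, 415, 416]⟩, ⟨c14x, c650x, c580x, c473x, c516x, c516x⟩⟩,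
    ⟨⟨⟨⟨c442x, c443x, c450x, c440x⟩, ⟨.ofNat 0, .ofNat 0, c14x⟩, ⟨.ofNat 0, .negSucc 0, c521x⟩, ⟨.negSucc 0, .ofNat 0, c523x⟩⟩, [407, 408, 413, 414]⟩, ⟨c14x, c14x, c580x, c473x, c572x, c516x⟩⟩,
    ⟨⟨⟨⟨c463x, c464x, c450x, c454x⟩, ⟨.ofNat 0, .ofNat 0, c14x⟩, ⟨.ofNat 0, .negSucc 0, c521x⟩, ⟨.negSucc 0, .ofNat 0, c523x⟩⟩, [408, 409, 410, 411]⟩, ⟨c14x, c14x, c581x, c473x, c617x, c616x⟩⟩,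
    ⟨⟨⟨⟨c443x, c463x, c450x, c452x⟩, ⟨.ofNat 0, .ofNat 0, c14x⟩, ⟨.ofNat 0, .negSucc 0, c521x⟩, ⟨.negSucc 0, .ofNat 0, c523x⟩⟩, [408, 410, 411, 412, 413, 414]⟩, ⟨c14x, c14x, c579x, c473x, c616x, c572x⟩⟩])) (.node ⟨c466x, c461x, c450x, c441x⟩ ⟨c14x, c468x, c8x, c583x, c436x, c516x⟩ (.leaf ⟨c466x, c458x, c450x, c441x⟩ ⟨c14x, c468x, c579x, c583x, c436x, c516x⟩ [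
    ⟨⟨⟨⟨c465x, c458x, c450x, c517x⟩, ⟨.ofNat 0, .ofNat 1, c515x⟩, ⟨.negSucc 0, .ofNat 0, c514x⟩, ⟨.ofNat 0, .ofNat 0, c516x⟩⟩, [400, 401]⟩, ⟨c14x, c468x, c579x, c580x, c516x, c516x⟩⟩,
    ⟨⟨⟨⟨c466x, c465x, c426x, c517x⟩, ⟨.ofNat 0, .ofNat 1, c515x⟩, ⟨.negSucc 0, .ofNat 0, c514x⟩, ⟨.ofNat 0, .ofNat 0, c516x⟩⟩, [399, 400, 401]⟩, ⟨c650x, c468x, c580x, c583x, c516x, c516x⟩⟩,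
    ⟨⟨⟨⟨c466x, c465x, c517x, c441x⟩, ⟨.ofNat 0, .ofNat 0, c468x⟩, ⟨.negSucc 0, .ofNat 0, c514x⟩, ⟨.ofNat 0, .negSucc 0, c520x⟩⟩, [398, 399]⟩, ⟨c468x, c468x, c580x, c583x, c436x, c516x⟩⟩]) (.leaf ⟨c465x, c461x, c450x, c441x⟩ ⟨c14x, c468x, c8x, c580x, c436x, c516x⟩ [
    ⟨⟨⟨⟨c458x, c459x, c450x, c517x⟩, ⟨.ofNat 0, .ofNat 1, c515x⟩, ⟨.negSucc 0, .ofNat 0, c514x⟩, ⟨.ofNat 0, .ofNat 0, c516x⟩⟩, [396, 397]⟩, ⟨c14x, c468x, c524x, c579x, c516x, c516x⟩⟩,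
    ⟨⟨⟨⟨c465x, c458x, c517x, c441x⟩, ⟨.ofNat 0, .ofNat 0, c468x⟩, ⟨.negSucc 0, .ofNat 0, c514x⟩, ⟨.ofNat 0, .negSucc 0, c520x⟩⟩, [398]⟩, ⟨c468x, c468x, c579x, c580x, c436x, c516x⟩⟩,
    ⟨⟨⟨⟨c458x, c459x, c517x, c441x⟩, ⟨.ofNat 0, .ofNat 0, c468x⟩, ⟨.negSucc 0, .ofNat 0, c514x⟩, ⟨.ofNat 0, .negSucc 0, c520x⟩⟩, [397, 398]⟩, ⟨c468x, c468x, c524x, c579x, c436x, c516x⟩⟩,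
    ⟨⟨⟨⟨c460x, c461x, c450x, c424x⟩, ⟨.ofNat 0, .ofNat 1, c515x⟩, ⟨.negSucc 0, .ofNat 0, c514x⟩, ⟨.ofNat 0, .ofNat 0, c516x⟩⟩, [393, 394, 395, 396]⟩, ⟨c14x, c4x, c8x, c546x, c516x, c516x⟩⟩]))))

def n11x : QT :=
  .node ⟨c358x, c461x, c324x, c452x⟩ ⟨c14x, c468x, c14x, c473x, c570x, c516x⟩ (n110x) (n111x)

def n1x : QT :=
  .node ⟨c219x, c461x, c204x, c452x⟩ ⟨c14x, c468x, c14x, c473x, c525x, c516x⟩ (n10x) (n11x)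

def nx : QT :=
  .node ⟨c14x, c461x, c6x, c452x⟩ ⟨c14x, c468x, c14x, c473x, c14x, c516x⟩ (n0x) (n1x)

end Pool.Agent.Box4.TA
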