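import Pool.Agent.Box3.TreeB
import Pool.Agent.Box4.Num
set_option linter.all false
set_option autoImplicit false

namespace Pool.Agent.Box4.TB

open Pool.Agent.Box3 Pool.Agent.Box4



def n000x : QT :=
  .node ⟨c14x, c49x, c6x, c43x⟩ ⟨c14x, c657x, c14x, c655x, c14x, c728x⟩ (.node ⟨c14x, c49x, c6x, c22x⟩ ⟨c14x, c657x, c14x, c655x, c14x, c649x⟩ (.node ⟨c14x, c38x, c6x, c22x⟩ ⟨c14x, c657x, c14x, c20x, c14x, c649x⟩ (.node ⟨c14x, c1x, c3x, c22x⟩ ⟨c14x, c752x, c14x, c20x, c14x, c14x⟩ (.leaf ⟨c14x, c20x, c17x, c22x⟩ ⟨c14x, c37x, c14x, c20x, c14x, c14x⟩ [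
    ⟨⟨⟨⟨c14x, c15x, c14x, c22x⟩, ⟨.ofNat 0, .negSucc 0, c22x⟩, ⟨.negSucc 0, .ofNat 0, c20x⟩, ⟨.ofNat 0, .ofNat 0, c14x⟩⟩, [0, 1, 787]⟩, ⟨c14x, c22x, c712x, c20x, c14x, c14x⟩⟩,
    ⟨⟨⟨⟨c15x, c16x, c17x, c22x⟩, ⟨.ofNat 0, .negSucc 0, c22x⟩, ⟨.negSucc 0, .ofNat 0, c20x⟩, ⟨.ofNat 0, .ofNat 0, c14x⟩⟩, [0, 1, 2, 3, 4]⟩, ⟨c14x, c37x, c527x, c712x, c14x, c14x⟩⟩,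
    ⟨⟨⟨⟨c18x, c20x, c21x, c22x⟩, ⟨.ofNat 0, .negSucc 0, c22x⟩, ⟨.negSucc 0, .ofNat 0, c20x⟩, ⟨.ofNat 0, .ofNat 0, c14x⟩⟩, [4, 5, 6, 7, 8]⟩, ⟨c14x, c528x, c14x, c529x, c14x, c14x⟩⟩]) (.leaf ⟨c7x, c1x, c3x, c22x⟩ ⟨c649x, c752x, c14x, c784x, c14x, c14x⟩ [
    ⟨⟨⟨⟨c7x, c8x, c9x, c4x⟩, ⟨.ofNat 1, .ofNat 0, c651x⟩, ⟨.ofNat 0, .negSucc 0, c22x⟩, ⟨.ofNat 0, .ofNat 0, c14x⟩⟩, [9, 10, 11, 12]⟩, ⟨c649x, c528x, c529x, c527x, c14x, c14x⟩⟩,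
    ⟨⟨⟨⟨c12x, c1x, c3x, c22x⟩, ⟨.ofNat 1, .ofNat 0, c651x⟩, ⟨.ofNat 0, .negSucc 0, c22x⟩, ⟨.ofNat 0, .ofNat 0, c14x⟩⟩, [12, 13, 14, 20, 21]⟩, ⟨c37x, c752x, c14x, c784x, c14x, c14x⟩⟩,
    ⟨⟨⟨⟨c8x, c12x, c9x, c22x⟩, ⟨.ofNat 1, .ofNat 0, c651x⟩, ⟨.ofNat 0, .negSucc 0, c22x⟩, ⟨.ofNat 0, .ofNat 0, c14x⟩⟩, [8, 9, 10, 12, 13]⟩, ⟨c528x, c37x, c14x, c527x, c14x, c14x⟩⟩])) (.node ⟨c1x, c38x, c6x, c22x⟩ ⟨c752x, c657x, c14x, c530x, c14x, c649x⟩ (.leaf ⟨c1x, c10x, c6x, c4x⟩ ⟨c752x, c756x, c529x, c530x, c14x, c14x⟩ [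
    ⟨⟨⟨⟨c2x, c5x, c6x, c4x⟩, ⟨.ofNat 1, .ofNat 0, c651x⟩, ⟨.ofNat 0, .negSucc 0, c22x⟩, ⟨.ofNat 0, .ofNat 0, c14x⟩⟩, [14, 15, 16, 17, 18, 20]⟩, ⟨c753x, c652x, c529x, c530x, c14x, c14x⟩⟩,
    ⟨⟨⟨⟨c1x, c2x, c3x, c4x⟩, ⟨.ofNat 1, .ofNat 0, c651x⟩, ⟨.ofNat 0, .negSucc 0, c22x⟩, ⟨.ofNat 0, .ofNat 0, c14x⟩⟩, [14, 15, 20, 21]⟩, ⟨c752x, c753x, c529x, c784x, c14x, c14x⟩⟩,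
    ⟨⟨⟨⟨c5x, c10x, c11x, c4x⟩, ⟨.ofNat 1, .ofNat 0, c651x⟩, ⟨.ofNat 0, .negSucc 0, c22x⟩, ⟨.ofNat 0, .ofNat 0, c14x⟩⟩, [17, 18, 19, 20]⟩, ⟨c652x, c756x, c529x, c743x, c14x, c14x⟩⟩]) (.leaf ⟨c23x, c38x, c25x, c22x⟩ ⟨c752x, c657x, c14x, c743x, c14x, c649x⟩ [
    ⟨⟨⟨⟨c23x, c24x, c25x, c17x⟩, ⟨.ofNat 0, .ofNat 1, c652x⟩, ⟨.ofNat 0, .ofNat 0, c14x⟩, ⟨.negSucc 0, .ofNat 0, c34x⟩⟩, [27, 28, 29, 30]⟩, ⟨c752x, c753x, c14x, c14x, c21x, c649x⟩⟩,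
    ⟨⟨⟨⟨c24x, c34x, c25x, c22x⟩, ⟨.ofNat 0, .ofNat 1, c652x⟩, ⟨.ofNat 0, .ofNat 0, c14x⟩, ⟨.negSucc 0, .ofNat 0, c34x⟩⟩, [25, 26, 27, 28, 30]⟩, ⟨c752x, c657x, c14x, c14x, c14x, c21x⟩⟩,
    ⟨⟨⟨⟨c34x, c36x, c25x, c22x⟩, ⟨.ofNat 0, .ofNat 1, c652x⟩, ⟨.ofNat 1, .ofNat 0, c653x⟩, ⟨.ofNat 0, .ofNat 0, c14x⟩⟩, [25, 26, 30, 31, 32]⟩, ⟨c752x, c657x, c14x, c529x, c14x, c14x⟩⟩,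
    ⟨⟨⟨⟨c36x, c38x, c21x, c22x⟩, ⟨.ofNat 0, .ofNat 1, c652x⟩, ⟨.ofNat 1, .ofNat 0, c653x⟩, ⟨.ofNat 0, .ofNat 0, c14x⟩⟩, [31, 32, 33]⟩, ⟨c756x, c657x, c529x, c743x, c14x, c14x⟩⟩]))) (.node ⟨c38x, c49x, c6x, c22x⟩ ⟨c14x, c657x, c743x, c655x, c14x, c649x⟩ (.node ⟨c38x, c28x, c3x, c22x⟩ ⟨c533x, c657x, c743x, c655x, c14x, c14x⟩ (.leaf ⟨c38x, c42x, c17x, c22x⟩ ⟨c753x, c657x, c743x, c534x, c14x, c14x⟩ [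
    ⟨⟨⟨⟨c38x, c39x, c14x, c22x⟩, ⟨.ofNat 0, .ofNat 1, c652x⟩, ⟨.ofNat 1, .ofNat 0, c653x⟩, ⟨.ofNat 0, .ofNat 0, c14x⟩⟩, [32, 33, 34]⟩, ⟨c652x, c657x, c743x, c742x, c14x, c14x⟩⟩,
    ⟨⟨⟨⟨c39x, c41x, c14x, c22x⟩, ⟨.ofNat 0, .ofNat 1, c652x⟩, ⟨.ofNat 1, .ofNat 0, c653x⟩, ⟨.ofNat 0, .ofNat 0, c14x⟩⟩, [34, 35]⟩, ⟨c652x, c657x, c742x, c530x, c14x, c14x⟩⟩,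
    ⟨⟨⟨⟨c41x, c42x, c17x, c22x⟩, ⟨.ofNat 0, .ofNat 1, c652x⟩, ⟨.ofNat 1, .ofNat 0, c653x⟩, ⟨.ofNat 0, .ofNat 0, c14x⟩⟩, [34, 35, 36, 37, 38]⟩, ⟨c753x, c657x, c530x, c534x, c14x, c14x⟩⟩]) (.leaf ⟨c44x, c28x, c3x, c22x⟩ ⟨c533x, c657x, c784x, c655x, c14x, c14x⟩ [
    ⟨⟨⟨⟨c44x, c45x, c21x, c22x⟩, ⟨.ofNat 0, .ofNat 1, c652x⟩, ⟨.ofNat 1, .ofNat 0, c653x⟩, ⟨.ofNat 0, .ofNat 0, c14x⟩⟩, [38, 39, 40, 41, 42]⟩, ⟨c756x, c657x, c729x, c655x, c14x, c14x⟩⟩,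
    ⟨⟨⟨⟨c26x, c27x, c9x, c4x⟩, ⟨.negSucc 0, .ofNat 0, c35x⟩, ⟨.ofNat 0, .ofNat 1, c654x⟩, ⟨.ofNat 0, .ofNat 0, c14x⟩⟩, [43, 44, 45, 46]⟩, ⟨c756x, c758x, c534x, c729x, c14x, c14x⟩⟩,
    ⟨⟨⟨⟨c46x, c28x, c3x, c22x⟩, ⟨.negSucc 0, .ofNat 0, c35x⟩, ⟨.ofNat 0, .ofNat 1, c654x⟩, ⟨.ofNat 0, .ofNat 0, c14x⟩⟩, [46, 47, 48, 54, 55]⟩, ⟨c533x, c753x, c784x, c655x, c14x, c14x⟩⟩,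
    ⟨⟨⟨⟨c27x, c46x, c9x, c22x⟩, ⟨.negSucc 0, .ofNat 0, c35x⟩, ⟨.ofNat 0, .ofNat 1, c654x⟩, ⟨.ofNat 0, .ofNat 0, c14x⟩⟩, [42, 43, 44, 46, 47]⟩, ⟨c753x, c756x, c534x, c655x, c14x, c14x⟩⟩])) (.node ⟨c28x, c49x, c6x, c22x⟩ ⟨c14x, c533x, c712x, c655x, c14x, c649x⟩ (.leaf ⟨c28x, c31x, c6x, c4x⟩ ⟨c528x, c533x, c712x, c729x, c14x, c14x⟩ [
    ⟨⟨⟨⟨c29x, c30x, c6x, c4x⟩, ⟨.negSucc 0, .ofNat 0, c35x⟩, ⟨.ofNat 0, .ofNat 1, c654x⟩, ⟨.ofNat 0, .ofNat 0, c14x⟩⟩, [48, 49, 50, 51, 52, 54]⟩, ⟨c22x, c37x, c712x, c729x, c14x, c14x⟩⟩,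
    ⟨⟨⟨⟨c28x, c29x, c3x, c4x⟩, ⟨.negSucc 0, .ofNat 0, c35x⟩, ⟨.ofNat 0, .ofNat 1, c654x⟩, ⟨.ofNat 0, .ofNat 0, c14x⟩⟩, [48, 49, 54, 55]⟩, ⟨c37x, c533x, c784x, c729x, c14x, c14x⟩⟩,
    ⟨⟨⟨⟨c30x, c31x, c11x, c4x⟩, ⟨.negSucc 0, .ofNat 0, c35x⟩, ⟨.ofNat 0, .ofNat 1, c654x⟩, ⟨.ofNat 0, .ofNat 0, c14x⟩⟩, [51, 52, 53, 54]⟩, ⟨c528x, c22x, c730x, c729x, c14x, c14x⟩⟩]) (.leaf ⟨c32x, c49x, c25x, c22x⟩ ⟨c14x, c533x, c20x, c655x, c14x, c649x⟩ [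
    ⟨⟨⟨⟨c32x, c33x, c25x, c17x⟩, ⟨.ofNat 0, .negSucc 0, c22x⟩, ⟨.ofNat 0, .ofNat 0, c655x⟩, ⟨.negSucc 0, .ofNat 0, c35x⟩⟩, [61, 62, 63, 64]⟩, ⟨c37x, c533x, c655x, c655x, c21x, c649x⟩⟩,
    ⟨⟨⟨⟨c33x, c35x, c25x, c22x⟩, ⟨.ofNat 0, .negSucc 0, c22x⟩, ⟨.ofNat 0, .ofNat 0, c655x⟩, ⟨.negSucc 0, .ofNat 0, c35x⟩⟩, [59, 60, 61, 62, 64]⟩, ⟨c14x, c533x, c655x, c655x, c14x, c21x⟩⟩,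
    ⟨⟨⟨⟨c35x, c47x, c25x, c22x⟩, ⟨.ofNat 0, .negSucc 0, c22x⟩, ⟨.negSucc 0, .ofNat 0, c56x⟩, ⟨.ofNat 0, .ofNat 0, c14x⟩⟩, [59, 60, 64, 65, 66]⟩, ⟨c14x, c533x, c729x, c655x, c14x, c14x⟩⟩,
    ⟨⟨⟨⟨c48x, c49x, c14x, c22x⟩, ⟨.ofNat 0, .negSucc 0, c22x⟩, ⟨.negSucc 0, .ofNat 0, c56x⟩, ⟨.ofNat 0, .ofNat 0, c14x⟩⟩, [66, 67, 68, 69]⟩, ⟨c14x, c22x, c20x, c730x, c14x, c14x⟩⟩])))) (.node ⟨c14x, c49x, c21x, c43x⟩ ⟨c14x, c657x, c14x, c655x, c14x, c728x⟩ (.node ⟨c14x, c48x, c21x, c13x⟩ ⟨c14x, c657x, c14x, c729x, c14x, c711x⟩ (.node ⟨c14x, c8x, c19x, c13x⟩ ⟨c14x, c528x, c14x, c20x, c14x, c711x⟩ (.leaf ⟨c14x, c18x, c19x, c13x⟩ ⟨c14x, c649x, c529x, c20x, c14x, c711x⟩ [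
    ⟨⟨⟨⟨c16x, c18x, c19x, c22x⟩, ⟨.ofNat 0, .negSucc 0, c22x⟩, ⟨.negSucc 0, .ofNat 0, c20x⟩, ⟨.ofNat 0, .ofNat 0, c14x⟩⟩, [3, 4, 5]⟩, ⟨c14x, c649x, c529x, c527x, c14x, c14x⟩⟩,
    ⟨⟨⟨⟨c14x, c15x, c22x, c13x⟩, ⟨.ofNat 0, .ofNat 0, c14x⟩, ⟨.negSucc 0, .ofNat 0, c20x⟩, ⟨.ofNat 0, .ofNat 1, c656x⟩⟩, [786, 787]⟩, ⟨c14x, c14x, c712x, c20x, c14x, c711x⟩⟩,
    ⟨⟨⟨⟨c15x, c16x, c22x, c13x⟩, ⟨.ofNat 0, .ofNat 0, c14x⟩, ⟨.negSucc 0, .ofNat 0, c20x⟩, ⟨.ofNat 0, .ofNat 1, c656x⟩⟩, [786]⟩, ⟨c14x, c14x, c527x, c712x, c14x, c711x⟩⟩]) (.leaf ⟨c16x, c8x, c22x, c13x⟩ ⟨c14x, c528x, c14x, c527x, c14x, c711x⟩ [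
    ⟨⟨⟨⟨c16x, c18x, c22x, c13x⟩, ⟨.ofNat 0, .ofNat 0, c14x⟩, ⟨.negSucc 0, .ofNat 0, c20x⟩, ⟨.ofNat 0, .ofNat 1, c656x⟩⟩, [786]⟩, ⟨c14x, c14x, c529x, c527x, c14x, c711x⟩⟩,
    ⟨⟨⟨⟨c18x, c20x, c22x, c13x⟩, ⟨.ofNat 0, .ofNat 0, c14x⟩, ⟨.negSucc 0, .ofNat 0, c20x⟩, ⟨.ofNat 0, .ofNat 1, c656x⟩⟩, [7, 8, 786]⟩, ⟨c14x, c14x, c14x, c529x, c14x, c711x⟩⟩,
    ⟨⟨⟨⟨c20x, c8x, c22x, c13x⟩, ⟨.ofNat 1, .ofNat 0, c651x⟩, ⟨.ofNat 0, .ofNat 0, c14x⟩, ⟨.ofNat 0, .ofNat 1, c656x⟩⟩, [7, 8, 9, 786]⟩, ⟨c14x, c528x, c14x, c14x, c14x, c711x⟩⟩])) (.node ⟨c8x, c48x, c21x, c13x⟩ ⟨c14x, c657x, c14x, c729x, c14x, c711x⟩ (.leaf ⟨c8x, c36x, c22x, c13x⟩ ⟨c528x, c657x, c14x, c529x, c14x, c711x⟩ [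
    ⟨⟨⟨⟨c8x, c12x, c22x, c13x⟩, ⟨.ofNat 1, .ofNat 0, c651x⟩, ⟨.ofNat 0, .ofNat 0, c14x⟩, ⟨.ofNat 0, .ofNat 1, c656x⟩⟩, [8, 9, 786]⟩, ⟨c528x, c37x, c14x, c14x, c14x, c711x⟩⟩,
    ⟨⟨⟨⟨c12x, c1x, c22x, c13x⟩, ⟨.ofNat 1, .ofNat 0, c651x⟩, ⟨.ofNat 0, .ofNat 0, c14x⟩, ⟨.ofNat 0, .ofNat 1, c656x⟩⟩, [21, 22, 786]⟩, ⟨c37x, c752x, c14x, c14x, c14x, c711x⟩⟩,
    ⟨⟨⟨⟨c34x, c36x, c22x, c13x⟩, ⟨.ofNat 0, .ofNat 0, c657x⟩, ⟨.ofNat 1, .ofNat 0, c653x⟩, ⟨.ofNat 0, .ofNat 1, c656x⟩⟩, [24, 25, 26, 786]⟩, ⟨c657x, c657x, c14x, c529x, c14x, c711x⟩⟩]) (.leaf ⟨c36x, c48x, c21x, c13x⟩ ⟨c14x, c657x, c529x, c729x, c14x, c711x⟩ [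
    ⟨⟨⟨⟨c42x, c44x, c19x, c22x⟩, ⟨.ofNat 0, .ofNat 1, c652x⟩, ⟨.ofNat 1, .ofNat 0, c653x⟩, ⟨.ofNat 0, .ofNat 0, c14x⟩⟩, [37, 38, 39]⟩, ⟨c758x, c657x, c534x, c729x, c14x, c14x⟩⟩,
    ⟨⟨⟨⟨c47x, c48x, c21x, c22x⟩, ⟨.ofNat 0, .negSucc 0, c22x⟩, ⟨.negSucc 0, .ofNat 0, c56x⟩, ⟨.ofNat 0, .ofNat 0, c14x⟩⟩, [65, 66, 67]⟩, ⟨c14x, c528x, c730x, c729x, c14x, c14x⟩⟩,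
    ⟨⟨⟨⟨c36x, c38x, c22x, c13x⟩, ⟨.ofNat 0, .ofNat 0, c657x⟩, ⟨.ofNat 1, .ofNat 0, c653x⟩, ⟨.ofNat 0, .ofNat 1, c656x⟩⟩, [786]⟩, ⟨c657x, c657x, c529x, c743x, c14x, c711x⟩⟩,
    ⟨⟨⟨⟨c38x, c39x, c22x, c13x⟩, ⟨.ofNat 0, .ofNat 0, c657x⟩, ⟨.ofNat 1, .ofNat 0, c653x⟩, ⟨.ofNat 0, .ofNat 1, c656x⟩⟩, [785, 786]⟩, ⟨c657x, c657x, c743x, c742x, c14x, c711x⟩⟩]))) (.node ⟨c1x, c49x, c22x, c43x⟩ ⟨c14x, c657x, c14x, c655x, c14x, c728x⟩ (.node ⟨c1x, c27x, c22x, c43x⟩ ⟨c752x, c657x, c14x, c655x, c14x, c728x⟩ (.leaf ⟨c1x, c41x, c22x, c43x⟩ ⟨c752x, c657x, c14x, c530x, c14x, c728x⟩ [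
    ⟨⟨⟨⟨c2x, c34x, c37x, c13x⟩, ⟨.ofNat 1, .ofNat 0, c651x⟩, ⟨.ofNat 0, .ofNat 0, c14x⟩, ⟨.ofNat 0, .ofNat 1, c656x⟩⟩, [22, 23, 24, 25, 786]⟩, ⟨c753x, c657x, c14x, c14x, c21x, c711x⟩⟩,
    ⟨⟨⟨⟨c1x, c2x, c40x, c13x⟩, ⟨.ofNat 1, .ofNat 0, c651x⟩, ⟨.ofNat 0, .ofNat 0, c14x⟩, ⟨.ofNat 0, .ofNat 1, c656x⟩⟩, [21, 22, 23, 786]⟩, ⟨c752x, c753x, c14x, c14x, c649x, c711x⟩⟩,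
    ⟨⟨⟨⟨c39x, c41x, c22x, c43x⟩, ⟨.ofNat 0, .ofNat 0, c657x⟩, ⟨.ofNat 1, .ofNat 0, c653x⟩, ⟨.ofNat 0, .ofNat 1, c656x⟩⟩, [784, 785, 786]⟩, ⟨c657x, c657x, c742x, c530x, c14x, c728x⟩⟩]) (.leaf ⟨c41x, c27x, c22x, c43x⟩ ⟨c756x, c657x, c530x, c655x, c14x, c728x⟩ [
    ⟨⟨⟨⟨c41x, c42x, c22x, c43x⟩, ⟨.ofNat 0, .ofNat 0, c657x⟩, ⟨.ofNat 1, .ofNat 0, c653x⟩, ⟨.ofNat 0, .ofNat 1, c656x⟩⟩, [784]⟩, ⟨c657x, c657x, c530x, c534x, c14x, c728x⟩⟩,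
    ⟨⟨⟨⟨c42x, c44x, c22x, c43x⟩, ⟨.ofNat 0, .ofNat 0, c657x⟩, ⟨.ofNat 1, .ofNat 0, c653x⟩, ⟨.ofNat 0, .ofNat 1, c656x⟩⟩, [784]⟩, ⟨c657x, c657x, c534x, c729x, c14x, c728x⟩⟩,
    ⟨⟨⟨⟨c44x, c45x, c22x, c43x⟩, ⟨.ofNat 0, .ofNat 0, c657x⟩, ⟨.ofNat 1, .ofNat 0, c653x⟩, ⟨.ofNat 0, .ofNat 1, c656x⟩⟩, [41, 42, 784]⟩, ⟨c657x, c657x, c729x, c655x, c14x, c728x⟩⟩,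
    ⟨⟨⟨⟨c45x, c27x, c22x, c43x⟩, ⟨.negSucc 0, .ofNat 0, c35x⟩, ⟨.ofNat 0, .ofNat 0, c655x⟩, ⟨.ofNat 0, .ofNat 1, c656x⟩⟩, [41, 42, 43, 784]⟩, ⟨c756x, c657x, c655x, c655x, c14x, c728x⟩⟩])) (.node ⟨c27x, c49x, c22x, c43x⟩ ⟨c14x, c756x, c20x, c655x, c14x, c728x⟩ (.leaf ⟨c27x, c29x, c22x, c43x⟩ ⟨c37x, c756x, c655x, c655x, c14x, c728x⟩ [
    ⟨⟨⟨⟨c27x, c46x, c22x, c43x⟩, ⟨.negSucc 0, .ofNat 0, c35x⟩, ⟨.ofNat 0, .ofNat 0, c655x⟩, ⟨.ofNat 0, .ofNat 1, c656x⟩⟩, [42, 43, 784]⟩, ⟨c753x, c756x, c655x, c655x, c14x, c728x⟩⟩,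
    ⟨⟨⟨⟨c46x, c28x, c22x, c43x⟩, ⟨.negSucc 0, .ofNat 0, c35x⟩, ⟨.ofNat 0, .ofNat 0, c655x⟩, ⟨.ofNat 0, .ofNat 1, c656x⟩⟩, [55, 56, 784]⟩, ⟨c533x, c753x, c655x, c655x, c14x, c728x⟩⟩,
    ⟨⟨⟨⟨c28x, c29x, c40x, c43x⟩, ⟨.negSucc 0, .ofNat 0, c35x⟩, ⟨.ofNat 0, .ofNat 0, c655x⟩, ⟨.ofNat 0, .ofNat 1, c656x⟩⟩, [55, 56, 57, 784]⟩, ⟨c37x, c533x, c655x, c655x, c649x, c728x⟩⟩]) (.leaf ⟨c29x, c49x, c22x, c43x⟩ ⟨c14x, c37x, c20x, c655x, c14x, c728x⟩ [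
    ⟨⟨⟨⟨c29x, c35x, c37x, c43x⟩, ⟨.negSucc 0, .ofNat 0, c35x⟩, ⟨.ofNat 0, .ofNat 0, c655x⟩, ⟨.ofNat 0, .ofNat 1, c656x⟩⟩, [56, 57, 58, 59, 784]⟩, ⟨c14x, c37x, c655x, c655x, c21x, c728x⟩⟩,
    ⟨⟨⟨⟨c35x, c47x, c22x, c43x⟩, ⟨.ofNat 0, .ofNat 0, c14x⟩, ⟨.negSucc 0, .ofNat 0, c56x⟩, ⟨.ofNat 0, .ofNat 1, c656x⟩⟩, [58, 59, 60, 784]⟩, ⟨c14x, c14x, c729x, c655x, c14x, c728x⟩⟩,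
    ⟨⟨⟨⟨c47x, c48x, c22x, c43x⟩, ⟨.ofNat 0, .ofNat 0, c14x⟩, ⟨.negSucc 0, .ofNat 0, c56x⟩, ⟨.ofNat 0, .ofNat 1, c656x⟩⟩, [784]⟩, ⟨c14x, c14x, c730x, c729x, c14x, c728x⟩⟩,
    ⟨⟨⟨⟨c48x, c49x, c22x, c43x⟩, ⟨.ofNat 0, .ofNat 0, c14x⟩, ⟨.negSucc 0, .ofNat 0, c56x⟩, ⟨.ofNat 0, .ofNat 1, c656x⟩⟩, [69, 70, 783, 784]⟩, ⟨c14x, c14x, c20x, c730x, c14x, c728x⟩⟩]))))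

def n001x : QT :=
  .node ⟨c49x, c123x, c13x, c121x⟩ ⟨c14x, c657x, c14x, c655x, c711x, c119x⟩ (.node ⟨c49x, c86x, c13x, c91x⟩ ⟨c14x, c657x, c14x, c655x, c711x, c713x⟩ (.node ⟨c49x, c86x, c13x, c70x⟩ ⟨c14x, c657x, c14x, c20x, c711x, c76x⟩ (.node ⟨c49x, c65x, c13x, c66x⟩ ⟨c14x, c37x, c14x, c20x, c711x, c539x⟩ (.leaf ⟨c49x, c54x, c13x, c63x⟩ ⟨c14x, c14x, c529x, c20x, c711x, c715x⟩ [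
    ⟨⟨⟨⟨c49x, c61x, c13x, c62x⟩, ⟨.ofNat 0, .ofNat 0, c14x⟩, ⟨.negSucc 0, .ofNat 0, c56x⟩, ⟨.ofNat 0, .ofNat 1, c656x⟩⟩, [69, 70, 781, 782, 783, 784]⟩, ⟨c14x, c14x, c712x, c20x, c711x, c58x⟩⟩,
    ⟨⟨⟨⟨c61x, c53x, c13x, c63x⟩, ⟨.ofNat 0, .ofNat 0, c14x⟩, ⟨.negSucc 0, .ofNat 0, c56x⟩, ⟨.ofNat 0, .ofNat 1, c656x⟩⟩, [70, 778, 779, 780, 781, 782]⟩, ⟨c14x, c14x, c527x, c712x, c711x, c715x⟩⟩,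
    ⟨⟨⟨⟨c53x, c54x, c13x, c55x⟩, ⟨.ofNat 0, .ofNat 0, c14x⟩, ⟨.negSucc 0, .ofNat 0, c56x⟩, ⟨.ofNat 0, .ofNat 1, c656x⟩⟩, [70, 777, 778, 779]⟩, ⟨c14x, c14x, c529x, c527x, c711x, c714x⟩⟩]) (.leaf ⟨c54x, c65x, c13x, c66x⟩ ⟨c14x, c37x, c14x, c529x, c711x, c539x⟩ [
    ⟨⟨⟨⟨c54x, c56x, c13x, c64x⟩, ⟨.ofNat 0, .ofNat 0, c14x⟩, ⟨.negSucc 0, .ofNat 0, c56x⟩, ⟨.ofNat 0, .ofNat 1, c656x⟩⟩, [70, 774, 775, 776, 777, 778]⟩, ⟨c14x, c14x, c14x, c529x, c711x, c60x⟩⟩,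
    ⟨⟨⟨⟨c56x, c57x, c13x, c58x⟩, ⟨.ofNat 1, .ofNat 0, c658x⟩, ⟨.ofNat 0, .ofNat 0, c14x⟩, ⟨.ofNat 0, .ofNat 1, c656x⟩⟩, [70, 773, 774, 775]⟩, ⟨c14x, c528x, c14x, c14x, c711x, c754x⟩⟩,
    ⟨⟨⟨⟨c57x, c65x, c13x, c66x⟩, ⟨.ofNat 1, .ofNat 0, c658x⟩, ⟨.ofNat 0, .ofNat 0, c14x⟩, ⟨.ofNat 0, .ofNat 1, c656x⟩⟩, [70, 769, 770, 772, 773, 774]⟩, ⟨c528x, c37x, c14x, c14x, c711x, c539x⟩⟩])) (.node ⟨c65x, c86x, c13x, c70x⟩ ⟨c37x, c657x, c14x, c742x, c711x, c76x⟩ (.leaf ⟨c65x, c59x, c13x, c70x⟩ ⟨c37x, c657x, c14x, c14x, c711x, c76x⟩ [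
    ⟨⟨⟨⟨c65x, c50x, c13x, c70x⟩, ⟨.ofNat 1, .ofNat 0, c658x⟩, ⟨.ofNat 0, .ofNat 0, c14x⟩, ⟨.ofNat 0, .ofNat 1, c656x⟩⟩, [70, 760, 761, 762, 768, 769, 770]⟩, ⟨c37x, c752x, c14x, c14x, c711x, c76x⟩⟩,
    ⟨⟨⟨⟨c50x, c51x, c13x, c52x⟩, ⟨.ofNat 1, .ofNat 0, c658x⟩, ⟨.ofNat 0, .ofNat 0, c14x⟩, ⟨.ofNat 0, .ofNat 1, c656x⟩⟩, [70, 759, 760, 761]⟩, ⟨c752x, c753x, c14x, c14x, c711x, c755x⟩⟩,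
    ⟨⟨⟨⟨c51x, c59x, c13x, c60x⟩, ⟨.ofNat 1, .ofNat 0, c658x⟩, ⟨.ofNat 0, .ofNat 0, c14x⟩, ⟨.ofNat 0, .ofNat 1, c656x⟩⟩, [70, 757, 758, 759, 760]⟩, ⟨c753x, c657x, c14x, c14x, c711x, c757x⟩⟩]) (.leaf ⟨c59x, c86x, c13x, c71x⟩ ⟨c759x, c657x, c14x, c742x, c711x, c540x⟩ [
    ⟨⟨⟨⟨c67x, c68x, c13x, c64x⟩, ⟨.ofNat 0, .ofNat 0, c657x⟩, ⟨.ofNat 1, .ofNat 0, c659x⟩, ⟨.ofNat 0, .ofNat 1, c656x⟩⟩, [70, 749, 750, 751]⟩, ⟨c657x, c657x, c529x, c743x, c711x, c60x⟩⟩,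
    ⟨⟨⟨⟨c68x, c69x, c13x, c62x⟩, ⟨.ofNat 0, .ofNat 0, c657x⟩, ⟨.ofNat 1, .ofNat 0, c659x⟩, ⟨.ofNat 0, .ofNat 1, c656x⟩⟩, [70, 71, 72, 747, 748, 749, 750]⟩, ⟨c657x, c657x, c743x, c742x, c711x, c58x⟩⟩,
    ⟨⟨⟨⟨c59x, c67x, c13x, c71x⟩, ⟨.ofNat 0, .ofNat 0, c657x⟩, ⟨.ofNat 1, .ofNat 0, c659x⟩, ⟨.ofNat 0, .ofNat 1, c656x⟩⟩, [70, 750, 751, 752, 756, 757, 758]⟩, ⟨c657x, c657x, c14x, c529x, c711x, c540x⟩⟩,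
    ⟨⟨⟨⟨c85x, c86x, c60x, c58x⟩, ⟨.ofNat 1, .ofNat 0, c660x⟩, ⟨.ofNat 0, .ofNat 0, c14x⟩, ⟨.ofNat 0, .ofNat 1, c656x⟩⟩, [98, 99, 100, 101]⟩, ⟨c759x, c657x, c14x, c14x, c757x, c754x⟩⟩]))) (.node ⟨c72x, c85x, c43x, c91x⟩ ⟨c14x, c657x, c14x, c655x, c728x, c713x⟩ (.node ⟨c72x, c661x, c43x, c79x⟩ ⟨c649x, c657x, c14x, c655x, c728x, c727x⟩ (.leaf ⟨c72x, c74x, c73x, c88x⟩ ⟨c649x, c652x, c14x, c14x, c536x, c623x⟩ [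
    ⟨⟨⟨⟨c72x, c57x, c73x, c66x⟩, ⟨.ofNat 1, .ofNat 0, c658x⟩, ⟨.ofNat 0, .ofNat 0, c14x⟩, ⟨.ofNat 0, .ofNat 1, c656x⟩⟩, [770, 771, 772, 773]⟩, ⟨c649x, c528x, c14x, c14x, c536x, c539x⟩⟩,
    ⟨⟨⟨⟨c50x, c51x, c73x, c70x⟩, ⟨.ofNat 1, .ofNat 0, c658x⟩, ⟨.ofNat 0, .ofNat 0, c14x⟩, ⟨.ofNat 0, .ofNat 1, c656x⟩⟩, [761, 762, 767, 768]⟩, ⟨c752x, c753x, c14x, c14x, c536x, c76x⟩⟩,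
    ⟨⟨⟨⟨c51x, c74x, c73x, c88x⟩, ⟨.ofNat 1, .ofNat 0, c658x⟩, ⟨.ofNat 0, .ofNat 0, c14x⟩, ⟨.ofNat 0, .ofNat 1, c656x⟩⟩, [762, 764, 765, 766, 767, 768]⟩, ⟨c753x, c652x, c14x, c14x, c536x, c623x⟩⟩]) (.leaf ⟨c74x, c661x, c43x, c79x⟩ ⟨c652x, c657x, c14x, c655x, c728x, c727x⟩ [
    ⟨⟨⟨⟨c74x, c75x, c73x, c76x⟩, ⟨.ofNat 1, .ofNat 0, c658x⟩, ⟨.ofNat 0, .ofNat 0, c14x⟩, ⟨.ofNat 0, .ofNat 1, c656x⟩⟩, [762, 763, 764, 765]⟩, ⟨c652x, c756x, c14x, c14x, c536x, c537x⟩⟩,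
    ⟨⟨⟨⟨c89x, c77x, c63x, c71x⟩, ⟨.ofNat 1, .ofNat 0, c658x⟩, ⟨.ofNat 0, .ofNat 0, c14x⟩, ⟨.ofNat 0, .ofNat 1, c656x⟩⟩, [752, 753, 754, 755]⟩, ⟨c758x, c759x, c14x, c14x, c715x, c540x⟩⟩,
    ⟨⟨⟨⟨c77x, c59x, c58x, c71x⟩, ⟨.ofNat 1, .ofNat 0, c658x⟩, ⟨.ofNat 0, .ofNat 0, c14x⟩, ⟨.ofNat 0, .ofNat 1, c656x⟩⟩, [752, 754, 755, 756, 757]⟩, ⟨c759x, c657x, c14x, c14x, c754x, c540x⟩⟩,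
    ⟨⟨⟨⟨c69x, c661x, c43x, c79x⟩, ⟨.ofNat 0, .ofNat 0, c657x⟩, ⟨.ofNat 1, .ofNat 0, c659x⟩, ⟨.ofNat 0, .ofNat 1, c656x⟩⟩, [71, 72, 746, 747, 748]⟩, ⟨c657x, c657x, c742x, c655x, c728x, c727x⟩⟩])) (.node ⟨c661x, c85x, c43x, c91x⟩ ⟨c14x, c657x, c14x, c655x, c728x, c713x⟩ (.leaf ⟨c80x, c84x, c52x, c73x⟩ ⟨c649x, c756x, c14x, c14x, c755x, c536x⟩ [
    ⟨⟨⟨⟨c80x, c81x, c58x, c73x⟩, ⟨.ofNat 1, .ofNat 0, c660x⟩, ⟨.ofNat 0, .ofNat 0, c14x⟩, ⟨.ofNat 0, .ofNat 1, c656x⟩⟩, [82, 83, 84, 85]⟩, ⟨c649x, c528x, c14x, c14x, c754x, c536x⟩⟩,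
    ⟨⟨⟨⟨c82x, c83x, c52x, c73x⟩, ⟨.ofNat 1, .ofNat 0, c660x⟩, ⟨.ofNat 0, .ofNat 0, c14x⟩, ⟨.ofNat 0, .ofNat 1, c656x⟩⟩, [94, 95, 96, 97, 98]⟩, ⟨c752x, c753x, c14x, c14x, c755x, c536x⟩⟩,
    ⟨⟨⟨⟨c83x, c84x, c60x, c73x⟩, ⟨.ofNat 1, .ofNat 0, c660x⟩, ⟨.ofNat 0, .ofNat 0, c14x⟩, ⟨.ofNat 0, .ofNat 1, c656x⟩⟩, [93, 94, 97, 98]⟩, ⟨c753x, c756x, c14x, c14x, c757x, c536x⟩⟩]) (.leaf ⟨c661x, c85x, c43x, c91x⟩ ⟨c14x, c657x, c14x, c655x, c728x, c713x⟩ [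
    ⟨⟨⟨⟨c661x, c662x, c43x, c79x⟩, ⟨.negSucc 0, .ofNat 0, c662x⟩, ⟨.ofNat 0, .ofNat 0, c655x⟩, ⟨.ofNat 0, .ofNat 1, c656x⟩⟩, [72, 746]⟩, ⟨c14x, c657x, c655x, c655x, c728x, c727x⟩⟩,
    ⟨⟨⟨⟨c87x, c85x, c60x, c63x⟩, ⟨.ofNat 1, .ofNat 0, c660x⟩, ⟨.ofNat 0, .ofNat 0, c14x⟩, ⟨.ofNat 0, .ofNat 1, c656x⟩⟩, [98, 100, 101, 102, 103]⟩, ⟨c758x, c759x, c14x, c14x, c757x, c715x⟩⟩,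
    ⟨⟨⟨⟨c662x, c78x, c43x, c79x⟩, ⟨.ofNat 0, .ofNat 0, c14x⟩, ⟨.negSucc 0, .ofNat 0, c94x⟩, ⟨.ofNat 0, .ofNat 1, c656x⟩⟩, [72, 73, 74, 745, 746]⟩, ⟨c14x, c14x, c20x, c655x, c728x, c727x⟩⟩,
    ⟨⟨⟨⟨c84x, c87x, c60x, c91x⟩, ⟨.ofNat 1, .ofNat 0, c660x⟩, ⟨.ofNat 0, .ofNat 0, c14x⟩, ⟨.ofNat 0, .ofNat 1, c656x⟩⟩, [92, 93, 94, 98, 102, 103, 104, 744]⟩, ⟨c756x, c758x, c14x, c14x, c757x, c713x⟩⟩])))) (.node ⟨c78x, c123x, c58x, c121x⟩ ⟨c14x, c657x, c14x, c655x, c754x, c119x⟩ (.node ⟨c78x, c98x, c58x, c91x⟩ ⟨c14x, c657x, c14x, c20x, c754x, c713x⟩ (.node ⟨c78x, c99x, c58x, c91x⟩ ⟨c14x, c37x, c14x, c20x, c754x, c713x⟩ (.leaf ⟨c78x, c93x, c55x, c91x⟩ ⟨c14x, c14x, c529x, c20x, c714x, c713x⟩ [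
    ⟨⟨⟨⟨c78x, c90x, c62x, c91x⟩, ⟨.ofNat 0, .ofNat 0, c14x⟩, ⟨.negSucc 0, .ofNat 0, c94x⟩, ⟨.ofNat 0, .ofNat 1, c656x⟩⟩, [73, 74, 75, 76, 744, 745, 746]⟩, ⟨c14x, c14x, c712x, c20x, c58x, c713x⟩⟩,
    ⟨⟨⟨⟨c90x, c92x, c63x, c91x⟩, ⟨.ofNat 0, .ofNat 0, c14x⟩, ⟨.negSucc 0, .ofNat 0, c94x⟩, ⟨.ofNat 0, .ofNat 1, c656x⟩⟩, [75, 76, 77, 744]⟩, ⟨c14x, c14x, c527x, c712x, c715x, c713x⟩⟩,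
    ⟨⟨⟨⟨c92x, c93x, c55x, c91x⟩, ⟨.ofNat 0, .ofNat 0, c14x⟩, ⟨.negSucc 0, .ofNat 0, c94x⟩, ⟨.ofNat 0, .ofNat 1, c656x⟩⟩, [76, 77, 78, 79, 80, 744]⟩, ⟨c14x, c14x, c529x, c527x, c714x, c713x⟩⟩]) (.leaf ⟨c93x, c99x, c58x, c91x⟩ ⟨c14x, c37x, c14x, c529x, c754x, c713x⟩ [
    ⟨⟨⟨⟨c93x, c94x, c64x, c91x⟩, ⟨.ofNat 0, .ofNat 0, c14x⟩, ⟨.negSucc 0, .ofNat 0, c94x⟩, ⟨.ofNat 0, .ofNat 1, c656x⟩⟩, [79, 80, 81, 744]⟩, ⟨c14x, c14x, c14x, c529x, c60x, c713x⟩⟩,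
    ⟨⟨⟨⟨c94x, c80x, c58x, c91x⟩, ⟨.ofNat 1, .ofNat 0, c660x⟩, ⟨.ofNat 0, .ofNat 0, c14x⟩, ⟨.ofNat 0, .ofNat 1, c656x⟩⟩, [80, 81, 82, 84, 85, 86, 744]⟩, ⟨c14x, c649x, c14x, c14x, c754x, c713x⟩⟩,
    ⟨⟨⟨⟨c80x, c99x, c66x, c91x⟩, ⟨.ofNat 1, .ofNat 0, c660x⟩, ⟨.ofNat 0, .ofNat 0, c14x⟩, ⟨.ofNat 0, .ofNat 1, c656x⟩⟩, [85, 86, 87, 88, 744]⟩, ⟨c649x, c37x, c14x, c14x, c539x, c713x⟩⟩])) (.node ⟨c99x, c98x, c64x, c91x⟩ ⟨c37x, c657x, c14x, c742x, c60x, c713x⟩ (.leaf ⟨c99x, c84x, c76x, c91x⟩ ⟨c37x, c756x, c14x, c14x, c537x, c713x⟩ [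
    ⟨⟨⟨⟨c99x, c83x, c70x, c91x⟩, ⟨.ofNat 1, .ofNat 0, c660x⟩, ⟨.ofNat 0, .ofNat 0, c14x⟩, ⟨.ofNat 0, .ofNat 1, c656x⟩⟩, [87, 88, 89, 90, 744]⟩, ⟨c37x, c753x, c14x, c14x, c76x, c713x⟩⟩,
    ⟨⟨⟨⟨c95x, c84x, c76x, c91x⟩, ⟨.ofNat 1, .ofNat 0, c660x⟩, ⟨.ofNat 0, .ofNat 0, c14x⟩, ⟨.ofNat 0, .ofNat 1, c656x⟩⟩, [90, 91, 92, 93, 744]⟩, ⟨c652x, c756x, c14x, c14x, c537x, c713x⟩⟩,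
    ⟨⟨⟨⟨c83x, c95x, c88x, c91x⟩, ⟨.ofNat 1, .ofNat 0, c660x⟩, ⟨.ofNat 0, .ofNat 0, c14x⟩, ⟨.ofNat 0, .ofNat 1, c656x⟩⟩, [89, 90, 91, 744]⟩, ⟨c753x, c652x, c14x, c14x, c623x, c713x⟩⟩]) (.leaf ⟨c87x, c98x, c64x, c91x⟩ ⟨c758x, c657x, c14x, c742x, c60x, c713x⟩ [
    ⟨⟨⟨⟨c87x, c86x, c71x, c91x⟩, ⟨.ofNat 1, .ofNat 0, c660x⟩, ⟨.ofNat 0, .ofNat 0, c14x⟩, ⟨.ofNat 0, .ofNat 1, c656x⟩⟩, [103, 104, 744]⟩, ⟨c758x, c657x, c14x, c14x, c540x, c713x⟩⟩,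
    ⟨⟨⟨⟨c86x, c96x, c71x, c91x⟩, ⟨.ofNat 0, .ofNat 0, c657x⟩, ⟨.ofNat 1, .ofNat 0, c663x⟩, ⟨.ofNat 0, .ofNat 1, c656x⟩⟩, [104, 105, 744]⟩, ⟨c657x, c657x, c14x, c529x, c540x, c713x⟩⟩,
    ⟨⟨⟨⟨c96x, c97x, c64x, c91x⟩, ⟨.ofNat 0, .ofNat 0, c657x⟩, ⟨.ofNat 1, .ofNat 0, c663x⟩, ⟨.ofNat 0, .ofNat 1, c656x⟩⟩, [104, 105, 106, 107, 108, 744]⟩, ⟨c657x, c657x, c529x, c743x, c60x, c713x⟩⟩,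
    ⟨⟨⟨⟨c97x, c98x, c62x, c91x⟩, ⟨.ofNat 0, .ofNat 0, c657x⟩, ⟨.ofNat 1, .ofNat 0, c663x⟩, ⟨.ofNat 0, .ofNat 1, c656x⟩⟩, [107, 108, 109, 110, 743, 744]⟩, ⟨c657x, c657x, c743x, c742x, c58x, c713x⟩⟩]))) (.node ⟨c98x, c123x, c79x, c121x⟩ ⟨c14x, c657x, c742x, c655x, c727x, c119x⟩ (.node ⟨c98x, c100x, c79x, c120x⟩ ⟨c37x, c657x, c742x, c655x, c727x, c104x⟩ (.leaf ⟨c98x, c116x, c79x, c117x⟩ ⟨c657x, c657x, c742x, c729x, c727x, c548x⟩ [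
    ⟨⟨⟨⟨c98x, c103x, c79x, c104x⟩, ⟨.ofNat 0, .ofNat 0, c657x⟩, ⟨.ofNat 1, .ofNat 0, c663x⟩, ⟨.ofNat 0, .ofNat 1, c656x⟩⟩, [109, 110, 740, 741, 742, 743, 744]⟩, ⟨c657x, c657x, c742x, c530x, c727x, c731x⟩⟩,
    ⟨⟨⟨⟨c103x, c105x, c79x, c106x⟩, ⟨.ofNat 0, .ofNat 0, c657x⟩, ⟨.ofNat 1, .ofNat 0, c663x⟩, ⟨.ofNat 0, .ofNat 1, c656x⟩⟩, [110, 739, 740, 741]⟩, ⟨c657x, c657x, c530x, c534x, c727x, c584x⟩⟩,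
    ⟨⟨⟨⟨c105x, c116x, c79x, c117x⟩, ⟨.ofNat 0, .ofNat 0, c657x⟩, ⟨.ofNat 1, .ofNat 0, c663x⟩, ⟨.ofNat 0, .ofNat 1, c656x⟩⟩, [110, 736, 737, 738, 739, 740]⟩, ⟨c657x, c657x, c534x, c729x, c727x, c548x⟩⟩]) (.leaf ⟨c116x, c100x, c79x, c120x⟩ ⟨c37x, c657x, c729x, c655x, c727x, c104x⟩ [
    ⟨⟨⟨⟨c116x, c118x, c79x, c119x⟩, ⟨.ofNat 0, .ofNat 0, c657x⟩, ⟨.ofNat 1, .ofNat 0, c663x⟩, ⟨.ofNat 0, .ofNat 1, c656x⟩⟩, [110, 735, 736, 737]⟩, ⟨c657x, c657x, c729x, c655x, c727x, c633x⟩⟩,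
    ⟨⟨⟨⟨c118x, c107x, c79x, c120x⟩, ⟨.negSucc 0, .ofNat 0, c139x⟩, ⟨.ofNat 0, .ofNat 0, c655x⟩, ⟨.ofNat 0, .ofNat 1, c656x⟩⟩, [110, 730, 731, 732, 734, 735, 736]⟩, ⟨c758x, c657x, c655x, c655x, c727x, c104x⟩⟩,
    ⟨⟨⟨⟨c107x, c108x, c79x, c109x⟩, ⟨.negSucc 0, .ofNat 0, c139x⟩, ⟨.ofNat 0, .ofNat 0, c655x⟩, ⟨.ofNat 0, .ofNat 1, c656x⟩⟩, [110, 728, 729, 730, 731]⟩, ⟨c753x, c758x, c655x, c655x, c727x, c773x⟩⟩,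
    ⟨⟨⟨⟨c108x, c100x, c79x, c110x⟩, ⟨.negSucc 0, .ofNat 0, c139x⟩, ⟨.ofNat 0, .ofNat 0, c655x⟩, ⟨.ofNat 0, .ofNat 1, c656x⟩⟩, [110, 726, 727, 728, 729]⟩, ⟨c37x, c753x, c655x, c655x, c727x, c771x⟩⟩])) (.node ⟨c100x, c123x, c79x, c121x⟩ ⟨c14x, c37x, c20x, c655x, c727x, c119x⟩ (.leaf ⟨c100x, c113x, c79x, c121x⟩ ⟨c649x, c37x, c655x, c655x, c727x, c119x⟩ [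
    ⟨⟨⟨⟨c100x, c101x, c79x, c102x⟩, ⟨.negSucc 0, .ofNat 0, c139x⟩, ⟨.ofNat 0, .ofNat 0, c655x⟩, ⟨.ofNat 0, .ofNat 1, c656x⟩⟩, [110, 725, 726, 727]⟩, ⟨c22x, c37x, c655x, c655x, c727x, c770x⟩⟩,
    ⟨⟨⟨⟨c101x, c111x, c79x, c112x⟩, ⟨.negSucc 0, .ofNat 0, c139x⟩, ⟨.ofNat 0, .ofNat 0, c655x⟩, ⟨.ofNat 0, .ofNat 1, c656x⟩⟩, [110, 723, 724, 725, 726]⟩, ⟨c528x, c22x, c655x, c655x, c727x, c110x⟩⟩,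
    ⟨⟨⟨⟨c111x, c113x, c79x, c121x⟩, ⟨.negSucc 0, .ofNat 0, c139x⟩, ⟨.ofNat 0, .ofNat 0, c655x⟩, ⟨.ofNat 0, .ofNat 1, c656x⟩⟩, [110, 712, 713, 714, 718, 722, 723, 724]⟩, ⟨c649x, c528x, c655x, c655x, c727x, c119x⟩⟩]) (.leaf ⟨c113x, c123x, c79x, c119x⟩ ⟨c14x, c649x, c20x, c655x, c727x, c633x⟩ [
    ⟨⟨⟨⟨c113x, c139x, c79x, c115x⟩, ⟨.negSucc 0, .ofNat 0, c139x⟩, ⟨.ofNat 0, .ofNat 0, c655x⟩, ⟨.ofNat 0, .ofNat 1, c656x⟩⟩, [110, 712, 713]⟩, ⟨c14x, c649x, c655x, c655x, c727x, c589x⟩⟩,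
    ⟨⟨⟨⟨c139x, c114x, c79x, c115x⟩, ⟨.ofNat 0, .ofNat 0, c14x⟩, ⟨.negSucc 0, .ofNat 0, c664x⟩, ⟨.ofNat 0, .ofNat 1, c656x⟩⟩, [110, 711, 712]⟩, ⟨c14x, c14x, c729x, c655x, c727x, c589x⟩⟩,
    ⟨⟨⟨⟨c114x, c122x, c79x, c119x⟩, ⟨.ofNat 0, .ofNat 0, c14x⟩, ⟨.negSucc 0, .ofNat 0, c664x⟩, ⟨.ofNat 0, .ofNat 1, c656x⟩⟩, [110, 708, 709, 710, 711, 712]⟩, ⟨c14x, c14x, c730x, c729x, c727x, c633x⟩⟩,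
    ⟨⟨⟨⟨c122x, c123x, c79x, c104x⟩, ⟨.ofNat 0, .ofNat 0, c14x⟩, ⟨.negSucc 0, .ofNat 0, c664x⟩, ⟨.ofNat 0, .ofNat 1, c656x⟩⟩, [110, 111, 112, 707, 708, 709]⟩, ⟨c14x, c14x, c20x, c730x, c727x, c731x⟩⟩]))))

def n00x : QT :=
  .node ⟨c14x, c123x, c6x, c121x⟩ ⟨c14x, c657x, c14x, c655x, c14x, c119x⟩ (n000x) (n001x)

def n010x : QT :=
  .node ⟨c107x, c175x, c91x, c168x⟩ ⟨c14x, c657x, c14x, c655x, c713x, c717x⟩ (.node ⟨c107x, c151x, c91x, c152x⟩ ⟨c14x, c657x, c14x, c655x, c713x, c776x⟩ (.node ⟨c107x, c140x, c91x, c125x⟩ ⟨c14x, c657x, c14x, c655x, c713x, c716x⟩ (.node ⟨c107x, c665x, c91x, c125x⟩ ⟨c14x, c657x, c14x, c655x, c713x, c716x⟩ (.leaf ⟨c107x, c111x, c128x, c137x⟩ ⟨c528x, c758x, c655x, c655x, c588x,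 c772x⟩ [
    ⟨⟨⟨⟨c107x, c135x, c128x, c120x⟩, ⟨.negSucc 0, .ofNat 0, c139x⟩, ⟨.ofNat 0, .ofNat 0, c655x⟩, ⟨.ofNat 0, .ofNat 1, c656x⟩⟩, [731, 732, 733, 734]⟩, ⟨c756x, c758x, c655x, c655x, c588x, c104x⟩⟩,
    ⟨⟨⟨⟨c136x, c100x, c128x, c137x⟩, ⟨.negSucc 0, .ofNat 0, c139x⟩, ⟨.ofNat 0, .ofNat 0, c655x⟩, ⟨.ofNat 0, .ofNat 1, c656x⟩⟩, [718, 719, 720, 721, 722]⟩, ⟨c37x, c533x, c655x, c655x, c588x, c772x⟩⟩,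
    ⟨⟨⟨⟨c100x, c111x, c128x, c121x⟩, ⟨.negSucc 0, .ofNat 0, c139x⟩, ⟨.ofNat 0, .ofNat 0, c655x⟩, ⟨.ofNat 0, .ofNat 1, c656x⟩⟩, [718, 719, 722, 723]⟩, ⟨c528x, c37x, c655x, c655x, c588x, c119x⟩⟩]) (.leaf ⟨c113x, c665x, c91x, c125x⟩ ⟨c14x, c657x, c14x, c655x, c713x, c716x⟩ [
    ⟨⟨⟨⟨c113x, c138x, c106x, c121x⟩, ⟨.negSucc 0, .ofNat 0, c139x⟩, ⟨.ofNat 0, .ofNat 0, c655x⟩, ⟨.ofNat 0, .ofNat 1, c656x⟩⟩, [713, 714, 715, 716, 718]⟩, ⟨c21x, c649x, c655x, c655x, c584x, c119x⟩⟩,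
    ⟨⟨⟨⟨c123x, c664x, c91x, c125x⟩, ⟨.ofNat 0, .ofNat 0, c14x⟩, ⟨.negSucc 0, .ofNat 0, c664x⟩, ⟨.ofNat 0, .ofNat 1, c656x⟩⟩, [111, 112, 706, 707, 708]⟩, ⟨c14x, c14x, c14x, c20x, c713x, c716x⟩⟩,
    ⟨⟨⟨⟨c664x, c665x, c91x, c125x⟩, ⟨.ofNat 1, .ofNat 0, c666x⟩, ⟨.ofNat 0, .ofNat 0, c14x⟩, ⟨.ofNat 0, .ofNat 1, c656x⟩⟩, [112, 706]⟩, ⟨c14x, c657x, c14x, c14x, c713x, c716x⟩⟩])) (.node ⟨c665x, c140x, c91x, c125x⟩ ⟨c14x, c657x, c14x, c655x, c713x, c716x⟩ (.leaf ⟨c665x, c130x, c91x, c125x⟩ ⟨c37x, c657x, c14x, c655x, c713x, c716x⟩ [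
    ⟨⟨⟨⟨c665x, c124x, c91x, c125x⟩, ⟨.ofNat 0, .ofNat 0, c657x⟩, ⟨.ofNat 1, .ofNat 0, c667x⟩, ⟨.ofNat 0, .ofNat 1, c656x⟩⟩, [112, 113, 114, 705, 706]⟩, ⟨c657x, c657x, c14x, c742x, c713x, c716x⟩⟩,
    ⟨⟨⟨⟨c126x, c127x, c109x, c128x⟩, ⟨.negSucc 0, .ofNat 0, c140x⟩, ⟨.ofNat 0, .ofNat 0, c655x⟩, ⟨.ofNat 0, .ofNat 1, c656x⟩⟩, [123, 124, 125, 126]⟩, ⟨c756x, c758x, c655x, c655x, c773x, c588x⟩⟩,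
    ⟨⟨⟨⟨c129x, c130x, c110x, c128x⟩, ⟨.negSucc 0, .ofNat 0, c140x⟩, ⟨.ofNat 0, .ofNat 0, c655x⟩, ⟨.ofNat 0, .ofNat 1, c656x⟩⟩, [128, 129, 134, 135]⟩, ⟨c37x, c533x, c655x, c655x, c771x, c588x⟩⟩]) (.leaf ⟨c130x, c140x, c102x, c120x⟩ ⟨c14x, c37x, c655x, c655x, c770x, c104x⟩ [
    ⟨⟨⟨⟨c130x, c131x, c102x, c128x⟩, ⟨.negSucc 0, .ofNat 0, c140x⟩, ⟨.ofNat 0, .ofNat 0, c655x⟩, ⟨.ofNat 0, .ofNat 1, c656x⟩⟩, [128, 129, 130, 131, 132, 134]⟩, ⟨c22x, c37x, c655x, c655x, c770x, c588x⟩⟩,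
    ⟨⟨⟨⟨c131x, c132x, c112x, c128x⟩, ⟨.negSucc 0, .ofNat 0, c140x⟩, ⟨.ofNat 0, .ofNat 0, c655x⟩, ⟨.ofNat 0, .ofNat 1, c656x⟩⟩, [131, 132, 133, 134]⟩, ⟨c528x, c22x, c655x, c655x, c110x, c588x⟩⟩,
    ⟨⟨⟨⟨c133x, c134x, c115x, c106x⟩, ⟨.negSucc 0, .ofNat 0, c140x⟩, ⟨.ofNat 0, .ofNat 0, c655x⟩, ⟨.ofNat 0, .ofNat 1, c656x⟩⟩, [141, 142, 143, 144]⟩, ⟨c21x, c649x, c655x, c655x, c589x, c584x⟩⟩,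
    ⟨⟨⟨⟨c134x, c140x, c115x, c120x⟩, ⟨.negSucc 0, .ofNat 0, c140x⟩, ⟨.ofNat 0, .ofNat 0, c655x⟩, ⟨.ofNat 0, .ofNat 1, c656x⟩⟩, [139, 140, 141, 142, 144]⟩, ⟨c14x, c21x, c655x, c655x, c589x, c104x⟩⟩]))) (.node ⟨c138x, c151x, c110x, c152x⟩ ⟨c14x, c657x, c742x, c655x, c771x, c776x⟩ (.node ⟨c138x, c149x, c110x, c142x⟩ ⟨c14x, c657x, c742x, c655x, c771x, c726x⟩ (.leaf ⟨c138x, c145x, c106x, c142x⟩ ⟨c14x, c657x, c742x, c655x, c584x, c726x⟩ [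
    ⟨⟨⟨⟨c138x, c139x, c120x, c121x⟩, ⟨.negSucc 0, .ofNat 0, c139x⟩, ⟨.ofNat 0, .ofNat 0, c655x⟩, ⟨.ofNat 0, .ofNat 1, c656x⟩⟩, [715, 716, 717, 718]⟩, ⟨c14x, c21x, c655x, c655x, c104x, c119x⟩⟩,
    ⟨⟨⟨⟨c124x, c144x, c104x, c142x⟩, ⟨.ofNat 0, .ofNat 0, c657x⟩, ⟨.ofNat 1, .ofNat 0, c667x⟩, ⟨.ofNat 0, .ofNat 1, c656x⟩⟩, [113, 114, 115, 704, 705, 706]⟩, ⟨c657x, c657x, c742x, c530x, c731x, c726x⟩⟩,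
    ⟨⟨⟨⟨c144x, c145x, c106x, c142x⟩, ⟨.ofNat 0, .ofNat 0, c657x⟩, ⟨.ofNat 1, .ofNat 0, c667x⟩, ⟨.ofNat 0, .ofNat 1, c656x⟩⟩, [114, 115, 116, 117, 118, 704]⟩, ⟨c657x, c657x, c530x, c534x, c584x, c726x⟩⟩]) (.leaf ⟨c127x, c149x, c110x, c142x⟩ ⟨c14x, c756x, c20x, c655x, c771x, c726x⟩ [
    ⟨⟨⟨⟨c141x, c129x, c110x, c142x⟩, ⟨.negSucc 0, .ofNat 0, c140x⟩, ⟨.ofNat 0, .ofNat 0, c655x⟩, ⟨.ofNat 0, .ofNat 1, c656x⟩⟩, [126, 127, 128, 134, 135, 136, 704]⟩, ⟨c533x, c753x, c655x, c655x, c771x, c726x⟩⟩,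
    ⟨⟨⟨⟨c127x, c141x, c109x, c142x⟩, ⟨.negSucc 0, .ofNat 0, c140x⟩, ⟨.ofNat 0, .ofNat 0, c655x⟩, ⟨.ofNat 0, .ofNat 1, c656x⟩⟩, [122, 123, 124, 126, 127, 704]⟩, ⟨c753x, c756x, c655x, c655x, c773x, c726x⟩⟩,
    ⟨⟨⟨⟨c140x, c143x, c115x, c142x⟩, ⟨.ofNat 0, .ofNat 0, c14x⟩, ⟨.negSucc 0, .ofNat 0, c668x⟩, ⟨.ofNat 0, .ofNat 1, c656x⟩⟩, [138, 139, 140, 144, 145, 146, 704]⟩, ⟨c14x, c14x, c729x, c655x, c589x, c726x⟩⟩,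
    ⟨⟨⟨⟨c148x, c149x, c104x, c142x⟩, ⟨.ofNat 0, .ofNat 0, c14x⟩, ⟨.negSucc 0, .ofNat 0, c668x⟩, ⟨.ofNat 0, .ofNat 1, c656x⟩⟩, [146, 147, 148, 149, 150, 703, 704]⟩, ⟨c14x, c14x, c20x, c730x, c731x, c726x⟩⟩])) (.node ⟨c145x, c151x, c119x, c152x⟩ ⟨c14x, c657x, c534x, c655x, c633x, c776x⟩ (.leaf ⟨c145x, c148x, c119x, c142x⟩ ⟨c14x, c657x, c534x, c655x, c633x, c726x⟩ [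
    ⟨⟨⟨⟨c145x, c146x, c117x, c142x⟩, ⟨.ofNat 0, .ofNat 0, c657x⟩, ⟨.ofNat 1, .ofNat 0, c667x⟩, ⟨.ofNat 0, .ofNat 1, c656x⟩⟩, [117, 118, 119, 704]⟩, ⟨c657x, c657x, c534x, c729x, c548x, c726x⟩⟩,
    ⟨⟨⟨⟨c146x, c147x, c119x, c142x⟩, ⟨.ofNat 0, .ofNat 0, c657x⟩, ⟨.ofNat 1, .ofNat 0, c667x⟩, ⟨.ofNat 0, .ofNat 1, c656x⟩⟩, [118, 119, 120, 121, 122, 704]⟩, ⟨c657x, c657x, c729x, c655x, c633x, c726x⟩⟩,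
    ⟨⟨⟨⟨c143x, c148x, c119x, c142x⟩, ⟨.ofNat 0, .ofNat 0, c14x⟩, ⟨.negSucc 0, .ofNat 0, c668x⟩, ⟨.ofNat 0, .ofNat 1, c656x⟩⟩, [145, 146, 147, 704]⟩, ⟨c14x, c14x, c730x, c729x, c633x, c726x⟩⟩]) (.leaf ⟨c147x, c151x, c120x, c152x⟩ ⟨c14x, c657x, c655x, c655x, c104x, c776x⟩ [
    ⟨⟨⟨⟨c147x, c127x, c120x, c142x⟩, ⟨.negSucc 0, .ofNat 0, c140x⟩, ⟨.ofNat 0, .ofNat 0, c655x⟩, ⟨.ofNat 0, .ofNat 1, c656x⟩⟩, [121, 122, 123, 704]⟩, ⟨c756x, c657x, c655x, c655x, c104x, c726x⟩⟩,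
    ⟨⟨⟨⟨c130x, c140x, c121x, c142x⟩, ⟨.negSucc 0, .ofNat 0, c140x⟩, ⟨.ofNat 0, .ofNat 0, c655x⟩, ⟨.ofNat 0, .ofNat 1, c656x⟩⟩, [136, 137, 138, 139, 704]⟩, ⟨c14x, c37x, c655x, c655x, c119x, c726x⟩⟩,
    ⟨⟨⟨⟨c129x, c130x, c137x, c142x⟩, ⟨.negSucc 0, .ofNat 0, c140x⟩, ⟨.ofNat 0, .ofNat 0, c655x⟩, ⟨.ofNat 0, .ofNat 1, c656x⟩⟩, [135, 136, 137, 704]⟩, ⟨c37x, c533x, c655x, c655x, c772x, c726x⟩⟩,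
    ⟨⟨⟨⟨c150x, c151x, c142x, c152x⟩, ⟨.negSucc 0, .ofNat 0, c153x⟩, ⟨.ofNat 0, .ofNat 0, c655x⟩, ⟨.ofNat 0, .ofNat 1, c656x⟩⟩, [152, 165, 166, 167]⟩, ⟨c37x, c533x, c655x, c655x, c726x, c776x⟩⟩])))) (.node ⟨c147x, c175x, c125x, c168x⟩ ⟨c14x, c657x, c14x, c655x, c716x, c717x⟩ (.node ⟨c147x, c156x, c125x, c168x⟩ ⟨c14x, c657x, c14x, c655x, c716x, c717x⟩ (.node ⟨c129x, c156x, c142x, c167x⟩ ⟨c14x, c657x, c742x, c655x, c726x, c744x⟩ (.leaf ⟨c129x, c140x, c152x, c162x⟩ ⟨c14x, c533x, c655x, c655x, c776x, c594x⟩ [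
    ⟨⟨⟨⟨c129x, c130x, c152x, c162x⟩, ⟨.negSucc 0, .ofNat 0, c140x⟩, ⟨.ofNat 0, .ofNat 0, c655x⟩, ⟨.ofNat 0, .ofNat 1, c656x⟩⟩, [688, 689, 690, 691, 692]⟩, ⟨c37x, c533x, c655x, c655x, c776x, c594x⟩⟩,
    ⟨⟨⟨⟨c130x, c132x, c154x, c162x⟩, ⟨.negSucc 0, .ofNat 0, c140x⟩, ⟨.ofNat 0, .ofNat 0, c655x⟩, ⟨.ofNat 0, .ofNat 1, c656x⟩⟩, [687, 688, 691, 692]⟩, ⟨c528x, c37x, c655x, c655x, c774x, c594x⟩⟩,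
    ⟨⟨⟨⟨c134x, c140x, c154x, c161x⟩, ⟨.negSucc 0, .ofNat 0, c140x⟩, ⟨.ofNat 0, .ofNat 0, c655x⟩, ⟨.ofNat 0, .ofNat 1, c656x⟩⟩, [692, 693, 694, 695]⟩, ⟨c14x, c21x, c655x, c655x, c774x, c775x⟩⟩]) (.leaf ⟨c163x, c156x, c142x, c167x⟩ ⟨c657x, c657x, c742x, c729x, c726x, c744x⟩ [
    ⟨⟨⟨⟨c163x, c164x, c142x, c165x⟩, ⟨.ofNat 0, .ofNat 0, c657x⟩, ⟨.ofNat 1, .ofNat 0, c669x⟩, ⟨.ofNat 0, .ofNat 1, c656x⟩⟩, [151, 152, 187, 188, 189]⟩, ⟨c657x, c657x, c742x, c530x, c726x, c161x⟩⟩,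
    ⟨⟨⟨⟨c164x, c155x, c142x, c167x⟩, ⟨.ofNat 0, .ofNat 0, c657x⟩, ⟨.ofNat 1, .ofNat 0, c669x⟩, ⟨.ofNat 0, .ofNat 1, c656x⟩⟩, [152, 184, 185, 186, 187, 188]⟩, ⟨c657x, c657x, c530x, c534x, c726x, c744x⟩⟩,
    ⟨⟨⟨⟨c155x, c156x, c142x, c157x⟩, ⟨.ofNat 0, .ofNat 0, c657x⟩, ⟨.ofNat 1, .ofNat 0, c669x⟩, ⟨.ofNat 0, .ofNat 1, c656x⟩⟩, [152, 183, 184, 185]⟩, ⟨c657x, c657x, c534x, c729x, c726x, c745x⟩⟩])) (.node ⟨c147x, c163x, c125x, c168x⟩ ⟨c14x, c657x, c14x, c655x, c716x, c717x⟩ (.leaf ⟨c147x, c133x, c154x, c166x⟩ ⟨c649x, c657x, c655x, c655x, c774x, c732x⟩ [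
    ⟨⟨⟨⟨c126x, c127x, c161x, c162x⟩, ⟨.negSucc 0, .ofNat 0, c140x⟩, ⟨.ofNat 0, .ofNat 0, c655x⟩, ⟨.ofNat 0, .ofNat 1, c656x⟩⟩, [676, 677, 678, 679]⟩, ⟨c756x, c758x, c655x, c655x, c775x, c594x⟩⟩,
    ⟨⟨⟨⟨c147x, c126x, c161x, c166x⟩, ⟨.negSucc 0, .ofNat 0, c140x⟩, ⟨.ofNat 0, .ofNat 0, c655x⟩, ⟨.ofNat 0, .ofNat 1, c656x⟩⟩, [666, 674, 675, 676, 678, 679, 680]⟩, ⟨c758x, c657x, c655x, c655x, c775x, c732x⟩⟩,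
    ⟨⟨⟨⟨c132x, c133x, c154x, c166x⟩, ⟨.negSucc 0, .ofNat 0, c140x⟩, ⟨.ofNat 0, .ofNat 0, c655x⟩, ⟨.ofNat 0, .ofNat 1, c656x⟩⟩, [666, 686, 687, 688, 692, 696, 697, 698]⟩, ⟨c649x, c528x, c655x, c655x, c774x, c732x⟩⟩]) (.leaf ⟨c133x, c163x, c125x, c168x⟩ ⟨c14x, c657x, c14x, c655x, c716x, c717x⟩ [
    ⟨⟨⟨⟨c133x, c134x, c154x, c167x⟩, ⟨.negSucc 0, .ofNat 0, c140x⟩, ⟨.ofNat 0, .ofNat 0, c655x⟩, ⟨.ofNat 0, .ofNat 1, c656x⟩⟩, [692, 694, 695, 696, 697]⟩, ⟨c21x, c649x, c655x, c655x, c774x, c744x⟩⟩,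
    ⟨⟨⟨⟨c149x, c668x, c125x, c168x⟩, ⟨.ofNat 0, .ofNat 0, c14x⟩, ⟨.negSucc 0, .ofNat 0, c668x⟩, ⟨.ofNat 0, .ofNat 1, c656x⟩⟩, [149, 150, 664, 665, 666, 702, 703, 704]⟩, ⟨c14x, c14x, c14x, c20x, c716x, c717x⟩⟩,
    ⟨⟨⟨⟨c668x, c670x, c125x, c168x⟩, ⟨.ofNat 1, .ofNat 0, c671x⟩, ⟨.ofNat 0, .ofNat 0, c14x⟩, ⟨.ofNat 0, .ofNat 1, c656x⟩⟩, [150, 664]⟩, ⟨c14x, c657x, c14x, c14x, c716x, c717x⟩⟩,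
    ⟨⟨⟨⟨c670x, c163x, c125x, c168x⟩, ⟨.ofNat 0, .ofNat 0, c657x⟩, ⟨.ofNat 1, .ofNat 0, c669x⟩, ⟨.ofNat 0, .ofNat 1, c656x⟩⟩, [150, 151, 152, 188, 189, 190, 663, 664]⟩, ⟨c657x, c657x, c14x, c742x, c716x, c717x⟩⟩]))) (.node ⟨c156x, c175x, c142x, c178x⟩ ⟨c14x, c657x, c20x, c655x, c726x, c592x⟩ (.node ⟨c156x, c175x, c142x, c173x⟩ ⟨c14x, c657x, c20x, c655x, c726x, c595x⟩ (.leaf ⟨c156x, c169x, c142x, c170x⟩ ⟨c753x, c657x, c729x, c655x, c726x, c550x⟩ [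
    ⟨⟨⟨⟨c156x, c158x, c142x, c159x⟩, ⟨.ofNat 0, .ofNat 0, c657x⟩, ⟨.ofNat 1, .ofNat 0, c669x⟩, ⟨.ofNat 0, .ofNat 1, c656x⟩⟩, [152, 180, 181, 182, 183, 184]⟩, ⟨c657x, c657x, c729x, c655x, c726x, c154x⟩⟩,
    ⟨⟨⟨⟨c158x, c160x, c142x, c161x⟩, ⟨.negSucc 0, .ofNat 0, c153x⟩, ⟨.ofNat 0, .ofNat 0, c655x⟩, ⟨.ofNat 0, .ofNat 1, c656x⟩⟩, [152, 179, 180, 181]⟩, ⟨c756x, c657x, c655x, c655x, c726x, c775x⟩⟩,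
    ⟨⟨⟨⟨c160x, c169x, c142x, c170x⟩, ⟨.negSucc 0, .ofNat 0, c153x⟩, ⟨.ofNat 0, .ofNat 0, c655x⟩, ⟨.ofNat 0, .ofNat 1, c656x⟩⟩, [152, 175, 176, 178, 179, 180]⟩, ⟨c753x, c756x, c655x, c655x, c726x, c550x⟩⟩]) (.leaf ⟨c151x, c175x, c142x, c173x⟩ ⟨c14x, c37x, c20x, c655x, c726x, c595x⟩ [
    ⟨⟨⟨⟨c151x, c153x, c142x, c154x⟩, ⟨.negSucc 0, .ofNat 0, c153x⟩, ⟨.ofNat 0, .ofNat 0, c655x⟩, ⟨.ofNat 0, .ofNat 1, c656x⟩⟩, [152, 163, 164, 165, 166]⟩, ⟨c14x, c37x, c655x, c655x, c726x, c774x⟩⟩,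
    ⟨⟨⟨⟨c153x, c172x, c142x, c173x⟩, ⟨.ofNat 0, .ofNat 0, c14x⟩, ⟨.negSucc 0, .ofNat 0, c672x⟩, ⟨.ofNat 0, .ofNat 1, c656x⟩⟩, [152, 156, 157, 158, 162, 163, 164]⟩, ⟨c14x, c14x, c729x, c655x, c726x, c595x⟩⟩,
    ⟨⟨⟨⟨c172x, c174x, c142x, c159x⟩, ⟨.ofNat 0, .ofNat 0, c14x⟩, ⟨.negSucc 0, .ofNat 0, c672x⟩, ⟨.ofNat 0, .ofNat 1, c656x⟩⟩, [152, 155, 156, 157]⟩, ⟨c14x, c14x, c730x, c729x, c726x, c154x⟩⟩,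
    ⟨⟨⟨⟨c174x, c175x, c142x, c165x⟩, ⟨.ofNat 0, .ofNat 0, c14x⟩, ⟨.negSucc 0, .ofNat 0, c672x⟩, ⟨.ofNat 0, .ofNat 1, c656x⟩⟩, [152, 153, 154, 155, 156]⟩, ⟨c14x, c14x, c20x, c730x, c726x, c161x⟩⟩])) (.node ⟨c176x, c153x, c142x, c178x⟩ ⟨c14x, c758x, c655x, c655x, c726x, c592x⟩ (.leaf ⟨c169x, c153x, c142x, c171x⟩ ⟨c14x, c753x, c655x, c655x, c726x, c180x⟩ [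
    ⟨⟨⟨⟨c169x, c150x, c142x, c171x⟩, ⟨.negSucc 0, .ofNat 0, c153x⟩, ⟨.ofNat 0, .ofNat 0, c655x⟩, ⟨.ofNat 0, .ofNat 1, c656x⟩⟩, [152, 166, 167, 168, 174, 175, 176]⟩, ⟨c533x, c753x, c655x, c655x, c726x, c180x⟩⟩,
    ⟨⟨⟨⟨c177x, c179x, c162x, c180x⟩, ⟨.negSucc 0, .ofNat 0, c153x⟩, ⟨.ofNat 0, .ofNat 0, c655x⟩, ⟨.ofNat 0, .ofNat 1, c656x⟩⟩, [168, 169, 170, 171]⟩, ⟨c528x, c22x, c655x, c655x, c594x, c596x⟩⟩,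
    ⟨⟨⟨⟨c181x, c153x, c161x, c173x⟩, ⟨.negSucc 0, .ofNat 0, c153x⟩, ⟨.ofNat 0, .ofNat 0, c655x⟩, ⟨.ofNat 0, .ofNat 1, c656x⟩⟩, [158, 160, 161, 162, 163]⟩, ⟨c14x, c21x, c655x, c655x, c775x, c595x⟩⟩]) (.leaf ⟨c176x, c181x, c162x, c178x⟩ ⟨c21x, c758x, c655x, c655x, c594x, c592x⟩ [
    ⟨⟨⟨⟨c176x, c160x, c162x, c170x⟩, ⟨.negSucc 0, .ofNat 0, c153x⟩, ⟨.ofNat 0, .ofNat 0, c655x⟩, ⟨.ofNat 0, .ofNat 1, c656x⟩⟩, [176, 177, 178, 179]⟩, ⟨c756x, c758x, c655x, c655x, c594x, c550x⟩⟩,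
    ⟨⟨⟨⟨c150x, c151x, c162x, c171x⟩, ⟨.negSucc 0, .ofNat 0, c153x⟩, ⟨.ofNat 0, .ofNat 0, c655x⟩, ⟨.ofNat 0, .ofNat 1, c656x⟩⟩, [167, 168, 173, 174]⟩, ⟨c37x, c533x, c655x, c655x, c594x, c180x⟩⟩,
    ⟨⟨⟨⟨c151x, c177x, c162x, c178x⟩, ⟨.negSucc 0, .ofNat 0, c153x⟩, ⟨.ofNat 0, .ofNat 0, c655x⟩, ⟨.ofNat 0, .ofNat 1, c656x⟩⟩, [168, 170, 171, 172, 173, 174]⟩, ⟨c22x, c37x, c655x, c655x, c594x, c592x⟩⟩,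
    ⟨⟨⟨⟨c182x, c181x, c167x, c173x⟩, ⟨.negSucc 0, .ofNat 0, c153x⟩, ⟨.ofNat 0, .ofNat 0, c655x⟩, ⟨.ofNat 0, .ofNat 1, c656x⟩⟩, [158, 159, 160, 161]⟩, ⟨c21x, c649x, c655x, c655x, c744x, c595x⟩⟩]))))

def n011x : QT :=
  .node ⟨c124x, c226x, c157x, c227x⟩ ⟨c14x, c657x, c14x, c655x, c745x, c761x⟩ (.node ⟨c124x, c196x, c157x, c192x⟩ ⟨c14x, c657x, c742x, c655x, c745x, c202x⟩ (.node ⟨c124x, c160x, c157x, c185x⟩ ⟨c14x, c657x, c742x, c655x, c745x, c778x⟩ (.node ⟨c124x, c149x, c157x, c166x⟩ ⟨c14x, c657x, c742x, c655x, c745x, c732x⟩ (.leaf ⟨c124x, c146x, c157x, c166x⟩ ⟨c657x, c657x, c742x, c729x, c745x, c732x⟩ [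
    ⟨⟨⟨⟨c124x, c144x, c165x, c166x⟩, ⟨.ofNat 0, .ofNat 0, c657x⟩, ⟨.ofNat 1, .ofNat 0, c667x⟩, ⟨.ofNat 0, .ofNat 1, c656x⟩⟩, [666, 667, 668, 669, 670]⟩, ⟨c657x, c657x, c742x, c530x, c161x, c732x⟩⟩,
    ⟨⟨⟨⟨c144x, c145x, c167x, c166x⟩, ⟨.ofNat 0, .ofNat 0, c657x⟩, ⟨.ofNat 1, .ofNat 0, c667x⟩, ⟨.ofNat 0, .ofNat 1, c656x⟩⟩, [666, 669, 670, 671]⟩, ⟨c657x, c657x, c530x, c534x, c744x, c732x⟩⟩,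
    ⟨⟨⟨⟨c145x, c146x, c157x, c166x⟩, ⟨.ofNat 0, .ofNat 0, c657x⟩, ⟨.ofNat 1, .ofNat 0, c667x⟩, ⟨.ofNat 0, .ofNat 1, c656x⟩⟩, [666, 670, 671, 672, 673, 674]⟩, ⟨c657x, c657x, c534x, c729x, c745x, c732x⟩⟩]) (.leaf ⟨c146x, c149x, c159x, c166x⟩ ⟨c14x, c657x, c20x, c655x, c154x, c732x⟩ [
    ⟨⟨⟨⟨c146x, c147x, c159x, c166x⟩, ⟨.ofNat 0, .ofNat 0, c657x⟩, ⟨.ofNat 1, .ofNat 0, c667x⟩, ⟨.ofNat 0, .ofNat 1, c656x⟩⟩, [666, 673, 674, 675]⟩, ⟨c657x, c657x, c729x, c655x, c154x, c732x⟩⟩,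
    ⟨⟨⟨⟨c143x, c148x, c159x, c166x⟩, ⟨.ofNat 0, .ofNat 0, c14x⟩, ⟨.negSucc 0, .ofNat 0, c668x⟩, ⟨.ofNat 0, .ofNat 1, c656x⟩⟩, [666, 698, 699, 700, 701, 702]⟩, ⟨c14x, c14x, c730x, c729x, c154x, c732x⟩⟩,
    ⟨⟨⟨⟨c148x, c149x, c165x, c166x⟩, ⟨.ofNat 0, .ofNat 0, c14x⟩, ⟨.negSucc 0, .ofNat 0, c668x⟩, ⟨.ofNat 0, .ofNat 1, c656x⟩⟩, [665, 666, 701, 702, 703]⟩, ⟨c14x, c14x, c20x, c730x, c161x, c732x⟩⟩])) (.node ⟨c126x, c160x, c180x, c185x⟩ ⟨c14x, c758x, c729x, c655x, c596x, c778x⟩ (.leaf ⟨c126x, c140x, c180x, c166x⟩ ⟨c14x, c758x, c655x, c655x, c596x, c732x⟩ [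
    ⟨⟨⟨⟨c126x, c141x, c170x, c166x⟩, ⟨.negSucc 0, .ofNat 0, c140x⟩, ⟨.ofNat 0, .ofNat 0, c655x⟩, ⟨.ofNat 0, .ofNat 1, c656x⟩⟩, [666, 679, 680, 681, 682]⟩, ⟨c753x, c758x, c655x, c655x, c550x, c732x⟩⟩,
    ⟨⟨⟨⟨c131x, c132x, c180x, c166x⟩, ⟨.negSucc 0, .ofNat 0, c140x⟩, ⟨.ofNat 0, .ofNat 0, c655x⟩, ⟨.ofNat 0, .ofNat 1, c656x⟩⟩, [666, 684, 685, 686, 687]⟩, ⟨c528x, c22x, c655x, c655x, c596x, c732x⟩⟩,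
    ⟨⟨⟨⟨c133x, c140x, c173x, c166x⟩, ⟨.negSucc 0, .ofNat 0, c140x⟩, ⟨.ofNat 0, .ofNat 0, c655x⟩, ⟨.ofNat 0, .ofNat 1, c656x⟩⟩, [666, 697, 698]⟩, ⟨c14x, c649x, c655x, c655x, c595x, c732x⟩⟩]) (.leaf ⟨c141x, c160x, c173x, c185x⟩ ⟨c14x, c758x, c729x, c655x, c595x, c778x⟩ [
    ⟨⟨⟨⟨c141x, c130x, c171x, c166x⟩, ⟨.negSucc 0, .ofNat 0, c140x⟩, ⟨.ofNat 0, .ofNat 0, c655x⟩, ⟨.ofNat 0, .ofNat 1, c656x⟩⟩, [666, 681, 682, 683, 684]⟩, ⟨c37x, c753x, c655x, c655x, c180x, c732x⟩⟩,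
    ⟨⟨⟨⟨c140x, c143x, c173x, c166x⟩, ⟨.ofNat 0, .ofNat 0, c14x⟩, ⟨.negSucc 0, .ofNat 0, c668x⟩, ⟨.ofNat 0, .ofNat 1, c656x⟩⟩, [666, 698, 699]⟩, ⟨c14x, c14x, c729x, c655x, c595x, c732x⟩⟩,
    ⟨⟨⟨⟨c130x, c131x, c178x, c166x⟩, ⟨.negSucc 0, .ofNat 0, c140x⟩, ⟨.ofNat 0, .ofNat 0, c655x⟩, ⟨.ofNat 0, .ofNat 1, c656x⟩⟩, [666, 683, 684, 685]⟩, ⟨c22x, c37x, c655x, c655x, c592x, c732x⟩⟩,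
    ⟨⟨⟨⟨c176x, c160x, c166x, c185x⟩, ⟨.negSucc 0, .ofNat 0, c153x⟩, ⟨.ofNat 0, .ofNat 0, c655x⟩, ⟨.ofNat 0, .ofNat 1, c656x⟩⟩, [190, 649, 650, 651]⟩, ⟨c756x, c758x, c655x, c655x, c732x, c778x⟩⟩]))) (.node ⟨c163x, c196x, c166x, c192x⟩ ⟨c14x, c657x, c742x, c655x, c732x, c202x⟩ (.node ⟨c163x, c150x, c166x, c192x⟩ ⟨c533x, c657x, c742x, c655x, c732x, c202x⟩ (.leaf ⟨c163x, c183x, c166x, c188x⟩ ⟨c657x, c657x, c742x, c746x, c732x, c551x⟩ [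
    ⟨⟨⟨⟨c163x, c164x, c166x, c186x⟩, ⟨.ofNat 0, .ofNat 0, c657x⟩, ⟨.ofNat 1, .ofNat 0, c669x⟩, ⟨.ofNat 0, .ofNat 1, c656x⟩⟩, [189, 190, 660, 661, 662, 663, 664]⟩, ⟨c657x, c657x, c742x, c530x, c732x, c189x⟩⟩,
    ⟨⟨⟨⟨c164x, c155x, c166x, c187x⟩, ⟨.ofNat 0, .ofNat 0, c657x⟩, ⟨.ofNat 1, .ofNat 0, c669x⟩, ⟨.ofNat 0, .ofNat 1, c656x⟩⟩, [190, 659, 660, 661]⟩, ⟨c657x, c657x, c530x, c534x, c732x, c184x⟩⟩,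
    ⟨⟨⟨⟨c155x, c183x, c166x, c188x⟩, ⟨.ofNat 0, .ofNat 0, c657x⟩, ⟨.ofNat 1, .ofNat 0, c669x⟩, ⟨.ofNat 0, .ofNat 1, c656x⟩⟩, [190, 652, 653, 654, 658, 659, 660]⟩, ⟨c657x, c657x, c534x, c746x, c732x, c551x⟩⟩]) (.leaf ⟨c183x, c150x, c166x, c192x⟩ ⟨c533x, c657x, c746x, c655x, c732x, c202x⟩ [
    ⟨⟨⟨⟨c183x, c158x, c166x, c184x⟩, ⟨.ofNat 0, .ofNat 0, c657x⟩, ⟨.ofNat 1, .ofNat 0, c669x⟩, ⟨.ofNat 0, .ofNat 1, c656x⟩⟩, [190, 652, 653]⟩, ⟨c657x, c657x, c746x, c655x, c732x, c747x⟩⟩,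
    ⟨⟨⟨⟨c158x, c176x, c166x, c184x⟩, ⟨.negSucc 0, .ofNat 0, c153x⟩, ⟨.ofNat 0, .ofNat 0, c655x⟩, ⟨.ofNat 0, .ofNat 1, c656x⟩⟩, [190, 650, 651, 652]⟩, ⟨c758x, c657x, c655x, c655x, c732x, c747x⟩⟩,
    ⟨⟨⟨⟨c190x, c150x, c166x, c191x⟩, ⟨.negSucc 0, .ofNat 0, c153x⟩, ⟨.ofNat 0, .ofNat 0, c655x⟩, ⟨.ofNat 0, .ofNat 1, c656x⟩⟩, [190, 636, 637, 638, 640, 641]⟩, ⟨c533x, c777x, c655x, c655x, c732x, c601x⟩⟩,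
    ⟨⟨⟨⟨c160x, c190x, c166x, c192x⟩, ⟨.negSucc 0, .ofNat 0, c153x⟩, ⟨.ofNat 0, .ofNat 0, c655x⟩, ⟨.ofNat 0, .ofNat 1, c656x⟩⟩, [190, 640, 641, 642, 648, 649, 650]⟩, ⟨c777x, c756x, c655x, c655x, c732x, c202x⟩⟩])) (.node ⟨c150x, c196x, c166x, c194x⟩ ⟨c14x, c657x, c20x, c655x, c732x, c733x⟩ (.leaf ⟨c150x, c172x, c166x, c193x⟩ ⟨c14x, c533x, c729x, c655x, c732x, c734x⟩ [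
    ⟨⟨⟨⟨c150x, c179x, c166x, c189x⟩, ⟨.negSucc 0, .ofNat 0, c153x⟩, ⟨.ofNat 0, .ofNat 0, c655x⟩, ⟨.ofNat 0, .ofNat 1, c656x⟩⟩, [190, 635, 636, 637]⟩, ⟨c528x, c533x, c655x, c655x, c732x, c749x⟩⟩,
    ⟨⟨⟨⟨c182x, c153x, c166x, c193x⟩, ⟨.negSucc 0, .ofNat 0, c153x⟩, ⟨.ofNat 0, .ofNat 0, c655x⟩, ⟨.ofNat 0, .ofNat 1, c656x⟩⟩, [190, 632, 633]⟩, ⟨c14x, c649x, c655x, c655x, c732x, c734x⟩⟩,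
    ⟨⟨⟨⟨c153x, c172x, c166x, c193x⟩, ⟨.ofNat 0, .ofNat 0, c14x⟩, ⟨.negSucc 0, .ofNat 0, c672x⟩, ⟨.ofNat 0, .ofNat 1, c656x⟩⟩, [190, 631, 632]⟩, ⟨c14x, c14x, c729x, c655x, c732x, c734x⟩⟩]) (.leaf ⟨c179x, c196x, c166x, c194x⟩ ⟨c14x, c657x, c20x, c655x, c732x, c733x⟩ [
    ⟨⟨⟨⟨c179x, c182x, c166x, c187x⟩, ⟨.negSucc 0, .ofNat 0, c153x⟩, ⟨.ofNat 0, .ofNat 0, c655x⟩, ⟨.ofNat 0, .ofNat 1, c656x⟩⟩, [190, 632, 633, 634, 635, 636]⟩, ⟨c649x, c528x, c655x, c655x, c732x, c184x⟩⟩,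
    ⟨⟨⟨⟨c174x, c175x, c166x, c186x⟩, ⟨.ofNat 0, .ofNat 0, c14x⟩, ⟨.negSucc 0, .ofNat 0, c672x⟩, ⟨.ofNat 0, .ofNat 1, c656x⟩⟩, [190, 191, 192, 627, 628, 629]⟩, ⟨c14x, c14x, c20x, c730x, c732x, c189x⟩⟩,
    ⟨⟨⟨⟨c172x, c174x, c166x, c194x⟩, ⟨.ofNat 0, .ofNat 0, c14x⟩, ⟨.negSucc 0, .ofNat 0, c672x⟩, ⟨.ofNat 0, .ofNat 1, c656x⟩⟩, [190, 628, 629, 630, 631, 632]⟩, ⟨c14x, c14x, c730x, c729x, c732x, c733x⟩⟩,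
    ⟨⟨⟨⟨c195x, c196x, c184x, c189x⟩, ⟨.ofNat 0, .ofNat 0, c657x⟩, ⟨.ofNat 1, .ofNat 0, c673x⟩, ⟨.ofNat 0, .ofNat 1, c656x⟩⟩, [201, 202, 203, 204]⟩, ⟨c657x, c657x, c746x, c748x, c747x, c749x⟩⟩])))) (.node ⟨c183x, c226x, c168x, c227x⟩ ⟨c14x, c657x, c14x, c655x, c717x, c761x⟩ (.node ⟨c183x, c212x, c168x, c208x⟩ ⟨c14x, c657x, c14x, c655x, c717x, c725x⟩ (.node ⟨c183x, c672x, c168x, c204x⟩ ⟨c14x, c657x, c14x, c655x, c717x, c710x⟩ (.leaf ⟨c183x, c201x, c189x, c188x⟩ ⟨c759x, c657x, c746x, c655x, c749x, c551x⟩ [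
    ⟨⟨⟨⟨c183x, c200x, c189x, c188x⟩, ⟨.ofNat 0, .ofNat 0, c657x⟩, ⟨.ofNat 1, .ofNat 0, c669x⟩, ⟨.ofNat 0, .ofNat 1, c656x⟩⟩, [653, 654, 655, 656, 658]⟩, ⟨c657x, c657x, c746x, c748x, c749x, c551x⟩⟩,
    ⟨⟨⟨⟨c200x, c156x, c194x, c188x⟩, ⟨.ofNat 0, .ofNat 0, c657x⟩, ⟨.ofNat 1, .ofNat 0, c669x⟩, ⟨.ofNat 0, .ofNat 1, c656x⟩⟩, [655, 656, 657, 658]⟩, ⟨c657x, c657x, c748x, c729x, c733x, c551x⟩⟩,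
    ⟨⟨⟨⟨c158x, c201x, c199x, c202x⟩, ⟨.negSucc 0, .ofNat 0, c153x⟩, ⟨.ofNat 0, .ofNat 0, c655x⟩, ⟨.ofNat 0, .ofNat 1, c656x⟩⟩, [645, 646, 647, 648]⟩, ⟨c759x, c657x, c655x, c655x, c602x, c603x⟩⟩]) (.leaf ⟨c201x, c672x, c168x, c204x⟩ ⟨c14x, c759x, c14x, c655x, c717x, c710x⟩ [
    ⟨⟨⟨⟨c201x, c176x, c199x, c206x⟩, ⟨.negSucc 0, .ofNat 0, c153x⟩, ⟨.ofNat 0, .ofNat 0, c655x⟩, ⟨.ofNat 0, .ofNat 1, c656x⟩⟩, [642, 643, 644, 645, 646, 648]⟩, ⟨c758x, c759x, c655x, c655x, c602x, c634x⟩⟩,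
    ⟨⟨⟨⟨c176x, c160x, c199x, c192x⟩, ⟨.negSucc 0, .ofNat 0, c153x⟩, ⟨.ofNat 0, .ofNat 0, c655x⟩, ⟨.ofNat 0, .ofNat 1, c656x⟩⟩, [642, 643, 648, 649]⟩, ⟨c756x, c758x, c655x, c655x, c602x, c202x⟩⟩,
    ⟨⟨⟨⟨c150x, c151x, c199x, c191x⟩, ⟨.negSucc 0, .ofNat 0, c153x⟩, ⟨.ofNat 0, .ofNat 0, c655x⟩, ⟨.ofNat 0, .ofNat 1, c656x⟩⟩, [637, 638, 639, 640]⟩, ⟨c37x, c533x, c655x, c655x, c602x, c601x⟩⟩,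
    ⟨⟨⟨⟨c175x, c672x, c168x, c204x⟩, ⟨.ofNat 0, .ofNat 0, c14x⟩, ⟨.negSucc 0, .ofNat 0, c672x⟩, ⟨.ofNat 0, .ofNat 1, c656x⟩⟩, [191, 192, 626, 627, 628]⟩, ⟨c14x, c14x, c14x, c20x, c717x, c710x⟩⟩])) (.node ⟨c672x, c212x, c168x, c208x⟩ ⟨c14x, c657x, c14x, c655x, c717x, c725x⟩ (.leaf ⟨c210x, c212x, c185x, c199x⟩ ⟨c37x, c657x, c655x, c655x, c778x, c602x⟩ [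
    ⟨⟨⟨⟨c210x, c197x, c184x, c199x⟩, ⟨.negSucc 0, .ofNat 0, c674x⟩, ⟨.ofNat 0, .ofNat 0, c655x⟩, ⟨.ofNat 0, .ofNat 1, c656x⟩⟩, [204, 205, 208, 209]⟩, ⟨c758x, c657x, c655x, c655x, c747x, c602x⟩⟩,
    ⟨⟨⟨⟨c197x, c198x, c185x, c199x⟩, ⟨.negSucc 0, .ofNat 0, c674x⟩, ⟨.ofNat 0, .ofNat 0, c655x⟩, ⟨.ofNat 0, .ofNat 1, c656x⟩⟩, [204, 205, 206, 207, 208]⟩, ⟨c756x, c758x, c655x, c655x, c778x, c602x⟩⟩,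
    ⟨⟨⟨⟨c211x, c212x, c189x, c199x⟩, ⟨.negSucc 0, .ofNat 0, c674x⟩, ⟨.ofNat 0, .ofNat 0, c655x⟩, ⟨.ofNat 0, .ofNat 1, c656x⟩⟩, [217, 218, 219, 220]⟩, ⟨c37x, c533x, c655x, c655x, c749x, c602x⟩⟩]) (.leaf ⟨c672x, c210x, c168x, c208x⟩ ⟨c14x, c657x, c14x, c655x, c717x, c725x⟩ [
    ⟨⟨⟨⟨c672x, c675x, c168x, c204x⟩, ⟨.ofNat 1, .ofNat 0, c676x⟩, ⟨.ofNat 0, .ofNat 0, c14x⟩, ⟨.ofNat 0, .ofNat 1, c656x⟩⟩, [192, 626]⟩, ⟨c14x, c657x, c14x, c14x, c717x, c710x⟩⟩,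
    ⟨⟨⟨⟨c196x, c205x, c184x, c194x⟩, ⟨.ofNat 0, .ofNat 0, c657x⟩, ⟨.ofNat 1, .ofNat 0, c673x⟩, ⟨.ofNat 0, .ofNat 1, c656x⟩⟩, [199, 200, 201, 202, 204]⟩, ⟨c657x, c657x, c748x, c729x, c747x, c733x⟩⟩,
    ⟨⟨⟨⟨c675x, c203x, c168x, c204x⟩, ⟨.ofNat 0, .ofNat 0, c657x⟩, ⟨.ofNat 1, .ofNat 0, c673x⟩, ⟨.ofNat 0, .ofNat 1, c656x⟩⟩, [192, 193, 194, 625, 626]⟩, ⟨c657x, c657x, c14x, c742x, c717x, c710x⟩⟩,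
    ⟨⟨⟨⟨c205x, c210x, c184x, c208x⟩, ⟨.ofNat 0, .ofNat 0, c657x⟩, ⟨.ofNat 1, .ofNat 0, c673x⟩, ⟨.ofNat 0, .ofNat 1, c656x⟩⟩, [198, 199, 200, 204, 208, 209, 210, 624]⟩, ⟨c657x, c657x, c729x, c655x, c747x, c725x⟩⟩]))) (.node ⟨c203x, c226x, c189x, c227x⟩ ⟨c14x, c657x, c14x, c655x, c749x, c761x⟩ (.node ⟨c203x, c219x, c189x, c208x⟩ ⟨c14x, c657x, c742x, c655x, c749x, c725x⟩ (.leaf ⟨c203x, c213x, c189x, c208x⟩ ⟨c528x, c657x, c742x, c655x, c749x, c725x⟩ [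
    ⟨⟨⟨⟨c203x, c207x, c186x, c208x⟩, ⟨.ofNat 0, .ofNat 0, c657x⟩, ⟨.ofNat 1, .ofNat 0, c673x⟩, ⟨.ofNat 0, .ofNat 1, c656x⟩⟩, [193, 194, 195, 624, 625, 626]⟩, ⟨c657x, c657x, c742x, c530x, c189x, c725x⟩⟩,
    ⟨⟨⟨⟨c207x, c209x, c187x, c208x⟩, ⟨.ofNat 0, .ofNat 0, c657x⟩, ⟨.ofNat 1, .ofNat 0, c673x⟩, ⟨.ofNat 0, .ofNat 1, c656x⟩⟩, [194, 195, 196, 197, 198, 624]⟩, ⟨c657x, c657x, c530x, c534x, c184x, c725x⟩⟩,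
    ⟨⟨⟨⟨c212x, c213x, c189x, c208x⟩, ⟨.negSucc 0, .ofNat 0, c674x⟩, ⟨.ofNat 0, .ofNat 0, c655x⟩, ⟨.ofNat 0, .ofNat 1, c656x⟩⟩, [216, 217, 218, 220, 221, 222, 624]⟩, ⟨c528x, c37x, c655x, c655x, c749x, c725x⟩⟩]) (.leaf ⟨c213x, c219x, c193x, c208x⟩ ⟨c14x, c528x, c20x, c655x, c734x, c725x⟩ [
    ⟨⟨⟨⟨c213x, c214x, c187x, c208x⟩, ⟨.negSucc 0, .ofNat 0, c674x⟩, ⟨.ofNat 0, .ofNat 0, c655x⟩, ⟨.ofNat 0, .ofNat 1, c656x⟩⟩, [221, 222, 223, 624]⟩, ⟨c649x, c528x, c655x, c655x, c184x, c725x⟩⟩,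
    ⟨⟨⟨⟨c214x, c674x, c193x, c208x⟩, ⟨.negSucc 0, .ofNat 0, c674x⟩, ⟨.ofNat 0, .ofNat 0, c655x⟩, ⟨.ofNat 0, .ofNat 1, c656x⟩⟩, [222, 223, 224, 624]⟩, ⟨c14x, c649x, c655x, c655x, c734x, c725x⟩⟩,
    ⟨⟨⟨⟨c674x, c215x, c193x, c208x⟩, ⟨.ofNat 0, .ofNat 0, c14x⟩, ⟨.negSucc 0, .ofNat 0, c223x⟩, ⟨.ofNat 0, .ofNat 1, c656x⟩⟩, [224, 225, 226, 624]⟩, ⟨c14x, c14x, c729x, c655x, c734x, c725x⟩⟩,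
    ⟨⟨⟨⟨c218x, c219x, c186x, c208x⟩, ⟨.ofNat 0, .ofNat 0, c14x⟩, ⟨.negSucc 0, .ofNat 0, c223x⟩, ⟨.ofNat 0, .ofNat 1, c656x⟩⟩, [226, 227, 228, 229, 230, 623, 624]⟩, ⟨c14x, c14x, c20x, c730x, c189x, c725x⟩⟩])) (.node ⟨c209x, c226x, c194x, c227x⟩ ⟨c14x, c657x, c14x, c655x, c733x, c761x⟩ (.leaf ⟨c210x, c218x, c194x, c208x⟩ ⟨c14x, c657x, c730x, c655x, c733x, c725x⟩ [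
    ⟨⟨⟨⟨c210x, c216x, c202x, c208x⟩, ⟨.negSucc 0, .ofNat 0, c674x⟩, ⟨.ofNat 0, .ofNat 0, c655x⟩, ⟨.ofNat 0, .ofNat 1, c656x⟩⟩, [209, 210, 211, 212, 624]⟩, ⟨c759x, c657x, c655x, c655x, c603x, c725x⟩⟩,
    ⟨⟨⟨⟨c217x, c212x, c191x, c208x⟩, ⟨.negSucc 0, .ofNat 0, c674x⟩, ⟨.ofNat 0, .ofNat 0, c655x⟩, ⟨.ofNat 0, .ofNat 1, c656x⟩⟩, [214, 215, 216, 217, 624]⟩, ⟨c37x, c777x, c655x, c655x, c601x, c725x⟩⟩,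
    ⟨⟨⟨⟨c215x, c218x, c194x, c208x⟩, ⟨.ofNat 0, .ofNat 0, c14x⟩, ⟨.negSucc 0, .ofNat 0, c223x⟩, ⟨.ofNat 0, .ofNat 1, c656x⟩⟩, [225, 226, 227, 624]⟩, ⟨c14x, c14x, c730x, c729x, c733x, c725x⟩⟩]) (.leaf ⟨c209x, c226x, c188x, c227x⟩ ⟨c21x, c657x, c14x, c655x, c551x, c761x⟩ [
    ⟨⟨⟨⟨c209x, c205x, c188x, c208x⟩, ⟨.ofNat 0, .ofNat 0, c657x⟩, ⟨.ofNat 1, .ofNat 0, c673x⟩, ⟨.ofNat 0, .ofNat 1, c656x⟩⟩, [197, 198, 199, 624]⟩, ⟨c657x, c657x, c534x, c729x, c551x, c725x⟩⟩,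
    ⟨⟨⟨⟨c197x, c217x, c192x, c208x⟩, ⟨.negSucc 0, .ofNat 0, c674x⟩, ⟨.ofNat 0, .ofNat 0, c655x⟩, ⟨.ofNat 0, .ofNat 1, c656x⟩⟩, [212, 213, 214, 215, 624]⟩, ⟨c777x, c758x, c655x, c655x, c202x, c725x⟩⟩,
    ⟨⟨⟨⟨c216x, c197x, c206x, c208x⟩, ⟨.negSucc 0, .ofNat 0, c674x⟩, ⟨.ofNat 0, .ofNat 0, c655x⟩, ⟨.ofNat 0, .ofNat 1, c656x⟩⟩, [211, 212, 213, 624]⟩, ⟨c758x, c759x, c655x, c655x, c634x, c725x⟩⟩,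
    ⟨⟨⟨⟨c224x, c226x, c204x, c227x⟩, ⟨.ofNat 1, .ofNat 0, c677x⟩, ⟨.ofNat 0, .ofNat 0, c14x⟩, ⟨.ofNat 0, .ofNat 1, c656x⟩⟩, [230, 603, 604, 605]⟩, ⟨c21x, c649x, c14x, c14x, c710x, c761x⟩⟩]))))

def n01x : QT :=
  .node ⟨c107x, c226x, c91x, c227x⟩ ⟨c14x, c657x, c14x, c655x, c713x, c761x⟩ (n010x) (n011x)

def n0x : QT :=
  .node ⟨c14x, c226x, c6x, c227x⟩ ⟨c14x, c657x, c14x, c655x, c14x, c761x⟩ (n00x) (n01x)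

def n100x : QT :=
  .node ⟨c219x, c287x, c204x, c288x⟩ ⟨c14x, c657x, c14x, c655x, c710x, c565x⟩ (.node ⟨c219x, c257x, c204x, c250x⟩ ⟨c14x, c657x, c14x, c655x, c710x, c736x⟩ (.node ⟨c219x, c241x, c204x, c260x⟩ ⟨c14x, c756x, c14x, c20x, c710x, c763x⟩ (.node ⟨c219x, c230x, c204x, c234x⟩ ⟨c14x, c753x, c14x, c20x, c710x, c624x⟩ (.leaf ⟨c219x, c221x, c204x, c234x⟩ ⟨c14x, c14x, c529x, c20x, c710x, c624x⟩ [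
    ⟨⟨⟨⟨c219x, c232x, c204x, c233x⟩, ⟨.ofNat 0, .ofNat 0, c14x⟩, ⟨.negSucc 0, .ofNat 0, c223x⟩, ⟨.ofNat 0, .ofNat 1, c656x⟩⟩, [229, 230, 621, 622, 623, 624]⟩, ⟨c14x, c14x, c712x, c20x, c710x, c720x⟩⟩,
    ⟨⟨⟨⟨c232x, c220x, c204x, c234x⟩, ⟨.ofNat 0, .ofNat 0, c14x⟩, ⟨.negSucc 0, .ofNat 0, c223x⟩, ⟨.ofNat 0, .ofNat 1, c656x⟩⟩, [230, 618, 619, 620, 621, 622]⟩, ⟨c14x, c14x, c527x, c712x, c710x, c624x⟩⟩,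
    ⟨⟨⟨⟨c220x, c221x, c204x, c222x⟩, ⟨.ofNat 0, .ofNat 0, c14x⟩, ⟨.negSucc 0, .ofNat 0, c223x⟩, ⟨.ofNat 0, .ofNat 1, c656x⟩⟩, [230, 617, 618, 619]⟩, ⟨c14x, c14x, c529x, c527x, c710x, c554x⟩⟩]) (.leaf ⟨c223x, c230x, c204x, c225x⟩ ⟨c14x, c753x, c14x, c14x, c710x, c229x⟩ [
    ⟨⟨⟨⟨c223x, c224x, c204x, c225x⟩, ⟨.ofNat 1, .ofNat 0, c677x⟩, ⟨.ofNat 0, .ofNat 0, c14x⟩, ⟨.ofNat 0, .ofNat 1, c656x⟩⟩, [230, 604, 605, 606, 607]⟩, ⟨c14x, c21x, c14x, c14x, c710x, c229x⟩⟩,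
    ⟨⟨⟨⟨c226x, c228x, c204x, c229x⟩, ⟨.ofNat 1, .ofNat 0, c677x⟩, ⟨.ofNat 0, .ofNat 0, c14x⟩, ⟨.ofNat 0, .ofNat 1, c656x⟩⟩, [230, 601, 602, 603, 604]⟩, ⟨c649x, c760x, c14x, c14x, c710x, c762x⟩⟩,
    ⟨⟨⟨⟨c228x, c230x, c204x, c231x⟩, ⟨.ofNat 1, .ofNat 0, c677x⟩, ⟨.ofNat 0, .ofNat 0, c14x⟩, ⟨.ofNat 0, .ofNat 1, c656x⟩⟩, [230, 599, 600, 601, 602]⟩, ⟨c760x, c753x, c14x, c14x, c710x, c764x⟩⟩])) (.node ⟨c258x, c241x, c204x, c260x⟩ ⟨c14x, c756x, c14x, c528x, c710x, c763x⟩ (.leaf ⟨c236x, c241x, c204x, c235x⟩ ⟨c14x, c756x, c14x, c19x, c710x, c234x⟩ [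
    ⟨⟨⟨⟨c230x, c241x, c204x, c240x⟩, ⟨.ofNat 1, .ofNat 0, c677x⟩, ⟨.ofNat 0, .ofNat 0, c14x⟩, ⟨.ofNat 0, .ofNat 1, c656x⟩⟩, [230, 594, 595, 596, 598, 599, 600]⟩, ⟨c753x, c756x, c14x, c14x, c710x, c233x⟩⟩,
    ⟨⟨⟨⟨c221x, c223x, c204x, c235x⟩, ⟨.ofNat 0, .ofNat 0, c14x⟩, ⟨.negSucc 0, .ofNat 0, c223x⟩, ⟨.ofNat 0, .ofNat 1, c656x⟩⟩, [230, 606, 607, 608, 612, 616, 617, 618]⟩, ⟨c14x, c14x, c14x, c529x, c710x, c234x⟩⟩,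
    ⟨⟨⟨⟨c236x, c221x, c237x, c235x⟩, ⟨.ofNat 0, .ofNat 0, c14x⟩, ⟨.negSucc 0, .ofNat 0, c223x⟩, ⟨.ofNat 0, .ofNat 1, c656x⟩⟩, [612, 614, 615, 616, 617]⟩, ⟨c14x, c14x, c529x, c19x, c558x, c234x⟩⟩]) (.leaf ⟨c258x, c230x, c238x, c260x⟩ ⟨c14x, c753x, c14x, c528x, c555x, c763x⟩ [
    ⟨⟨⟨⟨c258x, c236x, c240x, c235x⟩, ⟨.ofNat 0, .ofNat 0, c14x⟩, ⟨.negSucc 0, .ofNat 0, c223x⟩, ⟨.ofNat 0, .ofNat 1, c656x⟩⟩, [612, 613, 614, 615]⟩, ⟨c14x, c14x, c19x, c528x, c233x, c234x⟩⟩,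
    ⟨⟨⟨⟨c223x, c226x, c238x, c235x⟩, ⟨.ofNat 1, .ofNat 0, c677x⟩, ⟨.ofNat 0, .ofNat 0, c14x⟩, ⟨.ofNat 0, .ofNat 1, c656x⟩⟩, [607, 608, 611, 612]⟩, ⟨c14x, c649x, c14x, c14x, c555x, c234x⟩⟩,
    ⟨⟨⟨⟨c226x, c259x, c238x, c260x⟩, ⟨.ofNat 1, .ofNat 0, c677x⟩, ⟨.ofNat 0, .ofNat 0, c14x⟩, ⟨.ofNat 0, .ofNat 1, c656x⟩⟩, [608, 609, 610, 611, 612]⟩, ⟨c649x, c528x, c14x, c14x, c555x, c763x⟩⟩,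
    ⟨⟨⟨⟨c239x, c230x, c238x, c240x⟩, ⟨.ofNat 1, .ofNat 0, c677x⟩, ⟨.ofNat 0, .ofNat 0, c14x⟩, ⟨.ofNat 0, .ofNat 1, c656x⟩⟩, [596, 597, 598, 599]⟩, ⟨c752x, c753x, c14x, c14x, c555x, c233x⟩⟩]))) (.node ⟨c241x, c257x, c204x, c250x⟩ ⟨c14x, c657x, c14x, c655x, c710x, c736x⟩ (.node ⟨c241x, c255x, c204x, c246x⟩ ⟨c21x, c657x, c14x, c742x, c710x, c561x⟩ (.leaf ⟨c241x, c245x, c204x, c234x⟩ ⟨c756x, c657x, c14x, c742x, c710x, c624x⟩ [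
    ⟨⟨⟨⟨c241x, c242x, c204x, c234x⟩, ⟨.ofNat 1, .ofNat 0, c677x⟩, ⟨.ofNat 0, .ofNat 0, c14x⟩, ⟨.ofNat 0, .ofNat 1, c656x⟩⟩, [230, 593, 594, 595]⟩, ⟨c756x, c758x, c14x, c14x, c710x, c624x⟩⟩,
    ⟨⟨⟨⟨c243x, c244x, c204x, c237x⟩, ⟨.ofNat 0, .ofNat 0, c657x⟩, ⟨.ofNat 1, .ofNat 0, c678x⟩, ⟨.ofNat 0, .ofNat 1, c656x⟩⟩, [230, 589, 590, 591]⟩, ⟨c657x, c657x, c529x, c743x, c710x, c558x⟩⟩,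
    ⟨⟨⟨⟨c244x, c245x, c204x, c233x⟩, ⟨.ofNat 0, .ofNat 0, c657x⟩, ⟨.ofNat 1, .ofNat 0, c678x⟩, ⟨.ofNat 0, .ofNat 1, c656x⟩⟩, [230, 231, 232, 587, 588, 589, 590]⟩, ⟨c657x, c657x, c743x, c742x, c710x, c720x⟩⟩]) (.leaf ⟨c242x, c255x, c204x, c246x⟩ ⟨c21x, c657x, c14x, c529x, c710x, c561x⟩ [
    ⟨⟨⟨⟨c242x, c679x, c204x, c246x⟩, ⟨.ofNat 1, .ofNat 0, c677x⟩, ⟨.ofNat 0, .ofNat 0, c14x⟩, ⟨.ofNat 0, .ofNat 1, c656x⟩⟩, [230, 592, 593, 594]⟩, ⟨c758x, c657x, c14x, c14x, c710x, c561x⟩⟩,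
    ⟨⟨⟨⟨c679x, c243x, c204x, c246x⟩, ⟨.ofNat 0, .ofNat 0, c657x⟩, ⟨.ofNat 1, .ofNat 0, c678x⟩, ⟨.ofNat 0, .ofNat 1, c656x⟩⟩, [230, 590, 591, 592]⟩, ⟨c657x, c657x, c14x, c529x, c710x, c561x⟩⟩,
    ⟨⟨⟨⟨c247x, c248x, c227x, c238x⟩, ⟨.ofNat 1, .ofNat 0, c680x⟩, ⟨.ofNat 0, .ofNat 0, c14x⟩, ⟨.ofNat 0, .ofNat 1, c656x⟩⟩, [248, 250, 251, 252, 253, 254]⟩, ⟨c21x, c649x, c14x, c14x, c761x, c555x⟩⟩,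
    ⟨⟨⟨⟨c248x, c255x, c229x, c238x⟩, ⟨.ofNat 1, .ofNat 0, c680x⟩, ⟨.ofNat 0, .ofNat 0, c14x⟩, ⟨.ofNat 0, .ofNat 1, c656x⟩⟩, [247, 248, 253, 254]⟩, ⟨c649x, c528x, c14x, c14x, c762x, c555x⟩⟩])) (.node ⟨c245x, c257x, c208x, c250x⟩ ⟨c14x, c657x, c14x, c655x, c725x, c736x⟩ (.leaf ⟨c245x, c249x, c208x, c250x⟩ ⟨c14x, c657x, c742x, c655x, c725x, c736x⟩ [
    ⟨⟨⟨⟨c245x, c681x, c208x, c250x⟩, ⟨.ofNat 0, .ofNat 0, c657x⟩, ⟨.ofNat 1, .ofNat 0, c678x⟩, ⟨.ofNat 0, .ofNat 1, c656x⟩⟩, [231, 232, 586, 587, 588]⟩, ⟨c657x, c657x, c742x, c655x, c725x, c736x⟩⟩,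
    ⟨⟨⟨⟨c681x, c682x, c208x, c250x⟩, ⟨.negSucc 0, .ofNat 0, c682x⟩, ⟨.ofNat 0, .ofNat 0, c655x⟩, ⟨.ofNat 0, .ofNat 1, c656x⟩⟩, [232, 586]⟩, ⟨c14x, c657x, c655x, c655x, c725x, c736x⟩⟩,
    ⟨⟨⟨⟨c682x, c249x, c208x, c250x⟩, ⟨.ofNat 0, .ofNat 0, c14x⟩, ⟨.negSucc 0, .ofNat 0, c254x⟩, ⟨.ofNat 0, .ofNat 1, c656x⟩⟩, [232, 233, 234, 585, 586]⟩, ⟨c14x, c14x, c20x, c655x, c725x, c736x⟩⟩]) (.leaf ⟨c253x, c257x, c222x, c240x⟩ ⟨c14x, c753x, c14x, c528x, c554x, c233x⟩ [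
    ⟨⟨⟨⟨c251x, c252x, c222x, c237x⟩, ⟨.ofNat 0, .ofNat 0, c14x⟩, ⟨.negSucc 0, .ofNat 0, c254x⟩, ⟨.ofNat 0, .ofNat 1, c656x⟩⟩, [238, 239, 240, 241]⟩, ⟨c14x, c14x, c529x, c19x, c554x, c558x⟩⟩,
    ⟨⟨⟨⟨c253x, c251x, c222x, c240x⟩, ⟨.ofNat 0, .ofNat 0, c14x⟩, ⟨.negSucc 0, .ofNat 0, c254x⟩, ⟨.ofNat 0, .ofNat 1, c656x⟩⟩, [238, 240, 241, 242, 243]⟩, ⟨c14x, c14x, c19x, c528x, c554x, c233x⟩⟩,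
    ⟨⟨⟨⟨c254x, c247x, c225x, c238x⟩, ⟨.ofNat 1, .ofNat 0, c680x⟩, ⟨.ofNat 0, .ofNat 0, c14x⟩, ⟨.ofNat 0, .ofNat 1, c656x⟩⟩, [248, 249, 250, 251]⟩, ⟨c14x, c21x, c14x, c14x, c229x, c555x⟩⟩,
    ⟨⟨⟨⟨c256x, c257x, c231x, c238x⟩, ⟨.ofNat 1, .ofNat 0, c680x⟩, ⟨.ofNat 0, .ofNat 0, c14x⟩, ⟨.ofNat 0, .ofNat 1, c656x⟩⟩, [256, 257, 258, 259]⟩, ⟨c752x, c753x, c14x, c14x, c764x, c555x⟩⟩])))) (.node ⟨c249x, c287x, c229x, c288x⟩ ⟨c14x, c657x, c14x, c655x, c762x, c565x⟩ (.node ⟨c249x, c269x, c229x, c262x⟩ ⟨c14x, c657x, c14x, c20x, c762x, c719x⟩ (.node ⟨c249x, c264x, c229x, c262x⟩ ⟨c14x, c760x, c14x, c20x, c762x, c719x⟩ (.leaf ⟨c249x, c253x, c222x, c262x⟩ ⟨c14x, c14x, c528x, c20x, c554x, c719x⟩ [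
    ⟨⟨⟨⟨c249x, c261x, c233x, c262x⟩, ⟨.ofNat 0, .ofNat 0, c14x⟩, ⟨.negSucc 0, .ofNat 0, c254x⟩, ⟨.ofNat 0, .ofNat 1, c656x⟩⟩, [233, 234, 235, 236, 584, 585, 586]⟩, ⟨c14x, c14x, c712x, c20x, c720x, c719x⟩⟩,
    ⟨⟨⟨⟨c261x, c263x, c234x, c262x⟩, ⟨.ofNat 0, .ofNat 0, c14x⟩, ⟨.negSucc 0, .ofNat 0, c254x⟩, ⟨.ofNat 0, .ofNat 1, c656x⟩⟩, [235, 236, 237, 584]⟩, ⟨c14x, c14x, c527x, c712x, c624x, c719x⟩⟩,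
    ⟨⟨⟨⟨c263x, c253x, c222x, c262x⟩, ⟨.ofNat 0, .ofNat 0, c14x⟩, ⟨.negSucc 0, .ofNat 0, c254x⟩, ⟨.ofNat 0, .ofNat 1, c656x⟩⟩, [236, 237, 238, 242, 243, 244, 584]⟩, ⟨c14x, c14x, c528x, c527x, c554x, c719x⟩⟩]) (.leaf ⟨c253x, c264x, c229x, c262x⟩ ⟨c14x, c760x, c14x, c528x, c762x, c719x⟩ [
    ⟨⟨⟨⟨c253x, c254x, c235x, c262x⟩, ⟨.ofNat 0, .ofNat 0, c14x⟩, ⟨.negSucc 0, .ofNat 0, c254x⟩, ⟨.ofNat 0, .ofNat 1, c656x⟩⟩, [243, 244, 584]⟩, ⟨c14x, c14x, c14x, c528x, c234x, c719x⟩⟩,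
    ⟨⟨⟨⟨c255x, c264x, c229x, c262x⟩, ⟨.ofNat 1, .ofNat 0, c680x⟩, ⟨.ofNat 0, .ofNat 0, c14x⟩, ⟨.ofNat 0, .ofNat 1, c656x⟩⟩, [246, 247, 248, 254, 255, 256, 584]⟩, ⟨c528x, c760x, c14x, c14x, c762x, c719x⟩⟩,
    ⟨⟨⟨⟨c254x, c248x, c235x, c262x⟩, ⟨.ofNat 1, .ofNat 0, c680x⟩, ⟨.ofNat 0, .ofNat 0, c14x⟩, ⟨.ofNat 0, .ofNat 1, c656x⟩⟩, [244, 245, 246, 584]⟩, ⟨c14x, c649x, c14x, c14x, c234x, c719x⟩⟩])) (.node ⟨c264x, c269x, c231x, c262x⟩ ⟨c760x, c657x, c14x, c742x, c764x, c719x⟩ (.leaf ⟨c264x, c266x, c231x, c262x⟩ ⟨c760x, c758x, c14x, c14x, c764x, c719x⟩ [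
    ⟨⟨⟨⟨c264x, c256x, c231x, c262x⟩, ⟨.ofNat 1, .ofNat 0, c680x⟩, ⟨.ofNat 0, .ofNat 0, c14x⟩, ⟨.ofNat 0, .ofNat 1, c656x⟩⟩, [255, 256, 258, 259, 260, 584]⟩, ⟨c760x, c752x, c14x, c14x, c764x, c719x⟩⟩,
    ⟨⟨⟨⟨c256x, c265x, c240x, c262x⟩, ⟨.ofNat 1, .ofNat 0, c680x⟩, ⟨.ofNat 0, .ofNat 0, c14x⟩, ⟨.ofNat 0, .ofNat 1, c656x⟩⟩, [259, 260, 261, 584]⟩, ⟨c752x, c756x, c14x, c14x, c233x, c719x⟩⟩,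
    ⟨⟨⟨⟨c265x, c266x, c234x, c262x⟩, ⟨.ofNat 1, .ofNat 0, c680x⟩, ⟨.ofNat 0, .ofNat 0, c14x⟩, ⟨.ofNat 0, .ofNat 1, c656x⟩⟩, [260, 261, 262, 263, 264, 584]⟩, ⟨c756x, c758x, c14x, c14x, c624x, c719x⟩⟩]) (.leaf ⟨c266x, c269x, c237x, c262x⟩ ⟨c758x, c657x, c14x, c742x, c558x, c719x⟩ [
    ⟨⟨⟨⟨c266x, c683x, c246x, c262x⟩, ⟨.ofNat 1, .ofNat 0, c680x⟩, ⟨.ofNat 0, .ofNat 0, c14x⟩, ⟨.ofNat 0, .ofNat 1, c656x⟩⟩, [263, 264, 584]⟩, ⟨c758x, c657x, c14x, c14x, c561x, c719x⟩⟩,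
    ⟨⟨⟨⟨c683x, c267x, c246x, c262x⟩, ⟨.ofNat 0, .ofNat 0, c657x⟩, ⟨.ofNat 1, .ofNat 0, c684x⟩, ⟨.ofNat 0, .ofNat 1, c656x⟩⟩, [264, 265, 584]⟩, ⟨c657x, c657x, c14x, c529x, c561x, c719x⟩⟩,
    ⟨⟨⟨⟨c267x, c268x, c237x, c262x⟩, ⟨.ofNat 0, .ofNat 0, c657x⟩, ⟨.ofNat 1, .ofNat 0, c684x⟩, ⟨.ofNat 0, .ofNat 1, c656x⟩⟩, [264, 265, 266, 267, 268, 584]⟩, ⟨c657x, c657x, c529x, c743x, c558x, c719x⟩⟩,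
    ⟨⟨⟨⟨c268x, c269x, c233x, c262x⟩, ⟨.ofNat 0, .ofNat 0, c657x⟩, ⟨.ofNat 1, .ofNat 0, c684x⟩, ⟨.ofNat 0, .ofNat 1, c656x⟩⟩, [267, 268, 269, 270, 583, 584]⟩, ⟨c657x, c657x, c743x, c742x, c720x, c719x⟩⟩]))) (.node ⟨c248x, c287x, c260x, c288x⟩ ⟨c14x, c657x, c14x, c655x, c763x, c565x⟩ (.node ⟨c248x, c283x, c260x, c284x⟩ ⟨c14x, c657x, c14x, c655x, c763x, c739x⟩ (.leaf ⟨c248x, c273x, c260x, c272x⟩ ⟨c649x, c657x, c14x, c655x, c763x, c750x⟩ [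
    ⟨⟨⟨⟨c248x, c255x, c260x, c262x⟩, ⟨.ofNat 1, .ofNat 0, c680x⟩, ⟨.ofNat 0, .ofNat 0, c14x⟩, ⟨.ofNat 0, .ofNat 1, c656x⟩⟩, [245, 246, 247, 584]⟩, ⟨c649x, c528x, c14x, c14x, c763x, c719x⟩⟩,
    ⟨⟨⟨⟨c270x, c293x, c250x, c272x⟩, ⟨.ofNat 0, .ofNat 0, c657x⟩, ⟨.ofNat 1, .ofNat 0, c684x⟩, ⟨.ofNat 0, .ofNat 1, c656x⟩⟩, [270, 572, 573]⟩, ⟨c657x, c657x, c746x, c655x, c736x, c750x⟩⟩,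
    ⟨⟨⟨⟨c271x, c273x, c250x, c274x⟩, ⟨.negSucc 0, .ofNat 0, c685x⟩, ⟨.ofNat 0, .ofNat 0, c655x⟩, ⟨.ofNat 0, .ofNat 1, c656x⟩⟩, [270, 569, 570, 571]⟩, ⟨c756x, c758x, c655x, c655x, c736x, c779x⟩⟩]) (.leaf ⟨c293x, c283x, c250x, c284x⟩ ⟨c14x, c657x, c729x, c655x, c736x, c739x⟩ [
    ⟨⟨⟨⟨c293x, c271x, c250x, c272x⟩, ⟨.negSucc 0, .ofNat 0, c685x⟩, ⟨.ofNat 0, .ofNat 0, c655x⟩, ⟨.ofNat 0, .ofNat 1, c656x⟩⟩, [270, 570, 571, 572]⟩, ⟨c758x, c657x, c655x, c655x, c736x, c750x⟩⟩,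
    ⟨⟨⟨⟨c275x, c276x, c250x, c277x⟩, ⟨.negSucc 0, .ofNat 0, c685x⟩, ⟨.ofNat 0, .ofNat 0, c655x⟩, ⟨.ofNat 0, .ofNat 1, c656x⟩⟩, [270, 555, 556, 557]⟩, ⟨c528x, c533x, c655x, c655x, c736x, c751x⟩⟩,
    ⟨⟨⟨⟨c282x, c685x, c250x, c284x⟩, ⟨.negSucc 0, .ofNat 0, c685x⟩, ⟨.ofNat 0, .ofNat 0, c655x⟩, ⟨.ofNat 0, .ofNat 1, c656x⟩⟩, [270, 552, 553]⟩, ⟨c14x, c649x, c655x, c655x, c736x, c739x⟩⟩,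
    ⟨⟨⟨⟨c685x, c283x, c250x, c284x⟩, ⟨.ofNat 0, .ofNat 0, c14x⟩, ⟨.negSucc 0, .ofNat 0, c686x⟩, ⟨.ofNat 0, .ofNat 1, c656x⟩⟩, [270, 551, 552]⟩, ⟨c14x, c14x, c729x, c655x, c736x, c739x⟩⟩])) (.node ⟨c269x, c287x, c250x, c288x⟩ ⟨c14x, c657x, c742x, c655x, c736x, c565x⟩ (.leaf ⟨c269x, c270x, c250x, c288x⟩ ⟨c657x, c657x, c742x, c746x, c736x, c565x⟩ [
    ⟨⟨⟨⟨c269x, c278x, c250x, c279x⟩, ⟨.ofNat 0, .ofNat 0, c657x⟩, ⟨.ofNat 1, .ofNat 0, c684x⟩, ⟨.ofNat 0, .ofNat 1, c656x⟩⟩, [269, 270, 580, 581, 582, 583, 584]⟩, ⟨c657x, c657x, c742x, c530x, c736x, c277x⟩⟩,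
    ⟨⟨⟨⟨c278x, c280x, c250x, c281x⟩, ⟨.ofNat 0, .ofNat 0, c657x⟩, ⟨.ofNat 1, .ofNat 0, c684x⟩, ⟨.ofNat 0, .ofNat 1, c656x⟩⟩, [270, 579, 580, 581]⟩, ⟨c657x, c657x, c530x, c534x, c736x, c272x⟩⟩,
    ⟨⟨⟨⟨c280x, c270x, c250x, c288x⟩, ⟨.ofNat 0, .ofNat 0, c657x⟩, ⟨.ofNat 1, .ofNat 0, c684x⟩, ⟨.ofNat 0, .ofNat 1, c656x⟩⟩, [270, 572, 573, 574, 578, 579, 580]⟩, ⟨c657x, c657x, c534x, c746x, c736x, c565x⟩⟩]) (.leaf ⟨c289x, c287x, c250x, c290x⟩ ⟨c14x, c777x, c20x, c655x, c736x, c605x⟩ [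
    ⟨⟨⟨⟨c289x, c275x, c250x, c290x⟩, ⟨.negSucc 0, .ofNat 0, c685x⟩, ⟨.ofNat 0, .ofNat 0, c655x⟩, ⟨.ofNat 0, .ofNat 1, c656x⟩⟩, [270, 556, 557, 558, 560, 561]⟩, ⟨c533x, c777x, c655x, c655x, c736x, c605x⟩⟩,
    ⟨⟨⟨⟨c276x, c282x, c250x, c281x⟩, ⟨.negSucc 0, .ofNat 0, c685x⟩, ⟨.ofNat 0, .ofNat 0, c655x⟩, ⟨.ofNat 0, .ofNat 1, c656x⟩⟩, [270, 552, 553, 554, 555, 556]⟩, ⟨c649x, c528x, c655x, c655x, c736x, c272x⟩⟩,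
    ⟨⟨⟨⟨c283x, c285x, c250x, c286x⟩, ⟨.ofNat 0, .ofNat 0, c14x⟩, ⟨.negSucc 0, .ofNat 0, c686x⟩, ⟨.ofNat 0, .ofNat 1, c656x⟩⟩, [270, 548, 549, 550, 551, 552]⟩, ⟨c14x, c14x, c730x, c729x, c736x, c738x⟩⟩,
    ⟨⟨⟨⟨c285x, c287x, c250x, c279x⟩, ⟨.ofNat 0, .ofNat 0, c14x⟩, ⟨.negSucc 0, .ofNat 0, c686x⟩, ⟨.ofNat 0, .ofNat 1, c656x⟩⟩, [270, 271, 272, 547, 548, 549]⟩, ⟨c14x, c14x, c20x, c730x, c736x, c277x⟩⟩]))))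

def n101x : QT :=
  .node ⟨c270x, c347x, c250x, c359x⟩ ⟨c14x, c657x, c14x, c655x, c736x, c735x⟩ (.node ⟨c270x, c317x, c250x, c311x⟩ ⟨c14x, c657x, c14x, c655x, c736x, c737x⟩ (.node ⟨c270x, c306x, c250x, c298x⟩ ⟨c14x, c657x, c14x, c655x, c736x, c718x⟩ (.node ⟨c270x, c686x, c250x, c298x⟩ ⟨c14x, c657x, c14x, c655x, c736x, c718x⟩ (.leaf ⟨c270x, c686x, c250x, c298x⟩ ⟨c14x, c657x, c14x, c655x, c736x, c718x⟩ [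
    ⟨⟨⟨⟨c273x, c289x, c250x, c291x⟩, ⟨.negSucc 0, .ofNat 0, c685x⟩, ⟨.ofNat 0, .ofNat 0, c655x⟩, ⟨.ofNat 0, .ofNat 1, c656x⟩⟩, [270, 560, 561, 562, 568, 569, 570]⟩, ⟨c777x, c756x, c655x, c655x, c736x, c296x⟩⟩,
    ⟨⟨⟨⟨c270x, c292x, c277x, c288x⟩, ⟨.ofNat 0, .ofNat 0, c657x⟩, ⟨.ofNat 1, .ofNat 0, c684x⟩, ⟨.ofNat 0, .ofNat 1, c656x⟩⟩, [573, 574, 575, 576, 578]⟩, ⟨c657x, c657x, c746x, c748x, c751x, c565x⟩⟩,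
    ⟨⟨⟨⟨c287x, c686x, c262x, c298x⟩, ⟨.ofNat 0, .ofNat 0, c14x⟩, ⟨.negSucc 0, .ofNat 0, c686x⟩, ⟨.ofNat 0, .ofNat 1, c656x⟩⟩, [271, 272, 546, 547, 548]⟩, ⟨c14x, c14x, c14x, c20x, c719x, c718x⟩⟩]) (.leaf ⟨c292x, c308x, c295x, c288x⟩ ⟨c37x, c657x, c748x, c655x, c606x, c565x⟩ [
    ⟨⟨⟨⟨c292x, c307x, c286x, c288x⟩, ⟨.ofNat 0, .ofNat 0, c657x⟩, ⟨.ofNat 1, .ofNat 0, c684x⟩, ⟨.ofNat 0, .ofNat 1, c656x⟩⟩, [575, 576, 577, 578]⟩, ⟨c657x, c657x, c748x, c729x, c738x, c565x⟩⟩,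
    ⟨⟨⟨⟨c293x, c294x, c295x, c296x⟩, ⟨.negSucc 0, .ofNat 0, c685x⟩, ⟨.ofNat 0, .ofNat 0, c655x⟩, ⟨.ofNat 0, .ofNat 1, c656x⟩⟩, [565, 566, 567, 568]⟩, ⟨c759x, c657x, c655x, c655x, c606x, c607x⟩⟩,
    ⟨⟨⟨⟨c275x, c308x, c295x, c290x⟩, ⟨.negSucc 0, .ofNat 0, c685x⟩, ⟨.ofNat 0, .ofNat 0, c655x⟩, ⟨.ofNat 0, .ofNat 1, c656x⟩⟩, [557, 558, 559, 560]⟩, ⟨c37x, c533x, c655x, c655x, c606x, c605x⟩⟩])) (.node ⟨c686x, c306x, c262x, c298x⟩ ⟨c14x, c657x, c14x, c655x, c719x, c718x⟩ (.leaf ⟨c686x, c300x, c262x, c298x⟩ ⟨c14x, c657x, c14x, c748x, c719x, c718x⟩ [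
    ⟨⟨⟨⟨c686x, c687x, c262x, c298x⟩, ⟨.ofNat 1, .ofNat 0, c688x⟩, ⟨.ofNat 0, .ofNat 0, c14x⟩, ⟨.ofNat 0, .ofNat 1, c656x⟩⟩, [272, 546]⟩, ⟨c14x, c657x, c14x, c14x, c719x, c718x⟩⟩,
    ⟨⟨⟨⟨c687x, c297x, c262x, c298x⟩, ⟨.ofNat 0, .ofNat 0, c657x⟩, ⟨.ofNat 1, .ofNat 0, c689x⟩, ⟨.ofNat 0, .ofNat 1, c656x⟩⟩, [272, 273, 274, 545, 546]⟩, ⟨c657x, c657x, c14x, c742x, c719x, c718x⟩⟩,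
    ⟨⟨⟨⟨c299x, c300x, c272x, c277x⟩, ⟨.ofNat 0, .ofNat 0, c657x⟩, ⟨.ofNat 1, .ofNat 0, c689x⟩, ⟨.ofNat 0, .ofNat 1, c656x⟩⟩, [281, 282, 283, 284]⟩, ⟨c657x, c657x, c746x, c748x, c750x, c751x⟩⟩]) (.leaf ⟨c300x, c306x, c274x, c286x⟩ ⟨c37x, c657x, c748x, c655x, c779x, c738x⟩ [
    ⟨⟨⟨⟨c300x, c301x, c272x, c286x⟩, ⟨.ofNat 0, .ofNat 0, c657x⟩, ⟨.ofNat 1, .ofNat 0, c689x⟩, ⟨.ofNat 0, .ofNat 1, c656x⟩⟩, [279, 280, 281, 282, 284]⟩, ⟨c657x, c657x, c748x, c729x, c750x, c738x⟩⟩,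
    ⟨⟨⟨⟨c302x, c303x, c272x, c295x⟩, ⟨.negSucc 0, .ofNat 0, c690x⟩, ⟨.ofNat 0, .ofNat 0, c655x⟩, ⟨.ofNat 0, .ofNat 1, c656x⟩⟩, [284, 285, 288, 289]⟩, ⟨c758x, c657x, c655x, c655x, c750x, c606x⟩⟩,
    ⟨⟨⟨⟨c303x, c304x, c274x, c295x⟩, ⟨.negSucc 0, .ofNat 0, c690x⟩, ⟨.ofNat 0, .ofNat 0, c655x⟩, ⟨.ofNat 0, .ofNat 1, c656x⟩⟩, [284, 285, 286, 287, 288]⟩, ⟨c756x, c758x, c655x, c655x, c779x, c606x⟩⟩,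
    ⟨⟨⟨⟨c305x, c306x, c277x, c295x⟩, ⟨.negSucc 0, .ofNat 0, c690x⟩, ⟨.ofNat 0, .ofNat 0, c655x⟩, ⟨.ofNat 0, .ofNat 1, c656x⟩⟩, [297, 298, 299, 300]⟩, ⟨c37x, c533x, c655x, c655x, c751x, c606x⟩⟩]))) (.node ⟨c294x, c317x, c272x, c311x⟩ ⟨c14x, c657x, c742x, c655x, c750x, c737x⟩ (.node ⟨c294x, c318x, c272x, c311x⟩ ⟨c756x, c657x, c742x, c655x, c750x, c737x⟩ (.leaf ⟨c294x, c302x, c272x, c311x⟩ ⟨c756x, c657x, c729x, c655x, c750x, c737x⟩ [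
    ⟨⟨⟨⟨c271x, c273x, c295x, c291x⟩, ⟨.negSucc 0, .ofNat 0, c685x⟩, ⟨.ofNat 0, .ofNat 0, c655x⟩, ⟨.ofNat 0, .ofNat 1, c656x⟩⟩, [562, 563, 568, 569]⟩, ⟨c756x, c758x, c655x, c655x, c606x, c296x⟩⟩,
    ⟨⟨⟨⟨c294x, c271x, c295x, c309x⟩, ⟨.negSucc 0, .ofNat 0, c685x⟩, ⟨.ofNat 0, .ofNat 0, c655x⟩, ⟨.ofNat 0, .ofNat 1, c656x⟩⟩, [562, 563, 564, 565, 566, 568]⟩, ⟨c758x, c759x, c655x, c655x, c606x, c641x⟩⟩,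
    ⟨⟨⟨⟨c301x, c302x, c272x, c311x⟩, ⟨.ofNat 0, .ofNat 0, c657x⟩, ⟨.ofNat 1, .ofNat 0, c689x⟩, ⟨.ofNat 0, .ofNat 1, c656x⟩⟩, [278, 279, 280, 284, 288, 289, 290, 544]⟩, ⟨c657x, c657x, c729x, c655x, c750x, c737x⟩⟩]) (.leaf ⟨c297x, c318x, c281x, c311x⟩ ⟨c759x, c657x, c742x, c655x, c272x, c737x⟩ [
    ⟨⟨⟨⟨c297x, c310x, c279x, c311x⟩, ⟨.ofNat 0, .ofNat 0, c657x⟩, ⟨.ofNat 1, .ofNat 0, c689x⟩, ⟨.ofNat 0, .ofNat 1, c656x⟩⟩, [273, 274, 275, 544, 545, 546]⟩, ⟨c657x, c657x, c742x, c530x, c277x, c737x⟩⟩,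
    ⟨⟨⟨⟨c310x, c312x, c281x, c311x⟩, ⟨.ofNat 0, .ofNat 0, c657x⟩, ⟨.ofNat 1, .ofNat 0, c689x⟩, ⟨.ofNat 0, .ofNat 1, c656x⟩⟩, [274, 275, 276, 277, 278, 544]⟩, ⟨c657x, c657x, c530x, c534x, c272x, c737x⟩⟩,
    ⟨⟨⟨⟨c312x, c301x, c288x, c311x⟩, ⟨.ofNat 0, .ofNat 0, c657x⟩, ⟨.ofNat 1, .ofNat 0, c689x⟩, ⟨.ofNat 0, .ofNat 1, c656x⟩⟩, [277, 278, 279, 544]⟩, ⟨c657x, c657x, c534x, c729x, c565x, c737x⟩⟩,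
    ⟨⟨⟨⟨c302x, c318x, c296x, c311x⟩, ⟨.negSucc 0, .ofNat 0, c690x⟩, ⟨.ofNat 0, .ofNat 0, c655x⟩, ⟨.ofNat 0, .ofNat 1, c656x⟩⟩, [289, 290, 291, 292, 544]⟩, ⟨c759x, c657x, c655x, c655x, c607x, c737x⟩⟩])) (.node ⟨c319x, c317x, c277x, c311x⟩ ⟨c14x, c777x, c20x, c655x, c751x, c737x⟩ (.leaf ⟨c319x, c314x, c277x, c311x⟩ ⟨c649x, c777x, c655x, c655x, c751x, c737x⟩ [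
    ⟨⟨⟨⟨c319x, c306x, c290x, c311x⟩, ⟨.negSucc 0, .ofNat 0, c690x⟩, ⟨.ofNat 0, .ofNat 0, c655x⟩, ⟨.ofNat 0, .ofNat 1, c656x⟩⟩, [294, 295, 296, 297, 544]⟩, ⟨c37x, c777x, c655x, c655x, c605x, c737x⟩⟩,
    ⟨⟨⟨⟨c306x, c313x, c277x, c311x⟩, ⟨.negSucc 0, .ofNat 0, c690x⟩, ⟨.ofNat 0, .ofNat 0, c655x⟩, ⟨.ofNat 0, .ofNat 1, c656x⟩⟩, [296, 297, 298, 300, 301, 302, 544]⟩, ⟨c528x, c37x, c655x, c655x, c751x, c737x⟩⟩,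
    ⟨⟨⟨⟨c313x, c314x, c281x, c311x⟩, ⟨.negSucc 0, .ofNat 0, c690x⟩, ⟨.ofNat 0, .ofNat 0, c655x⟩, ⟨.ofNat 0, .ofNat 1, c656x⟩⟩, [301, 302, 303, 544]⟩, ⟨c649x, c528x, c655x, c655x, c272x, c737x⟩⟩]) (.leaf ⟨c314x, c317x, c284x, c311x⟩ ⟨c14x, c649x, c20x, c655x, c739x, c737x⟩ [
    ⟨⟨⟨⟨c314x, c690x, c284x, c311x⟩, ⟨.negSucc 0, .ofNat 0, c690x⟩, ⟨.ofNat 0, .ofNat 0, c655x⟩, ⟨.ofNat 0, .ofNat 1, c656x⟩⟩, [302, 303, 304, 544]⟩, ⟨c14x, c649x, c655x, c655x, c739x, c737x⟩⟩,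
    ⟨⟨⟨⟨c690x, c315x, c284x, c311x⟩, ⟨.ofNat 0, .ofNat 0, c14x⟩, ⟨.negSucc 0, .ofNat 0, c323x⟩, ⟨.ofNat 0, .ofNat 1, c656x⟩⟩, [304, 305, 306, 544]⟩, ⟨c14x, c14x, c729x, c655x, c739x, c737x⟩⟩,
    ⟨⟨⟨⟨c315x, c316x, c286x, c311x⟩, ⟨.ofNat 0, .ofNat 0, c14x⟩, ⟨.negSucc 0, .ofNat 0, c323x⟩, ⟨.ofNat 0, .ofNat 1, c656x⟩⟩, [305, 306, 307, 544]⟩, ⟨c14x, c14x, c730x, c729x, c738x, c737x⟩⟩,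
    ⟨⟨⟨⟨c316x, c317x, c279x, c311x⟩, ⟨.ofNat 0, .ofNat 0, c14x⟩, ⟨.negSucc 0, .ofNat 0, c323x⟩, ⟨.ofNat 0, .ofNat 1, c656x⟩⟩, [306, 307, 308, 309, 310, 543, 544]⟩, ⟨c14x, c14x, c20x, c730x, c277x, c737x⟩⟩])))) (.node ⟨c318x, c347x, c291x, c359x⟩ ⟨c14x, c657x, c14x, c655x, c296x, c735x⟩ (.node ⟨c318x, c342x, c291x, c339x⟩ ⟨c14x, c657x, c14x, c655x, c296x, c573x⟩ (.node ⟨c318x, c330x, c291x, c322x⟩ ⟨c14x, c657x, c14x, c655x, c296x, c722x⟩ (.leaf ⟨c318x, c328x, c291x, c329x⟩ ⟨c752x, c759x, c14x, c655x, c296x, c766x⟩ [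
    ⟨⟨⟨⟨c303x, c319x, c291x, c311x⟩, ⟨.negSucc 0, .ofNat 0, c690x⟩, ⟨.ofNat 0, .ofNat 0, c655x⟩, ⟨.ofNat 0, .ofNat 1, c656x⟩⟩, [292, 293, 294, 295, 544]⟩, ⟨c777x, c758x, c655x, c655x, c296x, c737x⟩⟩,
    ⟨⟨⟨⟨c318x, c303x, c309x, c311x⟩, ⟨.negSucc 0, .ofNat 0, c690x⟩, ⟨.ofNat 0, .ofNat 0, c655x⟩, ⟨.ofNat 0, .ofNat 1, c656x⟩⟩, [291, 292, 293, 544]⟩, ⟨c758x, c759x, c655x, c655x, c641x, c737x⟩⟩,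
    ⟨⟨⟨⟨c327x, c328x, c298x, c329x⟩, ⟨.ofNat 1, .ofNat 0, c691x⟩, ⟨.ofNat 0, .ofNat 0, c14x⟩, ⟨.ofNat 0, .ofNat 1, c656x⟩⟩, [310, 519, 520, 521]⟩, ⟨c752x, c753x, c14x, c14x, c718x, c766x⟩⟩]) (.leaf ⟨c320x, c330x, c298x, c322x⟩ ⟨c14x, c657x, c14x, c527x, c718x, c722x⟩ [
    ⟨⟨⟨⟨c320x, c321x, c298x, c322x⟩, ⟨.ofNat 0, .ofNat 0, c14x⟩, ⟨.negSucc 0, .ofNat 0, c323x⟩, ⟨.ofNat 0, .ofNat 1, c656x⟩⟩, [310, 537, 538, 539]⟩, ⟨c14x, c14x, c529x, c527x, c718x, c722x⟩⟩,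
    ⟨⟨⟨⟨c323x, c325x, c298x, c326x⟩, ⟨.ofNat 1, .ofNat 0, c691x⟩, ⟨.ofNat 0, .ofNat 0, c14x⟩, ⟨.ofNat 0, .ofNat 1, c656x⟩⟩, [310, 533, 534, 535]⟩, ⟨c14x, c528x, c14x, c14x, c718x, c765x⟩⟩,
    ⟨⟨⟨⟨c328x, c330x, c298x, c331x⟩, ⟨.ofNat 1, .ofNat 0, c691x⟩, ⟨.ofNat 0, .ofNat 0, c14x⟩, ⟨.ofNat 0, .ofNat 1, c656x⟩⟩, [310, 517, 518, 519, 520]⟩, ⟨c753x, c657x, c14x, c14x, c718x, c769x⟩⟩])) (.node ⟨c317x, c342x, c298x, c339x⟩ ⟨c14x, c657x, c14x, c20x, c718x, c573x⟩ (.leaf ⟨c317x, c323x, c298x, c336x⟩ ⟨c14x, c14x, c14x, c20x, c718x, c723x⟩ [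
    ⟨⟨⟨⟨c317x, c334x, c298x, c335x⟩, ⟨.ofNat 0, .ofNat 0, c14x⟩, ⟨.negSucc 0, .ofNat 0, c323x⟩, ⟨.ofNat 0, .ofNat 1, c656x⟩⟩, [309, 310, 541, 542, 543, 544]⟩, ⟨c14x, c14x, c712x, c20x, c718x, c326x⟩⟩,
    ⟨⟨⟨⟨c334x, c320x, c298x, c336x⟩, ⟨.ofNat 0, .ofNat 0, c14x⟩, ⟨.negSucc 0, .ofNat 0, c323x⟩, ⟨.ofNat 0, .ofNat 1, c656x⟩⟩, [310, 538, 539, 540, 541, 542]⟩, ⟨c14x, c14x, c527x, c712x, c718x, c723x⟩⟩,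
    ⟨⟨⟨⟨c321x, c323x, c298x, c324x⟩, ⟨.ofNat 0, .ofNat 0, c14x⟩, ⟨.negSucc 0, .ofNat 0, c323x⟩, ⟨.ofNat 0, .ofNat 1, c656x⟩⟩, [310, 534, 535, 536, 537, 538]⟩, ⟨c14x, c14x, c14x, c529x, c718x, c331x⟩⟩]) (.leaf ⟨c325x, c342x, c298x, c339x⟩ ⟨c528x, c657x, c14x, c742x, c718x, c573x⟩ [
    ⟨⟨⟨⟨c325x, c337x, c298x, c338x⟩, ⟨.ofNat 1, .ofNat 0, c691x⟩, ⟨.ofNat 0, .ofNat 0, c14x⟩, ⟨.ofNat 0, .ofNat 1, c656x⟩⟩, [310, 529, 530, 532, 533, 534]⟩, ⟨c528x, c37x, c14x, c14x, c718x, c570x⟩⟩,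
    ⟨⟨⟨⟨c330x, c332x, c298x, c339x⟩, ⟨.ofNat 0, .ofNat 0, c657x⟩, ⟨.ofNat 1, .ofNat 0, c692x⟩, ⟨.ofNat 0, .ofNat 1, c656x⟩⟩, [310, 510, 511, 512, 516, 517, 518]⟩, ⟨c657x, c657x, c14x, c529x, c718x, c573x⟩⟩,
    ⟨⟨⟨⟨c332x, c333x, c298x, c324x⟩, ⟨.ofNat 0, .ofNat 0, c657x⟩, ⟨.ofNat 1, .ofNat 0, c692x⟩, ⟨.ofNat 0, .ofNat 1, c656x⟩⟩, [310, 509, 510, 511]⟩, ⟨c657x, c657x, c529x, c743x, c718x, c331x⟩⟩,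
    ⟨⟨⟨⟨c333x, c342x, c298x, c335x⟩, ⟨.ofNat 0, .ofNat 0, c657x⟩, ⟨.ofNat 1, .ofNat 0, c692x⟩, ⟨.ofNat 0, .ofNat 1, c656x⟩⟩, [310, 311, 312, 507, 508, 509, 510]⟩, ⟨c657x, c657x, c743x, c742x, c718x, c326x⟩⟩]))) (.node ⟨c352x, c347x, c298x, c359x⟩ ⟨c14x, c657x, c14x, c655x, c718x, c735x⟩ (.node ⟨c352x, c693x, c298x, c359x⟩ ⟨c649x, c657x, c14x, c655x, c718x, c735x⟩ (.leaf ⟨c337x, c693x, c298x, c359x⟩ ⟨c37x, c657x, c14x, c655x, c718x, c735x⟩ [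
    ⟨⟨⟨⟨c337x, c327x, c298x, c340x⟩, ⟨.ofNat 1, .ofNat 0, c691x⟩, ⟨.ofNat 0, .ofNat 0, c14x⟩, ⟨.ofNat 0, .ofNat 1, c656x⟩⟩, [310, 520, 521, 522, 528, 529, 530]⟩, ⟨c37x, c752x, c14x, c14x, c718x, c356x⟩⟩,
    ⟨⟨⟨⟨c341x, c330x, c326x, c339x⟩, ⟨.ofNat 1, .ofNat 0, c691x⟩, ⟨.ofNat 0, .ofNat 0, c14x⟩, ⟨.ofNat 0, .ofNat 1, c656x⟩⟩, [512, 514, 515, 516, 517]⟩, ⟨c759x, c657x, c14x, c14x, c765x, c573x⟩⟩,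
    ⟨⟨⟨⟨c342x, c693x, c311x, c359x⟩, ⟨.ofNat 0, .ofNat 0, c657x⟩, ⟨.ofNat 1, .ofNat 0, c692x⟩, ⟨.ofNat 0, .ofNat 1, c656x⟩⟩, [311, 312, 506, 507, 508]⟩, ⟨c657x, c657x, c742x, c655x, c737x, c735x⟩⟩]) (.leaf ⟨c352x, c341x, c345x, c340x⟩ ⟨c649x, c759x, c14x, c14x, c567x, c356x⟩ [
    ⟨⟨⟨⟨c352x, c325x, c345x, c338x⟩, ⟨.ofNat 1, .ofNat 0, c691x⟩, ⟨.ofNat 0, .ofNat 0, c14x⟩, ⟨.ofNat 0, .ofNat 1, c656x⟩⟩, [530, 531, 532, 533]⟩, ⟨c649x, c528x, c14x, c14x, c567x, c570x⟩⟩,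
    ⟨⟨⟨⟨c327x, c328x, c345x, c340x⟩, ⟨.ofNat 1, .ofNat 0, c691x⟩, ⟨.ofNat 0, .ofNat 0, c14x⟩, ⟨.ofNat 0, .ofNat 1, c656x⟩⟩, [521, 522, 527, 528]⟩, ⟨c752x, c753x, c14x, c14x, c567x, c356x⟩⟩,
    ⟨⟨⟨⟨c353x, c355x, c345x, c356x⟩, ⟨.ofNat 1, .ofNat 0, c691x⟩, ⟨.ofNat 0, .ofNat 0, c14x⟩, ⟨.ofNat 0, .ofNat 1, c656x⟩⟩, [522, 523, 524, 525]⟩, ⟨c652x, c756x, c14x, c14x, c567x, c568x⟩⟩,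
    ⟨⟨⟨⟨c357x, c341x, c336x, c339x⟩, ⟨.ofNat 1, .ofNat 0, c691x⟩, ⟨.ofNat 0, .ofNat 0, c14x⟩, ⟨.ofNat 0, .ofNat 1, c656x⟩⟩, [512, 513, 514, 515]⟩, ⟨c758x, c759x, c14x, c14x, c723x, c573x⟩⟩])) (.node ⟨c693x, c347x, c311x, c359x⟩ ⟨c14x, c657x, c14x, c655x, c737x, c735x⟩ (.leaf ⟨c693x, c349x, c311x, c359x⟩ ⟨c14x, c657x, c14x, c655x, c737x, c735x⟩ [
    ⟨⟨⟨⟨c693x, c694x, c311x, c359x⟩, ⟨.negSucc 0, .ofNat 0, c694x⟩, ⟨.ofNat 0, .ofNat 0, c655x⟩, ⟨.ofNat 0, .ofNat 1, c656x⟩⟩, [312, 506]⟩, ⟨c14x, c657x, c655x, c655x, c737x, c735x⟩⟩,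
    ⟨⟨⟨⟨c694x, c358x, c311x, c359x⟩, ⟨.ofNat 0, .ofNat 0, c14x⟩, ⟨.negSucc 0, .ofNat 0, c360x⟩, ⟨.ofNat 0, .ofNat 1, c656x⟩⟩, [312, 313, 314, 505, 506]⟩, ⟨c14x, c14x, c20x, c655x, c737x, c735x⟩⟩,
    ⟨⟨⟨⟨c348x, c349x, c326x, c345x⟩, ⟨.ofNat 1, .ofNat 0, c695x⟩, ⟨.ofNat 0, .ofNat 0, c14x⟩, ⟨.ofNat 0, .ofNat 1, c656x⟩⟩, [322, 323, 324, 325]⟩, ⟨c649x, c528x, c14x, c14x, c765x, c567x⟩⟩]) (.leaf ⟨c343x, c347x, c329x, c336x⟩ ⟨c752x, c657x, c14x, c14x, c766x, c723x⟩ [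
    ⟨⟨⟨⟨c343x, c344x, c329x, c345x⟩, ⟨.ofNat 1, .ofNat 0, c695x⟩, ⟨.ofNat 0, .ofNat 0, c14x⟩, ⟨.ofNat 0, .ofNat 1, c656x⟩⟩, [334, 335, 336, 337, 338]⟩, ⟨c752x, c753x, c14x, c14x, c766x, c567x⟩⟩,
    ⟨⟨⟨⟨c344x, c350x, c331x, c345x⟩, ⟨.ofNat 1, .ofNat 0, c695x⟩, ⟨.ofNat 0, .ofNat 0, c14x⟩, ⟨.ofNat 0, .ofNat 1, c656x⟩⟩, [333, 334, 337, 338]⟩, ⟨c753x, c756x, c14x, c14x, c769x, c567x⟩⟩,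
    ⟨⟨⟨⟨c346x, c347x, c331x, c326x⟩, ⟨.ofNat 1, .ofNat 0, c695x⟩, ⟨.ofNat 0, .ofNat 0, c14x⟩, ⟨.ofNat 0, .ofNat 1, c656x⟩⟩, [338, 339, 340, 341]⟩, ⟨c759x, c657x, c14x, c14x, c769x, c765x⟩⟩,
    ⟨⟨⟨⟨c351x, c346x, c331x, c336x⟩, ⟨.ofNat 1, .ofNat 0, c695x⟩, ⟨.ofNat 0, .ofNat 0, c14x⟩, ⟨.ofNat 0, .ofNat 1, c656x⟩⟩, [338, 340, 341, 342, 343]⟩, ⟨c758x, c759x, c14x, c14x, c769x, c723x⟩⟩]))))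

def n10x : QT :=
  .node ⟨c219x, c347x, c204x, c359x⟩ ⟨c14x, c657x, c14x, c655x, c710x, c735x⟩ (n100x) (n101x)

def n110x : QT :=
  .node ⟨c328x, c419x, c331x, c412x⟩ ⟨c14x, c657x, c14x, c655x, c769x, c741x⟩ (.node ⟨c328x, c392x, c331x, c385x⟩ ⟨c14x, c657x, c14x, c655x, c769x, c578x⟩ (.node ⟨c328x, c369x, c331x, c361x⟩ ⟨c14x, c657x, c14x, c20x, c769x, c721x⟩ (.node ⟨c328x, c348x, c326x, c361x⟩ ⟨c14x, c652x, c14x, c20x, c765x, c721x⟩ (.leaf ⟨c328x, c348x, c326x, c361x⟩ ⟨c14x, c652x, c14x, c527x, c765x, c721x⟩ [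
    ⟨⟨⟨⟨c328x, c353x, c345x, c354x⟩, ⟨.ofNat 1, .ofNat 0, c691x⟩, ⟨.ofNat 0, .ofNat 0, c14x⟩, ⟨.ofNat 0, .ofNat 1, c656x⟩⟩, [522, 524, 525, 526, 527, 528]⟩, ⟨c753x, c652x, c14x, c14x, c567x, c631x⟩⟩,
    ⟨⟨⟨⟨c362x, c363x, c322x, c361x⟩, ⟨.ofNat 0, .ofNat 0, c14x⟩, ⟨.negSucc 0, .ofNat 0, c360x⟩, ⟨.ofNat 0, .ofNat 1, c656x⟩⟩, [316, 317, 318, 319, 320, 504]⟩, ⟨c14x, c14x, c529x, c527x, c722x, c721x⟩⟩,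
    ⟨⟨⟨⟨c360x, c348x, c326x, c361x⟩, ⟨.ofNat 1, .ofNat 0, c695x⟩, ⟨.ofNat 0, .ofNat 0, c14x⟩, ⟨.ofNat 0, .ofNat 1, c656x⟩⟩, [320, 321, 322, 324, 325, 326, 504]⟩, ⟨c14x, c649x, c14x, c14x, c765x, c721x⟩⟩]) (.leaf ⟨c358x, c360x, c324x, c361x⟩ ⟨c14x, c14x, c14x, c20x, c331x, c721x⟩ [
    ⟨⟨⟨⟨c358x, c366x, c335x, c361x⟩, ⟨.ofNat 0, .ofNat 0, c14x⟩, ⟨.negSucc 0, .ofNat 0, c360x⟩, ⟨.ofNat 0, .ofNat 1, c656x⟩⟩, [313, 314, 315, 316, 504, 505, 506]⟩, ⟨c14x, c14x, c712x, c20x, c326x, c721x⟩⟩,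
    ⟨⟨⟨⟨c366x, c362x, c336x, c361x⟩, ⟨.ofNat 0, .ofNat 0, c14x⟩, ⟨.negSucc 0, .ofNat 0, c360x⟩, ⟨.ofNat 0, .ofNat 1, c656x⟩⟩, [315, 316, 317, 504]⟩, ⟨c14x, c14x, c527x, c712x, c723x, c721x⟩⟩,
    ⟨⟨⟨⟨c363x, c360x, c324x, c361x⟩, ⟨.ofNat 0, .ofNat 0, c14x⟩, ⟨.negSucc 0, .ofNat 0, c360x⟩, ⟨.ofNat 0, .ofNat 1, c656x⟩⟩, [319, 320, 321, 504]⟩, ⟨c14x, c14x, c14x, c529x, c331x, c721x⟩⟩])) (.node ⟨c348x, c369x, c331x, c361x⟩ ⟨c649x, c657x, c14x, c742x, c769x, c721x⟩ (.leaf ⟨c348x, c351x, c331x, c361x⟩ ⟨c649x, c758x, c14x, c14x, c769x, c721x⟩ [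
    ⟨⟨⟨⟨c348x, c367x, c338x, c361x⟩, ⟨.ofNat 1, .ofNat 0, c695x⟩, ⟨.ofNat 0, .ofNat 0, c14x⟩, ⟨.ofNat 0, .ofNat 1, c656x⟩⟩, [325, 326, 327, 328, 504]⟩, ⟨c649x, c37x, c14x, c14x, c570x, c721x⟩⟩,
    ⟨⟨⟨⟨c350x, c351x, c331x, c361x⟩, ⟨.ofNat 1, .ofNat 0, c695x⟩, ⟨.ofNat 0, .ofNat 0, c14x⟩, ⟨.ofNat 0, .ofNat 1, c656x⟩⟩, [332, 333, 334, 338, 342, 343, 344, 504]⟩, ⟨c756x, c758x, c14x, c14x, c769x, c721x⟩⟩,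
    ⟨⟨⟨⟨c368x, c350x, c356x, c361x⟩, ⟨.ofNat 1, .ofNat 0, c695x⟩, ⟨.ofNat 0, .ofNat 0, c14x⟩, ⟨.ofNat 0, .ofNat 1, c656x⟩⟩, [330, 331, 332, 333, 504]⟩, ⟨c652x, c756x, c14x, c14x, c568x, c721x⟩⟩]) (.leaf ⟨c351x, c369x, c324x, c361x⟩ ⟨c758x, c657x, c14x, c742x, c331x, c721x⟩ [
    ⟨⟨⟨⟨c351x, c347x, c339x, c361x⟩, ⟨.ofNat 1, .ofNat 0, c695x⟩, ⟨.ofNat 0, .ofNat 0, c14x⟩, ⟨.ofNat 0, .ofNat 1, c656x⟩⟩, [343, 344, 504]⟩, ⟨c758x, c657x, c14x, c14x, c573x, c721x⟩⟩,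
    ⟨⟨⟨⟨c347x, c364x, c339x, c361x⟩, ⟨.ofNat 0, .ofNat 0, c657x⟩, ⟨.ofNat 1, .ofNat 0, c696x⟩, ⟨.ofNat 0, .ofNat 1, c656x⟩⟩, [344, 345, 504]⟩, ⟨c657x, c657x, c14x, c529x, c573x, c721x⟩⟩,
    ⟨⟨⟨⟨c364x, c365x, c324x, c361x⟩, ⟨.ofNat 0, .ofNat 0, c657x⟩, ⟨.ofNat 1, .ofNat 0, c696x⟩, ⟨.ofNat 0, .ofNat 1, c656x⟩⟩, [344, 345, 346, 347, 348, 504]⟩, ⟨c657x, c657x, c529x, c743x, c331x, c721x⟩⟩,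
    ⟨⟨⟨⟨c365x, c369x, c335x, c361x⟩, ⟨.ofNat 0, .ofNat 0, c657x⟩, ⟨.ofNat 1, .ofNat 0, c696x⟩, ⟨.ofNat 0, .ofNat 1, c656x⟩⟩, [347, 348, 349, 350, 503, 504]⟩, ⟨c657x, c657x, c743x, c742x, c326x, c721x⟩⟩]))) (.node ⟨c367x, c392x, c340x, c385x⟩ ⟨c14x, c657x, c14x, c655x, c356x, c578x⟩ (.node ⟨c367x, c378x, c340x, c375x⟩ ⟨c14x, c758x, c14x, c655x, c356x, c783x⟩ (.leaf ⟨c367x, c371x, c340x, c372x⟩ ⟨c22x, c652x, c14x, c655x, c356x, c780x⟩ [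
    ⟨⟨⟨⟨c367x, c344x, c340x, c361x⟩, ⟨.ofNat 1, .ofNat 0, c695x⟩, ⟨.ofNat 0, .ofNat 0, c14x⟩, ⟨.ofNat 0, .ofNat 1, c656x⟩⟩, [327, 328, 329, 330, 504]⟩, ⟨c37x, c753x, c14x, c14x, c356x, c721x⟩⟩,
    ⟨⟨⟨⟨c344x, c368x, c354x, c361x⟩, ⟨.ofNat 1, .ofNat 0, c695x⟩, ⟨.ofNat 0, .ofNat 0, c14x⟩, ⟨.ofNat 0, .ofNat 1, c656x⟩⟩, [329, 330, 331, 504]⟩, ⟨c753x, c652x, c14x, c14x, c631x, c721x⟩⟩,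
    ⟨⟨⟨⟨c370x, c371x, c359x, c372x⟩, ⟨.negSucc 0, .ofNat 0, c402x⟩, ⟨.ofNat 0, .ofNat 0, c655x⟩, ⟨.ofNat 0, .ofNat 1, c656x⟩⟩, [350, 485, 486, 487]⟩, ⟨c22x, c37x, c655x, c655x, c735x, c780x⟩⟩]) (.leaf ⟨c373x, c378x, c359x, c375x⟩ ⟨c14x, c758x, c729x, c655x, c735x, c783x⟩ [
    ⟨⟨⟨⟨c373x, c374x, c359x, c375x⟩, ⟨.negSucc 0, .ofNat 0, c402x⟩, ⟨.ofNat 0, .ofNat 0, c655x⟩, ⟨.ofNat 0, .ofNat 1, c656x⟩⟩, [350, 488, 489, 490, 491]⟩, ⟨c753x, c758x, c655x, c655x, c735x, c783x⟩⟩,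
    ⟨⟨⟨⟨c374x, c370x, c359x, c376x⟩, ⟨.negSucc 0, .ofNat 0, c402x⟩, ⟨.ofNat 0, .ofNat 0, c655x⟩, ⟨.ofNat 0, .ofNat 1, c656x⟩⟩, [350, 486, 487, 488, 489]⟩, ⟨c37x, c753x, c655x, c655x, c735x, c781x⟩⟩,
    ⟨⟨⟨⟨c377x, c402x, c359x, c379x⟩, ⟨.negSucc 0, .ofNat 0, c402x⟩, ⟨.ofNat 0, .ofNat 0, c655x⟩, ⟨.ofNat 0, .ofNat 1, c656x⟩⟩, [350, 472, 473]⟩, ⟨c14x, c649x, c655x, c655x, c735x, c613x⟩⟩,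
    ⟨⟨⟨⟨c402x, c378x, c359x, c379x⟩, ⟨.ofNat 0, .ofNat 0, c14x⟩, ⟨.negSucc 0, .ofNat 0, c697x⟩, ⟨.ofNat 0, .ofNat 1, c656x⟩⟩, [350, 471, 472]⟩, ⟨c14x, c14x, c729x, c655x, c735x, c613x⟩⟩])) (.node ⟨c369x, c392x, c359x, c385x⟩ ⟨c14x, c657x, c742x, c655x, c735x, c578x⟩ (.leaf ⟨c369x, c384x, c359x, c385x⟩ ⟨c657x, c657x, c742x, c729x, c735x, c578x⟩ [
    ⟨⟨⟨⟨c369x, c380x, c359x, c381x⟩, ⟨.ofNat 0, .ofNat 0, c657x⟩, ⟨.ofNat 1, .ofNat 0, c696x⟩, ⟨.ofNat 0, .ofNat 1, c656x⟩⟩, [349, 350, 500, 501, 502, 503, 504]⟩, ⟨c657x, c657x, c742x, c530x, c735x, c740x⟩⟩,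
    ⟨⟨⟨⟨c380x, c382x, c359x, c383x⟩, ⟨.ofNat 0, .ofNat 0, c657x⟩, ⟨.ofNat 1, .ofNat 0, c696x⟩, ⟨.ofNat 0, .ofNat 1, c656x⟩⟩, [350, 499, 500, 501]⟩, ⟨c657x, c657x, c530x, c534x, c735x, c609x⟩⟩,
    ⟨⟨⟨⟨c382x, c384x, c359x, c385x⟩, ⟨.ofNat 0, .ofNat 0, c657x⟩, ⟨.ofNat 1, .ofNat 0, c696x⟩, ⟨.ofNat 0, .ofNat 1, c656x⟩⟩, [350, 496, 497, 498, 499, 500]⟩, ⟨c657x, c657x, c534x, c729x, c735x, c578x⟩⟩]) (.leaf ⟨c384x, c392x, c359x, c387x⟩ ⟨c14x, c657x, c20x, c655x, c735x, c648x⟩ [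
    ⟨⟨⟨⟨c384x, c386x, c359x, c387x⟩, ⟨.ofNat 0, .ofNat 0, c657x⟩, ⟨.ofNat 1, .ofNat 0, c696x⟩, ⟨.ofNat 0, .ofNat 1, c656x⟩⟩, [350, 495, 496, 497]⟩, ⟨c657x, c657x, c729x, c655x, c735x, c648x⟩⟩,
    ⟨⟨⟨⟨c371x, c389x, c359x, c390x⟩, ⟨.negSucc 0, .ofNat 0, c402x⟩, ⟨.ofNat 0, .ofNat 0, c655x⟩, ⟨.ofNat 0, .ofNat 1, c656x⟩⟩, [350, 483, 484, 485, 486]⟩, ⟨c528x, c22x, c655x, c655x, c735x, c376x⟩⟩,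
    ⟨⟨⟨⟨c378x, c391x, c359x, c387x⟩, ⟨.ofNat 0, .ofNat 0, c14x⟩, ⟨.negSucc 0, .ofNat 0, c697x⟩, ⟨.ofNat 0, .ofNat 1, c656x⟩⟩, [350, 468, 469, 470, 471, 472]⟩, ⟨c14x, c14x, c730x, c729x, c735x, c648x⟩⟩,
    ⟨⟨⟨⟨c391x, c392x, c359x, c381x⟩, ⟨.ofNat 0, .ofNat 0, c14x⟩, ⟨.negSucc 0, .ofNat 0, c697x⟩, ⟨.ofNat 0, .ofNat 1, c656x⟩⟩, [350, 351, 352, 467, 468, 469]⟩, ⟨c14x, c14x, c20x, c730x, c735x, c740x⟩⟩])))) (.node ⟨c386x, c419x, c359x, c412x⟩ ⟨c14x, c657x, c14x, c655x, c735x, c741x⟩ (.node ⟨c386x, c410x, c359x, c404x⟩ ⟨c14x, c657x, c14x, c655x, c735x, c724x⟩ (.node ⟨c386x, c698x, c359x, c404x⟩ ⟨c14x, c657x, c14x, c655x, c735x, c724x⟩ (.leaf ⟨c386x, c697x, c359x, c404x⟩ ⟨c14x, c657x, c14x, c655x, c735x,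 c724x⟩ [
    ⟨⟨⟨⟨c386x, c373x, c359x, c388x⟩, ⟨.negSucc 0, .ofNat 0, c402x⟩, ⟨.ofNat 0, .ofNat 0, c655x⟩, ⟨.ofNat 0, .ofNat 1, c656x⟩⟩, [350, 490, 491, 492, 494, 495, 496]⟩, ⟨c758x, c657x, c655x, c655x, c735x, c381x⟩⟩,
    ⟨⟨⟨⟨c389x, c377x, c359x, c393x⟩, ⟨.negSucc 0, .ofNat 0, c402x⟩, ⟨.ofNat 0, .ofNat 0, c655x⟩, ⟨.ofNat 0, .ofNat 1, c656x⟩⟩, [350, 472, 473, 474, 478, 482, 483, 484]⟩, ⟨c649x, c528x, c655x, c655x, c735x, c387x⟩⟩,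
    ⟨⟨⟨⟨c392x, c697x, c361x, c404x⟩, ⟨.ofNat 0, .ofNat 0, c14x⟩, ⟨.negSucc 0, .ofNat 0, c697x⟩, ⟨.ofNat 0, .ofNat 1, c656x⟩⟩, [351, 352, 466, 467, 468]⟩, ⟨c14x, c14x, c14x, c20x, c721x, c724x⟩⟩]) (.leaf ⟨c373x, c698x, c361x, c404x⟩ ⟨c14x, c657x, c14x, c655x, c721x, c724x⟩ [
    ⟨⟨⟨⟨c373x, c398x, c396x, c388x⟩, ⟨.negSucc 0, .ofNat 0, c402x⟩, ⟨.ofNat 0, .ofNat 0, c655x⟩, ⟨.ofNat 0, .ofNat 1, c656x⟩⟩, [491, 492, 493, 494]⟩, ⟨c756x, c758x, c655x, c655x, c612x, c381x⟩⟩,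
    ⟨⟨⟨⟨c377x, c401x, c383x, c393x⟩, ⟨.negSucc 0, .ofNat 0, c402x⟩, ⟨.ofNat 0, .ofNat 0, c655x⟩, ⟨.ofNat 0, .ofNat 1, c656x⟩⟩, [473, 474, 475, 476, 478]⟩, ⟨c21x, c649x, c655x, c655x, c609x, c387x⟩⟩,
    ⟨⟨⟨⟨c697x, c698x, c361x, c404x⟩, ⟨.ofNat 1, .ofNat 0, c699x⟩, ⟨.ofNat 0, .ofNat 0, c14x⟩, ⟨.ofNat 0, .ofNat 1, c656x⟩⟩, [352, 466]⟩, ⟨c14x, c657x, c14x, c14x, c721x, c724x⟩⟩])) (.node ⟨c698x, c410x, c361x, c404x⟩ ⟨c14x, c657x, c14x, c655x, c721x, c724x⟩ (.leaf ⟨c698x, c395x, c361x, c404x⟩ ⟨c37x, c657x, c14x, c655x, c721x, c724x⟩ [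
    ⟨⟨⟨⟨c698x, c403x, c361x, c404x⟩, ⟨.ofNat 0, .ofNat 0, c657x⟩, ⟨.ofNat 1, .ofNat 0, c700x⟩, ⟨.ofNat 0, .ofNat 1, c656x⟩⟩, [352, 353, 354, 465, 466]⟩, ⟨c657x, c657x, c14x, c742x, c721x, c724x⟩⟩,
    ⟨⟨⟨⟨c405x, c406x, c375x, c396x⟩, ⟨.negSucc 0, .ofNat 0, c410x⟩, ⟨.ofNat 0, .ofNat 0, c655x⟩, ⟨.ofNat 0, .ofNat 1, c656x⟩⟩, [363, 364, 365, 366]⟩, ⟨c756x, c758x, c655x, c655x, c783x, c612x⟩⟩,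
    ⟨⟨⟨⟨c394x, c395x, c376x, c396x⟩, ⟨.negSucc 0, .ofNat 0, c410x⟩, ⟨.ofNat 0, .ofNat 0, c655x⟩, ⟨.ofNat 0, .ofNat 1, c656x⟩⟩, [368, 369, 374, 375]⟩, ⟨c37x, c533x, c655x, c655x, c781x, c612x⟩⟩]) (.leaf ⟨c395x, c410x, c372x, c388x⟩ ⟨c14x, c37x, c655x, c655x, c780x, c381x⟩ [
    ⟨⟨⟨⟨c395x, c397x, c372x, c396x⟩, ⟨.negSucc 0, .ofNat 0, c410x⟩, ⟨.ofNat 0, .ofNat 0, c655x⟩, ⟨.ofNat 0, .ofNat 1, c656x⟩⟩, [368, 369, 370, 371, 372, 374]⟩, ⟨c22x, c37x, c655x, c655x, c780x, c612x⟩⟩,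
    ⟨⟨⟨⟨c397x, c407x, c390x, c396x⟩, ⟨.negSucc 0, .ofNat 0, c410x⟩, ⟨.ofNat 0, .ofNat 0, c655x⟩, ⟨.ofNat 0, .ofNat 1, c656x⟩⟩, [371, 372, 373, 374]⟩, ⟨c528x, c22x, c655x, c655x, c376x, c612x⟩⟩,
    ⟨⟨⟨⟨c408x, c409x, c379x, c383x⟩, ⟨.negSucc 0, .ofNat 0, c410x⟩, ⟨.ofNat 0, .ofNat 0, c655x⟩, ⟨.ofNat 0, .ofNat 1, c656x⟩⟩, [381, 382, 383, 384]⟩, ⟨c21x, c649x, c655x, c655x, c613x, c609x⟩⟩,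
    ⟨⟨⟨⟨c409x, c410x, c379x, c388x⟩, ⟨.negSucc 0, .ofNat 0, c410x⟩, ⟨.ofNat 0, .ofNat 0, c655x⟩, ⟨.ofNat 0, .ofNat 1, c656x⟩⟩, [379, 380, 381, 382, 384]⟩, ⟨c14x, c21x, c655x, c655x, c613x, c381x⟩⟩]))) (.node ⟨c399x, c419x, c376x, c412x⟩ ⟨c14x, c657x, c742x, c655x, c781x, c741x⟩ (.node ⟨c399x, c417x, c383x, c412x⟩ ⟨c14x, c657x, c742x, c655x, c609x, c741x⟩ (.leaf ⟨c399x, c402x, c396x, c400x⟩ ⟨c14x, c533x, c655x, c655x, c612x, c782x⟩ [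
    ⟨⟨⟨⟨c399x, c370x, c396x, c400x⟩, ⟨.negSucc 0, .ofNat 0, c402x⟩, ⟨.ofNat 0, .ofNat 0, c655x⟩, ⟨.ofNat 0, .ofNat 1, c656x⟩⟩, [478, 479, 480, 481, 482]⟩, ⟨c37x, c533x, c655x, c655x, c612x, c782x⟩⟩,
    ⟨⟨⟨⟨c370x, c389x, c396x, c393x⟩, ⟨.negSucc 0, .ofNat 0, c402x⟩, ⟨.ofNat 0, .ofNat 0, c655x⟩, ⟨.ofNat 0, .ofNat 1, c656x⟩⟩, [478, 479, 482, 483]⟩, ⟨c528x, c37x, c655x, c655x, c612x, c387x⟩⟩,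
    ⟨⟨⟨⟨c401x, c402x, c388x, c393x⟩, ⟨.negSucc 0, .ofNat 0, c402x⟩, ⟨.ofNat 0, .ofNat 0, c655x⟩, ⟨.ofNat 0, .ofNat 1, c656x⟩⟩, [475, 476, 477, 478]⟩, ⟨c14x, c21x, c655x, c655x, c381x, c387x⟩⟩]) (.leaf ⟨c403x, c417x, c383x, c412x⟩ ⟨c657x, c657x, c742x, c655x, c609x, c741x⟩ [
    ⟨⟨⟨⟨c403x, c414x, c381x, c412x⟩, ⟨.ofNat 0, .ofNat 0, c657x⟩, ⟨.ofNat 1, .ofNat 0, c700x⟩, ⟨.ofNat 0, .ofNat 1, c656x⟩⟩, [353, 354, 355, 464, 465, 466]⟩, ⟨c657x, c657x, c742x, c530x, c740x, c741x⟩⟩,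
    ⟨⟨⟨⟨c414x, c415x, c383x, c412x⟩, ⟨.ofNat 0, .ofNat 0, c657x⟩, ⟨.ofNat 1, .ofNat 0, c700x⟩, ⟨.ofNat 0, .ofNat 1, c656x⟩⟩, [354, 355, 356, 357, 358, 464]⟩, ⟨c657x, c657x, c530x, c534x, c609x, c741x⟩⟩,
    ⟨⟨⟨⟨c415x, c416x, c385x, c412x⟩, ⟨.ofNat 0, .ofNat 0, c657x⟩, ⟨.ofNat 1, .ofNat 0, c700x⟩, ⟨.ofNat 0, .ofNat 1, c656x⟩⟩, [357, 358, 359, 464]⟩, ⟨c657x, c657x, c534x, c729x, c578x, c741x⟩⟩,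
    ⟨⟨⟨⟨c416x, c417x, c387x, c412x⟩, ⟨.ofNat 0, .ofNat 0, c657x⟩, ⟨.ofNat 1, .ofNat 0, c700x⟩, ⟨.ofNat 0, .ofNat 1, c656x⟩⟩, [358, 359, 360, 361, 362, 464]⟩, ⟨c657x, c657x, c729x, c655x, c648x, c741x⟩⟩])) (.node ⟨c417x, c419x, c376x, c412x⟩ ⟨c14x, c657x, c20x, c655x, c781x, c741x⟩ (.leaf ⟨c417x, c394x, c376x, c412x⟩ ⟨c533x, c657x, c655x, c655x, c781x, c741x⟩ [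
    ⟨⟨⟨⟨c411x, c394x, c376x, c412x⟩, ⟨.negSucc 0, .ofNat 0, c410x⟩, ⟨.ofNat 0, .ofNat 0, c655x⟩, ⟨.ofNat 0, .ofNat 1, c656x⟩⟩, [366, 367, 368, 374, 375, 376, 464]⟩, ⟨c533x, c753x, c655x, c655x, c781x, c741x⟩⟩,
    ⟨⟨⟨⟨c406x, c411x, c375x, c412x⟩, ⟨.negSucc 0, .ofNat 0, c410x⟩, ⟨.ofNat 0, .ofNat 0, c655x⟩, ⟨.ofNat 0, .ofNat 1, c656x⟩⟩, [362, 363, 364, 366, 367, 464]⟩, ⟨c753x, c756x, c655x, c655x, c783x, c741x⟩⟩,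
    ⟨⟨⟨⟨c417x, c406x, c388x, c412x⟩, ⟨.negSucc 0, .ofNat 0, c410x⟩, ⟨.ofNat 0, .ofNat 0, c655x⟩, ⟨.ofNat 0, .ofNat 1, c656x⟩⟩, [361, 362, 363, 464]⟩, ⟨c756x, c657x, c655x, c655x, c381x, c741x⟩⟩]) (.leaf ⟨c395x, c419x, c379x, c412x⟩ ⟨c14x, c37x, c20x, c655x, c613x, c741x⟩ [
    ⟨⟨⟨⟨c410x, c413x, c379x, c412x⟩, ⟨.ofNat 0, .ofNat 0, c14x⟩, ⟨.negSucc 0, .ofNat 0, c429x⟩, ⟨.ofNat 0, .ofNat 1, c656x⟩⟩, [378, 379, 380, 384, 385, 386, 464]⟩, ⟨c14x, c14x, c729x, c655x, c613x, c741x⟩⟩,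
    ⟨⟨⟨⟨c395x, c410x, c393x, c412x⟩, ⟨.negSucc 0, .ofNat 0, c410x⟩, ⟨.ofNat 0, .ofNat 0, c655x⟩, ⟨.ofNat 0, .ofNat 1, c656x⟩⟩, [376, 377, 378, 379, 464]⟩, ⟨c14x, c37x, c655x, c655x, c387x, c741x⟩⟩,
    ⟨⟨⟨⟨c413x, c418x, c387x, c412x⟩, ⟨.ofNat 0, .ofNat 0, c14x⟩, ⟨.negSucc 0, .ofNat 0, c429x⟩, ⟨.ofNat 0, .ofNat 1, c656x⟩⟩, [385, 386, 387, 464]⟩, ⟨c14x, c14x, c730x, c729x, c648x, c741x⟩⟩,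
    ⟨⟨⟨⟨c418x, c419x, c381x, c412x⟩, ⟨.ofNat 0, .ofNat 0, c14x⟩, ⟨.negSucc 0, .ofNat 0, c429x⟩, ⟨.ofNat 0, .ofNat 1, c656x⟩⟩, [386, 387, 388, 389, 390, 463, 464]⟩, ⟨c14x, c14x, c20x, c730x, c740x, c741x⟩⟩]))))

def n111x : QT :=
  .node ⟨c394x, c461x, c400x, c452x⟩ ⟨c14x, c657x, c14x, c655x, c782x, c704x⟩ (.node ⟨c394x, c461x, c400x, c428x⟩ ⟨c14x, c657x, c14x, c655x, c782x, c704x⟩ (.node ⟨c394x, c439x, c400x, c432x⟩ ⟨c14x, c657x, c14x, c655x, c782x, c704x⟩ (.node ⟨c394x, c435x, c400x, c432x⟩ ⟨c14x, c657x, c14x, c655x, c782x, c704x⟩ (.leaf ⟨c394x, c435x, c400x, c436x⟩ ⟨c37x, c657x, c14x, c655x, c782x, c768x⟩ [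
    ⟨⟨⟨⟨c394x, c395x, c400x, c412x⟩, ⟨.negSucc 0, .ofNat 0, c410x⟩, ⟨.ofNat 0, .ofNat 0, c655x⟩, ⟨.ofNat 0, .ofNat 1, c656x⟩⟩, [375, 376, 377, 464]⟩, ⟨c37x, c533x, c655x, c655x, c782x, c741x⟩⟩,
    ⟨⟨⟨⟨c420x, c421x, c404x, c422x⟩, ⟨.ofNat 1, .ofNat 0, c701x⟩, ⟨.ofNat 0, .ofNat 0, c14x⟩, ⟨.ofNat 0, .ofNat 1, c656x⟩⟩, [390, 439, 440, 441]⟩, ⟨c752x, c753x, c14x, c14x, c724x, c767x⟩⟩,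
    ⟨⟨⟨⟨c421x, c435x, c404x, c436x⟩, ⟨.ofNat 1, .ofNat 0, c701x⟩, ⟨.ofNat 0, .ofNat 0, c14x⟩, ⟨.ofNat 0, .ofNat 1, c656x⟩⟩, [390, 437, 438, 439, 440]⟩, ⟨c753x, c657x, c14x, c14x, c724x, c768x⟩⟩]) (.leaf ⟨c419x, c427x, c404x, c432x⟩ ⟨c14x, c14x, c529x, c20x, c724x, c704x⟩ [
    ⟨⟨⟨⟨c419x, c423x, c404x, c432x⟩, ⟨.ofNat 0, .ofNat 0, c14x⟩, ⟨.negSucc 0, .ofNat 0, c429x⟩, ⟨.ofNat 0, .ofNat 1, c656x⟩⟩, [389, 390, 463, 464]⟩, ⟨c14x, c14x, c712x, c20x, c724x, c704x⟩⟩,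
    ⟨⟨⟨⟨c423x, c425x, c404x, c432x⟩, ⟨.ofNat 0, .ofNat 0, c14x⟩, ⟨.negSucc 0, .ofNat 0, c429x⟩, ⟨.ofNat 0, .ofNat 1, c656x⟩⟩, [390]⟩, ⟨c14x, c14x, c527x, c712x, c724x, c704x⟩⟩,
    ⟨⟨⟨⟨c425x, c427x, c404x, c432x⟩, ⟨.ofNat 0, .ofNat 0, c14x⟩, ⟨.negSucc 0, .ofNat 0, c429x⟩, ⟨.ofNat 0, .ofNat 1, c656x⟩⟩, [390]⟩, ⟨c14x, c14x, c529x, c527x, c724x, c704x⟩⟩])) (.node ⟨c427x, c439x, c404x, c432x⟩ ⟨c14x, c657x, c14x, c742x, c724x, c704x⟩ (.leaf ⟨c427x, c433x, c404x, c432x⟩ ⟨c14x, c37x, c14x, c529x, c724x, c704x⟩ [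
    ⟨⟨⟨⟨c427x, c429x, c404x, c432x⟩, ⟨.ofNat 0, .ofNat 0, c14x⟩, ⟨.negSucc 0, .ofNat 0, c429x⟩, ⟨.ofNat 0, .ofNat 1, c656x⟩⟩, [390, 454, 455]⟩, ⟨c14x, c14x, c14x, c529x, c724x, c704x⟩⟩,
    ⟨⟨⟨⟨c429x, c431x, c404x, c432x⟩, ⟨.ofNat 1, .ofNat 0, c701x⟩, ⟨.ofNat 0, .ofNat 0, c14x⟩, ⟨.ofNat 0, .ofNat 1, c656x⟩⟩, [390, 453, 454, 455]⟩, ⟨c14x, c528x, c14x, c14x, c724x, c704x⟩⟩,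
    ⟨⟨⟨⟨c431x, c433x, c404x, c432x⟩, ⟨.ofNat 1, .ofNat 0, c701x⟩, ⟨.ofNat 0, .ofNat 0, c14x⟩, ⟨.ofNat 0, .ofNat 1, c656x⟩⟩, [390, 453, 454]⟩, ⟨c528x, c37x, c14x, c14x, c724x, c704x⟩⟩]) (.leaf ⟨c433x, c439x, c404x, c432x⟩ ⟨c37x, c657x, c14x, c742x, c724x, c704x⟩ [
    ⟨⟨⟨⟨c433x, c420x, c404x, c432x⟩, ⟨.ofNat 1, .ofNat 0, c701x⟩, ⟨.ofNat 0, .ofNat 0, c14x⟩, ⟨.ofNat 0, .ofNat 1, c656x⟩⟩, [390, 440, 441]⟩, ⟨c37x, c752x, c14x, c14x, c724x, c704x⟩⟩,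
    ⟨⟨⟨⟨c435x, c437x, c404x, c432x⟩, ⟨.ofNat 0, .ofNat 0, c657x⟩, ⟨.ofNat 1, .ofNat 0, c702x⟩, ⟨.ofNat 0, .ofNat 1, c656x⟩⟩, [390, 436, 437, 438]⟩, ⟨c657x, c657x, c14x, c529x, c724x, c704x⟩⟩,
    ⟨⟨⟨⟨c437x, c438x, c404x, c432x⟩, ⟨.ofNat 0, .ofNat 0, c657x⟩, ⟨.ofNat 1, .ofNat 0, c702x⟩, ⟨.ofNat 0, .ofNat 1, c656x⟩⟩, [390]⟩, ⟨c657x, c657x, c529x, c743x, c724x, c704x⟩⟩,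
    ⟨⟨⟨⟨c438x, c439x, c404x, c432x⟩, ⟨.ofNat 0, .ofNat 0, c657x⟩, ⟨.ofNat 1, .ofNat 0, c702x⟩, ⟨.ofNat 0, .ofNat 1, c656x⟩⟩, [390, 391, 392]⟩, ⟨c657x, c657x, c743x, c742x, c724x, c704x⟩⟩]))) (.node ⟨c425x, c461x, c412x, c428x⟩ ⟨c14x, c657x, c529x, c655x, c741x, c704x⟩ (.node ⟨c425x, c448x, c412x, c428x⟩ ⟨c14x, c657x, c529x, c655x, c741x, c704x⟩ (.leaf ⟨c425x, c445x, c412x, c428x⟩ ⟨c14x, c657x, c529x, c534x, c741x, c704x⟩ [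
    ⟨⟨⟨⟨c439x, c444x, c412x, c432x⟩, ⟨.ofNat 0, .ofNat 0, c657x⟩, ⟨.ofNat 1, .ofNat 0, c702x⟩, ⟨.ofNat 0, .ofNat 1, c656x⟩⟩, [391, 392]⟩, ⟨c657x, c657x, c742x, c530x, c741x, c704x⟩⟩,
    ⟨⟨⟨⟨c444x, c445x, c412x, c432x⟩, ⟨.ofNat 0, .ofNat 0, c657x⟩, ⟨.ofNat 1, .ofNat 0, c702x⟩, ⟨.ofNat 0, .ofNat 1, c656x⟩⟩, [392]⟩, ⟨c657x, c657x, c530x, c534x, c741x, c704x⟩⟩,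
    ⟨⟨⟨⟨c425x, c427x, c432x, c428x⟩, ⟨.ofNat 0, .ofNat 1, c703x⟩, ⟨.negSucc 0, .ofNat 0, c429x⟩, ⟨.ofNat 0, .ofNat 0, c704x⟩⟩, [457, 458, 459]⟩, ⟨c14x, c649x, c529x, c527x, c704x, c704x⟩⟩]) (.leaf ⟨c445x, c448x, c412x, c428x⟩ ⟨c756x, c657x, c534x, c655x, c741x, c704x⟩ [
    ⟨⟨⟨⟨c445x, c446x, c412x, c432x⟩, ⟨.ofNat 0, .ofNat 0, c657x⟩, ⟨.ofNat 1, .ofNat 0, c702x⟩, ⟨.ofNat 0, .ofNat 1, c656x⟩⟩, [392]⟩, ⟨c657x, c657x, c534x, c729x, c741x, c704x⟩⟩,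
    ⟨⟨⟨⟨c446x, c447x, c412x, c432x⟩, ⟨.ofNat 0, .ofNat 0, c657x⟩, ⟨.ofNat 1, .ofNat 0, c702x⟩, ⟨.ofNat 0, .ofNat 1, c656x⟩⟩, [392, 420, 421]⟩, ⟨c657x, c657x, c729x, c655x, c741x, c704x⟩⟩,
    ⟨⟨⟨⟨c447x, c448x, c412x, c432x⟩, ⟨.negSucc 0, .ofNat 0, c458x⟩, ⟨.ofNat 0, .ofNat 0, c655x⟩, ⟨.ofNat 0, .ofNat 1, c656x⟩⟩, [392, 419, 420, 421]⟩, ⟨c756x, c657x, c655x, c655x, c741x, c704x⟩⟩,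
    ⟨⟨⟨⟨c445x, c446x, c432x, c428x⟩, ⟨.ofNat 0, .negSucc 0, c705x⟩, ⟨.ofNat 1, .ofNat 0, c702x⟩, ⟨.ofNat 0, .ofNat 0, c704x⟩⟩, [423, 424, 425]⟩, ⟨c758x, c657x, c534x, c729x, c704x, c704x⟩⟩])) (.node ⟨c448x, c461x, c412x, c432x⟩ ⟨c14x, c756x, c20x, c655x, c741x, c704x⟩ (.leaf ⟨c448x, c443x, c412x, c432x⟩ ⟨c37x, c756x, c655x, c655x, c741x, c704x⟩ [
    ⟨⟨⟨⟨c448x, c457x, c412x, c432x⟩, ⟨.negSucc 0, .ofNat 0, c458x⟩, ⟨.ofNat 0, .ofNat 0, c655x⟩, ⟨.ofNat 0, .ofNat 1, c656x⟩⟩, [392, 419, 420]⟩, ⟨c753x, c756x, c655x, c655x, c741x, c704x⟩⟩,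
    ⟨⟨⟨⟨c457x, c442x, c412x, c432x⟩, ⟨.negSucc 0, .ofNat 0, c458x⟩, ⟨.ofNat 0, .ofNat 0, c655x⟩, ⟨.ofNat 0, .ofNat 1, c656x⟩⟩, [392, 406, 407]⟩, ⟨c533x, c753x, c655x, c655x, c741x, c704x⟩⟩,
    ⟨⟨⟨⟨c442x, c443x, c412x, c422x⟩, ⟨.negSucc 0, .ofNat 0, c458x⟩, ⟨.ofNat 0, .ofNat 0, c655x⟩, ⟨.ofNat 0, .ofNat 1, c656x⟩⟩, [392, 405, 406, 407]⟩, ⟨c37x, c533x, c655x, c655x, c741x, c767x⟩⟩]) (.leaf ⟨c443x, c461x, c412x, c432x⟩ ⟨c14x, c37x, c20x, c655x, c741x, c704x⟩ [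
    ⟨⟨⟨⟨c443x, c458x, c412x, c436x⟩, ⟨.negSucc 0, .ofNat 0, c458x⟩, ⟨.ofNat 0, .ofNat 0, c655x⟩, ⟨.ofNat 0, .ofNat 1, c656x⟩⟩, [392, 403, 404, 405, 406]⟩, ⟨c14x, c37x, c655x, c655x, c741x, c768x⟩⟩,
    ⟨⟨⟨⟨c458x, c459x, c412x, c432x⟩, ⟨.ofNat 0, .ofNat 0, c14x⟩, ⟨.negSucc 0, .ofNat 0, c706x⟩, ⟨.ofNat 0, .ofNat 1, c656x⟩⟩, [392, 402, 403, 404]⟩, ⟨c14x, c14x, c729x, c655x, c741x, c704x⟩⟩,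
    ⟨⟨⟨⟨c459x, c460x, c412x, c432x⟩, ⟨.ofNat 0, .ofNat 0, c14x⟩, ⟨.negSucc 0, .ofNat 0, c706x⟩, ⟨.ofNat 0, .ofNat 1, c656x⟩⟩, [392]⟩, ⟨c14x, c14x, c730x, c729x, c741x, c704x⟩⟩,
    ⟨⟨⟨⟨c460x, c461x, c412x, c432x⟩, ⟨.ofNat 0, .ofNat 0, c14x⟩, ⟨.negSucc 0, .ofNat 0, c706x⟩, ⟨.ofNat 0, .ofNat 1, c656x⟩⟩, [392, 393]⟩, ⟨c14x, c14x, c20x, c730x, c741x, c704x⟩⟩])))) (.node ⟨c419x, c461x, c432x, c452x⟩ ⟨c14x, c657x, c14x, c655x, c767x, c704x⟩ (.node ⟨c419x, c439x, c432x, c452x⟩ ⟨c14x, c657x, c14x, c20x, c767x, c704x⟩ (.node ⟨c419x, c421x, c432x, c440x⟩ ⟨c14x, c753x, c14x, c20x, c704x, c704x⟩ (.leaf ⟨c419x, c429x, c432x, c426x⟩ ⟨c14x, c37x, c14x, c20x, c704x, c704x⟩ [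
    ⟨⟨⟨⟨c419x, c423x, c432x, c424x⟩, ⟨.ofNat 0, .ofNat 1, c703x⟩, ⟨.negSucc 0, .ofNat 0, c429x⟩, ⟨.ofNat 0, .ofNat 0, c704x⟩⟩, [461, 462, 463]⟩, ⟨c14x, c22x, c712x, c20x, c704x, c704x⟩⟩,
    ⟨⟨⟨⟨c423x, c425x, c432x, c426x⟩, ⟨.ofNat 0, .ofNat 1, c703x⟩, ⟨.negSucc 0, .ofNat 0, c429x⟩, ⟨.ofNat 0, .ofNat 0, c704x⟩⟩, [458, 459, 460, 461, 462]⟩, ⟨c14x, c37x, c527x, c712x, c704x, c704x⟩⟩,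
    ⟨⟨⟨⟨c427x, c429x, c432x, c430x⟩, ⟨.ofNat 0, .ofNat 1, c703x⟩, ⟨.negSucc 0, .ofNat 0, c429x⟩, ⟨.ofNat 0, .ofNat 0, c704x⟩⟩, [454, 455, 456, 457, 458]⟩, ⟨c14x, c528x, c14x, c529x, c704x, c704x⟩⟩]) (.leaf ⟨c449x, c421x, c432x, c440x⟩ ⟨c649x, c753x, c14x, c784x, c704x, c704x⟩ [
    ⟨⟨⟨⟨c449x, c431x, c450x, c434x⟩, ⟨.ofNat 1, .ofNat 0, c701x⟩, ⟨.ofNat 0, .ofNat 1, c703x⟩, ⟨.ofNat 0, .ofNat 0, c704x⟩⟩, [450, 451, 452, 453]⟩, ⟨c649x, c528x, c529x, c527x, c704x, c704x⟩⟩,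
    ⟨⟨⟨⟨c431x, c433x, c432x, c434x⟩, ⟨.ofNat 1, .ofNat 0, c701x⟩, ⟨.ofNat 0, .ofNat 1, c703x⟩, ⟨.ofNat 0, .ofNat 0, c704x⟩⟩, [449, 450, 452, 453, 454]⟩, ⟨c528x, c37x, c14x, c527x, c704x, c704x⟩⟩,
    ⟨⟨⟨⟨c433x, c420x, c432x, c440x⟩, ⟨.ofNat 1, .ofNat 0, c701x⟩, ⟨.ofNat 0, .ofNat 1, c703x⟩, ⟨.ofNat 0, .ofNat 0, c704x⟩⟩, [441, 442, 448, 449, 450]⟩, ⟨c37x, c752x, c14x, c784x, c704x, c704x⟩⟩,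
    ⟨⟨⟨⟨c420x, c421x, c450x, c440x⟩, ⟨.ofNat 1, .ofNat 0, c701x⟩, ⟨.ofNat 0, .ofNat 1, c703x⟩, ⟨.ofNat 0, .ofNat 0, c704x⟩⟩, [441, 442, 447, 448]⟩, ⟨c752x, c753x, c529x, c784x, c704x, c704x⟩⟩])) (.node ⟨c421x, c439x, c432x, c452x⟩ ⟨c752x, c657x, c14x, c530x, c767x, c704x⟩ (.leaf ⟨c421x, c455x, c450x, c452x⟩ ⟨c752x, c756x, c14x, c530x, c767x, c704x⟩ [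
    ⟨⟨⟨⟨c421x, c451x, c450x, c452x⟩, ⟨.ofNat 1, .ofNat 0, c701x⟩, ⟨.ofNat 0, .ofNat 1, c703x⟩, ⟨.ofNat 0, .ofNat 0, c704x⟩⟩, [442, 444, 445, 446, 447, 448]⟩, ⟨c753x, c652x, c529x, c530x, c704x, c704x⟩⟩,
    ⟨⟨⟨⟨c451x, c453x, c450x, c454x⟩, ⟨.ofNat 1, .ofNat 0, c701x⟩, ⟨.ofNat 0, .ofNat 1, c703x⟩, ⟨.ofNat 0, .ofNat 0, c704x⟩⟩, [442, 443, 444, 445]⟩, ⟨c652x, c756x, c529x, c743x, c704x, c704x⟩⟩,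
    ⟨⟨⟨⟨c456x, c455x, c426x, c441x⟩, ⟨.ofNat 0, .negSucc 0, c705x⟩, ⟨.ofNat 0, .ofNat 0, c14x⟩, ⟨.ofNat 1, .ofNat 0, c707x⟩⟩, [432, 433, 434, 435]⟩, ⟨c752x, c753x, c14x, c14x, c767x, c768x⟩⟩]) (.leaf ⟨c455x, c439x, c432x, c441x⟩ ⟨c752x, c657x, c14x, c742x, c768x, c704x⟩ [
    ⟨⟨⟨⟨c455x, c435x, c432x, c441x⟩, ⟨.ofNat 0, .negSucc 0, c705x⟩, ⟨.ofNat 0, .ofNat 0, c14x⟩, ⟨.ofNat 1, .ofNat 0, c707x⟩⟩, [432, 434, 435, 436, 437]⟩, ⟨c752x, c657x, c14x, c14x, c768x, c704x⟩⟩,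
    ⟨⟨⟨⟨c435x, c437x, c432x, c441x⟩, ⟨.ofNat 0, .negSucc 0, c705x⟩, ⟨.ofNat 1, .ofNat 0, c702x⟩, ⟨.ofNat 0, .ofNat 0, c704x⟩⟩, [430, 431, 432, 436, 437]⟩, ⟨c752x, c657x, c14x, c529x, c704x, c704x⟩⟩,
    ⟨⟨⟨⟨c437x, c438x, c432x, c430x⟩, ⟨.ofNat 0, .negSucc 0, c705x⟩, ⟨.ofNat 1, .ofNat 0, c702x⟩, ⟨.ofNat 0, .ofNat 0, c704x⟩⟩, [429, 430, 431]⟩, ⟨c756x, c657x, c529x, c743x, c704x, c704x⟩⟩,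
    ⟨⟨⟨⟨c438x, c439x, c432x, c424x⟩, ⟨.ofNat 0, .negSucc 0, c705x⟩, ⟨.ofNat 1, .ofNat 0, c702x⟩, ⟨.ofNat 0, .ofNat 0, c704x⟩⟩, [428, 429, 430]⟩, ⟨c652x, c657x, c743x, c742x, c704x, c704x⟩⟩]))) (.node ⟨c439x, c461x, c432x, c452x⟩ ⟨c14x, c657x, c742x, c655x, c767x, c704x⟩ (.node ⟨c439x, c443x, c432x, c440x⟩ ⟨c37x, c657x, c742x, c655x, c704x, c704x⟩ (.leaf ⟨c439x, c447x, c432x, c426x⟩ ⟨c753x, c657x, c742x, c655x, c704x, c704x⟩ [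
    ⟨⟨⟨⟨c439x, c444x, c432x, c424x⟩, ⟨.ofNat 0, .negSucc 0, c705x⟩, ⟨.ofNat 1, .ofNat 0, c702x⟩, ⟨.ofNat 0, .ofNat 0, c704x⟩⟩, [427, 428]⟩, ⟨c652x, c657x, c742x, c530x, c704x, c704x⟩⟩,
    ⟨⟨⟨⟨c444x, c445x, c432x, c426x⟩, ⟨.ofNat 0, .negSucc 0, c705x⟩, ⟨.ofNat 1, .ofNat 0, c702x⟩, ⟨.ofNat 0, .ofNat 0, c704x⟩⟩, [424, 425, 426, 427, 428]⟩, ⟨c753x, c657x, c530x, c534x, c704x, c704x⟩⟩,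
    ⟨⟨⟨⟨c446x, c447x, c432x, c430x⟩, ⟨.ofNat 0, .negSucc 0, c705x⟩, ⟨.ofNat 1, .ofNat 0, c702x⟩, ⟨.ofNat 0, .ofNat 0, c704x⟩⟩, [420, 421, 422, 423, 424]⟩, ⟨c756x, c657x, c729x, c655x, c704x, c704x⟩⟩]) (.leaf ⟨c462x, c443x, c432x, c440x⟩ ⟨c37x, c758x, c784x, c655x, c704x, c704x⟩ [
    ⟨⟨⟨⟨c462x, c448x, c450x, c434x⟩, ⟨.negSucc 0, .ofNat 0, c458x⟩, ⟨.ofNat 0, .negSucc 0, c708x⟩, ⟨.ofNat 0, .ofNat 0, c704x⟩⟩, [416, 417, 418, 419]⟩, ⟨c756x, c758x, c534x, c729x, c704x, c704x⟩⟩,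
    ⟨⟨⟨⟨c448x, c457x, c432x, c434x⟩, ⟨.negSucc 0, .ofNat 0, c458x⟩, ⟨.ofNat 0, .negSucc 0, c708x⟩, ⟨.ofNat 0, .ofNat 0, c704x⟩⟩, [415, 416, 418, 419, 420]⟩, ⟨c753x, c756x, c534x, c655x, c704x, c704x⟩⟩,
    ⟨⟨⟨⟨c457x, c442x, c432x, c440x⟩, ⟨.negSucc 0, .ofNat 0, c458x⟩, ⟨.ofNat 0, .negSucc 0, c708x⟩, ⟨.ofNat 0, .ofNat 0, c704x⟩⟩, [407, 408, 414, 415, 416]⟩, ⟨c533x, c753x, c784x, c655x, c704x, c704x⟩⟩,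
    ⟨⟨⟨⟨c442x, c443x, c450x, c440x⟩, ⟨.negSucc 0, .ofNat 0, c458x⟩, ⟨.ofNat 0, .negSucc 0, c708x⟩, ⟨.ofNat 0, .ofNat 0, c704x⟩⟩, [407, 408, 413, 414]⟩, ⟨c37x, c533x, c784x, c729x, c704x, c704x⟩⟩])) (.node ⟨c443x, c461x, c432x, c452x⟩ ⟨c14x, c533x, c712x, c655x, c767x, c704x⟩ (.leaf ⟨c443x, c465x, c450x, c452x⟩ ⟨c528x, c533x, c712x, c655x, c767x, c704x⟩ [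
    ⟨⟨⟨⟨c443x, c463x, c450x, c452x⟩, ⟨.negSucc 0, .ofNat 0, c458x⟩, ⟨.ofNat 0, .negSucc 0, c708x⟩, ⟨.ofNat 0, .ofNat 0, c704x⟩⟩, [408, 410, 411, 412, 413, 414]⟩, ⟨c22x, c37x, c712x, c729x, c704x, c704x⟩⟩,
    ⟨⟨⟨⟨c463x, c464x, c450x, c454x⟩, ⟨.negSucc 0, .ofNat 0, c458x⟩, ⟨.ofNat 0, .negSucc 0, c708x⟩, ⟨.ofNat 0, .ofNat 0, c704x⟩⟩, [408, 409, 410, 411]⟩, ⟨c528x, c22x, c730x, c729x, c704x, c704x⟩⟩,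
    ⟨⟨⟨⟨c466x, c465x, c426x, c441x⟩, ⟨.ofNat 0, .ofNat 1, c703x⟩, ⟨.ofNat 0, .ofNat 0, c655x⟩, ⟨.ofNat 1, .ofNat 0, c709x⟩⟩, [398, 399, 400, 401]⟩, ⟨c37x, c533x, c655x, c655x, c767x, c768x⟩⟩]) (.leaf ⟨c465x, c461x, c432x, c441x⟩ ⟨c14x, c533x, c20x, c655x, c768x, c704x⟩ [
    ⟨⟨⟨⟨c465x, c458x, c432x, c441x⟩, ⟨.ofNat 0, .ofNat 1, c703x⟩, ⟨.ofNat 0, .ofNat 0, c655x⟩, ⟨.ofNat 1, .ofNat 0, c709x⟩⟩, [398, 400, 401, 402, 403]⟩, ⟨c14x, c533x, c655x, c655x, c768x, c704x⟩⟩,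
    ⟨⟨⟨⟨c458x, c459x, c432x, c441x⟩, ⟨.ofNat 0, .ofNat 1, c703x⟩, ⟨.negSucc 0, .ofNat 0, c706x⟩, ⟨.ofNat 0, .ofNat 0, c704x⟩⟩, [396, 397, 398, 402, 403]⟩, ⟨c14x, c533x, c729x, c655x, c704x, c704x⟩⟩,
    ⟨⟨⟨⟨c459x, c460x, c432x, c430x⟩, ⟨.ofNat 0, .ofNat 1, c703x⟩, ⟨.negSucc 0, .ofNat 0, c706x⟩, ⟨.ofNat 0, .ofNat 0, c704x⟩⟩, [395, 396, 397]⟩, ⟨c14x, c528x, c730x, c729x, c704x, c704x⟩⟩,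
    ⟨⟨⟨⟨c460x, c461x, c432x, c424x⟩, ⟨.ofNat 0, .ofNat 1, c703x⟩, ⟨.negSucc 0, .ofNat 0, c706x⟩, ⟨.ofNat 0, .ofNat 0, c704x⟩⟩, [393, 394, 395, 396]⟩, ⟨c14x, c22x, c20x, c730x, c704x, c704x⟩⟩]))))

def n11x : QT :=
  .node ⟨c328x, c461x, c331x, c452x⟩ ⟨c14x, c657x, c14x, c655x, c769x, c704x⟩ (n110x) (n111x)

def n1x : QT :=
  .node ⟨c219x, c461x, c204x, c452x⟩ ⟨c14x, c657x, c14x, c655x, c710x, c704x⟩ (n10x) (n11x)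

def nx : QT :=
  .node ⟨c14x, c461x, c6x, c452x⟩ ⟨c14x, c657x, c14x, c655x, c14x, c704x⟩ (n0x) (n1x)

end Pool.Agent.Box4.TB
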