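import Pool.Agent.Box4.QtD
import Pool.Agent.Box4.Edges
set_option linter.all false
set_option autoImplicit false

namespace Pool.Agent.Box4

open Pool.Agent.Box3

theorem sD10y : TD.n10x.self exx = true := by decide +kernel

theorem sD11y : TD.n11x.self exx = true := by decide +kernel

theorem sD10_11y : TD.n10x.cross exx TD.n11x = true := by decide +kernel

theorem sD0_1y : TD.n0x.cross exx TD.n1x = true := by decide +kernel

end Pool.Agent.Box4
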