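import Pool.Agent.Box4.Poly
import Pool.Agent.Box3.FastP
set_option linter.all false
set_option autoImplicit false

namespace Pool.Agent.Box4

open Pool.Agent.Box3


def te : ET := .node ⟨c14x, c461x, c6x, c452x⟩ (.node ⟨c14x, c461x, c6x, c424x⟩ (.node ⟨c14x, c209x, c6x, c186x⟩ (.node ⟨c14x, c84x, c6x, c88x⟩ (.node ⟨c14x, c29x, c6x, c40x⟩ (.node ⟨c14x, c10x, c6x, c40x⟩ (.node ⟨c14x, c8x, c9x, c22x⟩ (.node ⟨c14x, c18x, c17x, c19x⟩ (.node ⟨c14x, c16x, c17x, c14x⟩ (.leaf (⟨c14x, c15x, c14x, c14x⟩, 0)) (.node ⟨c15x, c16x, c17x, c14x⟩ (.leaf (⟨c15x, c15x, c17x, c14x⟩, 1)) (.leaf (⟨c15x, c16x, c17x, c17x⟩, 2)))) (.node ⟨c16x, c18x, c17x, c19x⟩ (.leaf (⟨c16x, c16x, c17x, c19x⟩, 3)) (.node ⟨c16x, c18x, c21x, c19x⟩ (.leaf (⟨c16x, c18x, c19x, c19x⟩, 4)) (.leaf (⟨c18x, c18x, c21x, c19x⟩, 5))))) (.node ⟨c18x,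 c8x, c9x, c22x⟩ (.node ⟨c18x, c8x, c21x, c22x⟩ (.leaf (⟨c18x, c20x, c21x, c21x⟩, 6)) (.node ⟨c20x, c8x, c21x, c22x⟩ (.leaf (⟨c20x, c20x, c21x, c22x⟩, 7)) (.leaf (⟨c20x, c8x, c22x, c22x⟩, 8)))) (.node ⟨c7x, c8x, c9x, c22x⟩ (.leaf (⟨c8x, c8x, c4x, c22x⟩, 9)) (.node ⟨c7x, c8x, c9x, c4x⟩ (.leaf (⟨c7x, c8x, c4x, c4x⟩, 10)) (.leaf (⟨c7x, c7x, c9x, c4x⟩, 11)))))) (.node ⟨c7x, c10x, c6x, c40x⟩ (.node ⟨c7x, c5x, c6x, c11x⟩ (.node ⟨c7x, c2x, c3x, c9x⟩ (.leaf (⟨c7x, c12x, c9x, c9x⟩, 12)) (.node ⟨c12x, c2x, c3x, c9x⟩ (.leaf (⟨c12x, c12x, c3x, c9x⟩, 13)) (.leaf (⟨c12x, c2x, c3x, c3x⟩, 14)))) (.node ⟨c2x, c5x, c6x, c11x⟩ (.leaf (⟨c2x, c2x, c6x, c3x⟩, 15)) (.node ⟨c2x, c5x, c6x, c11x⟩ (.leaf (⟨c2x, c5x, c6x, c6x⟩, 16)) (.leaf (⟨c5x, c5x, c6x, c11x⟩, 17))))) (.node ⟨c1x, c10x, c11x, c40x⟩ (.node ⟨c1x, c10x, c11x,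 c4x⟩ (.leaf (⟨c5x, c10x, c11x, c11x⟩, 18)) (.node ⟨c1x, c10x, c11x, c4x⟩ (.leaf (⟨c10x, c10x, c11x, c4x⟩, 19)) (.leaf (⟨c1x, c10x, c4x, c4x⟩, 20)))) (.node ⟨c1x, c2x, c4x, c40x⟩ (.leaf (⟨c1x, c1x, c4x, c40x⟩, 21)) (.node ⟨c1x, c2x, c37x, c40x⟩ (.leaf (⟨c1x, c2x, c40x, c40x⟩, 22)) (.leaf (⟨c2x, c2x, c37x, c40x⟩, 23))))))) (.node ⟨c2x, c29x, c3x, c37x⟩ (.node ⟨c2x, c41x, c25x, c37x⟩ (.node ⟨c2x, c34x, c25x, c37x⟩ (.node ⟨c2x, c34x, c22x, c37x⟩ (.leaf (⟨c2x, c34x, c37x, c37x⟩, 24)) (.node ⟨c24x, c34x, c22x, c37x⟩ (.leaf (⟨c34x, c34x, c22x, c37x⟩, 25)) (.leaf (⟨c24x, c34x, c22x, c22x⟩, 26)))) (.node ⟨c23x, c24x, c25x, c22x⟩ (.leaf (⟨c24x, c24x, c17x, c22x⟩, 27)) (.node ⟨c23x, c24x, c25x, c17x⟩ (.leaf (⟨c23x, c24x, c17x, c17x⟩, 28)) (.leaf (⟨c23x, c23x, c25x, c17x⟩, 29))))) (.node ⟨c23x, c41x, c25x, c21x⟩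 (.node ⟨c23x, c38x, c25x, c21x⟩ (.leaf (⟨c23x, c36x, c25x, c25x⟩, 30)) (.node ⟨c36x, c38x, c25x, c21x⟩ (.leaf (⟨c36x, c36x, c25x, c21x⟩, 31)) (.leaf (⟨c36x, c38x, c21x, c21x⟩, 32)))) (.node ⟨c38x, c41x, c17x, c21x⟩ (.leaf (⟨c38x, c38x, c14x, c21x⟩, 33)) (.node ⟨c38x, c41x, c17x, c14x⟩ (.leaf (⟨c38x, c41x, c14x, c14x⟩, 34)) (.leaf (⟨c41x, c41x, c17x, c14x⟩, 35)))))) (.node ⟨c41x, c29x, c3x, c22x⟩ (.node ⟨c41x, c45x, c17x, c22x⟩ (.node ⟨c41x, c44x, c17x, c19x⟩ (.leaf (⟨c41x, c42x, c17x, c17x⟩, 36)) (.node ⟨c42x, c44x, c17x, c19x⟩ (.leaf (⟨c42x, c42x, c17x, c19x⟩, 37)) (.leaf (⟨c42x, c44x, c19x, c19x⟩, 38)))) (.node ⟨c44x, c45x, c21x, c22x⟩ (.leaf (⟨c44x, c44x, c21x, c19x⟩, 39)) (.node ⟨c44x, c45x, c21x, c22x⟩ (.leaf (⟨c44x, c45x, c21x, c21x⟩, 40)) (.leaf (⟨c45x, c45x, c21x, c22x⟩, 41))))) (.node ⟨c45x,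 c29x, c3x, c22x⟩ (.node ⟨c45x, c27x, c4x, c22x⟩ (.leaf (⟨c45x, c27x, c22x, c22x⟩, 42)) (.node ⟨c26x, c27x, c4x, c22x⟩ (.leaf (⟨c27x, c27x, c4x, c22x⟩, 43)) (.leaf (⟨c26x, c27x, c4x, c4x⟩, 44)))) (.node ⟨c26x, c29x, c3x, c4x⟩ (.node ⟨c26x, c46x, c9x, c4x⟩ (.leaf (⟨c26x, c26x, c9x, c4x⟩, 45)) (.leaf (⟨c26x, c46x, c9x, c9x⟩, 46))) (.node ⟨c46x, c29x, c3x, c9x⟩ (.leaf (⟨c46x, c46x, c3x, c9x⟩, 47)) (.leaf (⟨c46x, c29x, c3x, c3x⟩, 48)))))))) (.node ⟨c28x, c84x, c6x, c88x⟩ (.node ⟨c28x, c78x, c6x, c43x⟩ (.node ⟨c28x, c35x, c6x, c40x⟩ (.node ⟨c28x, c31x, c6x, c4x⟩ (.node ⟨c29x, c30x, c6x, c11x⟩ (.leaf (⟨c29x, c29x, c6x, c3x⟩, 49)) (.node ⟨c29x, c30x, c6x, c11x⟩ (.leaf (⟨c29x, c30x, c6x, c6x⟩, 50)) (.leaf (⟨c30x, c30x, c6x, c11x⟩, 51)))) (.node ⟨c28x, c31x, c11x, c4x⟩ (.leaf (⟨c30x, c31x, c11x, c11x⟩, 52))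 (.node ⟨c28x, c31x, c11x, c4x⟩ (.leaf (⟨c31x, c31x, c11x, c4x⟩, 53)) (.leaf (⟨c28x, c31x, c4x, c4x⟩, 54))))) (.node ⟨c28x, c35x, c4x, c40x⟩ (.node ⟨c28x, c29x, c4x, c40x⟩ (.leaf (⟨c28x, c28x, c4x, c40x⟩, 55)) (.node ⟨c28x, c29x, c37x, c40x⟩ (.leaf (⟨c28x, c29x, c40x, c40x⟩, 56)) (.leaf (⟨c29x, c29x, c37x, c40x⟩, 57)))) (.node ⟨c29x, c35x, c22x, c37x⟩ (.leaf (⟨c29x, c35x, c37x, c37x⟩, 58)) (.node ⟨c33x, c35x, c22x, c37x⟩ (.leaf (⟨c35x, c35x, c22x, c37x⟩, 59)) (.leaf (⟨c33x, c35x, c22x, c22x⟩, 60)))))) (.node ⟨c32x, c78x, c25x, c43x⟩ (.node ⟨c32x, c48x, c25x, c22x⟩ (.node ⟨c32x, c33x, c25x, c22x⟩ (.leaf (⟨c33x, c33x, c17x, c22x⟩, 61)) (.node ⟨c32x, c33x, c25x, c17x⟩ (.leaf (⟨c32x, c33x, c17x, c17x⟩, 62)) (.leaf (⟨c32x, c32x, c25x, c17x⟩, 63)))) (.node ⟨c32x, c48x, c25x, c21x⟩ (.leaf (⟨c32x, c47x, c25x,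 c25x⟩, 64)) (.node ⟨c47x, c48x, c25x, c21x⟩ (.leaf (⟨c47x, c47x, c25x, c21x⟩, 65)) (.leaf (⟨c47x, c48x, c21x, c21x⟩, 66))))) (.node ⟨c48x, c78x, c14x, c43x⟩ (.node ⟨c48x, c49x, c14x, c13x⟩ (.leaf (⟨c48x, c48x, c14x, c21x⟩, 67)) (.node ⟨c48x, c49x, c14x, c13x⟩ (.leaf (⟨c48x, c49x, c14x, c14x⟩, 68)) (.leaf (⟨c49x, c49x, c14x, c13x⟩, 69)))) (.node ⟨c49x, c78x, c13x, c43x⟩ (.leaf (⟨c49x, c69x, c13x, c13x⟩, 70)) (.node ⟨c69x, c78x, c13x, c43x⟩ (.leaf (⟨c69x, c69x, c13x, c43x⟩, 71)) (.leaf (⟨c69x, c78x, c43x, c43x⟩, 72))))))) (.node ⟨c78x, c84x, c43x, c88x⟩ (.node ⟨c78x, c81x, c43x, c63x⟩ (.node ⟨c78x, c93x, c43x, c63x⟩ (.node ⟨c78x, c90x, c43x, c63x⟩ (.leaf (⟨c78x, c78x, c43x, c62x⟩, 73)) (.node ⟨c78x, c90x, c62x, c63x⟩ (.leaf (⟨c78x, c90x, c62x, c62x⟩, 74)) (.leaf (⟨c90x, c90x, c62x, c63x⟩, 75)))) (.node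 ⟨c90x, c93x, c55x, c63x⟩ (.leaf (⟨c90x, c92x, c63x, c63x⟩, 76)) (.node ⟨c92x, c93x, c55x, c63x⟩ (.leaf (⟨c92x, c92x, c55x, c63x⟩, 77)) (.leaf (⟨c92x, c93x, c55x, c55x⟩, 78))))) (.node ⟨c93x, c81x, c58x, c64x⟩ (.node ⟨c93x, c94x, c58x, c64x⟩ (.leaf (⟨c93x, c93x, c55x, c64x⟩, 79)) (.node ⟨c93x, c94x, c58x, c64x⟩ (.leaf (⟨c93x, c94x, c64x, c64x⟩, 80)) (.leaf (⟨c94x, c94x, c58x, c64x⟩, 81)))) (.node ⟨c94x, c81x, c58x, c73x⟩ (.leaf (⟨c94x, c81x, c58x, c58x⟩, 82)) (.node ⟨c80x, c81x, c58x, c73x⟩ (.leaf (⟨c81x, c81x, c58x, c73x⟩, 83)) (.leaf (⟨c80x, c81x, c73x, c73x⟩, 84)))))) (.node ⟨c80x, c84x, c52x, c88x⟩ (.node ⟨c80x, c95x, c73x, c88x⟩ (.node ⟨c80x, c99x, c73x, c70x⟩ (.leaf (⟨c80x, c80x, c73x, c66x⟩, 85)) (.node ⟨c80x, c99x, c66x, c70x⟩ (.leaf (⟨c80x, c99x, c66x, c66x⟩, 86)) (.leaf (⟨c99x, c99x, c66x,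 c70x⟩, 87)))) (.node ⟨c99x, c95x, c70x, c88x⟩ (.leaf (⟨c99x, c83x, c70x, c70x⟩, 88)) (.node ⟨c83x, c95x, c70x, c88x⟩ (.leaf (⟨c83x, c83x, c70x, c88x⟩, 89)) (.leaf (⟨c83x, c95x, c88x, c88x⟩, 90))))) (.node ⟨c82x, c84x, c52x, c88x⟩ (.node ⟨c95x, c84x, c73x, c88x⟩ (.leaf (⟨c95x, c95x, c76x, c88x⟩, 91)) (.node ⟨c95x, c84x, c73x, c76x⟩ (.leaf (⟨c95x, c84x, c76x, c76x⟩, 92)) (.leaf (⟨c84x, c84x, c73x, c76x⟩, 93)))) (.node ⟨c82x, c84x, c52x, c73x⟩ (.node ⟨c82x, c84x, c52x, c73x⟩ (.leaf (⟨c82x, c84x, c73x, c73x⟩, 94)) (.leaf (⟨c82x, c82x, c52x, c73x⟩, 95))) (.node ⟨c82x, c83x, c52x, c60x⟩ (.leaf (⟨c82x, c83x, c52x, c52x⟩, 96)) (.leaf (⟨c83x, c83x, c52x, c60x⟩, 97))))))))) (.node ⟨c83x, c209x, c60x, c186x⟩ (.node ⟨c83x, c148x, c60x, c137x⟩ (.node ⟨c83x, c147x, c60x, c120x⟩ (.node ⟨c83x, c98x, c60x, c79x⟩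 (.node ⟨c83x, c86x, c60x, c71x⟩ (.node ⟨c83x, c86x, c60x, c58x⟩ (.leaf (⟨c83x, c86x, c60x, c60x⟩, 98)) (.node ⟨c85x, c86x, c60x, c58x⟩ (.leaf (⟨c86x, c86x, c60x, c58x⟩, 99)) (.leaf (⟨c85x, c86x, c58x, c58x⟩, 100)))) (.node ⟨c87x, c85x, c58x, c71x⟩ (.leaf (⟨c85x, c85x, c58x, c63x⟩, 101)) (.node ⟨c87x, c85x, c63x, c71x⟩ (.leaf (⟨c87x, c85x, c63x, c63x⟩, 102)) (.leaf (⟨c87x, c87x, c63x, c71x⟩, 103))))) (.node ⟨c87x, c98x, c64x, c79x⟩ (.node ⟨c87x, c97x, c64x, c71x⟩ (.leaf (⟨c87x, c96x, c71x, c71x⟩, 104)) (.node ⟨c96x, c97x, c64x, c71x⟩ (.leaf (⟨c96x, c96x, c64x, c71x⟩, 105)) (.leaf (⟨c96x, c97x, c64x, c64x⟩, 106)))) (.node ⟨c97x, c98x, c64x, c79x⟩ (.leaf (⟨c97x, c97x, c64x, c62x⟩, 107)) (.node ⟨c97x, c98x, c62x, c79x⟩ (.leaf (⟨c97x, c98x, c62x, c62x⟩, 108)) (.leaf (⟨c98x, c98x, c62x, c79x⟩, 109))))))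 (.node ⟨c98x, c147x, c79x, c120x⟩ (.node ⟨c98x, c144x, c79x, c104x⟩ (.node ⟨c98x, c124x, c79x, c91x⟩ (.leaf (⟨c98x, c123x, c79x, c79x⟩, 110)) (.node ⟨c123x, c124x, c79x, c91x⟩ (.leaf (⟨c123x, c123x, c79x, c91x⟩, 111)) (.leaf (⟨c123x, c124x, c91x, c91x⟩, 112)))) (.node ⟨c124x, c144x, c91x, c104x⟩ (.leaf (⟨c124x, c124x, c91x, c104x⟩, 113)) (.node ⟨c124x, c144x, c106x, c104x⟩ (.leaf (⟨c124x, c144x, c104x, c104x⟩, 114)) (.leaf (⟨c144x, c144x, c106x, c104x⟩, 115))))) (.node ⟨c144x, c147x, c106x, c120x⟩ (.node ⟨c144x, c146x, c106x, c117x⟩ (.leaf (⟨c144x, c145x, c106x, c106x⟩, 116)) (.node ⟨c145x, c146x, c106x, c117x⟩ (.leaf (⟨c145x, c145x, c106x, c117x⟩, 117)) (.leaf (⟨c145x, c146x, c117x, c117x⟩, 118)))) (.node ⟨c146x, c147x, c119x, c120x⟩ (.leaf (⟨c146x, c146x, c119x, c117x⟩, 119)) (.node ⟨c146x, c147x,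 c119x, c120x⟩ (.leaf (⟨c146x, c147x, c119x, c119x⟩, 120)) (.leaf (⟨c147x, c147x, c119x, c120x⟩, 121))))))) (.node ⟨c147x, c148x, c102x, c137x⟩ (.node ⟨c147x, c132x, c102x, c120x⟩ (.node ⟨c147x, c141x, c110x, c120x⟩ (.node ⟨c147x, c127x, c128x, c120x⟩ (.leaf (⟨c147x, c127x, c120x, c120x⟩, 122)) (.node ⟨c126x, c127x, c128x, c120x⟩ (.leaf (⟨c127x, c127x, c128x, c120x⟩, 123)) (.leaf (⟨c126x, c127x, c128x, c128x⟩, 124)))) (.node ⟨c126x, c141x, c110x, c128x⟩ (.leaf (⟨c126x, c126x, c109x, c128x⟩, 125)) (.node ⟨c126x, c141x, c110x, c109x⟩ (.leaf (⟨c126x, c141x, c109x, c109x⟩, 126)) (.leaf (⟨c141x, c141x, c110x, c109x⟩, 127))))) (.node ⟨c141x, c132x, c102x, c128x⟩ (.node ⟨c141x, c131x, c102x, c110x⟩ (.leaf (⟨c141x, c130x, c110x, c110x⟩, 128)) (.node ⟨c130x, c131x, c102x, c110x⟩ (.leaf (⟨c130x, c130x, c102x,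 c110x⟩, 129)) (.leaf (⟨c130x, c131x, c102x, c102x⟩, 130)))) (.node ⟨c131x, c132x, c102x, c128x⟩ (.leaf (⟨c131x, c131x, c102x, c112x⟩, 131)) (.node ⟨c131x, c132x, c112x, c128x⟩ (.leaf (⟨c131x, c132x, c112x, c112x⟩, 132)) (.leaf (⟨c132x, c132x, c112x, c128x⟩, 133)))))) (.node ⟨c129x, c148x, c115x, c137x⟩ (.node ⟨c129x, c140x, c128x, c137x⟩ (.node ⟨c129x, c132x, c128x, c137x⟩ (.leaf (⟨c129x, c132x, c128x, c128x⟩, 134)) (.node ⟨c129x, c130x, c128x, c137x⟩ (.leaf (⟨c129x, c129x, c128x, c137x⟩, 135)) (.leaf (⟨c129x, c130x, c137x, c137x⟩, 136)))) (.node ⟨c130x, c140x, c120x, c137x⟩ (.leaf (⟨c130x, c130x, c121x, c137x⟩, 137)) (.node ⟨c130x, c140x, c120x, c121x⟩ (.leaf (⟨c130x, c140x, c121x, c121x⟩, 138)) (.leaf (⟨c140x, c140x, c120x, c121x⟩, 139))))) (.node ⟨c133x, c148x, c115x, c120x⟩ (.node ⟨c133x, c140x,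 c106x, c120x⟩ (.leaf (⟨c134x, c140x, c120x, c120x⟩, 140)) (.node ⟨c133x, c134x, c106x, c120x⟩ (.leaf (⟨c134x, c134x, c106x, c120x⟩, 141)) (.leaf (⟨c133x, c134x, c106x, c106x⟩, 142)))) (.node ⟨c133x, c148x, c115x, c119x⟩ (.node ⟨c133x, c143x, c115x, c106x⟩ (.leaf (⟨c133x, c133x, c115x, c106x⟩, 143)) (.leaf (⟨c133x, c143x, c115x, c115x⟩, 144))) (.node ⟨c143x, c148x, c115x, c119x⟩ (.leaf (⟨c143x, c143x, c115x, c119x⟩, 145)) (.leaf (⟨c143x, c148x, c119x, c119x⟩, 146)))))))) (.node ⟨c148x, c209x, c104x, c186x⟩ (.node ⟨c148x, c175x, c104x, c178x⟩ (.node ⟨c148x, c175x, c104x, c173x⟩ (.node ⟨c148x, c175x, c104x, c142x⟩ (.node ⟨c148x, c149x, c104x, c125x⟩ (.leaf (⟨c148x, c148x, c104x, c119x⟩, 147)) (.node ⟨c148x, c149x, c104x, c125x⟩ (.leaf (⟨c148x, c149x, c104x, c104x⟩, 148)) (.leaf (⟨c149x, c149x, c104x,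 c125x⟩, 149)))) (.node ⟨c149x, c175x, c125x, c142x⟩ (.leaf (⟨c149x, c163x, c125x, c125x⟩, 150)) (.node ⟨c163x, c175x, c125x, c142x⟩ (.leaf (⟨c163x, c163x, c125x, c142x⟩, 151)) (.leaf (⟨c163x, c175x, c142x, c142x⟩, 152))))) (.node ⟨c182x, c175x, c142x, c173x⟩ (.node ⟨c174x, c175x, c142x, c165x⟩ (.leaf (⟨c175x, c175x, c142x, c165x⟩, 153)) (.node ⟨c174x, c175x, c159x, c165x⟩ (.leaf (⟨c174x, c175x, c165x, c165x⟩, 154)) (.leaf (⟨c174x, c174x, c159x, c165x⟩, 155)))) (.node ⟨c182x, c174x, c159x, c173x⟩ (.leaf (⟨c172x, c174x, c159x, c159x⟩, 156)) (.node ⟨c182x, c172x, c159x, c173x⟩ (.leaf (⟨c172x, c172x, c159x, c173x⟩, 157)) (.leaf (⟨c182x, c172x, c173x, c173x⟩, 158)))))) (.node ⟨c150x, c153x, c152x, c178x⟩ (.node ⟨c151x, c153x, c154x, c173x⟩ (.node ⟨c182x, c181x, c161x, c173x⟩ (.leaf (⟨c182x, c182x, c167x,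 c173x⟩, 159)) (.node ⟨c182x, c181x, c161x, c167x⟩ (.leaf (⟨c182x, c181x, c167x, c167x⟩, 160)) (.leaf (⟨c181x, c181x, c161x, c167x⟩, 161)))) (.node ⟨c151x, c153x, c154x, c161x⟩ (.leaf (⟨c181x, c153x, c161x, c161x⟩, 162)) (.node ⟨c151x, c153x, c154x, c161x⟩ (.leaf (⟨c153x, c153x, c154x, c161x⟩, 163)) (.leaf (⟨c151x, c153x, c154x, c154x⟩, 164))))) (.node ⟨c150x, c179x, c152x, c178x⟩ (.node ⟨c150x, c151x, c152x, c162x⟩ (.leaf (⟨c151x, c151x, c152x, c154x⟩, 165)) (.node ⟨c150x, c151x, c152x, c162x⟩ (.leaf (⟨c150x, c151x, c152x, c152x⟩, 166)) (.leaf (⟨c150x, c150x, c152x, c162x⟩, 167)))) (.node ⟨c150x, c179x, c162x, c178x⟩ (.node ⟨c150x, c179x, c162x, c180x⟩ (.leaf (⟨c150x, c179x, c162x, c162x⟩, 168)) (.leaf (⟨c179x, c179x, c162x, c180x⟩, 169))) (.node ⟨c177x, c179x, c180x, c178x⟩ (.leaf (⟨c177x, c179x,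 c180x, c180x⟩, 170)) (.leaf (⟨c177x, c177x, c180x, c178x⟩, 171))))))) (.node ⟨c163x, c209x, c161x, c186x⟩ (.node ⟨c156x, c177x, c161x, c178x⟩ (.node ⟨c176x, c177x, c162x, c178x⟩ (.node ⟨c169x, c177x, c171x, c178x⟩ (.leaf (⟨c151x, c177x, c178x, c178x⟩, 172)) (.node ⟨c169x, c151x, c171x, c178x⟩ (.leaf (⟨c151x, c151x, c171x, c178x⟩, 173)) (.leaf (⟨c169x, c151x, c171x, c171x⟩, 174)))) (.node ⟨c176x, c169x, c162x, c171x⟩ (.leaf (⟨c169x, c169x, c170x, c171x⟩, 175)) (.node ⟨c176x, c169x, c162x, c170x⟩ (.leaf (⟨c176x, c169x, c170x, c170x⟩, 176)) (.leaf (⟨c176x, c176x, c162x, c170x⟩, 177))))) (.node ⟨c156x, c160x, c161x, c159x⟩ (.node ⟨c158x, c160x, c161x, c162x⟩ (.leaf (⟨c176x, c160x, c162x, c162x⟩, 178)) (.node ⟨c158x, c160x, c161x, c162x⟩ (.leaf (⟨c160x, c160x, c161x, c162x⟩, 179)) (.leaf (⟨c158x, c160x,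 c161x, c161x⟩, 180)))) (.node ⟨c156x, c158x, c161x, c159x⟩ (.leaf (⟨c158x, c158x, c161x, c159x⟩, 181)) (.node ⟨c156x, c158x, c157x, c159x⟩ (.leaf (⟨c156x, c158x, c159x, c159x⟩, 182)) (.leaf (⟨c156x, c156x, c157x, c159x⟩, 183)))))) (.node ⟨c163x, c209x, c157x, c186x⟩ (.node ⟨c163x, c156x, c157x, c166x⟩ (.node ⟨c164x, c156x, c157x, c167x⟩ (.leaf (⟨c155x, c156x, c157x, c157x⟩, 184)) (.node ⟨c164x, c155x, c157x, c167x⟩ (.leaf (⟨c155x, c155x, c157x, c167x⟩, 185)) (.leaf (⟨c164x, c155x, c167x, c167x⟩, 186)))) (.node ⟨c163x, c164x, c165x, c166x⟩ (.leaf (⟨c164x, c164x, c165x, c167x⟩, 187)) (.node ⟨c163x, c164x, c165x, c166x⟩ (.leaf (⟨c163x, c164x, c165x, c165x⟩, 188)) (.leaf (⟨c163x, c163x, c165x, c166x⟩, 189))))) (.node ⟨c163x, c209x, c166x, c186x⟩ (.node ⟨c163x, c203x, c166x, c168x⟩ (.leaf (⟨c163x, c175x,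 c166x, c166x⟩, 190)) (.node ⟨c175x, c203x, c166x, c168x⟩ (.leaf (⟨c175x, c175x, c166x, c168x⟩, 191)) (.leaf (⟨c175x, c203x, c168x, c168x⟩, 192)))) (.node ⟨c203x, c209x, c168x, c186x⟩ (.node ⟨c203x, c207x, c168x, c186x⟩ (.leaf (⟨c203x, c203x, c168x, c186x⟩, 193)) (.leaf (⟨c203x, c207x, c186x, c186x⟩, 194))) (.node ⟨c207x, c209x, c187x, c186x⟩ (.leaf (⟨c207x, c207x, c187x, c186x⟩, 195)) (.leaf (⟨c207x, c209x, c187x, c187x⟩, 196)))))))))) (.node ⟨c209x, c461x, c185x, c424x⟩ (.node ⟨c209x, c319x, c185x, c309x⟩ (.node ⟨c209x, c248x, c185x, c260x⟩ (.node ⟨c209x, c213x, c185x, c206x⟩ (.node ⟨c209x, c198x, c185x, c188x⟩ (.node ⟨c209x, c205x, c189x, c188x⟩ (.node ⟨c209x, c205x, c187x, c188x⟩ (.leaf (⟨c209x, c209x, c187x, c188x⟩, 197)) (.node ⟨c209x, c205x, c194x, c188x⟩ (.leaf (⟨c209x, c205x, c188x, c188x⟩,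 198)) (.leaf (⟨c205x, c205x, c194x, c188x⟩, 199)))) (.node ⟨c195x, c205x, c189x, c194x⟩ (.leaf (⟨c196x, c205x, c194x, c194x⟩, 200)) (.node ⟨c195x, c196x, c189x, c194x⟩ (.leaf (⟨c196x, c196x, c189x, c194x⟩, 201)) (.leaf (⟨c195x, c196x, c189x, c189x⟩, 202))))) (.node ⟨c195x, c198x, c185x, c199x⟩ (.node ⟨c195x, c197x, c185x, c189x⟩ (.leaf (⟨c195x, c195x, c184x, c189x⟩, 203)) (.node ⟨c195x, c197x, c185x, c184x⟩ (.leaf (⟨c195x, c197x, c184x, c184x⟩, 204)) (.leaf (⟨c197x, c197x, c185x, c184x⟩, 205)))) (.node ⟨c210x, c198x, c185x, c199x⟩ (.leaf (⟨c197x, c198x, c185x, c185x⟩, 206)) (.node ⟨c210x, c198x, c185x, c199x⟩ (.leaf (⟨c198x, c198x, c185x, c199x⟩, 207)) (.leaf (⟨c210x, c198x, c199x, c199x⟩, 208)))))) (.node ⟨c210x, c213x, c189x, c206x⟩ (.node ⟨c210x, c217x, c199x, c206x⟩ (.node ⟨c210x, c216x, c199x,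 c206x⟩ (.leaf (⟨c210x, c210x, c199x, c202x⟩, 209)) (.node ⟨c210x, c216x, c202x, c206x⟩ (.leaf (⟨c210x, c216x, c202x, c202x⟩, 210)) (.leaf (⟨c216x, c216x, c202x, c206x⟩, 211)))) (.node ⟨c216x, c217x, c192x, c206x⟩ (.leaf (⟨c216x, c197x, c206x, c206x⟩, 212)) (.node ⟨c197x, c217x, c192x, c206x⟩ (.leaf (⟨c197x, c197x, c192x, c206x⟩, 213)) (.leaf (⟨c197x, c217x, c192x, c192x⟩, 214))))) (.node ⟨c217x, c213x, c189x, c192x⟩ (.node ⟨c217x, c212x, c199x, c192x⟩ (.leaf (⟨c217x, c217x, c191x, c192x⟩, 215)) (.node ⟨c217x, c212x, c199x, c191x⟩ (.leaf (⟨c217x, c212x, c191x, c191x⟩, 216)) (.leaf (⟨c212x, c212x, c199x, c191x⟩, 217)))) (.node ⟨c211x, c213x, c189x, c199x⟩ (.leaf (⟨c211x, c212x, c199x, c199x⟩, 218)) (.node ⟨c211x, c213x, c189x, c199x⟩ (.leaf (⟨c211x, c211x, c189x, c199x⟩, 219)) (.leaf (⟨c211x, c213x,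 c189x, c189x⟩, 220))))))) (.node ⟨c213x, c248x, c189x, c260x⟩ (.node ⟨c213x, c249x, c189x, c208x⟩ (.node ⟨c213x, c218x, c189x, c194x⟩ (.node ⟨c213x, c214x, c189x, c187x⟩ (.leaf (⟨c213x, c213x, c189x, c187x⟩, 221)) (.node ⟨c213x, c214x, c193x, c187x⟩ (.leaf (⟨c213x, c214x, c187x, c187x⟩, 222)) (.leaf (⟨c214x, c214x, c193x, c187x⟩, 223)))) (.node ⟨c214x, c218x, c193x, c194x⟩ (.leaf (⟨c214x, c215x, c193x, c193x⟩, 224)) (.node ⟨c215x, c218x, c193x, c194x⟩ (.leaf (⟨c215x, c215x, c193x, c194x⟩, 225)) (.leaf (⟨c215x, c218x, c194x, c194x⟩, 226))))) (.node ⟨c218x, c249x, c186x, c208x⟩ (.node ⟨c218x, c219x, c186x, c204x⟩ (.leaf (⟨c218x, c218x, c186x, c194x⟩, 227)) (.node ⟨c218x, c219x, c186x, c204x⟩ (.leaf (⟨c218x, c219x, c186x, c186x⟩, 228)) (.leaf (⟨c219x, c219x, c186x, c204x⟩, 229)))) (.node ⟨c219x, c249x,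 c204x, c208x⟩ (.leaf (⟨c219x, c245x, c204x, c204x⟩, 230)) (.node ⟨c245x, c249x, c204x, c208x⟩ (.leaf (⟨c245x, c245x, c204x, c208x⟩, 231)) (.leaf (⟨c245x, c249x, c208x, c208x⟩, 232)))))) (.node ⟨c249x, c248x, c208x, c260x⟩ (.node ⟨c249x, c252x, c208x, c234x⟩ (.node ⟨c249x, c261x, c208x, c234x⟩ (.leaf (⟨c249x, c249x, c208x, c233x⟩, 233)) (.node ⟨c249x, c261x, c233x, c234x⟩ (.leaf (⟨c249x, c261x, c233x, c233x⟩, 234)) (.leaf (⟨c261x, c261x, c233x, c234x⟩, 235)))) (.node ⟨c261x, c252x, c222x, c234x⟩ (.leaf (⟨c261x, c263x, c234x, c234x⟩, 236)) (.node ⟨c263x, c252x, c222x, c234x⟩ (.leaf (⟨c263x, c263x, c222x, c234x⟩, 237)) (.leaf (⟨c263x, c252x, c222x, c222x⟩, 238))))) (.node ⟨c253x, c248x, c222x, c260x⟩ (.node ⟨c251x, c252x, c222x, c240x⟩ (.leaf (⟨c252x, c252x, c222x, c237x⟩, 239)) (.node ⟨c251x, c252x,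 c237x, c240x⟩ (.leaf (⟨c251x, c252x, c237x, c237x⟩, 240)) (.leaf (⟨c251x, c251x, c237x, c240x⟩, 241)))) (.node ⟨c253x, c248x, c240x, c260x⟩ (.node ⟨c253x, c251x, c240x, c235x⟩ (.leaf (⟨c253x, c251x, c240x, c240x⟩, 242)) (.leaf (⟨c253x, c253x, c240x, c235x⟩, 243))) (.node ⟨c253x, c248x, c235x, c260x⟩ (.leaf (⟨c253x, c248x, c235x, c235x⟩, 244)) (.leaf (⟨c248x, c248x, c235x, c260x⟩, 245)))))))) (.node ⟨c254x, c319x, c227x, c309x⟩ (.node ⟨c254x, c269x, c227x, c250x⟩ (.node ⟨c254x, c257x, c227x, c260x⟩ (.node ⟨c254x, c255x, c227x, c260x⟩ (.node ⟨c254x, c255x, c238x, c260x⟩ (.leaf (⟨c248x, c255x, c260x, c260x⟩, 246)) (.node ⟨c254x, c255x, c238x, c260x⟩ (.leaf (⟨c255x, c255x, c238x, c260x⟩, 247)) (.leaf (⟨c254x, c255x, c238x, c238x⟩, 248)))) (.node ⟨c254x, c247x, c227x, c238x⟩ (.leaf (⟨c254x, c254x, c225x,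 c238x⟩, 249)) (.node ⟨c254x, c247x, c227x, c225x⟩ (.leaf (⟨c254x, c247x, c225x, c225x⟩, 250)) (.leaf (⟨c247x, c247x, c227x, c225x⟩, 251))))) (.node ⟨c247x, c257x, c227x, c238x⟩ (.node ⟨c247x, c264x, c227x, c229x⟩ (.leaf (⟨c247x, c248x, c227x, c227x⟩, 252)) (.node ⟨c248x, c264x, c227x, c229x⟩ (.leaf (⟨c248x, c248x, c227x, c229x⟩, 253)) (.leaf (⟨c248x, c264x, c229x, c229x⟩, 254)))) (.node ⟨c264x, c257x, c229x, c238x⟩ (.leaf (⟨c264x, c264x, c229x, c231x⟩, 255)) (.node ⟨c264x, c257x, c231x, c238x⟩ (.leaf (⟨c264x, c257x, c231x, c231x⟩, 256)) (.leaf (⟨c257x, c257x, c231x, c238x⟩, 257)))))) (.node ⟨c256x, c269x, c237x, c250x⟩ (.node ⟨c256x, c266x, c234x, c240x⟩ (.node ⟨c256x, c265x, c238x, c240x⟩ (.leaf (⟨c256x, c257x, c238x, c238x⟩, 258)) (.node ⟨c256x, c265x, c238x, c240x⟩ (.leaf (⟨c256x, c256x, c238x,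 c240x⟩, 259)) (.leaf (⟨c256x, c265x, c240x, c240x⟩, 260)))) (.node ⟨c265x, c266x, c234x, c240x⟩ (.leaf (⟨c265x, c265x, c234x, c240x⟩, 261)) (.node ⟨c265x, c266x, c234x, c246x⟩ (.leaf (⟨c265x, c266x, c234x, c234x⟩, 262)) (.leaf (⟨c266x, c266x, c234x, c246x⟩, 263))))) (.node ⟨c266x, c269x, c237x, c250x⟩ (.node ⟨c266x, c268x, c237x, c246x⟩ (.leaf (⟨c266x, c267x, c246x, c246x⟩, 264)) (.node ⟨c267x, c268x, c237x, c246x⟩ (.leaf (⟨c267x, c267x, c237x, c246x⟩, 265)) (.leaf (⟨c267x, c268x, c237x, c237x⟩, 266)))) (.node ⟨c268x, c269x, c237x, c250x⟩ (.leaf (⟨c268x, c268x, c237x, c233x⟩, 267)) (.node ⟨c268x, c269x, c233x, c250x⟩ (.leaf (⟨c268x, c269x, c233x, c233x⟩, 268)) (.leaf (⟨c269x, c269x, c233x, c250x⟩, 269))))))) (.node ⟨c269x, c319x, c250x, c309x⟩ (.node ⟨c269x, c301x, c250x, c288x⟩ (.node ⟨c269x, c310x,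 c250x, c279x⟩ (.node ⟨c269x, c297x, c250x, c262x⟩ (.leaf (⟨c269x, c287x, c250x, c250x⟩, 270)) (.node ⟨c287x, c297x, c250x, c262x⟩ (.leaf (⟨c287x, c287x, c250x, c262x⟩, 271)) (.leaf (⟨c287x, c297x, c262x, c262x⟩, 272)))) (.node ⟨c297x, c310x, c262x, c279x⟩ (.leaf (⟨c297x, c297x, c262x, c279x⟩, 273)) (.node ⟨c297x, c310x, c281x, c279x⟩ (.leaf (⟨c297x, c310x, c279x, c279x⟩, 274)) (.leaf (⟨c310x, c310x, c281x, c279x⟩, 275))))) (.node ⟨c310x, c301x, c277x, c288x⟩ (.node ⟨c310x, c301x, c281x, c288x⟩ (.leaf (⟨c310x, c312x, c281x, c281x⟩, 276)) (.node ⟨c312x, c301x, c281x, c288x⟩ (.leaf (⟨c312x, c312x, c281x, c288x⟩, 277)) (.leaf (⟨c312x, c301x, c288x, c288x⟩, 278)))) (.node ⟨c300x, c301x, c277x, c288x⟩ (.leaf (⟨c301x, c301x, c286x, c288x⟩, 279)) (.node ⟨c300x, c301x, c277x, c286x⟩ (.leaf (⟨c300x, c301x,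 c286x, c286x⟩, 280)) (.leaf (⟨c300x, c300x, c277x, c286x⟩, 281)))))) (.node ⟨c299x, c319x, c274x, c309x⟩ (.node ⟨c299x, c304x, c274x, c295x⟩ (.node ⟨c299x, c303x, c272x, c277x⟩ (.leaf (⟨c299x, c300x, c277x, c277x⟩, 282)) (.node ⟨c299x, c303x, c272x, c277x⟩ (.leaf (⟨c299x, c299x, c272x, c277x⟩, 283)) (.leaf (⟨c299x, c303x, c272x, c272x⟩, 284)))) (.node ⟨c303x, c304x, c274x, c295x⟩ (.leaf (⟨c303x, c303x, c274x, c272x⟩, 285)) (.node ⟨c303x, c304x, c274x, c295x⟩ (.leaf (⟨c303x, c304x, c274x, c274x⟩, 286)) (.leaf (⟨c304x, c304x, c274x, c295x⟩, 287))))) (.node ⟨c302x, c319x, c295x, c309x⟩ (.node ⟨c302x, c304x, c295x, c296x⟩ (.leaf (⟨c302x, c304x, c295x, c295x⟩, 288)) (.node ⟨c302x, c318x, c295x, c296x⟩ (.leaf (⟨c302x, c302x, c295x, c296x⟩, 289)) (.leaf (⟨c302x, c318x, c296x, c296x⟩, 290)))) (.node ⟨c318x,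 c319x, c296x, c309x⟩ (.node ⟨c318x, c303x, c296x, c309x⟩ (.leaf (⟨c318x, c318x, c296x, c309x⟩, 291)) (.leaf (⟨c318x, c303x, c309x, c309x⟩, 292))) (.node ⟨c303x, c319x, c291x, c309x⟩ (.leaf (⟨c303x, c303x, c291x, c309x⟩, 293)) (.leaf (⟨c303x, c319x, c291x, c291x⟩, 294))))))))) (.node ⟨c319x, c461x, c277x, c424x⟩ (.node ⟨c319x, c347x, c277x, c354x⟩ (.node ⟨c319x, c363x, c277x, c336x⟩ (.node ⟨c319x, c316x, c277x, c291x⟩ (.node ⟨c319x, c313x, c277x, c291x⟩ (.node ⟨c319x, c306x, c295x, c291x⟩ (.leaf (⟨c319x, c319x, c290x, c291x⟩, 295)) (.node ⟨c319x, c306x, c295x, c290x⟩ (.leaf (⟨c319x, c306x, c290x, c290x⟩, 296)) (.leaf (⟨c306x, c306x, c295x, c290x⟩, 297)))) (.node ⟨c305x, c313x, c277x, c295x⟩ (.leaf (⟨c305x, c306x, c295x, c295x⟩, 298)) (.node ⟨c305x, c313x, c277x, c295x⟩ (.leaf (⟨c305x, c305x, c277x,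 c295x⟩, 299)) (.leaf (⟨c305x, c313x, c277x, c277x⟩, 300))))) (.node ⟨c313x, c316x, c277x, c286x⟩ (.node ⟨c313x, c314x, c277x, c281x⟩ (.leaf (⟨c313x, c313x, c277x, c281x⟩, 301)) (.node ⟨c313x, c314x, c284x, c281x⟩ (.leaf (⟨c313x, c314x, c281x, c281x⟩, 302)) (.leaf (⟨c314x, c314x, c284x, c281x⟩, 303)))) (.node ⟨c314x, c316x, c284x, c286x⟩ (.leaf (⟨c314x, c315x, c284x, c284x⟩, 304)) (.node ⟨c315x, c316x, c284x, c286x⟩ (.leaf (⟨c315x, c315x, c284x, c286x⟩, 305)) (.leaf (⟨c315x, c316x, c286x, c286x⟩, 306)))))) (.node ⟨c316x, c363x, c279x, c336x⟩ (.node ⟨c316x, c358x, c279x, c311x⟩ (.node ⟨c316x, c317x, c279x, c298x⟩ (.leaf (⟨c316x, c316x, c279x, c286x⟩, 307)) (.node ⟨c316x, c317x, c279x, c298x⟩ (.leaf (⟨c316x, c317x, c279x, c279x⟩, 308)) (.leaf (⟨c317x, c317x, c279x, c298x⟩, 309)))) (.node ⟨c317x, c358x,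 c298x, c311x⟩ (.leaf (⟨c317x, c342x, c298x, c298x⟩, 310)) (.node ⟨c342x, c358x, c298x, c311x⟩ (.leaf (⟨c342x, c342x, c298x, c311x⟩, 311)) (.leaf (⟨c342x, c358x, c311x, c311x⟩, 312))))) (.node ⟨c358x, c363x, c311x, c336x⟩ (.node ⟨c358x, c366x, c311x, c336x⟩ (.leaf (⟨c358x, c358x, c311x, c335x⟩, 313)) (.node ⟨c358x, c366x, c335x, c336x⟩ (.leaf (⟨c358x, c366x, c335x, c335x⟩, 314)) (.leaf (⟨c366x, c366x, c335x, c336x⟩, 315)))) (.node ⟨c366x, c363x, c322x, c336x⟩ (.leaf (⟨c366x, c362x, c336x, c336x⟩, 316)) (.node ⟨c362x, c363x, c322x, c336x⟩ (.leaf (⟨c362x, c362x, c322x, c336x⟩, 317)) (.leaf (⟨c362x, c363x, c322x, c322x⟩, 318))))))) (.node ⟨c363x, c347x, c329x, c354x⟩ (.node ⟨c363x, c368x, c326x, c354x⟩ (.node ⟨c363x, c349x, c326x, c324x⟩ (.node ⟨c363x, c360x, c326x, c324x⟩ (.leaf (⟨c363x, c363x, c322x,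 c324x⟩, 319)) (.node ⟨c363x, c360x, c326x, c324x⟩ (.leaf (⟨c363x, c360x, c324x, c324x⟩, 320)) (.leaf (⟨c360x, c360x, c326x, c324x⟩, 321)))) (.node ⟨c360x, c349x, c326x, c345x⟩ (.leaf (⟨c360x, c349x, c326x, c326x⟩, 322)) (.node ⟨c348x, c349x, c326x, c345x⟩ (.leaf (⟨c349x, c349x, c326x, c345x⟩, 323)) (.leaf (⟨c348x, c349x, c345x, c345x⟩, 324))))) (.node ⟨c348x, c368x, c345x, c354x⟩ (.node ⟨c348x, c367x, c345x, c340x⟩ (.leaf (⟨c348x, c348x, c345x, c338x⟩, 325)) (.node ⟨c348x, c367x, c338x, c340x⟩ (.leaf (⟨c348x, c367x, c338x, c338x⟩, 326)) (.leaf (⟨c367x, c367x, c338x, c340x⟩, 327)))) (.node ⟨c367x, c368x, c340x, c354x⟩ (.leaf (⟨c367x, c344x, c340x, c340x⟩, 328)) (.node ⟨c344x, c368x, c340x, c354x⟩ (.leaf (⟨c344x, c344x, c340x, c354x⟩, 329)) (.leaf (⟨c344x, c368x, c354x, c354x⟩, 330)))))) (.node ⟨c343x,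 c347x, c329x, c354x⟩ (.node ⟨c343x, c350x, c329x, c354x⟩ (.node ⟨c368x, c350x, c345x, c354x⟩ (.leaf (⟨c368x, c368x, c356x, c354x⟩, 331)) (.node ⟨c368x, c350x, c345x, c356x⟩ (.leaf (⟨c368x, c350x, c356x, c356x⟩, 332)) (.leaf (⟨c350x, c350x, c345x, c356x⟩, 333)))) (.node ⟨c343x, c350x, c329x, c345x⟩ (.leaf (⟨c343x, c350x, c345x, c345x⟩, 334)) (.node ⟨c343x, c344x, c329x, c345x⟩ (.leaf (⟨c343x, c343x, c329x, c345x⟩, 335)) (.leaf (⟨c343x, c344x, c329x, c329x⟩, 336))))) (.node ⟨c344x, c347x, c329x, c339x⟩ (.node ⟨c344x, c347x, c329x, c326x⟩ (.leaf (⟨c344x, c344x, c329x, c331x⟩, 337)) (.node ⟨c344x, c347x, c331x, c326x⟩ (.leaf (⟨c344x, c347x, c331x, c331x⟩, 338)) (.leaf (⟨c347x, c347x, c331x, c326x⟩, 339)))) (.node ⟨c351x, c347x, c326x, c339x⟩ (.node ⟨c346x, c347x, c326x, c336x⟩ (.leaf (⟨c346x, c347x,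 c326x, c326x⟩, 340)) (.leaf (⟨c346x, c346x, c326x, c336x⟩, 341))) (.node ⟨c351x, c346x, c336x, c339x⟩ (.leaf (⟨c351x, c346x, c336x, c336x⟩, 342)) (.leaf (⟨c351x, c351x, c336x, c339x⟩, 343)))))))) (.node ⟨c351x, c461x, c324x, c424x⟩ (.node ⟨c351x, c395x, c324x, c388x⟩ (.node ⟨c351x, c414x, c324x, c381x⟩ (.node ⟨c351x, c369x, c324x, c359x⟩ (.node ⟨c351x, c365x, c324x, c339x⟩ (.leaf (⟨c351x, c364x, c339x, c339x⟩, 344)) (.node ⟨c364x, c365x, c324x, c339x⟩ (.leaf (⟨c364x, c364x, c324x, c339x⟩, 345)) (.leaf (⟨c364x, c365x, c324x, c324x⟩, 346)))) (.node ⟨c365x, c369x, c324x, c359x⟩ (.leaf (⟨c365x, c365x, c324x, c335x⟩, 347)) (.node ⟨c365x, c369x, c335x, c359x⟩ (.leaf (⟨c365x, c369x, c335x, c335x⟩, 348)) (.leaf (⟨c369x, c369x, c335x, c359x⟩, 349))))) (.node ⟨c369x, c414x, c359x, c381x⟩ (.node ⟨c369x, c403x,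 c359x, c361x⟩ (.leaf (⟨c369x, c392x, c359x, c359x⟩, 350)) (.node ⟨c392x, c403x, c359x, c361x⟩ (.leaf (⟨c392x, c392x, c359x, c361x⟩, 351)) (.leaf (⟨c392x, c403x, c361x, c361x⟩, 352)))) (.node ⟨c403x, c414x, c361x, c381x⟩ (.leaf (⟨c403x, c403x, c361x, c381x⟩, 353)) (.node ⟨c403x, c414x, c383x, c381x⟩ (.leaf (⟨c403x, c414x, c381x, c381x⟩, 354)) (.leaf (⟨c414x, c414x, c383x, c381x⟩, 355)))))) (.node ⟨c414x, c395x, c376x, c388x⟩ (.node ⟨c414x, c417x, c383x, c388x⟩ (.node ⟨c414x, c416x, c383x, c385x⟩ (.leaf (⟨c414x, c415x, c383x, c383x⟩, 356)) (.node ⟨c415x, c416x, c383x, c385x⟩ (.leaf (⟨c415x, c415x, c383x, c385x⟩, 357)) (.leaf (⟨c415x, c416x, c385x, c385x⟩, 358)))) (.node ⟨c416x, c417x, c387x, c388x⟩ (.leaf (⟨c416x, c416x, c387x, c385x⟩, 359)) (.node ⟨c416x, c417x, c387x, c388x⟩ (.leaf (⟨c416x, c417x,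 c387x, c387x⟩, 360)) (.leaf (⟨c417x, c417x, c387x, c388x⟩, 361))))) (.node ⟨c417x, c395x, c376x, c388x⟩ (.node ⟨c417x, c406x, c396x, c388x⟩ (.leaf (⟨c417x, c406x, c388x, c388x⟩, 362)) (.node ⟨c405x, c406x, c396x, c388x⟩ (.leaf (⟨c406x, c406x, c396x, c388x⟩, 363)) (.leaf (⟨c405x, c406x, c396x, c396x⟩, 364)))) (.node ⟨c405x, c395x, c376x, c396x⟩ (.node ⟨c405x, c411x, c375x, c396x⟩ (.leaf (⟨c405x, c405x, c375x, c396x⟩, 365)) (.leaf (⟨c405x, c411x, c375x, c375x⟩, 366))) (.node ⟨c411x, c395x, c376x, c375x⟩ (.leaf (⟨c411x, c411x, c376x, c375x⟩, 367)) (.leaf (⟨c411x, c395x, c376x, c376x⟩, 368))))))) (.node ⟨c394x, c461x, c372x, c424x⟩ (.node ⟨c394x, c410x, c372x, c400x⟩ (.node ⟨c394x, c407x, c372x, c396x⟩ (.node ⟨c395x, c397x, c372x, c390x⟩ (.leaf (⟨c395x, c395x, c372x, c376x⟩, 369)) (.node ⟨c395x, c397x,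 c372x, c390x⟩ (.leaf (⟨c395x, c397x, c372x, c372x⟩, 370)) (.leaf (⟨c397x, c397x, c372x, c390x⟩, 371)))) (.node ⟨c394x, c407x, c390x, c396x⟩ (.leaf (⟨c397x, c407x, c390x, c390x⟩, 372)) (.node ⟨c394x, c407x, c390x, c396x⟩ (.leaf (⟨c407x, c407x, c390x, c396x⟩, 373)) (.leaf (⟨c394x, c407x, c396x, c396x⟩, 374))))) (.node ⟨c394x, c410x, c396x, c400x⟩ (.node ⟨c394x, c395x, c396x, c400x⟩ (.leaf (⟨c394x, c394x, c396x, c400x⟩, 375)) (.node ⟨c394x, c395x, c393x, c400x⟩ (.leaf (⟨c394x, c395x, c400x, c400x⟩, 376)) (.leaf (⟨c395x, c395x, c393x, c400x⟩, 377)))) (.node ⟨c395x, c410x, c388x, c393x⟩ (.leaf (⟨c395x, c410x, c393x, c393x⟩, 378)) (.node ⟨c409x, c410x, c388x, c393x⟩ (.leaf (⟨c410x, c410x, c388x, c393x⟩, 379)) (.leaf (⟨c409x, c410x, c388x, c388x⟩, 380)))))) (.node ⟨c408x, c461x, c379x, c424x⟩ (.node ⟨c408x,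 c418x, c379x, c388x⟩ (.node ⟨c408x, c409x, c379x, c388x⟩ (.leaf (⟨c409x, c409x, c383x, c388x⟩, 381)) (.node ⟨c408x, c409x, c379x, c383x⟩ (.leaf (⟨c408x, c409x, c383x, c383x⟩, 382)) (.leaf (⟨c408x, c408x, c379x, c383x⟩, 383)))) (.node ⟨c408x, c418x, c379x, c387x⟩ (.leaf (⟨c408x, c413x, c379x, c379x⟩, 384)) (.node ⟨c413x, c418x, c379x, c387x⟩ (.leaf (⟨c413x, c413x, c379x, c387x⟩, 385)) (.leaf (⟨c413x, c418x, c387x, c387x⟩, 386))))) (.node ⟨c418x, c461x, c381x, c424x⟩ (.node ⟨c418x, c419x, c381x, c404x⟩ (.leaf (⟨c418x, c418x, c381x, c387x⟩, 387)) (.node ⟨c418x, c419x, c381x, c404x⟩ (.leaf (⟨c418x, c419x, c381x, c381x⟩, 388)) (.leaf (⟨c419x, c419x, c381x, c404x⟩, 389)))) (.node ⟨c419x, c461x, c404x, c424x⟩ (.node ⟨c419x, c439x, c404x, c412x⟩ (.leaf (⟨c419x, c439x, c404x, c404x⟩, 390)) (.leaf (⟨c439x,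 c439x, c404x, c412x⟩, 391))) (.node ⟨c439x, c461x, c412x, c424x⟩ (.leaf (⟨c439x, c461x, c412x, c412x⟩, 392)) (.leaf (⟨c461x, c461x, c412x, c424x⟩, 393))))))))))) (.node ⟨c14x, c461x, c14x, c452x⟩ (.node ⟨c243x, c461x, c237x, c452x⟩ (.node ⟨c373x, c461x, c372x, c452x⟩ (.node ⟨c420x, c461x, c422x, c452x⟩ (.node ⟨c462x, c461x, c422x, c452x⟩ (.node ⟨c443x, c461x, c422x, c441x⟩ (.node ⟨c466x, c461x, c430x, c441x⟩ (.node ⟨c459x, c461x, c430x, c424x⟩ (.leaf (⟨c460x, c461x, c424x, c424x⟩, 394)) (.node ⟨c459x, c460x, c430x, c424x⟩ (.leaf (⟨c460x, c460x, c430x, c424x⟩, 395)) (.leaf (⟨c459x, c460x, c430x, c430x⟩, 396)))) (.node ⟨c466x, c459x, c430x, c441x⟩ (.leaf (⟨c459x, c459x, c430x, c441x⟩, 397)) (.node ⟨c466x, c459x, c426x, c441x⟩ (.leaf (⟨c466x, c459x, c441x, c441x⟩, 398)) (.leaf (⟨c466x, c466x, c426x,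 c441x⟩, 399))))) (.node ⟨c443x, c458x, c422x, c426x⟩ (.node ⟨c466x, c458x, c432x, c426x⟩ (.leaf (⟨c466x, c465x, c426x, c426x⟩, 400)) (.node ⟨c465x, c458x, c432x, c426x⟩ (.leaf (⟨c465x, c465x, c432x, c426x⟩, 401)) (.leaf (⟨c465x, c458x, c432x, c432x⟩, 402)))) (.node ⟨c443x, c458x, c422x, c432x⟩ (.leaf (⟨c458x, c458x, c436x, c432x⟩, 403)) (.node ⟨c443x, c458x, c422x, c436x⟩ (.leaf (⟨c443x, c458x, c436x, c436x⟩, 404)) (.leaf (⟨c443x, c443x, c422x, c436x⟩, 405)))))) (.node ⟨c462x, c464x, c422x, c452x⟩ (.node ⟨c442x, c464x, c422x, c452x⟩ (.node ⟨c442x, c464x, c422x, c450x⟩ (.leaf (⟨c442x, c443x, c422x, c422x⟩, 406)) (.node ⟨c442x, c464x, c422x, c450x⟩ (.leaf (⟨c442x, c442x, c422x, c450x⟩, 407)) (.leaf (⟨c442x, c464x, c450x, c450x⟩, 408)))) (.node ⟨c463x, c464x, c450x, c452x⟩ (.leaf (⟨c464x, c464x, c450x,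 c454x⟩, 409)) (.node ⟨c463x, c464x, c454x, c452x⟩ (.leaf (⟨c463x, c464x, c454x, c454x⟩, 410)) (.leaf (⟨c463x, c463x, c454x, c452x⟩, 411))))) (.node ⟨c462x, c463x, c450x, c452x⟩ (.node ⟨c457x, c463x, c440x, c452x⟩ (.leaf (⟨c443x, c463x, c452x, c452x⟩, 412)) (.node ⟨c457x, c443x, c440x, c452x⟩ (.leaf (⟨c443x, c443x, c440x, c452x⟩, 413)) (.leaf (⟨c457x, c443x, c440x, c440x⟩, 414)))) (.node ⟨c462x, c457x, c450x, c440x⟩ (.leaf (⟨c457x, c457x, c434x, c440x⟩, 415)) (.node ⟨c462x, c457x, c450x, c434x⟩ (.leaf (⟨c462x, c457x, c434x, c434x⟩, 416)) (.leaf (⟨c462x, c462x, c450x, c434x⟩, 417))))))) (.node ⟨c420x, c448x, c422x, c441x⟩ (.node ⟨c438x, c448x, c432x, c426x⟩ (.node ⟨c446x, c448x, c432x, c430x⟩ (.node ⟨c447x, c448x, c432x, c450x⟩ (.leaf (⟨c462x, c448x, c450x, c450x⟩, 418)) (.node ⟨c447x, c448x, c432x,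 c450x⟩ (.leaf (⟨c448x, c448x, c432x, c450x⟩, 419)) (.leaf (⟨c447x, c448x, c432x, c432x⟩, 420)))) (.node ⟨c446x, c447x, c432x, c430x⟩ (.leaf (⟨c447x, c447x, c432x, c430x⟩, 421)) (.node ⟨c446x, c447x, c428x, c430x⟩ (.leaf (⟨c446x, c447x, c430x, c430x⟩, 422)) (.leaf (⟨c446x, c446x, c428x, c430x⟩, 423))))) (.node ⟨c438x, c446x, c428x, c426x⟩ (.node ⟨c444x, c446x, c428x, c426x⟩ (.leaf (⟨c445x, c446x, c428x, c428x⟩, 424)) (.node ⟨c444x, c445x, c428x, c426x⟩ (.leaf (⟨c445x, c445x, c428x, c426x⟩, 425)) (.leaf (⟨c444x, c445x, c426x, c426x⟩, 426)))) (.node ⟨c438x, c444x, c430x, c426x⟩ (.leaf (⟨c444x, c444x, c424x, c426x⟩, 427)) (.node ⟨c438x, c444x, c430x, c424x⟩ (.leaf (⟨c438x, c444x, c424x, c424x⟩, 428)) (.leaf (⟨c438x, c438x, c430x, c424x⟩, 429)))))) (.node ⟨c420x, c438x, c422x, c441x⟩ (.node ⟨c456x, c438x,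 c432x, c441x⟩ (.node ⟨c456x, c438x, c430x, c441x⟩ (.leaf (⟨c437x, c438x, c430x, c430x⟩, 430)) (.node ⟨c456x, c437x, c430x, c441x⟩ (.leaf (⟨c437x, c437x, c430x, c441x⟩, 431)) (.leaf (⟨c456x, c437x, c441x, c441x⟩, 432)))) (.node ⟨c456x, c455x, c432x, c441x⟩ (.leaf (⟨c456x, c456x, c426x, c441x⟩, 433)) (.node ⟨c456x, c455x, c432x, c426x⟩ (.leaf (⟨c456x, c455x, c426x, c426x⟩, 434)) (.leaf (⟨c455x, c455x, c432x, c426x⟩, 435))))) (.node ⟨c420x, c435x, c422x, c450x⟩ (.node ⟨c421x, c435x, c436x, c432x⟩ (.leaf (⟨c455x, c435x, c432x, c432x⟩, 436)) (.node ⟨c421x, c435x, c436x, c432x⟩ (.leaf (⟨c435x, c435x, c436x, c432x⟩, 437)) (.leaf (⟨c421x, c435x, c436x, c436x⟩, 438)))) (.node ⟨c420x, c453x, c422x, c450x⟩ (.node ⟨c420x, c421x, c422x, c436x⟩ (.leaf (⟨c421x, c421x, c422x, c436x⟩, 439)) (.leaf (⟨c420x, c421x,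 c422x, c422x⟩, 440))) (.node ⟨c420x, c453x, c422x, c450x⟩ (.leaf (⟨c420x, c420x, c422x, c450x⟩, 441)) (.leaf (⟨c420x, c453x, c450x, c450x⟩, 442)))))))) (.node ⟨c373x, c453x, c372x, c452x⟩ (.node ⟨c392x, c453x, c404x, c452x⟩ (.node ⟨c429x, c453x, c432x, c452x⟩ (.node ⟨c433x, c453x, c450x, c452x⟩ (.node ⟨c451x, c453x, c450x, c452x⟩ (.leaf (⟨c453x, c453x, c450x, c454x⟩, 443)) (.node ⟨c451x, c453x, c454x, c452x⟩ (.leaf (⟨c451x, c453x, c454x, c454x⟩, 444)) (.leaf (⟨c451x, c451x, c454x, c452x⟩, 445)))) (.node ⟨c433x, c451x, c440x, c452x⟩ (.leaf (⟨c421x, c451x, c452x, c452x⟩, 446)) (.node ⟨c433x, c421x, c440x, c452x⟩ (.leaf (⟨c421x, c421x, c440x, c452x⟩, 447)) (.leaf (⟨c433x, c421x, c440x, c440x⟩, 448))))) (.node ⟨c429x, c433x, c432x, c440x⟩ (.node ⟨c449x, c433x, c450x, c440x⟩ (.leaf (⟨c433x, c433x, c434x,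 c440x⟩, 449)) (.node ⟨c449x, c433x, c450x, c434x⟩ (.leaf (⟨c449x, c433x, c434x, c434x⟩, 450)) (.leaf (⟨c449x, c449x, c450x, c434x⟩, 451)))) (.node ⟨c429x, c431x, c432x, c450x⟩ (.leaf (⟨c449x, c431x, c450x, c450x⟩, 452)) (.node ⟨c429x, c431x, c432x, c450x⟩ (.leaf (⟨c431x, c431x, c432x, c450x⟩, 453)) (.leaf (⟨c429x, c431x, c432x, c432x⟩, 454)))))) (.node ⟨c392x, c429x, c404x, c426x⟩ (.node ⟨c423x, c429x, c432x, c426x⟩ (.node ⟨c427x, c429x, c432x, c430x⟩ (.leaf (⟨c429x, c429x, c432x, c430x⟩, 455)) (.node ⟨c427x, c429x, c428x, c430x⟩ (.leaf (⟨c427x, c429x, c430x, c430x⟩, 456)) (.leaf (⟨c427x, c427x, c428x, c430x⟩, 457)))) (.node ⟨c423x, c427x, c428x, c426x⟩ (.leaf (⟨c425x, c427x, c428x, c428x⟩, 458)) (.node ⟨c423x, c425x, c428x, c426x⟩ (.leaf (⟨c425x, c425x, c428x, c426x⟩, 459)) (.leaf (⟨c423x, c425x,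 c426x, c426x⟩, 460))))) (.node ⟨c392x, c423x, c404x, c426x⟩ (.node ⟨c419x, c423x, c412x, c426x⟩ (.leaf (⟨c423x, c423x, c424x, c426x⟩, 461)) (.node ⟨c419x, c423x, c412x, c424x⟩ (.leaf (⟨c419x, c423x, c424x, c424x⟩, 462)) (.leaf (⟨c419x, c419x, c412x, c424x⟩, 463)))) (.node ⟨c392x, c419x, c404x, c412x⟩ (.leaf (⟨c403x, c419x, c412x, c412x⟩, 464)) (.node ⟨c392x, c403x, c404x, c412x⟩ (.leaf (⟨c403x, c403x, c404x, c412x⟩, 465)) (.leaf (⟨c392x, c403x, c404x, c404x⟩, 466))))))) (.node ⟨c373x, c392x, c372x, c404x⟩ (.node ⟨c370x, c392x, c379x, c404x⟩ (.node ⟨c377x, c392x, c379x, c404x⟩ (.node ⟨c391x, c392x, c381x, c404x⟩ (.leaf (⟨c392x, c392x, c381x, c404x⟩, 467)) (.node ⟨c391x, c392x, c381x, c387x⟩ (.leaf (⟨c391x, c392x, c381x, c381x⟩, 468)) (.leaf (⟨c391x, c391x, c381x, c387x⟩, 469)))) (.node ⟨c377x, c391x,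 c379x, c387x⟩ (.leaf (⟨c378x, c391x, c387x, c387x⟩, 470)) (.node ⟨c377x, c378x, c379x, c387x⟩ (.leaf (⟨c378x, c378x, c379x, c387x⟩, 471)) (.leaf (⟨c377x, c378x, c379x, c379x⟩, 472))))) (.node ⟨c370x, c402x, c379x, c393x⟩ (.node ⟨c377x, c401x, c379x, c388x⟩ (.leaf (⟨c377x, c377x, c379x, c383x⟩, 473)) (.node ⟨c377x, c401x, c383x, c388x⟩ (.leaf (⟨c377x, c401x, c383x, c383x⟩, 474)) (.leaf (⟨c401x, c401x, c383x, c388x⟩, 475)))) (.node ⟨c370x, c402x, c388x, c393x⟩ (.leaf (⟨c401x, c402x, c388x, c388x⟩, 476)) (.node ⟨c370x, c402x, c388x, c393x⟩ (.leaf (⟨c402x, c402x, c388x, c393x⟩, 477)) (.leaf (⟨c370x, c402x, c393x, c393x⟩, 478)))))) (.node ⟨c373x, c389x, c372x, c400x⟩ (.node ⟨c399x, c389x, c390x, c400x⟩ (.node ⟨c399x, c370x, c396x, c400x⟩ (.leaf (⟨c370x, c370x, c393x, c400x⟩, 479)) (.node ⟨c399x, c370x,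 c396x, c400x⟩ (.leaf (⟨c399x, c370x, c400x, c400x⟩, 480)) (.leaf (⟨c399x, c399x, c396x, c400x⟩, 481)))) (.node ⟨c399x, c389x, c390x, c396x⟩ (.leaf (⟨c399x, c389x, c396x, c396x⟩, 482)) (.node ⟨c371x, c389x, c390x, c396x⟩ (.leaf (⟨c389x, c389x, c390x, c396x⟩, 483)) (.leaf (⟨c371x, c389x, c390x, c390x⟩, 484))))) (.node ⟨c373x, c371x, c372x, c396x⟩ (.node ⟨c370x, c371x, c372x, c390x⟩ (.leaf (⟨c371x, c371x, c372x, c390x⟩, 485)) (.node ⟨c370x, c371x, c372x, c376x⟩ (.leaf (⟨c370x, c371x, c372x, c372x⟩, 486)) (.leaf (⟨c370x, c370x, c372x, c376x⟩, 487)))) (.node ⟨c373x, c370x, c376x, c396x⟩ (.node ⟨c374x, c370x, c376x, c375x⟩ (.leaf (⟨c374x, c370x, c376x, c376x⟩, 488)) (.leaf (⟨c374x, c374x, c376x, c375x⟩, 489))) (.node ⟨c373x, c374x, c375x, c396x⟩ (.leaf (⟨c373x, c374x, c375x, c375x⟩, 490)) (.leaf (⟨c373x,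 c373x, c375x, c396x⟩, 491))))))))) (.node ⟨c243x, c398x, c237x, c388x⟩ (.node ⟨c334x, c398x, c329x, c388x⟩ (.node ⟨c357x, c398x, c326x, c388x⟩ (.node ⟨c369x, c398x, c361x, c388x⟩ (.node ⟨c384x, c398x, c387x, c388x⟩ (.node ⟨c386x, c398x, c396x, c388x⟩ (.leaf (⟨c373x, c398x, c396x, c396x⟩, 492)) (.node ⟨c386x, c398x, c396x, c388x⟩ (.leaf (⟨c398x, c398x, c396x, c388x⟩, 493)) (.leaf (⟨c386x, c398x, c388x, c388x⟩, 494)))) (.node ⟨c384x, c386x, c387x, c388x⟩ (.leaf (⟨c386x, c386x, c387x, c388x⟩, 495)) (.node ⟨c384x, c386x, c387x, c385x⟩ (.leaf (⟨c384x, c386x, c387x, c387x⟩, 496)) (.leaf (⟨c384x, c384x, c387x, c385x⟩, 497))))) (.node ⟨c369x, c384x, c361x, c385x⟩ (.node ⟨c380x, c384x, c383x, c385x⟩ (.leaf (⟨c382x, c384x, c385x, c385x⟩, 498)) (.node ⟨c380x, c382x, c383x, c385x⟩ (.leaf (⟨c382x, c382x, c383x,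 c385x⟩, 499)) (.leaf (⟨c380x, c382x, c383x, c383x⟩, 500)))) (.node ⟨c369x, c380x, c361x, c381x⟩ (.leaf (⟨c380x, c380x, c383x, c381x⟩, 501)) (.node ⟨c369x, c380x, c361x, c381x⟩ (.leaf (⟨c369x, c380x, c381x, c381x⟩, 502)) (.leaf (⟨c369x, c369x, c361x, c381x⟩, 503)))))) (.node ⟨c357x, c369x, c326x, c361x⟩ (.node ⟨c333x, c369x, c324x, c361x⟩ (.node ⟨c342x, c369x, c359x, c361x⟩ (.leaf (⟨c358x, c369x, c361x, c361x⟩, 504)) (.node ⟨c342x, c358x, c359x, c361x⟩ (.leaf (⟨c358x, c358x, c359x, c361x⟩, 505)) (.leaf (⟨c342x, c358x, c359x, c359x⟩, 506)))) (.node ⟨c333x, c342x, c324x, c359x⟩ (.leaf (⟨c342x, c342x, c335x, c359x⟩, 507)) (.node ⟨c333x, c342x, c324x, c335x⟩ (.leaf (⟨c333x, c342x, c335x, c335x⟩, 508)) (.leaf (⟨c333x, c333x, c324x, c335x⟩, 509))))) (.node ⟨c357x, c333x, c326x, c339x⟩ (.node ⟨c357x, c333x,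 c324x, c339x⟩ (.leaf (⟨c332x, c333x, c324x, c324x⟩, 510)) (.node ⟨c357x, c332x, c324x, c339x⟩ (.leaf (⟨c332x, c332x, c324x, c339x⟩, 511)) (.leaf (⟨c357x, c332x, c339x, c339x⟩, 512)))) (.node ⟨c357x, c341x, c326x, c339x⟩ (.leaf (⟨c357x, c357x, c336x, c339x⟩, 513)) (.node ⟨c357x, c341x, c326x, c336x⟩ (.leaf (⟨c357x, c341x, c336x, c336x⟩, 514)) (.leaf (⟨c341x, c341x, c326x, c336x⟩, 515))))))) (.node ⟨c334x, c330x, c329x, c354x⟩ (.node ⟨c327x, c330x, c329x, c354x⟩ (.node ⟨c327x, c330x, c329x, c345x⟩ (.node ⟨c328x, c330x, c331x, c326x⟩ (.leaf (⟨c341x, c330x, c326x, c326x⟩, 516)) (.node ⟨c328x, c330x, c331x, c326x⟩ (.leaf (⟨c330x, c330x, c331x, c326x⟩, 517)) (.leaf (⟨c328x, c330x, c331x, c331x⟩, 518)))) (.node ⟨c327x, c328x, c329x, c345x⟩ (.leaf (⟨c328x, c328x, c329x, c331x⟩, 519)) (.node ⟨c327x, c328x,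 c329x, c345x⟩ (.leaf (⟨c327x, c328x, c329x, c329x⟩, 520)) (.leaf (⟨c327x, c327x, c329x, c345x⟩, 521))))) (.node ⟨c327x, c355x, c345x, c354x⟩ (.node ⟨c327x, c355x, c345x, c356x⟩ (.leaf (⟨c327x, c355x, c345x, c345x⟩, 522)) (.node ⟨c353x, c355x, c345x, c356x⟩ (.leaf (⟨c355x, c355x, c345x, c356x⟩, 523)) (.leaf (⟨c353x, c355x, c356x, c356x⟩, 524)))) (.node ⟨c328x, c353x, c356x, c354x⟩ (.leaf (⟨c353x, c353x, c356x, c354x⟩, 525)) (.node ⟨c328x, c353x, c340x, c354x⟩ (.leaf (⟨c328x, c353x, c354x, c354x⟩, 526)) (.leaf (⟨c328x, c328x, c340x, c354x⟩, 527)))))) (.node ⟨c334x, c328x, c326x, c340x⟩ (.node ⟨c352x, c328x, c326x, c340x⟩ (.node ⟨c352x, c328x, c338x, c340x⟩ (.leaf (⟨c337x, c328x, c340x, c340x⟩, 528)) (.node ⟨c352x, c337x, c338x, c340x⟩ (.leaf (⟨c337x, c337x, c338x, c340x⟩, 529)) (.leaf (⟨c352x, c337x,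 c338x, c338x⟩, 530)))) (.node ⟨c352x, c325x, c326x, c338x⟩ (.leaf (⟨c352x, c352x, c345x, c338x⟩, 531)) (.node ⟨c352x, c325x, c326x, c345x⟩ (.leaf (⟨c352x, c325x, c345x, c345x⟩, 532)) (.leaf (⟨c325x, c325x, c326x, c345x⟩, 533))))) (.node ⟨c334x, c325x, c326x, c336x⟩ (.node ⟨c321x, c325x, c326x, c324x⟩ (.leaf (⟨c323x, c325x, c326x, c326x⟩, 534)) (.node ⟨c321x, c323x, c326x, c324x⟩ (.leaf (⟨c323x, c323x, c326x, c324x⟩, 535)) (.leaf (⟨c321x, c323x, c324x, c324x⟩, 536)))) (.node ⟨c334x, c321x, c322x, c336x⟩ (.node ⟨c320x, c321x, c322x, c324x⟩ (.leaf (⟨c321x, c321x, c322x, c324x⟩, 537)) (.leaf (⟨c320x, c321x, c322x, c322x⟩, 538))) (.node ⟨c334x, c320x, c322x, c336x⟩ (.leaf (⟨c320x, c320x, c322x, c336x⟩, 539)) (.leaf (⟨c334x, c320x, c336x, c336x⟩, 540)))))))) (.node ⟨c243x, c334x, c237x, c336x⟩ (.node ⟨c294x,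 c334x, c277x, c336x⟩ (.node ⟨c282x, c334x, c284x, c336x⟩ (.node ⟨c287x, c334x, c298x, c336x⟩ (.node ⟨c317x, c334x, c311x, c336x⟩ (.leaf (⟨c334x, c334x, c335x, c336x⟩, 541)) (.node ⟨c317x, c334x, c311x, c335x⟩ (.leaf (⟨c317x, c334x, c335x, c335x⟩, 542)) (.leaf (⟨c317x, c317x, c311x, c335x⟩, 543)))) (.node ⟨c287x, c317x, c298x, c311x⟩ (.leaf (⟨c297x, c317x, c311x, c311x⟩, 544)) (.node ⟨c287x, c297x, c298x, c311x⟩ (.leaf (⟨c297x, c297x, c298x, c311x⟩, 545)) (.leaf (⟨c287x, c297x, c298x, c298x⟩, 546))))) (.node ⟨c282x, c287x, c284x, c298x⟩ (.node ⟨c285x, c287x, c279x, c298x⟩ (.leaf (⟨c287x, c287x, c279x, c298x⟩, 547)) (.node ⟨c285x, c287x, c279x, c286x⟩ (.leaf (⟨c285x, c287x, c279x, c279x⟩, 548)) (.leaf (⟨c285x, c285x, c279x, c286x⟩, 549)))) (.node ⟨c282x, c285x, c284x, c286x⟩ (.leaf (⟨c283x, c285x,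 c286x, c286x⟩, 550)) (.node ⟨c282x, c283x, c284x, c286x⟩ (.leaf (⟨c283x, c283x, c284x, c286x⟩, 551)) (.leaf (⟨c282x, c283x, c284x, c284x⟩, 552)))))) (.node ⟨c294x, c282x, c277x, c309x⟩ (.node ⟨c275x, c282x, c277x, c281x⟩ (.node ⟨c276x, c282x, c277x, c281x⟩ (.leaf (⟨c282x, c282x, c284x, c281x⟩, 553)) (.node ⟨c276x, c282x, c277x, c281x⟩ (.leaf (⟨c276x, c282x, c281x, c281x⟩, 554)) (.leaf (⟨c276x, c276x, c277x, c281x⟩, 555)))) (.node ⟨c275x, c276x, c277x, c295x⟩ (.leaf (⟨c275x, c276x, c277x, c277x⟩, 556)) (.node ⟨c275x, c308x, c277x, c295x⟩ (.leaf (⟨c275x, c275x, c277x, c295x⟩, 557)) (.leaf (⟨c275x, c308x, c295x, c295x⟩, 558))))) (.node ⟨c294x, c308x, c295x, c309x⟩ (.node ⟨c289x, c308x, c295x, c291x⟩ (.leaf (⟨c308x, c308x, c295x, c290x⟩, 559)) (.node ⟨c289x, c308x, c290x, c291x⟩ (.leaf (⟨c289x, c308x,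 c290x, c290x⟩, 560)) (.leaf (⟨c289x, c289x, c290x, c291x⟩, 561)))) (.node ⟨c294x, c289x, c296x, c309x⟩ (.node ⟨c271x, c289x, c291x, c309x⟩ (.leaf (⟨c271x, c289x, c291x, c291x⟩, 562)) (.leaf (⟨c271x, c271x, c291x, c309x⟩, 563))) (.node ⟨c294x, c271x, c296x, c309x⟩ (.leaf (⟨c294x, c271x, c309x, c309x⟩, 564)) (.leaf (⟨c294x, c294x, c296x, c309x⟩, 565))))))) (.node ⟨c243x, c273x, c237x, c288x⟩ (.node ⟨c270x, c273x, c274x, c288x⟩ (.node ⟨c293x, c273x, c274x, c296x⟩ (.node ⟨c293x, c273x, c295x, c296x⟩ (.leaf (⟨c293x, c294x, c296x, c296x⟩, 566)) (.node ⟨c293x, c273x, c295x, c296x⟩ (.leaf (⟨c293x, c293x, c295x, c296x⟩, 567)) (.leaf (⟨c293x, c273x, c295x, c295x⟩, 568)))) (.node ⟨c271x, c273x, c274x, c295x⟩ (.leaf (⟨c273x, c273x, c274x, c295x⟩, 569)) (.node ⟨c271x, c273x, c274x, c272x⟩ (.leaf (⟨c271x, c273x,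 c274x, c274x⟩, 570)) (.leaf (⟨c271x, c271x, c274x, c272x⟩, 571))))) (.node ⟨c270x, c271x, c272x, c288x⟩ (.node ⟨c270x, c271x, c272x, c277x⟩ (.leaf (⟨c270x, c271x, c272x, c272x⟩, 572)) (.node ⟨c270x, c292x, c272x, c277x⟩ (.leaf (⟨c270x, c270x, c272x, c277x⟩, 573)) (.leaf (⟨c270x, c292x, c277x, c277x⟩, 574)))) (.node ⟨c292x, c307x, c277x, c288x⟩ (.leaf (⟨c292x, c292x, c277x, c286x⟩, 575)) (.node ⟨c292x, c307x, c286x, c288x⟩ (.leaf (⟨c292x, c307x, c286x, c286x⟩, 576)) (.leaf (⟨c307x, c307x, c286x, c288x⟩, 577)))))) (.node ⟨c243x, c307x, c237x, c288x⟩ (.node ⟨c269x, c307x, c262x, c288x⟩ (.node ⟨c278x, c307x, c281x, c288x⟩ (.leaf (⟨c280x, c307x, c288x, c288x⟩, 578)) (.node ⟨c278x, c280x, c281x, c288x⟩ (.leaf (⟨c280x, c280x, c281x, c288x⟩, 579)) (.leaf (⟨c278x, c280x, c281x, c281x⟩, 580)))) (.node ⟨c269x,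 c278x, c262x, c279x⟩ (.leaf (⟨c278x, c278x, c281x, c279x⟩, 581)) (.node ⟨c269x, c278x, c262x, c279x⟩ (.leaf (⟨c269x, c278x, c279x, c279x⟩, 582)) (.leaf (⟨c269x, c269x, c262x, c279x⟩, 583))))) (.node ⟨c243x, c269x, c237x, c262x⟩ (.node ⟨c245x, c269x, c250x, c262x⟩ (.leaf (⟨c249x, c269x, c262x, c262x⟩, 584)) (.node ⟨c245x, c249x, c250x, c262x⟩ (.leaf (⟨c249x, c249x, c250x, c262x⟩, 585)) (.leaf (⟨c245x, c249x, c250x, c250x⟩, 586)))) (.node ⟨c243x, c245x, c237x, c250x⟩ (.node ⟨c244x, c245x, c233x, c250x⟩ (.leaf (⟨c245x, c245x, c233x, c250x⟩, 587)) (.leaf (⟨c244x, c245x, c233x, c233x⟩, 588))) (.node ⟨c243x, c244x, c237x, c233x⟩ (.leaf (⟨c244x, c244x, c237x, c233x⟩, 589)) (.leaf (⟨c243x, c244x, c237x, c237x⟩, 590)))))))))) (.node ⟨c14x, c243x, c14x, c260x⟩ (.node ⟨c124x, c243x, c161x, c260x⟩ (.node ⟨c150x,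 c243x, c189x, c260x⟩ (.node ⟨c258x, c243x, c227x, c260x⟩ (.node ⟨c226x, c243x, c229x, c240x⟩ (.node ⟨c239x, c243x, c237x, c240x⟩ (.node ⟨c242x, c243x, c237x, c246x⟩ (.leaf (⟨c243x, c243x, c237x, c246x⟩, 591)) (.node ⟨c242x, c243x, c234x, c246x⟩ (.leaf (⟨c242x, c243x, c246x, c246x⟩, 592)) (.leaf (⟨c242x, c242x, c234x, c246x⟩, 593)))) (.node ⟨c239x, c242x, c234x, c240x⟩ (.leaf (⟨c241x, c242x, c234x, c234x⟩, 594)) (.node ⟨c239x, c241x, c234x, c240x⟩ (.leaf (⟨c241x, c241x, c234x, c240x⟩, 595)) (.leaf (⟨c239x, c241x, c240x, c240x⟩, 596))))) (.node ⟨c226x, c230x, c229x, c240x⟩ (.node ⟨c239x, c230x, c231x, c240x⟩ (.leaf (⟨c239x, c239x, c238x, c240x⟩, 597)) (.node ⟨c239x, c230x, c231x, c238x⟩ (.leaf (⟨c239x, c230x, c238x, c238x⟩, 598)) (.leaf (⟨c230x, c230x, c231x, c238x⟩, 599)))) (.node ⟨c226x, c230x, c229x,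 c231x⟩ (.leaf (⟨c228x, c230x, c231x, c231x⟩, 600)) (.node ⟨c226x, c228x, c229x, c231x⟩ (.leaf (⟨c228x, c228x, c229x, c231x⟩, 601)) (.leaf (⟨c226x, c228x, c229x, c229x⟩, 602)))))) (.node ⟨c258x, c259x, c227x, c260x⟩ (.node ⟨c223x, c259x, c227x, c238x⟩ (.node ⟨c224x, c226x, c227x, c225x⟩ (.leaf (⟨c226x, c226x, c227x, c229x⟩, 603)) (.node ⟨c224x, c226x, c227x, c225x⟩ (.leaf (⟨c224x, c226x, c227x, c227x⟩, 604)) (.leaf (⟨c224x, c224x, c227x, c225x⟩, 605)))) (.node ⟨c223x, c259x, c225x, c238x⟩ (.leaf (⟨c223x, c224x, c225x, c225x⟩, 606)) (.node ⟨c223x, c259x, c225x, c238x⟩ (.leaf (⟨c223x, c223x, c225x, c238x⟩, 607)) (.leaf (⟨c223x, c259x, c238x, c238x⟩, 608))))) (.node ⟨c258x, c259x, c238x, c260x⟩ (.node ⟨c226x, c259x, c238x, c260x⟩ (.leaf (⟨c259x, c259x, c238x, c260x⟩, 609)) (.node ⟨c226x, c259x, c235x,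 c260x⟩ (.leaf (⟨c226x, c259x, c260x, c260x⟩, 610)) (.leaf (⟨c226x, c226x, c235x, c260x⟩, 611)))) (.node ⟨c258x, c226x, c240x, c235x⟩ (.leaf (⟨c258x, c226x, c235x, c235x⟩, 612)) (.node ⟨c258x, c236x, c240x, c235x⟩ (.leaf (⟨c258x, c258x, c240x, c235x⟩, 613)) (.leaf (⟨c258x, c236x, c240x, c240x⟩, 614))))))) (.node ⟨c150x, c221x, c189x, c240x⟩ (.node ⟨c175x, c221x, c204x, c240x⟩ (.node ⟨c232x, c221x, c222x, c240x⟩ (.node ⟨c236x, c221x, c222x, c240x⟩ (.leaf (⟨c236x, c236x, c237x, c240x⟩, 615)) (.node ⟨c236x, c221x, c222x, c237x⟩ (.leaf (⟨c236x, c221x, c237x, c237x⟩, 616)) (.leaf (⟨c221x, c221x, c222x, c237x⟩, 617)))) (.node ⟨c232x, c221x, c222x, c234x⟩ (.leaf (⟨c220x, c221x, c222x, c222x⟩, 618)) (.node ⟨c232x, c220x, c222x, c234x⟩ (.leaf (⟨c220x, c220x, c222x, c234x⟩, 619)) (.leaf (⟨c232x, c220x, c234x,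 c234x⟩, 620))))) (.node ⟨c175x, c232x, c204x, c234x⟩ (.node ⟨c219x, c232x, c208x, c234x⟩ (.leaf (⟨c232x, c232x, c233x, c234x⟩, 621)) (.node ⟨c219x, c232x, c208x, c233x⟩ (.leaf (⟨c219x, c232x, c233x, c233x⟩, 622)) (.leaf (⟨c219x, c219x, c208x, c233x⟩, 623)))) (.node ⟨c175x, c219x, c204x, c208x⟩ (.leaf (⟨c203x, c219x, c208x, c208x⟩, 624)) (.node ⟨c175x, c203x, c204x, c208x⟩ (.leaf (⟨c203x, c203x, c204x, c208x⟩, 625)) (.leaf (⟨c175x, c203x, c204x, c204x⟩, 626)))))) (.node ⟨c150x, c175x, c189x, c204x⟩ (.node ⟨c182x, c175x, c193x, c204x⟩ (.node ⟨c174x, c175x, c186x, c204x⟩ (.leaf (⟨c175x, c175x, c186x, c204x⟩, 627)) (.node ⟨c174x, c175x, c186x, c194x⟩ (.leaf (⟨c174x, c175x, c186x, c186x⟩, 628)) (.leaf (⟨c174x, c174x, c186x, c194x⟩, 629)))) (.node ⟨c182x, c174x, c193x, c194x⟩ (.leaf (⟨c172x, c174x, c194x,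 c194x⟩, 630)) (.node ⟨c182x, c172x, c193x, c194x⟩ (.leaf (⟨c172x, c172x, c193x, c194x⟩, 631)) (.leaf (⟨c182x, c172x, c193x, c193x⟩, 632))))) (.node ⟨c150x, c182x, c189x, c191x⟩ (.node ⟨c179x, c182x, c189x, c187x⟩ (.leaf (⟨c182x, c182x, c193x, c187x⟩, 633)) (.node ⟨c179x, c182x, c189x, c187x⟩ (.leaf (⟨c179x, c182x, c187x, c187x⟩, 634)) (.leaf (⟨c179x, c179x, c189x, c187x⟩, 635)))) (.node ⟨c150x, c179x, c189x, c191x⟩ (.node ⟨c150x, c179x, c189x, c199x⟩ (.leaf (⟨c150x, c179x, c189x, c189x⟩, 636)) (.leaf (⟨c150x, c150x, c189x, c199x⟩, 637))) (.node ⟨c150x, c151x, c199x, c191x⟩ (.leaf (⟨c150x, c151x, c199x, c199x⟩, 638)) (.leaf (⟨c151x, c151x, c199x, c191x⟩, 639)))))))) (.node ⟨c124x, c151x, c161x, c206x⟩ (.node ⟨c163x, c151x, c168x, c206x⟩ (.node ⟨c158x, c151x, c185x, c206x⟩ (.node ⟨c201x, c151x, c202x,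 c206x⟩ (.node ⟨c176x, c151x, c191x, c192x⟩ (.leaf (⟨c190x, c151x, c191x, c191x⟩, 640)) (.node ⟨c176x, c190x, c191x, c192x⟩ (.leaf (⟨c190x, c190x, c191x, c192x⟩, 641)) (.leaf (⟨c176x, c190x, c192x, c192x⟩, 642)))) (.node ⟨c201x, c176x, c202x, c206x⟩ (.leaf (⟨c176x, c176x, c192x, c206x⟩, 643)) (.node ⟨c201x, c176x, c202x, c206x⟩ (.leaf (⟨c201x, c176x, c206x, c206x⟩, 644)) (.leaf (⟨c201x, c201x, c202x, c206x⟩, 645))))) (.node ⟨c158x, c160x, c185x, c202x⟩ (.node ⟨c158x, c160x, c199x, c202x⟩ (.leaf (⟨c158x, c201x, c202x, c202x⟩, 646)) (.node ⟨c158x, c160x, c199x, c202x⟩ (.leaf (⟨c158x, c158x, c199x, c202x⟩, 647)) (.leaf (⟨c158x, c160x, c199x, c199x⟩, 648)))) (.node ⟨c176x, c160x, c185x, c199x⟩ (.leaf (⟨c160x, c160x, c185x, c199x⟩, 649)) (.node ⟨c176x, c160x, c185x, c184x⟩ (.leaf (⟨c176x, c160x, c185x,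 c185x⟩, 650)) (.leaf (⟨c176x, c176x, c185x, c184x⟩, 651)))))) (.node ⟨c163x, c176x, c168x, c188x⟩ (.node ⟨c183x, c176x, c184x, c188x⟩ (.node ⟨c183x, c176x, c184x, c189x⟩ (.leaf (⟨c183x, c176x, c184x, c184x⟩, 652)) (.node ⟨c183x, c200x, c184x, c189x⟩ (.leaf (⟨c183x, c183x, c184x, c189x⟩, 653)) (.leaf (⟨c183x, c200x, c189x, c189x⟩, 654)))) (.node ⟨c200x, c156x, c189x, c188x⟩ (.leaf (⟨c200x, c200x, c189x, c194x⟩, 655)) (.node ⟨c200x, c156x, c194x, c188x⟩ (.leaf (⟨c200x, c156x, c194x, c194x⟩, 656)) (.leaf (⟨c156x, c156x, c194x, c188x⟩, 657))))) (.node ⟨c163x, c156x, c168x, c188x⟩ (.node ⟨c164x, c156x, c187x, c188x⟩ (.leaf (⟨c155x, c156x, c188x, c188x⟩, 658)) (.node ⟨c164x, c155x, c187x, c188x⟩ (.leaf (⟨c155x, c155x, c187x, c188x⟩, 659)) (.leaf (⟨c164x, c155x, c187x, c187x⟩, 660)))) (.node ⟨c163x, c164x,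 c168x, c186x⟩ (.leaf (⟨c164x, c164x, c187x, c186x⟩, 661)) (.node ⟨c163x, c164x, c168x, c186x⟩ (.leaf (⟨c163x, c164x, c186x, c186x⟩, 662)) (.leaf (⟨c163x, c163x, c168x, c186x⟩, 663))))))) (.node ⟨c124x, c163x, c161x, c168x⟩ (.node ⟨c124x, c163x, c161x, c168x⟩ (.node ⟨c124x, c163x, c165x, c168x⟩ (.node ⟨c124x, c163x, c166x, c168x⟩ (.leaf (⟨c149x, c163x, c168x, c168x⟩, 664)) (.node ⟨c124x, c149x, c166x, c168x⟩ (.leaf (⟨c149x, c149x, c166x, c168x⟩, 665)) (.leaf (⟨c124x, c149x, c166x, c166x⟩, 666)))) (.node ⟨c124x, c144x, c165x, c166x⟩ (.leaf (⟨c124x, c124x, c165x, c166x⟩, 667)) (.node ⟨c124x, c144x, c165x, c167x⟩ (.leaf (⟨c124x, c144x, c165x, c165x⟩, 668)) (.leaf (⟨c144x, c144x, c165x, c167x⟩, 669))))) (.node ⟨c144x, c147x, c161x, c167x⟩ (.node ⟨c144x, c146x, c157x, c167x⟩ (.leaf (⟨c144x, c145x, c167x,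 c167x⟩, 670)) (.node ⟨c145x, c146x, c157x, c167x⟩ (.leaf (⟨c145x, c145x, c157x, c167x⟩, 671)) (.leaf (⟨c145x, c146x, c157x, c157x⟩, 672)))) (.node ⟨c146x, c147x, c161x, c159x⟩ (.leaf (⟨c146x, c146x, c157x, c159x⟩, 673)) (.node ⟨c146x, c147x, c161x, c159x⟩ (.leaf (⟨c146x, c147x, c159x, c159x⟩, 674)) (.leaf (⟨c147x, c147x, c161x, c159x⟩, 675)))))) (.node ⟨c147x, c132x, c161x, c178x⟩ (.node ⟨c147x, c141x, c161x, c171x⟩ (.node ⟨c147x, c127x, c161x, c162x⟩ (.leaf (⟨c147x, c127x, c161x, c161x⟩, 676)) (.node ⟨c126x, c127x, c161x, c162x⟩ (.leaf (⟨c127x, c127x, c161x, c162x⟩, 677)) (.leaf (⟨c126x, c127x, c162x, c162x⟩, 678)))) (.node ⟨c126x, c141x, c162x, c171x⟩ (.leaf (⟨c126x, c126x, c162x, c170x⟩, 679)) (.node ⟨c126x, c141x, c170x, c171x⟩ (.leaf (⟨c126x, c141x, c170x, c170x⟩, 680)) (.leaf (⟨c141x, c141x,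 c170x, c171x⟩, 681))))) (.node ⟨c141x, c132x, c162x, c178x⟩ (.node ⟨c141x, c131x, c171x, c178x⟩ (.leaf (⟨c141x, c130x, c171x, c171x⟩, 682)) (.node ⟨c130x, c131x, c171x, c178x⟩ (.leaf (⟨c130x, c130x, c171x, c178x⟩, 683)) (.leaf (⟨c130x, c131x, c178x, c178x⟩, 684)))) (.node ⟨c129x, c132x, c162x, c178x⟩ (.node ⟨c131x, c132x, c180x, c178x⟩ (.leaf (⟨c131x, c131x, c180x, c178x⟩, 685)) (.leaf (⟨c131x, c132x, c180x, c180x⟩, 686))) (.node ⟨c129x, c132x, c162x, c180x⟩ (.leaf (⟨c132x, c132x, c162x, c180x⟩, 687)) (.leaf (⟨c129x, c132x, c162x, c162x⟩, 688))))))))) (.node ⟨c14x, c149x, c14x, c173x⟩ (.node ⟨c116x, c149x, c102x, c173x⟩ (.node ⟨c113x, c149x, c115x, c173x⟩ (.node ⟨c129x, c148x, c152x, c173x⟩ (.node ⟨c129x, c140x, c152x, c162x⟩ (.node ⟨c129x, c130x, c152x, c162x⟩ (.leaf (⟨c129x, c129x, c152x, c162x⟩,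 689)) (.node ⟨c129x, c130x, c152x, c154x⟩ (.leaf (⟨c129x, c130x, c152x, c152x⟩, 690)) (.leaf (⟨c130x, c130x, c152x, c154x⟩, 691)))) (.node ⟨c130x, c140x, c154x, c161x⟩ (.leaf (⟨c130x, c140x, c154x, c154x⟩, 692)) (.node ⟨c134x, c140x, c154x, c161x⟩ (.leaf (⟨c140x, c140x, c154x, c161x⟩, 693)) (.leaf (⟨c134x, c140x, c161x, c161x⟩, 694))))) (.node ⟨c133x, c148x, c161x, c173x⟩ (.node ⟨c133x, c134x, c161x, c173x⟩ (.leaf (⟨c134x, c134x, c161x, c167x⟩, 695)) (.node ⟨c133x, c134x, c167x, c173x⟩ (.leaf (⟨c133x, c134x, c167x, c167x⟩, 696)) (.leaf (⟨c133x, c133x, c167x, c173x⟩, 697)))) (.node ⟨c133x, c148x, c159x, c173x⟩ (.leaf (⟨c133x, c143x, c173x, c173x⟩, 698)) (.node ⟨c143x, c148x, c159x, c173x⟩ (.leaf (⟨c143x, c143x, c159x, c173x⟩, 699)) (.leaf (⟨c143x, c148x, c159x, c159x⟩, 700)))))) (.node ⟨c113x, c149x,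 c115x, c165x⟩ (.node ⟨c123x, c149x, c125x, c165x⟩ (.node ⟨c148x, c149x, c142x, c165x⟩ (.leaf (⟨c148x, c148x, c159x, c165x⟩, 701)) (.node ⟨c148x, c149x, c142x, c165x⟩ (.leaf (⟨c148x, c149x, c165x, c165x⟩, 702)) (.leaf (⟨c149x, c149x, c142x, c165x⟩, 703)))) (.node ⟨c123x, c149x, c125x, c142x⟩ (.leaf (⟨c124x, c149x, c142x, c142x⟩, 704)) (.node ⟨c123x, c124x, c125x, c142x⟩ (.leaf (⟨c124x, c124x, c125x, c142x⟩, 705)) (.leaf (⟨c123x, c124x, c125x, c125x⟩, 706))))) (.node ⟨c113x, c123x, c115x, c125x⟩ (.node ⟨c122x, c123x, c104x, c125x⟩ (.leaf (⟨c123x, c123x, c104x, c125x⟩, 707)) (.node ⟨c122x, c123x, c104x, c119x⟩ (.leaf (⟨c122x, c123x, c104x, c104x⟩, 708)) (.leaf (⟨c122x, c122x, c104x, c119x⟩, 709)))) (.node ⟨c113x, c122x, c115x, c119x⟩ (.leaf (⟨c114x, c122x, c119x, c119x⟩, 710)) (.node ⟨c113x, c114x,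 c115x, c119x⟩ (.leaf (⟨c114x, c114x, c115x, c119x⟩, 711)) (.leaf (⟨c113x, c114x, c115x, c115x⟩, 712))))))) (.node ⟨c116x, c139x, c102x, c137x⟩ (.node ⟨c136x, c139x, c115x, c137x⟩ (.node ⟨c100x, c139x, c115x, c121x⟩ (.node ⟨c113x, c138x, c115x, c120x⟩ (.leaf (⟨c113x, c113x, c115x, c106x⟩, 713)) (.node ⟨c113x, c138x, c106x, c120x⟩ (.leaf (⟨c113x, c138x, c106x, c106x⟩, 714)) (.leaf (⟨c138x, c138x, c106x, c120x⟩, 715)))) (.node ⟨c100x, c139x, c120x, c121x⟩ (.leaf (⟨c138x, c139x, c120x, c120x⟩, 716)) (.node ⟨c100x, c139x, c120x, c121x⟩ (.leaf (⟨c139x, c139x, c120x, c121x⟩, 717)) (.leaf (⟨c100x, c139x, c121x, c121x⟩, 718))))) (.node ⟨c136x, c111x, c112x, c137x⟩ (.node ⟨c136x, c100x, c128x, c137x⟩ (.leaf (⟨c100x, c100x, c121x, c137x⟩, 719)) (.node ⟨c136x, c100x, c128x, c137x⟩ (.leaf (⟨c136x, c100x, c137x,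 c137x⟩, 720)) (.leaf (⟨c136x, c136x, c128x, c137x⟩, 721)))) (.node ⟨c136x, c111x, c112x, c128x⟩ (.leaf (⟨c136x, c111x, c128x, c128x⟩, 722)) (.node ⟨c101x, c111x, c112x, c128x⟩ (.leaf (⟨c111x, c111x, c112x, c128x⟩, 723)) (.leaf (⟨c101x, c111x, c112x, c112x⟩, 724)))))) (.node ⟨c116x, c101x, c102x, c120x⟩ (.node ⟨c107x, c101x, c102x, c112x⟩ (.node ⟨c100x, c101x, c102x, c112x⟩ (.leaf (⟨c101x, c101x, c102x, c112x⟩, 725)) (.node ⟨c100x, c101x, c102x, c110x⟩ (.leaf (⟨c100x, c101x, c102x, c102x⟩, 726)) (.leaf (⟨c100x, c100x, c102x, c110x⟩, 727)))) (.node ⟨c107x, c100x, c110x, c109x⟩ (.leaf (⟨c108x, c100x, c110x, c110x⟩, 728)) (.node ⟨c107x, c108x, c110x, c109x⟩ (.leaf (⟨c108x, c108x, c110x, c109x⟩, 729)) (.leaf (⟨c107x, c108x, c109x, c109x⟩, 730))))) (.node ⟨c116x, c135x, c109x, c120x⟩ (.node ⟨c107x, c135x,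 c109x, c120x⟩ (.leaf (⟨c107x, c107x, c109x, c128x⟩, 731)) (.node ⟨c107x, c135x, c128x, c120x⟩ (.leaf (⟨c107x, c135x, c128x, c128x⟩, 732)) (.leaf (⟨c135x, c135x, c128x, c120x⟩, 733)))) (.node ⟨c116x, c135x, c119x, c120x⟩ (.node ⟨c118x, c135x, c119x, c120x⟩ (.leaf (⟨c118x, c135x, c120x, c120x⟩, 734)) (.leaf (⟨c118x, c118x, c119x, c120x⟩, 735))) (.node ⟨c116x, c118x, c119x, c117x⟩ (.leaf (⟨c116x, c118x, c119x, c119x⟩, 736)) (.leaf (⟨c116x, c116x, c119x, c117x⟩, 737)))))))) (.node ⟨c14x, c116x, c14x, c117x⟩ (.node ⟨c50x, c116x, c52x, c117x⟩ (.node ⟨c68x, c116x, c64x, c117x⟩ (.node ⟨c98x, c116x, c91x, c117x⟩ (.node ⟨c103x, c116x, c106x, c117x⟩ (.leaf (⟨c105x, c116x, c117x, c117x⟩, 738)) (.node ⟨c103x, c105x, c106x, c117x⟩ (.leaf (⟨c105x, c105x, c106x, c117x⟩, 739)) (.leaf (⟨c103x, c105x, c106x, c106x⟩,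 740)))) (.node ⟨c98x, c103x, c91x, c104x⟩ (.leaf (⟨c103x, c103x, c106x, c104x⟩, 741)) (.node ⟨c98x, c103x, c91x, c104x⟩ (.leaf (⟨c98x, c103x, c104x, c104x⟩, 742)) (.leaf (⟨c98x, c98x, c91x, c104x⟩, 743))))) (.node ⟨c68x, c98x, c64x, c91x⟩ (.node ⟨c69x, c98x, c79x, c91x⟩ (.leaf (⟨c78x, c98x, c91x, c91x⟩, 744)) (.node ⟨c69x, c78x, c79x, c91x⟩ (.leaf (⟨c78x, c78x, c79x, c91x⟩, 745)) (.leaf (⟨c69x, c78x, c79x, c79x⟩, 746)))) (.node ⟨c68x, c69x, c64x, c79x⟩ (.leaf (⟨c69x, c69x, c62x, c79x⟩, 747)) (.node ⟨c68x, c69x, c64x, c62x⟩ (.leaf (⟨c68x, c69x, c62x, c62x⟩, 748)) (.leaf (⟨c68x, c68x, c64x, c62x⟩, 749)))))) (.node ⟨c50x, c68x, c52x, c71x⟩ (.node ⟨c89x, c68x, c58x, c71x⟩ (.node ⟨c89x, c68x, c64x, c71x⟩ (.leaf (⟨c67x, c68x, c64x, c64x⟩, 750)) (.node ⟨c89x, c67x, c64x, c71x⟩ (.leaf (⟨c67x, c67x, c64x,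 c71x⟩, 751)) (.leaf (⟨c89x, c67x, c71x, c71x⟩, 752)))) (.node ⟨c89x, c77x, c58x, c71x⟩ (.leaf (⟨c89x, c89x, c63x, c71x⟩, 753)) (.node ⟨c89x, c77x, c58x, c63x⟩ (.leaf (⟨c89x, c77x, c63x, c63x⟩, 754)) (.leaf (⟨c77x, c77x, c58x, c63x⟩, 755))))) (.node ⟨c50x, c59x, c52x, c73x⟩ (.node ⟨c51x, c59x, c60x, c58x⟩ (.leaf (⟨c77x, c59x, c58x, c58x⟩, 756)) (.node ⟨c51x, c59x, c60x, c58x⟩ (.leaf (⟨c59x, c59x, c60x, c58x⟩, 757)) (.leaf (⟨c51x, c59x, c60x, c60x⟩, 758)))) (.node ⟨c50x, c75x, c52x, c73x⟩ (.node ⟨c50x, c51x, c52x, c60x⟩ (.leaf (⟨c51x, c51x, c52x, c60x⟩, 759)) (.leaf (⟨c50x, c51x, c52x, c52x⟩, 760))) (.node ⟨c50x, c75x, c52x, c73x⟩ (.leaf (⟨c50x, c50x, c52x, c73x⟩, 761)) (.leaf (⟨c50x, c75x, c73x, c73x⟩, 762))))))) (.node ⟨c14x, c75x, c14x, c88x⟩ (.node ⟨c56x, c75x, c58x, c88x⟩ (.node ⟨c65x, c75x, c73x,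 c88x⟩ (.node ⟨c74x, c75x, c73x, c88x⟩ (.leaf (⟨c75x, c75x, c73x, c76x⟩, 763)) (.node ⟨c74x, c75x, c76x, c88x⟩ (.leaf (⟨c74x, c75x, c76x, c76x⟩, 764)) (.leaf (⟨c74x, c74x, c76x, c88x⟩, 765)))) (.node ⟨c65x, c74x, c70x, c88x⟩ (.leaf (⟨c51x, c74x, c88x, c88x⟩, 766)) (.node ⟨c65x, c51x, c70x, c88x⟩ (.leaf (⟨c51x, c51x, c70x, c88x⟩, 767)) (.leaf (⟨c65x, c51x, c70x, c70x⟩, 768))))) (.node ⟨c56x, c65x, c58x, c70x⟩ (.node ⟨c72x, c65x, c73x, c70x⟩ (.leaf (⟨c65x, c65x, c66x, c70x⟩, 769)) (.node ⟨c72x, c65x, c73x, c66x⟩ (.leaf (⟨c72x, c65x, c66x, c66x⟩, 770)) (.leaf (⟨c72x, c72x, c73x, c66x⟩, 771)))) (.node ⟨c56x, c57x, c58x, c73x⟩ (.leaf (⟨c72x, c57x, c73x, c73x⟩, 772)) (.node ⟨c56x, c57x, c58x, c73x⟩ (.leaf (⟨c57x, c57x, c58x, c73x⟩, 773)) (.leaf (⟨c56x, c57x, c58x, c58x⟩, 774)))))) (.node ⟨c14x, c56x, c14x,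 c63x⟩ (.node ⟨c61x, c56x, c58x, c63x⟩ (.node ⟨c54x, c56x, c58x, c64x⟩ (.leaf (⟨c56x, c56x, c58x, c64x⟩, 775)) (.node ⟨c54x, c56x, c55x, c64x⟩ (.leaf (⟨c54x, c56x, c64x, c64x⟩, 776)) (.leaf (⟨c54x, c54x, c55x, c64x⟩, 777)))) (.node ⟨c61x, c54x, c55x, c63x⟩ (.leaf (⟨c53x, c54x, c55x, c55x⟩, 778)) (.node ⟨c61x, c53x, c55x, c63x⟩ (.leaf (⟨c53x, c53x, c55x, c63x⟩, 779)) (.leaf (⟨c61x, c53x, c63x, c63x⟩, 780))))) (.node ⟨c14x, c61x, c14x, c63x⟩ (.node ⟨c49x, c61x, c43x, c63x⟩ (.leaf (⟨c61x, c61x, c62x, c63x⟩, 781)) (.node ⟨c49x, c61x, c43x, c62x⟩ (.leaf (⟨c49x, c61x, c62x, c62x⟩, 782)) (.leaf (⟨c49x, c49x, c43x, c62x⟩, 783)))) (.node ⟨c14x, c49x, c14x, c43x⟩ (.node ⟨c39x, c49x, c13x, c43x⟩ (.leaf (⟨c39x, c49x, c43x, c43x⟩, 784)) (.leaf (⟨c39x, c39x, c13x, c43x⟩, 785))) (.node ⟨c14x, c39x, c14x, c13x⟩ (.leaf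 (⟨c14x, c39x, c13x, c13x⟩, 786)) (.leaf (⟨c14x, c14x, c14x, c13x⟩, 787)))))))))))

def tc : CT := .node ⟨c14x, c461x, c6x, c452x⟩ (.node ⟨c14x, c219x, c6x, c208x⟩ (.node ⟨c14x, c134x, c6x, c125x⟩ (.node ⟨c14x, c69x, c6x, c66x⟩ (.node ⟨c14x, c35x, c6x, c13x⟩ (.node ⟨c14x, c10x, c6x, c13x⟩ (.node ⟨c7x, c10x, c6x, c13x⟩ (.node ⟨c1x, c5x, c6x, c4x⟩ (.leaf ⟨c1x, c2x, c3x, c4x⟩) (.leaf ⟨c2x, c5x, c6x, c4x⟩)) (.node ⟨c7x, c10x, c3x, c13x⟩ (.leaf ⟨c7x, c8x, c9x, c4x⟩) (.node ⟨c12x, c10x, c3x, c13x⟩ (.leaf ⟨c5x, c10x, c11x, c4x⟩) (.leaf ⟨c12x, c1x, c3x, c13x⟩)))) (.node ⟨c14x, c12x, c9x, c13x⟩ (.node ⟨c14x, c18x, c17x, c13x⟩ (.leaf ⟨c14x, c15x, c14x, c13x⟩) (.node ⟨c15x, c18x, c17x, c13x⟩ (.leaf ⟨c15x, c16x, c17x, c13x⟩) (.leaf ⟨c16x, c18x, c19x, c13x⟩))) (.node ⟨c18x, c12x, c9x, c13x⟩ (.leaf ⟨c18x, c20x,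 c21x, c13x⟩) (.node ⟨c20x, c12x, c9x, c13x⟩ (.leaf ⟨c8x, c12x, c9x, c13x⟩) (.leaf ⟨c20x, c8x, c22x, c13x⟩))))) (.node ⟨c2x, c35x, c6x, c13x⟩ (.node ⟨c23x, c33x, c6x, c4x⟩ (.node ⟨c23x, c29x, c3x, c4x⟩ (.leaf ⟨c23x, c24x, c25x, c17x⟩) (.node ⟨c26x, c29x, c3x, c4x⟩ (.leaf ⟨c26x, c27x, c9x, c4x⟩) (.leaf ⟨c28x, c29x, c3x, c4x⟩))) (.node ⟨c29x, c33x, c6x, c4x⟩ (.leaf ⟨c29x, c30x, c6x, c4x⟩) (.node ⟨c30x, c33x, c25x, c4x⟩ (.leaf ⟨c30x, c31x, c11x, c4x⟩) (.leaf ⟨c32x, c33x, c25x, c17x⟩)))) (.node ⟨c2x, c35x, c25x, c13x⟩ (.node ⟨c24x, c35x, c25x, c13x⟩ (.leaf ⟨c24x, c34x, c25x, c22x⟩) (.node ⟨c34x, c35x, c25x, c13x⟩ (.leaf ⟨c33x, c35x, c25x, c22x⟩) (.leaf ⟨c34x, c36x, c25x, c13x⟩))) (.node ⟨c2x, c39x, c14x, c13x⟩ (.leaf ⟨c2x, c34x, c37x, c13x⟩) (.node ⟨c36x, c39x, c14x, c13x⟩ (.leaf ⟨c36x, c38x, c21x, c13x⟩)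 (.leaf ⟨c38x, c39x, c14x, c13x⟩)))))) (.node ⟨c1x, c69x, c3x, c66x⟩ (.node ⟨c1x, c49x, c3x, c43x⟩ (.node ⟨c1x, c45x, c17x, c43x⟩ (.node ⟨c1x, c42x, c17x, c43x⟩ (.leaf ⟨c1x, c2x, c40x, c13x⟩) (.leaf ⟨c41x, c42x, c17x, c43x⟩)) (.node ⟨c39x, c45x, c14x, c43x⟩ (.leaf ⟨c39x, c41x, c14x, c43x⟩) (.node ⟨c42x, c45x, c21x, c43x⟩ (.leaf ⟨c42x, c44x, c19x, c43x⟩) (.leaf ⟨c44x, c45x, c21x, c43x⟩)))) (.node ⟨c45x, c49x, c3x, c43x⟩ (.node ⟨c45x, c28x, c3x, c43x⟩ (.leaf ⟨c46x, c28x, c3x, c43x⟩) (.node ⟨c45x, c46x, c9x, c43x⟩ (.leaf ⟨c27x, c46x, c9x, c43x⟩) (.leaf ⟨c45x, c27x, c22x, c43x⟩))) (.node ⟨c35x, c49x, c25x, c43x⟩ (.leaf ⟨c35x, c47x, c25x, c43x⟩) (.node ⟨c47x, c49x, c14x, c43x⟩ (.leaf ⟨c47x, c48x, c21x, c43x⟩) (.leaf ⟨c48x, c49x, c14x, c43x⟩))))) (.node ⟨c28x, c69x, c37x, c66x⟩ (.node ⟨c28x, c59x, c37x,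 c55x⟩ (.node ⟨c28x, c51x, c37x, c52x⟩ (.leaf ⟨c29x, c35x, c37x, c43x⟩) (.node ⟨c28x, c51x, c40x, c52x⟩ (.leaf ⟨c28x, c29x, c40x, c43x⟩) (.leaf ⟨c50x, c51x, c13x, c52x⟩))) (.node ⟨c53x, c59x, c13x, c55x⟩ (.leaf ⟨c53x, c54x, c13x, c55x⟩) (.node ⟨c56x, c59x, c13x, c58x⟩ (.leaf ⟨c56x, c57x, c13x, c58x⟩) (.leaf ⟨c51x, c59x, c13x, c60x⟩)))) (.node ⟨c49x, c69x, c13x, c66x⟩ (.node ⟨c49x, c56x, c13x, c63x⟩ (.leaf ⟨c49x, c61x, c13x, c62x⟩) (.node ⟨c61x, c56x, c13x, c63x⟩ (.leaf ⟨c61x, c53x, c13x, c63x⟩) (.leaf ⟨c54x, c56x, c13x, c64x⟩))) (.node ⟨c57x, c69x, c13x, c66x⟩ (.leaf ⟨c57x, c65x, c13x, c66x⟩) (.node ⟨c67x, c69x, c13x, c62x⟩ (.leaf ⟨c67x, c68x, c13x, c64x⟩) (.leaf ⟨c68x, c69x, c13x, c62x⟩))))))) (.node ⟨c72x, c134x, c13x, c125x⟩ (.node ⟨c72x, c98x, c13x, c91x⟩ (.node ⟨c72x, c86x, c13x, c79x⟩ (.node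 ⟨c72x, c67x, c13x, c70x⟩ (.node ⟨c65x, c67x, c13x, c70x⟩ (.leaf ⟨c65x, c50x, c13x, c70x⟩) (.leaf ⟨c59x, c67x, c13x, c71x⟩)) (.node ⟨c72x, c59x, c58x, c71x⟩ (.leaf ⟨c72x, c57x, c73x, c66x⟩) (.node ⟨c74x, c59x, c58x, c71x⟩ (.leaf ⟨c74x, c75x, c73x, c76x⟩) (.leaf ⟨c77x, c59x, c58x, c71x⟩)))) (.node ⟨c69x, c86x, c43x, c79x⟩ (.node ⟨c69x, c83x, c43x, c79x⟩ (.leaf ⟨c69x, c78x, c43x, c79x⟩) (.node ⟨c80x, c83x, c52x, c73x⟩ (.leaf ⟨c80x, c81x, c58x, c73x⟩) (.leaf ⟨c82x, c83x, c52x, c73x⟩))) (.node ⟨c83x, c86x, c60x, c63x⟩ (.leaf ⟨c83x, c84x, c60x, c73x⟩) (.node ⟨c87x, c86x, c60x, c63x⟩ (.leaf ⟨c85x, c86x, c60x, c58x⟩) (.leaf ⟨c87x, c85x, c60x, c63x⟩))))) (.node ⟨c50x, c98x, c60x, c91x⟩ (.node ⟨c50x, c93x, c55x, c91x⟩ (.node ⟨c50x, c77x, c73x, c88x⟩ (.leaf ⟨c50x, c51x, c73x, c70x⟩) (.node ⟨c51x, c77x, c73x,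 c88x⟩ (.leaf ⟨c51x, c74x, c73x, c88x⟩) (.leaf ⟨c89x, c77x, c63x, c71x⟩))) (.node ⟨c78x, c93x, c55x, c91x⟩ (.leaf ⟨c78x, c90x, c62x, c91x⟩) (.node ⟨c90x, c93x, c55x, c91x⟩ (.leaf ⟨c90x, c92x, c63x, c91x⟩) (.leaf ⟨c92x, c93x, c55x, c91x⟩)))) (.node ⟨c93x, c98x, c60x, c91x⟩ (.node ⟨c93x, c84x, c58x, c91x⟩ (.leaf ⟨c93x, c94x, c64x, c91x⟩) (.node ⟨c94x, c84x, c58x, c91x⟩ (.leaf ⟨c94x, c80x, c58x, c91x⟩) (.leaf ⟨c95x, c84x, c76x, c91x⟩))) (.node ⟨c84x, c98x, c60x, c91x⟩ (.leaf ⟨c84x, c87x, c60x, c91x⟩) (.node ⟨c96x, c98x, c64x, c91x⟩ (.leaf ⟨c96x, c97x, c64x, c91x⟩) (.leaf ⟨c97x, c98x, c62x, c91x⟩)))))) (.node ⟨c80x, c134x, c66x, c125x⟩ (.node ⟨c80x, c114x, c66x, c104x⟩ (.node ⟨c80x, c101x, c66x, c102x⟩ (.node ⟨c80x, c96x, c66x, c91x⟩ (.leaf ⟨c80x, c99x, c66x, c91x⟩) (.leaf ⟨c87x, c96x, c71x, c91x⟩)) (.node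 ⟨c99x, c101x, c70x, c102x⟩ (.leaf ⟨c99x, c83x, c70x, c91x⟩) (.node ⟨c83x, c101x, c88x, c102x⟩ (.leaf ⟨c83x, c95x, c88x, c91x⟩) (.leaf ⟨c100x, c101x, c79x, c102x⟩)))) (.node ⟨c98x, c114x, c79x, c104x⟩ (.node ⟨c98x, c108x, c79x, c104x⟩ (.leaf ⟨c98x, c103x, c79x, c104x⟩) (.node ⟨c103x, c108x, c79x, c106x⟩ (.leaf ⟨c103x, c105x, c79x, c106x⟩) (.leaf ⟨c107x, c108x, c79x, c109x⟩))) (.node ⟨c108x, c114x, c79x, c112x⟩ (.leaf ⟨c108x, c100x, c79x, c110x⟩) (.node ⟨c101x, c114x, c79x, c112x⟩ (.leaf ⟨c101x, c111x, c79x, c112x⟩) (.leaf ⟨c113x, c114x, c79x, c115x⟩))))) (.node ⟨c105x, c134x, c79x, c125x⟩ (.node ⟨c105x, c123x, c79x, c121x⟩ (.node ⟨c105x, c107x, c79x, c120x⟩ (.leaf ⟨c105x, c116x, c79x, c117x⟩) (.node ⟨c116x, c107x, c79x, c120x⟩ (.leaf ⟨c116x, c118x, c79x, c119x⟩) (.leaf ⟨c118x, c107x, c79x, c120x⟩)))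 (.node ⟨c111x, c123x, c79x, c121x⟩ (.leaf ⟨c111x, c113x, c79x, c121x⟩) (.node ⟨c114x, c123x, c79x, c119x⟩ (.leaf ⟨c114x, c122x, c79x, c119x⟩) (.leaf ⟨c122x, c123x, c79x, c104x⟩)))) (.node ⟨c123x, c134x, c91x, c125x⟩ (.node ⟨c123x, c130x, c91x, c125x⟩ (.leaf ⟨c123x, c124x, c91x, c125x⟩) (.node ⟨c126x, c130x, c110x, c128x⟩ (.leaf ⟨c126x, c127x, c109x, c128x⟩) (.leaf ⟨c129x, c130x, c110x, c128x⟩))) (.node ⟨c130x, c134x, c102x, c128x⟩ (.leaf ⟨c130x, c131x, c102x, c128x⟩) (.node ⟨c131x, c134x, c115x, c128x⟩ (.leaf ⟨c131x, c132x, c112x, c128x⟩) (.leaf ⟨c133x, c134x, c115x, c106x⟩)))))))) (.node ⟨c107x, c219x, c110x, c208x⟩ (.node ⟨c107x, c175x, c110x, c168x⟩ (.node ⟨c107x, c153x, c110x, c159x⟩ (.node ⟨c107x, c143x, c110x, c142x⟩ (.node ⟨c107x, c139x, c106x, c137x⟩ (.node ⟨c107x, c100x, c128x, c137x⟩ (.leaf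 ⟨c107x, c135x, c128x, c120x⟩) (.leaf ⟨c136x, c100x, c128x, c137x⟩)) (.node ⟨c100x, c139x, c106x, c121x⟩ (.leaf ⟨c100x, c111x, c128x, c121x⟩) (.node ⟨c113x, c139x, c106x, c121x⟩ (.leaf ⟨c113x, c138x, c106x, c121x⟩) (.leaf ⟨c138x, c139x, c120x, c121x⟩)))) (.node ⟨c124x, c143x, c110x, c142x⟩ (.node ⟨c141x, c143x, c110x, c142x⟩ (.leaf ⟨c134x, c140x, c115x, c120x⟩) (.node ⟨c141x, c143x, c110x, c142x⟩ (.leaf ⟨c141x, c129x, c110x, c142x⟩) (.leaf ⟨c140x, c143x, c115x, c142x⟩))) (.node ⟨c124x, c141x, c109x, c142x⟩ (.leaf ⟨c124x, c144x, c104x, c142x⟩) (.node ⟨c144x, c141x, c109x, c142x⟩ (.leaf ⟨c144x, c145x, c106x, c142x⟩) (.leaf ⟨c127x, c141x, c109x, c142x⟩))))) (.node ⟨c145x, c153x, c104x, c159x⟩ (.node ⟨c145x, c149x, c104x, c142x⟩ (.node ⟨c145x, c127x, c119x, c142x⟩ (.leaf ⟨c145x, c146x, c117x, c142x⟩)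 (.node ⟨c146x, c127x, c119x, c142x⟩ (.leaf ⟨c146x, c147x, c119x, c142x⟩) (.leaf ⟨c147x, c127x, c120x, c142x⟩))) (.node ⟨c130x, c149x, c104x, c142x⟩ (.leaf ⟨c130x, c140x, c121x, c142x⟩) (.node ⟨c143x, c149x, c104x, c142x⟩ (.leaf ⟨c143x, c148x, c119x, c142x⟩) (.leaf ⟨c148x, c149x, c104x, c142x⟩)))) (.node ⟨c129x, c153x, c137x, c159x⟩ (.node ⟨c129x, c153x, c137x, c154x⟩ (.leaf ⟨c129x, c130x, c137x, c142x⟩) (.node ⟨c150x, c153x, c142x, c154x⟩ (.leaf ⟨c150x, c151x, c142x, c152x⟩) (.leaf ⟨c151x, c153x, c142x, c154x⟩))) (.node ⟨c155x, c160x, c142x, c159x⟩ (.leaf ⟨c155x, c156x, c142x, c157x⟩) (.node ⟨c156x, c160x, c142x, c159x⟩ (.leaf ⟨c156x, c158x, c142x, c159x⟩) (.leaf ⟨c158x, c160x, c142x, c161x⟩)))))) (.node ⟨c145x, c175x, c125x, c168x⟩ (.node ⟨c145x, c164x, c125x, c168x⟩ (.node ⟨c126x, c164x, c142x,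 c165x⟩ (.node ⟨c126x, c130x, c152x, c162x⟩ (.leaf ⟨c126x, c127x, c161x, c162x⟩) (.leaf ⟨c129x, c130x, c152x, c162x⟩)) (.node ⟨c130x, c164x, c142x, c165x⟩ (.leaf ⟨c130x, c132x, c154x, c162x⟩) (.node ⟨c134x, c164x, c142x, c165x⟩ (.leaf ⟨c134x, c140x, c154x, c161x⟩) (.leaf ⟨c163x, c164x, c142x, c165x⟩)))) (.node ⟨c145x, c163x, c125x, c168x⟩ (.node ⟨c145x, c126x, c161x, c166x⟩ (.leaf ⟨c145x, c146x, c157x, c166x⟩) (.node ⟨c146x, c126x, c161x, c166x⟩ (.leaf ⟨c146x, c147x, c159x, c166x⟩) (.leaf ⟨c147x, c126x, c161x, c166x⟩))) (.node ⟨c132x, c163x, c125x, c168x⟩ (.leaf ⟨c133x, c134x, c154x, c167x⟩) (.node ⟨c132x, c163x, c125x, c168x⟩ (.leaf ⟨c149x, c163x, c125x, c168x⟩) (.leaf ⟨c132x, c133x, c154x, c166x⟩))))) (.node ⟨c164x, c175x, c142x, c178x⟩ (.node ⟨c164x, c175x, c142x, c171x⟩ (.node ⟨c164x, c150x, c142x,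 c171x⟩ (.leaf ⟨c164x, c155x, c142x, c167x⟩) (.node ⟨c160x, c150x, c142x, c171x⟩ (.leaf ⟨c160x, c169x, c142x, c170x⟩) (.leaf ⟨c169x, c150x, c142x, c171x⟩))) (.node ⟨c153x, c175x, c142x, c173x⟩ (.leaf ⟨c153x, c172x, c142x, c173x⟩) (.node ⟨c172x, c175x, c142x, c165x⟩ (.leaf ⟨c172x, c174x, c142x, c159x⟩) (.leaf ⟨c174x, c175x, c142x, c165x⟩)))) (.node ⟨c176x, c153x, c161x, c178x⟩ (.node ⟨c176x, c177x, c162x, c178x⟩ (.leaf ⟨c176x, c160x, c162x, c170x⟩) (.node ⟨c150x, c177x, c162x, c178x⟩ (.leaf ⟨c150x, c151x, c162x, c171x⟩) (.leaf ⟨c151x, c177x, c162x, c178x⟩))) (.node ⟨c177x, c153x, c161x, c173x⟩ (.leaf ⟨c177x, c179x, c162x, c180x⟩) (.node ⟨c182x, c153x, c161x, c173x⟩ (.leaf ⟨c181x, c153x, c161x, c173x⟩) (.leaf ⟨c182x, c181x, c167x, c173x⟩))))))) (.node ⟨c124x, c219x, c159x, c208x⟩ (.node ⟨c124x, c198x,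 c159x, c192x⟩ (.node ⟨c124x, c160x, c159x, c184x⟩ (.node ⟨c124x, c149x, c159x, c166x⟩ (.node ⟨c124x, c145x, c165x, c166x⟩ (.leaf ⟨c124x, c144x, c165x, c166x⟩) (.leaf ⟨c144x, c145x, c167x, c166x⟩)) (.node ⟨c131x, c149x, c159x, c166x⟩ (.leaf ⟨c131x, c132x, c180x, c166x⟩) (.node ⟨c143x, c149x, c159x, c166x⟩ (.leaf ⟨c143x, c148x, c159x, c166x⟩) (.leaf ⟨c148x, c149x, c165x, c166x⟩)))) (.node ⟨c126x, c160x, c170x, c184x⟩ (.node ⟨c126x, c143x, c170x, c166x⟩ (.leaf ⟨c126x, c141x, c170x, c166x⟩) (.node ⟨c141x, c143x, c173x, c166x⟩ (.leaf ⟨c141x, c130x, c171x, c166x⟩) (.leaf ⟨c133x, c143x, c173x, c166x⟩))) (.node ⟨c130x, c160x, c178x, c184x⟩ (.leaf ⟨c130x, c131x, c178x, c166x⟩) (.node ⟨c183x, c160x, c166x, c184x⟩ (.leaf ⟨c183x, c176x, c166x, c184x⟩) (.leaf ⟨c176x, c160x, c166x, c185x⟩))))) (.node ⟨c163x, c198x,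 c166x, c192x⟩ (.node ⟨c163x, c179x, c166x, c192x⟩ (.node ⟨c163x, c183x, c166x, c188x⟩ (.leaf ⟨c163x, c164x, c166x, c186x⟩) (.node ⟨c164x, c183x, c166x, c188x⟩ (.leaf ⟨c164x, c155x, c166x, c187x⟩) (.leaf ⟨c155x, c183x, c166x, c188x⟩))) (.node ⟨c160x, c179x, c166x, c192x⟩ (.leaf ⟨c150x, c179x, c166x, c189x⟩) (.node ⟨c160x, c150x, c166x, c192x⟩ (.leaf ⟨c190x, c150x, c166x, c191x⟩) (.leaf ⟨c160x, c190x, c166x, c192x⟩)))) (.node ⟨c179x, c198x, c166x, c194x⟩ (.node ⟨c179x, c175x, c166x, c186x⟩ (.leaf ⟨c179x, c182x, c166x, c187x⟩) (.node ⟨c182x, c175x, c166x, c186x⟩ (.leaf ⟨c182x, c172x, c166x, c193x⟩) (.leaf ⟨c174x, c175x, c166x, c186x⟩))) (.node ⟨c172x, c198x, c166x, c194x⟩ (.leaf ⟨c172x, c174x, c166x, c194x⟩) (.node ⟨c195x, c198x, c185x, c199x⟩ (.leaf ⟨c195x, c196x, c184x, c189x⟩) (.leaf ⟨c197x, c198x,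 c185x, c199x⟩)))))) (.node ⟨c183x, c219x, c168x, c208x⟩ (.node ⟨c183x, c205x, c168x, c208x⟩ (.node ⟨c183x, c205x, c168x, c204x⟩ (.node ⟨c183x, c201x, c189x, c188x⟩ (.leaf ⟨c183x, c200x, c189x, c188x⟩) (.leaf ⟨c158x, c201x, c199x, c202x⟩)) (.node ⟨c150x, c205x, c168x, c204x⟩ (.leaf ⟨c150x, c151x, c199x, c191x⟩) (.node ⟨c175x, c205x, c168x, c204x⟩ (.leaf ⟨c175x, c203x, c168x, c204x⟩) (.leaf ⟨c196x, c205x, c184x, c194x⟩)))) (.node ⟨c200x, c205x, c199x, c208x⟩ (.node ⟨c200x, c160x, c199x, c206x⟩ (.leaf ⟨c200x, c156x, c194x, c188x⟩) (.node ⟨c201x, c160x, c199x, c206x⟩ (.leaf ⟨c201x, c176x, c199x, c206x⟩) (.leaf ⟨c176x, c160x, c199x, c192x⟩))) (.node ⟨c203x, c205x, c187x, c208x⟩ (.leaf ⟨c203x, c207x, c186x, c208x⟩) (.node ⟨c207x, c205x, c187x, c208x⟩ (.leaf ⟨c207x, c209x, c187x, c208x⟩) (.leaf ⟨c209x,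 c205x, c188x, c208x⟩))))) (.node ⟨c205x, c219x, c184x, c208x⟩ (.node ⟨c205x, c215x, c184x, c208x⟩ (.node ⟨c205x, c212x, c184x, c208x⟩ (.leaf ⟨c210x, c197x, c184x, c199x⟩) (.node ⟨c205x, c212x, c184x, c208x⟩ (.leaf ⟨c211x, c212x, c189x, c199x⟩) (.leaf ⟨c205x, c210x, c184x, c208x⟩))) (.node ⟨c212x, c215x, c189x, c208x⟩ (.leaf ⟨c212x, c213x, c189x, c208x⟩) (.node ⟨c213x, c215x, c193x, c208x⟩ (.leaf ⟨c213x, c214x, c187x, c208x⟩) (.leaf ⟨c214x, c215x, c193x, c208x⟩)))) (.node ⟨c210x, c219x, c186x, c208x⟩ (.node ⟨c210x, c217x, c202x, c208x⟩ (.leaf ⟨c210x, c216x, c202x, c208x⟩) (.node ⟨c216x, c217x, c192x, c208x⟩ (.leaf ⟨c216x, c197x, c206x, c208x⟩) (.leaf ⟨c197x, c217x, c192x, c208x⟩))) (.node ⟨c217x, c219x, c186x, c208x⟩ (.leaf ⟨c217x, c212x, c191x, c208x⟩) (.node ⟨c215x, c219x, c186x, c208x⟩ (.leaf ⟨c215x,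 c218x, c194x, c208x⟩) (.leaf ⟨c218x, c219x, c186x, c208x⟩))))))))) (.node ⟨c219x, c461x, c204x, c452x⟩ (.node ⟨c219x, c347x, c204x, c340x⟩ (.node ⟨c219x, c287x, c204x, c286x⟩ (.node ⟨c219x, c257x, c204x, c250x⟩ (.node ⟨c219x, c230x, c204x, c235x⟩ (.node ⟨c220x, c230x, c204x, c225x⟩ (.node ⟨c220x, c224x, c204x, c225x⟩ (.leaf ⟨c220x, c221x, c204x, c222x⟩) (.leaf ⟨c223x, c224x, c204x, c225x⟩)) (.node ⟨c224x, c230x, c204x, c231x⟩ (.leaf ⟨c224x, c226x, c204x, c227x⟩) (.node ⟨c226x, c230x, c204x, c231x⟩ (.leaf ⟨c226x, c228x, c204x, c229x⟩) (.leaf ⟨c228x, c230x, c204x, c231x⟩)))) (.node ⟨c219x, c230x, c204x, c235x⟩ (.node ⟨c219x, c223x, c204x, c235x⟩ (.leaf ⟨c219x, c232x, c204x, c233x⟩) (.node ⟨c232x, c223x, c204x, c235x⟩ (.leaf ⟨c232x, c220x, c204x, c234x⟩) (.leaf ⟨c221x, c223x, c204x, c235x⟩))) (.node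 ⟨c236x, c230x, c237x, c235x⟩ (.leaf ⟨c236x, c221x, c237x, c235x⟩) (.node ⟨c223x, c230x, c238x, c235x⟩ (.leaf ⟨c223x, c226x, c238x, c235x⟩) (.leaf ⟨c239x, c230x, c238x, c240x⟩))))) (.node ⟨c230x, c257x, c204x, c250x⟩ (.node ⟨c230x, c248x, c204x, c240x⟩ (.node ⟨c241x, c245x, c204x, c234x⟩ (.leaf ⟨c241x, c242x, c204x, c234x⟩) (.node ⟨c243x, c245x, c204x, c233x⟩ (.leaf ⟨c243x, c244x, c204x, c237x⟩) (.leaf ⟨c244x, c245x, c204x, c233x⟩))) (.node ⟨c230x, c248x, c204x, c240x⟩ (.leaf ⟨c242x, c243x, c204x, c246x⟩) (.node ⟨c230x, c248x, c204x, c240x⟩ (.leaf ⟨c230x, c241x, c204x, c240x⟩) (.leaf ⟨c247x, c248x, c227x, c238x⟩)))) (.node ⟨c245x, c257x, c208x, c250x⟩ (.node ⟨c245x, c252x, c208x, c250x⟩ (.leaf ⟨c245x, c249x, c208x, c250x⟩) (.node ⟨c253x, c252x, c222x, c240x⟩ (.leaf ⟨c251x, c252x, c222x, c237x⟩) (.leaf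 ⟨c253x, c251x, c222x, c240x⟩))) (.node ⟨c254x, c257x, c229x, c238x⟩ (.leaf ⟨c254x, c247x, c225x, c238x⟩) (.node ⟨c248x, c257x, c229x, c238x⟩ (.leaf ⟨c248x, c255x, c229x, c238x⟩) (.leaf ⟨c256x, c257x, c231x, c238x⟩)))))) (.node ⟨c258x, c287x, c229x, c286x⟩ (.node ⟨c258x, c269x, c229x, c262x⟩ (.node ⟨c258x, c253x, c222x, c262x⟩ (.node ⟨c258x, c259x, c238x, c260x⟩ (.leaf ⟨c258x, c236x, c240x, c235x⟩) (.leaf ⟨c226x, c259x, c238x, c260x⟩)) (.node ⟨c249x, c253x, c222x, c262x⟩ (.leaf ⟨c249x, c261x, c233x, c262x⟩) (.node ⟨c261x, c253x, c222x, c262x⟩ (.leaf ⟨c261x, c263x, c234x, c262x⟩) (.leaf ⟨c263x, c253x, c222x, c262x⟩)))) (.node ⟨c255x, c269x, c229x, c262x⟩ (.node ⟨c255x, c266x, c229x, c262x⟩ (.leaf ⟨c255x, c264x, c229x, c262x⟩) (.node ⟨c264x, c266x, c231x, c262x⟩ (.leaf ⟨c264x, c256x, c231x, c262x⟩)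 (.leaf ⟨c265x, c266x, c234x, c262x⟩))) (.node ⟨c266x, c269x, c237x, c262x⟩ (.leaf ⟨c266x, c267x, c246x, c262x⟩) (.node ⟨c267x, c269x, c237x, c262x⟩ (.leaf ⟨c267x, c268x, c237x, c262x⟩) (.leaf ⟨c268x, c269x, c233x, c262x⟩))))) (.node ⟨c253x, c287x, c240x, c286x⟩ (.node ⟨c253x, c276x, c240x, c277x⟩ (.node ⟨c253x, c265x, c240x, c262x⟩ (.leaf ⟨c253x, c248x, c235x, c262x⟩) (.node ⟨c248x, c265x, c240x, c262x⟩ (.leaf ⟨c248x, c255x, c260x, c262x⟩) (.leaf ⟨c256x, c265x, c240x, c262x⟩))) (.node ⟨c270x, c276x, c250x, c277x⟩ (.leaf ⟨c270x, c271x, c250x, c272x⟩) (.node ⟨c271x, c276x, c250x, c277x⟩ (.leaf ⟨c271x, c273x, c250x, c274x⟩) (.leaf ⟨c275x, c276x, c250x, c277x⟩)))) (.node ⟨c269x, c287x, c250x, c286x⟩ (.node ⟨c269x, c282x, c250x, c279x⟩ (.leaf ⟨c269x, c278x, c250x, c279x⟩) (.node ⟨c278x, c282x, c250x,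 c281x⟩ (.leaf ⟨c278x, c280x, c250x, c281x⟩) (.leaf ⟨c276x, c282x, c250x, c281x⟩))) (.node ⟨c282x, c287x, c250x, c286x⟩ (.leaf ⟨c282x, c283x, c250x, c284x⟩) (.node ⟨c283x, c287x, c250x, c286x⟩ (.leaf ⟨c283x, c285x, c250x, c286x⟩) (.leaf ⟨c285x, c287x, c250x, c279x⟩))))))) (.node ⟨c280x, c347x, c250x, c340x⟩ (.node ⟨c280x, c317x, c250x, c311x⟩ (.node ⟨c280x, c306x, c250x, c298x⟩ (.node ⟨c280x, c275x, c250x, c291x⟩ (.node ⟨c280x, c275x, c250x, c288x⟩ (.leaf ⟨c280x, c270x, c250x, c288x⟩) (.leaf ⟨c289x, c275x, c250x, c290x⟩)) (.node ⟨c270x, c289x, c250x, c291x⟩ (.leaf ⟨c273x, c289x, c250x, c291x⟩) (.node ⟨c270x, c294x, c277x, c288x⟩ (.leaf ⟨c270x, c292x, c277x, c288x⟩) (.leaf ⟨c293x, c294x, c295x, c296x⟩)))) (.node ⟨c287x, c306x, c262x, c298x⟩ (.node ⟨c287x, c301x, c262x, c298x⟩ (.leaf ⟨c287x, c297x,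 c262x, c298x⟩) (.node ⟨c299x, c301x, c272x, c286x⟩ (.leaf ⟨c299x, c300x, c272x, c277x⟩) (.leaf ⟨c300x, c301x, c272x, c286x⟩))) (.node ⟨c302x, c306x, c274x, c295x⟩ (.leaf ⟨c302x, c303x, c272x, c295x⟩) (.node ⟨c303x, c306x, c274x, c295x⟩ (.leaf ⟨c303x, c304x, c274x, c295x⟩) (.leaf ⟨c305x, c306x, c277x, c295x⟩))))) (.node ⟨c292x, c317x, c272x, c311x⟩ (.node ⟨c292x, c312x, c295x, c311x⟩ (.node ⟨c292x, c308x, c295x, c291x⟩ (.leaf ⟨c292x, c307x, c286x, c288x⟩) (.node ⟨c271x, c308x, c295x, c291x⟩ (.leaf ⟨c271x, c273x, c295x, c291x⟩) (.leaf ⟨c275x, c308x, c295x, c290x⟩))) (.node ⟨c294x, c312x, c295x, c311x⟩ (.leaf ⟨c294x, c271x, c295x, c309x⟩) (.node ⟨c297x, c312x, c281x, c311x⟩ (.leaf ⟨c297x, c310x, c279x, c311x⟩) (.leaf ⟨c310x, c312x, c281x, c311x⟩)))) (.node ⟨c301x, c317x, c272x, c311x⟩ (.node ⟨c301x,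 c314x, c272x, c311x⟩ (.leaf ⟨c301x, c302x, c272x, c311x⟩) (.node ⟨c306x, c314x, c277x, c311x⟩ (.leaf ⟨c306x, c313x, c277x, c311x⟩) (.leaf ⟨c313x, c314x, c281x, c311x⟩))) (.node ⟨c314x, c317x, c284x, c311x⟩ (.leaf ⟨c314x, c315x, c284x, c311x⟩) (.node ⟨c315x, c317x, c279x, c311x⟩ (.leaf ⟨c315x, c316x, c286x, c311x⟩) (.leaf ⟨c316x, c317x, c279x, c311x⟩)))))) (.node ⟨c312x, c347x, c296x, c340x⟩ (.node ⟨c312x, c333x, c296x, c324x⟩ (.node ⟨c312x, c306x, c296x, c311x⟩ (.node ⟨c312x, c318x, c296x, c311x⟩ (.leaf ⟨c312x, c301x, c288x, c311x⟩) (.leaf ⟨c302x, c318x, c296x, c311x⟩)) (.node ⟨c318x, c306x, c290x, c311x⟩ (.leaf ⟨c318x, c303x, c309x, c311x⟩) (.node ⟨c303x, c306x, c290x, c311x⟩ (.leaf ⟨c303x, c319x, c291x, c311x⟩) (.leaf ⟨c319x, c306x, c290x, c311x⟩)))) (.node ⟨c320x, c333x, c298x, c324x⟩ (.node ⟨c320x,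 c325x, c298x, c324x⟩ (.leaf ⟨c320x, c321x, c298x, c322x⟩) (.node ⟨c321x, c325x, c298x, c324x⟩ (.leaf ⟨c321x, c323x, c298x, c324x⟩) (.leaf ⟨c323x, c325x, c298x, c326x⟩))) (.node ⟨c327x, c333x, c298x, c324x⟩ (.leaf ⟨c327x, c328x, c298x, c329x⟩) (.node ⟨c328x, c333x, c298x, c324x⟩ (.leaf ⟨c328x, c330x, c298x, c331x⟩) (.leaf ⟨c332x, c333x, c298x, c324x⟩))))) (.node ⟨c317x, c347x, c298x, c340x⟩ (.node ⟨c317x, c332x, c298x, c340x⟩ (.node ⟨c317x, c337x, c298x, c338x⟩ (.leaf ⟨c317x, c334x, c298x, c335x⟩) (.node ⟨c334x, c337x, c298x, c338x⟩ (.leaf ⟨c334x, c320x, c298x, c336x⟩) (.leaf ⟨c325x, c337x, c298x, c338x⟩))) (.node ⟨c337x, c332x, c298x, c340x⟩ (.leaf ⟨c330x, c332x, c298x, c339x⟩) (.node ⟨c337x, c330x, c298x, c340x⟩ (.leaf ⟨c337x, c327x, c298x, c340x⟩) (.leaf ⟨c341x, c330x, c326x, c339x⟩)))) (.node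 ⟨c333x, c347x, c298x, c336x⟩ (.node ⟨c333x, c347x, c298x, c335x⟩ (.leaf ⟨c333x, c342x, c298x, c335x⟩) (.node ⟨c343x, c347x, c329x, c345x⟩ (.leaf ⟨c343x, c344x, c329x, c345x⟩) (.leaf ⟨c346x, c347x, c331x, c326x⟩))) (.node ⟨c348x, c346x, c331x, c336x⟩ (.leaf ⟨c348x, c349x, c326x, c345x⟩) (.node ⟨c344x, c346x, c331x, c336x⟩ (.leaf ⟨c344x, c350x, c331x, c345x⟩) (.leaf ⟨c351x, c346x, c331x, c336x⟩)))))))) (.node ⟨c352x, c461x, c311x, c452x⟩ (.node ⟨c352x, c413x, c311x, c412x⟩ (.node ⟨c352x, c378x, c311x, c375x⟩ (.node ⟨c352x, c365x, c311x, c361x⟩ (.node ⟨c352x, c341x, c345x, c354x⟩ (.node ⟨c352x, c328x, c345x, c340x⟩ (.leaf ⟨c352x, c325x, c345x, c338x⟩) (.leaf ⟨c327x, c328x, c345x, c340x⟩)) (.node ⟨c328x, c341x, c345x, c354x⟩ (.leaf ⟨c328x, c353x, c345x, c354x⟩) (.node ⟨c353x, c341x, c345x, c339x⟩ (.leaf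 ⟨c353x, c355x, c345x, c356x⟩) (.leaf ⟨c357x, c341x, c336x, c339x⟩)))) (.node ⟨c342x, c365x, c311x, c361x⟩ (.node ⟨c342x, c351x, c311x, c361x⟩ (.leaf ⟨c342x, c358x, c311x, c359x⟩) (.node ⟨c360x, c351x, c331x, c361x⟩ (.leaf ⟨c360x, c348x, c326x, c361x⟩) (.leaf ⟨c350x, c351x, c331x, c361x⟩))) (.node ⟨c362x, c365x, c322x, c361x⟩ (.leaf ⟨c362x, c363x, c322x, c361x⟩) (.node ⟨c363x, c365x, c324x, c361x⟩ (.leaf ⟨c363x, c360x, c324x, c361x⟩) (.leaf ⟨c364x, c365x, c324x, c361x⟩))))) (.node ⟨c358x, c378x, c335x, c375x⟩ (.node ⟨c358x, c369x, c335x, c361x⟩ (.node ⟨c358x, c367x, c335x, c361x⟩ (.leaf ⟨c358x, c366x, c335x, c361x⟩) (.node ⟨c366x, c367x, c336x, c361x⟩ (.leaf ⟨c366x, c362x, c336x, c361x⟩) (.leaf ⟨c348x, c367x, c338x, c361x⟩))) (.node ⟨c368x, c369x, c335x, c361x⟩ (.leaf ⟨c368x, c350x, c356x, c361x⟩)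 (.node ⟨c351x, c369x, c335x, c361x⟩ (.leaf ⟨c351x, c364x, c339x, c361x⟩) (.leaf ⟨c365x, c369x, c335x, c361x⟩)))) (.node ⟨c367x, c378x, c340x, c375x⟩ (.node ⟨c367x, c371x, c340x, c372x⟩ (.leaf ⟨c367x, c344x, c340x, c361x⟩) (.node ⟨c344x, c371x, c354x, c372x⟩ (.leaf ⟨c344x, c368x, c354x, c361x⟩) (.leaf ⟨c370x, c371x, c359x, c372x⟩))) (.node ⟨c373x, c378x, c359x, c375x⟩ (.leaf ⟨c373x, c374x, c359x, c375x⟩) (.node ⟨c374x, c378x, c359x, c379x⟩ (.leaf ⟨c374x, c370x, c359x, c376x⟩) (.leaf ⟨c377x, c378x, c359x, c379x⟩)))))) (.node ⟨c369x, c413x, c359x, c412x⟩ (.node ⟨c369x, c397x, c359x, c393x⟩ (.node ⟨c369x, c373x, c359x, c388x⟩ (.node ⟨c369x, c382x, c359x, c381x⟩ (.leaf ⟨c369x, c380x, c359x, c381x⟩) (.leaf ⟨c380x, c382x, c359x, c383x⟩)) (.node ⟨c382x, c373x, c359x, c388x⟩ (.leaf ⟨c382x, c384x, c359x, c385x⟩)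 (.node ⟨c384x, c373x, c359x, c388x⟩ (.leaf ⟨c384x, c386x, c359x, c387x⟩) (.leaf ⟨c386x, c373x, c359x, c388x⟩)))) (.node ⟨c371x, c397x, c359x, c393x⟩ (.node ⟨c371x, c392x, c359x, c387x⟩ (.leaf ⟨c371x, c389x, c359x, c390x⟩) (.node ⟨c378x, c392x, c359x, c387x⟩ (.leaf ⟨c378x, c391x, c359x, c387x⟩) (.leaf ⟨c391x, c392x, c359x, c381x⟩))) (.node ⟨c389x, c397x, c359x, c393x⟩ (.leaf ⟨c389x, c377x, c359x, c393x⟩) (.node ⟨c394x, c397x, c372x, c396x⟩ (.leaf ⟨c394x, c395x, c376x, c396x⟩) (.leaf ⟨c395x, c397x, c372x, c396x⟩))))) (.node ⟨c373x, c413x, c361x, c412x⟩ (.node ⟨c373x, c403x, c361x, c404x⟩ (.node ⟨c373x, c389x, c396x, c400x⟩ (.leaf ⟨c373x, c398x, c396x, c388x⟩) (.node ⟨c399x, c389x, c396x, c400x⟩ (.leaf ⟨c399x, c370x, c396x, c400x⟩) (.leaf ⟨c370x, c389x, c396x, c393x⟩))) (.node ⟨c377x, c403x, c361x,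 c404x⟩ (.leaf ⟨c377x, c401x, c383x, c393x⟩) (.node ⟨c401x, c403x, c361x, c404x⟩ (.leaf ⟨c401x, c402x, c388x, c393x⟩) (.leaf ⟨c392x, c403x, c361x, c404x⟩)))) (.node ⟨c405x, c413x, c376x, c412x⟩ (.node ⟨c405x, c409x, c379x, c396x⟩ (.leaf ⟨c405x, c406x, c375x, c396x⟩) (.node ⟨c397x, c409x, c379x, c396x⟩ (.leaf ⟨c397x, c407x, c390x, c396x⟩) (.leaf ⟨c408x, c409x, c379x, c383x⟩))) (.node ⟨c411x, c413x, c376x, c412x⟩ (.leaf ⟨c409x, c410x, c379x, c388x⟩) (.node ⟨c411x, c413x, c376x, c412x⟩ (.leaf ⟨c411x, c394x, c376x, c412x⟩) (.leaf ⟨c410x, c413x, c379x, c412x⟩))))))) (.node ⟨c403x, c461x, c375x, c452x⟩ (.node ⟨c403x, c443x, c375x, c440x⟩ (.node ⟨c403x, c421x, c375x, c422x⟩ (.node ⟨c403x, c419x, c375x, c412x⟩ (.node ⟨c403x, c415x, c383x, c412x⟩ (.leaf ⟨c403x, c414x, c381x, c412x⟩) (.leaf ⟨c414x, c415x, c383x,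 c412x⟩)) (.node ⟨c416x, c419x, c375x, c412x⟩ (.leaf ⟨c416x, c417x, c387x, c412x⟩) (.node ⟨c406x, c419x, c375x, c412x⟩ (.leaf ⟨c406x, c411x, c375x, c412x⟩) (.leaf ⟨c418x, c419x, c381x, c412x⟩)))) (.node ⟨c415x, c421x, c387x, c422x⟩ (.node ⟨c415x, c418x, c387x, c412x⟩ (.leaf ⟨c415x, c416x, c385x, c412x⟩) (.node ⟨c417x, c418x, c387x, c412x⟩ (.leaf ⟨c417x, c406x, c388x, c412x⟩) (.leaf ⟨c413x, c418x, c387x, c412x⟩))) (.node ⟨c394x, c421x, c393x, c422x⟩ (.leaf ⟨c395x, c410x, c393x, c412x⟩) (.node ⟨c394x, c421x, c400x, c422x⟩ (.leaf ⟨c394x, c395x, c400x, c412x⟩) (.leaf ⟨c420x, c421x, c404x, c422x⟩))))) (.node ⟨c419x, c443x, c404x, c440x⟩ (.node ⟨c419x, c433x, c404x, c434x⟩ (.node ⟨c419x, c427x, c404x, c426x⟩ (.leaf ⟨c419x, c423x, c404x, c424x⟩) (.node ⟨c423x, c427x, c404x, c426x⟩ (.leaf ⟨c423x, c425x, c404x,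 c426x⟩) (.leaf ⟨c425x, c427x, c404x, c428x⟩))) (.node ⟨c427x, c433x, c404x, c434x⟩ (.leaf ⟨c427x, c429x, c404x, c430x⟩) (.node ⟨c429x, c433x, c404x, c434x⟩ (.leaf ⟨c429x, c431x, c404x, c432x⟩) (.leaf ⟨c431x, c433x, c404x, c434x⟩)))) (.node ⟨c433x, c443x, c404x, c440x⟩ (.node ⟨c421x, c439x, c404x, c424x⟩ (.leaf ⟨c421x, c435x, c404x, c436x⟩) (.node ⟨c437x, c439x, c404x, c424x⟩ (.leaf ⟨c437x, c438x, c404x, c430x⟩) (.leaf ⟨c438x, c439x, c404x, c424x⟩))) (.node ⟨c433x, c443x, c404x, c440x⟩ (.leaf ⟨c433x, c420x, c404x, c440x⟩) (.node ⟨c435x, c443x, c404x, c441x⟩ (.leaf ⟨c435x, c437x, c404x, c441x⟩) (.leaf ⟨c442x, c443x, c412x, c422x⟩)))))) (.node ⟨c449x, c461x, c412x, c452x⟩ (.node ⟨c449x, c448x, c412x, c452x⟩ (.node ⟨c439x, c448x, c412x, c426x⟩ (.node ⟨c439x, c445x, c412x, c426x⟩ (.leaf ⟨c439x, c444x,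 c412x, c424x⟩) (.leaf ⟨c444x, c445x, c412x, c426x⟩)) (.node ⟨c445x, c448x, c412x, c430x⟩ (.leaf ⟨c445x, c446x, c412x, c428x⟩) (.node ⟨c446x, c448x, c412x, c430x⟩ (.leaf ⟨c446x, c447x, c412x, c430x⟩) (.leaf ⟨c447x, c448x, c412x, c432x⟩)))) (.node ⟨c449x, c435x, c432x, c452x⟩ (.node ⟨c449x, c451x, c450x, c452x⟩ (.leaf ⟨c449x, c431x, c450x, c434x⟩) (.node ⟨c420x, c451x, c450x, c452x⟩ (.leaf ⟨c420x, c421x, c450x, c440x⟩) (.leaf ⟨c421x, c451x, c450x, c452x⟩))) (.node ⟨c451x, c435x, c432x, c441x⟩ (.leaf ⟨c451x, c453x, c450x, c454x⟩) (.node ⟨c456x, c435x, c432x, c441x⟩ (.leaf ⟨c455x, c435x, c432x, c441x⟩) (.leaf ⟨c456x, c455x, c426x, c441x⟩))))) (.node ⟨c462x, c461x, c412x, c452x⟩ (.node ⟨c448x, c461x, c412x, c440x⟩ (.node ⟨c448x, c458x, c412x, c440x⟩ (.leaf ⟨c448x, c457x, c412x, c434x⟩) (.node ⟨c457x,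 c458x, c412x, c440x⟩ (.leaf ⟨c457x, c442x, c412x, c440x⟩) (.leaf ⟨c443x, c458x, c412x, c436x⟩))) (.node ⟨c458x, c461x, c412x, c441x⟩ (.leaf ⟨c458x, c459x, c412x, c441x⟩) (.node ⟨c459x, c461x, c412x, c424x⟩ (.leaf ⟨c459x, c460x, c412x, c430x⟩) (.leaf ⟨c460x, c461x, c412x, c424x⟩)))) (.node ⟨c462x, c458x, c432x, c452x⟩ (.node ⟨c462x, c463x, c450x, c452x⟩ (.leaf ⟨c462x, c448x, c450x, c434x⟩) (.node ⟨c442x, c463x, c450x, c452x⟩ (.leaf ⟨c442x, c443x, c450x, c440x⟩) (.leaf ⟨c443x, c463x, c450x, c452x⟩))) (.node ⟨c463x, c458x, c432x, c441x⟩ (.leaf ⟨c463x, c464x, c450x, c454x⟩) (.node ⟨c466x, c458x, c432x, c441x⟩ (.leaf ⟨c465x, c458x, c432x, c441x⟩) (.leaf ⟨c466x, c465x, c426x, c441x⟩)))))))))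

end Pool.Agent.Box4
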